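import Pool.Agent.Lib.MP_06c549_co.T6H.Inst

/-!
# MP_06c549_co, T6H: from the theorem on graphs with faces to guard sets of polygons

If there is no minimal counterexample then every polygon with `h₄` rectangular holes, `h₆` hexagonal
holes and `h'` other holes has a guard set of at most
`(a n + 2 b h₄ + (b + c) h₆ + 2 c h') / (2 N)` vertices.
-/

set_option autoImplicit false
set_option linter.unusedSectionVars false

namespace Pool.Agent.Lib.MP06c549.T6H

open Finset

section

open PG

variable {ι E : Type} [Fintype ι] [DecidableEq ι] [Fintype E] [DecidableEq E]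

/-- a cover of the cells of a rank model -/
theorem hits_of_bound [Nonempty E] {M : RM ι E} (hM : M.Good) (hh : M.Holes) {A : Finset ι}
    (hA : HexSet M A) {a b c N m : ℕ}
    (hb : ∀ (u : ℕ) (K : Gr), K.Cls u m → N * K.tau ≤ K.pot a b c)
    (hm : Fintype.card ι ≤ m) :
    ∃ S T : Finset E, N * (S.card + T.card) ≤
      a * Fintype.card E + b * (Fintype.card ι - (csF M A).card) + c * ((csF M A).card - 1) ∧
      Hits M S T := by
  have hcls := gr_cls hM hh hA (m := m) ((card_le_univ _).trans hm)
  have h1 := hb _ _ hcls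
  rw [gr_pot hA] at h1
  obtain ⟨X, Y, ⟨-, hY, hd⟩, hp⟩ := Gr.exists_tau hcls.good
  obtain ⟨S, T, hS, hT, hST⟩ := gr_hits hA X Y hY hd
  refine ⟨S, T, ?_, hST⟩
  refine le_trans (Nat.mul_le_mul_left N ?_) h1
  rw [← hp]
  unfold Gr.price
  omega

end

/-- the number of rectangular holes -/
def nRect (P : HPoly) : ℕ := (univ.filter fun i => (P.hole i).k = 2).card

/-- the number of holes with six vertices -/
def nHex (P : HPoly) : ℕ := (univ.filter fun i => (P.hole i).k = 3).card

/-- the number of holes with at least eight vertices -/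
def nOct (P : HPoly) : ℕ := (univ.filter fun i => (P.hole i).k ≠ 2 ∧ (P.hole i).k ≠ 3).card

lemma nRect_add (P : HPoly) : nRect P + nHex P + nOct P = P.h := by
  unfold nRect nHex nOct
  have h1 := card_filter_add_card_filter_not (s := (univ : Finset (Fin P.h)))
    (fun i => (P.hole i).k = 2)
  have h2 := card_filter_add_card_filter_not (s := (univ : Finset (Fin P.h)).filter
    fun i => ¬ (P.hole i).k = 2) (fun i => (P.hole i).k = 3)
  rw [filter_filter, filter_filter] at h2
  have h3 : (univ.filter fun i => ¬ (P.hole i).k = 2 ∧ (P.hole i).k = 3) =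
      univ.filter fun i => (P.hole i).k = 3 := by
    ext i
    simp only [mem_filter, mem_univ, true_and]
    constructor
    · exact fun h => h.2
    · exact fun h => ⟨by omega, h⟩
  rw [h3] at h2
  rw [card_univ, Fintype.card_fin] at h1
  change _ + (univ.filter fun i => (P.hole i).k ≠ 2 ∧ (P.hole i).k ≠ 3).card = _ at h2
  omega

open PG in
/-- The theorem on polygons from the theorem on graphs with faces. -/
theorem poly_of_bound {a b c N : ℕ} (hN : 0 < N) (P : HPoly) (hP : P.IsPoly)
    (hb : ∀ (u : ℕ) (K : Gr), K.Cls u (P.h + 1) → N * K.tau ≤ K.pot a b c) :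
    ∃ G : Finset (ℝ × ℝ), (G : Set (ℝ × ℝ)) ⊆ P.vertices ∧
      G.card ≤ (a * P.n + 2 * b * nRect P + (b + c) * nHex P + 2 * c * nOct P) / (2 * N) ∧
      P.Guards G := by
  classical
  refine PG.guard_poly P hP _ ?_
  intro E _ _ M hM hh ho hn hc
  have hne : Nonempty E := by
    obtain ⟨e, _⟩ := hh.surj none
    exact ⟨e⟩
  have hcard : Fintype.card (Option (Fin P.h)) = P.h + 1 := by
    rw [Fintype.card_option, Fintype.card_fin]
  -- the hexagonal holes and their two classes
  set H : Finset (Option (Fin P.h)) :=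
    (univ.filter fun i => (P.hole i).k = 3).map Function.Embedding.some with hHdef
  have hHmem : ∀ i, i ∈ H ↔ i ≠ none ∧ (P.cu i).k = 3 := by
    intro i
    rw [hHdef]
    cases i with
    | none => simp
    | some i =>
      simp only [mem_map, mem_filter, mem_univ, true_and, Function.Embedding.some_apply,
        Option.some.injEq, exists_eq_right, ne_eq, reduceCtorEq, not_false_eq_true]
      exact Iff.rfl
  set A₁ := H.filter fun i => 3 ≤ (univ.filter fun d : Cell M => M.comp d.ub = i).card ∧
    3 ≤ (univ.filter fun d : Cell M => M.comp d.lb = i).card with hA₁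
  set A₂ := H.filter fun i => ¬ (3 ≤ (univ.filter fun d : Cell M => M.comp d.ub = i).card ∧
    3 ≤ (univ.filter fun d : Cell M => M.comp d.lb = i).card) with hA₂
  have hsum : A₁.card + A₂.card = nHex P := by
    have h1 : H.card = nHex P := card_map _
    rw [← h1]
    exact card_filter_add_card_filter_not _
  have hS1 : HexSet M A₁ := by
    intro i hi
    rw [hA₁, mem_filter, hHmem] at hi
    refine ⟨by rw [ho]; exact hi.1.1, ?_, hi.2.1, hi.2.2⟩
    rw [hc i]
    exact hi.1.2
  have hS2 : HexSet (mir M) A₂ := by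
    intro i hi
    rw [hA₂, mem_filter, hHmem] at hi
    have h3 : (univ.filter fun e => M.comp e = i).card = 3 := by
      rw [hc i]
      exact hi.1.2
    have hio : i ≠ M.o := by rw [ho]; exact hi.1.1
    refine ⟨hio, h3, ?_⟩
    rcases hex_len hM hh hio h3 with h | h
    · exact absurd h hi.2
    · exact h
  -- the faces of credit `c`
  have hcs : ∀ A ⊆ H, ((univ.filter fun i => i = (none : Option (Fin P.h)) ∨
      ((P.cu i).k ≠ 2 ∧ i ∉ A))).card + A.card = nHex P + nOct P + 1 := by
    intro A hA
    have h1 : (univ.filter fun i => i = (none : Option (Fin P.h)) ∨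
      ((P.cu i).k ≠ 2 ∧ i ∉ A)) = insert none (((univ.filter fun i => (P.hole i).k ≠ 2).map
        Function.Embedding.some) \ A) := by
      ext i
      cases i with
      | none => simp
      | some i =>
        simp only [mem_filter, mem_univ, true_and, reduceCtorEq, false_or, mem_insert, mem_sdiff,
          mem_map, Function.Embedding.some_apply, Option.some.injEq, exists_eq_right]
        exact Iff.rfl
    have h2 : A ⊆ (univ.filter fun i => (P.hole i).k ≠ 2).map Function.Embedding.some := by
      intro i hi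
      obtain ⟨h3, h4⟩ := (hHmem i).1 (hA hi)
      cases i with
      | none => exact absurd rfl h3
      | some i =>
        simp only [mem_map, mem_filter, mem_univ, true_and, Function.Embedding.some_apply,
          Option.some.injEq, exists_eq_right]
        have h5 : (P.hole i).k = 3 := h4
        omega
    have h3 : ((univ.filter fun i => (P.hole i).k ≠ 2).map
        (Function.Embedding.some : Fin P.h ↪ Option (Fin P.h))).card = nHex P + nOct P := by
      rw [card_map]
      have h4 := card_filter_add_card_filter_not (s := (univ : Finset (Fin P.h)))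
        (fun i => (P.hole i).k = 2)
      have h5 := nRect_add P
      rw [card_univ, Fintype.card_fin] at h4
      change _ + (univ.filter fun i => (P.hole i).k ≠ 2).card = _ at h4
      have h6 : nRect P = (univ.filter fun i => (P.hole i).k = 2).card := rfl
      omega
    rw [h1, card_insert_of_notMem (by simp), ← h3]
    have h4 := card_sdiff_add_card_eq_card h2
    omega
  have hcs1 := hcs A₁ (filter_subset _ _)
  have hcs2 := hcs A₂ (filter_subset _ _)
  have e1 : (csF M A₁) = univ.filter fun i => i = (none : Option (Fin P.h)) ∨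
      ((P.cu i).k ≠ 2 ∧ i ∉ A₁) := by
    unfold csF
    refine filter_congr fun i _ => ?_
    rw [ho, hc i]
  have e2 : (csF (mir M) A₂) = univ.filter fun i => i = (none : Option (Fin P.h)) ∨
      ((P.cu i).k ≠ 2 ∧ i ∉ A₂) := by
    unfold csF
    refine filter_congr fun i _ => ?_
    have h1 : (mir M).o = none := ho
    have h2 : (univ.filter fun e => (mir M).comp e = i).card = (P.cu i).k := hc i
    rw [h1, h2]
  obtain ⟨S₁, T₁, b1, H1⟩ := hits_of_bound hM hh hS1 hb (by rw [hcard])
  obtain ⟨S₂, T₂, b2, H2⟩ := hits_of_bound (good_mir hM) (holes_mir hh) hS2 hb (by rw [hcard])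
  rw [e1, hcard] at b1
  rw [e2, hcard] at b2
  have h5 := nRect_add P
  set x₁ := (univ.filter fun i => i = (none : Option (Fin P.h)) ∨
      ((P.cu i).k ≠ 2 ∧ i ∉ A₁)).card with hx₁
  set x₂ := (univ.filter fun i => i = (none : Option (Fin P.h)) ∨
      ((P.cu i).k ≠ 2 ∧ i ∉ A₂)).card with hx₂
  have f1 : P.h + 1 - x₁ = nRect P + A₁.card := by omega
  have f2 : x₁ - 1 = A₂.card + nOct P := by omega
  have f3 : P.h + 1 - x₂ = nRect P + A₂.card := by omega
  have f4 : x₂ - 1 = A₁.card + nOct P := by omega
  rw [f1, f2] at b1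
  rw [f3, f4] at b2
  have key : N * ((S₁.card + T₁.card) + (S₂.card + T₂.card)) ≤
      a * P.n + 2 * b * nRect P + (b + c) * nHex P + 2 * c * nOct P := by
    rw [← hsum, hn, mul_add N]
    refine (add_le_add b1 b2).trans (le_of_eq ?_)
    ring
  by_cases hle : S₁.card + T₁.card ≤ S₂.card + T₂.card
  · refine ⟨S₁, T₁, ?_, H1⟩
    rw [Nat.le_div_iff_mul_le (by omega)]
    refine le_trans ?_ key
    calc (S₁.card + T₁.card) * (2 * N) = N * ((S₁.card + T₁.card) + (S₁.card + T₁.card)) := by ring
      _ ≤ _ := Nat.mul_le_mul_left N (by omega)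
  · refine ⟨T₂, S₂, ?_, hits_mir hM H2⟩
    rw [Nat.le_div_iff_mul_le (by omega)]
    refine le_trans ?_ key
    calc (T₂.card + S₂.card) * (2 * N) = N * ((S₂.card + T₂.card) + (S₂.card + T₂.card)) := by ring
      _ ≤ _ := Nat.mul_le_mul_left N (by omega)

/-- The theorem on polygons if there is no minimal counterexample. -/
theorem poly_of_no_cx {a b c N : ℕ} (hN : 0 < N) (h : ∀ m u G, ¬ Gr.Cx0 a b c N m u G)
    (P : HPoly) (hP : P.IsPoly) :
    ∃ G : Finset (ℝ × ℝ), (G : Set (ℝ × ℝ)) ⊆ P.vertices ∧
      G.card ≤ (a * P.n + 2 * b * nRect P + (b + c) * nHex P + 2 * c * nOct P) / (2 * N) ∧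
      P.Guards G :=
  poly_of_bound hN P hP fun _ _ hK => Gr.bound_of_no_cx (h _) hK

/-- the number of vertices of the holes -/
lemma holes_n (P : HPoly) (hP : P.IsPoly) :
    4 + 4 * nRect P + 6 * nHex P + 8 * nOct P ≤ P.n := by
  have h1 := hP.outer_simple.two_le
  have h2 : ∀ i, (4 * (if (P.hole i).k = 2 then 1 else 0) + 6 * (if (P.hole i).k = 3 then 1 else 0)) +
      8 * (if (P.hole i).k ≠ 2 ∧ (P.hole i).k ≠ 3 then 1 else 0) ≤ 2 * (P.hole i).k := by
    intro i
    have h3 := (hP.hole_simple i).two_le
    split_ifs <;> omega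
  have h3 := sum_le_sum fun i (_ : i ∈ (univ : Finset (Fin P.h))) => h2 i
  rw [sum_add_distrib, sum_add_distrib, ← mul_sum, ← mul_sum, ← mul_sum, ← card_filter,
    ← card_filter, ← card_filter] at h3
  unfold nRect nHex nOct HPoly.n
  omega

/-- the constant in terms of `n` only -/
theorem poly_of_no_cx' {a b c N : ℕ} (hN : 0 < N) (h1 : 2 * b ≤ c) (h2 : c ≤ 2 * b)
    (h : ∀ m u G, ¬ Gr.Cx0 a b c N m u G) (P : HPoly) (hP : P.IsPoly) :
    ∃ G : Finset (ℝ × ℝ), (G : Set (ℝ × ℝ)) ⊆ P.vertices ∧
      G.card ≤ ((2 * a + b) * P.n - 4 * b) / (4 * N) ∧ P.Guards G := by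
  obtain ⟨G, hG, hc, hg⟩ := poly_of_no_cx hN h P hP
  refine ⟨G, hG, hc.trans ?_, hg⟩
  have h3 := holes_n P hP
  have h4 : c = 2 * b := le_antisymm h2 h1
  subst h4
  have h5 : 2 * (a * P.n + 2 * b * nRect P + (b + 2 * b) * nHex P + 2 * (2 * b) * nOct P) + 4 * b ≤
      (2 * a + b) * P.n := by
    nlinarith [Nat.mul_le_mul_left b h3]
  rw [Nat.le_div_iff_mul_le (by omega)]
  have h6 := Nat.div_mul_le_self
    (a * P.n + 2 * b * nRect P + (b + 2 * b) * nHex P + 2 * (2 * b) * nOct P) (2 * N)
  set q := (a * P.n + 2 * b * nRect P + (b + 2 * b) * nHex P + 2 * (2 * b) * nOct P) / (2 * N)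
  have h7 : q * (4 * N) = 2 * (q * (2 * N)) := by ring
  rw [h7]
  omega

end Pool.Agent.Lib.MP06c549.T6H
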