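import Mathlib

/-!
# MP_06c549_co, T6H: the weights

The inequalities between the weights `a` (vertex), `b` (usable face), `c` (further unusable face)
and the rate `N` which the reductions use. Both `(9, 3, 6, 17)` and `(7, 2, 4, 13)` satisfy them.
-/

set_option autoImplicit false

namespace Pool.Agent.Lib.MP06c549.T6H

/-- admissible weights -/
structure Par (a b c N : ℕ) : Prop where
  pos : 0 < a
  bc : b ≤ c
  bb : 2 * b ≤ c
  cb : c ≤ 2 * b
  aN : a ≤ N
  a2 : N ≤ 2 * a
  a1b3 : N ≤ a + 3 * b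
  a3b3 : 2 * N ≤ 3 * a + 3 * b
  a5b2 : 3 * N ≤ 5 * a + 2 * b
  a6b5 : 4 * N ≤ 6 * a + 5 * b
  a10b4 : 6 * N ≤ 10 * a + 4 * b

lemma par17 : Par 9 3 6 17 := ⟨by norm_num, by norm_num, by norm_num, by norm_num, by norm_num,
  by norm_num, by norm_num, by norm_num, by norm_num, by norm_num, by norm_num⟩

lemma par13 : Par 7 2 4 13 := ⟨by norm_num, by norm_num, by norm_num, by norm_num, by norm_num,
  by norm_num, by norm_num, by norm_num, by norm_num, by norm_num, by norm_num⟩

end Pool.Agent.Lib.MP06c549.T6H
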