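import Pool.Agent.Lib.MP_06c549_co.T6H.Step56
import Pool.Agent.Lib.MP_06c549_co.T6H.Par

/-!
# MP_06c549_co, T6H: the moves of step 7 for general weights

The move `T`, the triangle, the inner neighbour and the six vertex move for four outer vertices, for
all admissible weights `a b c N`.
-/

set_option autoImplicit false

namespace Pool.Agent.Lib.MP06c549.T6H

open Finset

namespace Gr

variable {G : Gr} {o m a b c N : ℕ}

open S7a

namespace S7p

lemma fin1 (hp : Par a b c N) {w z n : ℕ} (h : a * 3 + b * 3 + (2 * a - N) * z + 2 * a * w <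
    N * (1 + n)) (hw : 1 ≤ w) (hn : n = 2 ∨ n = 3 ∧ 2 ≤ w) : False := by
  have h2 := hp.a5b2
  have h3 := hp.a2
  rcases hn with rfl | ⟨rfl, h1⟩
  · have h1 : 2 * a ≤ 2 * a * w := Nat.le_mul_of_pos_right _ hw
    omega
  · have h1 : 2 * a * 2 ≤ 2 * a * w := Nat.mul_le_mul_left _ h1
    omega

lemma fin2 (hp : Par a b c N) {n w z k : ℕ} (h : a * 4 + b * 5 + (2 * a - N) * z + 2 * a * w <
    N * (n + k)) (hn : n ≤ 2) (hk : k = 2 ∧ 1 ≤ w ∨ k = 3 ∧ 2 ≤ w) : False := by
  have h2 := hp.a6b5
  have h4 := hp.a2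
  rcases hk with ⟨rfl, h1⟩ | ⟨rfl, h1⟩
  · have h1 : 2 * a ≤ 2 * a * w := Nat.le_mul_of_pos_right _ h1
    have h3 : N * (n + 2) ≤ N * 4 := Nat.mul_le_mul_left _ (by omega)
    omega
  · have h1 : 2 * a * 2 ≤ 2 * a * w := Nat.mul_le_mul_left _ h1
    have h3 : N * (n + 3) ≤ N * 5 := Nat.mul_le_mul_left _ (by omega)
    omega

lemma fin5 (hp : Par a b c N) {n : ℕ} (h : a * 3 + b * 3 < N * (n + 0)) (hn : n ≤ 2) :
    False := by
  have h2 := hp.a3b3
  have h3 : N * (n + 0) ≤ N * 2 := Nat.mul_le_mul_left _ (by omega)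
  omega

lemma fin6 (hp : Par a b c N) {n : ℕ} (h : a * 6 + b * 5 < N * (n + 0)) (hn : n ≤ 4) :
    False := by
  have h2 := hp.a6b5
  have h3 : N * (n + 0) ≤ N * 4 := Nat.mul_le_mul_left _ (by omega)
  omega

end S7p

/-- the move `T` -/
theorem Cx.moveT (hG : Cx a b c N m o G) (hp : Par a b c N)
    {x0 x1 x2 x3 e0 e1 e2 e3 e4 g0 g1 g2 g3 F0 F1 F2 F3 F4 b0 z b3 : ℕ}
    (h0 : G.Spk o x0 e0 g0 e1 F0 F1 b0) (h1 : G.Spk o x1 e1 g1 e2 F1 F2 z)
    (h2 : G.Spk o x2 e2 g2 e3 F2 F3 z) (h3 : G.Spk o x3 e3 g3 e4 F3 F4 b3)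
    (a1 : G.E e1 x0 x1) (a2 : G.E e2 x1 x2) (a3 : G.E e3 x2 x3)
    (n01 : x0 ≠ x1) (n02 : x0 ≠ x2) (n03 : x0 ≠ x3) (n12 : x1 ≠ x2) (n13 : x1 ≠ x3)
    (n23 : x2 ≠ x3) (f02 : F0 ≠ F2) (f03 : F0 ≠ F3) (f04 : F0 ≠ F4) (f13 : F1 ≠ F3)
    (f14 : F1 ≠ F4) (f24 : F2 ≠ F4) (hF2 : F2 ∉ G.us) : False := by
  have hgood := hG.cls.good
  have t0 : G.Touch x0 o := h0.cub.tO
  have t1 : G.Touch x1 o := h1.cub.tO
  have t2 : G.Touch x2 o := h2.cub.tO
  have t3 : G.Touch x3 o := h3.cub.tO
  have v0 := h0.cub.mv hgood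
  have v1 := h1.cub.mv hgood
  have v2 := h2.cub.mv hgood
  have v3 := h3.cub.mv hgood
  have f01 := h0.cub.f3
  have f12 := h1.cub.f3
  have f23 := h2.cub.f3
  have f34 := h3.cub.f3
  have hF : F2 ∈ G.fs \ G.us :=
    mem_sdiff.2 ⟨h1.cub.se'.symm.mem_left hgood a2.1, hF2⟩
  have w1 := tri_weight hG.cls h1.cub h2.cub a2 h1.eb h2.eb hF2
  have q1 : e2 ≠ g2 := h2.cub.n1
  have q2 : e2 ≠ g1 := h1.cub.n3.symm
  have q3 : g2 ≠ g1 := by
    rintro rfl
    exact n12 (h1.eb.symm.other hgood h2.eb.symm)
  have key := hG.move_w hp.bc hp.a2 (W := {x0, x1, x2, x3}) (X₀ := {x0, x3})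
    (Y₀ := {F2}) (B := {F0, F1, F2, F3, F4}) (D := ∅) (D' := {e2, g2, g1}) (by
      intro v hv
      simp only [mem_insert, mem_singleton] at hv
      rcases hv with rfl | rfl | rfl | rfl <;> assumption)
    ⟨x0, mem_insert_self _ _⟩
    ((((FC_singleton hgood v3 t3).insert_out hgood v2 t2).insert_out hgood v1 t1).insert_out
      hgood v0 t0) (by
      intro v hv
      simp only [mem_insert, mem_singleton] at hv
      rcases hv with rfl | rfl <;> assumption)
    (singleton_subset_iff.2 hF) (by
      intro j hj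
      simp only [mem_insert, mem_singleton] at hj
      rw [mem_erase]
      rcases hj with rfl | rfl | rfl | rfl | rfl
      · exact ⟨h0.cub.f1, mem_tf_touch (v := x0) (by simp) h0.cub.tF⟩
      · exact ⟨h1.cub.f1, mem_tf_touch (v := x1) (by simp) h1.cub.tF⟩
      · exact ⟨h1.cub.f2, mem_tf_touch (v := x1) (by simp) h1.cub.tF'⟩
      · exact ⟨h2.cub.f2, mem_tf_touch (v := x2) (by simp) h2.cub.tF'⟩
      · exact ⟨h3.cub.f2, mem_tf_touch (v := x3) (by simp) h3.cub.tF'⟩)
    (cover_of (by
      intro v hv hvX d hd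
      simp only [mem_insert, mem_singleton] at hv hvX
      have hv' : v = x1 ∨ v = x2 := by tauto
      rcases hv' with rfl | rfl
      · rw [h1.cub.st] at hd
        simp only [mem_insert, mem_singleton] at hd
        rcases hd with rfl | rfl | rfl
        · exact end_mem a1.symm (by simp)
        · exact side_mem h1.cub.sg (by simp)
        · exact side_mem h1.cub.se' (by simp)
      · rw [h2.cub.st] at hd
        simp only [mem_insert, mem_singleton] at hd
        rcases hd with rfl | rfl | rfl
        · exact side_mem h2.cub.se (by simp)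
        · exact side_mem h2.cub.sg.symm (by simp)
        · exact end_mem a3 (by simp)))
    (empty_subset _) (by
      intro d hd
      simp only [mem_insert, mem_singleton] at hd
      rcases hd with rfl | rfl | rfl
      · exact star_sub_tds (v := x1) (by simp) a2.left
      · exact star_sub_tds (v := x2) (by simp) h2.eb.left
      · exact star_sub_tds (v := x1) (by simp) h1.eb.left)
    (disjoint_empty_left _) (by
      intro d hd
      simp only [mem_insert, mem_singleton] at hd
      rcases hd with rfl | rfl | rfl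
      · exact side_mem' h2.cub.se (by simp)
      · exact side_mem' h2.cub.sg.symm (by simp)
      · exact side_mem' h1.cub.sg (by simp))
  have c1 : ({x0, x1, x2, x3} : Finset ℕ).card = 4 := card4 n01 n02 n03 n12 n13 n23
  have c2 : ({x0, x3} : Finset ℕ).card ≤ 2 := card_le_two
  have hc : ({F0, F1, F2, F3, F4} : Finset ℕ).card = 5 :=
    card5 f01 f02 f03 f04 f12 f13 f14 f23 f24 f34
  have hw : G.ws {e2, g2, g1} = G.w e2 + G.w g2 + G.w g1 := by
    unfold ws
    rw [sum_insert (by simp [q1, q2]), sum_insert (by simp [q3]), sum_singleton, add_assoc]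
  rw [c1, hc, hw] at key
  exact S7p.fin2 hp key c2 w1

/-- the face at a weighted edge of an outer triangle is not usable, or it has price three and the
edge has weight one -/
theorem Cx.buy (hG : Cx a b c N m o G) (hp : Par a b c N)
    {x0 x1 x2 e0 e1 e2 g0 g1 g2 F0 F1 F2 : ℕ}
    (h : G.Tri o x0 x1 x2 e0 e1 e2 g0 g1 g2 F0 F1 F2) (hw : 1 ≤ G.w e0) (hF : F0 ∉ G.us) :
    F0 ∈ G.hs ∧ G.w e0 = 1 := by
  have hgood := hG.cls.good
  have t0 : G.Touch x0 o := h.c0.tO
  have t1 : G.Touch x1 o := h.c1.tO
  have t2 : G.Touch x2 o := h.c2.tO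
  have v0 := h.c0.mv hgood
  have v1 := h.c1.mv hgood
  have v2 := h.c2.mv hgood
  have key := hG.move_w hp.bc hp.a2 (W := {x0, x1, x2}) (X₀ := {x2})
    (Y₀ := {F0}) (B := {F0, F1, F2}) (D := ∅) (D' := {e0}) (by
      intro v hv
      simp only [mem_insert, mem_singleton] at hv
      rcases hv with rfl | rfl | rfl <;> assumption)
    ⟨x0, mem_insert_self _ _⟩
    (((FC_singleton hgood v2 t2).insert_out hgood v1 t1).insert_out hgood v0 t0)
    (singleton_subset_iff.2 v2)
    (singleton_subset_iff.2 (mem_sdiff.2 ⟨h.c1.se.symm.mem_left hgood h.a0.1, hF⟩)) (by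
      intro j hj
      simp only [mem_insert, mem_singleton] at hj
      rw [mem_erase]
      rcases hj with rfl | rfl | rfl
      · exact ⟨h.c1.f1, mem_tf_touch (v := x1) (by simp) h.c1.tF⟩
      · exact ⟨h.c1.f2, mem_tf_touch (v := x1) (by simp) h.c1.tF'⟩
      · exact ⟨h.c2.f2, mem_tf_touch (v := x2) (by simp) h.c2.tF'⟩)
    (cover_of (by
      intro v hv hvX d hd
      simp only [mem_insert, mem_singleton] at hv hvX
      have hv' : v = x0 ∨ v = x1 := by tauto
      rcases hv' with rfl | rfl
      · rw [h.c0.st] at hd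
        simp only [mem_insert, mem_singleton] at hd
        rcases hd with rfl | rfl | rfl
        · exact end_mem h.a2.symm (by simp)
        · exact side_mem h.c0.sg (by simp)
        · exact side_mem h.c0.se' (by simp)
      · rw [h.c1.st] at hd
        simp only [mem_insert, mem_singleton] at hd
        rcases hd with rfl | rfl | rfl
        · exact side_mem h.c1.se (by simp)
        · exact side_mem h.c1.sg.symm (by simp)
        · exact end_mem h.a1 (by simp)))
    (empty_subset _) (singleton_subset_iff.2 (star_sub_tds (v := x0) (by simp) h.a0.left))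
    (disjoint_empty_left _) (by
      intro d hd
      rw [mem_singleton] at hd
      subst hd
      exact side_mem' h.c1.se (by simp))
  have c1 : ({x0, x1, x2} : Finset ℕ).card = 3 := card3 h.n01 h.n20.symm h.n12
  have hc : ({F0, F1, F2} : Finset ℕ).card = 3 := card3 h.m01 h.m20.symm h.m12
  have hw' : G.ws {e0} = G.w e0 := by
    unfold ws
    exact sum_singleton _ _
  rw [card_singleton, c1, hc, hw', fpr_singleton] at key
  by_contra hcon
  by_cases h5 : F0 ∈ G.hs
  · rw [if_pos h5] at key
    exact S7p.fin1 hp key hw (Or.inr ⟨rfl, by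
      have : G.w e0 ≠ 1 := fun h => hcon ⟨h5, h⟩
      omega⟩)
  · rw [if_neg h5] at key
    exact S7p.fin1 hp key hw (Or.inl rfl)

/-- the inner neighbour `b` of an outer vertex does not have degree two, if the other neighbour `c`
of `b` is an inner vertex with a third face -/
theorem Cx.inner2 (hG : Cx a b c N m o G) (hp : Par a b c N) {x e g e' v F F' k u i : ℕ}
    (hx : G.Cub o x e g e' F F') (hg : G.E g x v) (hb : ¬ G.Touch v o)
    (hs : G.star v = {g, k}) (hk : G.E k v u) (hc : ¬ G.Touch u o)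
    (hi : G.Touch u i) (hiF : i ≠ F) (hiF' : i ≠ F') : False := by
  have hgood := hG.cls.good
  have hxo : G.Touch x o := hx.tO
  have hbx : v ≠ x := fun h => hb (h ▸ hxo)
  have hcx : u ≠ x := fun h => hc (h ▸ hxo)
  have hbc : v ≠ u := hk.ne hgood
  have hvx := hg.memv hgood
  have hvb := hk.memv hgood
  have hvc := hk.symm.memv hgood
  have hio : i ≠ o := fun h => hc (h ▸ hi)
  have key := hG.move hp.bc hp.a2 (W := {x, v, u}) (X₀ := {x, u})
    (Y₀ := ∅) (B := {i, F, F'}) (by
      intro y hy
      simp only [mem_insert, mem_singleton] at hy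
      rcases hy with rfl | rfl | rfl <;> assumption)
    ⟨x, mem_insert_self _ _⟩ (by
      have e1 : ({x, v, u} : Finset ℕ) = insert u (insert v {x}) := by
        ext y; simp only [mem_insert, mem_singleton]; tauto
      rw [e1]
      refine FC.insert_adj hgood ?_ (w := v) (by simp) ⟨k, hk.symm⟩
      refine FC.insert_adj hgood ?_ (w := x) (by simp) ⟨g, hg.symm⟩
      exact FC_singleton hgood hvx hxo) (by
      intro y hy
      simp only [mem_insert, mem_singleton] at hy
      rcases hy with rfl | rfl <;> assumption)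
    (empty_subset _) (by
      intro j hj
      simp only [mem_insert, mem_singleton] at hj
      rw [mem_erase]
      rcases hj with rfl | rfl | rfl
      · exact ⟨hio, mem_tf_touch (v := u) (by simp) hi⟩
      · exact ⟨hx.f1, mem_tf_touch (v := x) (by simp) hx.tF⟩
      · exact ⟨hx.f2, mem_tf_touch (v := x) (by simp) hx.tF'⟩)
    (cover_of (by
      intro y hy hyX d hd
      simp only [mem_insert, mem_singleton] at hy hyX
      have hy' : y = v := by tauto
      subst hy'
      rw [hs] at hd
      simp only [mem_insert, mem_singleton] at hd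
      rcases hd with rfl | rfl
      · exact end_mem hg.symm (by simp)
      · exact end_mem hk (by simp)))
  have c1 : ({x, v, u} : Finset ℕ).card = 3 := card3 hbx.symm hcx.symm hbc
  have c2 : ({x, u} : Finset ℕ).card ≤ 2 := card_le_two
  have hc : ({i, F, F'} : Finset ℕ).card = 3 := card3 hiF hiF' hx.f3
  rw [fpr_empty, c1, hc] at key
  exact S7p.fin5 hp key c2

/-- the inner neighbour of an outer vertex -/
theorem Cx.spk (hG : Cx a b c N m o G) (hp : Par a b c N) (h1 : G.P1) (h2 : G.P2 o)
    (h3 : G.P3 o) {x e g e' F F' : ℕ} (hx : G.Cub o x e g e' F F') :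
    ∃ v, G.Spk o x e g e' F F' v := by
  have hgood := hG.cls.good
  obtain ⟨v, hb⟩ := exists_E hx.mg
  have hnb : ¬ G.Touch v o := by
    intro hbo
    exact hb.ne hgood (eq_of_inner hgood h1 h3 hx hb.right hx.sg hbo)
  have hvb : v ∈ G.vs := hb.symm.memv hgood
  refine ⟨v, hx, hb, hnb, ?_⟩
  by_contra hlt
  have hb2 : (G.star v).card = 2 := by
    have := h1.deg v hvb
    omega
  -- the other edge at `b`
  have h4 : ((G.star v).erase g).card = 1 := by rw [card_erase_of_mem hb.right, hb2]
  obtain ⟨k, hs⟩ := card_eq_one.1 h4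
  have mk : k ∈ (G.star v).erase g := by rw [hs]; simp
  have hgk : g ≠ k := (mem_erase.1 mk).1.symm
  have hst : G.star v = {g, k} := by rw [← insert_erase hb.right, hs]
  obtain ⟨u, hc⟩ := exists_E (mem_erase.1 mk).2
  have sk : G.S k F F' := S_deg2 hgood hvb hst hgk hx.sg hx.f3
  have hcx : x ≠ u := by
    rintro rfl
    have hk := hc.right
    rw [hx.st] at hk
    simp only [mem_insert, mem_singleton] at hk
    rcases hk with rfl | rfl | rfl
    · rcases sk.unique hx.se with h | h
      · exact absurd h.1.symm hx.f1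
      · exact absurd h.1.symm hx.f2
    · exact hgk rfl
    · rcases sk.unique hx.se' with h | h
      · exact absurd h.1.symm hx.f1
      · exact absurd h.1.symm hx.f2
  have hnc : ¬ G.Touch u o := fun hco => hcx (eq_of_inner hgood h1 h3 hx hc.right sk hco)
  have hvc : u ∈ G.vs := hc.symm.memv hgood
  have hc3 : 3 ≤ (G.star u).card := by
    have h5 := h1.deg u hvc
    have h6 : (G.star u).card ≠ 2 := fun h => h2.na k v u hc hb2 h
    omega
  obtain ⟨i, hi, hi'⟩ : ∃ i ∈ G.fv u, i ∉ ({F, F'} : Finset ℕ) := by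
    by_contra hcon
    push Not at hcon
    have h5 := card_le_card (show G.fv u ⊆ {F, F'} from hcon)
    rw [h1.card_fv hgood hvc] at h5
    have h6 : ({F, F'} : Finset ℕ).card ≤ 2 := card_le_two
    omega
  simp only [mem_insert, mem_singleton, not_or] at hi'
  exact hG.inner2 hp hx hb hnb hst hc hnc (mem_fv.1 hi) hi'.1 hi'.2

/-- the six vertex move for four outer vertices: the inner neighbour `b0` of `x0` has no other face
than the four faces around `o` -/
theorem Cx.m4 (hG : Cx a b c N m o G) (hp : Par a b c N)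
    {x0 x1 x2 x3 e0 e1 e2 e3 g0 g1 g2 g3 F0 F1 F2 F3 b0 b1 b2 b3 : ℕ}
    (h0 : G.Spk o x0 e0 g0 e1 F0 F1 b0) (h1 : G.Spk o x1 e1 g1 e2 F1 F2 b1)
    (h2 : G.Spk o x2 e2 g2 e3 F2 F3 b2) (h3 : G.Spk o x3 e3 g3 e0 F3 F0 b3)
    (a1 : G.E e1 x0 x1) (a2 : G.E e2 x1 x2) (a3 : G.E e3 x2 x3) (a0 : G.E e0 x3 x0)
    (n02 : x0 ≠ x2) (n13 : x1 ≠ x3) (f02 : F0 ≠ F2) (f13 : F1 ≠ F3) :
    ∀ i, G.Touch b0 i → i = F0 ∨ i = F1 ∨ i = F2 ∨ i = F3 := by
  intro i hi
  by_contra hcon
  push Not at hcon
  have hgood := hG.cls.good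
  have t0 : G.Touch x0 o := h0.cub.tO
  have t1 : G.Touch x1 o := h1.cub.tO
  have t2 : G.Touch x2 o := h2.cub.tO
  have t3 : G.Touch x3 o := h3.cub.tO
  have v0 := h0.cub.mv hgood
  have v1 := h1.cub.mv hgood
  have v2 := h2.cub.mv hgood
  have v3 := h3.cub.mv hgood
  have vb0 := h0.eb.symm.memv hgood
  have vb2 := h2.eb.symm.memv hgood
  have f01 := h0.cub.f3
  have f12 := h1.cub.f3
  have f23 := h2.cub.f3
  have f30 := h3.cub.f3
  have n01 : x0 ≠ x1 := a1.ne hgood
  have n12 : x1 ≠ x2 := a2.ne hgood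
  have n23 : x2 ≠ x3 := a3.ne hgood
  have n30 : x3 ≠ x0 := a0.ne hgood
  have hio : i ≠ o := by
    rintro rfl
    exact h0.nb hi
  by_cases hbb : b0 = b2
  · -- five vertices
    have key := hG.move hp.bc hp.a2 (W := {x0, x1, x2, x3, b0}) (X₀ := {x1, x3, b0})
      (Y₀ := ∅) (B := {i, F0, F1, F2, F3}) (by
        intro v hv
        simp only [mem_insert, mem_singleton] at hv
        rcases hv with rfl | rfl | rfl | rfl | rfl <;> assumption)
      ⟨x0, mem_insert_self _ _⟩ (by
        have e1 : ({x0, x1, x2, x3, b0} : Finset ℕ) = insert b0 {x0, x1, x2, x3} := by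
          ext v; simp only [mem_insert, mem_singleton]; tauto
        rw [e1]
        refine FC.insert_adj hgood ?_ (w := x0) (by simp) ⟨g0, h0.eb.symm⟩
        exact (((FC_singleton hgood v3 t3).insert_out hgood v2 t2).insert_out hgood v1
          t1).insert_out hgood v0 t0) (by
        intro v hv
        simp only [mem_insert, mem_singleton] at hv
        rcases hv with rfl | rfl | rfl <;> assumption)
      (empty_subset _) (by
        intro j hj
        simp only [mem_insert, mem_singleton] at hj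
        rw [mem_erase]
        rcases hj with rfl | rfl | rfl | rfl | rfl
        · exact ⟨hio, mem_tf_touch (v := b0) (by simp) hi⟩
        · exact ⟨h0.cub.f1, mem_tf_touch (v := x0) (by simp) h0.cub.tF⟩
        · exact ⟨h1.cub.f1, mem_tf_touch (v := x1) (by simp) h1.cub.tF⟩
        · exact ⟨h2.cub.f1, mem_tf_touch (v := x2) (by simp) h2.cub.tF⟩
        · exact ⟨h3.cub.f1, mem_tf_touch (v := x3) (by simp) h3.cub.tF⟩)
      (cover_of (by
        intro v hv hvX d hd
        simp only [mem_insert, mem_singleton] at hv hvX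
        have hv' : v = x0 ∨ v = x2 := by tauto
        rcases hv' with rfl | rfl
        · rw [h0.cub.st] at hd
          simp only [mem_insert, mem_singleton] at hd
          rcases hd with rfl | rfl | rfl
          · exact end_mem a0.symm (by simp)
          · exact end_mem h0.eb (by simp)
          · exact end_mem a1 (by simp)
        · rw [h2.cub.st] at hd
          simp only [mem_insert, mem_singleton] at hd
          rcases hd with rfl | rfl | rfl
          · exact end_mem a2.symm (by simp)
          · exact end_mem h2.eb (by simp [hbb])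
          · exact end_mem a3 (by simp)))
    have c1 : ({x0, x1, x2, x3, b0} : Finset ℕ).card = 5 :=
      card5 n01 n02 n30.symm (h0.ne t0).symm n12 n13 (h0.ne t1).symm n23 (h0.ne t2).symm
        (h0.ne t3).symm
    have c2 : ({x1, x3, b0} : Finset ℕ).card ≤ 3 := card_le_three
    have hc : ({i, F0, F1, F2, F3} : Finset ℕ).card = 5 :=
      card5 hcon.1 hcon.2.1 hcon.2.2.1 hcon.2.2.2 f01 f02 f30.symm f12 f13 f23
    rw [fpr_empty, c1, hc] at key
    have h5 := hp.a5b2
    have h6 : N * (({x1, x3, b0} : Finset ℕ).card + 0) ≤ N * 3 :=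
      Nat.mul_le_mul_left _ (by omega)
    omega
  · have key := hG.move hp.bc hp.a2 (W := insert b2 {x0, x1, x2, x3, b0})
      (X₀ := {x1, x3, b0, b2}) (Y₀ := ∅) (B := {i, F0, F1, F2, F3}) (by
        intro v hv
        simp only [mem_insert, mem_singleton] at hv
        rcases hv with rfl | rfl | rfl | rfl | rfl | rfl <;> assumption)
      ⟨b2, mem_insert_self _ _⟩ (by
        refine FC.insert_adj hgood ?_ (w := x2) (by simp) ⟨g2, h2.eb.symm⟩
        have e1 : ({x0, x1, x2, x3, b0} : Finset ℕ) = insert b0 {x0, x1, x2, x3} := by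
          ext v; simp only [mem_insert, mem_singleton]; tauto
        rw [e1]
        refine FC.insert_adj hgood ?_ (w := x0) (by simp) ⟨g0, h0.eb.symm⟩
        exact (((FC_singleton hgood v3 t3).insert_out hgood v2 t2).insert_out hgood v1
          t1).insert_out hgood v0 t0) (by
        intro v hv
        simp only [mem_insert, mem_singleton] at hv
        rcases hv with rfl | rfl | rfl | rfl <;> assumption)
      (empty_subset _) (by
        intro j hj
        simp only [mem_insert, mem_singleton] at hj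
        rw [mem_erase]
        rcases hj with rfl | rfl | rfl | rfl | rfl
        · exact ⟨hio, mem_tf_touch (v := b0) (by simp) hi⟩
        · exact ⟨h0.cub.f1, mem_tf_touch (v := x0) (by simp) h0.cub.tF⟩
        · exact ⟨h1.cub.f1, mem_tf_touch (v := x1) (by simp) h1.cub.tF⟩
        · exact ⟨h2.cub.f1, mem_tf_touch (v := x2) (by simp) h2.cub.tF⟩
        · exact ⟨h3.cub.f1, mem_tf_touch (v := x3) (by simp) h3.cub.tF⟩)
      (cover_of (by
        intro v hv hvX d hd
        simp only [mem_insert, mem_singleton] at hv hvX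
        have hv' : v = x0 ∨ v = x2 := by tauto
        rcases hv' with rfl | rfl
        · rw [h0.cub.st] at hd
          simp only [mem_insert, mem_singleton] at hd
          rcases hd with rfl | rfl | rfl
          · exact end_mem a0.symm (by simp)
          · exact end_mem h0.eb (by simp)
          · exact end_mem a1 (by simp)
        · rw [h2.cub.st] at hd
          simp only [mem_insert, mem_singleton] at hd
          rcases hd with rfl | rfl | rfl
          · exact end_mem a2.symm (by simp)
          · exact end_mem h2.eb (by simp)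
          · exact end_mem a3 (by simp)))
    have c1 : (insert b2 ({x0, x1, x2, x3, b0} : Finset ℕ)).card = 6 := by
      rw [card_insert_of_notMem, card5 n01 n02 n30.symm (h0.ne t0).symm n12 n13 (h0.ne t1).symm
        n23 (h0.ne t2).symm (h0.ne t3).symm]
      simp only [mem_insert, mem_singleton, not_or]
      exact ⟨h2.ne t0, h2.ne t1, h2.ne t2, h2.ne t3, fun h => hbb h.symm⟩
    have c2 : ({x1, x3, b0, b2} : Finset ℕ).card ≤ 4 := card_le_four
    have hc : ({i, F0, F1, F2, F3} : Finset ℕ).card = 5 :=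
      card5 hcon.1 hcon.2.1 hcon.2.2.1 hcon.2.2.2 f01 f02 f30.symm f12 f13 f23
    rw [fpr_empty, c1, hc] at key
    exact S7p.fin6 hp key c2

end Gr

end Pool.Agent.Lib.MP06c549.T6H
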