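import Pool.Agent.Lib.MP_06c549_co.T6H.Step56
import Pool.Agent.Lib.MP_06c549_co.T6H.Par

/-!
# MP_06c549_co, T6H: step (7), four outer vertices

The outer cycle has the vertices `x0`, `x1`, `x2`, `x3`, all cubic, and the third edge at `xi` goes
to the inner vertex `zi`. If `z0` is `z1` or `z3` and `z2` is `z1` or `z3`, then the graph is not a
minimal counterexample (`step7b`). `spec_k4` is the statement `SpecK4`.
-/

set_option autoImplicit false

namespace Pool.Agent.Lib.MP06c549.T6H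

open Finset

namespace Gr

variable {G : Gr} {o : ℕ}

/-- the outer cycle with four cubic vertices -/
structure Ring4 (G : Gr) (o x0 x1 x2 x3 e0 e1 e2 e3 g0 g1 g2 g3 F0 F1 F2 F3 z0 z1 z2 z3 : ℕ) :
    Prop where
  t0 : G.star x0 = {e3, g0, e0}
  t1 : G.star x1 = {e0, g1, e1}
  t2 : G.star x2 = {e1, g2, e2}
  t3 : G.star x3 = {e2, g3, e3}
  E0 : G.E e0 x0 x1
  E1 : G.E e1 x1 x2
  E2 : G.E e2 x2 x3
  E3 : G.E e3 x3 x0
  H0 : G.E g0 x0 z0
  H1 : G.E g1 x1 z1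
  H2 : G.E g2 x2 z2
  H3 : G.E g3 x3 z3
  S0 : G.S e0 o F0
  S1 : G.S e1 o F1
  S2 : G.S e2 o F2
  S3 : G.S e3 o F3
  o0 : F0 ≠ o
  o1 : F1 ≠ o
  o2 : F2 ≠ o
  o3 : F3 ≠ o
  F01 : F0 ≠ F1
  F02 : F0 ≠ F2
  F03 : F0 ≠ F3
  F12 : F1 ≠ F2
  F13 : F1 ≠ F3
  F23 : F2 ≠ F3
  n0 : ¬ G.Out o z0
  n1 : ¬ G.Out o z1
  n2 : ¬ G.Out o z2
  n3 : ¬ G.Out o z3

lemma S.out4 {v d i : ℕ} (h1 : d ∈ G.star v) (h2 : G.S d o i) : G.Out o v := by
  rcases h2 with h2 | h2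
  · exact ⟨d, h1, Or.inl h2.1⟩
  · exact ⟨d, h1, Or.inr h2.2⟩

lemma S.touch4 {W : Finset ℕ} {v d i : ℕ} (hv : v ∈ W) (h1 : d ∈ G.star v) (h2 : G.S d o i) :
    i ∈ G.tf W := by
  rcases h2 with h2 | h2
  · rw [← h2.2]; exact r_mem_tf (star_sub_tds hv h1)
  · rw [← h2.1]; exact l_mem_tf (star_sub_tds hv h1)

lemma E.cov4 {X : Finset ℕ} {d a b : ℕ} (h : G.E d a b) (hX : a ∈ X ∨ b ∈ X) :
    G.p d ∈ X ∨ G.q d ∈ X := by
  rcases h.2 with ⟨h1, h2⟩ | ⟨h1, h2⟩ <;> rw [h1, h2]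
  · exact hX
  · exact hX.symm

lemma star_cov4 {X : Finset ℕ} {d v : ℕ} (h : d ∈ G.star v) (hX : v ∈ X) :
    G.p d ∈ X ∨ G.q d ∈ X := by
  rcases (mem_star.1 h).2 with h1 | h1
  · exact Or.inl (h1 ▸ hX)
  · exact Or.inr (h1 ▸ hX)

namespace Ring4

variable {x0 x1 x2 x3 e0 e1 e2 e3 g0 g1 g2 g3 F0 F1 F2 F3 z0 z1 z2 z3 : ℕ}

/-- rotation -/
lemma rot (h : G.Ring4 o x0 x1 x2 x3 e0 e1 e2 e3 g0 g1 g2 g3 F0 F1 F2 F3 z0 z1 z2 z3) :
    G.Ring4 o x1 x2 x3 x0 e1 e2 e3 e0 g1 g2 g3 g0 F1 F2 F3 F0 z1 z2 z3 z0 :=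
  ⟨h.t1, h.t2, h.t3, h.t0, h.E1, h.E2, h.E3, h.E0, h.H1, h.H2, h.H3, h.H0, h.S1, h.S2, h.S3, h.S0,
    h.o1, h.o2, h.o3, h.o0, h.F12, h.F13, h.F01.symm, h.F23, h.F02.symm, h.F03.symm,
    h.n1, h.n2, h.n3, h.n0⟩

lemma x02 (h : G.Ring4 o x0 x1 x2 x3 e0 e1 e2 e3 g0 g1 g2 g3 F0 F1 F2 F3 z0 z1 z2 z3) :
    x0 ≠ x2 := by
  rintro rfl
  have h1 : e1 ∈ G.star x0 := h.E1.right
  rw [h.t0] at h1
  simp only [mem_insert, mem_singleton] at h1
  rcases h1 with h1 | h1 | h1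
  · exact h.F13 (h.S1.other (h1 ▸ h.S3))
  · exact h.n0 (S.out4 h.H0.right (h1 ▸ h.S1))
  · exact h.F01 ((h1 ▸ h.S0 : G.S e1 o F0).other h.S1)

lemma x13 (h : G.Ring4 o x0 x1 x2 x3 e0 e1 e2 e3 g0 g1 g2 g3 F0 F1 F2 F3 z0 z1 z2 z3) :
    x1 ≠ x3 := h.rot.x02

lemma out0 (h : G.Ring4 o x0 x1 x2 x3 e0 e1 e2 e3 g0 g1 g2 g3 F0 F1 F2 F3 z0 z1 z2 z3) :
    G.Out o x0 := S.out4 h.E0.left h.S0

lemma out1 (h : G.Ring4 o x0 x1 x2 x3 e0 e1 e2 e3 g0 g1 g2 g3 F0 F1 F2 F3 z0 z1 z2 z3) :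
    G.Out o x1 := h.rot.out0

lemma out2 (h : G.Ring4 o x0 x1 x2 x3 e0 e1 e2 e3 g0 g1 g2 g3 F0 F1 F2 F3 z0 z1 z2 z3) :
    G.Out o x2 := h.rot.rot.out0

lemma out3 (h : G.Ring4 o x0 x1 x2 x3 e0 e1 e2 e3 g0 g1 g2 g3 F0 F1 F2 F3 z0 z1 z2 z3) :
    G.Out o x3 := h.rot.rot.rot.out0

lemma ne_out {v z : ℕ} (h1 : G.Out o v) (h2 : ¬ G.Out o z) : v ≠ z := fun h => h2 (h ▸ h1)

/-- the cycle may be deleted -/
lemma fc (hG : G.Good)
    (h : G.Ring4 o x0 x1 x2 x3 e0 e1 e2 e3 g0 g1 g2 g3 F0 F1 F2 F3 z0 z1 z2 z3) :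
    G.FC {x0, x1, x2, x3} o :=
  (((FC_singleton hG (h.E3.memv hG) h.out3).insert_out hG (h.E2.memv hG) h.out2).insert_out hG
    (h.E1.memv hG) h.out1).insert_out hG (h.E0.memv hG) h.out0

lemma touched {W : Finset ℕ}
    (h : G.Ring4 o x0 x1 x2 x3 e0 e1 e2 e3 g0 g1 g2 g3 F0 F1 F2 F3 z0 z1 z2 z3)
    (h0 : x0 ∈ W) (h1 : x1 ∈ W) (h2 : x2 ∈ W) (h3 : x3 ∈ W) :
    ({F0, F1, F2, F3} : Finset ℕ) ⊆ (G.tf W).erase o := by
  intro i hi
  simp only [mem_insert, mem_singleton] at hi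
  rw [mem_erase]
  rcases hi with rfl | rfl | rfl | rfl
  · exact ⟨h.o0, S.touch4 h0 h.E0.left h.S0⟩
  · exact ⟨h.o1, S.touch4 h1 h.E1.left h.S1⟩
  · exact ⟨h.o2, S.touch4 h2 h.E2.left h.S2⟩
  · exact ⟨h.o3, S.touch4 h3 h.E3.left h.S3⟩

lemma cardF (h : G.Ring4 o x0 x1 x2 x3 e0 e1 e2 e3 g0 g1 g2 g3 F0 F1 F2 F3 z0 z1 z2 z3) :
    ({F0, F1, F2, F3} : Finset ℕ).card = 4 := by
  rw [card_insert_of_notMem (by simp [h.F01, h.F02, h.F03]),
    card_insert_of_notMem (by simp [h.F12, h.F13]), card_pair h.F23]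

lemma cardX (hG : G.Good)
    (h : G.Ring4 o x0 x1 x2 x3 e0 e1 e2 e3 g0 g1 g2 g3 F0 F1 F2 F3 z0 z1 z2 z3) :
    ({x0, x1, x2, x3} : Finset ℕ).card = 4 := by
  rw [card_insert_of_notMem (by simp [h.E0.ne hG, h.x02, (h.E3.ne hG).symm]),
    card_insert_of_notMem (by simp [h.E1.ne hG, h.x13]), card_pair (h.E2.ne hG)]

lemma sub_vs (hG : G.Good)
    (h : G.Ring4 o x0 x1 x2 x3 e0 e1 e2 e3 g0 g1 g2 g3 F0 F1 F2 F3 z0 z1 z2 z3) :
    ({x0, x1, x2, x3} : Finset ℕ) ⊆ G.vs := by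
  intro v hv
  simp only [mem_insert, mem_singleton] at hv
  rcases hv with rfl | rfl | rfl | rfl
  · exact h.E0.memv hG
  · exact h.E1.memv hG
  · exact h.E2.memv hG
  · exact h.E3.memv hG

/-- an inner vertex is not on the cycle -/
lemma notMem (h : G.Ring4 o x0 x1 x2 x3 e0 e1 e2 e3 g0 g1 g2 g3 F0 F1 F2 F3 z0 z1 z2 z3) {z : ℕ}
    (hz : ¬ G.Out o z) : z ∉ ({x0, x1, x2, x3} : Finset ℕ) := by
  simp only [mem_insert, mem_singleton, not_or]
  exact ⟨(ne_out h.out0 hz).symm, (ne_out h.out1 hz).symm, (ne_out h.out2 hz).symm,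
    (ne_out h.out3 hz).symm⟩

/-- the edges at the cycle -/
lemma edges {d : ℕ}
    (h : G.Ring4 o x0 x1 x2 x3 e0 e1 e2 e3 g0 g1 g2 g3 F0 F1 F2 F3 z0 z1 z2 z3)
    (hd : d ∈ G.tds {x0, x1, x2, x3}) :
    d = e0 ∨ d = e1 ∨ d = e2 ∨ d = e3 ∨ d = g0 ∨ d = g1 ∨ d = g2 ∨ d = g3 := by
  have key : ∀ v, G.tds {v} = G.star v := by
    intro v
    ext i
    rw [mem_tds, mem_star, mem_singleton, mem_singleton]
  rw [tds_insert, tds_insert, tds_insert, key, h.t0, h.t1, h.t2, h.t3] at hd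
  simp only [mem_union, mem_insert, mem_singleton] at hd
  tauto

/-- opposite vertices with the same inner neighbour -/
lemma wheel {a b c N m : ℕ} (hG : Cx a b c N m o G) (hP : Par a b c N)
    (h : G.Ring4 o x0 x1 x2 x3 e0 e1 e2 e3 g0 g1 g2 g3 F0 F1 F2 F3 z0 z1 z2 z3) :
    z1 ≠ z3 := by
  intro hz
  have hg := hG.cls.good
  have hn := h.notMem h.n1
  have hz1 : z1 ∈ G.vs := h.H1.symm.memv hg
  have k := hG.move hP.bc hP.a2 (W := insert z1 {x0, x1, x2, x3}) (X₀ := {x0, x2, z1}) (Y₀ := ∅)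
    (B := {F0, F1, F2, F3}) (insert_subset hz1 (h.sub_vs hg)) ⟨z1, by simp⟩
    ((h.fc hg).insert_adj hg (w := x1) (by simp) ⟨g1, h.H1.symm⟩)
    (by
      intro v hv
      simp only [mem_insert, mem_singleton] at hv
      rcases hv with rfl | rfl | rfl
      · exact h.E0.memv hg
      · exact h.E2.memv hg
      · exact hz1)
    (empty_subset _) (h.touched (by simp) (by simp) (by simp) (by simp))
    (by
      intro d hd
      have key : G.p d ∈ ({x0, x2, z1} : Finset ℕ) ∨ G.q d ∈ ({x0, x2, z1} : Finset ℕ) := by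
        rw [tds_insert, mem_union] at hd
        rcases hd with hd | hd
        · exact star_cov4 hd (by simp)
        · rcases h.edges hd with rfl | rfl | rfl | rfl | rfl | rfl | rfl | rfl
          · exact h.E0.cov4 (by simp)
          · exact h.E1.cov4 (by simp)
          · exact h.E2.cov4 (by simp)
          · exact h.E3.cov4 (by simp)
          · exact h.H0.cov4 (by simp)
          · exact h.H1.cov4 (by simp)
          · exact h.H2.cov4 (by simp)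
          · exact h.H3.cov4 (by simp [hz])
      rcases key with h1 | h1
      · exact Or.inl h1
      · exact Or.inr (Or.inl h1))
  have c1 : ({x0, x2, z1} : Finset ℕ).card = 3 := by
    rw [card_insert_of_notMem (by simp [h.x02, ne_out h.out0 h.n1]),
      card_pair (ne_out h.out2 h.n1)]
  rw [card_insert_of_notMem hn, h.cardX hg, h.cardF, c1, fpr_empty] at k
  have := hP.a5b2
  omega

/-- a triangle has an edge of positive weight -/
lemma tri (hG : G.Girth) {d1 d2 d3 u v w : ℕ} (h1 : G.E d1 u v) (h2 : G.E d2 v w)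
    (h3 : G.E d3 w u) (huv : u ≠ v) (hvw : v ≠ w) (hwu : w ≠ u) :
    1 ≤ G.ws {d1, d2, d3} := by
  obtain ⟨k0, k1, k2, k3⟩ := evenSet_triangle h1 h2 h3 huv hvw hwu
  have k4 := hG {d1, d2, d3} (by
    intro d hd
    simp only [mem_insert, mem_singleton] at hd
    rcases hd with rfl | rfl | rfl
    · exact h1.1
    · exact h2.1
    · exact h3.1) k0 ⟨d1, by simp⟩
  unfold ws
  rw [sum_insert (by simp [k1, k2]), sum_pair k3] at k4 ⊢
  omega

/-- two pairs of neighbours with the same inner neighbour -/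
lemma twoTri {a b c N m : ℕ} (hG : Cx a b c N m o G) (hP : Par a b c N)
    (h : G.Ring4 o x0 x1 x2 x3 e0 e1 e2 e3 g0 g1 g2 g3 F0 F1 F2 F3 z0 z1 z2 z3)
    (h01 : z0 = z1) (h23 : z2 = z3) : False := by
  have h02 : z0 ≠ z2 := by
    intro h02
    exact h.wheel hG hP (h01.symm.trans (h02.trans h23))
  subst h01 h23
  have hg := hG.cls.good
  have hn := h.notMem h.n0
  have hn2 := h.notMem h.n2
  have hz0 : z0 ∈ G.vs := h.H0.symm.memv hg
  have hz2 : z2 ∈ G.vs := h.H2.symm.memv hg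
  have hgi := hG.cls.girth
  have w0 : 1 ≤ G.ws {e0, g1, g0} := tri hgi h.E0 h.H1 h.H0.symm (h.E0.ne hg) (h.H1.ne hg)
    (h.H0.ne hg).symm
  have w2 : 1 ≤ G.ws {e2, g3, g2} := tri hgi h.E2 h.H3 h.H2.symm (h.E2.ne hg) (h.H3.ne hg)
    (h.H2.ne hg).symm
  have a20 : x2 ≠ x0 := h.x02.symm
  have a21 : x2 ≠ x1 := (h.E1.ne hg).symm
  have a30 : x3 ≠ x0 := h.E3.ne hg
  have a31 : x3 ≠ x1 := h.x13.symm
  have a2z : x2 ≠ z0 := ne_out h.out2 h.n0
  have a3z : x3 ≠ z0 := ne_out h.out3 h.n0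
  have hdis : Disjoint ({e0, g1, g0} : Finset ℕ) {e2, g3, g2} := by
    have q1 : ∀ d ∈ ({e2, g3, g2} : Finset ℕ), d ∈ G.star x2 ∨ d ∈ G.star x3 := by
      intro d hd
      simp only [mem_insert, mem_singleton] at hd
      rcases hd with rfl | rfl | rfl
      · exact Or.inl h.E2.left
      · exact Or.inr h.H3.left
      · exact Or.inl h.H2.left
    have q2 : ∀ d ∈ ({e0, g1, g0} : Finset ℕ), ∀ v, d ∈ G.star v → v = x0 ∨ v = x1 ∨ v = z0 := by
      intro d hd v hv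
      simp only [mem_insert, mem_singleton] at hd
      rcases hd with rfl | rfl | rfl
      · rcases h.E0.ends hv with h1 | h1
        · exact Or.inl h1
        · exact Or.inr (Or.inl h1)
      · exact Or.inr (h.H1.ends hv)
      · rcases h.H0.ends hv with h1 | h1
        · exact Or.inl h1
        · exact Or.inr (Or.inr h1)
    rw [disjoint_left]
    intro d hd hd'
    rcases q1 d hd' with h1 | h1
    · rcases q2 d hd _ h1 with h2 | h2 | h2
      · exact a20 h2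
      · exact a21 h2
      · exact a2z h2
    · rcases q2 d hd _ h1 with h2 | h2 | h2
      · exact a30 h2
      · exact a31 h2
      · exact a3z h2
  have w3 : 2 ≤ G.ws ({e0, g1, g0} ∪ {e2, g3, g2}) := by
    rw [ws_union hdis]
    omega
  have hn3 : z2 ∉ insert z0 ({x0, x1, x2, x3} : Finset ℕ) := by
    rw [mem_insert, not_or]
    exact ⟨h02.symm, hn2⟩
  have sub : ∀ {d v : ℕ}, v ∈ insert z2 (insert z0 ({x0, x1, x2, x3} : Finset ℕ)) →
      d ∈ G.star v → d ∈ G.tds (insert z2 (insert z0 ({x0, x1, x2, x3} : Finset ℕ))) :=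
    fun hv hd => star_sub_tds hv hd
  have k := hG.move_w hP.bc hP.a2 (W := insert z2 (insert z0 {x0, x1, x2, x3}))
    (X₀ := {x1, x3, z0, z2}) (Y₀ := ∅) (B := {F0, F1, F2, F3})
    (D := {e0, g1, g0} ∪ {e2, g3, g2}) (D' := ∅)
    (insert_subset hz2 (insert_subset hz0 (h.sub_vs hg))) ⟨z2, by simp⟩
    (((h.fc hg).insert_adj hg (w := x0) (by simp) ⟨g0, h.H0.symm⟩).insert_adj hg (w := x2)
      (by simp) ⟨g2, h.H2.symm⟩)
    (by
      intro v hv
      simp only [mem_insert, mem_singleton] at hv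
      rcases hv with rfl | rfl | rfl | rfl
      · exact h.E1.memv hg
      · exact h.E3.memv hg
      · exact hz0
      · exact hz2)
    (empty_subset _) (h.touched (by simp) (by simp) (by simp) (by simp))
    (by
      intro d hd
      have key : G.p d ∈ ({x1, x3, z0, z2} : Finset ℕ) ∨
          G.q d ∈ ({x1, x3, z0, z2} : Finset ℕ) := by
        rw [tds_insert, mem_union, tds_insert, mem_union] at hd
        rcases hd with hd | hd | hd
        · exact star_cov4 hd (by simp)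
        · exact star_cov4 hd (by simp)
        · rcases h.edges hd with rfl | rfl | rfl | rfl | rfl | rfl | rfl | rfl
          · exact h.E0.cov4 (by simp)
          · exact h.E1.cov4 (by simp)
          · exact h.E2.cov4 (by simp)
          · exact h.E3.cov4 (by simp)
          · exact h.H0.cov4 (by simp)
          · exact h.H1.cov4 (by simp)
          · exact h.H2.cov4 (by simp)
          · exact h.H3.cov4 (by simp)
      rcases key with h1 | h1
      · exact Or.inl h1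
      · exact Or.inr (Or.inl h1))
    (by
      intro d hd
      simp only [mem_union, mem_insert, mem_singleton] at hd
      rcases hd with (rfl | rfl | rfl) | (rfl | rfl | rfl)
      · exact sub (by simp) h.E0.left
      · exact sub (by simp) h.H1.left
      · exact sub (by simp) h.H0.left
      · exact sub (by simp) h.E2.left
      · exact sub (by simp) h.H3.left
      · exact sub (by simp) h.H2.left)
    (empty_subset _) (disjoint_empty_right _) (by simp)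
  have c1 : ({x1, x3, z0, z2} : Finset ℕ).card = 4 := by
    rw [card_insert_of_notMem (by simp [a31.symm, ne_out h.out1 h.n0, ne_out h.out1 h.n2]),
      card_insert_of_notMem (by simp [a3z, ne_out h.out3 h.n2]), card_pair h02]
  rw [card_insert_of_notMem hn3, card_insert_of_notMem hn, h.cardX hg, h.cardF, c1,
    fpr_empty] at k
  have k1 := Nat.mul_le_mul_left (2 * a - N) w3
  have k2 := hP.a10b4
  have k3 := hP.a2
  omega

end Ring4

/-- Step (7), `k = 4`, for all weights. -/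
theorem step7b {a b c N m : ℕ} (hG : Cx a b c N m o G) (hP : Par a b c N)
    {x0 x1 x2 x3 e0 e1 e2 e3 g0 g1 g2 g3 F0 F1 F2 F3 z0 z1 z2 z3 : ℕ}
    (h : G.Ring4 o x0 x1 x2 x3 e0 e1 e2 e3 g0 g1 g2 g3 F0 F1 F2 F3 z0 z1 z2 z3)
    (h0 : z0 = z1 ∨ z0 = z3) (h2 : z2 = z3 ∨ z2 = z1) : False := by
  have w1 := h.wheel hG hP
  have w2 := h.rot.wheel hG hP
  rcases h0 with h0 | h0 <;> rcases h2 with h2 | h2
  · exact h.twoTri hG hP h0 h2
  · exact w2 (h2.trans h0.symm)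
  · exact w2 (h2.trans h0.symm)
  · exact h.rot.twoTri hG hP h2.symm h0.symm

/-- a vertex of degree at least three has a third face -/
lemma third_face (hG : G.Good) (hP : G.P1) {v i j : ℕ} (hv : v ∈ G.vs)
    (hd : 3 ≤ (G.star v).card) : ∃ k, G.Touch v k ∧ k ≠ i ∧ k ≠ j := by
  by_contra hcon
  push Not at hcon
  have h1 : G.fv v ⊆ {i, j} := by
    intro k hk
    rw [mem_insert, mem_singleton]
    by_cases h : k = i
    · exact Or.inl h
    · exact Or.inr (hcon k (mem_fv.1 hk) h)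
  have h2 := card_le_card h1
  have h3 := card_le_two (a := i) (b := j)
  rw [hP.card_fv hG hv] at h2
  omega

/-- Step 7, `k = 4` with `x0`, `x1` having the same inner neighbour -/
theorem spec_k4 (m : ℕ) (hS : SpecS m) (hA : SpecA m) : SpecK4 m := by
  intro o G hG p1 p2 p3 x0 x1 x2 x3 e0 e1 e2 e3 g0 g1 g2 g3 F0 F1 F2 F3 z b2 b3
    s0 s1 s2 s3 E1 E2 E3 E0 h01 h02 h03 h12 h13 h23 f02 f03 f13 _ _ _ _
  have hg := hG.cls.good
  have hr : G.Ring4 o x0 x1 x2 x3 e1 e2 e3 e0 g0 g1 g2 g3 F1 F2 F3 F0 z z b2 b3 :=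
    ⟨s0.cub.st, s1.cub.st, s2.cub.st, s3.cub.st, E1, E2, E3, E0, s0.eb, s1.eb, s2.eb, s3.eb,
      s0.cub.se', s1.cub.se', s2.cub.se', s0.cub.se, s0.cub.f2, s1.cub.f2,
      s2.cub.f2, s0.cub.f1, s1.cub.f3, f13, s0.cub.f3.symm, s2.cub.f3, f02.symm, f03.symm,
      s0.nb, s1.nb, s2.nb, s3.nb⟩
  refine step7b hG par17 hr (Or.inl rfl) ?_
  obtain ⟨-, hb⟩ := hS o G hG p1 p2 p3 x1 x2 x3 e1 e2 e3 e0 g1 g2 g3 F1 F2 F3 F0 z b2 b3
    s1 s2 s3 E2 E3 h13 f13 f02.symm s0.cub.f3.symm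
  obtain ⟨k, hk, hk2, hk3⟩ := third_face hg p1 (i := F2) (j := F3) (s2.eb.symm.memv hg) s2.db
  rcases hb k hk with h | h | h | h
  · subst h
    exact Or.inr (hA o G hG p1 p2 p3 x2 x1 x0 e3 e2 e1 e0 g2 g1 g0 F3 F2 _ F0 b2 z z s2.symm
      s1.symm s0.symm E2.symm E1.symm h02.symm f13.symm f02.symm f03.symm hk).symm
  · exact absurd h hk2
  · exact absurd h hk3
  · subst h
    exact Or.inl (hA o G hG p1 p2 p3 x2 x3 x0 e2 e3 e0 e1 g2 g3 g0 F2 F3 _ F1 b2 b3 z s2 s3 s0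
      E3 E0 h02.symm f02.symm f13.symm s1.cub.f3.symm hk).symm

end Gr

end Pool.Agent.Lib.MP06c549.T6H
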