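import Pool.Agent.Lib.MP_06c549_co.T6H.Step56
import Pool.Agent.Lib.MP_06c549_co.T6H.Step7b
import Pool.Agent.Lib.MP_06c549_co.T6H.Step7P

/-!
# MP_06c549_co, T6H: four outer vertices, all weights (`Cx.m4`, ENC, `step7b`)
-/

set_option autoImplicit false

namespace Pool.Agent.Lib.MP06c549.T6H

open Finset

namespace Gr

variable {G : Gr} {o m a b c N : ℕ}

/-- a third face at the inner neighbour -/
lemma P1.third (h1 : G.P1) (hG : G.Good) {x e g e' F F' b : ℕ}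
    (h : G.Spk o x e g e' F F' b) : ∃ i, G.Touch b i ∧ i ≠ F ∧ i ≠ F' := by
  have hb : b ∈ G.vs := (touch_mem hG h.bF).1
  have hcard : 3 ≤ (G.fv b).card := by rw [h1.card_fv hG hb]; exact h.db
  obtain ⟨i, hi, hi'⟩ : ∃ i ∈ G.fv b, i ∉ ({F, F'} : Finset ℕ) := by
    by_contra hcon
    push Not at hcon
    have h4 := card_le_card (s := G.fv b) (t := {F, F'}) hcon
    have h5 := card_le_two (a := F) (b := F')
    omega
  simp only [mem_insert, mem_singleton, not_or] at hi'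
  exact ⟨i, mem_fv.1 hi, hi'.1, hi'.2⟩

/-- if the face behind `x2` touches `b1` and all faces at `b2` have an outer edge, then
`b2 = b1` -/
theorem same_b (hG : G.Good) (h1 : G.P1) {x1 x2 e1 e2 e3 g1 g2 F1 F2 F3 b1 b2 : ℕ}
    (s1 : G.Spk o x1 e1 g1 e2 F1 F2 b1) (s2 : G.Spk o x2 e2 g2 e3 F2 F3 b2)
    (hall : ∀ i, G.Touch b2 i → ∃ d ∈ G.ds, G.S d o i) (ht : G.Touch b1 F3) : b2 = b1 := by
  by_contra hne
  have hE := spec_enc o G hG h1 g2 x2 b2 F2 F3 b1 s2.eb s2.cub.sg s2.cub.f3 s2.cub.f1 s2.cub.f2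
    s1.bF' ht s1.nb (Ne.symm hne) s2.cub.tO
  obtain ⟨i, hi, hi1, hi2⟩ := h1.third hG s2
  obtain ⟨d, hd, hS⟩ := hall i hi
  exact (hE i hi hi1 hi2).2 d hd hS

/-- four outer vertices -/
theorem Cx.k4 (hC : Cx a b c N m o G) (hP : Par a b c N) (h1 : G.P1)
    {x0 x1 x2 x3 e0 e1 e2 e3 g0 g1 g2 g3 F0 F1 F2 F3 b0 b1 b2 b3 : ℕ}
    (s0 : G.Spk o x0 e0 g0 e1 F0 F1 b0) (s1 : G.Spk o x1 e1 g1 e2 F1 F2 b1)
    (s2 : G.Spk o x2 e2 g2 e3 F2 F3 b2) (s3 : G.Spk o x3 e3 g3 e0 F3 F0 b3)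
    (a1 : G.E e1 x0 x1) (a2 : G.E e2 x1 x2) (a3 : G.E e3 x2 x3) (a0 : G.E e0 x3 x0)
    (n02 : x0 ≠ x2) (n13 : x1 ≠ x3) (f02 : F0 ≠ F2) (f13 : F1 ≠ F3) : False := by
  have hG := hC.cls.good
  have m0 := hC.m4 hP s0 s1 s2 s3 a1 a2 a3 a0 n02 n13 f02 f13
  have m1 := hC.m4 hP s1 s2 s3 s0 a2 a3 a0 a1 n13 n02.symm f13 f02.symm
  have m2 := hC.m4 hP s2 s3 s0 s1 a3 a0 a1 a2 n02.symm n13.symm f02.symm f13.symm
  have m3 := hC.m4 hP s3 s0 s1 s2 a0 a1 a2 a3 n13.symm n02 f13.symm f02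
  have d0 : ∃ d ∈ G.ds, G.S d o F0 := ⟨e0, star_sub s0.cub.me, s0.cub.se⟩
  have d1 : ∃ d ∈ G.ds, G.S d o F1 := ⟨e1, star_sub s1.cub.me, s1.cub.se⟩
  have d2 : ∃ d ∈ G.ds, G.S d o F2 := ⟨e2, star_sub s2.cub.me, s2.cub.se⟩
  have d3 : ∃ d ∈ G.ds, G.S d o F3 := ⟨e3, star_sub s3.cub.me, s3.cub.se⟩
  have w1 : ∀ i, G.Touch b1 i → ∃ d ∈ G.ds, G.S d o i := by
    intro i hi
    rcases m1 i hi with rfl | rfl | rfl | rfl <;> assumption
  have w3 : ∀ i, G.Touch b3 i → ∃ d ∈ G.ds, G.S d o i := by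
    intro i hi
    rcases m3 i hi with rfl | rfl | rfl | rfl <;> assumption
  -- `b0 = b1` or `b0 = b3`
  have z0 : b0 = b1 ∨ b0 = b3 := by
    obtain ⟨i, hi, hi1, hi2⟩ := h1.third hG s0
    rcases m0 i hi with h | h | h | h
    · exact absurd h hi1
    · exact absurd h hi2
    · subst h
      exact Or.inl (same_b hG h1 s0 s1 w1 hi).symm
    · subst h
      exact Or.inr (same_b hG h1 s0.symm s3.symm w3 hi).symm
  have z2 : b2 = b3 ∨ b2 = b1 := by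
    obtain ⟨i, hi, hi1, hi2⟩ := h1.third hG s2
    rcases m2 i hi with h | h | h | h
    · exact absurd h hi1
    · exact absurd h hi2
    · subst h
      exact Or.inl (same_b hG h1 s2 s3 w3 hi).symm
    · subst h
      exact Or.inr (same_b hG h1 s2.symm s1.symm w1 hi).symm
  refine step7b hC hP (G := G) (o := o) (x0 := x0) (x1 := x1) (x2 := x2) (x3 := x3) (e0 := e1)
    (e1 := e2) (e2 := e3) (e3 := e0) (g0 := g0) (g1 := g1) (g2 := g2) (g3 := g3) (F0 := F1)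
    (F1 := F2) (F2 := F3) (F3 := F0) (z0 := b0) (z1 := b1) (z2 := b2) (z3 := b3) ?_ z0 z2
  exact
    { t0 := s0.cub.st
      t1 := s1.cub.st
      t2 := s2.cub.st
      t3 := s3.cub.st
      E0 := a1
      E1 := a2
      E2 := a3
      E3 := a0
      H0 := s0.eb
      H1 := s1.eb
      H2 := s2.eb
      H3 := s3.eb
      S0 := s1.cub.se
      S1 := s2.cub.se
      S2 := s3.cub.se
      S3 := s0.cub.se
      o0 := s1.cub.f1
      o1 := s2.cub.f1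
      o2 := s3.cub.f1
      o3 := s0.cub.f1
      F01 := s1.cub.f3
      F02 := f13
      F03 := s0.cub.f3.symm
      F12 := s2.cub.f3
      F13 := f02.symm
      F23 := s3.cub.f3
      n0 := s0.nb
      n1 := s1.nb
      n2 := s2.nb
      n3 := s3.nb }

end Gr

end Pool.Agent.Lib.MP06c549.T6H
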