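import Pool.Agent.Lib.MP_06c549_co.T6H.Base
import Pool.Agent.Lib.MP_06c549_co.PG.HEX

section
/-!
# MP_06c549_co, T6H: covers, cost, potential, minimal counterexample

A cover consists of vertices `X` (price 1) and usable faces `Y` (price 2, or 3 for the faces in `hs`);
an edge `d` of weight
`w d` (pairs of vertices of degree two) costs `w d` more unless one of its sides is in `Y`.
`G.cost S` is the least price of a cover whose vertex part contains `S`. `G.pot a b c` is `a` per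
vertex, `2 a` per pair, `b` per usable face and `c` per further unusable face.
-/
set_option autoImplicit false

namespace Pool.Agent.Lib.MP06c549.T6H

open Finset

namespace Gr

variable {G : Gr} {u : ℕ}

/-! ## Covers -/

/-- the edges of `D` without a side in `Y` -/
def nb (G : Gr) (D Y : Finset ℕ) : Finset ℕ := D.filter fun d => G.l d ∉ Y ∧ G.r d ∉ Y

/-- the weight of a set of edges -/
def ws (G : Gr) (D : Finset ℕ) : ℕ := ∑ d ∈ D, G.w d

/-- the price of the faces `Y` -/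
def fpr (G : Gr) (Y : Finset ℕ) : ℕ := 2 * Y.card + (Y ∩ G.hs).card

/-- the price of `X`, `Y` -/
def price (G : Gr) (X Y : Finset ℕ) : ℕ := X.card + G.fpr Y + G.ws (G.nb G.ds Y)

@[simp] lemma fpr_empty : G.fpr ∅ = 0 := by
  simp [fpr]

lemma fpr_singleton {F : ℕ} : G.fpr {F} = 2 + if F ∈ G.hs then 1 else 0 := by
  unfold fpr
  split_ifs with h
  · rw [singleton_inter_of_mem h, card_singleton]
  · rw [singleton_inter_of_notMem h, card_empty, card_singleton]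

lemma fpr_of_disjoint {Y : Finset ℕ} (h : Disjoint Y G.hs) : G.fpr Y = 2 * Y.card := by
  unfold fpr
  rw [disjoint_iff_inter_eq_empty.1 h, card_empty, add_zero]

lemma fpr_le {Y : Finset ℕ} : G.fpr Y ≤ 3 * Y.card := by
  unfold fpr
  have := card_le_card (inter_subset_left : Y ∩ G.hs ⊆ Y)
  omega

lemma fpr_union_le (Y Y' : Finset ℕ) : G.fpr (Y ∪ Y') ≤ G.fpr Y + G.fpr Y' := by
  unfold fpr
  have h1 := card_union_le Y Y'
  have h2 := card_union_le (Y ∩ G.hs) (Y' ∩ G.hs)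
  rw [← union_inter_distrib_right] at h2
  omega

/-- the vertices `X` and the usable faces `Y` cover all edges -/
def IsCov (G : Gr) (X Y : Finset ℕ) : Prop :=
  X ⊆ G.vs ∧ Y ⊆ G.fs \ G.us ∧ ∀ d ∈ G.ds, G.p d ∈ X ∨ G.q d ∈ X ∨ G.l d ∈ Y ∨ G.r d ∈ Y

/-- there is a cover with `S` inside the vertex part, of price at most `k` -/
def Cov (G : Gr) (S : Finset ℕ) (k : ℕ) : Prop :=
  ∃ X Y, G.IsCov X Y ∧ S ⊆ X ∧ G.price X Y ≤ k

/-- the least price of a cover with `S` inside the vertex part -/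
noncomputable def cost (G : Gr) (S : Finset ℕ) : ℕ := sInf {k | G.Cov S k}

/-- the least price of a cover -/
noncomputable def tau (G : Gr) : ℕ := G.cost ∅

lemma mem_nb {D Y : Finset ℕ} {d : ℕ} : d ∈ G.nb D Y ↔ d ∈ D ∧ G.l d ∉ Y ∧ G.r d ∉ Y := by
  rw [nb, mem_filter]

lemma nb_sub {D Y : Finset ℕ} : G.nb D Y ⊆ D := filter_subset _ _

@[simp] lemma nb_empty {D : Finset ℕ} : G.nb D ∅ = D := by
  ext d
  simp [mem_nb]

lemma ws_mono {D D' : Finset ℕ} (h : D ⊆ D') : G.ws D ≤ G.ws D' :=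
  sum_le_sum_of_subset h

lemma ws_union_le (D D' : Finset ℕ) : G.ws (D ∪ D') ≤ G.ws D + G.ws D' := by
  unfold ws
  rw [← sum_union_inter]
  exact Nat.le_add_right _ _

lemma ws_union {D D' : Finset ℕ} (h : Disjoint D D') : G.ws (D ∪ D') = G.ws D + G.ws D' :=
  sum_union h

lemma isCov_all (hG : G.Good) : G.IsCov G.vs ∅ :=
  ⟨Subset.rfl, empty_subset _, fun d hd => Or.inl (hG.ends d hd).1⟩

lemma exists_cost (hG : G.Good) {S : Finset ℕ} (hS : S ⊆ G.vs) :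
    ∃ X Y, G.IsCov X Y ∧ S ⊆ X ∧ G.price X Y = G.cost S := by
  have hne : {k | G.Cov S k}.Nonempty := ⟨_, G.vs, ∅, isCov_all hG, hS, le_rfl⟩
  obtain ⟨X, Y, h1, h2, h3⟩ : G.Cov S (G.cost S) := Nat.sInf_mem hne
  refine ⟨X, Y, h1, h2, le_antisymm h3 ?_⟩
  exact Nat.sInf_le ⟨X, Y, h1, h2, le_rfl⟩

lemma cost_le {S X Y : Finset ℕ} (h : G.IsCov X Y) (hS : S ⊆ X) :
    G.cost S ≤ G.price X Y := Nat.sInf_le ⟨X, Y, h, hS, le_rfl⟩

lemma tau_le {X Y : Finset ℕ} (h : G.IsCov X Y) : G.tau ≤ G.price X Y :=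
  cost_le h (empty_subset _)

lemma exists_tau (hG : G.Good) : ∃ X Y, G.IsCov X Y ∧ G.price X Y = G.tau := by
  obtain ⟨X, Y, h1, -, h2⟩ := exists_cost hG (empty_subset G.vs)
  exact ⟨X, Y, h1, h2⟩

lemma cost_mono (hG : G.Good) {S T : Finset ℕ} (h : S ⊆ T) (hT : T ⊆ G.vs) :
    G.cost S ≤ G.cost T := by
  obtain ⟨X, Y, h1, h2, h3⟩ := exists_cost hG hT
  rw [← h3]
  exact cost_le h1 (h.trans h2)

lemma tau_le_cost (hG : G.Good) {T : Finset ℕ} (hT : T ⊆ G.vs) : G.tau ≤ G.cost T :=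
  cost_mono hG (empty_subset _) hT

lemma IsCov.union {X Y T : Finset ℕ} (h : G.IsCov X Y) (hT : T ⊆ G.vs) : G.IsCov (X ∪ T) Y := by
  refine ⟨union_subset h.1 hT, h.2.1, fun d hd => ?_⟩
  rcases h.2.2 d hd with h | h | h | h
  · exact Or.inl (mem_union_left _ h)
  · exact Or.inr (Or.inl (mem_union_left _ h))
  · exact Or.inr (Or.inr (Or.inl h))
  · exact Or.inr (Or.inr (Or.inr h))

lemma cost_union_le (hG : G.Good) {S T : Finset ℕ} (hS : S ⊆ G.vs) (hT : T ⊆ G.vs) :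
    G.cost (S ∪ T) ≤ G.cost S + T.card := by
  obtain ⟨X, Y, h1, h2, h3⟩ := exists_cost hG hS
  have h5 := cost_le (h1.union hT) (union_subset_union h2 (Subset.refl T))
  have h6 := card_union_le X T
  unfold price at h3 h5
  omega

lemma cost_insert_le (hG : G.Good) {S : Finset ℕ} {v : ℕ} (hS : S ⊆ G.vs) (hv : v ∈ G.vs) :
    G.cost (insert v S) ≤ G.cost S + 1 := by
  have h := cost_union_le hG hS (singleton_subset_iff.2 hv)
  rw [union_comm, ← insert_eq, card_singleton] at h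
  exact h

lemma cost_singleton_le (hG : G.Good) {v : ℕ} (hv : v ∈ G.vs) : G.cost {v} ≤ G.tau + 1 :=
  cost_insert_le hG (empty_subset _) hv

lemma cost_le_tau_add (hG : G.Good) {T : Finset ℕ} (hT : T ⊆ G.vs) :
    G.cost T ≤ G.tau + T.card := by
  have := cost_union_le hG (empty_subset _) hT
  rwa [empty_union] at this

/-- the usable faces of `G - W` -/
lemma usable_del {W Y : Finset ℕ} (hY : Y ⊆ (G.del W u).fs \ (G.del W u).us) :
    (∀ i ∈ Y, i ∈ G.fs ∧ i ∉ G.us ∧ i ∉ G.tf W ∧ i ≠ u) ∧ ∀ i, G.phi W u i ∈ Y → i ∈ Y := by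
  have hY' : ∀ i ∈ Y, i ∈ G.fs ∧ i ∉ G.us ∧ i ∉ G.tf W ∧ i ≠ u := by
    intro i hi
    have h := hY hi
    simp only [del, mem_insert, mem_sdiff, not_or, not_and, not_not] at h
    obtain ⟨h1, h2, h4⟩ := h
    rcases h1 with h1 | h1
    · exact absurd h1 h2
    · exact ⟨h1.1, fun h5 => h1.2 (h4 h5), h1.2, h2⟩
  refine ⟨hY', fun i hi => ?_⟩
  by_cases h : i ∈ G.tf W
  · rw [phi_of_mem h] at hi
    exact absurd rfl (hY' u hi).2.2.2
  · rwa [phi_of_not h] at hi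

lemma fpr_del {W Y : Finset ℕ} (hY : Y ⊆ (G.del W u).fs \ (G.del W u).us) :
    (G.del W u).fpr Y = G.fpr Y := by
  have h : Y ∩ (G.del W u).hs = Y ∩ G.hs := by
    ext i
    simp only [del, mem_inter, mem_sdiff]
    constructor
    · rintro ⟨h1, h2, -⟩
      exact ⟨h1, h2⟩
    · rintro ⟨h1, h2⟩
      exact ⟨h1, h2, ((usable_del hY).1 i h1).2.2.1⟩
  unfold fpr
  rw [h]

/-- Cover of `G` from a cover of `G - W`. -/
theorem cost_del {W S T X₀ Y₀ : Finset ℕ} (hW : (G.del W u).Good)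
    (hT : T ⊆ G.vs \ W) (hX₀ : X₀ ⊆ G.vs) (hY₀ : Y₀ ⊆ G.fs \ G.us) (hS : S ⊆ X₀ ∪ T)
    (hc : ∀ d ∈ G.tds W, G.p d ∈ X₀ ∪ T ∨ G.q d ∈ X₀ ∪ T ∨ G.l d ∈ Y₀ ∨ G.r d ∈ Y₀) :
    G.cost S ≤ X₀.card + G.fpr Y₀ + G.ws (G.nb (G.tds W) Y₀) + (G.del W u).cost T := by
  obtain ⟨X, Y, ⟨hX, hY, hd⟩, hTX, h3⟩ := exists_cost hW hT
  obtain ⟨hY', hphi⟩ := usable_del hY
  have hsub : X₀ ∪ T ⊆ X₀ ∪ X := union_subset_union (Subset.refl _) hTX
  have h4 : G.IsCov (X₀ ∪ X) (Y₀ ∪ Y) := by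
    refine ⟨union_subset hX₀ fun v hv => (mem_sdiff.1 (hX hv)).1, union_subset hY₀ fun i hi =>
      mem_sdiff.2 ⟨(hY' i hi).1, (hY' i hi).2.1⟩, fun d hds => ?_⟩
    by_cases hdt : d ∈ G.tds W
    · rcases hc d hdt with h | h | h | h
      · exact Or.inl (hsub h)
      · exact Or.inr (Or.inl (hsub h))
      · exact Or.inr (Or.inr (Or.inl (mem_union_left _ h)))
      · exact Or.inr (Or.inr (Or.inr (mem_union_left _ h)))
    · rcases hd d (mem_sdiff.2 ⟨hds, hdt⟩) with h | h | h | h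
      · exact Or.inl (mem_union_right _ h)
      · exact Or.inr (Or.inl (mem_union_right _ h))
      · exact Or.inr (Or.inr (Or.inl (mem_union_right _ (hphi _ h))))
      · exact Or.inr (Or.inr (Or.inr (mem_union_right _ (hphi _ h))))
  have h5 := cost_le h4 (hS.trans hsub)
  have h6 := card_union_le X₀ X
  have h7 := G.fpr_union_le Y₀ Y
  have h7'' := fpr_del hY
  have h8 : G.nb G.ds (Y₀ ∪ Y) ⊆
      G.nb (G.tds W) Y₀ ∪ (G.del W u).nb (G.del W u).ds Y := by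
    intro d hd
    obtain ⟨hd1, hd2, hd3⟩ := mem_nb.1 hd
    by_cases hdt : d ∈ G.tds W
    · exact mem_union_left _ (mem_nb.2 ⟨hdt, fun h => hd2 (mem_union_left _ h),
        fun h => hd3 (mem_union_left _ h)⟩)
    · exact mem_union_right _ (mem_nb.2 ⟨mem_sdiff.2 ⟨hd1, hdt⟩,
        fun h => hd2 (mem_union_right _ (hphi _ h)), fun h => hd3 (mem_union_right _ (hphi _ h))⟩)
  have h9 := (ws_mono (G := G) h8).trans (ws_union_le _ _)
  have h10 : G.ws ((G.del W u).nb (G.del W u).ds Y) =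
      (G.del W u).ws ((G.del W u).nb (G.del W u).ds Y) := rfl
  unfold price at h3 h5
  omega

lemma vs_del_compl {V : Finset ℕ} (hV : V ⊆ G.vs) : (G.del (G.vs \ V) u).vs = V := by
  simp only [del, sdiff_sdiff_right_self]
  exact inter_eq_right.2 hV

lemma mem_ds_del_compl {V : Finset ℕ} {d : ℕ} (hd : d ∈ G.ds) (h1 : G.p d ∈ V) (h2 : G.q d ∈ V) :
    d ∈ (G.del (G.vs \ V) u).ds := by
  refine mem_sdiff.2 ⟨hd, fun h3 => ?_⟩
  rcases (mem_tds.1 h3).2 with h | h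
  · exact (mem_sdiff.1 h).2 h1
  · exact (mem_sdiff.1 h).2 h2

/-- the edges neither inside `V₁` nor inside `V₂` -/
def rest (G : Gr) (V₁ V₂ : Finset ℕ) : Finset ℕ :=
  G.ds.filter fun d => ¬ (G.p d ∈ V₁ ∧ G.q d ∈ V₁) ∧ ¬ (G.p d ∈ V₂ ∧ G.q d ∈ V₂)

lemma mem_rest {V₁ V₂ : Finset ℕ} {d : ℕ} : d ∈ G.rest V₁ V₂ ↔
    d ∈ G.ds ∧ ¬ (G.p d ∈ V₁ ∧ G.q d ∈ V₁) ∧ ¬ (G.p d ∈ V₂ ∧ G.q d ∈ V₂) := by
  rw [rest, mem_filter]

/-- Cover of `G` from covers of the two parts `V₁` and `V₂`. -/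
theorem cost_two {V₁ V₂ S T₁ T₂ X₀ Y₀ : Finset ℕ}
    (h₁ : (G.del (G.vs \ V₁) u).Good) (h₂ : (G.del (G.vs \ V₂) u).Good)
    (hV₁ : V₁ ⊆ G.vs) (hV₂ : V₂ ⊆ G.vs) (hT₁ : T₁ ⊆ V₁) (hT₂ : T₂ ⊆ V₂)
    (hX₀ : X₀ ⊆ G.vs) (hY₀ : Y₀ ⊆ G.fs \ G.us) (hS : S ⊆ X₀ ∪ (T₁ ∪ T₂))
    (hc : ∀ d ∈ G.rest V₁ V₂,
      G.p d ∈ X₀ ∪ (T₁ ∪ T₂) ∨ G.q d ∈ X₀ ∪ (T₁ ∪ T₂) ∨ G.l d ∈ Y₀ ∨ G.r d ∈ Y₀) :
    G.cost S ≤ X₀.card + G.fpr Y₀ + G.ws (G.nb (G.rest V₁ V₂) Y₀) +
      (G.del (G.vs \ V₁) u).cost T₁ + (G.del (G.vs \ V₂) u).cost T₂ := by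
  obtain ⟨X, Y, ⟨hX, hY, hd⟩, hTX, h3⟩ := exists_cost h₁ (S := T₁)
    (by rw [vs_del_compl hV₁]; exact hT₁)
  obtain ⟨X', Y', ⟨hX', hY', hd'⟩, hTX', h3'⟩ := exists_cost h₂ (S := T₂)
    (by rw [vs_del_compl hV₂]; exact hT₂)
  rw [vs_del_compl hV₁] at hX
  rw [vs_del_compl hV₂] at hX'
  obtain ⟨k1, k2⟩ := usable_del hY
  obtain ⟨k1', k2'⟩ := usable_del hY'
  have hsub : X₀ ∪ (T₁ ∪ T₂) ⊆ X₀ ∪ (X ∪ X') :=
    union_subset_union (Subset.refl _) (union_subset_union hTX hTX')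
  have h4 : G.IsCov (X₀ ∪ (X ∪ X')) (Y₀ ∪ (Y ∪ Y')) := by
    refine ⟨union_subset hX₀ (union_subset (hX.trans hV₁) (hX'.trans hV₂)),
      union_subset hY₀ (union_subset (fun i hi => mem_sdiff.2 ⟨(k1 i hi).1, (k1 i hi).2.1⟩)
        fun i hi => mem_sdiff.2 ⟨(k1' i hi).1, (k1' i hi).2.1⟩), fun d hds => ?_⟩
    by_cases hd1 : G.p d ∈ V₁ ∧ G.q d ∈ V₁
    · rcases hd d (mem_ds_del_compl hds hd1.1 hd1.2) with h | h | h | h
      · exact Or.inl (mem_union_right _ (mem_union_left _ h))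
      · exact Or.inr (Or.inl (mem_union_right _ (mem_union_left _ h)))
      · exact Or.inr (Or.inr (Or.inl (mem_union_right _ (mem_union_left _ (k2 _ h)))))
      · exact Or.inr (Or.inr (Or.inr (mem_union_right _ (mem_union_left _ (k2 _ h)))))
    · by_cases hd2 : G.p d ∈ V₂ ∧ G.q d ∈ V₂
      · rcases hd' d (mem_ds_del_compl hds hd2.1 hd2.2) with h | h | h | h
        · exact Or.inl (mem_union_right _ (mem_union_right _ h))
        · exact Or.inr (Or.inl (mem_union_right _ (mem_union_right _ h)))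
        · exact Or.inr (Or.inr (Or.inl (mem_union_right _ (mem_union_right _ (k2' _ h)))))
        · exact Or.inr (Or.inr (Or.inr (mem_union_right _ (mem_union_right _ (k2' _ h)))))
      · rcases hc d (mem_rest.2 ⟨hds, hd1, hd2⟩) with h | h | h | h
        · exact Or.inl (hsub h)
        · exact Or.inr (Or.inl (hsub h))
        · exact Or.inr (Or.inr (Or.inl (mem_union_left _ h)))
        · exact Or.inr (Or.inr (Or.inr (mem_union_left _ h)))
  have h5 := cost_le h4 (hS.trans hsub)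
  have h6 := card_union_le X₀ (X ∪ X')
  have h6' := card_union_le X X'
  have h7 := G.fpr_union_le Y₀ (Y ∪ Y')
  have h7' := G.fpr_union_le Y Y'
  have h7a := fpr_del hY
  have h7b := fpr_del hY'
  have h8 : G.nb G.ds (Y₀ ∪ (Y ∪ Y')) ⊆ G.nb (G.rest V₁ V₂) Y₀ ∪
      ((G.del (G.vs \ V₁) u).nb (G.del (G.vs \ V₁) u).ds Y ∪
        (G.del (G.vs \ V₂) u).nb (G.del (G.vs \ V₂) u).ds Y') := by
    intro d hd
    obtain ⟨hds, hd2, hd3⟩ := mem_nb.1 hd
    by_cases hd1 : G.p d ∈ V₁ ∧ G.q d ∈ V₁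
    · exact mem_union_right _ (mem_union_left _ (mem_nb.2 ⟨mem_ds_del_compl hds hd1.1 hd1.2,
        fun h => hd2 (mem_union_right _ (mem_union_left _ (k2 _ h))),
        fun h => hd3 (mem_union_right _ (mem_union_left _ (k2 _ h)))⟩))
    · by_cases hd4 : G.p d ∈ V₂ ∧ G.q d ∈ V₂
      · exact mem_union_right _ (mem_union_right _ (mem_nb.2 ⟨mem_ds_del_compl hds hd4.1 hd4.2,
          fun h => hd2 (mem_union_right _ (mem_union_right _ (k2' _ h))),
          fun h => hd3 (mem_union_right _ (mem_union_right _ (k2' _ h)))⟩))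
      · exact mem_union_left _ (mem_nb.2 ⟨mem_rest.2 ⟨hds, hd1, hd4⟩,
          fun h => hd2 (mem_union_left _ h), fun h => hd3 (mem_union_left _ h)⟩)
  have h9 := (ws_mono (G := G) h8).trans (ws_union_le _ _)
  have h10 := ws_union_le (G := G) ((G.del (G.vs \ V₁) u).nb (G.del (G.vs \ V₁) u).ds Y)
    ((G.del (G.vs \ V₂) u).nb (G.del (G.vs \ V₂) u).ds Y')
  have h11 : G.ws ((G.del (G.vs \ V₁) u).nb (G.del (G.vs \ V₁) u).ds Y) =
      (G.del (G.vs \ V₁) u).ws ((G.del (G.vs \ V₁) u).nb (G.del (G.vs \ V₁) u).ds Y) := rfl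
  have h12 : G.ws ((G.del (G.vs \ V₂) u).nb (G.del (G.vs \ V₂) u).ds Y') =
      (G.del (G.vs \ V₂) u).ws ((G.del (G.vs \ V₂) u).nb (G.del (G.vs \ V₂) u).ds Y') := rfl
  unfold price at h3 h3' h5
  omega

/-! ## The potential -/

/-- the unusable faces of credit `c` -/
def cs (G : Gr) : Finset ℕ := G.us \ G.ns

lemma mem_cs {i : ℕ} : i ∈ G.cs ↔ i ∈ G.us ∧ i ∉ G.ns := by
  rw [cs, mem_sdiff]

lemma cs_sub (hG : G.Good) : G.cs ⊆ G.fs := fun _ h => hG.us_sub (mem_cs.1 h).1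

lemma cs_eq (h : G.ns = ∅) : G.cs = G.us := by
  rw [cs, h, sdiff_empty]

/-- the potential: `a` per vertex, `2 a` per pair of vertices of degree two, `b` per usable face and
per face in `ns`, `c` per further unusable face -/
def pot (a b c : ℕ) (G : Gr) : ℕ :=
  a * G.vs.card + 2 * a * G.ws G.ds + b * (G.fs \ G.cs).card + c * (G.cs.card - 1)

lemma pot_erase (a b c : ℕ) (hu : u ∈ G.cs) :
    G.pot a b c = a * G.vs.card + 2 * a * G.ws G.ds + b * (G.fs \ G.cs).card +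
      c * (G.cs.erase u).card := by
  rw [pot, card_erase_of_mem hu]

lemma del_cs {W : Finset ℕ} (hu : u ∈ G.cs) : (G.del W u).cs = insert u (G.cs \ G.tf W) := by
  ext i
  simp only [del, cs, mem_insert, mem_sdiff]
  have hu' := mem_cs.1 hu
  constructor
  · rintro ⟨h1 | h1, h2⟩
    · exact Or.inl h1
    · exact Or.inr ⟨⟨h1.1, fun h => h2 ⟨h, h1.2⟩⟩, h1.2⟩
  · rintro (h1 | h1)
    · exact ⟨Or.inl h1, fun h => hu'.2 (h1 ▸ h.1)⟩
    · exact ⟨Or.inr ⟨h1.1.1, h1.2⟩, fun h => h1.1.2 h.1⟩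

lemma del_usable {W : Finset ℕ} (hu : u ∈ G.cs) :
    (G.del W u).fs \ (G.del W u).cs = (G.fs \ G.cs) \ G.tf W := by
  rw [del_cs hu]
  ext i
  simp only [del, mem_insert, mem_sdiff, not_or, not_and, not_not]
  constructor
  · rintro ⟨h1 | h1, h2, h3⟩
    · exact absurd h1 h2
    · exact ⟨⟨h1.1, fun h => h1.2 (h3 h)⟩, h1.2⟩
  · rintro ⟨⟨h1, h2⟩, h3⟩
    exact ⟨Or.inr ⟨h1, h3⟩, fun h => h2 (h ▸ hu), fun h => absurd h h2⟩

lemma del_us_erase {W : Finset ℕ} (hu : u ∈ G.cs) :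
    (G.del W u).cs.erase u = (G.cs \ G.tf W).erase u := by
  rw [del_cs hu, erase_insert_eq_erase]

lemma mem_del_us {W : Finset ℕ} : u ∈ (G.del W u).us := mem_insert_self _ _

lemma mem_del_cs {W : Finset ℕ} (hu : u ∈ G.cs) : u ∈ (G.del W u).cs := by
  rw [del_cs hu]
  exact mem_insert_self _ _

lemma ws_ds (W : Finset ℕ) : G.ws (G.ds \ G.tds W) + G.ws (G.tds W) = G.ws G.ds := by
  unfold ws
  exact sum_sdiff tds_sub

lemma pot_del (a b c : ℕ) (hG : G.Good) (hu : u ∈ G.cs) {W : Finset ℕ} (hW : W ⊆ G.vs) :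
    (G.del W u).pot a b c + a * W.card + 2 * a * G.ws (G.tds W) + b * (G.tf W \ G.cs).card +
      c * ((G.tf W ∩ G.cs).erase u).card = G.pot a b c := by
  rw [pot_erase a b c hu, pot_erase a b c (mem_del_cs (W := W) hu), del_usable hu,
    del_us_erase hu]
  have h1 : (G.del W u).vs.card + W.card = G.vs.card := card_sdiff_add_card_eq_card hW
  have h1' : (G.del W u).ws (G.del W u).ds + G.ws (G.tds W) = G.ws G.ds := ws_ds W
  have h2 : ((G.fs \ G.cs) \ G.tf W).card + (G.tf W \ G.cs).card = (G.fs \ G.cs).card := by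
    rw [← card_union_of_disjoint]
    · congr 1
      ext i
      simp only [mem_union, mem_sdiff]
      constructor
      · rintro (⟨h, -⟩ | ⟨h, h'⟩)
        · exact h
        · exact ⟨tf_sub hG h, h'⟩
      · rintro ⟨h, h'⟩
        by_cases h3 : i ∈ G.tf W
        · exact Or.inr ⟨h3, h'⟩
        · exact Or.inl ⟨⟨h, h'⟩, h3⟩
    · rw [disjoint_left]
      intro i hi hi'
      exact (mem_sdiff.1 hi).2 (mem_sdiff.1 hi').1
  have h3 : ((G.cs \ G.tf W).erase u).card + ((G.tf W ∩ G.cs).erase u).card =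
      (G.cs.erase u).card := by
    rw [← card_union_of_disjoint]
    · congr 1
      ext i
      simp only [mem_union, mem_sdiff, mem_erase, mem_inter]
      constructor
      · rintro (⟨h, h', -⟩ | ⟨h, -, h'⟩)
        · exact ⟨h, h'⟩
        · exact ⟨h, h'⟩
      · rintro ⟨h, h'⟩
        by_cases h3 : i ∈ G.tf W
        · exact Or.inr ⟨h, h3, h'⟩
        · exact Or.inl ⟨h, h', h3⟩
    · rw [disjoint_left]
      intro i hi hi'
      exact (mem_sdiff.1 (mem_erase.1 hi).2).2 (mem_inter.1 (mem_erase.1 hi').2).1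
  rw [← h1, ← h1', ← h2, ← h3]
  ring

/-- every face other than `j` has an edge -/
lemma face_edge (hG : G.Good) {i j : ℕ} (hi : i ∈ G.fs) (hj : j ∈ G.fs) (hij : i ≠ j) :
    ∃ d ∈ G.ds, G.l d = i ∨ G.r d = i := by
  by_contra hcon
  push Not at hcon
  have h := hG.dconn (fun k => if k = i then 1 else 0) (fun d hd => by
    simp only [if_neg (hcon d hd).1, if_neg (hcon d hd).2]) i hi j hj
  simp only [if_true, if_neg hij.symm] at h
  exact absurd h (by decide)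

/-- the potentials of two parts -/
lemma pot_two (a b c : ℕ) (hG : G.Good) (hu : u ∈ G.cs) {V₁ V₂ B B' : Finset ℕ}
    (hV₁ : V₁ ⊆ G.vs) (hV₂ : V₂ ⊆ G.vs) (hV : Disjoint V₁ V₂) (hB : B ⊆ G.fs \ G.cs)
    (hB₁ : B ⊆ G.tf (G.vs \ V₁)) (hB₂ : B ⊆ G.tf (G.vs \ V₂)) (hB' : B' ⊆ G.cs.erase u)
    (hB₁' : B' ⊆ G.tf (G.vs \ V₁)) (hB₂' : B' ⊆ G.tf (G.vs \ V₂)) :
    (G.del (G.vs \ V₁) u).pot a b c + (G.del (G.vs \ V₂) u).pot a b c +
      a * (G.vs \ (V₁ ∪ V₂)).card + 2 * a * G.ws (G.rest V₁ V₂) + b * B.card + c * B'.card ≤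
      G.pot a b c := by
  rw [pot_erase a b c hu, pot_erase a b c (mem_del_cs (W := G.vs \ V₁) hu),
    pot_erase a b c (mem_del_cs (W := G.vs \ V₂) hu), del_usable hu, del_usable hu,
    del_us_erase hu, del_us_erase hu, vs_del_compl hV₁, vs_del_compl hV₂]
  have hmem : ∀ V : Finset ℕ, ∀ d ∈ G.ds, d ∉ G.tds (G.vs \ V) → G.p d ∈ V ∧ G.q d ∈ V := by
    intro V d hd h
    constructor
    · by_contra hp
      exact h (mem_tds.2 ⟨hd, Or.inl (mem_sdiff.2 ⟨(hG.ends d hd).1, hp⟩)⟩)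
    · by_contra hp
      exact h (mem_tds.2 ⟨hd, Or.inr (mem_sdiff.2 ⟨(hG.ends d hd).2, hp⟩)⟩)
  have hdis : ∀ i ∈ G.fs, i ≠ u → i ∉ G.tf (G.vs \ V₁) → i ∉ G.tf (G.vs \ V₂) → False := by
    intro i hi hiu h1 h2
    obtain ⟨d, hd, hdi⟩ := face_edge hG hi (cs_sub hG hu) hiu
    have key : ∀ V : Finset ℕ, i ∉ G.tf (G.vs \ V) → G.p d ∈ V := by
      intro V hV
      exact (hmem V d hd fun h => hV (mem_tf.2 ⟨d, h, hdi⟩)).1
    exact disjoint_left.1 hV (key _ h1) (key _ h2)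
  have h1 : V₁.card + V₂.card + (G.vs \ (V₁ ∪ V₂)).card = G.vs.card := by
    rw [← card_union_of_disjoint hV, add_comm]
    exact card_sdiff_add_card_eq_card (union_subset hV₁ hV₂)
  have h1' : G.ws (G.ds \ G.tds (G.vs \ V₁)) + G.ws (G.ds \ G.tds (G.vs \ V₂)) +
      G.ws (G.rest V₁ V₂) ≤ G.ws G.ds := by
    rw [← ws_union, ← ws_union]
    · exact ws_mono (union_subset (union_subset sdiff_subset sdiff_subset) (filter_subset _ _))
    · rw [disjoint_left]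
      intro d hd hd'
      obtain ⟨-, h3, h4⟩ := mem_rest.1 hd'
      rcases mem_union.1 hd with h | h
      · exact h3 (hmem _ d (mem_sdiff.1 h).1 (mem_sdiff.1 h).2)
      · exact h4 (hmem _ d (mem_sdiff.1 h).1 (mem_sdiff.1 h).2)
    · rw [disjoint_left]
      intro d hd hd'
      exact disjoint_left.1 hV (hmem _ d (mem_sdiff.1 hd).1 (mem_sdiff.1 hd).2).1
        (hmem _ d (mem_sdiff.1 hd').1 (mem_sdiff.1 hd').2).1
  have h2 : ((G.fs \ G.cs) \ G.tf (G.vs \ V₁)).card + ((G.fs \ G.cs) \ G.tf (G.vs \ V₂)).card +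
      B.card ≤ (G.fs \ G.cs).card := by
    rw [← card_union_of_disjoint, ← card_union_of_disjoint]
    · exact card_le_card (union_subset (union_subset sdiff_subset sdiff_subset) hB)
    · rw [disjoint_left]
      intro i hi hi'
      rcases mem_union.1 hi with h | h
      · exact (mem_sdiff.1 h).2 (hB₁ hi')
      · exact (mem_sdiff.1 h).2 (hB₂ hi')
    · rw [disjoint_left]
      intro i hi hi'
      have hi1 := mem_sdiff.1 (mem_sdiff.1 hi).1
      exact hdis i hi1.1 (fun h => hi1.2 (h ▸ hu)) (mem_sdiff.1 hi).2 (mem_sdiff.1 hi').2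
  have h3 : ((G.cs \ G.tf (G.vs \ V₁)).erase u).card + ((G.cs \ G.tf (G.vs \ V₂)).erase u).card +
      B'.card ≤ (G.cs.erase u).card := by
    rw [← card_union_of_disjoint, ← card_union_of_disjoint]
    · exact card_le_card (union_subset (union_subset (erase_subset_erase _ sdiff_subset)
        (erase_subset_erase _ sdiff_subset)) hB')
    · rw [disjoint_left]
      intro i hi hi'
      rcases mem_union.1 hi with h | h
      · exact (mem_sdiff.1 (mem_erase.1 h).2).2 (hB₁' hi')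
      · exact (mem_sdiff.1 (mem_erase.1 h).2).2 (hB₂' hi')
    · rw [disjoint_left]
      intro i hi hi'
      obtain ⟨hiu, hi1⟩ := mem_erase.1 hi
      obtain ⟨-, hi2⟩ := mem_erase.1 hi'
      exact hdis i (cs_sub hG (mem_sdiff.1 hi1).1) hiu (mem_sdiff.1 hi1).2 (mem_sdiff.1 hi2).2
  have e1 : (G.del (G.vs \ V₁) u).ws (G.del (G.vs \ V₁) u).ds =
      G.ws (G.ds \ G.tds (G.vs \ V₁)) := rfl
  have e2 : (G.del (G.vs \ V₂) u).ws (G.del (G.vs \ V₂) u).ds =
      G.ws (G.ds \ G.tds (G.vs \ V₂)) := rfl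
  rw [← h1, e1, e2]
  nlinarith [Nat.mul_le_mul_left b h2, Nat.mul_le_mul_left c h3, Nat.mul_le_mul_left (2 * a) h1']

/-- the potential after a deletion, every touched face other than `u` counted with weight `b` -/
lemma pot_del_le {a b c : ℕ} (hbc : b ≤ c) (hG : G.Good) (hu : u ∈ G.cs) {W B : Finset ℕ}
    (hW : W ⊆ G.vs) (hB : B ⊆ (G.tf W).erase u) :
    (G.del W u).pot a b c + a * W.card + 2 * a * G.ws (G.tds W) + b * B.card ≤ G.pot a b c := by
  have h1 := pot_del a b c hG hu hW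
  have h2 : B.card ≤ (G.tf W \ G.cs).card + ((G.tf W ∩ G.cs).erase u).card := by
    refine le_trans (card_le_card ?_) (card_union_le _ _)
    intro i hi
    obtain ⟨h3, h4⟩ := mem_erase.1 (hB hi)
    by_cases h5 : i ∈ G.cs
    · exact mem_union_right _ (mem_erase.2 ⟨h3, mem_inter.2 ⟨h4, h5⟩⟩)
    · exact mem_union_left _ (mem_sdiff.2 ⟨h4, h5⟩)
  have h6 : b * B.card ≤ b * (G.tf W \ G.cs).card + c * ((G.tf W ∩ G.cs).erase u).card := by
    refine le_trans (Nat.mul_le_mul_left b h2) ?_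
    rw [mul_add]
    exact Nat.add_le_add_left (Nat.mul_le_mul_right _ hbc) _
  omega

/-- the potentials of two parts, every face touched by both complements counted with weight `b` -/
lemma pot_two_le {a b c : ℕ} (hbc : b ≤ c) (hG : G.Good) (hu : u ∈ G.cs) {V₁ V₂ B : Finset ℕ}
    (hV₁ : V₁ ⊆ G.vs) (hV₂ : V₂ ⊆ G.vs) (hV : Disjoint V₁ V₂)
    (hB₁ : B ⊆ (G.tf (G.vs \ V₁)).erase u) (hB₂ : B ⊆ (G.tf (G.vs \ V₂)).erase u) :
    (G.del (G.vs \ V₁) u).pot a b c + (G.del (G.vs \ V₂) u).pot a b c +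
      a * (G.vs \ (V₁ ∪ V₂)).card + 2 * a * G.ws (G.rest V₁ V₂) + b * B.card ≤ G.pot a b c := by
  have h1 := pot_two a b c hG hu (B := B \ G.cs) (B' := B ∩ G.cs) hV₁ hV₂ hV
    (fun i hi => mem_sdiff.2 ⟨tf_sub hG (mem_erase.1 (hB₁ (mem_sdiff.1 hi).1)).2,
      (mem_sdiff.1 hi).2⟩)
    (fun i hi => (mem_erase.1 (hB₁ (mem_sdiff.1 hi).1)).2)
    (fun i hi => (mem_erase.1 (hB₂ (mem_sdiff.1 hi).1)).2)
    (fun i hi => mem_erase.2 ⟨(mem_erase.1 (hB₁ (mem_inter.1 hi).1)).1, (mem_inter.1 hi).2⟩)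
    (fun i hi => (mem_erase.1 (hB₁ (mem_inter.1 hi).1)).2)
    (fun i hi => (mem_erase.1 (hB₂ (mem_inter.1 hi).1)).2)
  have h2 : B.card = (B \ G.cs).card + (B ∩ G.cs).card := (card_sdiff_add_card_inter B G.cs).symm
  have h6 : b * B.card ≤ b * (B \ G.cs).card + c * (B ∩ G.cs).card := by
    rw [h2, mul_add]
    exact Nat.add_le_add_left (Nat.mul_le_mul_right _ hbc) _
  omega

lemma ws_nb_le (D Y : Finset ℕ) : G.ws (G.nb D Y) ≤ G.ws D := ws_mono nb_sub

/-- the weights of the bought edges `D'` -/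
lemma ws_bought {D D' Y : Finset ℕ} (hD' : D' ⊆ D) (h : ∀ d ∈ D', G.l d ∈ Y ∨ G.r d ∈ Y) :
    G.ws (G.nb D Y) + G.ws D' ≤ G.ws D := by
  rw [← ws_union]
  · exact ws_mono (union_subset nb_sub hD')
  · rw [disjoint_left]
    intro d hd hd'
    obtain ⟨-, h1, h2⟩ := mem_nb.1 hd
    rcases h d hd' with h3 | h3
    · exact h1 h3
    · exact h2 h3

/-! ## The class and the minimal counterexample -/

/-- the boundary of the face `i` is connected -/
def BC (G : Gr) (i : ℕ) : Prop := ∀ f : ℕ → ZMod 2,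
  (∀ d ∈ G.ds, (G.l d = i ∨ G.r d = i) → f (G.p d) = f (G.q d)) →
  ∀ d ∈ G.ds, (G.l d = i ∨ G.r d = i) → ∀ d' ∈ G.ds, (G.l d' = i ∨ G.r d' = i) →
    f (G.p d) = f (G.p d')

/-- the class of the induction: `u` is the outer face; all faces other than `u` have a connected
boundary; at most `m` unusable faces; the faces in `hs` have length at least six; a face in `ns` has a
vertex at which it occurs at least three times, and an edge with this face on both sides is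
pendant -/
structure Cls (G : Gr) (u m : ℕ) : Prop where
  good : G.Good
  girth : G.Girth
  hu : u ∈ G.us
  um : G.us.card ≤ m
  bc : ∀ i ∈ G.fs, i ≠ u → G.BC i
  hun : u ∉ G.ns
  hsub : G.hs ⊆ G.fs \ G.us
  nsub : G.ns ⊆ G.us
  hlen : ∀ i ∈ G.hs, 6 ≤ ∑ d ∈ G.ds.filter (fun d => G.l d = i ∨ G.r d = i), (1 + 2 * G.w d)
  npend : ∀ i ∈ G.ns, ∀ d ∈ G.ds, G.l d = i → G.r d = i → ∃ v, G.star v = {d}
  nns : ∀ i ∈ G.ns, ∃ v ∈ G.vs, 3 ≤ G.cnt i v

lemma Cls.huc {m : ℕ} (hG : G.Cls u m) : u ∈ G.cs := mem_cs.2 ⟨hG.hu, hG.hun⟩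

lemma phi_iff {W : Finset ℕ} {i j : ℕ} (hi : i ∉ G.tf W) (hiu : i ≠ u) :
    G.phi W u j = i ↔ j = i := by
  constructor
  · intro hj
    by_cases h : j ∈ G.tf W
    · rw [phi_of_mem h] at hj
      exact absurd hj.symm hiu
    · rwa [phi_of_not h] at hj
  · rintro rfl
    exact phi_of_not hi

lemma side_not_tds {W : Finset ℕ} {i d : ℕ} (hi : i ∉ G.tf W) (h : G.l d = i ∨ G.r d = i) :
    d ∉ G.tds W := by
  intro h1
  apply hi
  rcases h with h | h
  · rw [← h]; exact l_mem_tf h1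
  · rw [← h]; exact r_mem_tf h1

/-- the edges of an untouched face -/
lemma side_del {W : Finset ℕ} {i : ℕ} (hi : i ∉ G.tf W) (hiu : i ≠ u) :
    (G.del W u).ds.filter (fun d => (G.del W u).l d = i ∨ (G.del W u).r d = i) =
      G.ds.filter (fun d => G.l d = i ∨ G.r d = i) := by
  ext d
  simp only [del, mem_filter, mem_sdiff, phi_iff hi hiu]
  constructor
  · rintro ⟨⟨h1, -⟩, h2⟩
    exact ⟨h1, h2⟩
  · rintro ⟨h1, h2⟩
    exact ⟨⟨h1, side_not_tds hi h2⟩, h2⟩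

lemma cnt_del {W : Finset ℕ} {i v : ℕ} (hi : i ∉ G.tf W) (hiu : i ≠ u) :
    (G.del W u).cnt i v = G.cnt i v := by
  unfold cnt
  rw [star_del]
  congr 2
  · ext d
    simp only [del, mem_filter, mem_sdiff, phi_iff hi hiu]
    exact ⟨fun h => ⟨h.1.1, h.2⟩, fun h => ⟨⟨h.1, side_not_tds hi (Or.inl h.2)⟩, h.2⟩⟩
  · ext d
    simp only [del, mem_filter, mem_sdiff, phi_iff hi hiu]
    exact ⟨fun h => ⟨h.1.1, h.2⟩, fun h => ⟨⟨h.1, side_not_tds hi (Or.inr h.2)⟩, h.2⟩⟩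

theorem Cls.del {m : ℕ} (hG : G.Cls u m) {W : Finset ℕ} (hW : G.FC W u) :
    (G.del W u).Cls u m where
  good := hG.good.del hG.hu hW
  girth := hG.girth.del
  hu := mem_del_us
  um := (card_le_card (insert_subset hG.hu sdiff_subset)).trans hG.um
  hun := fun h => hG.hun (mem_sdiff.1 h).1
  hsub := by
    intro i hi
    obtain ⟨h1, h2⟩ := mem_sdiff.1 hi
    obtain ⟨h3, h4⟩ := mem_sdiff.1 (hG.hsub h1)
    refine mem_sdiff.2 ⟨mem_insert_of_mem (mem_sdiff.2 ⟨h3, h2⟩), fun h => ?_⟩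
    rcases mem_insert.1 h with h | h
    · exact h4 (h ▸ hG.hu)
    · exact h4 (mem_sdiff.1 h).1
  nsub := by
    intro i hi
    obtain ⟨h1, h2⟩ := mem_sdiff.1 hi
    exact mem_insert_of_mem (mem_sdiff.2 ⟨hG.nsub h1, h2⟩)
  hlen := by
    intro i hi
    obtain ⟨h1, h2⟩ := mem_sdiff.1 hi
    rw [side_del h2 fun h => (mem_sdiff.1 (hG.hsub h1)).2 (h ▸ hG.hu)]
    exact hG.hlen i h1
  npend := by
    intro i hi d hd hl hr
    obtain ⟨h1, h2⟩ := mem_sdiff.1 hi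
    have hiu : i ≠ u := fun h => hG.hun (h ▸ h1)
    obtain ⟨h3, h4⟩ := mem_sdiff.1 hd
    obtain ⟨v, hv⟩ := hG.npend i h1 d h3 ((phi_iff h2 hiu).1 hl) ((phi_iff h2 hiu).1 hr)
    refine ⟨v, ?_⟩
    rw [star_del, hv]
    ext e
    simp only [mem_sdiff, mem_singleton]
    exact ⟨fun h => h.1, fun h => ⟨h, h ▸ h4⟩⟩
  nns := by
    intro i hi
    obtain ⟨h1, h2⟩ := mem_sdiff.1 hi
    have hiu : i ≠ u := fun h => hG.hun (h ▸ h1)
    obtain ⟨v, hv, h3⟩ := hG.nns i h1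
    refine ⟨v, mem_sdiff.2 ⟨hv, fun hvW => ?_⟩, by rw [cnt_del h2 hiu]; exact h3⟩
    have h0 : G.cnt i v = 0 := by
      unfold cnt
      rw [card_eq_zero.2, card_eq_zero.2]
      · rw [filter_eq_empty_iff]
        intro d hd h
        exact side_not_tds h2 (Or.inr h) (star_sub_tds hvW hd)
      · rw [filter_eq_empty_iff]
        intro d hd h
        exact side_not_tds h2 (Or.inl h) (star_sub_tds hvW hd)
    omega
  bc := by
    intro i hi hiu f hf d hd hdi d' hd' hdi'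
    simp only [Gr.del, mem_insert, mem_sdiff] at hi
    have hi' : i ∈ G.fs ∧ i ∉ G.tf W := by
      rcases hi with h | h
      · exact absurd h hiu
      · exact h
    have hmem : ∀ d ∈ G.ds, (G.l d = i ∨ G.r d = i) → d ∈ G.ds \ G.tds W :=
      fun d hd h => mem_sdiff.2 ⟨hd, side_not_tds hi'.2 h⟩
    simp only [Gr.del, phi_iff hi'.2 hiu] at hf hdi hdi' hd hd' ⊢
    exact hG.bc i hi'.1 hiu f (fun d hd h => hf d (hmem d hd h) h) d (mem_sdiff.1 hd).1 hdi d'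
      (mem_sdiff.1 hd').1 hdi'

lemma del_card {W : Finset ℕ} (hW : W ⊆ G.vs) : (G.del W u).vs.card + W.card = G.vs.card :=
  card_sdiff_add_card_eq_card hW

/-- the bound holds for all graphs of the class (for any outer face) with fewer than `n`
vertices -/
def Bnd (a b c N m n : ℕ) : Prop :=
  ∀ u : ℕ, ∀ K : Gr, K.Cls u m → K.vs.card < n → N * K.tau ≤ K.pot a b c

lemma Bnd.mono {a b c N m n n' : ℕ} (h : Bnd a b c N m n) (hm : n' ≤ n) : Bnd a b c N m n' :=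
  fun u K hK hc => h u K hK (lt_of_lt_of_le hc hm)

/-- The bound for the cost with forced vertices `S`, from the bound for `G - W`; `P` is the credit of
the deletion. -/
theorem cost_move0 {a b c N m n P : ℕ} (hn : Bnd a b c N m n) (hG : G.Cls u m)
    (hc : G.vs.card ≤ n) {W S X₀ Y₀ : Finset ℕ} (hW : W ⊆ G.vs) (hne : W.Nonempty)
    (hFC : G.FC W u) (hX₀ : X₀ ⊆ G.vs) (hY₀ : Y₀ ⊆ G.fs \ G.us) (hS : S ⊆ X₀)
    (hP : (G.del W u).pot a b c + P ≤ G.pot a b c)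
    (hcov : ∀ d ∈ G.tds W, G.p d ∈ X₀ ∨ G.q d ∈ X₀ ∨ G.l d ∈ Y₀ ∨ G.r d ∈ Y₀) :
    N * G.cost S + P ≤
      G.pot a b c + N * (X₀.card + G.fpr Y₀ + G.ws (G.nb (G.tds W) Y₀)) := by
  have hK := hG.del hFC
  have h1 : N * (G.del W u).tau ≤ (G.del W u).pot a b c := by
    refine hn _ _ hK ?_
    have h2 := del_card (u := u) hW
    have h3 := hne.card_pos
    omega
  have h4 := cost_del (u := u) (T := ∅) hK.good (empty_subset _) hX₀ hY₀ (by simpa using hS)
    (by simpa using hcov)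
  have h6 : N * G.cost S ≤ N * (X₀.card + G.fpr Y₀ + G.ws (G.nb (G.tds W) Y₀)) +
      N * (G.del W u).tau := by
    rw [← mul_add]
    exact Nat.mul_le_mul_left N h4
  omega

/-- `cost_move0`, all touched faces other than `u` counted with weight `b` -/
theorem cost_move {a b c N m n : ℕ} (hbc : b ≤ c) (hn : Bnd a b c N m n) (hG : G.Cls u m)
    (hc : G.vs.card ≤ n) {W S X₀ Y₀ B : Finset ℕ} (hW : W ⊆ G.vs) (hne : W.Nonempty)
    (hFC : G.FC W u) (hX₀ : X₀ ⊆ G.vs) (hY₀ : Y₀ ⊆ G.fs \ G.us) (hS : S ⊆ X₀)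
    (hB : B ⊆ (G.tf W).erase u)
    (hcov : ∀ d ∈ G.tds W, G.p d ∈ X₀ ∨ G.q d ∈ X₀ ∨ G.l d ∈ Y₀ ∨ G.r d ∈ Y₀) :
    N * G.cost S + a * W.card + 2 * a * G.ws (G.tds W) + b * B.card ≤
      G.pot a b c + N * (X₀.card + G.fpr Y₀ + G.ws (G.nb (G.tds W) Y₀)) := by
  have h5 := pot_del_le (a := a) hbc hG.good hG.huc hW hB
  have h := cost_move0 (P := a * W.card + 2 * a * G.ws (G.tds W) + b * B.card) hn hG hc hW hne
    hFC hX₀ hY₀ hS (by omega) hcov
  omega

/-- `cost_move` without weights -/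
theorem cost_move_le {a b c N m n : ℕ} (hbc : b ≤ c) (hN : N ≤ 2 * a) (hn : Bnd a b c N m n)
    (hG : G.Cls u m) (hc : G.vs.card ≤ n) {W S X₀ Y₀ B : Finset ℕ} (hW : W ⊆ G.vs)
    (hne : W.Nonempty) (hFC : G.FC W u) (hX₀ : X₀ ⊆ G.vs) (hY₀ : Y₀ ⊆ G.fs \ G.us) (hS : S ⊆ X₀)
    (hB : B ⊆ (G.tf W).erase u)
    (hcov : ∀ d ∈ G.tds W, G.p d ∈ X₀ ∨ G.q d ∈ X₀ ∨ G.l d ∈ Y₀ ∨ G.r d ∈ Y₀) :
    N * G.cost S + a * W.card + b * B.card ≤ G.pot a b c + N * (X₀.card + G.fpr Y₀) := by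
  have h := cost_move hbc hn hG hc hW hne hFC hX₀ hY₀ hS hB hcov
  have h1 : N * G.ws (G.nb (G.tds W) Y₀) ≤ 2 * a * G.ws (G.tds W) :=
    (Nat.mul_le_mul_left N (ws_nb_le _ _)).trans (Nat.mul_le_mul_right _ hN)
  rw [mul_add N] at h
  omega

/-- (T'): forced vertices -/
theorem cost_T {a b c N m n : ℕ} (hbc : b ≤ c) (hN : N ≤ 2 * a) (hn : Bnd a b c N m n)
    (hG : G.Cls u m) (hc : G.vs.card ≤ n) {T B : Finset ℕ} (hT : T ⊆ G.vs) (hne : T.Nonempty)
    (hFC : G.FC T u) (hB : B ⊆ (G.tf T).erase u) :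
    N * G.cost T + a * T.card + b * B.card ≤ G.pot a b c + N * T.card := by
  have h := cost_move_le (S := T) (X₀ := T) (Y₀ := ∅) hbc hN hn hG hc hT hne hFC hT
    (empty_subset _) (Subset.refl _) hB fun d hd => by
      rcases (mem_tds.1 hd).2 with h | h
      · exact Or.inl h
      · exact Or.inr (Or.inl h)
  simpa using h

/-- (T') with the weights of the edges at `T` -/
theorem cost_T_w {a b c N m n : ℕ} (hbc : b ≤ c) (hN : N ≤ 2 * a) (hn : Bnd a b c N m n)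
    (hG : G.Cls u m) (hc : G.vs.card ≤ n) {T B D : Finset ℕ} (hT : T ⊆ G.vs) (hne : T.Nonempty)
    (hFC : G.FC T u) (hB : B ⊆ (G.tf T).erase u) (hD : D ⊆ G.tds T) :
    N * G.cost T + a * T.card + (2 * a - N) * G.ws D + b * B.card ≤
      G.pot a b c + N * T.card := by
  have h := cost_move (S := T) (X₀ := T) (Y₀ := ∅) hbc hn hG hc hT hne hFC hT
    (empty_subset _) (Subset.refl _) hB fun d hd => by
      rcases (mem_tds.1 hd).2 with h | h
      · exact Or.inl h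
      · exact Or.inr (Or.inl h)
  simp only [fpr_empty, add_zero, nb_empty] at h
  obtain ⟨k, hk⟩ := Nat.exists_eq_add_of_le hN
  have h3 := ws_mono (G := G) hD
  rw [hk, Nat.add_sub_cancel_left]
  rw [hk] at h
  nlinarith [Nat.mul_le_mul_left k h3]

/-- a minimal counterexample -/
structure Cx0 (a b c N m u : ℕ) (G : Gr) : Prop where
  cls : G.Cls u m
  ih : Bnd a b c N m G.vs.card
  bad : G.pot a b c < N * G.tau

/-- a minimal counterexample without faces in `ns` -/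
structure Cx (a b c N m u : ℕ) (G : Gr) : Prop extends Cx0 a b c N m u G where
  nn : G.ns = ∅

theorem exists_cx {a b c N m : ℕ} (h : ∃ u, ∃ K : Gr, K.Cls u m ∧ K.pot a b c < N * K.tau) :
    ∃ u G, Cx0 a b c N m u G := by
  classical
  obtain ⟨u, K, hK, hb⟩ := h
  have hex : ∃ n, ∃ u, ∃ K : Gr, K.Cls u m ∧ K.pot a b c < N * K.tau ∧ K.vs.card = n :=
    ⟨_, u, K, hK, hb, rfl⟩
  obtain ⟨u', G, h1, h2, h3⟩ := Nat.find_spec hex
  refine ⟨u', G, h1, fun v K' hK' hc => ?_, h2⟩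
  by_contra hcon
  push Not at hcon
  exact Nat.find_min hex (h3 ▸ hc) ⟨v, K', hK', hcon, rfl⟩

/-- the theorem follows if there is no minimal counterexample -/
theorem bound_of_no_cx {a b c N m : ℕ} (h : ∀ u G, ¬ Cx0 a b c N m u G) {K : Gr}
    (hK : K.Cls u m) : N * K.tau ≤ K.pot a b c := by
  by_contra hcon
  push Not at hcon
  obtain ⟨u', G, hG⟩ := exists_cx ⟨u, K, hK, hcon⟩
  exact h u' G hG

/-- change of the outer face -/
theorem Cx0.change {a b c N m v : ℕ} (hG : Cx0 a b c N m u G) (hv : v ∈ G.cs) (hb : G.BC u) :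
    Cx0 a b c N m v G where
  cls := ⟨hG.cls.good, hG.cls.girth, (mem_cs.1 hv).1, hG.cls.um, fun i hi _ => by
    by_cases h : i = u
    · rw [h]; exact hb
    · exact hG.cls.bc i hi h, (mem_cs.1 hv).2, hG.cls.hsub, hG.cls.nsub, hG.cls.hlen, hG.cls.npend,
    hG.cls.nns⟩
  ih := hG.ih
  bad := hG.bad

/-- change of the outer face -/
theorem Cx.change {a b c N m v : ℕ} (hG : Cx a b c N m u G) (hv : v ∈ G.us) (hb : G.BC u) :
    Cx a b c N m v G :=
  ⟨hG.toCx0.change (by rw [cs_eq hG.nn]; exact hv) hb, hG.nn⟩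

/-- MOVE, general form: deletion of `W`, covered by `X₀` and `Y₀`, in a minimal counterexample; the
usable touched faces `B` count `b`, the unusable touched faces `B'` (other than `u`) count `c`; `D'`
edges at `W` with a side in `Y₀`, `D` other edges at `W` -/
theorem Cx0.move_wc {a b c N m : ℕ} (hG : Cx0 a b c N m u G) (hN : N ≤ 2 * a)
    {W X₀ Y₀ B B' D D' : Finset ℕ} (hW : W ⊆ G.vs) (hne : W.Nonempty) (hFC : G.FC W u)
    (hX₀ : X₀ ⊆ G.vs) (hY₀ : Y₀ ⊆ G.fs \ G.us) (hB : B ⊆ G.tf W \ G.cs)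
    (hB' : B' ⊆ (G.tf W ∩ G.cs).erase u)
    (hcov : ∀ d ∈ G.tds W, G.p d ∈ X₀ ∨ G.q d ∈ X₀ ∨ G.l d ∈ Y₀ ∨ G.r d ∈ Y₀)
    (hD : D ⊆ G.tds W) (hD' : D' ⊆ G.tds W) (hDD : Disjoint D D')
    (hb : ∀ d ∈ D', G.l d ∈ Y₀ ∨ G.r d ∈ Y₀) :
    a * W.card + b * B.card + c * B'.card + (2 * a - N) * G.ws D + 2 * a * G.ws D' <
      N * (X₀.card + G.fpr Y₀) := by
  have h0 := pot_del a b c hG.cls.good hG.cls.huc hW
  have hB1 := Nat.mul_le_mul_left b (card_le_card hB)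
  have hB2 := Nat.mul_le_mul_left c (card_le_card hB')
  have h := cost_move0 (S := ∅)
    (P := a * W.card + 2 * a * G.ws (G.tds W) + b * B.card + c * B'.card) hG.ih hG.cls le_rfl hW
    hne hFC hX₀ hY₀ (empty_subset _) (by omega) hcov
  have h1 := hG.bad
  have h2 := ws_bought hD' hb
  have h3 : G.ws D + G.ws D' ≤ G.ws (G.tds W) := by
    rw [← ws_union hDD]
    exact ws_mono (union_subset hD hD')
  obtain ⟨k, hk⟩ := Nat.exists_eq_add_of_le hN
  unfold tau at h1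
  rw [hk, Nat.add_sub_cancel_left]
  rw [hk] at h
  nlinarith [Nat.mul_le_mul_left N h2, Nat.mul_le_mul_left k h3]

/-- MOVE with weights: deletion of `W`, covered by `X₀` and `Y₀`, in a minimal counterexample; `D'`
edges at `W` with a side in `Y₀`, `D` other edges at `W` -/
theorem Cx0.move_w {a b c N m : ℕ} (hG : Cx0 a b c N m u G) (hbc : b ≤ c) (hN : N ≤ 2 * a)
    {W X₀ Y₀ B D D' : Finset ℕ} (hW : W ⊆ G.vs) (hne : W.Nonempty) (hFC : G.FC W u)
    (hX₀ : X₀ ⊆ G.vs) (hY₀ : Y₀ ⊆ G.fs \ G.us) (hB : B ⊆ (G.tf W).erase u)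
    (hcov : ∀ d ∈ G.tds W, G.p d ∈ X₀ ∨ G.q d ∈ X₀ ∨ G.l d ∈ Y₀ ∨ G.r d ∈ Y₀)
    (hD : D ⊆ G.tds W) (hD' : D' ⊆ G.tds W) (hDD : Disjoint D D')
    (hb : ∀ d ∈ D', G.l d ∈ Y₀ ∨ G.r d ∈ Y₀) :
    a * W.card + b * B.card + (2 * a - N) * G.ws D + 2 * a * G.ws D' <
      N * (X₀.card + G.fpr Y₀) := by
  have h := hG.move_wc (B := B \ G.cs) (B' := B ∩ G.cs) hN hW hne hFC hX₀ hY₀
    (fun i hi => mem_sdiff.2 ⟨(mem_erase.1 (hB (mem_sdiff.1 hi).1)).2, (mem_sdiff.1 hi).2⟩)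
    (fun i hi => mem_erase.2 ⟨(mem_erase.1 (hB (mem_inter.1 hi).1)).1,
      mem_inter.2 ⟨(mem_erase.1 (hB (mem_inter.1 hi).1)).2, (mem_inter.1 hi).2⟩⟩)
    hcov hD hD' hDD hb
  have h2 : B.card = (B \ G.cs).card + (B ∩ G.cs).card := (card_sdiff_add_card_inter B G.cs).symm
  have h6 : b * B.card ≤ b * (B \ G.cs).card + c * (B ∩ G.cs).card := by
    rw [h2, mul_add]
    exact Nat.add_le_add_left (Nat.mul_le_mul_right _ hbc) _
  omega

/-- MOVE: deletion of `W`, covered by `X₀` and `Y₀`, in a minimal counterexample -/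
theorem Cx0.move {a b c N m : ℕ} (hG : Cx0 a b c N m u G) (hbc : b ≤ c) (hN : N ≤ 2 * a)
    {W X₀ Y₀ B : Finset ℕ} (hW : W ⊆ G.vs) (hne : W.Nonempty) (hFC : G.FC W u) (hX₀ : X₀ ⊆ G.vs)
    (hY₀ : Y₀ ⊆ G.fs \ G.us) (hB : B ⊆ (G.tf W).erase u)
    (hcov : ∀ d ∈ G.tds W, G.p d ∈ X₀ ∨ G.q d ∈ X₀ ∨ G.l d ∈ Y₀ ∨ G.r d ∈ Y₀) :
    a * W.card + b * B.card < N * (X₀.card + G.fpr Y₀) := by
  have h := hG.move_w hbc hN hW hne hFC hX₀ hY₀ hB hcov (empty_subset _) (empty_subset _)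
    (disjoint_empty_left _) (by simp)
  simpa [ws] using h

/-- MOVE, the unusable touched faces `B'` (other than `u`) count `c` -/
theorem Cx0.move_c {a b c N m : ℕ} (hG : Cx0 a b c N m u G) (hN : N ≤ 2 * a)
    {W X₀ Y₀ B B' : Finset ℕ} (hW : W ⊆ G.vs) (hne : W.Nonempty) (hFC : G.FC W u)
    (hX₀ : X₀ ⊆ G.vs) (hY₀ : Y₀ ⊆ G.fs \ G.us) (hB : B ⊆ G.tf W \ G.cs)
    (hB' : B' ⊆ (G.tf W ∩ G.cs).erase u)
    (hcov : ∀ d ∈ G.tds W, G.p d ∈ X₀ ∨ G.q d ∈ X₀ ∨ G.l d ∈ Y₀ ∨ G.r d ∈ Y₀) :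
    a * W.card + b * B.card + c * B'.card < N * (X₀.card + G.fpr Y₀) := by
  have h := hG.move_wc hN hW hne hFC hX₀ hY₀ hB hB' hcov (empty_subset _) (empty_subset _)
    (disjoint_empty_left _) (by simp)
  simpa [ws] using h

/-- MOVE with a forced set `T` in `G - W` -/
theorem Cx0.move_T {a b c N m : ℕ} (hG : Cx0 a b c N m u G) (hbc : b ≤ c) {W T X₀ Y₀ B : Finset ℕ}
    (hW : W ⊆ G.vs) (hFC : G.FC W u) (hT : T ⊆ G.vs \ W) (hX₀ : X₀ ⊆ G.vs)
    (hY₀ : Y₀ ⊆ G.fs \ G.us) (hB : B ⊆ (G.tf W).erase u)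
    (hcov : ∀ d ∈ G.tds W, G.p d ∈ X₀ ∪ T ∨ G.q d ∈ X₀ ∪ T ∨ G.l d ∈ Y₀ ∨ G.r d ∈ Y₀) :
    (G.del W u).pot a b c + a * W.card + 2 * a * G.ws (G.tds W) + b * B.card <
      N * (X₀.card + G.fpr Y₀ + G.ws (G.nb (G.tds W) Y₀) + (G.del W u).cost T) := by
  have hK := hG.cls.del hFC
  have h4 := cost_del (u := u) (S := ∅) hK.good hT hX₀ hY₀ (empty_subset _) hcov
  have h5 := pot_del_le (a := a) hbc hG.cls.good hG.cls.huc hW hB
  have h1 := hG.bad
  have h6 : N * G.tau ≤ N * (X₀.card + G.fpr Y₀ + G.ws (G.nb (G.tds W) Y₀) +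
      (G.del W u).cost T) := Nat.mul_le_mul_left N h4
  omega

/-- MOVE with two parts `V₁`, `V₂` and forced sets `T₁`, `T₂` -/
theorem Cx0.move_two {a b c N m : ℕ} (hG : Cx0 a b c N m u G) (hbc : b ≤ c)
    {V₁ V₂ T₁ T₂ X₀ Y₀ B : Finset ℕ} (hV₁ : V₁ ⊆ G.vs) (hV₂ : V₂ ⊆ G.vs) (hV : Disjoint V₁ V₂)
    (hF₁ : G.FC (G.vs \ V₁) u) (hF₂ : G.FC (G.vs \ V₂) u) (hT₁ : T₁ ⊆ V₁) (hT₂ : T₂ ⊆ V₂)
    (hX₀ : X₀ ⊆ G.vs) (hY₀ : Y₀ ⊆ G.fs \ G.us)
    (hB₁ : B ⊆ (G.tf (G.vs \ V₁)).erase u) (hB₂ : B ⊆ (G.tf (G.vs \ V₂)).erase u)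
    (hcov : ∀ d ∈ G.rest V₁ V₂,
      G.p d ∈ X₀ ∪ (T₁ ∪ T₂) ∨ G.q d ∈ X₀ ∪ (T₁ ∪ T₂) ∨ G.l d ∈ Y₀ ∨ G.r d ∈ Y₀) :
    (G.del (G.vs \ V₁) u).pot a b c + (G.del (G.vs \ V₂) u).pot a b c +
      a * (G.vs \ (V₁ ∪ V₂)).card + 2 * a * G.ws (G.rest V₁ V₂) + b * B.card <
      N * (X₀.card + G.fpr Y₀ + G.ws (G.nb (G.rest V₁ V₂) Y₀) +
        (G.del (G.vs \ V₁) u).cost T₁ + (G.del (G.vs \ V₂) u).cost T₂) := by
  have hK₁ := hG.cls.del hF₁
  have hK₂ := hG.cls.del hF₂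
  have h4 := cost_two (u := u) (S := ∅) hK₁.good hK₂.good hV₁ hV₂ hT₁ hT₂ hX₀ hY₀
    (empty_subset _) hcov
  have h5 := pot_two_le (a := a) hbc hG.cls.good hG.cls.huc hV₁ hV₂ hV hB₁ hB₂
  have h1 := hG.bad
  have h7 : N * G.tau ≤ N * (X₀.card + G.fpr Y₀ + G.ws (G.nb (G.rest V₁ V₂) Y₀) +
      (G.del (G.vs \ V₁) u).cost T₁ + (G.del (G.vs \ V₂) u).cost T₂) := Nat.mul_le_mul_left N h4
  omega

/-- MOVE with two parts, without weights -/
theorem Cx0.move_two_le {a b c N m : ℕ} (hG : Cx0 a b c N m u G) (hbc : b ≤ c) (hN : N ≤ 2 * a)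
    {V₁ V₂ T₁ T₂ X₀ Y₀ B : Finset ℕ} (hV₁ : V₁ ⊆ G.vs) (hV₂ : V₂ ⊆ G.vs) (hV : Disjoint V₁ V₂)
    (hF₁ : G.FC (G.vs \ V₁) u) (hF₂ : G.FC (G.vs \ V₂) u) (hT₁ : T₁ ⊆ V₁) (hT₂ : T₂ ⊆ V₂)
    (hX₀ : X₀ ⊆ G.vs) (hY₀ : Y₀ ⊆ G.fs \ G.us)
    (hB₁ : B ⊆ (G.tf (G.vs \ V₁)).erase u) (hB₂ : B ⊆ (G.tf (G.vs \ V₂)).erase u)
    (hcov : ∀ d ∈ G.rest V₁ V₂,
      G.p d ∈ X₀ ∪ (T₁ ∪ T₂) ∨ G.q d ∈ X₀ ∪ (T₁ ∪ T₂) ∨ G.l d ∈ Y₀ ∨ G.r d ∈ Y₀) :
    (G.del (G.vs \ V₁) u).pot a b c + (G.del (G.vs \ V₂) u).pot a b c +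
      a * (G.vs \ (V₁ ∪ V₂)).card + b * B.card <
      N * (X₀.card + G.fpr Y₀ + (G.del (G.vs \ V₁) u).cost T₁ +
        (G.del (G.vs \ V₂) u).cost T₂) := by
  have h := hG.move_two hbc hV₁ hV₂ hV hF₁ hF₂ hT₁ hT₂ hX₀ hY₀ hB₁ hB₂ hcov
  have h1 : N * G.ws (G.nb (G.rest V₁ V₂) Y₀) ≤ 2 * a * G.ws (G.rest V₁ V₂) :=
    (Nat.mul_le_mul_left N (ws_nb_le _ _)).trans (Nat.mul_le_mul_right _ hN)
  rw [show X₀.card + G.fpr Y₀ + G.ws (G.nb (G.rest V₁ V₂) Y₀) +
    (G.del (G.vs \ V₁) u).cost T₁ + (G.del (G.vs \ V₂) u).cost T₂ =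
    (X₀.card + G.fpr Y₀ + (G.del (G.vs \ V₁) u).cost T₁ + (G.del (G.vs \ V₂) u).cost T₂) +
      G.ws (G.nb (G.rest V₁ V₂) Y₀) by ring, mul_add N] at h
  omega

/-- MOVE, general form, without faces in `ns` -/
theorem Cx.move_wc {a b c N m : ℕ} (hG : Cx a b c N m u G) (hN : N ≤ 2 * a)
    {W X₀ Y₀ B B' D D' : Finset ℕ} (hW : W ⊆ G.vs) (hne : W.Nonempty) (hFC : G.FC W u)
    (hX₀ : X₀ ⊆ G.vs) (hY₀ : Y₀ ⊆ G.fs \ G.us) (hB : B ⊆ G.tf W \ G.us)
    (hB' : B' ⊆ (G.tf W ∩ G.us).erase u)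
    (hcov : ∀ d ∈ G.tds W, G.p d ∈ X₀ ∨ G.q d ∈ X₀ ∨ G.l d ∈ Y₀ ∨ G.r d ∈ Y₀)
    (hD : D ⊆ G.tds W) (hD' : D' ⊆ G.tds W) (hDD : Disjoint D D')
    (hb : ∀ d ∈ D', G.l d ∈ Y₀ ∨ G.r d ∈ Y₀) :
    a * W.card + b * B.card + c * B'.card + (2 * a - N) * G.ws D + 2 * a * G.ws D' <
      N * (X₀.card + G.fpr Y₀) :=
  hG.toCx0.move_wc hN hW hne hFC hX₀ hY₀ (by rw [cs_eq hG.nn]; exact hB)
    (by rw [cs_eq hG.nn]; exact hB') hcov hD hD' hDD hb

/-- MOVE, the unusable touched faces `B'` (other than `u`) count `c`, without faces in `ns` -/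
theorem Cx.move_c {a b c N m : ℕ} (hG : Cx a b c N m u G) (hN : N ≤ 2 * a)
    {W X₀ Y₀ B B' : Finset ℕ} (hW : W ⊆ G.vs) (hne : W.Nonempty) (hFC : G.FC W u)
    (hX₀ : X₀ ⊆ G.vs) (hY₀ : Y₀ ⊆ G.fs \ G.us) (hB : B ⊆ G.tf W \ G.us)
    (hB' : B' ⊆ (G.tf W ∩ G.us).erase u)
    (hcov : ∀ d ∈ G.tds W, G.p d ∈ X₀ ∨ G.q d ∈ X₀ ∨ G.l d ∈ Y₀ ∨ G.r d ∈ Y₀) :
    a * W.card + b * B.card + c * B'.card < N * (X₀.card + G.fpr Y₀) :=
  hG.toCx0.move_c hN hW hne hFC hX₀ hY₀ (by rw [cs_eq hG.nn]; exact hB)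
    (by rw [cs_eq hG.nn]; exact hB') hcov

end Gr

end Pool.Agent.Lib.MP06c549.T6H
end

section
/-!
# MP_06c549_co, T6H: the graph of the A-vertices as a graph with faces in natural numbers
-/
set_option autoImplicit false
set_option linter.unusedSectionVars false

namespace Pool.Agent.Lib.MP06c549.T6H

open Finset

/-- the number of an element of a finite type -/
noncomputable def nu {A : Type} [Fintype A] (x : A) : ℕ := (Fintype.equivFin A x).val

lemma nu_lt {A : Type} [Fintype A] (x : A) : nu x < Fintype.card A := (Fintype.equivFin A x).isLt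

lemma nu_inj {A : Type} [Fintype A] {x y : A} (h : nu x = nu y) : x = y :=
  (Fintype.equivFin A).injective (Fin.ext h)

lemma nu_surj {A : Type} [Fintype A] {n : ℕ} (h : n < Fintype.card A) : ∃ x : A, nu x = n := by
  refine ⟨(Fintype.equivFin A).symm ⟨n, h⟩, ?_⟩
  unfold nu
  rw [Equiv.apply_symm_apply]

lemma nu_eq {A : Type} [Fintype A] {x y : A} : nu x = nu y ↔ x = y := ⟨nu_inj, fun h => by rw [h]⟩

open Classical in
/-- the function on the numbers of a function on the type -/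
noncomputable def ext {A B : Type} [Fintype A] (b₀ : B) (f : A → B) (n : ℕ) : B :=
  if h : n < Fintype.card A then f ((Fintype.equivFin A).symm ⟨n, h⟩) else b₀

lemma ext_nu {A B : Type} [Fintype A] (b₀ : B) (f : A → B) (x : A) : ext b₀ f (nu x) = f x := by
  unfold ext
  rw [dif_pos (nu_lt x)]
  congr 1
  exact (Fintype.equivFin A).symm_apply_apply x

lemma sum_nu {A B : Type} [Fintype A] [AddCommMonoid B] (g : ℕ → B) :
    ∑ n ∈ range (Fintype.card A), g n = ∑ x : A, g (nu x) := by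
  rw [Finset.sum_range]
  exact (Equiv.sum_comp (Fintype.equivFin A) (fun i : Fin (Fintype.card A) => g i.val)).symm

lemma mem_range_nu {A : Type} [Fintype A] {n : ℕ} :
    n ∈ range (Fintype.card A) ↔ ∃ x : A, nu x = n := by
  rw [mem_range]
  exact ⟨nu_surj, fun ⟨x, hx⟩ => hx ▸ nu_lt x⟩

section

variable {V D F : Type} [Fintype V] [DecidableEq V] [Fintype D] [DecidableEq D] [Fintype F]
  [DecidableEq F]

/-- a graph with faces from finite types -/
noncomputable def ofT (p q : D → V) (l r : D → F) (U H K : Finset F) : Gr where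
  vs := range (Fintype.card V)
  ds := range (Fintype.card D)
  fs := range (Fintype.card F)
  us := U.image nu
  hs := H.image nu
  ns := K.image nu
  p := ext 0 fun d => nu (p d)
  q := ext 0 fun d => nu (q d)
  l := ext 0 fun d => nu (l d)
  r := ext 0 fun d => nu (r d)
  w := fun _ => 0

variable {p q : D → V} {l r : D → F} {U H K : Finset F}

lemma ofT_p (d : D) : (ofT p q l r U H K).p (nu d) = nu (p d) :=
  ext_nu 0 (fun d => nu (p d)) d
lemma ofT_q (d : D) : (ofT p q l r U H K).q (nu d) = nu (q d) :=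
  ext_nu 0 (fun d => nu (q d)) d
lemma ofT_l (d : D) : (ofT p q l r U H K).l (nu d) = nu (l d) :=
  ext_nu 0 (fun d => nu (l d)) d
lemma ofT_r (d : D) : (ofT p q l r U H K).r (nu d) = nu (r d) :=
  ext_nu 0 (fun d => nu (r d)) d

lemma mem_vs {n : ℕ} : n ∈ (ofT p q l r U H K).vs ↔ ∃ v : V, nu v = n := mem_range_nu
lemma mem_ds {n : ℕ} : n ∈ (ofT p q l r U H K).ds ↔ ∃ d : D, nu d = n := mem_range_nu
lemma mem_fs {n : ℕ} : n ∈ (ofT p q l r U H K).fs ↔ ∃ i : F, nu i = n := mem_range_nu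

lemma nu_mem_us {i : F} : nu i ∈ (ofT p q l r U H K).us ↔ i ∈ U := by
  change nu i ∈ U.image nu ↔ _
  rw [mem_image]
  exact ⟨fun ⟨j, hj, h⟩ => nu_inj h ▸ hj, fun h => ⟨i, h, rfl⟩⟩

lemma mem_hs {n : ℕ} : n ∈ (ofT p q l r U H K).hs ↔ ∃ i ∈ H, nu i = n := by
  change n ∈ H.image nu ↔ _
  rw [mem_image]

lemma mem_ns {n : ℕ} : n ∈ (ofT p q l r U H K).ns ↔ ∃ i ∈ K, nu i = n := by
  change n ∈ K.image nu ↔ _
  rw [mem_image]

lemma nu_mem_hs {i : F} : nu i ∈ (ofT p q l r U H K).hs ↔ i ∈ H := by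
  rw [mem_hs]
  exact ⟨fun ⟨j, hj, h⟩ => nu_inj h ▸ hj, fun h => ⟨i, h, rfl⟩⟩

lemma nu_mem_ns {i : F} : nu i ∈ (ofT p q l r U H K).ns ↔ i ∈ K := by
  rw [mem_ns]
  exact ⟨fun ⟨j, hj, h⟩ => nu_inj h ▸ hj, fun h => ⟨i, h, rfl⟩⟩

lemma nu_mem_star {v : V} {d : D} : nu d ∈ (ofT p q l r U H K).star (nu v) ↔ (p d = v ∨ q d = v) := by
  rw [Gr.mem_star, ofT_p, ofT_q, nu_eq, nu_eq]
  exact ⟨fun h => h.2, fun h => ⟨mem_ds.2 ⟨d, rfl⟩, h⟩⟩

lemma mem_star_nu {v : V} {n : ℕ} (h : n ∈ (ofT p q l r U H K).star (nu v)) :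
    ∃ d : D, nu d = n ∧ (p d = v ∨ q d = v) := by
  obtain ⟨d, hd⟩ := mem_ds.1 (Gr.mem_star.1 h).1
  refine ⟨d, hd, ?_⟩
  rw [← hd] at h
  exact nu_mem_star.1 h

lemma sum_star {v : V} {B : Type} [AddCommMonoid B] (g : ℕ → B) :
    ∑ n ∈ (ofT p q l r U H K).star (nu v), g n =
      ∑ d : D, if p d = v ∨ q d = v then g (nu d) else 0 := by
  unfold Gr.star
  rw [sum_filter]
  change ∑ n ∈ range (Fintype.card D), _ = _
  rw [sum_nu]
  refine sum_congr rfl fun d _ => ?_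
  simp only [ofT_p, ofT_q, nu_eq]

/-- the hypotheses on the types -/
structure TGood (p q : D → V) (l r : D → F) (U : Finset F) : Prop where
  ne : ∀ d, p d ≠ q d
  U_ne : U.Nonempty
  even : ∀ (v : V) (x : F → ZMod 2), ∑ d, (x (l d) + x (r d)) *
    ((if p d = v then 1 else 0) + (if q d = v then 1 else 0)) = 0
  exact : ∀ z : D → ZMod 2, (∀ v, ∑ d, z d * ((if p d = v then 1 else 0) +
    (if q d = v then 1 else 0)) = 0) → ∃ x : F → ZMod 2, ∀ d, z d = x (l d) + x (r d)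
  dconn : ∀ x : F → ZMod 2, (∀ d, x (l d) = x (r d)) → ∃ c, ∀ i, x i = c
  link : ∀ (x : F → ZMod 2) (v : V), (∀ d, p d = v ∨ q d = v → x (l d) = x (r d)) →
    ∃ c, ∀ d, p d = v ∨ q d = v → x (l d) = c
  simp : ∀ i, i ∉ U → ∀ v : V, (univ.filter fun d => (p d = v ∨ q d = v) ∧ l d = i).card +
    (univ.filter fun d => (p d = v ∨ q d = v) ∧ r d = i).card ≤ 2
  bconn : ∀ i, i ∉ U → ∀ g : V → ZMod 2, (∀ d, l d = i ∨ r d = i → g (p d) = g (q d)) →
    ∃ c, ∀ d, l d = i ∨ r d = i → g (p d) = c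

/-- both forms of the incidence -/
lemma inc_eq (hne : ∀ d, p d ≠ q d) (v : V) (d : D) :
    ((if p d = v then (1 : ZMod 2) else 0) + (if q d = v then 1 else 0)) =
      if p d = v ∨ q d = v then 1 else 0 := by
  by_cases h1 : p d = v
  · have h2 : ¬ q d = v := fun h => hne d (h1.trans h.symm)
    rw [if_pos h1, if_neg h2, if_pos (Or.inl h1), add_zero]
  · by_cases h2 : q d = v
    · rw [if_neg h1, if_pos h2, if_pos (Or.inr h2), zero_add]
    · rw [if_neg h1, if_neg h2, if_neg (by tauto), add_zero]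

lemma card_star_filter {v : V} (P : ℕ → Prop) [DecidablePred P] :
    (((ofT p q l r U H K).star (nu v)).filter P).card ≤
      (univ.filter fun d : D => (p d = v ∨ q d = v) ∧ P (nu d)).card := by
  have h : ((ofT p q l r U H K).star (nu v)).filter P ⊆
      (univ.filter fun d : D => (p d = v ∨ q d = v) ∧ P (nu d)).image nu := by
    intro n hn
    rw [mem_filter] at hn
    obtain ⟨d, hd, hdv⟩ := mem_star_nu hn.1
    rw [mem_image]
    exact ⟨d, mem_filter.2 ⟨mem_univ _, hdv, by rw [hd]; exact hn.2⟩, hd⟩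
  exact (card_le_card h).trans card_image_le

lemma le_card_star_filter {v : V} (P : ℕ → Prop) [DecidablePred P] :
    (univ.filter fun d : D => (p d = v ∨ q d = v) ∧ P (nu d)).card ≤
      (((ofT p q l r U H K).star (nu v)).filter P).card := by
  refine card_le_card_of_injOn nu (fun d hd => ?_) (fun a _ b _ hab => nu_inj hab)
  have hd' := (mem_filter.1 (Finset.mem_coe.1 hd)).2
  exact Finset.mem_coe.2 (mem_filter.2 ⟨nu_mem_star.2 hd'.1, hd'.2⟩)

theorem ofT_good (h : TGood p q l r U) : (ofT p q l r U H K).Good where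
  ends := by
    intro n hn
    obtain ⟨d, rfl⟩ := mem_ds.1 hn
    rw [ofT_p, ofT_q]
    exact ⟨mem_vs.2 ⟨_, rfl⟩, mem_vs.2 ⟨_, rfl⟩⟩
  ne := by
    intro n hn
    obtain ⟨d, rfl⟩ := mem_ds.1 hn
    rw [ofT_p, ofT_q]
    exact fun h' => h.ne d (nu_inj h')
  sides := by
    intro n hn
    obtain ⟨d, rfl⟩ := mem_ds.1 hn
    rw [ofT_l, ofT_r]
    exact ⟨mem_fs.2 ⟨_, rfl⟩, mem_fs.2 ⟨_, rfl⟩⟩
  us_sub := by
    intro n hn
    change n ∈ U.image nu at hn
    obtain ⟨i, -, rfl⟩ := mem_image.1 hn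
    exact mem_fs.2 ⟨i, rfl⟩
  us_ne := h.U_ne.image _
  even := by
    intro n hn x
    obtain ⟨v, rfl⟩ := mem_vs.1 hn
    rw [sum_star]
    refine Eq.trans (sum_congr rfl fun d _ => ?_) (h.even v fun i => x (nu i))
    rw [inc_eq h.ne v d, ofT_l, ofT_r]
    split_ifs
    · rw [mul_one]
    · rw [mul_zero]
  exact := by
    intro z hz
    obtain ⟨x, hx⟩ := h.exact (fun d => z (nu d)) (by
      intro v
      have h1 := hz (nu v) (mem_vs.2 ⟨v, rfl⟩)
      rw [sum_star] at h1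
      refine Eq.trans (sum_congr rfl fun d _ => ?_) h1
      rw [inc_eq h.ne v d]
      split_ifs
      · rw [mul_one]
      · rw [mul_zero])
    refine ⟨ext 0 x, fun n hn => ?_⟩
    obtain ⟨d, rfl⟩ := mem_ds.1 hn
    rw [ofT_l, ofT_r, ext_nu, ext_nu]
    exact hx d
  dconn := by
    intro x hx i hi j hj
    obtain ⟨c, hc⟩ := h.dconn (fun i => x (nu i)) (by
      intro d
      have h1 := hx (nu d) (mem_ds.2 ⟨d, rfl⟩)
      rw [ofT_l, ofT_r] at h1
      exact h1)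
    obtain ⟨i, rfl⟩ := mem_fs.1 hi
    obtain ⟨j, rfl⟩ := mem_fs.1 hj
    rw [hc i, hc j]
  link := by
    intro n hn x hx m hm m' hm'
    obtain ⟨v, rfl⟩ := mem_vs.1 hn
    obtain ⟨c, hc⟩ := h.link (fun i => x (nu i)) v (by
      intro d hd
      have h1 := hx (nu d) (nu_mem_star.2 hd)
      rw [ofT_l, ofT_r] at h1
      exact h1)
    obtain ⟨d, rfl, hd⟩ := mem_star_nu hm
    obtain ⟨d', rfl, hd'⟩ := mem_star_nu hm'
    rw [ofT_l, ofT_l]
    exact (hc d hd).trans (hc d' hd').symm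
  simp := by
    intro n hn m hm hmu
    obtain ⟨v, rfl⟩ := mem_vs.1 hn
    obtain ⟨i, rfl⟩ := mem_fs.1 hm
    rw [nu_mem_us] at hmu
    refine le_trans (add_le_add (card_star_filter _) (card_star_filter _)) ?_
    simp only [ofT_l, ofT_r, nu_eq]
    exact h.simp i hmu v
  bconn := by
    intro n hn hnu f hf m hm hmi m' hm' hmi'
    obtain ⟨i, rfl⟩ := mem_fs.1 hn
    rw [nu_mem_us] at hnu
    obtain ⟨c, hc⟩ := h.bconn i hnu (fun v => f (nu v)) (by
      intro d hd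
      have h1 := hf (nu d) (mem_ds.2 ⟨d, rfl⟩) (by rw [ofT_l, ofT_r, nu_eq, nu_eq]; exact hd)
      rw [ofT_p, ofT_q] at h1
      exact h1)
    obtain ⟨d, rfl⟩ := mem_ds.1 hm
    obtain ⟨d', rfl⟩ := mem_ds.1 hm'
    rw [ofT_l, ofT_r, nu_eq, nu_eq] at hmi hmi'
    rw [ofT_p, ofT_p]
    exact (hc d hmi).trans (hc d' hmi').symm

/-- an even nonempty set of edges has at least as many edges as vertices -/
theorem ofT_girth (hne : ∀ d, p d ≠ q d) (h4 : ∀ z : D → ZMod 2,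
    (∀ v, ∑ d, z d * ((if p d = v then 1 else 0) + (if q d = v then 1 else 0)) = 0) →
    (∃ d, z d ≠ 0) → 4 ≤ (univ.filter fun v => ∃ d, z d ≠ 0 ∧ (p d = v ∨ q d = v)).card) :
    (ofT p q l r U H K).Girth := by
  classical
  intro Z hZ hev hZne
  have hw : ∑ d ∈ Z, (1 + 2 * (ofT p q l r U H K).w d) = Z.card := by
    rw [card_eq_sum_ones]
    rfl
  rw [hw]
  set Z' : Finset D := univ.filter fun d => nu d ∈ Z with hZ'
  have hmem : ∀ d, d ∈ Z' ↔ nu d ∈ Z := by intro d; rw [hZ', mem_filter]; simp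
  have hcard : Z'.card ≤ Z.card := by
    have : Z'.image nu ⊆ Z := by
      intro n hn
      obtain ⟨d, hd, rfl⟩ := mem_image.1 hn
      exact (hmem d).1 hd
    have h1 := card_le_card this
    rwa [card_image_of_injective _ (fun a b hab => nu_inj hab)] at h1
  refine le_trans ?_ hcard
  -- the degrees
  have hdeg : ∀ v : V, (((Z'.filter fun d => p d = v ∨ q d = v).card : ℕ) : ZMod 2) = 0 := by
    intro v
    have h1 := hev (nu v) (mem_vs.2 ⟨v, rfl⟩)
    rw [sum_star] at h1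
    rw [card_filter, hZ', sum_filter]
    push_cast
    refine Eq.trans (sum_congr rfl fun d _ => ?_) h1
    split_ifs <;> rfl
  have h5 := h4 (fun d => if d ∈ Z' then 1 else 0) (by
    intro v
    have h1 := hdeg v
    rw [card_filter] at h1
    push_cast at h1
    rw [← sum_filter_add_sum_filter_not univ (fun d => d ∈ Z')]
    have h2 : ∑ d ∈ univ.filter (fun d => ¬ d ∈ Z'), (if d ∈ Z' then (1 : ZMod 2) else 0) *
        ((if p d = v then 1 else 0) + (if q d = v then 1 else 0)) = 0 := by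
      refine sum_eq_zero fun d hd => ?_
      rw [if_neg (mem_filter.1 hd).2, zero_mul]
    rw [h2, add_zero]
    have h3 : (univ.filter fun d => d ∈ Z') = Z' := by
      ext d
      simp
    rw [h3]
    refine Eq.trans (sum_congr rfl fun d hd => ?_) h1
    rw [if_pos hd, one_mul, inc_eq hne]) (by
      obtain ⟨n, hn⟩ := hZne
      obtain ⟨d, rfl⟩ := mem_ds.1 (hZ hn)
      exact ⟨d, by rw [if_pos ((hmem d).2 hn)]; decide⟩)
  set S : Finset V := univ.filter fun v => ∃ d, (if d ∈ Z' then (1 : ZMod 2) else 0) ≠ 0 ∧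
    (p d = v ∨ q d = v) with hS
  have h6 : ∀ v ∈ S, 2 ≤ (Z'.filter fun d => p d = v ∨ q d = v).card := by
    intro v hv
    rw [hS, mem_filter] at hv
    obtain ⟨-, d, hd, hd'⟩ := hv
    have hdZ : d ∈ Z' := by
      by_contra h
      exact hd (if_neg h)
    have h7 : 0 < (Z'.filter fun d => p d = v ∨ q d = v).card :=
      card_pos.2 ⟨d, mem_filter.2 ⟨hdZ, hd'⟩⟩
    have h8 := (ZMod.natCast_eq_zero_iff _ 2).1 (hdeg v)
    omega
  have h9 : ∑ v : V, (Z'.filter fun d => p d = v ∨ q d = v).card = 2 * Z'.card := by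
    simp only [card_filter]
    rw [sum_comm]
    rw [mul_comm, ← smul_eq_mul, ← sum_const]
    refine sum_congr rfl fun d _ => ?_
    rw [← card_filter]
    have : (univ.filter fun v => p d = v ∨ q d = v) = {p d, q d} := by
      ext v
      simp only [mem_filter, mem_univ, true_and, mem_insert, mem_singleton]
      exact ⟨fun h => h.imp Eq.symm Eq.symm, fun h => h.imp Eq.symm Eq.symm⟩
    rw [this, card_pair (hne d)]
  have h10 : ∑ v ∈ S, 2 ≤ ∑ v : V, (Z'.filter fun d => p d = v ∨ q d = v).card :=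
    (sum_le_sum h6).trans (sum_le_sum_of_subset (subset_univ S))
  rw [sum_const, smul_eq_mul] at h10
  omega

end

/-! ## The instance -/

section

open PG

variable {ι E : Type} [Fintype ι] [DecidableEq ι] [Fintype E] [DecidableEq E]

/-- the face `i` occurs at most twice at each vertex -/
def SimpF (M : RM ι E) (i : ι) : Prop :=
  ∀ v : E, (univ.filter fun d : Cell M => (d.ua = v ∨ d.la = v) ∧ M.comp d.ub = i).card +
    (univ.filter fun d : Cell M => (d.ua = v ∨ d.la = v) ∧ M.comp d.lb = i).card ≤ 2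

/-- a set of hexagonal holes the faces of which have length at least six -/
def HexSet (M : RM ι E) (A : Finset ι) : Prop :=
  ∀ i ∈ A, i ≠ M.o ∧ (univ.filter fun e => M.comp e = i).card = 3 ∧
    3 ≤ (univ.filter fun d : Cell M => M.comp d.ub = i).card ∧
    3 ≤ (univ.filter fun d : Cell M => M.comp d.lb = i).card

open Classical in
/-- the holes in `A` the faces of which are cycles -/
noncomputable def hsF (M : RM ι E) (A : Finset ι) : Finset ι := A.filter fun i => SimpF M i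

open Classical in
/-- the other holes in `A` -/
noncomputable def nsF (M : RM ι E) (A : Finset ι) : Finset ι := A.filter fun i => ¬ SimpF M i

open Classical in
/-- the outer boundary and the holes which are neither rectangles nor in `hsF M A` -/
noncomputable def unus (M : RM ι E) (A : Finset ι) : Finset ι :=
  univ.filter fun i => i = M.o ∨ ((univ.filter fun e => M.comp e = i).card ≠ 2 ∧ i ∉ hsF M A)

lemma mem_hsF {M : RM ι E} {A : Finset ι} {i : ι} : i ∈ hsF M A ↔ i ∈ A ∧ SimpF M i := by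
  simp [hsF]

lemma mem_nsF {M : RM ι E} {A : Finset ι} {i : ι} : i ∈ nsF M A ↔ i ∈ A ∧ ¬ SimpF M i := by
  simp [nsF]

lemma mem_unus {M : RM ι E} {A : Finset ι} {i : ι} : i ∈ unus M A ↔
    (i = M.o ∨ ((univ.filter fun e => M.comp e = i).card ≠ 2 ∧ i ∉ hsF M A)) := by
  simp [unus]

/-- the graph of the A-vertices -/
noncomputable def gr (M : RM ι E) (A : Finset ι) : Gr :=
  ofT (fun d : Cell M => d.ua) (fun d => d.la) (fun d => M.comp d.ub) (fun d => M.comp d.lb)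
    (unus M A) (hsF M A) (nsF M A)

lemma ua_ne_la [Nonempty E] {M : RM ι E} (hM : M.Good) (hh : M.Holes) (d₀ : Cell M) :
    d₀.ua ≠ d₀.la := by
  intro h
  have h1 := cell_four hM hh (fun d => if d = d₀ then 1 else 0) (fun v => by
    rw [sum_eq_single d₀]
    · rw [if_pos rfl, one_mul, h]
      exact CharTwo.add_self_eq_zero _
    · intro d _ hd
      rw [if_neg hd, zero_mul]
    · intro h; exact absurd (mem_univ _) h) ⟨d₀, by simp⟩
  have h2 : (univ.filter fun v => ∃ d : Cell M, (if d = d₀ then (1 : ZMod 2) else 0) ≠ 0 ∧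
      (d.ua = v ∨ d.la = v)) ⊆ {d₀.ua} := by
    intro v hv
    rw [mem_filter] at hv
    obtain ⟨-, d, hd, hd'⟩ := hv
    have hdd : d = d₀ := by
      by_contra h
      exact hd (if_neg h)
    subst hdd
    rw [mem_singleton]
    rcases hd' with h' | h'
    · exact h'.symm
    · rw [← h', h]
  have h3 := card_le_card h2
  rw [card_singleton] at h3
  omega

/-- the boundary of every component is connected -/
lemma cn {M : RM ι E} (hM : M.Good) (hh : M.Holes) (i : ι) {B : Type} (g : E → B)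
    (hg : ∀ d : Cell M, (M.comp d.ub = i ∨ M.comp d.lb = i) → g d.ua = g d.la) :
    ∃ c, ∀ d : Cell M, (M.comp d.ub = i ∨ M.comp d.lb = i) → g d.ua = c := by
  obtain ⟨e₀, he₀⟩ := hh.surj i
  exact ⟨g e₀, fun d hd => comp_cn hM g hg he₀ _ (Or.inr ⟨d, Or.inl rfl, hd⟩)⟩

theorem gr_tgood [Nonempty E] {M : RM ι E} (hM : M.Good) (hh : M.Holes) (A : Finset ι) :
    TGood (fun d : Cell M => d.ua) (fun d => d.la) (fun d => M.comp d.ub) (fun d => M.comp d.lb)
      (unus M A) where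
  ne := ua_ne_la hM hh
  U_ne := ⟨M.o, mem_unus.2 (Or.inl rfl)⟩
  even := fun v x => cell_even' hM v x
  exact := (cell_exact hM hh).2.1
  dconn := cell_dconn hM hh
  link := fun x v hx => ⟨x (M.comp v), fun d hd => (cell_link hM x v hx d hd).1⟩
  simp := fun i hi v => by
    rw [mem_unus, not_or, not_and_or, not_not, not_not] at hi
    rcases hi.2 with h | h
    · exact rect_simp hM hh hi.1 h v
    · exact (mem_hsF.1 h).2 v
  bconn := fun i _ g hg => cn hM hh i g hg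

theorem gr_good [Nonempty E] {M : RM ι E} (hM : M.Good) (hh : M.Holes) (A : Finset ι) :
    (gr M A).Good :=
  ofT_good (gr_tgood hM hh A)

theorem gr_girth [Nonempty E] {M : RM ι E} (hM : M.Good) (hh : M.Holes) (A : Finset ι) :
    (gr M A).Girth :=
  ofT_girth (ua_ne_la hM hh) fun z hz hne => cell_four hM hh z hz hne

/-- the boundary of every face is connected, the outer one included -/
theorem gr_bconn {M : RM ι E} (hM : M.Good) (hh : M.Holes) (A : Finset ι) :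
    ∀ i ∈ (gr M A).fs, (gr M A).BC i := by
  intro n hn f hf m hm hmi m' hm' hmi'
  obtain ⟨i, rfl⟩ := mem_fs.1 hn
  obtain ⟨c, hc⟩ := cn hM hh i (fun v => f (nu v)) (by
    intro d hd
    have h1 := hf (nu d) (mem_ds.2 ⟨d, rfl⟩)
    unfold gr at h1
    rw [ofT_l, ofT_r, nu_eq, nu_eq, ofT_p, ofT_q] at h1
    exact h1 hd)
  obtain ⟨d, rfl⟩ := mem_ds.1 hm
  obtain ⟨d', rfl⟩ := mem_ds.1 hm'
  unfold gr at hmi hmi' ⊢
  rw [ofT_l, ofT_r, nu_eq, nu_eq] at hmi hmi'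
  rw [ofT_p, ofT_p]
  exact (hc d hmi).trans (hc d' hmi').symm

/-- a face in `hsF M A` is on one side only of each edge -/
lemma hs_side [Nonempty E] {M : RM ι E} (hM : M.Good) (hh : M.Holes) {A : Finset ι}
    (hA : HexSet M A) {i : ι} (hi : i ∈ hsF M A) (d₀ : Cell M) (h1 : M.comp d₀.ub = i)
    (h2 : M.comp d₀.lb = i) : False := by
  classical
  obtain ⟨hiA, hs⟩ := mem_hsF.1 hi
  have h3 := (hA i hiA).2.2.1
  -- the only edge of `i` at the ends of `d₀`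
  have honly : ∀ v, (d₀.ua = v ∨ d₀.la = v) → ∀ d : Cell M, (d.ua = v ∨ d.la = v) →
      (M.comp d.ub = i ∨ M.comp d.lb = i) → d = d₀ := by
    intro v hv d hd hdi
    by_contra hne
    have h4 := hs v
    have h5 : 1 ≤ (univ.filter fun d : Cell M => (d.ua = v ∨ d.la = v) ∧ M.comp d.ub = i).card :=
      card_pos.2 ⟨d₀, mem_filter.2 ⟨mem_univ _, hv, h1⟩⟩
    have h6 : 1 ≤ (univ.filter fun d : Cell M => (d.ua = v ∨ d.la = v) ∧ M.comp d.lb = i).card :=
      card_pos.2 ⟨d₀, mem_filter.2 ⟨mem_univ _, hv, h2⟩⟩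
    rcases hdi with hdi | hdi
    · have h7 : ({d, d₀} : Finset (Cell M)) ⊆
          univ.filter fun d : Cell M => (d.ua = v ∨ d.la = v) ∧ M.comp d.ub = i := by
        intro e he
        simp only [mem_insert, mem_singleton] at he
        rcases he with rfl | rfl
        · exact mem_filter.2 ⟨mem_univ _, hd, hdi⟩
        · exact mem_filter.2 ⟨mem_univ _, hv, h1⟩
      have h8 := card_le_card h7
      rw [card_pair hne] at h8
      omega
    · have h7 : ({d, d₀} : Finset (Cell M)) ⊆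
          univ.filter fun d : Cell M => (d.ua = v ∨ d.la = v) ∧ M.comp d.lb = i := by
        intro e he
        simp only [mem_insert, mem_singleton] at he
        rcases he with rfl | rfl
        · exact mem_filter.2 ⟨mem_univ _, hd, hdi⟩
        · exact mem_filter.2 ⟨mem_univ _, hv, h2⟩
      have h8 := card_le_card h7
      rw [card_pair hne] at h8
      omega
  -- another edge
  obtain ⟨d₁, hd₁, hd₁'⟩ : ∃ d₁ : Cell M, M.comp d₁.ub = i ∧ d₁ ≠ d₀ := by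
    by_contra hcon
    push Not at hcon
    have h4 : (univ.filter fun d : Cell M => M.comp d.ub = i) ⊆ {d₀} := by
      intro d hd
      rw [mem_singleton]
      exact hcon d (mem_filter.1 hd).2
    have h5 := card_le_card h4
    rw [card_singleton] at h5
    omega
  obtain ⟨c, hc⟩ := cn hM hh i (fun v => if d₀.ua = v ∨ d₀.la = v then (1 : ZMod 2) else 0) (by
    intro d hd
    by_cases hdd : d = d₀
    · subst hdd
      simp
    · rw [if_neg, if_neg]
      · exact fun h => hdd (honly _ h d (Or.inr rfl) hd)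
      · exact fun h => hdd (honly _ h d (Or.inl rfl) hd))
  have e1 := hc d₀ (Or.inl h1)
  have e2 := hc d₁ (Or.inl hd₁)
  have h4 : ¬ (d₀.ua = d₁.ua ∨ d₀.la = d₁.ua) :=
    fun h => hd₁' (honly _ h d₁ (Or.inl rfl) (Or.inl hd₁))
  simp only [true_or, if_true] at e1
  rw [if_neg h4] at e2
  exact one_ne_zero (e1.trans e2.symm)

/-- the graph of the A-vertices belongs to the class -/
theorem gr_cls [Nonempty E] {M : RM ι E} (hM : M.Good) (hh : M.Holes) {A : Finset ι}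
    (hA : HexSet M A) {m : ℕ} (hm : (unus M A).card ≤ m) : (gr M A).Cls (nu M.o) m where
  good := gr_good hM hh A
  girth := gr_girth hM hh A
  hu := nu_mem_us.2 (mem_unus.2 (Or.inl rfl))
  um := by
    have : (gr M A).us.card = (unus M A).card :=
      card_image_of_injective _ fun _ _ h => nu_inj h
    rw [this]; exact hm
  bc := fun i hi _ => gr_bconn hM hh A i hi
  hun := by
    intro h
    have h1 := nu_mem_ns.1 h
    exact (hA _ (mem_nsF.1 h1).1).1 rfl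
  hsub := by
    intro n hn
    obtain ⟨i, hi, rfl⟩ := mem_hs.1 hn
    refine mem_sdiff.2 ⟨mem_fs.2 ⟨i, rfl⟩, fun h => ?_⟩
    rcases mem_unus.1 (nu_mem_us.1 h) with h1 | h1
    · exact (hA i (mem_hsF.1 hi).1).1 h1
    · exact h1.2 hi
  nsub := by
    intro n hn
    obtain ⟨i, hi, rfl⟩ := mem_ns.1 hn
    have hi' := mem_nsF.1 hi
    refine nu_mem_us.2 (mem_unus.2 (Or.inr ⟨?_, fun h => hi'.2 (mem_hsF.1 h).2⟩))
    rw [(hA i hi'.1).2.1]
    omega
  hlen := by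
    intro n hn
    obtain ⟨i, hi, rfl⟩ := mem_hs.1 hn
    obtain ⟨-, -, h3, h4⟩ := hA i (mem_hsF.1 hi).1
    have h5 : ((univ.filter fun d : Cell M => M.comp d.ub = i) ∪
        univ.filter fun d : Cell M => M.comp d.lb = i).image nu ⊆
        (gr M A).ds.filter (fun d => (gr M A).l d = nu i ∨ (gr M A).r d = nu i) := by
      intro n hn
      obtain ⟨d, hd, rfl⟩ := mem_image.1 hn
      refine mem_filter.2 ⟨mem_ds.2 ⟨d, rfl⟩, ?_⟩
      unfold gr
      rw [ofT_l, ofT_r, nu_eq, nu_eq]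
      rcases mem_union.1 hd with h | h
      · exact Or.inl (mem_filter.1 h).2
      · exact Or.inr (mem_filter.1 h).2
    have h6 := card_le_card h5
    rw [card_image_of_injective _ (fun _ _ h => nu_inj h), card_union_of_disjoint] at h6
    · calc 6 ≤ ((gr M A).ds.filter (fun d => (gr M A).l d = nu i ∨ (gr M A).r d = nu i)).card := by
            omega
        _ = ∑ d ∈ (gr M A).ds.filter (fun d => (gr M A).l d = nu i ∨ (gr M A).r d = nu i), 1 :=
            card_eq_sum_ones _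
        _ ≤ _ := sum_le_sum fun d _ => Nat.le_add_right _ _
    · rw [disjoint_left]
      intro d hd hd'
      exact hs_side hM hh hA hi d (mem_filter.1 hd).2 (mem_filter.1 hd').2
  npend := by
    intro n hn m hm hl hr
    obtain ⟨i, hi, rfl⟩ := mem_ns.1 hn
    obtain ⟨d, rfl⟩ := mem_ds.1 hm
    unfold gr at hl hr
    rw [ofT_l, nu_eq] at hl
    rw [ofT_r, nu_eq] at hr
    obtain ⟨hio, h3, -, -⟩ := hA i (mem_nsF.1 hi).1
    obtain ⟨v, hv, -, h4⟩ := hex_pendant hM hh hio h3.le d hl hr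
    refine ⟨nu v, ?_⟩
    ext k
    rw [mem_singleton]
    constructor
    · intro hk
      obtain ⟨d', rfl, hd'⟩ := mem_star_nu hk
      rw [h4 d' hd']
    · rintro rfl
      exact nu_mem_star.2 hv
  nns := by
    intro n hn
    obtain ⟨i, hi, rfl⟩ := mem_ns.1 hn
    have h1 := (mem_nsF.1 hi).2
    unfold SimpF at h1
    push Not at h1
    obtain ⟨v, hv⟩ := h1
    refine ⟨nu v, mem_vs.2 ⟨v, rfl⟩, ?_⟩
    have h2 := le_card_star_filter (p := fun d : Cell M => d.ua) (q := fun d : Cell M => d.la)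
      (l := fun d => M.comp d.ub) (r := fun d => M.comp d.lb) (U := unus M A) (H := hsF M A)
      (K := nsF M A) (v := v) (fun k => (gr M A).l k = nu i)
    have h3 := le_card_star_filter (p := fun d : Cell M => d.ua) (q := fun d : Cell M => d.la)
      (l := fun d => M.comp d.ub) (r := fun d => M.comp d.lb) (U := unus M A) (H := hsF M A)
      (K := nsF M A) (v := v) (fun k => (gr M A).r k = nu i)
    have h4 : ∀ d : Cell M, (gr M A).l (nu d) = nu i ↔ M.comp d.ub = i := by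
      intro d
      unfold gr
      rw [ofT_l, nu_eq]
    have h5 : ∀ d : Cell M, (gr M A).r (nu d) = nu i ↔ M.comp d.lb = i := by
      intro d
      unfold gr
      rw [ofT_r, nu_eq]
    simp only [h4] at h2
    simp only [h5] at h3
    unfold Gr.cnt
    exact le_trans (Nat.succ_le_of_lt hv) (add_le_add h2 h3)

/-- a cover of the edges of `gr M A` gives a cover of the cells -/
theorem gr_hits {M : RM ι E} {A : Finset ι} (hA : HexSet M A) (X Y : Finset ℕ)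
    (hY : Y ⊆ (gr M A).fs \ (gr M A).us)
    (h : ∀ d ∈ (gr M A).ds, (gr M A).p d ∈ X ∨ (gr M A).q d ∈ X ∨ (gr M A).l d ∈ Y ∨
      (gr M A).r d ∈ Y) :
    ∃ S T : Finset E, S.card ≤ X.card ∧ T.card ≤ (gr M A).fpr Y ∧ Hits M S T := by
  classical
  refine ⟨univ.filter fun v => nu v ∈ X, univ.filter fun e => nu (M.comp e) ∈ Y, ?_, ?_, ?_⟩
  · refine card_le_card_of_injOn nu (fun v hv => ?_) (fun a _ b _ hab => nu_inj hab)
    exact (mem_filter.1 (Finset.mem_coe.1 hv)).2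
  · have h1 : ∀ j ∈ Y, ((univ.filter fun e => nu (M.comp e) ∈ Y).filter fun e =>
        nu (M.comp e) = j).card ≤ 2 + if j ∈ (gr M A).hs then 1 else 0 := by
      intro j hj
      have hj' := mem_sdiff.1 (hY hj)
      obtain ⟨i, rfl⟩ := mem_fs.1 hj'.1
      have hi : i ∉ unus M A := fun h' => hj'.2 (nu_mem_us.2 h')
      rw [mem_unus, not_or, not_and_or, not_not, not_not] at hi
      have h2 : ((univ.filter fun e => nu (M.comp e) ∈ Y).filter fun e =>
          nu (M.comp e) = nu i).card ≤ (univ.filter fun e => M.comp e = i).card := by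
        refine card_le_card fun e he => ?_
        rw [mem_filter] at he ⊢
        exact ⟨mem_univ _, nu_inj he.2⟩
      by_cases h3 : i ∈ hsF M A
      · have h5 : nu i ∈ (gr M A).hs := nu_mem_hs.2 h3
        rw [if_pos h5]
        rw [(hA i (mem_hsF.1 h3).1).2.1] at h2
        exact h2
      · rcases hi.2 with h4 | h4
        · rw [h4] at h2
          exact h2.trans (Nat.le_add_right _ _)
        · exact absurd h4 h3
    rw [card_eq_sum_card_fiberwise (f := fun e => nu (M.comp e)) (t := Y)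
      (fun e he => Finset.mem_coe.2 (mem_filter.1 (Finset.mem_coe.1 he)).2)]
    refine (sum_le_sum h1).trans ?_
    rw [sum_add_distrib, sum_const, smul_eq_mul, ← card_filter, filter_mem_eq_inter]
    unfold Gr.fpr
    rw [mul_comm]
  · intro d
    have h1 := h (nu d) (mem_ds.2 ⟨d, rfl⟩)
    unfold gr at h1
    rw [ofT_p, ofT_q, ofT_l, ofT_r] at h1
    simp only [mem_filter, mem_univ, true_and]
    exact h1

lemma gr_vs (M : RM ι E) (A : Finset ι) : (gr M A).vs.card = Fintype.card E := card_range _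

lemma gr_fs (M : RM ι E) (A : Finset ι) : (gr M A).fs.card = Fintype.card ι := card_range _

lemma gr_w (M : RM ι E) (A : Finset ι) (d : ℕ) : (gr M A).w d = 0 := rfl

open Classical in
/-- the faces of credit `c` -/
noncomputable def csF (M : RM ι E) (A : Finset ι) : Finset ι :=
  univ.filter fun i => i = M.o ∨ ((univ.filter fun e => M.comp e = i).card ≠ 2 ∧ i ∉ A)

lemma gr_cs {M : RM ι E} {A : Finset ι} (hA : HexSet M A) :
    (gr M A).cs = (csF M A).image nu := by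
  classical
  ext n
  rw [Gr.mem_cs, mem_image]
  constructor
  · rintro ⟨h1, h2⟩
    change n ∈ (unus M A).image nu at h1
    obtain ⟨i, hi, rfl⟩ := mem_image.1 h1
    have h3 : i ∉ nsF M A := fun h => h2 (nu_mem_ns.2 h)
    refine ⟨i, ?_, rfl⟩
    rw [csF, mem_filter]
    refine ⟨mem_univ _, ?_⟩
    rcases mem_unus.1 hi with h | h
    · exact Or.inl h
    · refine Or.inr ⟨h.1, fun hiA => ?_⟩
      by_cases hs : SimpF M i
      · exact h.2 (mem_hsF.2 ⟨hiA, hs⟩)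
      · exact h3 (mem_nsF.2 ⟨hiA, hs⟩)
  · rintro ⟨i, hi, rfl⟩
    rw [csF, mem_filter] at hi
    constructor
    · refine nu_mem_us.2 (mem_unus.2 ?_)
      rcases hi.2 with h | h
      · exact Or.inl h
      · exact Or.inr ⟨h.1, fun h' => h.2 (mem_hsF.1 h').1⟩
    · intro h
      have h' := (mem_nsF.1 (nu_mem_ns.1 h)).1
      rcases hi.2 with h1 | h1
      · exact (hA i h').1 h1
      · exact h1.2 h'

/-- the potential of the graph of the A-vertices -/
theorem gr_pot {M : RM ι E} {A : Finset ι} (hA : HexSet M A) (a b c : ℕ) :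
    (gr M A).pot a b c = a * Fintype.card E + b * (Fintype.card ι - (csF M A).card) +
      c * ((csF M A).card - 1) := by
  have h1 : (gr M A).ws (gr M A).ds = 0 := sum_eq_zero fun d _ => gr_w M A d
  have h2 : (gr M A).cs ⊆ (gr M A).fs := by
    rw [gr_cs hA]
    intro i hi
    obtain ⟨j, -, rfl⟩ := mem_image.1 hi
    exact mem_fs.2 ⟨j, rfl⟩
  have h4 : (gr M A).cs.card = (csF M A).card := by
    rw [gr_cs hA]
    exact card_image_of_injective _ fun _ _ h => nu_inj h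
  have h3 : ((gr M A).fs \ (gr M A).cs).card = Fintype.card ι - (csF M A).card := by
    rw [card_sdiff_of_subset h2, gr_fs, h4]
  unfold Gr.pot
  rw [h1, h3, gr_vs, h4]
  ring

end

end Pool.Agent.Lib.MP06c549.T6H
end
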