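import Pool.Agent.Lib.MP_06c549_co.T6H.Loc
import Pool.Agent.Lib.MP_06c549_co.T6H.Inst

section
/-!
# MP_06c549_co, T6H: smoothing of two adjacent vertices of degree two

`s`, `t` adjacent by `d0`, `star s = {d1, d0}`, `star t = {d0, d2}`, `d1 = us`, `d2 = tv`, `u ≠ v`. The smoothed graph has
no `s`, `t`, `d0`, `d2`; the edge `d1` joins `u` and `v` and has the weight `w d0 + w d1 + w d2 + 1`.
-/
set_option autoImplicit false

namespace Pool.Agent.Lib.MP06c549.T6H

open Finset

namespace Gr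

/-- the graph with `s`, `t` smoothed -/
def smooth (G : Gr) (s t u v d0 d1 d2 : ℕ) : Gr where
  vs := G.vs \ {s, t}
  ds := G.ds \ {d0, d2}
  fs := G.fs
  us := G.us
  p := fun d => if d = d1 then u else G.p d
  q := fun d => if d = d1 then v else G.q d
  l := G.l
  r := G.r
  w := fun d => if d = d1 then G.w d0 + G.w d1 + G.w d2 + 1 else G.w d
  hs := G.hs
  ns := G.ns

/-- two adjacent vertices of degree two with different outer neighbours -/
structure Sm (G : Gr) (s t u v d0 d1 d2 : ℕ) : Prop where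
  e1 : G.E d1 u s
  e0 : G.E d0 s t
  e2 : G.E d2 t v
  ss : G.star s = {d1, d0}
  st : G.star t = {d0, d2}
  n01 : d0 ≠ d1
  n02 : d0 ≠ d2
  n12 : d1 ≠ d2
  uv : u ≠ v

variable {G : Gr} {s t u v d0 d1 d2 : ℕ}

namespace Sm

lemma s_ne_t (hG : G.Good) (h : G.Sm s t u v d0 d1 d2) : s ≠ t := h.e0.ne hG

lemma u_ne_s (hG : G.Good) (h : G.Sm s t u v d0 d1 d2) : u ≠ s := h.e1.ne hG

lemma v_ne_t (hG : G.Good) (h : G.Sm s t u v d0 d1 d2) : v ≠ t := (h.e2.ne hG).symm

lemma u_ne_t (h : G.Sm s t u v d0 d1 d2) : u ≠ t := by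
  rintro rfl
  have h1 := h.e1.left
  rw [h.st, mem_insert, mem_singleton] at h1
  rcases h1 with h1 | h1
  · exact h.n01 h1.symm
  · exact h.n12 h1

lemma v_ne_s (h : G.Sm s t u v d0 d1 d2) : v ≠ s := by
  rintro rfl
  have h1 := h.e2.right
  rw [h.ss, mem_insert, mem_singleton] at h1
  rcases h1 with h1 | h1
  · exact h.n12 h1.symm
  · exact h.n02 h1.symm

/-- the edges at `s` or `t` -/
lemma at_s {d : ℕ} (h : G.Sm s t u v d0 d1 d2) : d ∈ G.star s ↔ d = d1 ∨ d = d0 := by
  rw [h.ss, mem_insert, mem_singleton]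

lemma at_t {d : ℕ} (h : G.Sm s t u v d0 d1 d2) : d ∈ G.star t ↔ d = d0 ∨ d = d2 := by
  rw [h.st, mem_insert, mem_singleton]

lemma sum1 (hG : G.Good) (h : G.Sm s t u v d0 d1 d2) (x : ℕ → ZMod 2) :
    x (G.l d1) + x (G.r d1) = x (G.l d0) + x (G.r d0) := by
  have h1 := hG.even s (h.e0.memv hG) x
  rw [h.ss, sum_pair h.n01.symm] at h1
  exact CharTwo.add_eq_zero.1 h1

lemma sum2 (hG : G.Good) (h : G.Sm s t u v d0 d1 d2) (x : ℕ → ZMod 2) :
    x (G.l d0) + x (G.r d0) = x (G.l d2) + x (G.r d2) := by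
  have h1 := hG.even t (h.e2.memv hG) x
  rw [h.st, sum_pair h.n02] at h1
  exact CharTwo.add_eq_zero.1 h1

/-- two edges at a vertex of degree two have the same sides -/
lemma same {v' e e' : ℕ} (hG : G.Good) (hv : v' ∈ G.vs) (hs : G.star v' = {e, e'}) (hne : e ≠ e') :
    (G.l e = G.l e' ∧ G.r e = G.r e') ∨ (G.l e = G.r e' ∧ G.r e = G.l e') := by
  by_cases hab : G.l e = G.r e
  · have hx : ∀ x : ℕ → ZMod 2, x (G.l e') = x (G.r e') := by
      intro x
      have h1 := hG.even v' hv x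
      rw [hs, sum_pair hne, hab, CharTwo.add_self_eq_zero, zero_add] at h1
      exact CharTwo.add_eq_zero.1 h1
    have h2 : G.l e' = G.r e' := by
      by_contra h3
      have h4 := hx (fun i => if i = G.l e' then 1 else 0)
      simp only [if_true, if_neg (Ne.symm h3)] at h4
      exact one_ne_zero h4
    have h5 : G.l e = G.l e' := by
      by_contra h3
      have h4 := hG.link v' hv (fun i => if i = G.l e then 1 else 0) (by
        intro d hd
        rw [hs, mem_insert, mem_singleton] at hd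
        rcases hd with rfl | rfl
        · rw [hab]
        · rw [h2]) e (by rw [hs]; exact mem_insert_self _ _) e' (by
        rw [hs]; exact mem_insert_of_mem (mem_singleton_self _))
      simp only [if_true, if_neg (Ne.symm h3)] at h4
      exact one_ne_zero h4
    exact Or.inl ⟨h5, by rw [← hab, h5, h2]⟩
  · rcases S_deg2 hG hv hs hne (exists_S e) hab with ⟨h1, h2⟩ | ⟨h1, h2⟩
    · exact Or.inl ⟨h1.symm, h2.symm⟩
    · exact Or.inr ⟨h2.symm, h1.symm⟩

lemma same1 (hG : G.Good) (h : G.Sm s t u v d0 d1 d2) :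
    (G.l d1 = G.l d0 ∧ G.r d1 = G.r d0) ∨ (G.l d1 = G.r d0 ∧ G.r d1 = G.l d0) :=
  same hG (h.e0.memv hG) h.ss h.n01.symm

lemma same0 (hG : G.Good) (h : G.Sm s t u v d0 d1 d2) :
    (G.l d0 = G.l d2 ∧ G.r d0 = G.r d2) ∨ (G.l d0 = G.r d2 ∧ G.r d0 = G.l d2) :=
  same hG (h.e2.memv hG) h.st h.n02

/-- the sides of `d1` and of `d2` are the same -/
lemma same2 (hG : G.Good) (h : G.Sm s t u v d0 d1 d2) :
    (G.l d1 = G.l d2 ∧ G.r d1 = G.r d2) ∨ (G.l d1 = G.r d2 ∧ G.r d1 = G.l d2) := by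
  rcases h.same1 hG with ⟨h1, h2⟩ | ⟨h1, h2⟩ <;> rcases h.same0 hG with ⟨h3, h4⟩ | ⟨h3, h4⟩
  · exact Or.inl ⟨h1.trans h3, h2.trans h4⟩
  · exact Or.inr ⟨h1.trans h3, h2.trans h4⟩
  · exact Or.inr ⟨h1.trans h4, h2.trans h3⟩
  · exact Or.inl ⟨h1.trans h4, h2.trans h3⟩

lemma side1 (hG : G.Good) (h : G.Sm s t u v d0 d1 d2) {i : ℕ} :
    (G.l d1 = i ∨ G.r d1 = i) ↔ (G.l d0 = i ∨ G.r d0 = i) := by
  rcases h.same1 hG with ⟨h1, h2⟩ | ⟨h1, h2⟩
  · rw [h1, h2]
  · rw [h1, h2]; exact or_comm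

lemma side2 (hG : G.Good) (h : G.Sm s t u v d0 d1 d2) {i : ℕ} :
    (G.l d1 = i ∨ G.r d1 = i) ↔ (G.l d2 = i ∨ G.r d2 = i) := by
  rcases h.same2 hG with ⟨h1, h2⟩ | ⟨h1, h2⟩
  · rw [h1, h2]
  · rw [h1, h2]; exact or_comm

/-- the star of a vertex in the smoothed graph -/
lemma star_smooth (h : G.Sm s t u v d0 d1 d2) {x : ℕ} (hxs : x ≠ s) (hxt : x ≠ t)
    (hxv : x ≠ v) : (G.smooth s t u v d0 d1 d2).star x = G.star x := by
  ext d
  rw [mem_star, mem_star]
  simp only [smooth, mem_sdiff, mem_insert, mem_singleton, not_or]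
  by_cases hd : d = d1
  · subst hd
    simp only [if_true]
    constructor
    · rintro ⟨h1, h2⟩
      rcases h2 with h2 | h2
      · subst h2
        exact ⟨h1.1, (mem_star.1 h.e1.left).2⟩
      · exact absurd h2.symm hxv
    · rintro ⟨h1, h2⟩
      refine ⟨⟨h1, h.n01.symm, h.n12⟩, ?_⟩
      rcases h.e1.ends (mem_star.2 ⟨h1, h2⟩) with h3 | h3
      · exact Or.inl h3.symm
      · exact absurd h3 hxs
  · simp only [if_neg hd]
    constructor
    · rintro ⟨h1, h2⟩
      exact ⟨h1.1, h2⟩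
    · rintro ⟨h1, h2⟩
      refine ⟨⟨h1, ?_, ?_⟩, h2⟩
      · rintro rfl
        rcases h.e0.ends (mem_star.2 ⟨h1, h2⟩) with h3 | h3
        · exact hxs h3
        · exact hxt h3
      · rintro rfl
        rcases h.e2.ends (mem_star.2 ⟨h1, h2⟩) with h3 | h3
        · exact hxt h3
        · exact hxv h3

lemma d1_notMem_star_v (h : G.Sm s t u v d0 d1 d2) : d1 ∉ G.star v := by
  intro h1
  rcases h.e1.ends h1 with h2 | h2
  · exact h.uv h2.symm
  · exact h.v_ne_s h2

/-- the star of `v` in the smoothed graph -/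
lemma star_smooth_v (hG : G.Good) (h : G.Sm s t u v d0 d1 d2) :
    (G.smooth s t u v d0 d1 d2).star v = insert d1 ((G.star v).erase d2) := by
  ext d
  rw [mem_insert, mem_erase, mem_star, mem_star]
  simp only [smooth, mem_sdiff, mem_insert, mem_singleton, not_or]
  by_cases hd : d = d1
  · subst hd
    simp only [if_true, or_true, and_true, true_or, iff_true]
    exact ⟨h.e1.1, h.n01.symm, h.n12⟩
  · simp only [hd, false_or, if_false]
    constructor
    · rintro ⟨h1, h2⟩
      exact ⟨h1.2.2, h1.1, h2⟩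
    · rintro ⟨h1, h2, h3⟩
      refine ⟨⟨h2, ?_, h1⟩, h3⟩
      rintro rfl
      rcases h.e0.ends (mem_star.2 ⟨h2, h3⟩) with h4 | h4
      · exact h.v_ne_s h4
      · exact h.v_ne_t hG h4

/-- sums over the star of `v` -/
lemma sum_smooth_v (hG : G.Good) (h : G.Sm s t u v d0 d1 d2) {M : Type*} [AddCommMonoid M] (z z' : ℕ → M)
    (h1 : z' d1 = z d2) (h2 : ∀ d ∈ G.star v, d ≠ d2 → z' d = z d) :
    ∑ d ∈ (G.smooth s t u v d0 d1 d2).star v, z' d = ∑ d ∈ G.star v, z d := by
  rw [h.star_smooth_v hG, sum_insert (by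
    rw [mem_erase]
    exact fun h3 => h.d1_notMem_star_v h3.2), h1,
    sum_congr rfl (fun d hd => h2 d (mem_erase.1 hd).2 (mem_erase.1 hd).1)]
  exact add_sum_erase (G.star v) z h.e2.right

lemma mem_vs' {x : ℕ} : x ∈ (G.smooth s t u v d0 d1 d2).vs ↔ x ∈ G.vs ∧ x ≠ s ∧ x ≠ t := by
  simp only [smooth, mem_sdiff, mem_insert, mem_singleton, not_or]

lemma mem_ds' {d : ℕ} : d ∈ (G.smooth s t u v d0 d1 d2).ds ↔ d ∈ G.ds ∧ d ≠ d0 ∧ d ≠ d2 := by
  simp only [smooth, mem_sdiff, mem_insert, mem_singleton, not_or]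

/-- the ends of the other edges are not `s`, `t` -/
lemma ends_ne (h : G.Sm s t u v d0 d1 d2) {d : ℕ} (hd : d ∈ G.ds) (h0 : d ≠ d0) (h1 : d ≠ d1) (h2 : d ≠ d2) :
    (G.p d ≠ s ∧ G.p d ≠ t) ∧ (G.q d ≠ s ∧ G.q d ≠ t) := by
  refine ⟨⟨fun h3 => ?_, fun h3 => ?_⟩, ⟨fun h3 => ?_, fun h3 => ?_⟩⟩
  · rcases h.at_s.1 (mem_star.2 ⟨hd, Or.inl h3⟩) with h4 | h4
    · exact h1 h4
    · exact h0 h4
  · rcases h.at_t.1 (mem_star.2 ⟨hd, Or.inl h3⟩) with h4 | h4
    · exact h0 h4
    · exact h2 h4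
  · rcases h.at_s.1 (mem_star.2 ⟨hd, Or.inr h3⟩) with h4 | h4
    · exact h1 h4
    · exact h0 h4
  · rcases h.at_t.1 (mem_star.2 ⟨hd, Or.inr h3⟩) with h4 | h4
    · exact h0 h4
    · exact h2 h4

end Sm

/-- **smoothing keeps `Good`** -/
theorem Good.smooth (hG : G.Good) (h : G.Sm s t u v d0 d1 d2) : (G.smooth s t u v d0 d1 d2).Good where
  ends := by
    intro d hd
    rw [Sm.mem_ds'] at hd
    rw [Sm.mem_vs', Sm.mem_vs']
    by_cases h1 : d = d1
    · subst h1
      simp only [Gr.smooth, if_true]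
      exact ⟨⟨h.e1.memv hG, h.u_ne_s hG, h.u_ne_t⟩, ⟨h.e2.symm.memv hG, h.v_ne_s, h.v_ne_t hG⟩⟩
    · simp only [Gr.smooth, if_neg h1]
      have h2 := h.ends_ne hd.1 hd.2.1 h1 hd.2.2
      exact ⟨⟨(hG.ends d hd.1).1, h2.1⟩, ⟨(hG.ends d hd.1).2, h2.2⟩⟩
  ne := by
    intro d hd
    rw [Sm.mem_ds'] at hd
    by_cases h1 : d = d1
    · subst h1
      simp only [Gr.smooth, if_true]
      exact h.uv
    · simp only [Gr.smooth, if_neg h1]
      exact hG.ne d hd.1
  sides := by
    intro d hd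
    rw [Sm.mem_ds'] at hd
    exact hG.sides d hd.1
  us_sub := hG.us_sub
  us_ne := hG.us_ne
  even := by
    intro x hx y
    rw [Sm.mem_vs'] at hx
    by_cases hxv : x = v
    · subst hxv
      have h1 := hG.even x hx.1 y
      rw [← h1]
      exact h.sum_smooth_v hG _ _ ((h.sum1 hG y).trans (h.sum2 hG y)) (fun _ _ _ => rfl)
    · rw [h.star_smooth hx.2.1 hx.2.2 hxv]
      exact hG.even x hx.1 y
  exact := by
    intro z hz
    obtain ⟨x, hx⟩ := hG.exact (fun d => if d = d0 ∨ d = d2 then z d1 else z d) (by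
      intro a ha
      by_cases has : a = s
      · subst has
        rw [h.ss, sum_pair h.n01.symm, if_neg (by rintro (h1 | h1); exacts [h.n01 h1.symm, h.n12 h1]),
          if_pos (Or.inl rfl)]
        exact CharTwo.add_self_eq_zero _
      by_cases hat : a = t
      · subst hat
        rw [h.st, sum_pair h.n02, if_pos (Or.inl rfl), if_pos (Or.inr rfl)]
        exact CharTwo.add_self_eq_zero _
      by_cases hav : a = v
      · subst hav
        have h1 := hz a (Sm.mem_vs'.2 ⟨ha, has, hat⟩)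
        rw [← h1]
        refine (h.sum_smooth_v hG _ z ?_ ?_).symm
        · rw [if_pos (Or.inr rfl)]
        · intro d hd hd2
          rw [if_neg]
          rintro (h3 | h3)
          · subst h3
            rcases h.e0.ends hd with h4 | h4
            · exact has h4
            · exact hat h4
          · exact hd2 h3
      · have h1 := hz a (Sm.mem_vs'.2 ⟨ha, has, hat⟩)
        rw [h.star_smooth has hat hav] at h1
        rw [← h1]
        refine sum_congr rfl fun d hd => ?_
        rw [if_neg]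
        rintro (h3 | h3)
        · subst h3
          rcases h.e0.ends hd with h4 | h4
          · exact has h4
          · exact hat h4
        · subst h3
          rcases h.e2.ends hd with h4 | h4
          · exact hat h4
          · exact hav h4)
    refine ⟨x, fun d hd => ?_⟩
    rw [Sm.mem_ds'] at hd
    have h1 := hx d hd.1
    rw [if_neg (by rintro (h3 | h3); exacts [hd.2.1 h3, hd.2.2 h3])] at h1
    exact h1
  dconn := by
    intro x hx
    refine hG.dconn x fun d hd => ?_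
    have h1 := hx d1 (Sm.mem_ds'.2 ⟨h.e1.1, h.n01.symm, h.n12⟩)
    have h1' : x (G.l d1) + x (G.r d1) = 0 := by
      rw [CharTwo.add_eq_zero]
      exact h1
    by_cases hd0 : d = d0
    · subst hd0
      rw [← CharTwo.add_eq_zero, ← h.sum1 hG x]
      exact h1'
    by_cases hd2 : d = d2
    · subst hd2
      rw [← CharTwo.add_eq_zero, ← h.sum2 hG x, ← h.sum1 hG x]
      exact h1'
    exact hx d (Sm.mem_ds'.2 ⟨hd, hd0, hd2⟩)
  link := by
    intro a ha x hx d hd d' hd'
    rw [Sm.mem_vs'] at ha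
    by_cases hav : a = v
    · subst hav
      rw [h.star_smooth_v hG] at hx hd hd'
      have h1 : x (G.l d1) = x (G.r d1) := hx d1 (mem_insert_self _ _)
      have h2 : x (G.l d2) = x (G.r d2) := by
        rw [← CharTwo.add_eq_zero, ← h.sum2 hG x, ← h.sum1 hG x, CharTwo.add_eq_zero]
        exact h1
      have h3 : ∀ e ∈ G.star a, x (G.l e) = x (G.r e) := by
        intro e he
        by_cases h4 : e = d2
        · rw [h4]; exact h2
        · exact hx e (mem_insert_of_mem (mem_erase.2 ⟨h4, he⟩))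
      have h5 : x (G.l d1) = x (G.l d2) := by
        rcases h.same2 hG with ⟨h6, _⟩ | ⟨h6, _⟩
        · rw [h6]
        · rw [h6, h2]
      have key : ∀ e ∈ insert d1 ((G.star a).erase d2), x (G.l e) = x (G.l d2) := by
        intro e he
        rcases mem_insert.1 he with h6 | h6
        · rw [h6]; exact h5
        · exact hG.link a ha.1 x h3 e (mem_erase.1 h6).2 d2 h.e2.right
      exact (key d hd).trans (key d' hd').symm
    · rw [h.star_smooth ha.2.1 ha.2.2 hav] at hx hd hd'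
      exact hG.link a ha.1 x hx d hd d' hd'
  simp := by
    intro a ha i hi hiu
    rw [Sm.mem_vs'] at ha
    have h0 := hG.simp a ha.1 i hi hiu
    have hc : ∀ G' : Gr, G'.cnt i a = ∑ d ∈ G'.star a, ((if G'.l d = i then 1 else 0) + if G'.r d = i then 1 else 0) := by
      intro G'
      rw [cnt, card_filter, card_filter, sum_add_distrib]
    rw [hc] at h0 ⊢
    by_cases hav : a = v
    · subst hav
      refine le_trans (le_of_eq ?_) h0
      refine h.sum_smooth_v hG _ _ ?_ (fun _ _ _ => rfl)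
      show (if G.l d1 = i then 1 else 0) + (if G.r d1 = i then 1 else 0) = _
      rcases h.same2 hG with ⟨h6, h7⟩ | ⟨h6, h7⟩
      · rw [h6, h7]
      · rw [h6, h7, add_comm]
    · rw [h.star_smooth ha.2.1 ha.2.2 hav]
      exact h0
  bconn := by
    intro i hi hiu f hf
    have hd1 : G.l d1 = i ∨ G.r d1 = i → f u = f v := by
      intro h1
      have h2 := hf d1 (Sm.mem_ds'.2 ⟨h.e1.1, h.n01.symm, h.n12⟩) h1
      simpa only [Gr.smooth, if_true] using h2
    obtain ⟨g, hg⟩ : ∃ g : ℕ → ZMod 2, g = fun a => if a = s ∨ a = t then f u else f a := ⟨_, rfl⟩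
    have hgs : g s = f u := by rw [hg]; exact if_pos (Or.inl rfl)
    have hgt : g t = f u := by rw [hg]; exact if_pos (Or.inr rfl)
    have hgn : ∀ a, a ≠ s → a ≠ t → g a = f a := by
      intro a h1 h2
      rw [hg]
      exact if_neg (by rintro (h3 | h3); exacts [h1 h3, h2 h3])
    have hgu : g u = f u := hgn u (h.u_ne_s hG) h.u_ne_t
    have hgv : g v = f v := hgn v h.v_ne_s (h.v_ne_t hG)
    have hE : ∀ {d a b : ℕ}, G.E d a b → g a = g b → g (G.p d) = g (G.q d) := by
      intro d a b h1 h2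
      rcases h1.2 with ⟨h3, h4⟩ | ⟨h3, h4⟩
      · rw [h3, h4, h2]
      · rw [h3, h4, h2]
    have key := hG.bconn i hi hiu g (by
      intro d hd hdi
      by_cases hd0 : d = d0
      · rw [hd0]
        exact hE h.e0 (hgs.trans hgt.symm)
      by_cases hd1' : d = d1
      · rw [hd1']
        exact hE h.e1 (hgu.trans hgs.symm)
      by_cases hd2 : d = d2
      · rw [hd2]
        refine hE h.e2 (hgt.trans ?_)
        rw [hgv]
        exact hd1 ((h.side2 hG).2 (by rw [← hd2]; exact hdi))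
      · have h1 := hf d (Sm.mem_ds'.2 ⟨hd, hd0, hd2⟩) hdi
        simp only [Gr.smooth, if_neg hd1'] at h1
        have h2 := h.ends_ne hd hd0 hd1' hd2
        rw [hgn _ h2.1.1 h2.1.2, hgn _ h2.2.1 h2.2.2, h1])
    have hp : ∀ d ∈ (G.smooth s t u v d0 d1 d2).ds, (G.l d = i ∨ G.r d = i) →
        f ((G.smooth s t u v d0 d1 d2).p d) = g (G.p d) := by
      intro d hd _
      rw [Sm.mem_ds'] at hd
      by_cases hd1' : d = d1
      · simp only [Gr.smooth, if_pos hd1']
        rw [hd1']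
        rcases h.e1.2 with ⟨h3, _⟩ | ⟨h3, _⟩
        · rw [h3, hgu]
        · rw [h3, hgs]
      · simp only [Gr.smooth, if_neg hd1']
        have h2 := h.ends_ne hd.1 hd.2.1 hd1' hd.2.2
        rw [hgn _ h2.1.1 h2.1.2]
    intro d hd hdi d' hd' hdi'
    rw [hp d hd hdi, hp d' hd' hdi']
    exact key d (Sm.mem_ds'.1 hd).1 hdi d' (Sm.mem_ds'.1 hd').1 hdi'

end Gr

end Pool.Agent.Lib.MP06c549.T6H
end

section
/-!
# MP_06c549_co, T6H: smoothing, part 2: girth, potential, covers
-/
set_option autoImplicit false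

namespace Pool.Agent.Lib.MP06c549.T6H

open Finset

namespace Gr

variable {G : Gr} {s t u v d0 d1 d2 : ℕ}

namespace Sm

/-- an even function on the smoothed graph comes from an even function on `G` -/
lemma lift (h : G.Sm s t u v d0 d1 d2) (hG : G.Good) {z : ℕ → ZMod 2}
    (hz : ∀ a ∈ (G.smooth s t u v d0 d1 d2).vs, ∑ d ∈ (G.smooth s t u v d0 d1 d2).star a, z d = 0)
    (a : ℕ) (ha : a ∈ G.vs) : ∑ d ∈ G.star a, (if d = d0 ∨ d = d2 then z d1 else z d) = 0 := by
  by_cases has : a = s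
  · subst has
    rw [h.ss, sum_pair h.n01.symm, if_neg (by rintro (h1 | h1); exacts [h.n01 h1.symm, h.n12 h1]),
      if_pos (Or.inl rfl)]
    exact CharTwo.add_self_eq_zero _
  by_cases hat : a = t
  · subst hat
    rw [h.st, sum_pair h.n02, if_pos (Or.inl rfl), if_pos (Or.inr rfl)]
    exact CharTwo.add_self_eq_zero _
  by_cases hav : a = v
  · subst hav
    have h1 := hz a (Sm.mem_vs'.2 ⟨ha, has, hat⟩)
    rw [← h1]
    refine (h.sum_smooth_v hG _ z ?_ ?_).symm
    · rw [if_pos (Or.inr rfl)]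
    · intro d hd hd2
      rw [if_neg]
      rintro (h3 | h3)
      · subst h3
        rcases h.e0.ends hd with h4 | h4
        · exact has h4
        · exact hat h4
      · exact hd2 h3
  · have h1 := hz a (Sm.mem_vs'.2 ⟨ha, has, hat⟩)
    rw [h.star_smooth has hat hav] at h1
    rw [← h1]
    refine sum_congr rfl fun d hd => ?_
    rw [if_neg]
    rintro (h3 | h3)
    · subst h3
      rcases h.e0.ends hd with h4 | h4
      · exact has h4
      · exact hat h4
    · subst h3
      rcases h.e2.ends hd with h4 | h4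
      · exact hat h4
      · exact hav h4

lemma d1_mem (h : G.Sm s t u v d0 d1 d2) : d1 ∈ (G.smooth s t u v d0 d1 d2).ds :=
  mem_ds'.2 ⟨h.e1.1, h.n01.symm, h.n12⟩

/-- sums over the edges of `G` and of the smoothed graph -/
lemma sum_ds (h : G.Sm s t u v d0 d1 d2) {M : Type*} [AddCommMonoid M] (z : ℕ → M) :
    ∑ d ∈ G.ds, z d = ∑ d ∈ (G.smooth s t u v d0 d1 d2).ds, z d + (z d0 + z d2) := by
  have h1 : ({d0, d2} : Finset ℕ) ⊆ G.ds := by
    intro d hd
    rw [mem_insert, mem_singleton] at hd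
    rcases hd with rfl | rfl
    · exact h.e0.1
    · exact h.e2.1
  rw [← sum_sdiff h1, sum_pair h.n02]
  rfl

lemma card_vs (h : G.Sm s t u v d0 d1 d2) (hG : G.Good) :
    (G.smooth s t u v d0 d1 d2).vs.card + 2 = G.vs.card := by
  have h1 : ({s, t} : Finset ℕ) ⊆ G.vs := by
    intro d hd
    rw [mem_insert, mem_singleton] at hd
    rcases hd with rfl | rfl
    · exact h.e0.memv hG
    · exact h.e2.memv hG
  have h2 := card_sdiff_add_card_eq_card h1
  rw [card_pair (h.s_ne_t hG)] at h2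
  exact h2

lemma card_ds (h : G.Sm s t u v d0 d1 d2) :
    (G.smooth s t u v d0 d1 d2).ds.card + 2 = G.ds.card := by
  have h1 : ({d0, d2} : Finset ℕ) ⊆ G.ds := by
    intro d hd
    rw [mem_insert, mem_singleton] at hd
    rcases hd with rfl | rfl
    · exact h.e0.1
    · exact h.e2.1
  have h2 := card_sdiff_add_card_eq_card h1
  rw [card_pair h.n02] at h2
  exact h2

/-- the total weight grows by one -/
lemma sum_w (h : G.Sm s t u v d0 d1 d2) :
    ∑ d ∈ (G.smooth s t u v d0 d1 d2).ds, (G.smooth s t u v d0 d1 d2).w d = ∑ d ∈ G.ds, G.w d + 1 := by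
  rw [h.sum_ds, ← add_sum_erase _ _ h.d1_mem, ← add_sum_erase _ G.w h.d1_mem]
  have h1 : ∑ d ∈ (G.smooth s t u v d0 d1 d2).ds.erase d1, (G.smooth s t u v d0 d1 d2).w d =
      ∑ d ∈ (G.smooth s t u v d0 d1 d2).ds.erase d1, G.w d := by
    refine sum_congr rfl fun d hd => ?_
    simp only [smooth, if_neg (mem_erase.1 hd).1]
  have h2 : (G.smooth s t u v d0 d1 d2).w d1 = G.w d0 + G.w d1 + G.w d2 + 1 := by
    simp only [smooth, if_true]
  rw [h1, h2]
  omega

end Sm

/-- **smoothing keeps `Girth`** -/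
theorem Girth.smooth (hg : G.Girth) (hG : G.Good) (h : G.Sm s t u v d0 d1 d2) :
    (G.smooth s t u v d0 d1 d2).Girth := by
  classical
  intro Z hZ hev hne
  have hZd : ∀ d ∈ Z, d ∈ G.ds ∧ d ≠ d0 ∧ d ≠ d2 := fun d hd => Sm.mem_ds'.1 (hZ hd)
  have h0 : d0 ∉ Z := fun h1 => (hZd _ h1).2.1 rfl
  have h2 : d2 ∉ Z := fun h1 => (hZd _ h1).2.2 rfl
  have hl := h.lift hG hev
  by_cases h1 : d1 ∈ Z
  · have key := hg (insert d0 (insert d2 Z)) (by
      intro d hd
      rw [mem_insert, mem_insert] at hd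
      rcases hd with rfl | rfl | hd
      · exact h.e0.1
      · exact h.e2.1
      · exact (hZd d hd).1) (by
      intro a ha
      refine Eq.trans (sum_congr rfl fun d _ => ?_) (hl a ha)
      by_cases hd : d = d0 ∨ d = d2
      · have h3 : d ∈ insert d0 (insert d2 Z) := by
          rw [mem_insert, mem_insert]
          tauto
        simp only [if_pos hd, if_pos h1, if_pos h3]
      · by_cases hdZ : d ∈ Z
        · have h3 : d ∈ insert d0 (insert d2 Z) := mem_insert_of_mem (mem_insert_of_mem hdZ)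
          simp only [if_neg hd, if_pos hdZ, if_pos h3]
        · have h3 : d ∉ insert d0 (insert d2 Z) := by
            rw [mem_insert, mem_insert]
            tauto
          simp only [if_neg hd, if_neg hdZ, if_neg h3]) ⟨d0, mem_insert_self _ _⟩
    rw [sum_insert (by rw [mem_insert]; rintro (h3 | h3); exacts [h.n02 h3, h0 h3]), sum_insert h2,
      ← add_sum_erase Z _ h1] at key
    rw [← add_sum_erase Z _ h1]
    have e1 : ∑ d ∈ Z.erase d1, (1 + 2 * (G.smooth s t u v d0 d1 d2).w d) =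
        ∑ d ∈ Z.erase d1, (1 + 2 * G.w d) := by
      refine sum_congr rfl fun d hd => ?_
      simp only [Gr.smooth, if_neg (mem_erase.1 hd).1]
    have e2 : (G.smooth s t u v d0 d1 d2).w d1 = G.w d0 + G.w d1 + G.w d2 + 1 := by
      simp only [Gr.smooth, if_true]
    rw [e1, e2]
    omega
  · have key := hg Z (fun d hd => (hZd d hd).1) (by
      intro a ha
      refine Eq.trans (sum_congr rfl fun d _ => ?_) (hl a ha)
      by_cases hd : d = d0 ∨ d = d2
      · have h3 : d ∉ Z := by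
          rcases hd with rfl | rfl
          · exact h0
          · exact h2
        simp only [if_pos hd, if_neg h1, if_neg h3]
      · simp only [if_neg hd]) hne
    refine le_trans key (le_of_eq (sum_congr rfl fun d hd => ?_))
    have h3 : d ≠ d1 := by
      rintro rfl
      exact h1 hd
    simp only [Gr.smooth, if_neg h3]

/-- **a cover of the smoothed graph gives a cover of `G` of the same price** -/
theorem Sm.cover (hG : G.Good) (h : G.Sm s t u v d0 d1 d2) {X Y : Finset ℕ}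
    (hX : X ⊆ (G.smooth s t u v d0 d1 d2).vs)
    (hc : ∀ d ∈ (G.smooth s t u v d0 d1 d2).ds, (G.smooth s t u v d0 d1 d2).p d ∈ X ∨
      (G.smooth s t u v d0 d1 d2).q d ∈ X ∨ G.l d ∈ Y ∨ G.r d ∈ Y) :
    ∃ X₁, X ⊆ X₁ ∧ X₁ ⊆ G.vs ∧
      (∀ d ∈ G.ds, G.p d ∈ X₁ ∨ G.q d ∈ X₁ ∨ G.l d ∈ Y ∨ G.r d ∈ Y) ∧
      X₁.card + ∑ d ∈ G.ds.filter (fun d => G.l d ∉ Y ∧ G.r d ∉ Y), G.w d ≤
        X.card + ∑ d ∈ (G.smooth s t u v d0 d1 d2).ds.filter (fun d => G.l d ∉ Y ∧ G.r d ∉ Y),
          (G.smooth s t u v d0 d1 d2).w d := by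
  classical
  have hXv : X ⊆ G.vs := fun a ha => (Sm.mem_vs'.1 (hX ha)).1
  -- covered edges other than `d0`, `d1`, `d2`
  have hoth : ∀ X₁ : Finset ℕ, X ⊆ X₁ → ∀ d ∈ G.ds, d ≠ d0 → d ≠ d1 → d ≠ d2 →
      G.p d ∈ X₁ ∨ G.q d ∈ X₁ ∨ G.l d ∈ Y ∨ G.r d ∈ Y := by
    intro X₁ hX₁ d hd h0 h1 h2
    have h3 := hc d (Sm.mem_ds'.2 ⟨hd, h0, h2⟩)
    simp only [smooth, if_neg h1] at h3
    rcases h3 with h3 | h3 | h3
    · exact Or.inl (hX₁ h3)
    · exact Or.inr (Or.inl (hX₁ h3))
    · exact Or.inr (Or.inr h3)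
  have hE : ∀ {X₁ : Finset ℕ} {d a b : ℕ}, G.E d a b → a ∈ X₁ →
      G.p d ∈ X₁ ∨ G.q d ∈ X₁ ∨ G.l d ∈ Y ∨ G.r d ∈ Y := by
    intro X₁ d a b h1 h2
    rcases h1.2 with ⟨h3, _⟩ | ⟨_, h3⟩
    · exact Or.inl (by rw [h3]; exact h2)
    · exact Or.inr (Or.inl (by rw [h3]; exact h2))
  -- the weights outside `d0`, `d1`, `d2`
  have hw1 : (G.smooth s t u v d0 d1 d2).w d1 = G.w d0 + G.w d1 + G.w d2 + 1 := by
    simp only [smooth, if_true]
  have hY0 : (G.l d0 ∉ Y ∧ G.r d0 ∉ Y) ↔ (G.l d1 ∉ Y ∧ G.r d1 ∉ Y) := by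
    rcases h.same1 hG with ⟨h1, h2⟩ | ⟨h1, h2⟩
    · rw [h1, h2]
    · rw [h1, h2]; exact and_comm
  have hY2 : (G.l d2 ∉ Y ∧ G.r d2 ∉ Y) ↔ (G.l d1 ∉ Y ∧ G.r d1 ∉ Y) := by
    rcases h.same2 hG with ⟨h1, h2⟩ | ⟨h1, h2⟩
    · rw [h1, h2]
    · rw [h1, h2]; exact and_comm
  rw [sum_filter, sum_filter, h.sum_ds, ← add_sum_erase _ _ h.d1_mem,
    ← add_sum_erase (G.smooth s t u v d0 d1 d2).ds
      (fun d => if G.l d ∉ Y ∧ G.r d ∉ Y then (G.smooth s t u v d0 d1 d2).w d else 0) h.d1_mem]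
  have e1 : ∑ d ∈ (G.smooth s t u v d0 d1 d2).ds.erase d1,
      (if G.l d ∉ Y ∧ G.r d ∉ Y then (G.smooth s t u v d0 d1 d2).w d else 0) =
      ∑ d ∈ (G.smooth s t u v d0 d1 d2).ds.erase d1, (if G.l d ∉ Y ∧ G.r d ∉ Y then G.w d else 0) := by
    refine sum_congr rfl fun d hd => ?_
    simp only [smooth, if_neg (mem_erase.1 hd).1]
  rw [e1, hw1]
  simp only [hY0, hY2]
  by_cases hY1 : G.l d1 ∉ Y ∧ G.r d1 ∉ Y
  · simp only [if_pos hY1]
    have h3 := hc d1 h.d1_mem
    simp only [smooth, if_true] at h3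
    rcases h3 with h3 | h3 | h3
    · refine ⟨insert t X, subset_insert _ _, ?_, ?_, ?_⟩
      · intro a ha
        rcases mem_insert.1 ha with rfl | ha
        · exact h.e2.memv hG
        · exact hXv ha
      · intro d hd
        by_cases hd0 : d = d0
        · rw [hd0]; exact hE h.e0.symm (mem_insert_self _ _)
        by_cases hd1 : d = d1
        · rw [hd1]; exact hE h.e1 (mem_insert_of_mem h3)
        by_cases hd2 : d = d2
        · rw [hd2]; exact hE h.e2 (mem_insert_self _ _)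
        exact hoth _ (subset_insert _ _) d hd hd0 hd1 hd2
      · have := card_insert_le t X
        omega
    · refine ⟨insert s X, subset_insert _ _, ?_, ?_, ?_⟩
      · intro a ha
        rcases mem_insert.1 ha with rfl | ha
        · exact h.e0.memv hG
        · exact hXv ha
      · intro d hd
        by_cases hd0 : d = d0
        · rw [hd0]; exact hE h.e0 (mem_insert_self _ _)
        by_cases hd1 : d = d1
        · rw [hd1]; exact hE h.e1.symm (mem_insert_self _ _)
        by_cases hd2 : d = d2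
        · rw [hd2]; exact hE h.e2.symm (mem_insert_of_mem h3)
        exact hoth _ (subset_insert _ _) d hd hd0 hd1 hd2
      · have := card_insert_le s X
        omega
    · exact absurd h3 (by rintro (h4 | h4); exacts [hY1.1 h4, hY1.2 h4])
  · simp only [if_neg hY1]
    refine ⟨X, Subset.refl _, hXv, ?_, le_of_eq (by omega)⟩
    have hY1' : G.l d1 ∈ Y ∨ G.r d1 ∈ Y := by
      by_contra h4
      push Not at h4
      exact hY1 h4
    intro d hd
    by_cases hd0 : d = d0
    · subst hd0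
      refine Or.inr (Or.inr ?_)
      by_contra h4
      push Not at h4
      exact hY1 (hY0.1 h4)
    by_cases hd1 : d = d1
    · rw [hd1]; exact Or.inr (Or.inr hY1')
    by_cases hd2 : d = d2
    · subst hd2
      refine Or.inr (Or.inr ?_)
      by_contra h4
      push Not at h4
      exact hY1 (hY2.1 h4)
    exact hoth _ (Subset.refl _) d hd hd0 hd1 hd2

end Gr

end Pool.Agent.Lib.MP06c549.T6H
end

section
/-!
# MP_06c549_co, T6H: smoothing, part 3: a minimal counterexample has no two adjacent vertices of degree two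
-/
set_option autoImplicit false

namespace Pool.Agent.Lib.MP06c549.T6H

open Finset

namespace Gr

variable {G : Gr} {s t u v d0 d1 d2 : ℕ}

/-- the boundary of a face stays connected -/
lemma Sm.bc (h : G.Sm s t u v d0 d1 d2) (hG : G.Good) {i : ℕ} (hi : G.BC i) :
    (G.smooth s t u v d0 d1 d2).BC i := by
  intro f hf
  have hd1 : G.l d1 = i ∨ G.r d1 = i → f u = f v := by
    intro h1
    have h2 := hf d1 h.d1_mem h1
    simpa only [Gr.smooth, if_true] using h2
  obtain ⟨g, hg⟩ : ∃ g : ℕ → ZMod 2, g = fun a => if a = s ∨ a = t then f u else f a := ⟨_, rfl⟩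
  have hgs : g s = f u := by rw [hg]; exact if_pos (Or.inl rfl)
  have hgt : g t = f u := by rw [hg]; exact if_pos (Or.inr rfl)
  have hgn : ∀ a, a ≠ s → a ≠ t → g a = f a := by
    intro a h1 h2
    rw [hg]
    exact if_neg (by rintro (h3 | h3); exacts [h1 h3, h2 h3])
  have hgu : g u = f u := hgn u (h.u_ne_s hG) h.u_ne_t
  have hgv : g v = f v := hgn v h.v_ne_s (h.v_ne_t hG)
  have hE : ∀ {d a b : ℕ}, G.E d a b → g a = g b → g (G.p d) = g (G.q d) := by
    intro d a b h1 h2
    rcases h1.2 with ⟨h3, h4⟩ | ⟨h3, h4⟩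
    · rw [h3, h4, h2]
    · rw [h3, h4, h2]
  have key := hi g (by
    intro d hd hdi
    by_cases hd0 : d = d0
    · rw [hd0]
      exact hE h.e0 (hgs.trans hgt.symm)
    by_cases hd1' : d = d1
    · rw [hd1']
      exact hE h.e1 (hgu.trans hgs.symm)
    by_cases hd2 : d = d2
    · rw [hd2]
      refine hE h.e2 (hgt.trans ?_)
      rw [hgv]
      exact hd1 ((h.side2 hG).2 (by rw [← hd2]; exact hdi))
    · have h1 := hf d (Sm.mem_ds'.2 ⟨hd, hd0, hd2⟩) hdi
      simp only [Gr.smooth, if_neg hd1'] at h1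
      have h2 := h.ends_ne hd hd0 hd1' hd2
      rw [hgn _ h2.1.1 h2.1.2, hgn _ h2.2.1 h2.2.2, h1])
  have hp : ∀ d ∈ (G.smooth s t u v d0 d1 d2).ds, (G.l d = i ∨ G.r d = i) →
      f ((G.smooth s t u v d0 d1 d2).p d) = g (G.p d) := by
    intro d hd _
    rw [Sm.mem_ds'] at hd
    by_cases hd1' : d = d1
    · simp only [Gr.smooth, if_pos hd1']
      rw [hd1']
      rcases h.e1.2 with ⟨h3, _⟩ | ⟨h3, _⟩
      · rw [h3, hgu]
      · rw [h3, hgs]
    · simp only [Gr.smooth, if_neg hd1']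
      have h2 := h.ends_ne hd.1 hd.2.1 hd1' hd.2.2
      rw [hgn _ h2.1.1 h2.1.2]
  intro d hd hdi d' hd' hdi'
  rw [hp d hd hdi, hp d' hd' hdi']
  exact key d (Sm.mem_ds'.1 hd).1 hdi d' (Sm.mem_ds'.1 hd').1 hdi'

/-- the length of a face does not change -/
lemma Sm.len_eq (h : G.Sm s t u v d0 d1 d2) (hG : G.Good) (i : ℕ) :
    ∑ d ∈ (G.smooth s t u v d0 d1 d2).ds.filter
        (fun d => (G.smooth s t u v d0 d1 d2).l d = i ∨ (G.smooth s t u v d0 d1 d2).r d = i),
      (1 + 2 * (G.smooth s t u v d0 d1 d2).w d) =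
    ∑ d ∈ G.ds.filter (fun d => G.l d = i ∨ G.r d = i), (1 + 2 * G.w d) := by
  have hw1 : (G.smooth s t u v d0 d1 d2).w d1 = G.w d0 + G.w d1 + G.w d2 + 1 := by
    simp only [smooth, if_true]
  have hY0 : (G.l d0 = i ∨ G.r d0 = i) ↔ (G.l d1 = i ∨ G.r d1 = i) := by
    rcases h.same1 hG with ⟨h1, h2⟩ | ⟨h1, h2⟩
    · rw [h1, h2]
    · rw [h1, h2]; exact or_comm
  have hY2 : (G.l d2 = i ∨ G.r d2 = i) ↔ (G.l d1 = i ∨ G.r d1 = i) := by
    rcases h.same2 hG with ⟨h1, h2⟩ | ⟨h1, h2⟩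
    · rw [h1, h2]
    · rw [h1, h2]; exact or_comm
  have hl : (G.smooth s t u v d0 d1 d2).l = G.l := rfl
  have hr : (G.smooth s t u v d0 d1 d2).r = G.r := rfl
  rw [hl, hr, sum_filter, sum_filter, h.sum_ds, ← add_sum_erase _ _ h.d1_mem,
    ← add_sum_erase (G.smooth s t u v d0 d1 d2).ds
      (fun d => if G.l d = i ∨ G.r d = i then 1 + 2 * G.w d else 0) h.d1_mem]
  have e1 : ∑ d ∈ (G.smooth s t u v d0 d1 d2).ds.erase d1,
      (if G.l d = i ∨ G.r d = i then 1 + 2 * (G.smooth s t u v d0 d1 d2).w d else 0) =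
      ∑ d ∈ (G.smooth s t u v d0 d1 d2).ds.erase d1,
        (if G.l d = i ∨ G.r d = i then 1 + 2 * G.w d else 0) := by
    refine sum_congr rfl fun d hd => ?_
    simp only [smooth, if_neg (mem_erase.1 hd).1]
  rw [e1, hw1]
  simp only [hY0, hY2]
  split_ifs <;> omega

theorem Cls.smooth {o m : ℕ} (hG : G.Cls o m) (hn : G.ns = ∅) (h : G.Sm s t u v d0 d1 d2) :
    (G.smooth s t u v d0 d1 d2).Cls o m where
  good := hG.good.smooth h
  girth := hG.girth.smooth hG.good h
  hu := hG.hu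
  um := hG.um
  bc := fun i hi hio => h.bc hG.good (hG.bc i hi hio)
  hun := hG.hun
  hsub := hG.hsub
  nsub := hG.nsub
  hlen := fun i hi => by rw [h.len_eq hG.good]; exact hG.hlen i hi
  npend := fun i hi => by
    have hi' : i ∈ G.ns := hi
    rw [hn] at hi'
    exact absurd hi' (notMem_empty i)
  nns := fun i hi => by
    have hi' : i ∈ G.ns := hi
    rw [hn] at hi'
    exact absurd hi' (notMem_empty i)

/-- the price of a cover does not drop by smoothing -/
lemma Sm.cost_le (h : G.Sm s t u v d0 d1 d2) (hG : G.Good) {S : Finset ℕ}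
    (hS : S ⊆ (G.smooth s t u v d0 d1 d2).vs) : G.cost S ≤ (G.smooth s t u v d0 d1 d2).cost S := by
  obtain ⟨X, Y, hc, hSX, hp⟩ := exists_cost (hG.smooth h) hS
  obtain ⟨X₁, h1, h2, h3, h4⟩ := h.cover hG hc.1 hc.2.2
  have h5 : G.IsCov X₁ Y := ⟨h2, hc.2.1, h3⟩
  have h6 := Gr.cost_le h5 (hSX.trans h1)
  have h7 : G.price X₁ Y ≤ (G.smooth s t u v d0 d1 d2).price X Y := by
    have h10 : (G.smooth s t u v d0 d1 d2).fpr Y = G.fpr Y := rfl
    unfold price ws nb
    have h8 : (G.smooth s t u v d0 d1 d2).l = G.l := rfl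
    have h9 : (G.smooth s t u v d0 d1 d2).r = G.r := rfl
    rw [h8, h9, h10]
    omega
  omega

lemma Sm.tau_le (h : G.Sm s t u v d0 d1 d2) (hG : G.Good) :
    G.tau ≤ (G.smooth s t u v d0 d1 d2).tau := h.cost_le hG (empty_subset _)

lemma Sm.pot_eq (h : G.Sm s t u v d0 d1 d2) (hG : G.Good) (a b c : ℕ) :
    (G.smooth s t u v d0 d1 d2).pot a b c = G.pot a b c := by
  unfold pot ws
  have h1 : (G.smooth s t u v d0 d1 d2).fs = G.fs := rfl
  have h2 : (G.smooth s t u v d0 d1 d2).cs = G.cs := rfl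
  rw [h1, h2, h.sum_w, ← h.card_vs hG]
  ring

/-- **no two adjacent vertices of degree two with different outer neighbours in a minimal counterexample** -/
theorem Cx.not_sm {a b c N m o : ℕ} (hG : Cx a b c N m o G) : ¬ G.Sm s t u v d0 d1 d2 := by
  intro h
  have h1 := hG.ih o _ (hG.cls.smooth hG.nn h) (by
    have := h.card_vs hG.cls.good
    omega)
  rw [h.pot_eq hG.cls.good] at h1
  have h2 := Nat.mul_le_mul_left N (h.tau_le hG.cls.good)
  have h3 := hG.bad
  omega

/-- the same in the form of the specification: edges `d1 = u s`, `d0 = s t`, `d2 = t v` -/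
theorem Cx.smooth_false {a b c N m o : ℕ} (hG : Cx a b c N m o G) (e1 : G.E d1 u s) (e0 : G.E d0 s t)
    (e2 : G.E d2 t v) (ss : G.star s = {d1, d0}) (st : G.star t = {d0, d2}) (n12 : d1 ≠ d2) (uv : u ≠ v)
    (n01 : d0 ≠ d1) (n02 : d0 ≠ d2) : False :=
  hG.not_sm ⟨e1, e0, e2, ss, st, n01, n02, n12, uv⟩

end Gr

end Pool.Agent.Lib.MP06c549.T6H
end

section
/-!
# MP_06c549_co, T6H: step (5), outer vertices of degree two
-/
set_option autoImplicit false

namespace Pool.Agent.Lib.MP06c549.T6H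

open Finset

namespace Gr

variable {G : Gr} {m o : ℕ}

/-- the outer vertices `x - y - x'` with `y` of degree two and `x`, `x'` cubic: the third faces at
`x` and `x'` coincide -/
theorem step5 (hG : Cx 9 3 6 17 m o G) {y x x' e e' d1 g d1' g' F H H' : ℕ}
    (hy : G.star y = {e, e'}) (he : G.E e y x) (he' : G.E e' y x') (hxx : x ≠ x')
    (hx : G.star x = {e, d1, g}) (hx' : G.star x' = {e', d1', g'})
    (se : G.S e o F) (se' : G.S e' o F) (s1 : G.S d1 o H) (s1' : G.S d1' o H')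
    (hF : F ≠ o) (hH : H ≠ o) (hH' : H' ≠ o) (hFH : F ≠ H) (hFH' : F ≠ H') : H = H' := by
  by_contra hne
  have hgood := hG.cls.good
  have hyv : y ∈ G.vs := he.memv hgood
  have hxv : x ∈ G.vs := he.symm.memv hgood
  have hxv' : x' ∈ G.vs := he'.symm.memv hgood
  have hyx : y ≠ x := he.ne hgood
  have hyx' : y ≠ x' := he'.ne hgood
  have m1 : d1 ∈ G.star x := by rw [hx]; simp
  have m1' : d1' ∈ G.star x' := by rw [hx']; simp
  have out : ∀ {v d i : ℕ}, d ∈ G.star v → G.S d o i → G.Out o v := by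
    intro v d i h1 h2
    rcases h2 with h2 | h2
    · exact ⟨d, h1, Or.inl h2.1⟩
    · exact ⟨d, h1, Or.inr h2.2⟩
  have hFC : G.FC {x, y, x'} o :=
    ((FC_singleton hgood hxv' (out m1' s1')).insert_out hgood hyv (out he.left se)).insert_out
      hgood hxv (out m1 s1)
  have touch : ∀ {v d i : ℕ}, v ∈ ({x, y, x'} : Finset ℕ) → d ∈ G.star v → G.S d o i →
      i ∈ G.tf {x, y, x'} := by
    intro v d i hv h1 h2
    rcases h2 with h2 | h2
    · rw [← h2.2]; exact r_mem_tf (star_sub_tds hv h1)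
    · rw [← h2.1]; exact l_mem_tf (star_sub_tds hv h1)
  have h := hG.move (by norm_num) (by norm_num) (W := {x, y, x'}) (X₀ := {x, x'}) (Y₀ := ∅) (B := {F, H, H'})
    (by
      intro v hv
      simp only [mem_insert, mem_singleton] at hv
      rcases hv with rfl | rfl | rfl <;> assumption)
    ⟨x, by simp⟩ hFC
    (by
      intro v hv
      simp only [mem_insert, mem_singleton] at hv
      rcases hv with rfl | rfl <;> assumption)
    (empty_subset _)
    (by
      intro i hi
      simp only [mem_insert, mem_singleton] at hi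
      rw [mem_erase]
      rcases hi with rfl | rfl | rfl
      · exact ⟨hF, touch (v := y) (by simp) he.left se⟩
      · exact ⟨hH, touch (v := x) (by simp) m1 s1⟩
      · exact ⟨hH', touch (v := x') (by simp) m1' s1'⟩)
    (by
      intro d hd
      have key : ∀ {v : ℕ}, v ∈ ({x, x'} : Finset ℕ) → d ∈ G.star v →
          G.p d ∈ ({x, x'} : Finset ℕ) ∨ G.q d ∈ ({x, x'} : Finset ℕ) := by
        intro v hv h1
        rcases (mem_star.1 h1).2 with h2 | h2
        · left; rw [h2]; exact hv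
        · right; rw [h2]; exact hv
      have h1 : d ∈ G.star x ∨ d ∈ G.star y ∨ d ∈ G.star x' := by
        rw [tds_insert, tds_insert, mem_union, mem_union] at hd
        rcases hd with h | h | h
        · exact Or.inl h
        · exact Or.inr (Or.inl h)
        · refine Or.inr (Or.inr ?_)
          rw [mem_tds] at h
          rw [mem_star]
          simpa using h
      rcases h1 with h1 | h1 | h1
      · rcases key (v := x) (by simp) h1 with h | h
        · exact Or.inl h
        · exact Or.inr (Or.inl h)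
      · rw [hy, mem_insert, mem_singleton] at h1
        rcases h1 with rfl | rfl
        · rcases key (v := x) (by simp) he.right with h | h
          · exact Or.inl h
          · exact Or.inr (Or.inl h)
        · rcases key (v := x') (by simp) he'.right with h | h
          · exact Or.inl h
          · exact Or.inr (Or.inl h)
      · rcases key (v := x') (by simp) h1 with h | h
        · exact Or.inl h
        · exact Or.inr (Or.inl h))
  have hf : G.fpr ∅ = 0 := by simp [fpr]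
  rw [card_insert_of_notMem (by simp [hyx.symm, hxx]), card_pair hyx',
    card_insert_of_notMem (by simp [hFH, hFH']), card_pair hne, card_pair hxx, hf] at h
  omega

end Gr

end Pool.Agent.Lib.MP06c549.T6H
end
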