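import Pool.Agent.Lib.MP_06c549_co.T6H.Side
import Pool.Agent.Lib.MP_06c549_co.T6H.Step5

/-!
# MP_06c549_co, T6H: the statements of the steps

`Min m o G`: `G` is a minimal counterexample to `17 cost ≤ 9 |vs| + 18 w + 3 usable + 6 (unusable - 1)` in
the class with at most `m` unusable faces, with outer face `o`. All statements have the parameter `m`;
`m = 1` is the case of rectangular holes.
-/

set_option autoImplicit false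

namespace Pool.Agent.Lib.MP06c549.T6H

open Finset

namespace Gr

/-- minimal counterexample -/
abbrev Min (m o : ℕ) (G : Gr) : Prop := Cx 9 3 6 17 m o G

/-- Step 1 -/
structure P1 (G : Gr) : Prop where
  conn : G.Conn
  lr : ∀ d ∈ G.ds, G.l d ≠ G.r d
  ncv : ∀ v ∈ G.vs, G.NCV v
  bc : ∀ i, G.BC i
  deg : ∀ v ∈ G.vs, 2 ≤ (G.star v).card

/-- outer vertex of degree three: outer edges `e`, `e'`, inner edge `g`, faces `F` (at `e`) and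
`F'` (at `e'`) -/
structure Cub (G : Gr) (o x e g e' F F' : ℕ) : Prop where
  st : G.star x = {e, g, e'}
  n1 : e ≠ g
  n2 : e ≠ e'
  n3 : g ≠ e'
  se : G.S e o F
  sg : G.S g F F'
  se' : G.S e' o F'
  f1 : F ≠ o
  f2 : F' ≠ o
  f3 : F ≠ F'

/-- outer vertex of degree two: edges `e`, `e'`, face `F` -/
structure Two (G : Gr) (o y e e' F : ℕ) : Prop where
  st : G.star y = {e, e'}
  n : e ≠ e'
  se : G.S e o F
  se' : G.S e' o F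
  f : F ≠ o

/-- Steps 2, 3 and smoothing -/
structure P2 (G : Gr) (o : ℕ) : Prop where
  odeg : ∀ v ∈ G.vs, G.Touch v o → (G.star v).card ≤ 3
  ex : ∃ v ∈ G.vs, G.Touch v o ∧ (G.star v).card = 3
  na : ∀ d a b, G.E d a b → (G.star a).card = 2 → (G.star b).card = 2 → False

/-- Step 6: all outer vertices are cubic, a face has at most one edge in common with `o`, no
parallel outer edges -/
structure P3 (G : Gr) (o : ℕ) : Prop where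
  cub : ∀ v ∈ G.vs, G.Touch v o → (G.star v).card = 3
  uniq : ∀ e ∈ G.ds, ∀ e' ∈ G.ds, ∀ F, F ≠ o → G.S e o F → G.S e' o F → e = e'
  par : ∀ e e' x x', e ≠ e' → G.E e x x' → G.E e' x x' → (G.l e = o ∨ G.r e = o) →
    (G.l e' = o ∨ G.r e' = o) → False

/-- an outer vertex with its inner neighbour `b` -/
structure Spk (G : Gr) (o x e g e' F F' b : ℕ) : Prop where
  cub : G.Cub o x e g e' F F'
  eb : G.E g x b
  nb : ¬ G.Touch b o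
  db : 3 ≤ (G.star b).card

/-- the face `o` is a triangle of cubic vertices `x0`, `x1`, `x2` -/
structure Tri (G : Gr) (o x0 x1 x2 e0 e1 e2 g0 g1 g2 F0 F1 F2 : ℕ) : Prop where
  c0 : G.Cub o x0 e2 g0 e0 F2 F0
  c1 : G.Cub o x1 e0 g1 e1 F0 F1
  c2 : G.Cub o x2 e1 g2 e2 F1 F2
  a0 : G.E e0 x0 x1
  a1 : G.E e1 x1 x2
  a2 : G.E e2 x2 x0
  n01 : x0 ≠ x1
  n12 : x1 ≠ x2
  n20 : x2 ≠ x0
  m01 : F0 ≠ F1
  m12 : F1 ≠ F2
  m20 : F2 ≠ F0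

/-! ## The steps -/

/-- Step 1 (helper12) -/
def SpecStep1 (m : ℕ) : Prop := ∀ (o : ℕ) (G : Gr), Min m o G → G.P1

/-- smoothing (helper88, helper31) -/
def SpecSmooth (m : ℕ) : Prop := ∀ (o : ℕ) (G : Gr), Min m o G →
  ∀ s t u v d0 d1 d2, G.Sm s t u v d0 d1 d2 → False

/-- Steps 2, 3 (and the consequence `na` of smoothing; uses `SpecSmooth m`) -/
def SpecStep23 (m : ℕ) : Prop := ∀ (o : ℕ) (G : Gr), Min m o G → G.P1 → G.P2 o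

/-- Step 4, no vertex of degree two: two parallel outer edges -/
def SpecStep4a (m : ℕ) : Prop := ∀ (o : ℕ) (G : Gr), Min m o G → G.P1 → G.P2 o →
  ∀ x x' e e' g g' F F', G.Cub o x e g e' F F' → G.Cub o x' e g' e' F F' →
    G.E e x x' → G.E e' x x' → False

/-- Step 4, one vertex `y` of degree two -/
def SpecStep4b (m : ℕ) : Prop := ∀ (o : ℕ) (G : Gr), Min m o G → G.P1 → G.P2 o →
  ∀ x x' y e d d' g g' F F', G.Cub o x e g d F F' → G.Cub o x' e g' d' F F' →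
    G.Two o y d d' F' → G.E e x x' → G.E d x y → G.E d' x' y → False

/-- Step 4, two vertices `y`, `y'` of degree two -/
def SpecStep4c (m : ℕ) : Prop := ∀ (o : ℕ) (G : Gr), Min m o G → G.P1 → G.P2 o →
  ∀ x x' y y' e e' d d' g g' F F', G.Cub o x e g d F F' → G.Cub o x' e' g' d' F F' →
    G.Two o y e e' F → G.Two o y' d d' F' → G.E e x y → G.E e' x' y → G.E d x y' →
    G.E d' x' y' → False

/-- Step 5 (helper59) -/
def SpecStep5 (m : ℕ) : Prop := ∀ (o : ℕ) (G : Gr), Min m o G → G.P1 → G.P2 o →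
  ∀ x x' y e e' d d' g g' F H H', G.Two o y e e' F → G.Cub o x e g d F H →
    G.Cub o x' e' g' d' F H' → G.E e x y → G.E e' x' y → H = H'

/-- Step 6 (helper86): two outer edges at one face `z`, not at a common vertex of degree two -/
def SpecStep6 (m : ℕ) : Prop := ∀ (o : ℕ) (G : Gr), Min m o G → G.P1 → G.P2 o →
  ∀ e1 ∈ G.ds, ∀ e2 ∈ G.ds, ∀ z, z ≠ o → e1 ≠ e2 → G.S e1 o z → G.S e2 o z →
    (∀ v ∈ G.vs, (G.star v).card = 2 → e1 ∈ G.star v → e2 ∉ G.star v) → False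

/-- Step 6' (helper59), from `SpecStep4a`, `SpecStep4b`, `SpecStep4c`, `SpecStep5`, `SpecStep6` -/
def SpecStep6' (m : ℕ) : Prop := ∀ (o : ℕ) (G : Gr), Min m o G → G.P1 → G.P2 o → G.P3 o

/-- Step 7: the inner neighbour (helper17) -/
def SpecSpk (m : ℕ) : Prop := ∀ (o : ℕ) (G : Gr), Min m o G → G.P1 → G.P2 o → G.P3 o →
  ∀ x e g e' F F', G.Cub o x e g e' F F' → ∃ b, G.Spk o x e g e' F F' b

/-- Step 7, the move `S` at the middle vertex of `x0`, `x1`, `x2` (helper17) -/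
def SpecS (m : ℕ) : Prop := ∀ (o : ℕ) (G : Gr), Min m o G → G.P1 → G.P2 o → G.P3 o →
  ∀ x0 x1 x2 e0 e1 e2 e3 g0 g1 g2 F0 F1 F2 F3 b0 b1 b2,
    G.Spk o x0 e0 g0 e1 F0 F1 b0 → G.Spk o x1 e1 g1 e2 F1 F2 b1 →
    G.Spk o x2 e2 g2 e3 F2 F3 b2 → G.E e1 x0 x1 → G.E e2 x1 x2 → x0 ≠ x2 →
    F0 ≠ F2 → F1 ≠ F3 → F0 ≠ F3 →
    (F0 ∉ G.us ∧ F1 ∉ G.us ∧ F2 ∉ G.us ∧ F3 ∉ G.us) ∧
      ∀ i, G.Touch b1 i → i = F0 ∨ i = F1 ∨ i = F2 ∨ i = F3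

/-- Step 7, the move `T`: the middle vertices of `x0`, `x1`, `x2`, `x3` have the same inner
neighbour, at least five faces around `o` (helper17) -/
def SpecT (m : ℕ) : Prop := ∀ (o : ℕ) (G : Gr), Min m o G → G.P1 → G.P2 o → G.P3 o →
  ∀ x0 x1 x2 x3 e0 e1 e2 e3 e4 g0 g1 g2 g3 F0 F1 F2 F3 F4 b0 z b3,
    G.Spk o x0 e0 g0 e1 F0 F1 b0 → G.Spk o x1 e1 g1 e2 F1 F2 z →
    G.Spk o x2 e2 g2 e3 F2 F3 z → G.Spk o x3 e3 g3 e4 F3 F4 b3 →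
    G.E e1 x0 x1 → G.E e2 x1 x2 → G.E e3 x2 x3 →
    x0 ≠ x1 → x0 ≠ x2 → x0 ≠ x3 → x1 ≠ x2 → x1 ≠ x3 → x2 ≠ x3 →
    F0 ≠ F2 → F0 ≠ F3 → F0 ≠ F4 → F1 ≠ F3 → F1 ≠ F4 → F2 ≠ F4 →
    F1 ∉ G.us → F2 ∉ G.us → F3 ∉ G.us → False

/-- Step 7, `k = 3`, buying the face at a weighted edge of `o` (helper17) -/
def SpecBuy (m : ℕ) : Prop := ∀ (o : ℕ) (G : Gr), Min m o G →
  ∀ x0 x1 x2 e0 e1 e2 g0 g1 g2 F0 F1 F2,
    G.Tri o x0 x1 x2 e0 e1 e2 g0 g1 g2 F0 F1 F2 → 1 ≤ G.w e0 → F0 ∉ G.us → False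

/-- the triangle is weighted (girth) -/
def SpecTriW (m : ℕ) : Prop := ∀ (o : ℕ) (G : Gr), Min m o G →
  ∀ x0 x1 x2 e0 e1 e2 g0 g1 g2 F0 F1 F2,
    G.Tri o x0 x1 x2 e0 e1 e2 g0 g1 g2 F0 F1 F2 → 1 ≤ G.w e0 + G.w e1 + G.w e2

/-- Step 8 (helper42, helper83): all unusable faces are triangles, at least two of them. For `m = 1` it
is void. -/
def SpecStep8 (m : ℕ) : Prop := ∀ (G : Gr), G.P1 → 2 ≤ G.us.card →
  (∀ u ∈ G.us, Min m u G) → (∀ u ∈ G.us, G.P2 u) → (∀ u ∈ G.us, G.P3 u) →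
  (∀ u ∈ G.us, ∃ x0 x1 x2 e0 e1 e2 g0 g1 g2 F0 F1 F2,
    G.Tri u x0 x1 x2 e0 e1 e2 g0 g1 g2 F0 F1 F2) → False

/-- the lemma ENC (helper9): `F` and `F'` occur at the inner vertex `b`, the edge `g = xy` lies
between them, `x` is outer; then the other faces at `y` have no edge in common with `o` -/
def SpecEnc : Prop := ∀ (o : ℕ) (G : Gr), G.Good → G.P1 →
  ∀ g x y F F' b, G.E g x y → G.S g F F' → F ≠ F' → F ≠ o → F' ≠ o → G.Touch b F →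
    G.Touch b F' → ¬ G.Touch b o → b ≠ y → G.Touch x o →
    ∀ i, G.Touch y i → i ≠ F → i ≠ F' → i ≠ o ∧ ∀ d ∈ G.ds, ¬ G.S d o i

/-- Step 7, from `SpecS` and `SpecEnc` (helper9): if the face behind `x2` touches the inner
neighbour of `x1` then `x1` and `x2` have the same inner neighbour -/
def SpecA (m : ℕ) : Prop := ∀ (o : ℕ) (G : Gr), Min m o G → G.P1 → G.P2 o → G.P3 o →
  ∀ x1 x2 x3 e1 e2 e3 e4 g1 g2 g3 F1 F2 F3 F4 b1 b2 b3,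
    G.Spk o x1 e1 g1 e2 F1 F2 b1 → G.Spk o x2 e2 g2 e3 F2 F3 b2 →
    G.Spk o x3 e3 g3 e4 F3 F4 b3 → G.E e2 x1 x2 → G.E e3 x2 x3 → x1 ≠ x3 →
    F1 ≠ F3 → F2 ≠ F4 → F1 ≠ F4 → G.Touch b1 F3 → b2 = b1

/-- Step 7, `k = 4` with `x0`, `x1` having the same inner neighbour (helper75) -/
def SpecK4 (m : ℕ) : Prop := ∀ (o : ℕ) (G : Gr), Min m o G → G.P1 → G.P2 o → G.P3 o →
  ∀ x0 x1 x2 x3 e0 e1 e2 e3 g0 g1 g2 g3 F0 F1 F2 F3 z b2 b3,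
    G.Spk o x0 e0 g0 e1 F0 F1 z → G.Spk o x1 e1 g1 e2 F1 F2 z →
    G.Spk o x2 e2 g2 e3 F2 F3 b2 → G.Spk o x3 e3 g3 e0 F3 F0 b3 →
    G.E e1 x0 x1 → G.E e2 x1 x2 → G.E e3 x2 x3 → G.E e0 x3 x0 →
    x0 ≠ x1 → x0 ≠ x2 → x0 ≠ x3 → x1 ≠ x2 → x1 ≠ x3 → x2 ≠ x3 →
    F0 ≠ F2 → F0 ≠ F3 → F1 ≠ F3 → F0 ∉ G.us → F1 ∉ G.us → F2 ∉ G.us → F3 ∉ G.us → False

/-- the theorem -/
def SpecMain (m : ℕ) : Prop := ∀ (o : ℕ) (G : Gr), G.Cls o m → 17 * G.tau ≤ G.pot 9 3 6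

end Gr

end Pool.Agent.Lib.MP06c549.T6H
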