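import Pool.Agent.Lib.MP_06c549_co.T6H.Spec
import Pool.Agent.Lib.MP_06c549_co.T6H.Step5
import Pool.Agent.Lib.MP_06c549_co.T6H.Par

/-!
# MP_06c549_co, T6H: steps (2) and (3), the degrees of the outer vertices

Step 2: an outer vertex has degree at most three. Step 3: no two adjacent vertices have degree two, so
some outer vertex has degree three.
-/

set_option autoImplicit false

namespace Pool.Agent.Lib.MP06c549.T6H

open Finset

namespace Gr

variable {G : Gr} {a b c N m o : ℕ}

/-- a counterexample has an edge at the outer face -/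
lemma Cx.exists_edge (hG : Cx a b c N m o G) : ∃ d ∈ G.ds, G.l d = o ∨ G.r d = o := by
  have hne : G.ds.Nonempty := by
    rw [nonempty_iff_ne_empty]
    intro h
    have hcov : G.IsCov ∅ ∅ := ⟨empty_subset _, empty_subset _, by rw [h]; simp⟩
    have h1 := tau_le hcov
    have h2 := hG.bad
    have h3 : G.price ∅ ∅ = 0 := by simp [price, h, ws]
    rw [h3, Nat.le_zero] at h1
    rw [h1, Nat.mul_zero] at h2
    exact absurd h2 (Nat.not_lt_zero _)
  obtain ⟨e, he⟩ := hne
  by_contra hcon
  push Not at hcon
  have ho : o ∈ G.fs := hG.cls.good.us_sub hG.cls.hu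
  have h := hG.cls.good.dconn (fun k => if k = o then 1 else 0) (fun d hd => by
    simp only [if_neg (hcon d hd).1, if_neg (hcon d hd).2]) o ho (G.l e) (hG.cls.good.sides e he).1
  simp only [if_true, if_neg (hcon e he).1] at h
  exact absurd h (by decide)

/-- step 2: an outer vertex has degree at most three -/
theorem Cx.step2 (hG : Cx a b c N m o G) (hp : Par a b c N) {v : ℕ} (hn : G.NCV v)
    (ht : G.Touch v o) : (G.star v).card ≤ 3 := by
  by_contra hcon
  have hgood := hG.cls.good
  have hv : v ∈ G.vs := (touch_mem hgood ht).1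
  have h1 : (G.star v).card ≤ (G.tf {v}).card := deg_le G hn
  have h2 : ((G.tf {v}).erase o).card + 1 = (G.tf {v}).card :=
    card_erase_add_one (mem_tf_single.2 ht)
  have h := hG.move hp.bc hp.a2 (W := {v}) (X₀ := {v}) (Y₀ := ∅) (B := (G.tf {v}).erase o)
    (singleton_subset_iff.2 hv) (singleton_nonempty v) (FC_single hgood hv (Or.inr ht))
    (singleton_subset_iff.2 hv) (empty_subset _) (Subset.refl _)
    (by
      intro d hd
      rcases (mem_tds.1 hd).2 with h3 | h3
      · exact Or.inl h3
      · exact Or.inr (Or.inl h3))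
  rw [card_singleton, fpr_empty] at h
  have h3 : b * 3 ≤ b * ((G.tf {v}).erase o).card := Nat.mul_le_mul_left _ (by omega)
  have h4 := hp.a1b3
  omega

lemma star_two {v d : ℕ} (h : (G.star v).card = 2) (hd : d ∈ G.star v) :
    ∃ d', d ≠ d' ∧ G.star v = {d, d'} := by
  obtain ⟨x, y, hxy, hs⟩ := card_eq_two.1 h
  rw [hs, mem_insert, mem_singleton] at hd
  rcases hd with rfl | rfl
  · exact ⟨y, hxy, hs⟩
  · exact ⟨x, hxy.symm, by rw [hs, pair_comm]⟩

/-- a closed set of vertices meets all edges of a connected graph -/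
lemma Conn.closed (hc : G.Conn) (hG : G.Good) {W : Finset ℕ} {v : ℕ} (hv : v ∈ G.vs) (hvW : v ∈ W)
    (h : ∀ d ∈ G.tds W, G.p d ∈ W ∧ G.q d ∈ W) : ∀ d ∈ G.ds, d ∈ G.tds W := by
  intro d hd
  have h1 := hc (fun x => if x ∈ W then 1 else 0) (by
    intro e he
    by_cases h2 : e ∈ G.tds W
    · simp only [if_pos (h e h2).1, if_pos (h e h2).2]
    · rw [mem_tds] at h2
      simp only [he, true_and, not_or] at h2
      simp only [if_neg h2.1, if_neg h2.2]) v hv (G.p d) (hG.ends d hd).1
  simp only [if_pos hvW] at h1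
  rw [mem_tds]
  refine ⟨hd, Or.inl ?_⟩
  by_contra h2
  rw [if_neg h2] at h1
  exact absurd h1 (by decide)

/-- two vertices of degree two joined by two edges -/
lemma Cx.no_pair (hG : Cx a b c N m o G) (hp : Par a b c N) {s t d0 d1 : ℕ}
    (ss : G.star s = {d0, d1}) (st : G.star t = {d0, d1}) (e0 : G.E d0 s t)
    (ho : G.Touch s o) : False := by
  have hgood := hG.cls.good
  have hs : s ∈ G.vs := e0.memv hgood
  have ht : t ∈ G.vs := e0.symm.memv hgood
  have ho' : G.Touch t o := by
    obtain ⟨d, hd, h⟩ := ho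
    exact ⟨d, by rw [st, ← ss]; exact hd, h⟩
  have hFC : G.FC {s, t} o := by
    refine FC_insert hgood (FC_single hgood ht (Or.inr ho')) hs (Or.inr (Or.inl ho))
  have h := hG.move hp.bc hp.a2 (W := {s, t}) (X₀ := {s}) (Y₀ := ∅) (B := ∅)
    (by
      intro v hv
      rw [mem_insert, mem_singleton] at hv
      rcases hv with rfl | rfl <;> assumption)
    ⟨s, by simp⟩ hFC (singleton_subset_iff.2 hs) (empty_subset _) (empty_subset _)
    (by
      intro d hd
      have h1 : d ∈ G.star s := by
        rw [tds_insert, mem_union] at hd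
        rcases hd with h | h
        · exact h
        · rw [ss, ← st, mem_star]
          rw [mem_tds] at h
          simpa using h
      rcases (mem_star.1 h1).2 with h2 | h2
      · exact Or.inl (by rw [h2]; simp)
      · exact Or.inr (Or.inl (by rw [h2]; simp)))
  rw [card_pair (e0.ne hgood), card_singleton, card_empty, fpr_empty] at h
  have := hp.a2
  omega

/-- a triangle of vertices of degree two at the outer face -/
lemma Cx.no_tri (hG : Cx a b c N m o G) (hp : Par a b c N) {s t x d0 d1 d2 F : ℕ}
    (ss : G.star s = {d0, d1}) (st : G.star t = {d0, d2}) (sx : G.star x = {d1, d2})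
    (e0 : G.E d0 s t) (e1 : G.E d1 s x) (e2 : G.E d2 t x) (n01 : d0 ≠ d1) (n02 : d0 ≠ d2)
    (n12 : d1 ≠ d2) (s0 : G.S d0 o F) (s1 : G.S d1 o F) (s2 : G.S d2 o F) (hF : F ≠ o)
    (hcl : ∀ d ∈ G.ds, d ∈ G.tds {s, t, x}) : False := by
  have hgood := hG.cls.good
  have hs : s ∈ G.vs := e0.memv hgood
  have ht : t ∈ G.vs := e0.symm.memv hgood
  have hx : x ∈ G.vs := e1.symm.memv hgood
  have hst : s ≠ t := e0.ne hgood
  have hsx : s ≠ x := e1.ne hgood
  have htx : t ≠ x := e2.ne hgood
  have touch : ∀ {v d : ℕ}, d ∈ G.star v → G.S d o F → G.Touch v o := by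
    intro v d h1 h2
    rcases h2 with h2 | h2
    · exact ⟨d, h1, Or.inl h2.1⟩
    · exact ⟨d, h1, Or.inr h2.2⟩
  have hW : ({s, t, x} : Finset ℕ) ⊆ G.vs := by
    intro v hv
    simp only [mem_insert, mem_singleton] at hv
    rcases hv with rfl | rfl | rfl <;> assumption
  have hFC : G.FC {s, t, x} o := by
    refine FC_insert hgood (FC_insert hgood (FC_single hgood hx (Or.inr (touch e1.right s1))) ht
      (Or.inr (Or.inl (touch e0.right s0)))) hs (Or.inr (Or.inl (touch e0.left s0)))
  have m0 : d0 ∈ G.tds {s, t, x} := star_sub_tds (by simp) e0.left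
  have m1 : d1 ∈ G.tds {s, t, x} := star_sub_tds (by simp) e1.left
  have m2 : d2 ∈ G.tds {s, t, x} := star_sub_tds (by simp) e2.left
  have htds : ∀ d ∈ G.tds {s, t, x}, d = d0 ∨ d = d1 ∨ d = d2 := by
    intro d hd
    have h1 : d ∈ G.star s ∨ d ∈ G.star t ∨ d ∈ G.star x := by
      rw [tds_insert, tds_insert, mem_union, mem_union] at hd
      rcases hd with h | h | h
      · exact Or.inl h
      · exact Or.inr (Or.inl h)
      · refine Or.inr (Or.inr ?_)
        rw [mem_tds] at h
        rw [mem_star]
        simpa using h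
    rw [ss, st, sx] at h1
    simp only [mem_insert, mem_singleton] at h1
    tauto
  have hD : ({d0, d1, d2} : Finset ℕ) ⊆ G.tds {s, t, x} := by
    intro d hd
    simp only [mem_insert, mem_singleton] at hd
    rcases hd with rfl | rfl | rfl <;> assumption
  have hws : G.ws {d0, d1, d2} = G.w d0 + (G.w d1 + G.w d2) := by
    rw [ws, sum_insert (by simp [n01, n02]), sum_pair n12]
  have hgir : 1 ≤ G.ws {d0, d1, d2} := by
    have h1 := hG.cls.girth {d0, d1, d2} (hD.trans tds_sub)
      (evenSet_triangle e0.symm e1 e2.symm hst.symm hsx htx.symm).1 ⟨d0, by simp⟩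
    rw [sum_insert (by simp [n01, n02]), sum_pair n12] at h1
    omega
  have hFtf : F ∈ G.tf {s, t, x} := by
    rcases s0 with h | h
    · rw [← h.2]; exact r_mem_tf m0
    · rw [← h.1]; exact l_mem_tf m0
  have hFfs : F ∈ G.fs := tf_sub hgood hFtf
  have hc3 : ({s, t, x} : Finset ℕ).card = 3 := by
    rw [card_insert_of_notMem (by simp [hst, hsx]), card_pair htx]
  have sd : ∀ d ∈ ({d0, d1, d2} : Finset ℕ), G.l d = F ∨ G.r d = F := by
    intro d hd
    simp only [mem_insert, mem_singleton] at hd
    have : ∀ {e : ℕ}, G.S e o F → G.l e = F ∨ G.r e = F := by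
      intro e h
      rcases h with h | h
      · exact Or.inr h.2
      · exact Or.inl h.1
    rcases hd with rfl | rfl | rfl
    · exact this s0
    · exact this s1
    · exact this s2
  have h2N := hp.a2
  by_cases hFu : F ∈ G.us
  · have h := hG.move_wc hp.a2 (W := {s, t, x}) (X₀ := {s, t}) (Y₀ := ∅) (B := ∅) (B' := {F})
      (D := {d0, d1, d2}) (D' := ∅) hW ⟨s, by simp⟩ hFC
      (fun v hv => by
        rw [mem_insert, mem_singleton] at hv
        rcases hv with rfl | rfl <;> assumption)
      (empty_subset _) (empty_subset _)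
      (singleton_subset_iff.2 (mem_erase.2 ⟨hF, mem_inter.2 ⟨hFtf, hFu⟩⟩))
      (by
        intro d hd
        have key : ∀ {v : ℕ}, v ∈ ({s, t} : Finset ℕ) → d ∈ G.star v →
            G.p d ∈ ({s, t} : Finset ℕ) ∨ G.q d ∈ ({s, t} : Finset ℕ) := by
          intro v hv h1
          rcases (mem_star.1 h1).2 with h2 | h2
          · left; rw [h2]; exact hv
          · right; rw [h2]; exact hv
        rcases htds d hd with rfl | rfl | rfl
        · rcases key (v := s) (by simp) e0.left with h | h
          · exact Or.inl h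
          · exact Or.inr (Or.inl h)
        · rcases key (v := s) (by simp) e1.left with h | h
          · exact Or.inl h
          · exact Or.inr (Or.inl h)
        · rcases key (v := t) (by simp) e2.left with h | h
          · exact Or.inl h
          · exact Or.inr (Or.inl h))
      hD (empty_subset _) (disjoint_empty_right _) (by simp)
    rw [hc3, card_pair hst, card_singleton, card_empty, fpr_empty] at h
    have h1 : (2 * a - N) * 1 ≤ (2 * a - N) * G.ws {d0, d1, d2} := Nat.mul_le_mul_left _ hgir
    have h2 := hp.a5b2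
    have h3 := hp.bb
    simp only [ws, sum_empty] at h h1
    omega
  · have h := hG.move_wc hp.a2 (W := {s, t, x}) (X₀ := ∅) (Y₀ := {F}) (B := {F}) (B' := ∅)
      (D := ∅) (D' := {d0, d1, d2}) hW ⟨s, by simp⟩ hFC (empty_subset _)
      (singleton_subset_iff.2 (mem_sdiff.2 ⟨hFfs, hFu⟩))
      (singleton_subset_iff.2 (mem_sdiff.2 ⟨hFtf, hFu⟩)) (empty_subset _)
      (by
        intro d hd
        have h1 : d ∈ ({d0, d1, d2} : Finset ℕ) := by
          simp only [mem_insert, mem_singleton]
          exact htds d hd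
        rcases sd d h1 with h2 | h2
        · exact Or.inr (Or.inr (Or.inl (by rw [h2]; simp)))
        · exact Or.inr (Or.inr (Or.inr (by rw [h2]; simp))))
      (empty_subset _) hD (disjoint_empty_left _)
      (by
        intro d hd
        rcases sd d hd with h2 | h2
        · exact Or.inl (by rw [h2]; simp)
        · exact Or.inr (by rw [h2]; simp))
    rw [hc3, card_singleton, card_empty, fpr_singleton] at h
    by_cases hFh : F ∈ G.hs
    · rw [if_pos hFh] at h
      have h4 : 6 ≤ ∑ d ∈ ({d0, d1, d2} : Finset ℕ), (1 + 2 * G.w d) := by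
        refine (hG.cls.hlen F hFh).trans (sum_le_sum_of_subset ?_)
        intro d hd
        simp only [mem_insert, mem_singleton]
        exact htds d (hcl d (mem_filter.1 hd).1)
      rw [sum_insert (by simp [n01, n02]), sum_pair n12] at h4
      have h5 : 2 ≤ G.ws {d0, d1, d2} := by
        rw [hws]
        omega
      have h1 : 2 * a * 2 ≤ 2 * a * G.ws {d0, d1, d2} := Nat.mul_le_mul_left _ h5
      simp only [ws, sum_empty] at h h1
      omega
    · rw [if_neg hFh] at h
      have h1 : 2 * a * 1 ≤ 2 * a * G.ws {d0, d1, d2} := Nat.mul_le_mul_left _ hgir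
      have h3 := hp.pos
      simp only [ws, sum_empty] at h h1
      omega

/-- no two adjacent vertices of degree two -/
theorem Cx.not_adj_two (hG : Cx a b c N m o G) (hp : Par a b c N) (hP : G.P1) {d s t : ℕ}
    (e0 : G.E d s t) (hs : (G.star s).card = 2) (ht : (G.star t).card = 2) : False := by
  have hgood := hG.cls.good
  obtain ⟨d1, n01, ss⟩ := star_two hs e0.left
  obtain ⟨d2, n02, st⟩ := star_two ht e0.right
  obtain ⟨x, e1⟩ := exists_E (G := G) (v := s) (d := d1) (by rw [ss]; simp)
  obtain ⟨y, e2⟩ := exists_E (G := G) (v := t) (d := d2) (by rw [st]; simp)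
  have hsv : s ∈ G.vs := e0.memv hgood
  have htv : t ∈ G.vs := e0.symm.memv hgood
  obtain ⟨e, he, heo⟩ := hG.exists_edge
  by_cases n12 : d1 = d2
  · subst n12
    have hts : t = s ∨ t = x := e1.ends e2.left
    have htx : x = t := by
      rcases hts with h | h
      · exact absurd h.symm (e0.ne hgood)
      · exact h.symm
    subst htx
    have hcl := hP.conn.closed hgood (W := {s, x}) hsv (by simp) (by
      intro e' he'
      have h1 : e' ∈ G.star s := by
        rw [tds_insert, mem_union] at he'
        rcases he' with h | h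
        · exact h
        · rw [ss, ← st, mem_star]
          rw [mem_tds] at h
          simpa using h
      rw [ss, mem_insert, mem_singleton] at h1
      rcases h1 with rfl | rfl
      · rcases e0.2 with ⟨h2, h3⟩ | ⟨h2, h3⟩ <;> rw [h2, h3] <;> simp
      · rcases e1.2 with ⟨h2, h3⟩ | ⟨h2, h3⟩ <;> rw [h2, h3] <;> simp) e he
    have h1 : e ∈ G.star s := by
      rw [tds_insert, mem_union] at hcl
      rcases hcl with h | h
      · exact h
      · rw [ss, ← st, mem_star]
        rw [mem_tds] at h
        simpa using h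
    exact hG.no_pair hp ss st e0 ⟨e, h1, heo⟩
  · by_cases hxy : x = y
    · subst hxy
      have s0 : G.S d (G.l d) (G.r d) := exists_S d
      have hlr := hP.lr d e0.mem
      have s1 := S_deg2 hgood hsv ss n01 s0 hlr
      have s2 := S_deg2 hgood htv st n02 s0 hlr
      have hxv : x ∈ G.vs := e1.symm.memv hgood
      have hT : G.Ev {d1, d2} := by
        intro z
        rw [sum_pair n12, s1.sum, s2.sum]
        exact CharTwo.add_self_eq_zero _
      have sx : G.star x = {d1, d2} := by
        rcases hP.ncv x hxv {d1, d2} (by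
          intro d' hd'
          rw [mem_insert, mem_singleton] at hd'
          rcases hd' with rfl | rfl
          · exact e1.right
          · exact e2.right) hT with h | h
        · exact absurd h (insert_ne_empty _ _)
        · exact h.symm
      have htds : ∀ d' ∈ G.tds {s, t, x}, d' = d ∨ d' = d1 ∨ d' = d2 := by
        intro d' hd
        have h1 : d' ∈ G.star s ∨ d' ∈ G.star t ∨ d' ∈ G.star x := by
          rw [tds_insert, tds_insert, mem_union, mem_union] at hd
          rcases hd with h | h | h
          · exact Or.inl h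
          · exact Or.inr (Or.inl h)
          · refine Or.inr (Or.inr ?_)
            rw [mem_tds] at h
            rw [mem_star]
            simpa using h
        rw [ss, st, sx] at h1
        simp only [mem_insert, mem_singleton] at h1
        tauto
      have hcl' := hP.conn.closed hgood (W := {s, t, x}) hsv (by simp) (by
        intro e' he'
        rcases htds e' he' with rfl | rfl | rfl
        · rcases e0.2 with ⟨h2, h3⟩ | ⟨h2, h3⟩ <;> rw [h2, h3] <;> simp
        · rcases e1.2 with ⟨h2, h3⟩ | ⟨h2, h3⟩ <;> rw [h2, h3] <;> simp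
        · rcases e2.2 with ⟨h2, h3⟩ | ⟨h2, h3⟩ <;> rw [h2, h3] <;> simp)
      have hcl := hcl' e he
      have he' : e = d ∨ e = d1 ∨ e = d2 := htds e hcl
      have hlo : G.l d = o ∨ G.r d = o := by
        rcases he' with rfl | rfl | rfl
        · exact heo
        · rcases s1 with ⟨h1, h2⟩ | ⟨h1, h2⟩ <;> rw [h1, h2] at heo <;> tauto
        · rcases s2 with ⟨h1, h2⟩ | ⟨h1, h2⟩ <;> rw [h1, h2] at heo <;> tauto
      rcases hlo with h | h
      · rw [h] at s0 s1 s2 hlr
        exact hG.no_tri hp ss st sx e0 e1 e2 n01 n02 n12 s0 s1 s2 (Ne.symm hlr) hcl'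
      · rw [h] at s0 s1 s2 hlr
        exact hG.no_tri hp ss st sx e0 e1 e2 n01 n02 n12 s0.symm s1.symm s2.symm hlr hcl'
    · exact hG.smooth_false (e1.symm) e0 e2 (by rw [ss, pair_comm]) st n12 hxy n01 n02

/-- steps 2 and 3 -/
theorem Cx.step23 (hG : Cx a b c N m o G) (hp : Par a b c N) (hP : G.P1) : G.P2 o where
  odeg := fun v hv ht => hG.step2 hp (hP.ncv v hv) ht
  ex := by
    obtain ⟨d, hd, hdo⟩ := hG.exists_edge
    have hgood := hG.cls.good
    have hpv := (hgood.ends d hd).1
    have hqv := (hgood.ends d hd).2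
    have ep : d ∈ G.star (G.p d) := mem_star.2 ⟨hd, Or.inl rfl⟩
    have eq : d ∈ G.star (G.q d) := mem_star.2 ⟨hd, Or.inr rfl⟩
    have tp : G.Touch (G.p d) o := ⟨d, ep, hdo⟩
    have tq : G.Touch (G.q d) o := ⟨d, eq, hdo⟩
    have p2 := hP.deg _ hpv
    have q2 := hP.deg _ hqv
    have p3 := hG.step2 hp (hP.ncv _ hpv) tp
    have q3 := hG.step2 hp (hP.ncv _ hqv) tq
    by_cases h1 : (G.star (G.p d)).card = 3
    · exact ⟨_, hpv, tp, h1⟩
    · by_cases h2 : (G.star (G.q d)).card = 3
      · exact ⟨_, hqv, tq, h2⟩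
      · exact (hG.not_adj_two hp hP (d := d) (s := G.p d) (t := G.q d)
          ⟨hd, Or.inl ⟨rfl, rfl⟩⟩ (by omega) (by omega)).elim
  na := fun d s t h hs ht => hG.not_adj_two hp hP h hs ht

/-- `SpecSmooth` -/
theorem specSmooth (m : ℕ) : SpecSmooth m := fun _ _ hG _ _ _ _ _ _ _ h => hG.not_sm h

/-- `SpecStep23` -/
theorem specStep23 (m : ℕ) : SpecStep23 m := fun _ _ hG hP => hG.step23 par17 hP

end Gr

end Pool.Agent.Lib.MP06c549.T6H
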