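import Pool.Agent.Lib.MP_06c549_co.T6H.Spec
import Pool.Agent.Lib.MP_06c549_co.T6H.Step5

section
/-!
# MP_06c549_co, T6H: outer vertices of degree three and two
-/
set_option autoImplicit false

namespace Pool.Agent.Lib.MP06c549.T6H

open Finset

namespace Gr

variable {G : Gr} {o x e g e' F F' : ℕ}

lemma P1.cnt_le (hP : G.P1) (hG : G.Good) {v : ℕ} (hv : v ∈ G.vs) (i : ℕ) : G.cnt i v ≤ 2 := by
  by_cases h : G.Touch v i
  · exact (cnt_eq_two hG (hP.ncv v hv) h).le
  · have h1 : ¬ 0 < G.cnt i v := fun h2 => h (cnt_touch.1 h2)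
    omega

/-- as many faces as edges at a vertex -/
lemma P1.card_fv (hP : G.P1) (hG : G.Good) {v : ℕ} (hv : v ∈ G.vs) :
    (G.fv v).card = (G.star v).card := Gr.card_fv hG (hP.ncv v hv)

lemma S.touch {v d i j : ℕ} (h : G.S d i j) (hd : d ∈ G.star v) : G.Touch v i ∧ G.Touch v j := by
  rcases h with ⟨h1, h2⟩ | ⟨h1, h2⟩
  · exact ⟨⟨d, hd, Or.inl h1⟩, ⟨d, hd, Or.inr h2⟩⟩
  · exact ⟨⟨d, hd, Or.inr h2⟩, ⟨d, hd, Or.inl h1⟩⟩

lemma S.side {d i j k : ℕ} (h : G.S d i j) (hk : G.l d = k ∨ G.r d = k) : k = i ∨ k = j := by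
  rcases h with ⟨h1, h2⟩ | ⟨h1, h2⟩ <;> rcases hk with h3 | h3
  · exact Or.inl (h3.symm.trans h1)
  · exact Or.inr (h3.symm.trans h2)
  · exact Or.inr (h3.symm.trans h1)
  · exact Or.inl (h3.symm.trans h2)

lemma S.lr {d i j : ℕ} (h : G.S d i j) (hij : i ≠ j) : G.l d ≠ G.r d := by
  rcases h with ⟨h1, h2⟩ | ⟨h1, h2⟩
  · rw [h1, h2]; exact hij
  · rw [h1, h2]; exact hij.symm

/-- an edge with the side `o` has another side -/
lemma P1.other (hP : G.P1) {d : ℕ} (hd : d ∈ G.ds) (h : G.l d = o ∨ G.r d = o) :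
    ∃ F, F ≠ o ∧ G.S d o F := by
  have h1 := hP.lr d hd
  rcases h with h | h
  · exact ⟨G.r d, fun h2 => h1 (h.trans h2.symm), Or.inl ⟨h, rfl⟩⟩
  · exact ⟨G.l d, fun h2 => h1 (h2.trans h.symm), Or.inr ⟨rfl, h⟩⟩

namespace Cub

lemma symm (h : G.Cub o x e g e' F F') : G.Cub o x e' g e F' F where
  st := by
    rw [h.st]
    ext i
    simp only [mem_insert, mem_singleton]
    tauto
  n1 := h.n3.symm
  n2 := h.n2.symm
  n3 := h.n1.symm
  se := h.se'
  sg := h.sg.symm
  se' := h.se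
  f1 := h.f2
  f2 := h.f1
  f3 := h.f3.symm

lemma me (h : G.Cub o x e g e' F F') : e ∈ G.star x := by rw [h.st]; simp

lemma mg (h : G.Cub o x e g e' F F') : g ∈ G.star x := by rw [h.st]; simp

lemma me' (h : G.Cub o x e g e' F F') : e' ∈ G.star x := by rw [h.st]; simp

lemma card (h : G.Cub o x e g e' F F') : (G.star x).card = 3 := by
  rw [h.st, card_insert_of_notMem (by simp [h.n1, h.n2]), card_pair h.n3]

lemma tO (h : G.Cub o x e g e' F F') : G.Touch x o := (h.se.touch h.me).1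

lemma tF (h : G.Cub o x e g e' F F') : G.Touch x F := (h.se.touch h.me).2

lemma tF' (h : G.Cub o x e g e' F F') : G.Touch x F' := (h.se'.touch h.me').2

lemma mv (hG : G.Good) (h : G.Cub o x e g e' F F') : x ∈ G.vs := (touch_mem hG h.tO).1

lemma oe (h : G.Cub o x e g e' F F') {d : ℕ} (hd : d ∈ G.star x) (ho : G.l d = o ∨ G.r d = o) :
    d = e ∨ d = e' := by
  rw [h.st] at hd
  simp only [mem_insert, mem_singleton] at hd
  rcases hd with hd | hd | hd
  · exact Or.inl hd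
  · rw [hd] at ho
    rcases h.sg.side ho with h1 | h1
    · exact absurd h1.symm h.f1
    · exact absurd h1.symm h.f2
  · exact Or.inr hd

lemma touch (h : G.Cub o x e g e' F F') {i : ℕ} (hi : G.Touch x i) : i = o ∨ i = F ∨ i = F' := by
  obtain ⟨d, hd, h1⟩ := hi
  rw [h.st] at hd
  simp only [mem_insert, mem_singleton] at hd
  rcases hd with rfl | rfl | rfl
  · rcases h.se.side h1 with h2 | h2
    · exact Or.inl h2
    · exact Or.inr (Or.inl h2)
  · exact Or.inr (h.sg.side h1)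
  · rcases h.se'.side h1 with h2 | h2
    · exact Or.inl h2
    · exact Or.inr (Or.inr h2)

/-- the data at `x` are determined by the first edge -/
lemma unique (h : G.Cub o x e g e' F F') {g1 e1' F1 F1' : ℕ} (h' : G.Cub o x e g1 e1' F1 F1') :
    g1 = g ∧ e1' = e' ∧ F1 = F ∧ F1' = F' := by
  have h1 : e1' = e' := by
    rcases h.oe h'.me' (by rcases h'.se' with h2 | h2; exacts [Or.inl h2.1, Or.inr h2.2])
      with h2 | h2
    · exact absurd h2.symm h'.n2
    · exact h2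
  have h2 : g1 = g := by
    have h3 := h'.mg
    rw [h.st] at h3
    simp only [mem_insert, mem_singleton] at h3
    rcases h3 with h3 | h3 | h3
    · exact absurd h3.symm h'.n1
    · exact h3
    · exact absurd (h3.trans h1.symm) h'.n3
  refine ⟨h2, h1, h'.se.other h.se, ?_⟩
  have h3 := h'.se'
  rw [h1] at h3
  exact h3.other h.se'

end Cub

/-- a cubic outer vertex, the first outer edge given -/
theorem cub_at (hG : G.Good) (hP : G.P1) (hx : e ∈ G.star x) (he : G.S e o F) (hF : F ≠ o)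
    (h3 : (G.star x).card = 3) : ∃ g e' F', G.Cub o x e g e' F F' := by
  have hv : x ∈ G.vs := (touch_mem hG (he.touch hx).1).1
  have h4 : ((G.star x).erase e).card = 2 := by rw [card_erase_of_mem hx, h3]
  obtain ⟨d2, d3, h23, hs⟩ := card_eq_two.1 h4
  have m2 : d2 ∈ (G.star x).erase e := by rw [hs]; simp
  have m3 : d3 ∈ (G.star x).erase e := by rw [hs]; simp
  have h12 : e ≠ d2 := (mem_erase.1 m2).1.symm
  have h13 : e ≠ d3 := (mem_erase.1 m3).1.symm
  have hst : G.star x = {e, d2, d3} := by rw [← insert_erase hx, hs]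
  obtain ⟨c, hc1, hc2, h | h⟩ := S_deg3 hG hv hst h12 h13 h23 he hF.symm
    (hP.lr d2 (star_sub (mem_erase.1 m2).2)) (hP.lr d3 (star_sub (mem_erase.1 m3).2))
  · refine ⟨d3, d2, c, ?_, h13, h12, h23.symm, he, h.2, h.1, hF, hc1, hc2.symm⟩
    rw [hst]
    ext i
    simp only [mem_insert, mem_singleton]
    tauto
  · exact ⟨d2, d3, c, hst, h12, h13, h23, he, h.2, h.1, hF, hc1, hc2.symm⟩

/-- a cubic outer vertex -/
theorem exists_cub (hG : G.Good) (hP : G.P1) (hx : G.Touch x o) (h3 : (G.star x).card = 3) :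
    ∃ e g e' F F', G.Cub o x e g e' F F' := by
  obtain ⟨e, he, h⟩ := hx
  obtain ⟨F, hF, hS⟩ := hP.other (star_sub he) h
  obtain ⟨g, e', F', h1⟩ := cub_at hG hP he hS hF h3
  exact ⟨e, g, e', F, F', h1⟩

/-- an outer vertex of degree two, the first edge given -/
theorem two_at (hG : G.Good) {y : ℕ} (hy : e ∈ G.star y) (he : G.S e o F) (hF : F ≠ o)
    (h2 : (G.star y).card = 2) : ∃ e', G.Two o y e e' F := by
  have hv : y ∈ G.vs := (touch_mem hG (he.touch hy).1).1
  have h4 : ((G.star y).erase e).card = 1 := by rw [card_erase_of_mem hy, h2]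
  obtain ⟨d2, hs⟩ := card_eq_one.1 h4
  have m2 : d2 ∈ (G.star y).erase e := by rw [hs]; simp
  have h12 : e ≠ d2 := (mem_erase.1 m2).1.symm
  have hst : G.star y = {e, d2} := by rw [← insert_erase hy, hs]
  exact ⟨d2, hst, h12, he, S_deg2 hG hv hst h12 he hF.symm, hF⟩

namespace Two

variable {y : ℕ}

lemma symm (h : G.Two o y e e' F) : G.Two o y e' e F where
  st := by rw [h.st]; exact pair_comm _ _
  n := h.n.symm
  se := h.se'
  se' := h.se
  f := h.f

lemma me (h : G.Two o y e e' F) : e ∈ G.star y := by rw [h.st]; simp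

lemma me' (h : G.Two o y e e' F) : e' ∈ G.star y := by rw [h.st]; simp

lemma card (h : G.Two o y e e' F) : (G.star y).card = 2 := by rw [h.st, card_pair h.n]

lemma tO (h : G.Two o y e e' F) : G.Touch y o := (h.se.touch h.me).1

lemma tF (h : G.Two o y e e' F) : G.Touch y F := (h.se.touch h.me).2

lemma mv (hG : G.Good) (h : G.Two o y e e' F) : y ∈ G.vs := (touch_mem hG h.tO).1

end Two

/-- two different vertices with a common edge -/
lemma E_of_mem {d a b : ℕ} (ha : d ∈ G.star a) (hb : d ∈ G.star b) (hab : a ≠ b) :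
    G.E d a b := by
  obtain ⟨c, hc⟩ := exists_E ha
  rcases hc.ends hb with h | h
  · exact absurd h.symm hab
  · rw [h]; exact hc

namespace Spk

variable {b : ℕ}

lemma symm (h : G.Spk o x e g e' F F' b) : G.Spk o x e' g e F' F b :=
  ⟨h.cub.symm, h.eb, h.nb, h.db⟩

lemma bF (h : G.Spk o x e g e' F F' b) : G.Touch b F := (h.cub.sg.touch h.eb.right).1

lemma bF' (h : G.Spk o x e g e' F F' b) : G.Touch b F' := (h.cub.sg.touch h.eb.right).2

lemma ne (h : G.Spk o x e g e' F F' b) {v : ℕ} (hv : G.Touch v o) : b ≠ v := by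
  rintro rfl
  exact h.nb hv

end Spk

end Gr

end Pool.Agent.Lib.MP06c549.T6H
end

section
/-!
# MP_06c549_co, T6H: the outer cycle as functions on the integers
-/
set_option autoImplicit false

namespace Pool.Agent.Lib.MP06c549.T6H

open Finset

namespace Gr

/-- the outer cycle: vertices `x i`, edges `e i` from `x i` to `x (i + 1)`, inner edges `g i` from
`x i` to `b i`, faces `F i` at `e i` -/
structure Ring (G : Gr) (o k : ℕ) (x e g F b : ℤ → ℕ) : Prop where
  k3 : 3 ≤ k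
  spk : ∀ i, G.Spk o (x i) (e (i - 1)) (g i) (e i) (F (i - 1)) (F i) (b i)
  adj : ∀ i, G.E (e i) (x i) (x (i + 1))
  px : ∀ i, x (i + k) = x i
  pe : ∀ i, e (i + k) = e i
  pg : ∀ i, g (i + k) = g i
  pF : ∀ i, F (i + k) = F i
  pb : ∀ i, b (i + k) = b i
  ix : ∀ i j, x i = x j → (k : ℤ) ∣ j - i
  ie : ∀ i j, e i = e j → (k : ℤ) ∣ j - i
  iF : ∀ i j, F i = F j → (k : ℤ) ∣ j - i
  allx : ∀ v, G.Touch v o → ∃ i, x i = v
  alle : ∀ d ∈ G.ds, (G.l d = o ∨ G.r d = o) → ∃ i, e i = d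

variable {G : Gr} {o k : ℕ} {x e g F b : ℤ → ℕ}

lemma not_dvd_of_lt {k : ℕ} {n : ℤ} (h1 : 0 < n) (h2 : n < k) : ¬ (k : ℤ) ∣ n :=
  fun h => absurd (Int.le_of_dvd h1 h) (by omega)

namespace Ring

lemma xne (h : G.Ring o k x e g F b) {i j : ℤ} (h1 : i < j) (h2 : j < i + k) : x i ≠ x j :=
  fun h3 => not_dvd_of_lt (by omega) (by omega) (h.ix i j h3)

lemma ene (h : G.Ring o k x e g F b) {i j : ℤ} (h1 : i < j) (h2 : j < i + k) : e i ≠ e j :=
  fun h3 => not_dvd_of_lt (by omega) (by omega) (h.ie i j h3)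

lemma Fne (h : G.Ring o k x e g F b) {i j : ℤ} (h1 : i < j) (h2 : j < i + k) : F i ≠ F j :=
  fun h3 => not_dvd_of_lt (by omega) (by omega) (h.iF i j h3)

lemma se (h : G.Ring o k x e g F b) (i : ℤ) : G.S (e i) o (F i) := (h.spk i).cub.se'

lemma sg (h : G.Ring o k x e g F b) (i : ℤ) : G.S (g i) (F (i - 1)) (F i) := (h.spk i).cub.sg

lemma eg (h : G.Ring o k x e g F b) (i : ℤ) : G.E (g i) (x i) (b i) := (h.spk i).eb

lemma Fo (h : G.Ring o k x e g F b) (i : ℤ) : F i ≠ o := (h.spk i).cub.f2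

lemma tx (h : G.Ring o k x e g F b) (i : ℤ) : G.Touch (x i) o := (h.spk i).cub.tO

lemma nb (h : G.Ring o k x e g F b) (i : ℤ) : ¬ G.Touch (b i) o := (h.spk i).nb

lemma bx (h : G.Ring o k x e g F b) (i j : ℤ) : b i ≠ x j := (h.spk i).ne (h.tx j)

lemma star_x (h : G.Ring o k x e g F b) (i : ℤ) : G.star (x i) = {e (i - 1), g i, e i} :=
  (h.spk i).cub.st

/-- periodicity in the form of divisibility -/
lemma per {φ : ℤ → ℕ} (h : ∀ i, φ (i + k) = φ i) {i j : ℤ} (hd : (k : ℤ) ∣ j - i) :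
    φ i = φ j := by
  obtain ⟨c, hc⟩ := hd
  have h1 : ∀ n : ℕ, ∀ i, φ (i + k * n) = φ i := by
    intro n
    induction n with
    | zero => intro i; simp
    | succ n ih =>
      intro i
      have h2 : i + (k : ℤ) * ((n + 1 : ℕ) : ℤ) = i + k * n + k := by push_cast; ring
      rw [h2, h, ih]
  have h2 : j = i + k * c := by omega
  rcases Int.le_total 0 c with h3 | h3
  · obtain ⟨n, rfl⟩ := Int.eq_ofNat_of_zero_le h3
    rw [h2]
    exact (h1 n i).symm
  · obtain ⟨n, hn⟩ := Int.eq_ofNat_of_zero_le (a := -c) (by omega)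
    have h4 : i = j + k * n := by rw [h2, ← hn]; ring
    rw [h4]
    exact h1 n j

/-- the mirror image -/
lemma symm (h : G.Ring o k x e g F b) : G.Ring o k (fun i => x (-i)) (fun i => e (-i - 1))
    (fun i => g (-i)) (fun i => F (-i - 1)) (fun i => b (-i)) where
  k3 := h.k3
  spk := by
    intro i
    have h1 := (h.spk (-i)).symm
    have h2 : -(i - 1) - 1 = -i := by ring
    simp only [h2]
    exact h1
  adj := by
    intro i
    have h1 := (h.adj (-i - 1)).symm
    have h2 : -i - 1 + 1 = -i := by ring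
    have h3 : -(i + 1) = -i - 1 := by ring
    rw [h2] at h1
    simp only [h3]
    exact h1
  px := fun i => by
    have h1 := h.px (-(i + k))
    have h2 : -(i + (k : ℤ)) + k = -i := by ring
    rw [h2] at h1
    exact h1.symm
  pe := fun i => by
    have h1 := h.pe (-(i + k) - 1)
    have h2 : -(i + (k : ℤ)) - 1 + k = -i - 1 := by ring
    rw [h2] at h1
    exact h1.symm
  pg := fun i => by
    have h1 := h.pg (-(i + k))
    have h2 : -(i + (k : ℤ)) + k = -i := by ring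
    rw [h2] at h1
    exact h1.symm
  pF := fun i => by
    have h1 := h.pF (-(i + k) - 1)
    have h2 : -(i + (k : ℤ)) - 1 + k = -i - 1 := by ring
    rw [h2] at h1
    exact h1.symm
  pb := fun i => by
    have h1 := h.pb (-(i + k))
    have h2 : -(i + (k : ℤ)) + k = -i := by ring
    rw [h2] at h1
    exact h1.symm
  ix := fun i j hij => by
    have h1 := h.ix _ _ hij
    have h2 : -j - -i = -(j - i) := by ring
    rw [h2] at h1
    exact (dvd_neg).1 h1
  ie := fun i j hij => by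
    have h1 := h.ie _ _ hij
    have h2 : -j - 1 - (-i - 1) = -(j - i) := by ring
    rw [h2] at h1
    exact (dvd_neg).1 h1
  iF := fun i j hij => by
    have h1 := h.iF _ _ hij
    have h2 : -j - 1 - (-i - 1) = -(j - i) := by ring
    rw [h2] at h1
    exact (dvd_neg).1 h1
  allx := fun v hv => by
    obtain ⟨i, hi⟩ := h.allx v hv
    exact ⟨-i, by simpa using hi⟩
  alle := fun d hd hdo => by
    obtain ⟨i, hi⟩ := h.alle d hd hdo
    refine ⟨-i - 1, ?_⟩
    have h1 : -(-i - 1) - 1 = i := by ring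
    simp only [h1]
    exact hi

/-- shift of the numbering -/
lemma shift (h : G.Ring o k x e g F b) (n : ℤ) : G.Ring o k (fun i => x (i + n))
    (fun i => e (i + n)) (fun i => g (i + n)) (fun i => F (i + n)) (fun i => b (i + n)) where
  k3 := h.k3
  spk := by
    intro i
    have h1 := h.spk (i + n)
    have h2 : i + n - 1 = i - 1 + n := by ring
    rw [h2] at h1
    exact h1
  adj := by
    intro i
    have h1 := h.adj (i + n)
    have h2 : i + n + 1 = i + 1 + n := by ring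
    rw [h2] at h1
    exact h1
  px := fun i => by
    have h1 := h.px (i + n)
    have h2 : i + n + (k : ℤ) = i + k + n := by ring
    rw [h2] at h1
    exact h1
  pe := fun i => by
    have h1 := h.pe (i + n)
    have h2 : i + n + (k : ℤ) = i + k + n := by ring
    rw [h2] at h1
    exact h1
  pg := fun i => by
    have h1 := h.pg (i + n)
    have h2 : i + n + (k : ℤ) = i + k + n := by ring
    rw [h2] at h1
    exact h1
  pF := fun i => by
    have h1 := h.pF (i + n)
    have h2 : i + n + (k : ℤ) = i + k + n := by ring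
    rw [h2] at h1
    exact h1
  pb := fun i => by
    have h1 := h.pb (i + n)
    have h2 : i + n + (k : ℤ) = i + k + n := by ring
    rw [h2] at h1
    exact h1
  ix := fun i j hij => by
    have h1 := h.ix _ _ hij
    have h2 : j + n - (i + n) = j - i := by ring
    rwa [h2] at h1
  ie := fun i j hij => by
    have h1 := h.ie _ _ hij
    have h2 : j + n - (i + n) = j - i := by ring
    rwa [h2] at h1
  iF := fun i j hij => by
    have h1 := h.iF _ _ hij
    have h2 : j + n - (i + n) = j - i := by ring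
    rwa [h2] at h1
  allx := fun v hv => by
    obtain ⟨i, hi⟩ := h.allx v hv
    exact ⟨i - n, by simpa using hi⟩
  alle := fun d hd hdo => by
    obtain ⟨i, hi⟩ := h.alle d hd hdo
    exact ⟨i - n, by simpa using hi⟩

end Ring

/-- outer edge with a chosen end -/
def Dart (G : Gr) (o : ℕ) (s : ℕ × ℕ) : Prop := s.1 ∈ G.star s.2 ∧ ∃ F, F ≠ o ∧ G.S s.1 o F

lemma dart_finite (G : Gr) (hG : G.Good) (o : ℕ) : Finite {s : ℕ × ℕ // G.Dart o s} := by
  have h : {s : ℕ × ℕ | G.Dart o s} ⊆ ((G.ds ×ˢ G.vs : Finset (ℕ × ℕ)) : Set (ℕ × ℕ)) := by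
    rintro ⟨d, v⟩ ⟨h1, F, -, h2⟩
    rw [mem_coe, mem_product]
    exact ⟨star_sub h1, (touch_mem hG (h2.touch h1).1).1⟩
  exact (Set.Finite.subset (Finset.finite_toSet _) h).to_subtype

lemma dart_data (hG : G.Good) (h1 : G.P1) (h3 : G.P3 o)
    (hspk : ∀ x e g e' F F', G.Cub o x e g e' F F' → ∃ b, G.Spk o x e g e' F F' b)
    {s : ℕ × ℕ} (hs : G.Dart o s) :
    ∃ g e' F F' b x', G.Spk o s.2 s.1 g e' F F' b ∧ G.E e' s.2 x' := by
  obtain ⟨hm, F, hF, hS⟩ := hs
  have ht : G.Touch s.2 o := (hS.touch hm).1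
  obtain ⟨g, e', F', hc⟩ := cub_at hG h1 hm hS hF (h3.cub _ (touch_mem hG ht).1 ht)
  obtain ⟨b, hb⟩ := hspk _ _ _ _ _ _ hc
  obtain ⟨x', hx'⟩ := exists_E hb.cub.me'
  exact ⟨g, e', F, F', b, x', hb, hx'⟩

/-- the outer cycle -/
theorem exists_ring (hG : G.Good) (h1 : G.P1) (h2 : G.P2 o) (h3 : G.P3 o)
    (hspk : ∀ x e g e' F F', G.Cub o x e g e' F F' → ∃ b, G.Spk o x e g e' F F' b) :
    ∃ k x e g F b, G.Ring o k x e g F b := by
  classical
  have := dart_finite G hG o
  choose g e' F F' b x' hS hE using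
    fun s : {s : ℕ × ℕ // G.Dart o s} => dart_data hG h1 h3 hspk s.2
  let nx : {s : ℕ × ℕ // G.Dart o s} → {s : ℕ × ℕ // G.Dart o s} := fun s =>
    ⟨(e' s, x' s), (hE s).right, F' s, (hS s).cub.f2, (hS s).cub.se'⟩
  have hinj : Function.Injective nx := by
    intro s t hst
    have h4 : e' s = e' t ∧ x' s = x' t := by
      have := congrArg Subtype.val hst
      exact ⟨congrArg Prod.fst this, congrArg Prod.snd this⟩
    have h5 : s.1.2 = t.1.2 := by
      have h6 := (hE s).symm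
      rw [h4.1, h4.2] at h6
      exact h6.other hG (hE t).symm
    have h6 : s.1.1 = t.1.1 := by
      have h7 := (hS t).cub.me
      rw [← h5] at h7
      rcases (hS s).cub.oe h7 (by
        rcases (hS t).cub.se with h | h
        · exact Or.inl h.1
        · exact Or.inr h.2) with h | h
      · exact h.symm
      · rw [h4.1] at h
        exact absurd h (hS t).cub.n2
    exact Subtype.ext (Prod.ext h6 h5)
  let σ : Equiv.Perm {s : ℕ × ℕ // G.Dart o s} :=
    Equiv.ofBijective nx (Finite.injective_iff_bijective.1 hinj)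
  have hσ : ∀ s, σ s = nx s := fun s => rfl
  -- the start
  obtain ⟨v0, -, hv0, hc0⟩ := h2.ex
  obtain ⟨a1, a2, a3, a4, a5, c0⟩ := exists_cub hG h1 hv0 hc0
  let s0 : {s : ℕ × ℕ // G.Dart o s} := ⟨(a1, v0), c0.me, a4, c0.f1, c0.se⟩
  let s : ℤ → {s : ℕ × ℕ // G.Dart o s} := fun i => (σ ^ i) s0
  have hs1 : ∀ i, s (i + 1) = nx (s i) := by
    intro i
    show (σ ^ (i + 1)) s0 = nx ((σ ^ i) s0)
    rw [add_comm i 1, zpow_add, zpow_one, Equiv.Perm.mul_apply, hσ]
  -- reversal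
  let Rv : {s : ℕ × ℕ // G.Dart o s} → {s : ℕ × ℕ // G.Dart o s} → Prop := fun s t =>
    s.1.1 = t.1.1 ∧ G.E s.1.1 s.1.2 t.1.2
  have hrev : ∀ i j, Rv (s (i + 1)) (s j) → Rv (s i) (s (j + 1)) := by
    intro i j ⟨hij, hE1⟩
    rw [hs1] at hij hE1
    simp only [nx] at hij hE1
    -- `s j = (e' (s i), (s i).2)`
    have h4 : (s j).1.2 = (s i).1.2 := hE1.other hG (hE (s i)).symm
    have h5 : e' (s j) = (s i).1.1 := by
      have h7 := (hS (s j)).cub.me'
      rw [h4] at h7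
      rcases (hS (s i)).cub.oe h7 (by
        rcases (hS (s j)).cub.se' with h | h
        · exact Or.inl h.1
        · exact Or.inr h.2) with h | h
      · exact h
      · exact absurd (hij.symm.trans h.symm) (hS (s j)).cub.n2
    refine ⟨?_, ?_⟩
    · rw [hs1]
      exact h5.symm
    · rw [hs1]
      show G.E (s i).1.1 (s i).1.2 (x' (s j))
      have h6 := hE (s j)
      rw [h5, h4] at h6
      exact h6
  have hrev' : ∀ n : ℕ, ∀ i j, Rv (s (i + n)) (s j) → Rv (s i) (s (j + n)) := by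
    intro n
    induction n with
    | zero => intro i j h; simpa using h
    | succ n ih =>
      intro i j h
      have h4 : i + ((n + 1 : ℕ) : ℤ) = (i + n) + 1 := by push_cast; ring
      rw [h4] at h
      have h5 := ih i (j + 1) (hrev _ _ h)
      have h6 : j + ((n + 1 : ℕ) : ℤ) = j + 1 + n := by push_cast; ring
      rw [h6]
      exact h5
  have hrevs : ∀ a c, Rv a c → Rv c a := by
    rintro a c ⟨h4, h5⟩
    refine ⟨h4.symm, ?_⟩
    rw [← h4]
    exact h5.symm
  have hnr : ∀ i j, ¬ Rv (s i) (s j) := by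
    have h0 : ∀ i, ¬ Rv (s i) (s i) := fun i h => h.2.ne hG rfl
    have h01 : ∀ i, ¬ Rv (s (i + 1)) (s i) := by
      intro i h
      have h4 := h.1
      rw [hs1] at h4
      exact (hS (s i)).cub.n2 h4.symm
    -- the difference is nonnegative
    have key : ∀ n : ℕ, ∀ i, ¬ Rv (s (i + n)) (s i) := by
      intro n i h
      obtain ⟨t, ht | ht⟩ := Nat.even_or_odd' n
      · have h4 := hrev' t (i + t) i (by
          have h5 : i + (t : ℤ) + t = i + n := by rw [ht]; push_cast; ring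
          rw [h5]; exact h)
        exact h0 _ h4
      · have h4 := hrev' t (i + t + 1) i (by
          have h5 : i + (t : ℤ) + 1 + t = i + n := by rw [ht]; push_cast; ring
          rw [h5]; exact h)
        exact h01 _ h4
    intro i j h
    rcases Int.le_total j i with h4 | h4
    · obtain ⟨n, hn⟩ := Int.eq_ofNat_of_zero_le (a := i - j) (by omega)
      have h5 : i = j + n := by omega
      rw [h5] at h
      exact key n j h
    · obtain ⟨n, hn⟩ := Int.eq_ofNat_of_zero_le (a := j - i) (by omega)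
      have h5 : j = i + n := by omega
      rw [h5] at h
      exact key n i (hrevs _ _ h)
  -- the period
  let k : ℕ := MulAction.period σ s0
  have hdvd : ∀ i j, s i = s j ↔ (k : ℤ) ∣ j - i := by
    intro i j
    rw [← MulAction.zpow_smul_eq_iff_period_dvd]
    show (σ ^ i) s0 = (σ ^ j) s0 ↔ (σ ^ (j - i)) s0 = s0
    constructor
    · intro h
      have h4 : j - i = -i + j := by ring
      rw [h4, zpow_add, Equiv.Perm.mul_apply, ← h, ← Equiv.Perm.mul_apply, ← zpow_add]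
      simp
    · intro h
      have h4 : j = i + (j - i) := by ring
      rw [h4, zpow_add, Equiv.Perm.mul_apply, h]
  have hkper : ∀ i, s (i + k) = s i := fun i => ((hdvd i (i + k)).2 (by simp)).symm
  have hkpos : 0 < k := by
    have h4 : MulAction.period σ s0 = Function.minimalPeriod (fun x => σ • x) s0 :=
      MulAction.period_eq_minimalPeriod
    have h5 : s0 ∈ Function.periodicPts (fun x => σ • x) :=
      Function.Injective.mem_periodicPts (fun a c h => σ.injective h) s0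
    show 0 < MulAction.period σ s0
    rw [h4]
    exact Function.minimalPeriod_pos_of_mem_periodicPts h5
  -- the first edge at `s i`
  have hix : ∀ i j, (s i).1.2 = (s j).1.2 → s i = s j := by
    intro i j hij
    have h7 := (hS (s j)).cub.me
    rw [← hij] at h7
    rcases (hS (s i)).cub.oe h7 (by
      rcases (hS (s j)).cub.se with h | h
      · exact Or.inl h.1
      · exact Or.inr h.2) with h | h
    · exact Subtype.ext (Prod.ext h.symm hij)
    · exfalso
      refine hnr (i + 1) j ?_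
      rw [hs1]
      refine ⟨h.symm, ?_⟩
      show G.E (e' (s i)) (x' (s i)) (s j).1.2
      rw [← hij]
      exact (hE (s i)).symm
  have hprev : ∀ i, G.E (s (i + 1)).1.1 (s i).1.2 (s (i + 1)).1.2 := by
    intro i
    rw [hs1]
    exact hE (s i)
  have hk3 : 3 ≤ k := by
    by_contra hk
    have h4 : k = 1 ∨ k = 2 := by omega
    rcases h4 with h4 | h4
    · have h5 := hprev 0
      have h6 := hkper 0
      rw [h4] at h6
      push_cast at h6
      have h7 : G.E (s (0 + 1)).1.1 (s (0 + 1)).1.2 (s (0 + 1)).1.2 := by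
        have h9 : s (0 + 1) = s 0 := h6
        have h8 : (s 0).1.2 = (s (0 + 1)).1.2 := by rw [h9]
        rw [h8] at h5
        exact h5
      exact h7.ne hG rfl
    · have h6 := hkper 0
      rw [h4] at h6
      have h5 := hprev 0
      have h7 := hprev 1
      have h8 : (1 : ℤ) + 1 = 0 + ((2 : ℕ) : ℤ) := by norm_num
      rw [h8, h6] at h7
      simp only [zero_add] at h5
      have h9 : (s 0).1.1 ≠ (s 1).1.1 := by
        have h10 := hs1 0
        simp only [zero_add] at h10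
        rw [h10]
        exact (hS (s 0)).cub.n2
      refine h3.par (s 0).1.1 (s 1).1.1 (s 0).1.2 (s 1).1.2 h9 h7.symm h5 ?_ ?_
      · rcases (hS (s 0)).cub.se with h | h
        · exact Or.inl h.1
        · exact Or.inr h.2
      · rcases (hS (s 1)).cub.se with h | h
        · exact Or.inl h.1
        · exact Or.inr h.2
  have hie : ∀ i j, (s (i + 1)).1.1 = (s (j + 1)).1.1 → s i = s j := by
    intro i j hij
    have h4 := hprev i
    have h5 := hprev j
    rw [← hij] at h5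
    rcases h4.ends h5.left with h6 | h6
    · exact (hix _ _ h6).symm
    · rcases h4.ends h5.right with h7 | h7
      · exfalso
        have h8 := (hdvd _ _).1 (hix _ _ h6)
        have h9 := (hdvd _ _).1 (hix _ _ h7)
        have h10 : (k : ℤ) ∣ 2 := by
          have := dvd_sub h8 h9
          have h11 : i + 1 - j - (i - (j + 1)) = 2 := by ring
          rwa [h11] at this
        have := Int.le_of_dvd (by norm_num) h10
        omega
      · have h8 := (hdvd _ _).1 (hix _ _ h7)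
        refine (hdvd _ _).2 ?_
        have h9 : j - i = -(i + 1 - (j + 1)) := by ring
        rw [h9]
        exact (dvd_neg).2 h8
  have hFF : ∀ i, F' (s i) = F (s (i + 1)) := by
    intro i
    have h4 := (hS (s (i + 1))).cub.se
    have h5 := (hS (s i)).cub.se'
    have h6 : (s (i + 1)).1.1 = e' (s i) := by rw [hs1]
    rw [h6] at h4
    exact h5.other h4
  have hm : ∀ i : ℤ, i - 1 + 1 = i := fun i => by ring
  have hall : ∀ v, G.Touch v o → ∃ i, (s i).1.2 = v := by
    intro v hv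
    have h4 := (h1.bc o).vert (f := fun w => if ∃ i, (s i).1.2 = w then 1 else 0) (by
      have hcl : ∀ d c c', G.E d c c' → (G.l d = o ∨ G.r d = o) → (∃ i, (s i).1.2 = c) →
          ∃ i, (s i).1.2 = c' := by
        rintro d c c' hd hdo ⟨i, rfl⟩
        rcases (hS (s i)).cub.oe hd.left hdo with h | h
        · refine ⟨i - 1, ?_⟩
          have h5 := hprev (i - 1)
          rw [hm] at h5
          rw [h] at hd
          exact (h5.symm.other hG hd)
        · refine ⟨i + 1, ?_⟩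
          have h5 := hprev i
          have h6 : (s (i + 1)).1.1 = e' (s i) := by rw [hs1]
          rw [h6, ← h] at h5
          exact h5.other hG hd
      intro d hd hdo
      have h5 : (∃ i, (s i).1.2 = G.p d) ↔ ∃ i, (s i).1.2 = G.q d :=
        ⟨hcl d _ _ ⟨hd, Or.inl ⟨rfl, rfl⟩⟩ hdo, hcl d _ _ ⟨hd, Or.inr ⟨rfl, rfl⟩⟩ hdo⟩
      simp only [h5]) hv (hS (s 0)).cub.tO
    by_contra hcon
    simp only [if_neg hcon] at h4
    rw [if_pos ⟨0, rfl⟩] at h4
    exact zero_ne_one h4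
  refine ⟨k, fun i => (s i).1.2, fun i => (s (i + 1)).1.1, fun i => g (s i),
    fun i => F (s (i + 1)), fun i => b (s i), ?_⟩
  have hpk : ∀ i : ℤ, s (i + k + 1) = s (i + 1) := by
    intro i
    have h4 : i + (k : ℤ) + 1 = i + 1 + k := by ring
    rw [h4, hkper]
  refine ⟨hk3, ?_, ?_, ?_, ?_, ?_, ?_, ?_, ?_, ?_, ?_, ?_, ?_⟩
  · intro i
    have h4 := hS (s i)
    rw [hFF] at h4
    simp only [hm]
    have h5 : (s (i + 1)).1.1 = e' (s i) := by rw [hs1]
    rw [h5]
    exact h4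
  · intro i
    exact hprev i
  · intro i; simp only [hkper]
  · intro i; simp only [hpk]
  · intro i; simp only [hkper]
  · intro i; simp only [hpk]
  · intro i; simp only [hkper]
  · intro i j hij; exact (hdvd _ _).1 (hix _ _ hij)
  · intro i j hij; exact (hdvd _ _).1 (hie _ _ hij)
  · intro i j hij
    have h4 := (hS (s (i + 1))).cub.se
    have h5 := (hS (s (j + 1))).cub.se
    have h6 : F (s (i + 1)) = F (s (j + 1)) := hij
    rw [← h6] at h5
    exact (hdvd _ _).1 (hie _ _ (h3.uniq _ (star_sub (hS (s (i + 1))).cub.me)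
      _ (star_sub (hS (s (j + 1))).cub.me) _ (hS (s (i + 1))).cub.f1 h4 h5))
  · exact hall
  · intro d hd hdo
    obtain ⟨F1, hF1, hSd⟩ := h1.other hd hdo
    have hp : d ∈ G.star (G.p d) := mem_star.2 ⟨hd, Or.inl rfl⟩
    obtain ⟨i, hi⟩ := hall _ (hSd.touch hp).1
    rw [← hi] at hp
    rcases (hS (s i)).cub.oe hp hdo with h | h
    · refine ⟨i - 1, ?_⟩
      simp only [hm]
      exact h.symm
    · refine ⟨i, ?_⟩
      have h5 : (s (i + 1)).1.1 = e' (s i) := by rw [hs1]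
      rw [h5]
      exact h.symm

end Gr

end Pool.Agent.Lib.MP06c549.T6H
end

section
/-!
# MP_06c549_co, T6H: the moves S and T, the inner neighbour of an outer vertex, outer triangles
-/
set_option autoImplicit false

namespace Pool.Agent.Lib.MP06c549.T6H

open Finset

namespace Gr

variable {G : Gr} {o m : ℕ}

namespace S7a

lemma touch_left {d a b i j : ℕ} (h' : G.S d i j) (h : G.E d a b) : G.Touch a i :=
  (h'.touch h.left).1

lemma touch_right {d a b i j : ℕ} (h' : G.S d i j) (h : G.E d a b) : G.Touch a j :=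
  (h'.touch h.left).2

lemma end_mem {d a b : ℕ} {X Y : Finset ℕ} (h : G.E d a b) (hb : b ∈ X) :
    G.p d ∈ X ∨ G.q d ∈ X ∨ G.l d ∈ Y ∨ G.r d ∈ Y := by
  rcases h.2 with h1 | h1
  · right; left; rw [h1.2]; exact hb
  · left; rw [h1.1]; exact hb

lemma side_mem' {d i j : ℕ} {Y : Finset ℕ} (h : G.S d i j) (hj : j ∈ Y) :
    G.l d ∈ Y ∨ G.r d ∈ Y := by
  rcases h with h1 | h1
  · right; rw [h1.2]; exact hj
  · left; rw [h1.1]; exact hj

lemma side_mem {d i j : ℕ} {X Y : Finset ℕ} (h : G.S d i j) (hj : j ∈ Y) :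
    G.p d ∈ X ∨ G.q d ∈ X ∨ G.l d ∈ Y ∨ G.r d ∈ Y :=
  Or.inr (Or.inr (side_mem' h hj))

lemma mem_tf_touch {W : Finset ℕ} {v i : ℕ} (hv : v ∈ W) (h : G.Touch v i) : i ∈ G.tf W := by
  obtain ⟨d, hd, h⟩ := h
  exact mem_tf.2 ⟨d, star_sub_tds hv hd, h⟩

/-- a cover of the edges at `W` is checked at the vertices of `W` outside `X` -/
lemma cover_of {W X Y : Finset ℕ}
    (h : ∀ v ∈ W, v ∉ X → ∀ d ∈ G.star v, G.p d ∈ X ∨ G.q d ∈ X ∨ G.l d ∈ Y ∨ G.r d ∈ Y) :
    ∀ d ∈ G.tds W, G.p d ∈ X ∨ G.q d ∈ X ∨ G.l d ∈ Y ∨ G.r d ∈ Y := by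
  intro d hd
  rw [mem_tds] at hd
  have key : ∀ v ∈ W, d ∈ G.star v → G.p d ∈ X ∨ G.q d ∈ X ∨ G.l d ∈ Y ∨ G.r d ∈ Y := by
    intro v hv hdv
    by_cases hvX : v ∈ X
    · rcases (mem_star.1 hdv).2 with h1 | h1
      · left; rw [h1]; exact hvX
      · right; left; rw [h1]; exact hvX
    · exact h v hv hvX d hdv
  rcases hd.2 with h1 | h1
  · exact key _ h1 (mem_star.2 ⟨hd.1, Or.inl rfl⟩)
  · exact key _ h1 (mem_star.2 ⟨hd.1, Or.inr rfl⟩)

/-- a triangle has an edge of positive weight -/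
lemma triangle (hG : G.Good) (hg : G.Girth) {d₁ d₂ d₃ a b c : ℕ} (h₁ : G.E d₁ a b)
    (h₂ : G.E d₂ b c) (h₃ : G.E d₃ c a) : 1 ≤ G.w d₁ + G.w d₂ + G.w d₃ := by
  obtain ⟨h, h12, h13, h23⟩ := evenSet_triangle h₁ h₂ h₃ (h₁.ne hG) (h₂.ne hG) (h₃.ne hG)
  have key := hg {d₁, d₂, d₃} (by
      intro d hd
      simp only [mem_insert, mem_singleton] at hd
      rcases hd with rfl | rfl | rfl
      · exact h₁.1
      · exact h₂.1
      · exact h₃.1) h ⟨d₁, mem_insert_self _ _⟩
  rw [sum_insert (by simp [h12, h13]), sum_insert (by simp [h23]), sum_singleton] at key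
  omega

lemma card3 {a b c : ℕ} (ab : a ≠ b) (ac : a ≠ c) (bc : b ≠ c) :
    ({a, b, c} : Finset ℕ).card = 3 := by
  rw [card_insert_of_notMem (by simp [ab, ac]), card_pair bc]

lemma card4 {a b c d : ℕ} (ab : a ≠ b) (ac : a ≠ c) (ad : a ≠ d) (bc : b ≠ c) (bd : b ≠ d)
    (cd : c ≠ d) : ({a, b, c, d} : Finset ℕ).card = 4 := by
  rw [card_insert_of_notMem (by simp [ab, ac, ad]), card3 bc bd cd]

lemma card5 {a b c d e : ℕ} (ab : a ≠ b) (ac : a ≠ c) (ad : a ≠ d) (ae : a ≠ e) (bc : b ≠ c)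
    (bd : b ≠ d) (be : b ≠ e) (cd : c ≠ d) (ce : c ≠ e) (de : d ≠ e) :
    ({a, b, c, d, e} : Finset ℕ).card = 5 := by
  rw [card_insert_of_notMem (by simp [ab, ac, ad, ae]), card4 bc bd be cd ce de]

lemma fin1 {w z n : ℕ} (h : 9 * 3 + 3 * 3 + (2 * 9 - 17) * z + 2 * 9 * w < 17 * (1 + n))
    (hw : 1 ≤ w) (hn : n = 2 ∨ n = 3 ∧ 2 ≤ w) : False := by
  rcases hn with rfl | ⟨rfl, h1⟩ <;> omega

lemma fin2 {n w z k : ℕ} (h : 9 * 4 + 3 * 5 + (2 * 9 - 17) * z + 2 * 9 * w < 17 * (n + k))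
    (hn : n ≤ 2) (hk : k = 2 ∧ 1 ≤ w ∨ k = 3 ∧ 2 ≤ w) : False := by
  rcases hk with ⟨rfl, h1⟩ | ⟨rfl, h1⟩ <;> omega

lemma fin3 {n : ℕ} (h : 9 * 4 + 3 * 5 < 17 * (n + 0)) (hn : n ≤ 3) : False := by omega

lemma fin4 {n k l : ℕ} (h : 9 * 4 + 3 * k + 6 * l < 17 * (n + 0)) (hn : n ≤ 3)
    (hk : k + l = 4) (hl : 0 < l) : False := by omega

lemma fin5 {n : ℕ} (h : 9 * 3 + 3 * 3 < 17 * (n + 0)) (hn : n ≤ 2) : False := by omega

/-- the edges of a face which is a triangle with one outer edge -/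
lemma tri_face (hG : G.Good) {e f e' g g' x x' z F₁ F F₂ : ℕ} (hx : G.Cub o x e g f F₁ F)
    (hx' : G.Cub o x' f g' e' F F₂) (hf : G.E f x x') (hz : G.E g x z) (hz' : G.E g' x' z)
    (hF : F ∉ G.us) {d : ℕ} (hd : d ∈ G.ds) (hdF : G.l d = F ∨ G.r d = F) :
    d = f ∨ d = g ∨ d = g' := by
  classical
  have hFf : F ∈ G.fs := hx'.se.symm.mem_left hG hf.1
  have hxx : x ≠ x' := hf.ne hG
  have hgg : g ≠ g' := by
    rintro rfl
    exact hxx (hz.symm.other hG hz'.symm)
  have no : ∀ {k i j : ℕ}, G.S k i j → i ≠ F → j ≠ F → ¬ (G.l k = F ∨ G.r k = F) := by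
    intro k i j h h1 h2
    unfold S at h
    omega
  have at1 : ∀ k ∈ G.star x, (G.l k = F ∨ G.r k = F) → k = f ∨ k = g ∨ k = g' := by
    intro k hk hkF
    rw [hx.st, mem_insert, mem_insert, mem_singleton] at hk
    rcases hk with rfl | rfl | rfl
    · exact absurd hkF (no hx.se hx.f2.symm hx.f3)
    · exact Or.inr (Or.inl rfl)
    · exact Or.inl rfl
  have at2 : ∀ k ∈ G.star x', (G.l k = F ∨ G.r k = F) → k = f ∨ k = g ∨ k = g' := by
    intro k hk hkF
    rw [hx'.st, mem_insert, mem_insert, mem_singleton] at hk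
    rcases hk with rfl | rfl | rfl
    · exact Or.inl rfl
    · exact Or.inr (Or.inr rfl)
    · exact absurd hkF (no hx'.se' hx'.f1.symm hx'.f3.symm)
  have sg : G.l g = F ∨ G.r g = F := by
    have h1 := hx.sg
    unfold S at h1
    omega
  have sg' : G.l g' = F ∨ G.r g' = F := by
    have h1 := hx'.sg
    unfold S at h1
    omega
  have at3 : ∀ k ∈ G.star z, (G.l k = F ∨ G.r k = F) → k = f ∨ k = g ∨ k = g' := by
    intro k hk hkF
    by_contra hcon
    push Not at hcon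
    have h1 := card_le_cnt (v := z) (i := F) (T := {k, g, g'}) (by
      intro e he
      rw [mem_insert, mem_insert, mem_singleton] at he
      rcases he with rfl | rfl | rfl
      · exact ⟨hk, hkF⟩
      · exact ⟨hz.right, sg⟩
      · exact ⟨hz'.right, sg'⟩)
    rw [card3 hcon.2.1 hcon.2.2 hgg] at h1
    have h2 := hG.simp z (hz.symm.memv hG) F hFf hF
    omega
  have ends : ∀ k, k = f ∨ k = g ∨ k = g' →
      G.p k ∈ ({x, x', z} : Finset ℕ) ∧ G.q k ∈ ({x, x', z} : Finset ℕ) := by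
    intro k hk
    simp only [mem_insert, mem_singleton]
    rcases hk with rfl | rfl | rfl
    · rcases hf.2 with h1 | h1 <;> omega
    · rcases hz.2 with h1 | h1 <;> omega
    · rcases hz'.2 with h1 | h1 <;> omega
  have any : ∀ v ∈ ({x, x', z} : Finset ℕ), ∀ k ∈ G.star v, (G.l k = F ∨ G.r k = F) →
      k = f ∨ k = g ∨ k = g' := by
    intro v hv
    simp only [mem_insert, mem_singleton] at hv
    rcases hv with rfl | rfl | rfl
    · exact at1
    · exact at2
    · exact at3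
  have h1 := one_side (G := G) (A := {x, x', z}) (z := F) (hG.bc hFf hF) (by
    intro k hk hkF
    constructor
    · intro h2
      exact (ends k (any _ h2 k (mem_star.2 ⟨hk, Or.inl rfl⟩) hkF)).2
    · intro h2
      exact (ends k (any _ h2 k (mem_star.2 ⟨hk, Or.inr rfl⟩) hkF)).1)
  rcases h1 with h1 | h1
  · have h2 := h1 (G.p d) ⟨d, mem_star.2 ⟨hd, Or.inl rfl⟩, hdF⟩
    exact any _ h2 d (mem_star.2 ⟨hd, Or.inl rfl⟩) hdF
  · exact absurd (mem_insert_self _ _) (h1 x ⟨g, hz.left, sg⟩)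

/-- the weight of a triangle with one outer edge, `2` for the faces of price three -/
lemma tri_weight (hG : G.Cls o m) {e f e' g g' x x' z F₁ F F₂ : ℕ} (hx : G.Cub o x e g f F₁ F)
    (hx' : G.Cub o x' f g' e' F F₂) (hf : G.E f x x') (hz : G.E g x z) (hz' : G.E g' x' z)
    (hF : F ∉ G.us) :
    (G.fpr {F} = 2 ∧ 1 ≤ G.w f + G.w g' + G.w g) ∨ (G.fpr {F} = 3 ∧ 2 ≤ G.w f + G.w g' + G.w g) := by
  classical
  have w1 := triangle hG.good hG.girth hf hz' hz.symm
  rw [fpr_singleton]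
  by_cases h : F ∈ G.hs
  · right
    rw [if_pos h]
    refine ⟨rfl, ?_⟩
    have h1 := hG.hlen F h
    have h2 : G.ds.filter (fun d => G.l d = F ∨ G.r d = F) ⊆ {f, g, g'} := by
      intro d hd
      rw [mem_filter] at hd
      rw [mem_insert, mem_insert, mem_singleton]
      exact tri_face hG.good hx hx' hf hz hz' hF hd.1 hd.2
    have h3 := sum_le_sum_of_subset (f := fun d => 1 + 2 * G.w d) h2
    have hxx : x ≠ x' := hf.ne hG.good
    have hgg : g ≠ g' := by
      rintro rfl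
      exact hxx (hz.symm.other hG.good hz'.symm)
    rw [sum_insert (by simp [hx.n3.symm, hx'.n1]), sum_insert (by simp [hgg]),
      sum_singleton] at h3
    omega
  · left
    rw [if_neg h]
    exact ⟨rfl, w1⟩

end S7a

open S7a

/-- the move `S` -/
theorem spec_S (m : ℕ) : SpecS m := by
  intro o G hG _ _ _ x0 x1 x2 e0 e1 e2 e3 g0 g1 g2 F0 F1 F2 F3 b0 b1 b2 h0 h1 h2 a1 a2 n02
    f02 f13 f03
  have hgood := hG.cls.good
  have n01 : x0 ≠ x1 := a1.ne hgood
  have n12 : x1 ≠ x2 := a2.ne hgood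
  have t0 : G.Touch x0 o := h0.cub.tO
  have t1 : G.Touch x1 o := h1.cub.tO
  have t2 : G.Touch x2 o := h2.cub.tO
  have v0 := h0.cub.mv hgood
  have v1 := h1.cub.mv hgood
  have v2 := h2.cub.mv hgood
  have vb := h1.eb.symm.memv hgood
  have b0' : b1 ≠ x0 := h1.ne t0
  have b1' : b1 ≠ x1 := h1.ne t1
  have b2' : b1 ≠ x2 := h1.ne t2
  have hWv : ({x1, x0, x2, b1} : Finset ℕ) ⊆ G.vs := by
    intro v hv
    simp only [mem_insert, mem_singleton] at hv
    rcases hv with rfl | rfl | rfl | rfl <;> assumption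
  have hXv : ({x0, x2, b1} : Finset ℕ) ⊆ G.vs := by
    intro v hv
    simp only [mem_insert, mem_singleton] at hv
    rcases hv with rfl | rfl | rfl <;> assumption
  have hFC : G.FC {x1, x0, x2, b1} o := by
    have e1 : ({x1, x0, x2, b1} : Finset ℕ) = insert b1 {x1, x0, x2} := by
      ext v; simp only [mem_insert, mem_singleton]; tauto
    rw [e1]
    refine FC.insert_adj hgood ?_ (w := x1) (by simp) ⟨g1, h1.eb.symm⟩
    exact ((FC_singleton hgood v2 t2).insert_out hgood v0 t0).insert_out hgood v1 t1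
  have hcov : ∀ d ∈ G.tds {x1, x0, x2, b1}, G.p d ∈ ({x0, x2, b1} : Finset ℕ) ∨
      G.q d ∈ ({x0, x2, b1} : Finset ℕ) ∨ G.l d ∈ (∅ : Finset ℕ) ∨ G.r d ∈ (∅ : Finset ℕ) :=
    cover_of (by
      intro v hv hvX d hd
      simp only [mem_insert, mem_singleton] at hv hvX
      have hv' : v = x1 := by tauto
      subst hv'
      rw [h1.cub.st] at hd
      simp only [mem_insert, mem_singleton] at hd
      rcases hd with rfl | rfl | rfl
      · exact end_mem a1.symm (by simp)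
      · exact end_mem h1.eb (by simp)
      · exact end_mem a2 (by simp))
  have c1 : ({x1, x0, x2, b1} : Finset ℕ).card = 4 :=
    card4 n01.symm n12 b1'.symm n02 b0'.symm b2'.symm
  have c2 : ({x0, x2, b1} : Finset ℕ).card ≤ 3 := card_le_three
  have s0 : F0 ∈ G.tf {x1, x0, x2, b1} := mem_tf_touch (v := x0) (by simp) h0.cub.tF
  have s1 : F1 ∈ G.tf {x1, x0, x2, b1} := mem_tf_touch (v := x1) (by simp) h1.cub.tF
  have s2 : F2 ∈ G.tf {x1, x0, x2, b1} := mem_tf_touch (v := x1) (by simp) h1.cub.tF'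
  have s3 : F3 ∈ G.tf {x1, x0, x2, b1} := mem_tf_touch (v := x2) (by simp) h2.cub.tF'
  have o0 := h0.cub.f1
  have o1 := h1.cub.f1
  have o2 := h1.cub.f2
  have o3 := h2.cub.f2
  have f01 := h0.cub.f3
  have f12 := h1.cub.f3
  have f23 := h2.cub.f3
  -- a fifth face gives a contradiction
  have five : ∀ i, i ≠ o → i ∈ G.tf {x1, x0, x2, b1} → i = F0 ∨ i = F1 ∨ i = F2 ∨ i = F3 := by
    intro i hio hi
    by_contra hcon
    push Not at hcon
    have key := hG.move (by norm_num) (by norm_num) hWv ⟨x1, mem_insert_self _ _⟩ hFC hXv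
      (empty_subset _) (B := {i, F0, F1, F2, F3}) (by
        intro j hj
        simp only [mem_insert, mem_singleton] at hj
        rw [mem_erase]
        rcases hj with rfl | rfl | rfl | rfl | rfl
        · exact ⟨hio, hi⟩
        · exact ⟨o0, s0⟩
        · exact ⟨o1, s1⟩
        · exact ⟨o2, s2⟩
        · exact ⟨o3, s3⟩) hcov
    have hc : ({i, F0, F1, F2, F3} : Finset ℕ).card = 5 :=
      card5 hcon.1 hcon.2.1 hcon.2.2.1 hcon.2.2.2 f01 f02 f03 f12 f13 f23
    rw [fpr_empty, c1, hc] at key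
    exact fin3 key c2
  -- an unusable face gives a contradiction
  have unus : ∀ i ∈ ({F0, F1, F2, F3} : Finset ℕ), i ∉ G.us := by
    intro i hi4 hi
    have key := hG.move_c (by norm_num) hWv ⟨x1, mem_insert_self _ _⟩ hFC hXv
      (empty_subset _) (B := ({F0, F1, F2, F3} : Finset ℕ) \ G.us)
      (B' := ({F0, F1, F2, F3} : Finset ℕ) ∩ G.us) (by
        intro j hj
        rw [mem_sdiff] at hj ⊢
        refine ⟨?_, hj.2⟩
        have hj' := hj.1
        simp only [mem_insert, mem_singleton] at hj'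
        rcases hj' with rfl | rfl | rfl | rfl <;> assumption) (by
        intro j hj
        rw [mem_inter] at hj
        rw [mem_erase, mem_inter]
        have hj' := hj.1
        simp only [mem_insert, mem_singleton] at hj'
        rcases hj' with rfl | rfl | rfl | rfl
        · exact ⟨o0, s0, hj.2⟩
        · exact ⟨o1, s1, hj.2⟩
        · exact ⟨o2, s2, hj.2⟩
        · exact ⟨o3, s3, hj.2⟩) hcov
    have hc : ({F0, F1, F2, F3} : Finset ℕ).card = 4 := card4 f01 f02 f03 f12 f13 f23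
    have hc1 := card_sdiff_add_card_inter ({F0, F1, F2, F3} : Finset ℕ) G.us
    have hc2 : 0 < (({F0, F1, F2, F3} : Finset ℕ) ∩ G.us).card :=
      card_pos.2 ⟨i, mem_inter.2 ⟨hi4, hi⟩⟩
    rw [hc] at hc1
    rw [fpr_empty, c1] at key
    exact fin4 key c2 hc1 hc2
  refine ⟨⟨unus _ (by simp), unus _ (by simp), unus _ (by simp), unus _ (by simp)⟩,
    fun i hi => ?_⟩
  refine five i ?_ (mem_tf_touch (v := b1) (by simp) hi)
  rintro rfl
  exact h1.nb hi

/-- the move `T` -/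
theorem spec_T (m : ℕ) : SpecT m := by
  intro o G hG _ _ _ x0 x1 x2 x3 e0 e1 e2 e3 e4 g0 g1 g2 g3 F0 F1 F2 F3 F4 b0 z b3 h0 h1 h2 h3
    a1 a2 a3 n01 n02 n03 n12 n13 n23 f02 f03 f04 f13 f14 f24 _ hF2 _
  have hgood := hG.cls.good
  have t0 : G.Touch x0 o := h0.cub.tO
  have t1 : G.Touch x1 o := h1.cub.tO
  have t2 : G.Touch x2 o := h2.cub.tO
  have t3 : G.Touch x3 o := h3.cub.tO
  have v0 := h0.cub.mv hgood
  have v1 := h1.cub.mv hgood
  have v2 := h2.cub.mv hgood
  have v3 := h3.cub.mv hgood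
  have f01 := h0.cub.f3
  have f12 := h1.cub.f3
  have f23 := h2.cub.f3
  have f34 := h3.cub.f3
  have hF : F2 ∈ G.fs \ G.us :=
    mem_sdiff.2 ⟨h1.cub.se'.symm.mem_left hgood a2.1, hF2⟩
  have w1 := tri_weight hG.cls h1.cub h2.cub a2 h1.eb h2.eb hF2
  have q1 : e2 ≠ g2 := h2.cub.n1
  have q2 : e2 ≠ g1 := h1.cub.n3.symm
  have q3 : g2 ≠ g1 := by
    rintro rfl
    exact n12 (h1.eb.symm.other hgood h2.eb.symm)
  have key := hG.move_w (by norm_num) (by norm_num) (W := {x0, x1, x2, x3}) (X₀ := {x0, x3})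
    (Y₀ := {F2}) (B := {F0, F1, F2, F3, F4}) (D := ∅) (D' := {e2, g2, g1}) (by
      intro v hv
      simp only [mem_insert, mem_singleton] at hv
      rcases hv with rfl | rfl | rfl | rfl <;> assumption)
    ⟨x0, mem_insert_self _ _⟩
    ((((FC_singleton hgood v3 t3).insert_out hgood v2 t2).insert_out hgood v1 t1).insert_out
      hgood v0 t0) (by
      intro v hv
      simp only [mem_insert, mem_singleton] at hv
      rcases hv with rfl | rfl <;> assumption)
    (singleton_subset_iff.2 hF) (by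
      intro j hj
      simp only [mem_insert, mem_singleton] at hj
      rw [mem_erase]
      rcases hj with rfl | rfl | rfl | rfl | rfl
      · exact ⟨h0.cub.f1, mem_tf_touch (v := x0) (by simp) h0.cub.tF⟩
      · exact ⟨h1.cub.f1, mem_tf_touch (v := x1) (by simp) h1.cub.tF⟩
      · exact ⟨h1.cub.f2, mem_tf_touch (v := x1) (by simp) h1.cub.tF'⟩
      · exact ⟨h2.cub.f2, mem_tf_touch (v := x2) (by simp) h2.cub.tF'⟩
      · exact ⟨h3.cub.f2, mem_tf_touch (v := x3) (by simp) h3.cub.tF'⟩)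
    (cover_of (by
      intro v hv hvX d hd
      simp only [mem_insert, mem_singleton] at hv hvX
      have hv' : v = x1 ∨ v = x2 := by tauto
      rcases hv' with rfl | rfl
      · rw [h1.cub.st] at hd
        simp only [mem_insert, mem_singleton] at hd
        rcases hd with rfl | rfl | rfl
        · exact end_mem a1.symm (by simp)
        · exact side_mem h1.cub.sg (by simp)
        · exact side_mem h1.cub.se' (by simp)
      · rw [h2.cub.st] at hd
        simp only [mem_insert, mem_singleton] at hd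
        rcases hd with rfl | rfl | rfl
        · exact side_mem h2.cub.se (by simp)
        · exact side_mem h2.cub.sg.symm (by simp)
        · exact end_mem a3 (by simp)))
    (empty_subset _) (by
      intro d hd
      simp only [mem_insert, mem_singleton] at hd
      rcases hd with rfl | rfl | rfl
      · exact star_sub_tds (v := x1) (by simp) a2.left
      · exact star_sub_tds (v := x2) (by simp) h2.eb.left
      · exact star_sub_tds (v := x1) (by simp) h1.eb.left)
    (disjoint_empty_left _) (by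
      intro d hd
      simp only [mem_insert, mem_singleton] at hd
      rcases hd with rfl | rfl | rfl
      · exact side_mem' h2.cub.se (by simp)
      · exact side_mem' h2.cub.sg.symm (by simp)
      · exact side_mem' h1.cub.sg (by simp))
  have c1 : ({x0, x1, x2, x3} : Finset ℕ).card = 4 := card4 n01 n02 n03 n12 n13 n23
  have c2 : ({x0, x3} : Finset ℕ).card ≤ 2 := card_le_two
  have hc : ({F0, F1, F2, F3, F4} : Finset ℕ).card = 5 :=
    card5 f01 f02 f03 f04 f12 f13 f14 f23 f24 f34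
  have hw : G.ws {e2, g2, g1} = G.w e2 + G.w g2 + G.w g1 := by
    unfold ws
    rw [sum_insert (by simp [q1, q2]), sum_insert (by simp [q3]), sum_singleton, add_assoc]
  rw [c1, hc, hw] at key
  exact fin2 key c2 w1

/-- the outer triangle is weighted -/
theorem spec_TriW (m : ℕ) : SpecTriW m := by
  intro o G hG x0 x1 x2 e0 e1 e2 g0 g1 g2 F0 F1 F2 h
  exact triangle hG.cls.good hG.cls.girth h.a0 h.a1 h.a2

/-- the face at a weighted edge of an outer triangle is not usable, or it has price three and the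
edge has weight one -/
theorem buy (hG : Min m o G) {x0 x1 x2 e0 e1 e2 g0 g1 g2 F0 F1 F2 : ℕ}
    (h : G.Tri o x0 x1 x2 e0 e1 e2 g0 g1 g2 F0 F1 F2) (hw : 1 ≤ G.w e0) (hF : F0 ∉ G.us) :
    F0 ∈ G.hs ∧ G.w e0 = 1 := by
  have hgood := hG.cls.good
  have t0 : G.Touch x0 o := h.c0.tO
  have t1 : G.Touch x1 o := h.c1.tO
  have t2 : G.Touch x2 o := h.c2.tO
  have v0 := h.c0.mv hgood
  have v1 := h.c1.mv hgood
  have v2 := h.c2.mv hgood
  have key := hG.move_w (by norm_num) (by norm_num) (W := {x0, x1, x2}) (X₀ := {x2})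
    (Y₀ := {F0}) (B := {F0, F1, F2}) (D := ∅) (D' := {e0}) (by
      intro v hv
      simp only [mem_insert, mem_singleton] at hv
      rcases hv with rfl | rfl | rfl <;> assumption)
    ⟨x0, mem_insert_self _ _⟩
    (((FC_singleton hgood v2 t2).insert_out hgood v1 t1).insert_out hgood v0 t0)
    (singleton_subset_iff.2 v2)
    (singleton_subset_iff.2 (mem_sdiff.2 ⟨h.c1.se.symm.mem_left hgood h.a0.1, hF⟩)) (by
      intro j hj
      simp only [mem_insert, mem_singleton] at hj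
      rw [mem_erase]
      rcases hj with rfl | rfl | rfl
      · exact ⟨h.c1.f1, mem_tf_touch (v := x1) (by simp) h.c1.tF⟩
      · exact ⟨h.c1.f2, mem_tf_touch (v := x1) (by simp) h.c1.tF'⟩
      · exact ⟨h.c2.f2, mem_tf_touch (v := x2) (by simp) h.c2.tF'⟩)
    (cover_of (by
      intro v hv hvX d hd
      simp only [mem_insert, mem_singleton] at hv hvX
      have hv' : v = x0 ∨ v = x1 := by tauto
      rcases hv' with rfl | rfl
      · rw [h.c0.st] at hd
        simp only [mem_insert, mem_singleton] at hd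
        rcases hd with rfl | rfl | rfl
        · exact end_mem h.a2.symm (by simp)
        · exact side_mem h.c0.sg (by simp)
        · exact side_mem h.c0.se' (by simp)
      · rw [h.c1.st] at hd
        simp only [mem_insert, mem_singleton] at hd
        rcases hd with rfl | rfl | rfl
        · exact side_mem h.c1.se (by simp)
        · exact side_mem h.c1.sg.symm (by simp)
        · exact end_mem h.a1 (by simp)))
    (empty_subset _) (singleton_subset_iff.2 (star_sub_tds (v := x0) (by simp) h.a0.left))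
    (disjoint_empty_left _) (by
      intro d hd
      rw [mem_singleton] at hd
      subst hd
      exact side_mem' h.c1.se (by simp))
  have c1 : ({x0, x1, x2} : Finset ℕ).card = 3 := card3 h.n01 h.n20.symm h.n12
  have hc : ({F0, F1, F2} : Finset ℕ).card = 3 := card3 h.m01 h.m20.symm h.m12
  have hw' : G.ws {e0} = G.w e0 := by
    unfold ws
    exact sum_singleton _ _
  rw [card_singleton, c1, hc, hw', fpr_singleton] at key
  by_contra hcon
  by_cases h5 : F0 ∈ G.hs
  · rw [if_pos h5] at key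
    exact fin1 key hw (Or.inr ⟨rfl, by
      have : G.w e0 ≠ 1 := fun h => hcon ⟨h5, h⟩
      omega⟩)
  · rw [if_neg h5] at key
    exact fin1 key hw (Or.inl rfl)

/-- the inner neighbour `b` of an outer vertex does not have degree two, if the other neighbour `c`
of `b` is an inner vertex with a third face -/
theorem inner2 (hG : Min m o G) {x e g e' b F F' k c i : ℕ}
    (hx : G.Cub o x e g e' F F') (hg : G.E g x b) (hb : ¬ G.Touch b o)
    (hs : G.star b = {g, k}) (hk : G.E k b c) (hc : ¬ G.Touch c o)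
    (hi : G.Touch c i) (hiF : i ≠ F) (hiF' : i ≠ F') : False := by
  have hgood := hG.cls.good
  have hxo : G.Touch x o := hx.tO
  have hbx : b ≠ x := fun h => hb (h ▸ hxo)
  have hcx : c ≠ x := fun h => hc (h ▸ hxo)
  have hbc : b ≠ c := hk.ne hgood
  have hvx := hg.memv hgood
  have hvb := hk.memv hgood
  have hvc := hk.symm.memv hgood
  have hio : i ≠ o := fun h => hc (h ▸ hi)
  have key := hG.move (by norm_num) (by norm_num) (W := {x, b, c}) (X₀ := {x, c})
    (Y₀ := ∅) (B := {i, F, F'}) (by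
      intro v hv
      simp only [mem_insert, mem_singleton] at hv
      rcases hv with rfl | rfl | rfl <;> assumption)
    ⟨x, mem_insert_self _ _⟩ (by
      have e1 : ({x, b, c} : Finset ℕ) = insert c (insert b {x}) := by
        ext v; simp only [mem_insert, mem_singleton]; tauto
      rw [e1]
      refine FC.insert_adj hgood ?_ (w := b) (by simp) ⟨k, hk.symm⟩
      refine FC.insert_adj hgood ?_ (w := x) (by simp) ⟨g, hg.symm⟩
      exact FC_singleton hgood hvx hxo) (by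
      intro v hv
      simp only [mem_insert, mem_singleton] at hv
      rcases hv with rfl | rfl <;> assumption)
    (empty_subset _) (by
      intro j hj
      simp only [mem_insert, mem_singleton] at hj
      rw [mem_erase]
      rcases hj with rfl | rfl | rfl
      · exact ⟨hio, mem_tf_touch (v := c) (by simp) hi⟩
      · exact ⟨hx.f1, mem_tf_touch (v := x) (by simp) hx.tF⟩
      · exact ⟨hx.f2, mem_tf_touch (v := x) (by simp) hx.tF'⟩)
    (cover_of (by
      intro v hv hvX d hd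
      simp only [mem_insert, mem_singleton] at hv hvX
      have hv' : v = b := by tauto
      subst hv'
      rw [hs] at hd
      simp only [mem_insert, mem_singleton] at hd
      rcases hd with rfl | rfl
      · exact end_mem hg.symm (by simp)
      · exact end_mem hk (by simp)))
  have c1 : ({x, b, c} : Finset ℕ).card = 3 := card3 hbx.symm hcx.symm hbc
  have c2 : ({x, c} : Finset ℕ).card ≤ 2 := card_le_two
  have hc : ({i, F, F'} : Finset ℕ).card = 3 := card3 hiF hiF' hx.f3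
  rw [fpr_empty, c1, hc] at key
  exact fin5 key c2

/-- two outer vertices with inner edges at the same two faces coincide -/
lemma eq_of_inner (hG : G.Good) (h1 : G.P1) (h3 : G.P3 o) {x y e g e' k F F' : ℕ}
    (hx : G.Cub o x e g e' F F') (hk : k ∈ G.star y) (sk : G.S k F F') (hy : G.Touch y o) :
    x = y := by
  by_contra hne
  have hvy : y ∈ G.vs := (touch_mem hG hy).1
  obtain ⟨d, k1, d', A, A', hc⟩ := exists_cub hG h1 hy (h3.cub y hvy hy)
  -- `k` is the inner edge at `y`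
  have hkk : k = k1 := by
    rw [hc.st] at hk
    simp only [mem_insert, mem_singleton] at hk
    rcases hk with rfl | rfl | rfl
    · rcases sk.unique hc.se with h | h
      · exact absurd h.1.symm hx.f1
      · exact absurd h.1.symm hx.f2
    · rfl
    · rcases sk.unique hc.se' with h | h
      · exact absurd h.1.symm hx.f1
      · exact absurd h.1.symm hx.f2
  subst hkk
  have main : ∀ {d d' : ℕ}, G.Cub o y d k d' F F' → False := by
    intro d d' hc
    have q1 : d = e := h3.uniq d (star_sub hc.me) e (star_sub hx.me) F hx.f1 hc.se hx.se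
    have q2 : d' = e' := h3.uniq d' (star_sub hc.me') e' (star_sub hx.me') F' hx.f2 hc.se' hx.se'
    subst q1 q2
    refine h3.par d d' x y hx.n2 (E_of_mem hx.me hc.me hne) (E_of_mem hx.me' hc.me' hne) ?_ ?_
    · rcases hx.se with h | h
      · exact Or.inl h.1
      · exact Or.inr h.2
    · rcases hx.se' with h | h
      · exact Or.inl h.1
      · exact Or.inr h.2
  rcases sk.unique hc.sg with ⟨rfl, rfl⟩ | ⟨rfl, rfl⟩
  · exact main hc
  · exact main hc.symm

/-- the inner neighbour of an outer vertex -/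
theorem spec_Spk (m : ℕ) : SpecSpk m := by
  intro o G hG h1 h2 h3 x e g e' F F' hx
  have hgood := hG.cls.good
  obtain ⟨b, hb⟩ := exists_E hx.mg
  have hnb : ¬ G.Touch b o := by
    intro hbo
    exact hb.ne hgood (eq_of_inner hgood h1 h3 hx hb.right hx.sg hbo)
  have hvb : b ∈ G.vs := hb.symm.memv hgood
  refine ⟨b, hx, hb, hnb, ?_⟩
  by_contra hlt
  have hb2 : (G.star b).card = 2 := by
    have := h1.deg b hvb
    omega
  -- the other edge at `b`
  have h4 : ((G.star b).erase g).card = 1 := by rw [card_erase_of_mem hb.right, hb2]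
  obtain ⟨k, hs⟩ := card_eq_one.1 h4
  have mk : k ∈ (G.star b).erase g := by rw [hs]; simp
  have hgk : g ≠ k := (mem_erase.1 mk).1.symm
  have hst : G.star b = {g, k} := by rw [← insert_erase hb.right, hs]
  obtain ⟨c, hc⟩ := exists_E (mem_erase.1 mk).2
  have sk : G.S k F F' := S_deg2 hgood hvb hst hgk hx.sg hx.f3
  have hcx : x ≠ c := by
    rintro rfl
    have hk := hc.right
    rw [hx.st] at hk
    simp only [mem_insert, mem_singleton] at hk
    rcases hk with rfl | rfl | rfl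
    · rcases sk.unique hx.se with h | h
      · exact absurd h.1.symm hx.f1
      · exact absurd h.1.symm hx.f2
    · exact hgk rfl
    · rcases sk.unique hx.se' with h | h
      · exact absurd h.1.symm hx.f1
      · exact absurd h.1.symm hx.f2
  have hnc : ¬ G.Touch c o := fun hco => hcx (eq_of_inner hgood h1 h3 hx hc.right sk hco)
  have hvc : c ∈ G.vs := hc.symm.memv hgood
  have hc3 : 3 ≤ (G.star c).card := by
    have h5 := h1.deg c hvc
    have h6 : (G.star c).card ≠ 2 := fun h => h2.na k b c hc hb2 h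
    omega
  obtain ⟨i, hi, hi'⟩ : ∃ i ∈ G.fv c, i ∉ ({F, F'} : Finset ℕ) := by
    by_contra hcon
    push Not at hcon
    have h5 := card_le_card (show G.fv c ⊆ {F, F'} from hcon)
    rw [h1.card_fv hgood hvc] at h5
    have h6 : ({F, F'} : Finset ℕ).card ≤ 2 := card_le_two
    omega
  simp only [mem_insert, mem_singleton, not_or] at hi'
  exact inner2 hG hx hb hnb hst hc hnc (mem_fv.1 hi) hi'.1 hi'.2

end Gr

end Pool.Agent.Lib.MP06c549.T6H
end

section
/-!
# MP_06c549_co, T6H: an unusable face which is a triangle of cubic vertices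
-/
set_option autoImplicit false

namespace Pool.Agent.Lib.MP06c549.T6H

open Finset

namespace Gr

variable {G : Gr} {u : ℕ}

/-! ## Coverage lemmas -/

lemma E.cov {d x y : ℕ} {X Y : Finset ℕ} (h : G.E d x y) (hx : x ∈ X) :
    G.p d ∈ X ∨ G.q d ∈ X ∨ G.l d ∈ Y ∨ G.r d ∈ Y := by
  rcases h.2 with h1 | h1
  · left; rw [h1.1]; exact hx
  · right; left; rw [h1.2]; exact hx

lemma S.cov {d i j : ℕ} {X Y : Finset ℕ} (h : G.S d i j) (hi : i ∈ Y) :
    G.p d ∈ X ∨ G.q d ∈ X ∨ G.l d ∈ Y ∨ G.r d ∈ Y := by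
  rcases h with h1 | h1
  · right; right; left; rw [h1.1]; exact hi
  · right; right; right; rw [h1.2]; exact hi

lemma star_cov {d x : ℕ} {X Y : Finset ℕ} (h : d ∈ G.star x) (hx : x ∈ X) :
    G.p d ∈ X ∨ G.q d ∈ X ∨ G.l d ∈ Y ∨ G.r d ∈ Y := by
  obtain ⟨y, hy⟩ := exists_E h
  exact hy.cov hx

lemma Touch.tfm {x i : ℕ} {W : Finset ℕ} (h : G.Touch x i) (hx : x ∈ W) : i ∈ G.tf W := by
  obtain ⟨d, hd, h'⟩ := h
  exact mem_tf.2 ⟨d, star_sub_tds hx hd, h'⟩

lemma mem_tds_iff {d : ℕ} {W : Finset ℕ} : d ∈ G.tds W ↔ ∃ x ∈ W, d ∈ G.star x := by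
  rw [mem_tds]
  constructor
  · rintro ⟨h1, h2 | h2⟩
    · exact ⟨_, h2, mem_star.2 ⟨h1, Or.inl rfl⟩⟩
    · exact ⟨_, h2, mem_star.2 ⟨h1, Or.inr rfl⟩⟩
  · rintro ⟨x, hx, hd⟩
    exact mem_tds.1 (star_sub_tds hx hd)

/-- in `G - W` a vertex with a deleted edge is isolated or touches `u` -/
lemma touch_del (hG : G.Good) {W : Finset ℕ} {x d : ℕ} (hx : x ∈ G.vs) (hd : d ∈ G.star x)
    (hdW : d ∈ G.tds W) : (G.del W u).star x = ∅ ∨ (G.del W u).Touch x u := by
  by_contra hcon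
  push Not at hcon
  obtain ⟨h1, h2⟩ := hcon
  obtain ⟨d', hd'⟩ := h1
  rw [star_del] at hd'
  obtain ⟨hd's, hd'W⟩ := mem_sdiff.1 hd'
  have h3 : ∀ i, G.phi W u i = u → i ∈ insert u (G.tf W) := by
    intro i hi
    by_cases h : i ∈ G.tf W
    · exact mem_insert_of_mem h
    · rw [phi_of_not h] at hi
      rw [hi]; exact mem_insert_self _ _
  have h3' : ∀ i, i ∈ insert u (G.tf W) → G.phi W u i = u := by
    intro i hi
    rcases mem_insert.1 hi with h | h
    · rw [h]; exact phi_u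
    · exact phi_of_mem h
  have key := link_sides hG hx (x := fun i => if i ∈ insert u (G.tf W) then 1 else 0) (by
    intro e he
    by_cases heW : e ∈ G.tds W
    · have m1 : G.l e ∈ insert u (G.tf W) := mem_insert_of_mem (l_mem_tf heW)
      have m2 : G.r e ∈ insert u (G.tf W) := mem_insert_of_mem (r_mem_tf heW)
      simp only [if_pos m1, if_pos m2]
    · have he' : e ∈ (G.del W u).star x := by rw [star_del]; exact mem_sdiff.2 ⟨he, heW⟩
      have m1 : G.l e ∉ insert u (G.tf W) := fun h => h2 ⟨e, he', Or.inl (h3' _ h)⟩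
      have m2 : G.r e ∉ insert u (G.tf W) := fun h => h2 ⟨e, he', Or.inr (h3' _ h)⟩
      simp only [if_neg m1, if_neg m2]) hd hd's (Or.inl rfl) (Or.inl rfl)
  have m1 : G.l d ∈ insert u (G.tf W) := mem_insert_of_mem (l_mem_tf hdW)
  have m2 : G.l d' ∉ insert u (G.tf W) := fun h => h2 ⟨d', by rw [star_del]; exact hd', Or.inl (h3' _ h)⟩
  simp only [if_pos m1, if_neg m2] at key
  exact one_ne_zero key

namespace Tri

variable {x0 x1 x2 e0 e1 e2 g0 g1 g2 F0 F1 F2 : ℕ}

/-- rotation -/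
lemma rotate (h : G.Tri u x0 x1 x2 e0 e1 e2 g0 g1 g2 F0 F1 F2) :
    G.Tri u x1 x2 x0 e1 e2 e0 g1 g2 g0 F1 F2 F0 :=
  ⟨h.c1, h.c2, h.c0, h.a1, h.a2, h.a0, h.n12, h.n20, h.n01, h.m12, h.m20, h.m01⟩

/-- reflection -/
lemma reflect (h : G.Tri u x0 x1 x2 e0 e1 e2 g0 g1 g2 F0 F1 F2) :
    G.Tri u x1 x0 x2 e0 e2 e1 g1 g0 g2 F0 F2 F1 :=
  ⟨h.c1.symm, h.c0.symm, h.c2.symm, h.a0.symm, h.a2.symm, h.a1.symm, h.n01.symm, h.n20.symm,
    h.n12.symm, h.m20.symm, h.m12.symm, h.m01.symm⟩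

section

variable (h : G.Tri u x0 x1 x2 e0 e1 e2 g0 g1 g2 F0 F1 F2)

include h

lemma e01 : e0 ≠ e1 := h.c1.n2

/-- the vertices at `u` -/
lemma verts (hP : G.P1) {v : ℕ} (hv : G.Touch v u) : v = x0 ∨ v = x1 ∨ v = x2 := by
  have key := BC.vert (hP.bc u) (f := fun v => if v = x0 ∨ v = x1 ∨ v = x2 then 1 else 0) (by
    have key : ∀ {d a b : ℕ}, G.E d a b → (G.l d = u ∨ G.r d = u) → (a = x0 ∨ a = x1 ∨ a = x2) →
        (b = x0 ∨ b = x1 ∨ b = x2) := by
      intro d a b hE hd ha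
      rcases ha with rfl | rfl | rfl
      · rcases h.c0.oe hE.left hd with rfl | rfl
        · rcases h.a2.ends hE.right with h1 | h1
          · exact Or.inr (Or.inr h1)
          · exact Or.inl h1
        · rcases h.a0.ends hE.right with h1 | h1
          · exact Or.inl h1
          · exact Or.inr (Or.inl h1)
      · rcases h.c1.oe hE.left hd with rfl | rfl
        · rcases h.a0.ends hE.right with h1 | h1
          · exact Or.inl h1
          · exact Or.inr (Or.inl h1)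
        · rcases h.a1.ends hE.right with h1 | h1
          · exact Or.inr (Or.inl h1)
          · exact Or.inr (Or.inr h1)
      · rcases h.c2.oe hE.left hd with rfl | rfl
        · rcases h.a1.ends hE.right with h1 | h1
          · exact Or.inr (Or.inl h1)
          · exact Or.inr (Or.inr h1)
        · rcases h.a2.ends hE.right with h1 | h1
          · exact Or.inr (Or.inr h1)
          · exact Or.inl h1
    intro d hd hdu
    have hE : G.E d (G.p d) (G.q d) := ⟨hd, Or.inl ⟨rfl, rfl⟩⟩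
    by_cases hp : G.p d = x0 ∨ G.p d = x1 ∨ G.p d = x2
    · have hq := key hE hdu hp
      simp only [if_pos hp, if_pos hq]
    · have hq : ¬ (G.q d = x0 ∨ G.q d = x1 ∨ G.q d = x2) := fun hq => hp (key hE.symm hdu hq)
      simp only [if_neg hp, if_neg hq]) hv h.c0.tO
  by_contra hcon
  simp only [if_neg hcon] at key
  simp at key

/-- the edges at `u` -/
lemma edges (hP : G.P1) {d : ℕ} (hd : d ∈ G.ds) (hu : G.l d = u ∨ G.r d = u) :
    d = e0 ∨ d = e1 ∨ d = e2 := by
  have hp : d ∈ G.star (G.p d) := mem_star.2 ⟨hd, Or.inl rfl⟩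
  rcases h.verts hP ⟨d, hp, hu⟩ with h1 | h1 | h1
  · rw [h1] at hp
    rcases h.c0.oe hp hu with h2 | h2
    · exact Or.inr (Or.inr h2)
    · exact Or.inl h2
  · rw [h1] at hp
    rcases h.c1.oe hp hu with h2 | h2
    · exact Or.inl h2
    · exact Or.inr (Or.inl h2)
  · rw [h1] at hp
    rcases h.c2.oe hp hu with h2 | h2
    · exact Or.inr (Or.inl h2)
    · exact Or.inr (Or.inr h2)

end

end Tri

end Gr

end Pool.Agent.Lib.MP06c549.T6H
end

section
/-!
# MP_06c549_co, T6H: the lemma ENC and its consequence A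
-/
set_option autoImplicit false

namespace Pool.Agent.Lib.MP06c549.T6H

open Finset

namespace Gr

theorem spec_enc : SpecEnc := by
  intro o G hG hP g x y F F' b hg hs hFF hFo hFo' hbF hbF' hbo hby hxo i hi hiF hiF'
  have hbx : x ≠ b := by
    rintro rfl
    exact hbo hxo
  have hbv : b ∈ G.vs := (touch_mem hG hbF).1
  have hgb : g ∉ G.star b := by
    intro h
    rcases hg.ends h with h1 | h1
    · exact hbx h1.symm
    · exact hby h1
  obtain ⟨c, hc1, hc2⟩ := cut_edge_vertex hG hg.1 hs hgb hbF hbF'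
  have hxy : c x ≠ c y := by
    rcases hg.2 with ⟨h1, h2⟩ | ⟨h1, h2⟩
    · rw [← h1, ← h2]; exact hc1
    · rw [← h1, ← h2]; exact hc1.symm
  have key : ∀ j, j ≠ F → j ≠ F' → ∀ v v', v ≠ b → v' ≠ b → G.Touch v j → G.Touch v' j →
      c v = c v' := by
    intro j hj hj' v v' hv hv' ht ht'
    refine face_minus hG (hP.bc j) (hP.cnt_le hG hbv j) (fun d hd hdj hdb => ?_) hv hv' ht ht'
    refine hc2 d hd ?_ hdb
    rintro rfl
    rcases S.side hs hdj with h | h
    · exact hj h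
    · exact hj' h
  constructor
  · rintro rfl
    exact hxy (key i hiF hiF' x y hbx hby.symm hxo hi)
  · intro d hd hdS
    have hp : d ∈ G.star (G.p d) := mem_star.2 ⟨hd, Or.inl rfl⟩
    have ht := hdS.touch hp
    have hpb : G.p d ≠ b := by
      intro h
      rw [h] at ht
      exact hbo ht.1
    have h1 := key i hiF hiF' (G.p d) y hpb hby.symm ht.2 hi
    have h2 := key o hFo.symm hFo'.symm (G.p d) x hpb hbx ht.1 hxo
    exact hxy (h2.symm.trans h1)

theorem spec_A {m : ℕ} (hS : SpecS m) : SpecA m := by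
  intro o G hM h1 h2 h3 x1 x2 x3 e1 e2 e3 e4 g1 g2 g3 F1 F2 F3 F4 b1 b2 b3 s1 s2 s3 a1 a2 n13
    f13 f24 f14 ht
  have hG := hM.cls.good
  by_contra hne
  have hS' := (hS o G hM h1 h2 h3 x1 x2 x3 e1 e2 e3 e4 g1 g2 g3 F1 F2 F3 F4 b1 b2 b3 s1 s2 s3
    a1 a2 n13 f13 f24 f14).2
  have hE := spec_enc o G hG h1 g2 x2 b2 F2 F3 b1 s2.eb s2.cub.sg s2.cub.f3 s2.cub.f1 s2.cub.f2
    s1.bF' ht s1.nb (Ne.symm hne) s2.cub.tO
  -- a third face at `b2`
  have hb2 : b2 ∈ G.vs := (touch_mem hG s2.bF).1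
  have hcard : 3 ≤ (G.fv b2).card := by rw [h1.card_fv hG hb2]; exact s2.db
  obtain ⟨i, hi, hi'⟩ : ∃ i ∈ G.fv b2, i ∉ ({F2, F3} : Finset ℕ) := by
    by_contra hcon
    push Not at hcon
    have h4 := card_le_card (s := G.fv b2) (t := {F2, F3}) hcon
    have h5 := card_le_two (a := F2) (b := F3)
    omega
  simp only [mem_insert, mem_singleton, not_or] at hi'
  have hi2 := mem_fv.1 hi
  have hno := hE i hi2 hi'.1 hi'.2
  rcases hS' i hi2 with h | h | h | h
  · exact hno.2 e1 (star_sub s1.cub.me) (h ▸ s1.cub.se)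
  · exact hi'.1 h
  · exact hi'.2 h
  · exact hno.2 e4 (star_sub s3.cub.me') (h ▸ s3.cub.se')

end Gr

end Pool.Agent.Lib.MP06c549.T6H
end

section
/-!
# MP_06c549_co, T6H: the outer face is a triangle: data and statements

The outer face `o` is a triangle `x0 x1 x2` of cubic vertices with the inner neighbours `b0 b1 b2`; the
outer edge `e0 = x0 x1` has the inner face `F0`, and so on cyclically.
-/
set_option autoImplicit false

namespace Pool.Agent.Lib.MP06c549.T6H

open Finset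

namespace Gr

/-- the data of the case `k = 3` -/
structure K3 (m : ℕ) (G : Gr) (o x0 x1 x2 e0 e1 e2 g0 g1 g2 F0 F1 F2 b0 b1 b2 : ℕ) : Prop where
  mn : Min m o G
  p1 : G.P1
  p2 : G.P2 o
  p3 : G.P3 o
  tri : G.Tri o x0 x1 x2 e0 e1 e2 g0 g1 g2 F0 F1 F2
  s0 : G.Spk o x0 e2 g0 e0 F2 F0 b0
  s1 : G.Spk o x1 e0 g1 e1 F0 F1 b1
  s2 : G.Spk o x2 e1 g2 e2 F1 F2 b2
  wt : 1 ≤ G.w e0 + G.w e1 + G.w e2

/-- the data, with usable faces `F0 F1 F2` and different `b0 b1 b2` -/
structure K3b (m : ℕ) (G : Gr) (o x0 x1 x2 e0 e1 e2 g0 g1 g2 F0 F1 F2 b0 b1 b2 : ℕ) : Prop extends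
    K3 m G o x0 x1 x2 e0 e1 e2 g0 g1 g2 F0 F1 F2 b0 b1 b2 where
  u0 : F0 ∉ G.us
  u1 : F1 ∉ G.us
  u2 : F2 ∉ G.us
  n01 : b0 ≠ b1
  n12 : b1 ≠ b2
  n20 : b2 ≠ b0

/-- distance at most two by edges of weight `0` outside the triangle `x0 x1 x2` -/
def Near (G : Gr) (x0 x1 x2 b b' : ℕ) : Prop :=
  (∃ d, G.E d b b' ∧ G.w d = 0) ∨
    ∃ d d' v, G.E d b v ∧ G.E d' v b' ∧ G.w d = 0 ∧ G.w d' = 0 ∧ v ≠ x0 ∧ v ≠ x1 ∧ v ≠ x2

/-- the vertex `b` has degree three; edges `g`, `d` (with the faces `F`, `O`), `d'` (with the faces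
`F'`, `O`), where `O` is a new face -/
structure Leg (G : Gr) (o F0 F1 F2 b g d d' F F' O : ℕ) : Prop where
  st : G.star b = {g, d, d'}
  n1 : g ≠ d
  n2 : g ≠ d'
  n3 : d ≠ d'
  sd : G.S d F O
  sd' : G.S d' F' O
  o1 : O ≠ o
  o2 : O ≠ F0
  o3 : O ≠ F1
  o4 : O ≠ F2

section

variable {m : ℕ} {G : Gr} {o x0 x1 x2 e0 e1 e2 g0 g1 g2 F0 F1 F2 b0 b1 b2 : ℕ}

lemma K3.rot (h : K3 m G o x0 x1 x2 e0 e1 e2 g0 g1 g2 F0 F1 F2 b0 b1 b2) :
    K3 m G o x1 x2 x0 e1 e2 e0 g1 g2 g0 F1 F2 F0 b1 b2 b0 := by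
  have t := h.tri
  exact ⟨h.mn, h.p1, h.p2, h.p3, ⟨t.c1, t.c2, t.c0, t.a1, t.a2, t.a0, t.n12, t.n20, t.n01, t.m12,
    t.m20, t.m01⟩, h.s1, h.s2, h.s0, by have := h.wt; omega⟩

lemma K3.refl (h : K3 m G o x0 x1 x2 e0 e1 e2 g0 g1 g2 F0 F1 F2 b0 b1 b2) :
    K3 m G o x1 x0 x2 e0 e2 e1 g1 g0 g2 F0 F2 F1 b1 b0 b2 := by
  have t := h.tri
  exact ⟨h.mn, h.p1, h.p2, h.p3, ⟨t.c1.symm, t.c0.symm, t.c2.symm, t.a0.symm, t.a2.symm, t.a1.symm,
    t.n01.symm, t.n20.symm, t.n12.symm, t.m20.symm, t.m12.symm, t.m01.symm⟩, h.s1.symm, h.s0.symm,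
    h.s2.symm, by have := h.wt; omega⟩

lemma K3b.rot (h : K3b m G o x0 x1 x2 e0 e1 e2 g0 g1 g2 F0 F1 F2 b0 b1 b2) :
    K3b m G o x1 x2 x0 e1 e2 e0 g1 g2 g0 F1 F2 F0 b1 b2 b0 :=
  ⟨h.toK3.rot, h.u1, h.u2, h.u0, h.n12, h.n20, h.n01⟩

lemma K3b.refl (h : K3b m G o x0 x1 x2 e0 e1 e2 g0 g1 g2 F0 F1 F2 b0 b1 b2) :
    K3b m G o x1 x0 x2 e0 e2 e1 g1 g0 g2 F0 F2 F1 b1 b0 b2 :=
  ⟨h.toK3.refl, h.u0, h.u2, h.u1, h.n01.symm, h.n20.symm, h.n12.symm⟩

lemma Near.symm {b b' : ℕ} (h : G.Near x0 x1 x2 b b') : G.Near x0 x1 x2 b' b := by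
  rcases h with ⟨d, h1, h2⟩ | ⟨d, d', v, h1, h2, h3, h4, h5⟩
  · exact Or.inl ⟨d, h1.symm, h2⟩
  · exact Or.inr ⟨d', d, v, h2.symm, h1.symm, h4, h3, h5⟩

lemma Near.rot {b b' : ℕ} (h : G.Near x0 x1 x2 b b') : G.Near x1 x2 x0 b b' := by
  rcases h with ⟨d, h1, h2⟩ | ⟨d, d', v, h1, h2, h3, h4, h5, h6, h7⟩
  · exact Or.inl ⟨d, h1, h2⟩
  · exact Or.inr ⟨d, d', v, h1, h2, h3, h4, h6, h7, h5⟩

lemma Near.refl {b b' : ℕ} (h : G.Near x0 x1 x2 b b') : G.Near x1 x0 x2 b b' := by
  rcases h with ⟨d, h1, h2⟩ | ⟨d, d', v, h1, h2, h3, h4, h5, h6, h7⟩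
  · exact Or.inl ⟨d, h1, h2⟩
  · exact Or.inr ⟨d, d', v, h1, h2, h3, h4, h6, h5, h7⟩

lemma Leg.symm {b g d d' F F' O : ℕ} (h : G.Leg o F0 F1 F2 b g d d' F F' O) :
    G.Leg o F0 F1 F2 b g d' d F' F O :=
  ⟨by rw [h.st]; congr 1; exact pair_comm _ _, h.n2, h.n1, h.n3.symm, h.sd', h.sd, h.o1, h.o2, h.o3,
    h.o4⟩

lemma Leg.rot {b g d d' F F' O : ℕ} (h : G.Leg o F0 F1 F2 b g d d' F F' O) :
    G.Leg o F1 F2 F0 b g d d' F F' O :=
  ⟨h.st, h.n1, h.n2, h.n3, h.sd, h.sd', h.o1, h.o3, h.o4, h.o2⟩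

lemma Leg.refl {b g d d' F F' O : ℕ} (h : G.Leg o F0 F1 F2 b g d d' F F' O) :
    G.Leg o F0 F2 F1 b g d d' F F' O :=
  ⟨h.st, h.n1, h.n2, h.n3, h.sd, h.sd', h.o1, h.o2, h.o4, h.o3⟩

end

/-! ## The statements

`K3 m G o x0 x1 x2 e0 e1 e2 g0 g1 g2 F0 F1 F2 b0 b1 b2` is abbreviated by quantifying over everything.
By `K3b.rot` and `K3b.refl` each statement holds for all six orders of `0, 1, 2`. -/

/-- K4, K5 (helper42): the faces are usable and the `b`s are different -/
def SpecK3U (m : ℕ) : Prop := ∀ (G : Gr) (o x0 x1 x2 e0 e1 e2 g0 g1 g2 F0 F1 F2 b0 b1 b2 : ℕ),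
  K3 m G o x0 x1 x2 e0 e1 e2 g0 g1 g2 F0 F1 F2 b0 b1 b2 →
    K3b m G o x0 x1 x2 e0 e1 e2 g0 g1 g2 F0 F1 F2 b0 b1 b2

/-- K6 (helper88) -/
def SpecK3Near (m : ℕ) : Prop := ∀ (G : Gr) (o x0 x1 x2 e0 e1 e2 g0 g1 g2 F0 F1 F2 b0 b1 b2 : ℕ),
  K3b m G o x0 x1 x2 e0 e1 e2 g0 g1 g2 F0 F1 F2 b0 b1 b2 → G.Near x0 x1 x2 b0 b1

/-- K3 (helper97) -/
def SpecK3Touch (m : ℕ) : Prop := ∀ (G : Gr) (o x0 x1 x2 e0 e1 e2 g0 g1 g2 F0 F1 F2 b0 b1 b2 : ℕ),
  K3 m G o x0 x1 x2 e0 e1 e2 g0 g1 g2 F0 F1 F2 b0 b1 b2 → b0 ≠ b1 → G.Touch b0 F1 →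
    ¬ G.Touch b1 F2

/-- K7 (helper97) -/
def SpecK3Leg (m : ℕ) : Prop := ∀ (G : Gr) (o x0 x1 x2 e0 e1 e2 g0 g1 g2 F0 F1 F2 b0 b1 b2 : ℕ),
  K3b m G o x0 x1 x2 e0 e1 e2 g0 g1 g2 F0 F1 F2 b0 b1 b2 → ¬ G.Touch b0 F1 →
    ∃ d d' O, G.Leg o F0 F1 F2 b0 g0 d d' F2 F0 O

/-- K8 (helper83): move P. The set `A` has at most two elements, each adjacent to a `b`; the edges at
`b1` and at `b2` have an end in `{b0, x1, x2} ∪ A`; one of the `b`s touches a further face `O`. -/
def SpecK3P (m : ℕ) : Prop := ∀ (G : Gr) (o x0 x1 x2 e0 e1 e2 g0 g1 g2 F0 F1 F2 b0 b1 b2 : ℕ),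
  K3b m G o x0 x1 x2 e0 e1 e2 g0 g1 g2 F0 F1 F2 b0 b1 b2 → ∀ (A : Finset ℕ) (O b : ℕ), A.card ≤ 2 →
    (∀ a ∈ A, a ≠ b1 ∧ a ≠ b2 ∧ ∃ d, G.E d b0 a ∨ G.E d b1 a ∨ G.E d b2 a) →
    (∀ d, d ∈ G.star b1 ∨ d ∈ G.star b2 →
      (G.p d = b0 ∨ G.p d = x1 ∨ G.p d = x2 ∨ G.p d ∈ A) ∨
      (G.q d = b0 ∨ G.q d = x1 ∨ G.q d = x2 ∨ G.q d ∈ A)) →
    (b = b0 ∨ b = b1 ∨ b = b2) → G.Touch b O → O ≠ o → O ≠ F0 → O ≠ F1 → O ≠ F2 → False

/-- K9 (helper17): `b0` touches the opposite face (from `SpecK3Near`, `SpecK3Leg`, `SpecK3Touch`,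
`SpecK3P`) -/
def SpecK3Opp (m : ℕ) : Prop := ∀ (G : Gr) (o x0 x1 x2 e0 e1 e2 g0 g1 g2 F0 F1 F2 b0 b1 b2 : ℕ),
  K3b m G o x0 x1 x2 e0 e1 e2 g0 g1 g2 F0 F1 F2 b0 b1 b2 → ¬ G.Touch b0 F1

/-- K10 (helper83): two adjacent `b`s -/
def SpecK3Adj (m : ℕ) : Prop := ∀ (G : Gr) (o x0 x1 x2 e0 e1 e2 g0 g1 g2 F0 F1 F2 b0 b1 b2
    d0 d0' d1 d1' d2 d2' O0 O1 O2 : ℕ),
  K3b m G o x0 x1 x2 e0 e1 e2 g0 g1 g2 F0 F1 F2 b0 b1 b2 →
    G.Leg o F0 F1 F2 b0 g0 d0 d0' F2 F0 O0 → G.Leg o F0 F1 F2 b1 g1 d1 d1' F0 F1 O1 →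
    G.Leg o F0 F1 F2 b2 g2 d2 d2' F1 F2 O2 → ∀ d, ¬ G.E d b0 b1

/-- K11 (helper54): no two adjacent `b`s, three different common neighbours `c0` of `b0, b1`, `c1` of
`b1, b2`, `c2` of `b2, b0` -/
def SpecK3Hex (m : ℕ) : Prop := ∀ (G : Gr) (o x0 x1 x2 e0 e1 e2 g0 g1 g2 F0 F1 F2 b0 b1 b2
    d0 d0' d1 d1' d2 d2' O0 O1 O2 c0 c1 c2 p0 q0 p1 q1 p2 q2 : ℕ),
  K3b m G o x0 x1 x2 e0 e1 e2 g0 g1 g2 F0 F1 F2 b0 b1 b2 →
    G.Leg o F0 F1 F2 b0 g0 d0 d0' F2 F0 O0 → G.Leg o F0 F1 F2 b1 g1 d1 d1' F0 F1 O1 →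
    G.Leg o F0 F1 F2 b2 g2 d2 d2' F1 F2 O2 →
    (∀ d, ¬ G.E d b0 b1) → (∀ d, ¬ G.E d b1 b2) → (∀ d, ¬ G.E d b2 b0) →
    G.E p0 b0 c0 → G.E q0 c0 b1 → G.E p1 b1 c1 → G.E q1 c1 b2 → G.E p2 b2 c2 → G.E q2 c2 b0 →
    c0 ≠ x0 → c0 ≠ x1 → c0 ≠ x2 → c1 ≠ x0 → c1 ≠ x1 → c1 ≠ x2 → c2 ≠ x0 → c2 ≠ x1 → c2 ≠ x2 →
    c0 ≠ c1 → c1 ≠ c2 → c2 ≠ c0 → False

/-- K12 (helper26, helper61): no two adjacent `b`s, a common neighbour `c` of the three -/
def SpecK3Cen (m : ℕ) : Prop := ∀ (G : Gr) (o x0 x1 x2 e0 e1 e2 g0 g1 g2 F0 F1 F2 b0 b1 b2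
    d0 d0' d1 d1' d2 d2' O0 O1 O2 c p0 p1 p2 : ℕ),
  K3b m G o x0 x1 x2 e0 e1 e2 g0 g1 g2 F0 F1 F2 b0 b1 b2 →
    G.Leg o F0 F1 F2 b0 g0 d0 d0' F2 F0 O0 → G.Leg o F0 F1 F2 b1 g1 d1 d1' F0 F1 O1 →
    G.Leg o F0 F1 F2 b2 g2 d2 d2' F1 F2 O2 →
    (∀ d, ¬ G.E d b0 b1) → (∀ d, ¬ G.E d b1 b2) → (∀ d, ¬ G.E d b2 b0) →
    G.E p0 b0 c → G.E p1 b1 c → G.E p2 b2 c → c ≠ x0 → c ≠ x1 → c ≠ x2 → False

/-- the case `k = 3` (helper97, from all the statements above) -/
def SpecK3 (m : ℕ) : Prop := ∀ (G : Gr) (o x0 x1 x2 e0 e1 e2 g0 g1 g2 F0 F1 F2 : ℕ),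
  Min m o G → G.P1 → G.P2 o → G.P3 o → G.Tri o x0 x1 x2 e0 e1 e2 g0 g1 g2 F0 F1 F2 → False

end Gr

end Pool.Agent.Lib.MP06c549.T6H
end

section
/-!
# MP_06c549_co, T6H: steps 5 and 6'
-/
set_option autoImplicit false

namespace Pool.Agent.Lib.MP06c549.T6H

open Finset

namespace Gr

variable {m : ℕ}

lemma S.fst_side {G : Gr} {d i j : ℕ} (h : G.S d i j) : G.l d = i ∨ G.r d = i := by
  rcases h with h | h
  · exact Or.inl h.1
  · exact Or.inr h.2

theorem spec_step5 (m : ℕ) : SpecStep5 m := by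
  intro o G hG _ _ x x' y e e' d d' g g' F H H' hT hC hC' he he'
  have hxx : x ≠ x' := by
    rintro rfl
    rcases hC.oe hC'.me hT.se'.fst_side with h | h
    · exact hT.n h.symm
    · have h1 := hT.se'
      rw [h] at h1
      exact hC.f3 (h1.other hC.se')
  have hs : G.star x = {e, d, g} := by
    rw [hC.st]
    ext i
    simp only [mem_insert, mem_singleton]
    tauto
  have hs' : G.star x' = {e', d', g'} := by
    rw [hC'.st]
    ext i
    simp only [mem_insert, mem_singleton]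
    tauto
  exact step5 hG hT.st he.symm he'.symm hxx hs hs' hT.se hT.se' hC.se' hC'.se' hT.f hC.f2 hC'.f2
    hC.f3 hC'.f3

theorem spec_step6' (h4a : SpecStep4a m) (h4b : SpecStep4b m) (h4c : SpecStep4c m)
    (h5 : SpecStep5 m) (h6 : SpecStep6 m) : SpecStep6' m := by
  intro o G hG h1 h2
  have hgood := hG.cls.good
  have hcub : ∀ v ∈ G.vs, G.Touch v o → (G.star v).card = 3 := by
    intro y hy hyo
    by_contra hne
    have hy2 : (G.star y).card = 2 := by
      have := h1.deg y hy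
      have := h2.odeg y hy hyo
      omega
    obtain ⟨e, hey, heo⟩ := hyo
    obtain ⟨F, hF, hS⟩ := h1.other (star_sub hey) heo
    obtain ⟨e', hT⟩ := two_at hgood hey hS hF hy2
    have nb : ∀ {d : ℕ}, d ∈ G.star y → G.S d o F → ∃ x g d1 H, G.E d x y ∧ x ∈ G.vs ∧
        G.Cub o x d g d1 F H := by
      intro d hd hdS
      obtain ⟨x, hx⟩ := exists_E hd
      have hxv : x ∈ G.vs := hx.symm.memv hgood
      have hxo : G.Touch x o := (hdS.touch hx.right).1
      have hx3 : (G.star x).card = 3 := by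
        have e1 := h1.deg x hxv
        have e2 := h2.odeg x hxv hxo
        have e3 : (G.star x).card ≠ 2 := fun h => h2.na d y x hx hy2 h
        omega
      obtain ⟨g, d1, H, hC⟩ := cub_at hgood h1 hx.right hdS hF hx3
      exact ⟨x, g, d1, H, hx.symm, hxv, hC⟩
    obtain ⟨x, g, d, H, hex, hxv, hC⟩ := nb hT.me hT.se
    obtain ⟨x', g', d', H', hex', hxv', hC'⟩ := nb hT.me' hT.se'
    have hHH := h5 o G hG h1 h2 x x' y e e' d d' g g' F H H' hT hC hC' hex hex'
    rw [← hHH] at hC'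
    have hxx : x ≠ x' := by
      rintro rfl
      rcases hC.oe hC'.me hT.se'.fst_side with h | h
      · exact hT.n h.symm
      · have h1 := hT.se'
        rw [h] at h1
        exact hC.f3 (h1.other hC.se')
    by_cases hdd : d = d'
    · rw [← hdd] at hC'
      exact h4b o G hG h1 h2 x x' y d e e' g g' H F hC.symm hC'.symm hT
        (E_of_mem hC.me' hC'.me' hxx) hex hex'
    · refine h6 o G hG h1 h2 d (star_sub hC.me') d' (star_sub hC'.me') H hC.f2 hdd hC.se' hC'.se' ?_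
      intro v hv hv2 hdv hdv'
      obtain ⟨d1, hT'⟩ := two_at hgood hdv hC.se' hC.f2 hv2
      have hd1 : d1 = d' := by
        rw [hT'.st, mem_insert, mem_singleton] at hdv'
        rcases hdv' with h | h
        · exact absurd h.symm hdd
        · exact h.symm
      rw [hd1] at hT'
      have hvx : ∀ {u : ℕ}, (G.star u).card = 3 → u ≠ v := by
        rintro u hu rfl
        omega
      exact h4c o G hG h1 h2 x x' y v e e' d d' g g' F H hC hC' hT hT' hex hex'
        (E_of_mem hC.me' hdv (hvx hC.card)) (E_of_mem hC'.me' hdv' (hvx hC'.card))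
  refine ⟨hcub, ?_, ?_⟩
  · intro e he e' he' F hF hS hS'
    by_contra hne
    refine h6 o G hG h1 h2 e he e' he' F hF hne hS hS' ?_
    intro v hv hv2 hev
    have := hcub v hv (hS.touch hev).1
    omega
  · intro e e' x x' hne hE hE' heo heo'
    obtain ⟨F, hF, hS⟩ := h1.other hE.mem heo
    have key : ∀ {u : ℕ}, e ∈ G.star u → e' ∈ G.star u → ∃ g F', G.Cub o u e g e' F F' := by
      intro u hu hu'
      have hto := hS.touch hu
      have huv : u ∈ G.vs := (touch_mem hgood hto.1).1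
      obtain ⟨g, d, F', hC⟩ := cub_at hgood h1 hu hS hF (hcub u huv hto.1)
      rcases hC.oe hu' heo' with h | h
      · exact absurd h.symm hne
      · rw [← h] at hC
        exact ⟨g, F', hC⟩
    obtain ⟨g, F', hC⟩ := key hE.left hE'.left
    obtain ⟨g1, F1, hC'⟩ := key hE.right hE'.right
    have hFF : F1 = F' := hC'.se'.other hC.se'
    rw [hFF] at hC'
    exact h4a o G hG h1 h2 x x' e e' g g1 F F' hC hC' hE hE'

end Gr

end Pool.Agent.Lib.MP06c549.T6H
end
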