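import Pool.Agent.Lib.MP_06c549_co.T6H.Side
import Pool.Agent.Lib.MP_06c549_co.T6H.Spec
import Pool.Agent.Lib.MP_06c549_co.T6H.Step56
import Pool.Agent.Lib.MP_06c549_co.T6H.K4P
import Pool.Agent.Lib.MP_06c549_co.T6H.Step23

section
/-!
# MP_06c549_co, T6H, step 1: a minimal counterexample is connected, has no leaves and no cut
vertices, no faces in `ns`
-/
set_option autoImplicit false

namespace Pool.Agent.Lib.MP06c549.T6H

open Finset

namespace Gr

variable {G : Gr}

/-! ## Splits -/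

lemma Split.subA {u : ℕ} {c A B : Finset ℕ} (h : G.Split u c A B) : A ⊆ G.vs :=
  fun a ha => (h.cov a).2 (Or.inl ha)

lemma Split.subB {u : ℕ} {c A B : Finset ℕ} (h : G.Split u c A B) : B ⊆ G.vs := h.symm.subA

lemma Split.tf_or (hG : G.Good) {u : ℕ} {c A B : Finset ℕ} (h : G.Split u c A B)
    (hc : c.card ≤ 1) (hu : u ∈ G.fs) {i : ℕ} (hi : i ∈ G.fs) (hne : i ≠ u) :
    i ∈ G.tf A ∨ i ∈ G.tf B := by
  obtain ⟨d, hd, hdi⟩ := face_edge hG hi hu hne
  rcases h.edge hG hc hd with h1 | h1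
  · exact Or.inl (mem_tf.2 ⟨d, h1, hdi⟩)
  · exact Or.inr (mem_tf.2 ⟨d, h1, hdi⟩)

lemma Split.tf_and {u : ℕ} {c A B : Finset ℕ} (h : G.Split u c A B) {i : ℕ} (h1 : i ∈ G.tf A)
    (h2 : i ∈ G.tf B) : i = u := by
  obtain ⟨d, hd, hdi⟩ := mem_tf.1 h1
  obtain ⟨d', hd', hdi'⟩ := mem_tf.1 h2
  exact h.face d hd d' hd' i hdi hdi'

lemma Split.card {u : ℕ} {c A B : Finset ℕ} (h : G.Split u c A B) :
    A.card + B.card + c.card = G.vs.card := by
  have h1 : G.vs = (A ∪ B) ∪ c := by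
    ext a
    rw [h.cov a, mem_union, mem_union, or_assoc]
  rw [h1, card_union_of_disjoint, card_union_of_disjoint h.dAB]
  exact disjoint_union_left.2 ⟨h.dAc, h.dBc⟩

lemma Split.ws (hG : G.Good) {u : ℕ} {c A B : Finset ℕ} (h : G.Split u c A B)
    (hc : c.card ≤ 1) : G.ws (G.tds A) + G.ws (G.tds B) = G.ws G.ds := by
  rw [← ws_union]
  · congr 1
    ext d
    rw [mem_union]
    constructor
    · rintro (h1 | h1)
      · exact tds_sub h1
      · exact tds_sub h1
    · exact fun h1 => h.edge hG hc h1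
  · rw [disjoint_left]
    exact fun d h1 => h.edge_not h1

/-- the potentials of the two parts of a split -/
theorem Split.pot (a b c : ℕ) (hG : G.Good) {u : ℕ} (hu : u ∈ G.cs) {s A B : Finset ℕ}
    (h : G.Split u s A B) (hs : s.card ≤ 1) :
    (G.del A u).pot a b c + (G.del B u).pot a b c = G.pot a b c + a * s.card := by
  have huf := cs_sub hG hu
  have h1 := pot_del a b c hG hu h.subA
  have h2 := pot_del a b c hG hu h.subB
  have h3 := pot_erase a b c hu
  have h4 := h.card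
  have h5 := h.ws hG hs
  have h6 : (G.tf A \ G.cs).card + (G.tf B \ G.cs).card = (G.fs \ G.cs).card := by
    rw [← card_union_of_disjoint]
    · congr 1
      ext i
      simp only [mem_union, mem_sdiff]
      constructor
      · rintro (⟨h7, h8⟩ | ⟨h7, h8⟩)
        · exact ⟨tf_sub hG h7, h8⟩
        · exact ⟨tf_sub hG h7, h8⟩
      · rintro ⟨h7, h8⟩
        rcases h.tf_or hG hs huf h7 (fun h9 => h8 (h9 ▸ hu)) with h9 | h9
        · exact Or.inl ⟨h9, h8⟩
        · exact Or.inr ⟨h9, h8⟩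
    · rw [disjoint_left]
      intro i h7 h8
      rw [mem_sdiff] at h7 h8
      exact h7.2 (h.tf_and h7.1 h8.1 ▸ hu)
  have h7 : ((G.tf A ∩ G.cs).erase u).card + ((G.tf B ∩ G.cs).erase u).card =
      (G.cs.erase u).card := by
    rw [← card_union_of_disjoint]
    · congr 1
      ext i
      simp only [mem_union, mem_erase, mem_inter]
      constructor
      · rintro (⟨h7, _, h8⟩ | ⟨h7, _, h8⟩)
        · exact ⟨h7, h8⟩
        · exact ⟨h7, h8⟩
      · rintro ⟨h7, h8⟩
        rcases h.tf_or hG hs huf (cs_sub hG h8) h7 with h9 | h9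
        · exact Or.inl ⟨h7, h9, h8⟩
        · exact Or.inr ⟨h7, h9, h8⟩
    · rw [disjoint_left]
      intro i h7 h8
      rw [mem_erase, mem_inter] at h7 h8
      exact h7.1 (h.tf_and h7.2.1 h8.2.1)
  rw [← h4, ← h5, ← h6, ← h7] at h3
  simp only [mul_add] at h3
  omega

/-- a cover of `G` from covers of the two parts of a split -/
theorem Split.cost (hG : G.Good) {u : ℕ} {s A B : Finset ℕ} (h : G.Split u s A B)
    (hs : s.card ≤ 1) (hA : (G.del A u).Good) (hB : (G.del B u).Good) {S T : Finset ℕ}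
    (hS : S ⊆ (G.del B u).vs) (hT : T ⊆ (G.del A u).vs) :
    G.cost (S ∪ T) + (S ∩ T).card ≤ (G.del B u).cost S + (G.del A u).cost T := by
  obtain ⟨X, Y, ⟨hX, hY, hd⟩, hSX, h3⟩ := exists_cost hB hS
  obtain ⟨X', Y', ⟨hX', hY', hd'⟩, hTX, h3'⟩ := exists_cost hA hT
  obtain ⟨k1, k2⟩ := usable_del hY
  obtain ⟨k1', k2'⟩ := usable_del hY'
  have hdB : ∀ d ∈ G.tds A, d ∈ (G.del B u).ds := fun d hd =>
    mem_sdiff.2 ⟨tds_sub hd, h.edge_not hd⟩
  have hdA : ∀ d ∈ G.tds B, d ∈ (G.del A u).ds := fun d hd =>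
    mem_sdiff.2 ⟨tds_sub hd, h.symm.edge_not hd⟩
  have h4 : G.IsCov (X ∪ X') (Y ∪ Y') := by
    refine ⟨union_subset (hX.trans sdiff_subset) (hX'.trans sdiff_subset),
      union_subset (fun i hi => mem_sdiff.2 ⟨(k1 i hi).1, (k1 i hi).2.1⟩)
        fun i hi => mem_sdiff.2 ⟨(k1' i hi).1, (k1' i hi).2.1⟩, fun d hds => ?_⟩
    rcases h.edge hG hs hds with h1 | h1
    · rcases hd d (hdB d h1) with h2 | h2 | h2 | h2
      · exact Or.inl (mem_union_left _ h2)
      · exact Or.inr (Or.inl (mem_union_left _ h2))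
      · exact Or.inr (Or.inr (Or.inl (mem_union_left _ (k2 _ h2))))
      · exact Or.inr (Or.inr (Or.inr (mem_union_left _ (k2 _ h2))))
    · rcases hd' d (hdA d h1) with h2 | h2 | h2 | h2
      · exact Or.inl (mem_union_right _ h2)
      · exact Or.inr (Or.inl (mem_union_right _ h2))
      · exact Or.inr (Or.inr (Or.inl (mem_union_right _ (k2' _ h2))))
      · exact Or.inr (Or.inr (Or.inr (mem_union_right _ (k2' _ h2))))
  have h5 := cost_le h4 (union_subset_union hSX hTX)
  have h6 := card_union_add_card_inter X X'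
  have h6' := card_le_card (inter_subset_inter hSX hTX)
  have h7 := G.fpr_union_le Y Y'
  have h7a := fpr_del hY
  have h7b := fpr_del hY'
  have h8 : G.nb G.ds (Y ∪ Y') ⊆
      (G.del B u).nb (G.del B u).ds Y ∪ (G.del A u).nb (G.del A u).ds Y' := by
    intro d hd
    obtain ⟨hds, hd2, hd3⟩ := mem_nb.1 hd
    rcases h.edge hG hs hds with h1 | h1
    · exact mem_union_left _ (mem_nb.2 ⟨hdB d h1, fun h => hd2 (mem_union_left _ (k2 _ h)),
        fun h => hd3 (mem_union_left _ (k2 _ h))⟩)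
    · exact mem_union_right _ (mem_nb.2 ⟨hdA d h1, fun h => hd2 (mem_union_right _ (k2' _ h)),
        fun h => hd3 (mem_union_right _ (k2' _ h))⟩)
  have h9 := (ws_mono (G := G) h8).trans (ws_union_le _ _)
  have h10 : G.ws ((G.del B u).nb (G.del B u).ds Y) =
      (G.del B u).ws ((G.del B u).nb (G.del B u).ds Y) := rfl
  have h11 : G.ws ((G.del A u).nb (G.del A u).ds Y') =
      (G.del A u).ws ((G.del A u).nb (G.del A u).ds Y') := rfl
  unfold price at h3 h3' h5
  omega

/-- the vertex of a split has a neighbour in `A` -/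
lemma Split.exists_edge (hG : G.Good) (hc : G.Conn) {u v : ℕ} (hv : v ∈ G.vs) {A B : Finset ℕ}
    (h : G.Split u {v} A B) : ∃ e ∈ G.star v, e ∈ G.tds A := by
  classical
  by_contra hcon
  push Not at hcon
  obtain ⟨a, ha⟩ := h.nA
  have hvA : v ∉ A := fun h1 => disjoint_left.1 h.dAc h1 (mem_singleton_self v)
  have key : ∀ d x y, G.E d x y → x ∈ A → y ∈ A := by
    intro d x y hd hx
    rcases (h.cov y).1 (hd.symm.memv hG) with h1 | h1 | h1
    · exact h1
    · exact absurd hd (h.noe d x hx y h1)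
    · rw [mem_singleton] at h1
      subst h1
      exact absurd (star_sub_tds hx hd.left) (hcon d hd.right)
  have h1 := hc (fun z => if z ∈ A then 1 else 0) (by
    intro d hd
    have hE : G.E d (G.p d) (G.q d) := ⟨hd, Or.inl ⟨rfl, rfl⟩⟩
    by_cases h1 : G.p d ∈ A
    · rw [if_pos h1, if_pos (key d _ _ hE h1)]
    · rw [if_neg h1, if_neg fun h2 => h1 (key d _ _ hE.symm h2)]) a (h.subA ha) v hv
  rw [if_pos ha, if_neg hvA] at h1
  exact one_ne_zero h1

/-- the face of a split occurs at its vertex on both sides -/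
lemma Split.exists_face (hG : G.Good) (hc : G.Conn) {u v : ℕ} (hv : v ∈ G.vs) {A B : Finset ℕ}
    (h : G.Split u {v} A B) : ∃ e ∈ G.star v, e ∈ G.tds A ∧ G.HasS e u := by
  classical
  by_contra hcon
  push Not at hcon
  obtain ⟨e, he, heA⟩ := h.exists_edge hG hc hv
  obtain ⟨e', he', heB⟩ := h.symm.exists_edge hG hc hv
  let x : ℕ → ZMod 2 := fun i => if ∃ d ∈ G.star v, d ∈ G.tds A ∧ G.HasS d i then 1 else 0
  have hx1 : ∀ d ∈ G.star v, d ∈ G.tds A → ∀ i, G.HasS d i → x i = 1 :=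
    fun d hd hdA i hi => if_pos ⟨d, hd, hdA, hi⟩
  have hx0 : ∀ d ∈ G.tds B, ∀ i, G.HasS d i → x i = 0 := by
    intro d hd i hi
    refine if_neg ?_
    rintro ⟨d', hd', hdA', hi'⟩
    have h1 := h.face d' hdA' d hd i hi' hi
    exact hcon d' hd' hdA' (h1 ▸ hi')
  have h1 := hG.link v hv x (by
    intro d hd
    rcases h.edge hG (by simp) (star_sub hd) with h1 | h1
    · rw [hx1 d hd h1 _ (Or.inl rfl), hx1 d hd h1 _ (Or.inr rfl)]
    · rw [hx0 d h1 _ (Or.inl rfl), hx0 d h1 _ (Or.inr rfl)]) e he e' he'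
  rw [hx1 e he heA _ (Or.inl rfl), hx0 e' heB _ (Or.inl rfl)] at h1
  exact one_ne_zero h1

/-- an edge at the vertex `v` of a split in the part without `B` -/
lemma Split.star_del {u v : ℕ} {A B : Finset ℕ} (h : G.Split u {v} A B) {e : ℕ}
    (he : e ∈ G.star v) (heA : e ∈ G.tds A) : e ∈ (G.del B u).star v := by
  rw [Gr.star_del]
  exact mem_sdiff.2 ⟨he, h.edge_not heA⟩

/-- the number of further faces at the vertex of a split on one side: `g = 0`, or `g = 1` and some
edge has a side other than `u` -/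
lemma Split.touch_del {u v : ℕ} {A B : Finset ℕ} (h : G.Split u {v} A B) {e i : ℕ}
    (he : e ∈ G.star v) (heA : e ∈ G.tds A) (hi : G.HasS e i) : (G.del B u).Touch v i := by
  refine ⟨e, h.star_del he heA, ?_⟩
  have key : G.phi B u i = i := by
    by_cases h1 : i ∈ G.tf B
    · rw [phi_of_mem h1]
      exact (h.tf_and (mem_tf.2 ⟨e, heA, hi⟩) h1).symm
    · exact phi_of_not h1
  rcases hi with hi | hi
  · left
    change G.phi B u (G.l e) = i
    rw [hi, key]
  · right
    change G.phi B u (G.r e) = i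
    rw [hi, key]

/-- a split gives a good cover, or the same bound with `b` times the number `g` of further faces -/
theorem split_bound {a b c N m u v g : ℕ} (hbc : b ≤ c) (hN : N ≤ 2 * a) (hG : G.Cls u m)
    (hn : Bnd a b c N m G.vs.card) (hc : G.Conn) (hv : v ∈ G.vs) {A B : Finset ℕ}
    (h : G.Split u {v} A B)
    (hgA : ∃ F, F ⊆ ((G.del B u).tf {v}).erase u ∧ F.card = g)
    (hgB : ∃ F, F ⊆ ((G.del A u).tf {v}).erase u ∧ F.card = g) :
    N * G.tau + N ≤ G.pot a b c + a ∨ N * G.tau + b * g ≤ G.pot a b c := by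
  have hGood := hG.good
  have huf := hGood.us_sub hG.hu
  have hs1 : ({v} : Finset ℕ).card ≤ 1 := by simp
  have hFB : G.FC B u := h.FC hGood hs1 huf
  have hFA : G.FC A u := h.symm.FC hGood hs1 huf
  have hKB := hG.del hFB
  have hKA := hG.del hFA
  have hpot := h.pot a b c hGood hG.huc hs1
  rw [card_singleton, mul_one] at hpot
  have hcard : ∀ W : Finset ℕ, W ⊆ G.vs → W.Nonempty → (G.del W u).vs.card < G.vs.card := by
    intro W hW hne
    have h1 := del_card (u := u) hW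
    have h2 := hne.card_pos
    omega
  have hlB := hcard B h.subB h.nB
  have hlA := hcard A h.subA h.nA
  have hiB := hn u _ hKB hlB
  have hiA := hn u _ hKA hlA
  have hvB : v ∈ (G.del B u).vs :=
    mem_sdiff.2 ⟨hv, fun h1 => disjoint_left.1 h.dBc h1 (mem_singleton_self v)⟩
  have hvA : v ∈ (G.del A u).vs :=
    mem_sdiff.2 ⟨hv, fun h1 => disjoint_left.1 h.dAc h1 (mem_singleton_self v)⟩
  obtain ⟨e1, he1, he1A, he1u⟩ := h.exists_face hGood hc hv
  obtain ⟨e2, he2, he2B, he2u⟩ := h.symm.exists_face hGood hc hv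
  obtain ⟨F1, hF1, hF1c⟩ := hgA
  obtain ⟨F2, hF2, hF2c⟩ := hgB
  have hT1 := cost_T (T := {v}) (B := F1) hbc hN (hn.mono hlB.le) hKB le_rfl
    (singleton_subset_iff.2 hvB) (singleton_nonempty v)
    (FC_single hKB.good hvB (Or.inr (h.touch_del he1 he1A he1u))) hF1
  have hT2 := cost_T (T := {v}) (B := F2) hbc hN (hn.mono hlA.le) hKA le_rfl
    (singleton_subset_iff.2 hvA) (singleton_nonempty v)
    (FC_single hKA.good hvA (Or.inr (h.symm.touch_del he2 he2B he2u))) hF2
  rw [card_singleton, mul_one, mul_one, hF1c] at hT1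
  rw [card_singleton, mul_one, mul_one, hF2c] at hT2
  have hle1 := tau_le_cost hKB.good (singleton_subset_iff.2 hvB)
  have hle2 := tau_le_cost hKA.good (singleton_subset_iff.2 hvA)
  have hc0 := h.cost hGood hs1 hKA.good hKB.good (S := ∅) (T := ∅) (empty_subset _)
    (empty_subset _)
  have hc1 := h.cost hGood hs1 hKA.good hKB.good (S := {v}) (T := {v})
    (singleton_subset_iff.2 hvB) (singleton_subset_iff.2 hvA)
  rw [union_idempotent, inter_self, card_singleton] at hc1
  have hct := tau_le_cost hGood (singleton_subset_iff.2 hv)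
  have hct0 : G.tau ≤ (G.del B u).tau + (G.del A u).tau := by
    unfold tau
    simp only [empty_union, empty_inter, card_empty, add_zero] at hc0
    exact hc0
  by_cases h1 : (G.del B u).cost {v} = (G.del B u).tau
  · by_cases h2 : (G.del A u).cost {v} = (G.del A u).tau
    · left
      rw [h1, h2] at hc1
      have h3 : G.tau + 1 ≤ (G.del B u).tau + (G.del A u).tau := by omega
      have h4 := Nat.mul_le_mul_left N h3
      rw [mul_add, mul_add, mul_one] at h4
      omega
    · right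
      have h3 : (G.del A u).tau + 1 ≤ (G.del A u).cost {v} := by omega
      have h4 := Nat.mul_le_mul_left N h3
      have h5 := Nat.mul_le_mul_left N hct0
      rw [mul_add, mul_one] at h4
      rw [mul_add] at h5
      omega
  · right
    have h3 : (G.del B u).tau + 1 ≤ (G.del B u).cost {v} := by omega
    have h4 := Nat.mul_le_mul_left N h3
    have h5 := Nat.mul_le_mul_left N hct0
    rw [mul_add, mul_one] at h4
    rw [mul_add] at h5
    omega

/-! ## Faces in `ns` -/

/-- the face `k` gets the credit `c` -/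
def unN (G : Gr) (k : ℕ) : Gr := { G with ns := G.ns.erase k }

lemma Good.unN (hG : G.Good) (k : ℕ) : (G.unN k).Good :=
  ⟨hG.ends, hG.ne, hG.sides, hG.us_sub, hG.us_ne, hG.even, hG.exact, hG.dconn, hG.link, hG.simp,
    hG.bconn⟩

lemma Cls.unN {u m : ℕ} (hG : G.Cls u m) (hb : ∀ i, G.BC i) {k : ℕ} (hk : k ∈ G.us) :
    (G.unN k).Cls k m where
  good := hG.good.unN k
  girth := hG.girth
  hu := hk
  um := hG.um
  bc := fun i _ _ => hb i
  hun := notMem_erase _ _
  hsub := hG.hsub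
  nsub := (erase_subset _ _).trans hG.nsub
  hlen := hG.hlen
  npend := fun i hi => hG.npend i (mem_of_mem_erase hi)
  nns := fun i hi => hG.nns i (mem_of_mem_erase hi)

lemma pot_unN (a b c : ℕ) {u m : ℕ} (hG : G.Cls u m) {k : ℕ} (hk : k ∈ G.ns) :
    (G.unN k).pot a b c + b = G.pot a b c + c := by
  have hkf := hG.good.us_sub (hG.nsub hk)
  have h1 : (G.unN k).cs = insert k G.cs := by
    ext i
    simp only [cs, unN, mem_sdiff, mem_erase, mem_insert, not_and]
    constructor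
    · rintro ⟨h2, h3⟩
      by_cases h4 : i = k
      · exact Or.inl h4
      · exact Or.inr ⟨h2, h3 h4⟩
    · rintro (h2 | ⟨h2, h3⟩)
      · subst h2
        exact ⟨hG.nsub hk, fun h4 => absurd rfl h4⟩
      · exact ⟨h2, fun _ => h3⟩
  have hkc : k ∉ G.cs := fun h => (mem_cs.1 h).2 hk
  have h2 : (G.unN k).fs \ (G.unN k).cs = (G.fs \ G.cs).erase k := by
    rw [h1]
    change G.fs \ _ = _
    ext i
    simp only [mem_sdiff, mem_insert, mem_erase, not_or]
    tauto
  have h3 : 0 < G.cs.card := card_pos.2 ⟨u, hG.huc⟩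
  have h4 : k ∈ G.fs \ G.cs := mem_sdiff.2 ⟨hkf, hkc⟩
  have h5 := card_erase_add_one h4
  unfold pot
  rw [h2, h1, card_insert_of_notMem hkc, Nat.add_sub_cancel, ← h5]
  obtain ⟨t, ht⟩ := Nat.exists_eq_add_of_lt h3
  rw [zero_add] at ht
  rw [ht, Nat.add_sub_cancel]
  change a * G.vs.card + 2 * a * G.ws G.ds + _ + _ + _ = _
  ring


/-! ## The minimal counterexample -/

/-- a minimal counterexample is connected -/
theorem Cx0.conn {a b c N m u : ℕ} (hG : Cx0 a b c N m u G) (hbc : b ≤ c) (hN : N ≤ 2 * a) :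
    G.Conn := by
  classical
  intro f hf x hx y hy
  by_contra hxy
  have key : ∀ g : ℕ → ZMod 2, (∀ d ∈ G.ds, g (G.p d) = g (G.q d)) →
      G.FC (G.vs \ G.vs.filter fun z => g z = 1) u := by
    intro g hg
    refine comp_FC hG.cls.good hG.cls.hu hG.cls.bc (f := fun z => g z + 1)
      (fun d hd => by rw [hg d hd]) fun z hz => ?_
    rw [mem_sdiff, mem_filter]
    have h2 : ∀ t : ZMod 2, ¬ t = 1 ↔ t + 1 = 1 := by decide
    rw [← h2]
    tauto
  have h1 := key f hf
  have h2 := key (fun z => f z + 1) (fun d hd => by rw [hf d hd])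
  set V₁ := G.vs.filter fun z => f z = 1 with hV₁
  set V₂ := G.vs.filter fun z => f z + 1 = 1 with hV₂
  have hdisj : Disjoint V₁ V₂ := by
    rw [disjoint_left]
    intro z hz hz'
    have h3 := (mem_filter.1 hz).2
    have h4 := (mem_filter.1 hz').2
    rw [h3] at h4
    exact absurd h4 (by decide)
  have hlt : ∀ V : Finset ℕ, V ⊆ G.vs → (∃ z ∈ G.vs, z ∉ V) → V.card < G.vs.card := by
    rintro V hV ⟨z, hz, hz'⟩
    exact card_lt_card ⟨hV, fun h => hz' (h hz)⟩
  have hV₁l : V₁.card < G.vs.card ∧ V₂.card < G.vs.card := by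
    have h3 : ∀ s t : ZMod 2, s ≠ t → (s = 1 ∧ t + 1 = 1) ∨ (s + 1 = 1 ∧ t = 1) := by decide
    have h4 : ∀ s : ZMod 2, s = 1 → ¬ s + 1 = 1 := by decide
    have h5 : ∀ s : ZMod 2, s + 1 = 1 → ¬ s = 1 := by decide
    rcases h3 _ _ hxy with ⟨h6, h7⟩ | ⟨h6, h7⟩
    · exact ⟨hlt _ (filter_subset _ _) ⟨y, hy, fun h => h5 _ h7 (mem_filter.1 h).2⟩,
        hlt _ (filter_subset _ _) ⟨x, hx, fun h => h4 _ h6 (mem_filter.1 h).2⟩⟩
    · exact ⟨hlt _ (filter_subset _ _) ⟨x, hx, fun h => h5 _ h6 (mem_filter.1 h).2⟩,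
        hlt _ (filter_subset _ _) ⟨y, hy, fun h => h4 _ h7 (mem_filter.1 h).2⟩⟩
  have h3 := hG.move_two_le hbc hN (V₁ := V₁) (V₂ := V₂) (T₁ := ∅) (T₂ := ∅) (X₀ := ∅) (Y₀ := ∅)
    (B := ∅) (filter_subset _ _) (filter_subset _ _) hdisj h1 h2 (empty_subset _)
    (empty_subset _) (empty_subset _) (empty_subset _) (empty_subset _) (empty_subset _) (by
      intro d hd
      exfalso
      obtain ⟨hd1, hd2, hd3⟩ := mem_rest.1 hd
      have he := hG.cls.good.ends d hd1
      rcases zmod2 (f (G.p d)) with h | h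
      · refine hd3 ⟨mem_filter.2 ⟨he.1, by rw [h, zero_add]⟩, mem_filter.2 ⟨he.2, ?_⟩⟩
        rw [← hf d hd1, h, zero_add]
      · refine hd2 ⟨mem_filter.2 ⟨he.1, h⟩, mem_filter.2 ⟨he.2, ?_⟩⟩
        rw [← hf d hd1, h])
  have h4 := hG.ih u _ (hG.cls.del h1) (by
    rw [vs_del_compl (filter_subset _ _)]
    exact hV₁l.1)
  have h5 := hG.ih u _ (hG.cls.del h2) (by
    rw [vs_del_compl (filter_subset _ _)]
    exact hV₁l.2)
  simp only [card_empty, fpr_empty, mul_zero, zero_add, add_zero, mul_add] at h3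
  unfold tau at h4 h5
  omega

/-- a minimal counterexample has no leaves -/
theorem Cx0.no_leaf {a b c N m u : ℕ} (hG : Cx0 a b c N m u G) (hbc : b ≤ c) (hN : N ≤ 2 * a)
    (hNc : N + c ≤ 2 * a + 2 * b) {x d : ℕ} (hx : x ∈ G.vs) (hs : G.star x = {d}) : False := by
  classical
  have hGood := hG.cls.good
  have hconn := hG.conn hbc hN
  have hd : d ∈ G.star x := by rw [hs]; exact mem_singleton_self d
  obtain ⟨y, hE⟩ := exists_E hd
  have hy : y ∈ G.vs := hE.symm.memv hGood
  have hxy : x ≠ y := hE.ne hGood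
  have hlr := leaf hGood hx hs
  have hFC : ∀ j, G.Touch y j → G.FC (insert x {y}) j := by
    intro j hj
    refine FC_insert hGood (FC_single hGood hy (Or.inr hj)) hx (Or.inr (Or.inr ⟨d, hd, ?_⟩))
    exact star_sub_tds (mem_singleton_self y) hE.right
  have hW : insert x {y} ⊆ G.vs := insert_subset hx (singleton_subset_iff.2 hy)
  have hcov : ∀ e ∈ G.tds (insert x {y}), G.p e ∈ ({y} : Finset ℕ) ∨ G.q e ∈ ({y} : Finset ℕ) ∨
      G.l e ∈ (∅ : Finset ℕ) ∨ G.r e ∈ (∅ : Finset ℕ) := by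
    intro e he
    have h1 : e ∈ G.star y := by
      rw [tds_insert, mem_union, hs, mem_singleton] at he
      rcases he with he | he
      · rw [he]; exact hE.right
      · rw [mem_tds, mem_singleton, mem_singleton] at he
        exact mem_star.2 he
    rcases (mem_star.1 h1).2 with h2 | h2
    · exact Or.inl (mem_singleton.2 h2)
    · exact Or.inr (Or.inl (mem_singleton.2 h2))
  by_cases hcs : ∃ j ∈ G.cs, G.Touch y j
  · obtain ⟨j, hj, hyj⟩ := hcs
    have hG' := hG.change hj (Conn.bc hGood hconn u)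
    have h1 := hG'.move hbc hN hW ⟨x, mem_insert_self _ _⟩ (hFC j hyj)
      (singleton_subset_iff.2 hy) (empty_subset _) (empty_subset _) hcov
    rw [card_pair hxy, card_singleton, fpr_empty, card_empty] at h1
    omega
  · push Not at hcs
    have huk : G.l d ≠ u := by
      intro h
      exact hcs u hG.cls.huc ⟨d, hE.right, Or.inl h⟩
    -- another face at `y`
    have hother : ∃ i, i ≠ G.l d ∧ G.Touch y i := by
      by_contra hcon
      push Not at hcon
      have hall : ∀ e ∈ G.star y, G.l e = G.l d ∧ G.r e = G.l d := by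
        intro e he
        constructor
        · by_contra h
          exact hcon _ h ⟨e, he, Or.inl rfl⟩
        · by_contra h
          exact hcon _ h ⟨e, he, Or.inr rfl⟩
      have hpend : ∀ e ∈ G.star y, ∀ z, G.E e y z → G.star z = {e} := by
        intro e he z hez
        by_cases hed : e = d
        · subst hed
          rw [← hs, hE.symm.other hGood hez]
        · have hk : G.l d ∈ G.us := by
            by_contra hk
            have h1 := hGood.simp y hy _ (hGood.sides d hE.1).1 hk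
            have h2 : (G.star y).filter (fun e => G.l e = G.l d) = G.star y :=
              filter_true_of_mem fun e he => (hall e he).1
            have h3 : (G.star y).filter (fun e => G.r e = G.l d) = G.star y :=
              filter_true_of_mem fun e he => (hall e he).2
            unfold cnt at h1
            rw [h2, h3] at h1
            have h4 : ({e, d} : Finset ℕ) ⊆ G.star y :=
              insert_subset he (singleton_subset_iff.2 hE.right)
            have h5 := card_le_card h4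
            rw [card_pair hed] at h5
            omega
          have hkn : G.l d ∈ G.ns := by
            by_contra h
            exact hcs _ (mem_cs.2 ⟨hk, h⟩) ⟨d, hE.right, Or.inl rfl⟩
          obtain ⟨z', hz'⟩ := hG.cls.npend _ hkn e (star_sub he) (hall e he).1 (hall e he).2
          have hez' : e ∈ G.star z' := by rw [hz']; exact mem_singleton_self e
          rcases hez.ends hez' with h1 | h1
          · exfalso
            have h2 : d ∈ G.star z' := by rw [h1]; exact hE.right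
            rw [hz', mem_singleton] at h2
            exact hed h2.symm
          · rw [← h1]; exact hz'
      have hclosed : ∀ z ∈ G.vs, z = y ∨ ∃ e ∈ G.star y, G.E e y z := by
        intro z hz
        have key : ∀ e p q, G.E e p q → (p = y ∨ ∃ e ∈ G.star y, G.E e y p) →
            (q = y ∨ ∃ e ∈ G.star y, G.E e y q) := by
          rintro e p q he (rfl | ⟨e', he', hep⟩)
          · exact Or.inr ⟨e, he.left, he⟩
          · left
            have h1 := hpend e' he' p hep
            have h2 : e ∈ G.star p := he.left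
            rw [h1, mem_singleton] at h2
            subst h2
            exact (hep.symm.other hGood he).symm
        have h1 := hconn (fun z => if z = y ∨ ∃ e ∈ G.star y, G.E e y z then 1 else 0) (by
          intro e he
          have hEe : G.E e (G.p e) (G.q e) := ⟨he, Or.inl ⟨rfl, rfl⟩⟩
          have h2 : (G.p e = y ∨ ∃ e' ∈ G.star y, G.E e' y (G.p e)) ↔
              (G.q e = y ∨ ∃ e' ∈ G.star y, G.E e' y (G.q e)) :=
            ⟨key e _ _ hEe, key e _ _ hEe.symm⟩
          simp only [h2]) z hz y hy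
        rw [if_pos (Or.inl rfl : y = y ∨ ∃ e ∈ G.star y, G.E e y y)] at h1
        by_contra h2
        rw [if_neg h2] at h1
        exact zero_ne_one h1
      obtain ⟨e, he, heu⟩ := face_edge hGood (hGood.us_sub hG.cls.hu) (hGood.sides d hE.1).1
        (Ne.symm huk)
      have hey : e ∈ G.star y := by
        rcases hclosed _ (hGood.ends e he).1 with h1 | ⟨e', he', h1⟩
        · exact mem_star.2 ⟨he, Or.inl h1⟩
        · have h2 := hpend e' he' _ h1
          have h3 : e ∈ G.star (G.p e) := mem_star.2 ⟨he, Or.inl rfl⟩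
          rw [h2, mem_singleton] at h3
          rw [h3]; exact he'
      rcases heu with h1 | h1
      · exact huk ((hall e hey).1.symm.trans h1)
      · exact huk ((hall e hey).2.symm.trans h1)
    obtain ⟨i, hik, e, he, hei⟩ := hother
    -- the face `k` is in `ns`
    have hk : G.l d ∈ G.us := by
      by_contra hk
      have h1 := hGood.simp y hy _ (hGood.sides d hE.1).1 hk
      have hed : e ≠ d := by
        rintro rfl
        rcases hei with h | h
        · exact hik h.symm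
        · exact hik (h.symm.trans hlr.symm)
      have hno : ∀ e' ∈ G.star y, e' ≠ d → ¬ (G.l e' = G.l d ∨ G.r e' = G.l d) := by
        intro e' he' hne h
        have h2 : G.cntS {d} (G.l d) = 2 := by
          unfold cntS
          rw [filter_true_of_mem, filter_true_of_mem, card_singleton]
          · intro d' hd'
            rw [mem_singleton.1 hd', hlr]
          · intro d' hd'
            rw [mem_singleton.1 hd']
        have h3 : 0 < G.cntS (G.star y \ {d}) (G.l d) :=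
          cntS_pos.2 ⟨e', mem_sdiff.2 ⟨he', fun h => hne (mem_singleton.1 h)⟩, h⟩
        have h4 := cntS_sdiff (G := G) (singleton_subset_iff.2 hE.right) (G.l d)
        rw [cnt_eq] at h1
        omega
      have h2 := hGood.link y hy (fun j => if j = G.l d then 1 else 0) (by
        intro e' he'
        by_cases h3 : e' = d
        · rw [h3, ← hlr]
        · have h4 := hno e' he' h3
          rw [not_or] at h4
          simp only [if_neg h4.1, if_neg h4.2]) d hE.right e he
      have h3 := hno e he hed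
      rw [not_or] at h3
      simp only [if_true, if_neg h3.1] at h2
      exact one_ne_zero h2
    have hkn : G.l d ∈ G.ns := by
      by_contra h
      exact hcs _ (mem_cs.2 ⟨hk, h⟩) ⟨d, hE.right, Or.inl rfl⟩
    have hK := hG.cls.unN (Conn.bc hGood hconn) hk
    have hp := pot_unN a b c hG.cls hkn
    have hm := cost_move_le (S := ∅) (B := {i}) hbc hN (n := G.vs.card) hG.ih hK le_rfl hW
      ⟨x, mem_insert_self _ _⟩ (hFC (G.l d) ⟨d, hE.right, Or.inl rfl⟩)
      (singleton_subset_iff.2 hy) (empty_subset _) (empty_subset _)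
      (singleton_subset_iff.2 (mem_erase.2 ⟨hik, tf_insert.2 (Or.inr (mem_tf_single.2
        ⟨e, he, hei⟩))⟩)) hcov
    have h0 : (G.unN (G.l d)).cost ∅ = G.tau := rfl
    rw [h0, card_pair hxy, card_singleton, card_singleton, fpr_empty] at hm
    have hbad := hG.bad
    omega

/-- no face occurs twice at a vertex of a minimal counterexample -/
theorem Cx0.cnt_le {a b c N m u : ℕ} (hG : Cx0 a b c N m u G) (hbc : b ≤ c) (hN : N ≤ 2 * a)
    (hNc : N + c ≤ 2 * a + 2 * b) (hcb : c ≤ 2 * b) (hac : a + c ≤ N + b) (j v : ℕ) :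
    G.cnt j v ≤ 3 := by
  by_contra hcon
  have h4 : 4 ≤ G.cnt j v := by omega
  have hGood := hG.cls.good
  have hconn := hG.conn hbc hN
  have hvj : G.Touch v j := cnt_touch.1 (by omega)
  obtain ⟨hv, hj⟩ := touch_mem hGood hvj
  have hju : j ∈ G.us := by
    by_contra hju
    have := hGood.simp v hv j hj hju
    omega
  obtain ⟨A, B, hs⟩ := exists_split hGood hv (fun k _ => Conn.bc hGood hconn k) h4
  have hbad := hG.bad
  by_cases hjn : j ∈ G.ns
  · have hK := hG.cls.unN (Conn.bc hGood hconn) hju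
    have hp := pot_unN a b c hG.cls hjn
    have hs' : (G.unN j).Split j {v} A B :=
      ⟨hs.cov, hs.dAB, hs.dAc, hs.dBc, hs.nA, hs.nB, hs.noe, hs.face⟩
    have key : ∀ A B, (G.unN j).Split j {v} A B →
        ∃ F, F ⊆ (((G.unN j).del B j).tf {v}).erase j ∧ F.card = 1 := by
      intro A B hs
      obtain ⟨e, he, heA⟩ := hs.exists_edge hK.good hconn hv
      have hne : ∃ i, i ≠ j ∧ (G.unN j).HasS e i := by
        by_contra hcon
        push Not at hcon
        have hl : G.l e = j := by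
          by_contra h
          exact hcon _ h (Or.inl rfl)
        have hr : G.r e = j := by
          by_contra h
          exact hcon _ h (Or.inr rfl)
        obtain ⟨z, hz⟩ := hG.cls.npend j hjn e (star_sub he) hl hr
        have hze : e ∈ G.star z := by rw [hz]; exact mem_singleton_self e
        obtain ⟨z', hz'⟩ := exists_E hze
        exact hG.no_leaf hbc hN hNc (hz'.memv hGood) hz
      obtain ⟨i, hi, hei⟩ := hne
      exact ⟨{i}, singleton_subset_iff.2 (mem_erase.2 ⟨hi, mem_tf_single.2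
        (hs.touch_del he heA hei)⟩), card_singleton i⟩
    have h0 : (G.unN j).tau = G.tau := rfl
    rcases split_bound hbc hN hK hG.ih hconn hv hs' (key A B hs') (key B A hs'.symm) with h | h
    · rw [h0] at h
      omega
    · rw [h0, mul_one] at h
      omega
  · have hG' := hG.change (mem_cs.2 ⟨hju, hjn⟩) (Conn.bc hGood hconn u)
    rcases split_bound (g := 0) hbc hN hG'.cls hG'.ih hconn hv hs ⟨∅, empty_subset _, rfl⟩
      ⟨∅, empty_subset _, rfl⟩ with h | h
    · omega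
    · omega

theorem Cx0.ncv {a b c N m u : ℕ} (hG : Cx0 a b c N m u G) (hbc : b ≤ c) (hN : N ≤ 2 * a)
    (hNc : N + c ≤ 2 * a + 2 * b) (hcb : c ≤ 2 * b) (hac : a + c ≤ N + b) {v : ℕ}
    (hv : v ∈ G.vs) : G.NCV v :=
  ncv_of_cnt hG.cls.good hv fun i _ => hG.cnt_le hbc hN hNc hcb hac i v

/-- a minimal counterexample has no faces in `ns` -/
theorem Cx0.cx {a b c N m u : ℕ} (hG : Cx0 a b c N m u G) (hbc : b ≤ c) (hN : N ≤ 2 * a)
    (hNc : N + c ≤ 2 * a + 2 * b) (hcb : c ≤ 2 * b) (hac : a + c ≤ N + b) :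
    Cx a b c N m u G := by
  refine ⟨hG, ?_⟩
  rw [eq_empty_iff_forall_notMem]
  intro i hi
  obtain ⟨v, hv, h3⟩ := hG.cls.nns i hi
  have h1 := hG.cnt_le hbc hN hNc hcb hac i v
  obtain ⟨k, hk⟩ := cnt_ev hG.cls.good hv i
  omega

/-- no edge of a minimal counterexample is a bridge -/
theorem Cx0.lr {a b c N m u : ℕ} (hG : Cx0 a b c N m u G) (hbc : b ≤ c) (hN : N ≤ 2 * a)
    (hNc : N + c ≤ 2 * a + 2 * b) (hcb : c ≤ 2 * b) (hac : a + c ≤ N + b)
    {d : ℕ} (hd : d ∈ G.ds) : G.l d ≠ G.r d := by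
  intro hlr
  have he := hG.cls.good.ends d hd
  exact hG.no_leaf hbc hN hNc he.1
    (bridge (hG.ncv hbc hN hNc hcb hac he.1) (mem_star.2 ⟨hd, Or.inl rfl⟩) hlr)

/-- all degrees of a minimal counterexample are at least two -/
theorem Cx0.two_le {a b c N m u : ℕ} (hG : Cx0 a b c N m u G) (hbc : b ≤ c) (hN : N ≤ 2 * a)
    (hNc : N + c ≤ 2 * a + 2 * b) {v : ℕ} (hv : v ∈ G.vs) : 2 ≤ (G.star v).card := by
  by_contra hcon
  have h0 : (G.star v).card = 0 ∨ (G.star v).card = 1 := by omega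
  rcases h0 with h0 | h0
  · rw [card_eq_zero] at h0
    have h1 := hG.move hbc hN (W := {v}) (X₀ := ∅) (Y₀ := ∅) (B := ∅)
      (singleton_subset_iff.2 hv) (singleton_nonempty v) (FC_single hG.cls.good hv (Or.inl h0))
      (empty_subset _) (empty_subset _) (empty_subset _) (by
        intro d hd
        exfalso
        rw [mem_tds, mem_singleton, mem_singleton, ← mem_star, h0] at hd
        exact notMem_empty _ hd)
    simp at h1
  · obtain ⟨d, hd⟩ := card_eq_one.1 h0
    exact hG.no_leaf hbc hN hNc hv hd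

end Gr

end Pool.Agent.Lib.MP06c549.T6H
end

section
/-!
# MP_06c549_co, T6H, step 1: the statement `P1`
-/
set_option autoImplicit false

namespace Pool.Agent.Lib.MP06c549.T6H

open Finset

namespace Gr

variable {G : Gr}

/-- Step 1 for a minimal counterexample, general weights -/
theorem Cx0.p1 {a b c N m u : ℕ} (hG : Cx0 a b c N m u G) (hbc : b ≤ c) (hN : N ≤ 2 * a)
    (hNc : N + c ≤ 2 * a + 2 * b) (hcb : c ≤ 2 * b) (hac : a + c ≤ N + b) : G.P1 where
  conn := hG.conn hbc hN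
  lr := fun _ hd => hG.lr hbc hN hNc hcb hac hd
  ncv := fun _ hv => hG.ncv hbc hN hNc hcb hac hv
  bc := fun i => Conn.bc hG.cls.good (hG.conn hbc hN) i
  deg := fun _ hv => hG.two_le hbc hN hNc hv

/-- every face at a vertex occurs there twice -/
lemma P1.cnt (hP : G.P1) (hG : G.Good) {v i : ℕ} (h : G.Touch v i) : G.cnt i v = 2 :=
  cnt_eq_two hG (hP.ncv v (touch_mem hG h).1) h

/-- the outer face can be any unusable face -/
lemma Cx.at_face {a b c N m u v : ℕ} (hG : Cx a b c N m u G) (hP : G.P1) (hv : v ∈ G.us) :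
    Cx a b c N m v G := hG.change hv (hP.bc u)

theorem spec_step1 (m : ℕ) : SpecStep1 m := fun _ _ h =>
  h.toCx0.p1 (by norm_num) (by norm_num) (by norm_num) (by norm_num) (by norm_num)

/-- a minimal counterexample has no faces in `ns` -/
theorem min_of_cx0 {m u : ℕ} (hG : Cx0 9 3 6 17 m u G) : Min m u G :=
  hG.cx (by norm_num) (by norm_num) (by norm_num) (by norm_num) (by norm_num)

end Gr

end Pool.Agent.Lib.MP06c549.T6H
end

section
/-!
# MP_06c549_co, T6H: the theorem from the steps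
-/
set_option autoImplicit false

namespace Pool.Agent.Lib.MP06c549.T6H

open Finset

namespace Gr

variable {G : Gr} {o m : ℕ}

lemma S.left {d i j : ℕ} (h : G.S d i j) : G.l d = i ∨ G.r d = i := by
  rcases h with h | h
  · exact Or.inl h.1
  · exact Or.inr h.2

/-- the next outer vertex -/
lemma next (hG : G.Good) (h1 : G.P1) (h3 : G.P3 o)
    (hspk : ∀ x e g e' F F', G.Cub o x e g e' F F' → ∃ b, G.Spk o x e g e' F F' b)
    {x e g e' F F' b : ℕ} (h : G.Spk o x e g e' F F' b) :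
    ∃ x' g' e'' F'' b', G.Spk o x' e' g' e'' F' F'' b' ∧ G.E e' x x' := by
  obtain ⟨x', hx'⟩ := exists_E h.cub.me'
  have ht : G.Touch x' o := (h.cub.se'.touch hx'.right).1
  obtain ⟨g', e'', F'', hc⟩ := cub_at hG h1 hx'.right h.cub.se' h.cub.f2
    (h3.cub x' (touch_mem hG ht).1 ht)
  obtain ⟨b', hb'⟩ := hspk _ _ _ _ _ _ hc
  exact ⟨x', g', e'', F'', b', hb', hx'⟩

/-- three consecutive outer vertices -/
lemma win3 (hG : G.Good) (h3 : G.P3 o) {x0 x1 x2 e0 e1 e2 e3 g0 g1 g2 F0 F1 F2 F3 b0 b1 b2 : ℕ}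
    (s0 : G.Spk o x0 e0 g0 e1 F0 F1 b0) (s1 : G.Spk o x1 e1 g1 e2 F1 F2 b1)
    (s2 : G.Spk o x2 e2 g2 e3 F2 F3 b2) (a1 : G.E e1 x0 x1) (a2 : G.E e2 x1 x2) :
    x0 ≠ x2 ∧ F0 ≠ F2 ∧ F1 ≠ F3 ∧ x0 ≠ x1 ∧ x1 ≠ x2 := by
  have n01 : x0 ≠ x1 := a1.ne hG
  have n12 : x1 ≠ x2 := a2.ne hG
  have n02 : x0 ≠ x2 := by
    rintro rfl
    exact h3.par e1 e2 x0 x1 s1.cub.n2 a1 a2.symm s1.cub.se.left s2.cub.se.left
  refine ⟨n02, ?_, ?_, n01, n12⟩
  · rintro rfl
    have h := h3.uniq e0 (star_sub s0.cub.me) e2 a2.1 F0 s0.cub.f1 s0.cub.se s2.cub.se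
    have h4 := s0.cub.me
    rw [h] at h4
    rcases a2.ends h4 with h5 | h5
    · exact n01 h5
    · exact n02 h5
  · rintro rfl
    have h := h3.uniq e1 a1.1 e3 (star_sub s2.cub.me') F1 s1.cub.f1 s1.cub.se s2.cub.se'
    have h4 := s2.cub.me'
    rw [← h] at h4
    rcases a1.ends h4 with h5 | h5
    · exact n02 h5.symm
    · exact n12 h5.symm

/-- four consecutive outer vertices, `k ≥ 4` -/
lemma win4 (hG : G.Good) (h3 : G.P3 o)
    {x0 x1 x2 x3 e0 e1 e2 e3 e4 g0 g1 g2 g3 F0 F1 F2 F3 F4 b0 b1 b2 b3 : ℕ}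
    (s0 : G.Spk o x0 e0 g0 e1 F0 F1 b0) (s1 : G.Spk o x1 e1 g1 e2 F1 F2 b1)
    (s2 : G.Spk o x2 e2 g2 e3 F2 F3 b2) (s3 : G.Spk o x3 e3 g3 e4 F3 F4 b3)
    (a1 : G.E e1 x0 x1) (a2 : G.E e2 x1 x2) (a3 : G.E e3 x2 x3) (he : e0 ≠ e3) :
    x0 ≠ x3 ∧ F1 ≠ F4 := by
  obtain ⟨n02, -, -, n01, n12⟩ := win3 hG h3 s0 s1 s2 a1 a2
  obtain ⟨n13, -, -, -, n23⟩ := win3 hG h3 s1 s2 s3 a2 a3
  have n03 : x0 ≠ x3 := by
    rintro rfl
    rcases s0.cub.oe a3.right s3.cub.se.left with h | h
    · exact he h.symm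
    · rw [h] at a3
      rcases a1.ends a3.left with h5 | h5
      · exact n02 h5.symm
      · exact n12 h5.symm
  refine ⟨n03, ?_⟩
  rintro rfl
  have h := h3.uniq e1 a1.1 e4 (star_sub s3.cub.me') F1 s1.cub.f1 s1.cub.se s3.cub.se'
  have h4 := s3.cub.me'
  rw [← h] at h4
  rcases a1.ends h4 with h5 | h5
  · exact n03 h5.symm
  · exact n13 h5.symm

section

variable (hM : Min m o G) (h1 : G.P1) (h2 : G.P2 o) (h3 : G.P3 o) (hspk : SpecSpk m)
  (hS : SpecS m) (hT : SpecT m) (hK4 : SpecK4 m)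

include hM h1 h2 h3 hspk hS hT hK4

/-- `k ≥ 4` and the face behind `x2` touches the inner neighbour of `x1` -/
lemma core {x0 x1 x2 e0 e1 e2 e3 g0 g1 g2 F0 F1 F2 F3 b0 b1 b2 : ℕ}
    (s0 : G.Spk o x0 e0 g0 e1 F0 F1 b0) (s1 : G.Spk o x1 e1 g1 e2 F1 F2 b1)
    (s2 : G.Spk o x2 e2 g2 e3 F2 F3 b2) (a1 : G.E e1 x0 x1) (a2 : G.E e2 x1 x2)
    (he : e0 ≠ e3) (ht : G.Touch b1 F3) : False := by
  have hG := hM.cls.good
  obtain ⟨n02, f02, f13, n01, n12⟩ := win3 hG h3 s0 s1 s2 a1 a2
  have f03 : F0 ≠ F3 := by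
    rintro rfl
    exact he (h3.uniq e0 (star_sub s0.cub.me) e3 (star_sub s2.cub.me') F0 s0.cub.f1 s0.cub.se
      s2.cub.se')
  obtain ⟨⟨u0, u1, u2, u3⟩, -⟩ := hS o G hM h1 h2 h3 x0 x1 x2 e0 e1 e2 e3 g0 g1 g2 F0 F1 F2 F3
    b0 b1 b2 s0 s1 s2 a1 a2 n02 f02 f13 f03
  obtain ⟨x3, g3, e4, F4, b3, s3, a3⟩ := next hG h1 h3 (hspk o G hM h1 h2 h3) s2
  obtain ⟨n13, -, f24, -, n23⟩ := win3 hG h3 s1 s2 s3 a2 a3
  obtain ⟨n03, f14⟩ := win4 hG h3 s0 s1 s2 s3 a1 a2 a3 he
  have hb := spec_A hS o G hM h1 h2 h3 x1 x2 x3 e1 e2 e3 e4 g1 g2 g3 F1 F2 F3 F4 b1 b2 b3 s1 s2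
    s3 a2 a3 n13 f13 f24 f14 ht
  subst hb
  by_cases h04 : e0 = e4
  · have hF : F4 = F0 := by
      have h5 := s3.cub.se'
      rw [← h04] at h5
      exact h5.other s0.cub.se
    subst hF
    rw [← h04] at s3
    have a0 : G.E e0 x3 x0 := E_of_mem s3.cub.me' s0.cub.me n03.symm
    exact hK4 o G hM h1 h2 h3 x1 x2 x3 x0 e1 e2 e3 e0 g1 g2 g3 g0 F1 F2 F3 F4 b2 b3 b0 s1 s2 s3
      s0 a2 a3 a0 a1 n12 n13 n01.symm n23 n02.symm n03.symm f13 f14 f24 u1 u2 u3 u0
  · have f04 : F0 ≠ F4 := by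
      rintro rfl
      exact h04 (h3.uniq e0 (star_sub s0.cub.me) e4 (star_sub s3.cub.me') F0 s0.cub.f1
        s0.cub.se s3.cub.se')
    exact hT o G hM h1 h2 h3 x0 x1 x2 x3 e0 e1 e2 e3 e4 g0 g1 g2 g3 F0 F1 F2 F3 F4 b0 b2 b3 s0
      s1 s2 s3 a1 a2 a3 n01 n02 n03 n12 n13 n23 f02 f03 f04 f13 f14 f24 u1 u2 u3

/-- the face `o` is a triangle -/
theorem exists_tri : ∃ x0 x1 x2 e0 e1 e2 g0 g1 g2 F0 F1 F2,
    G.Tri o x0 x1 x2 e0 e1 e2 g0 g1 g2 F0 F1 F2 := by
  have hG := hM.cls.good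
  have hsp := hspk o G hM h1 h2 h3
  obtain ⟨x1, -, hx1, hc1⟩ := h2.ex
  obtain ⟨e1, g1, e2, F1, F2, c1⟩ := exists_cub hG h1 hx1 hc1
  obtain ⟨b1, s1⟩ := hsp _ _ _ _ _ _ c1
  obtain ⟨x2, g2, e3, F3, b2, s2, a2⟩ := next hG h1 h3 hsp s1
  obtain ⟨x0, g0, e0, F0, b0, s0', a1'⟩ := next hG h1 h3 hsp s1.symm
  have s0 := s0'.symm
  have a1 := a1'.symm
  obtain ⟨n02, f02, f13, n01, n12⟩ := win3 hG h3 s0 s1 s2 a1 a2
  by_cases he : e0 = e3
  · have hF : F3 = F0 := by
      have h5 := s2.cub.se'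
      rw [← he] at h5
      exact h5.other s0.cub.se
    subst hF
    rw [← he] at s2
    exact ⟨x0, x1, x2, e1, e2, e0, g0, g1, g2, F1, F2, F3, s0.cub, s1.cub, s2.cub, a1, a2,
      E_of_mem s2.cub.me' s0.cub.me n02.symm, n01, n12, n02.symm, s1.cub.f3, s2.cub.f3,
      s0.cub.f3⟩
  · exfalso
    have f03 : F0 ≠ F3 := by
      rintro rfl
      exact he (h3.uniq e0 (star_sub s0.cub.me) e3 (star_sub s2.cub.me') F0 s0.cub.f1
        s0.cub.se s2.cub.se')
    have hS' := (hS o G hM h1 h2 h3 x0 x1 x2 e0 e1 e2 e3 g0 g1 g2 F0 F1 F2 F3 b0 b1 b2 s0 s1 s2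
      a1 a2 n02 f02 f13 f03).2
    have hb1 : b1 ∈ G.vs := (touch_mem hG s1.bF).1
    have hcard : 3 ≤ (G.fv b1).card := by rw [h1.card_fv hG hb1]; exact s1.db
    obtain ⟨i, hi, hi'⟩ : ∃ i ∈ G.fv b1, i ∉ ({F1, F2} : Finset ℕ) := by
      by_contra hcon
      push Not at hcon
      have h4 := card_le_card (s := G.fv b1) (t := {F1, F2}) hcon
      have h5 := card_le_two (a := F1) (b := F2)
      omega
    simp only [mem_insert, mem_singleton, not_or] at hi'
    have hi2 := mem_fv.1 hi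
    rcases hS' i hi2 with h | h | h | h
    · subst h
      exact core hM h1 h2 h3 hspk hS hT hK4 s2.symm s1.symm s0.symm a2.symm a1.symm (Ne.symm he)
        hi2
    · exact hi'.1 h
    · exact hi'.2 h
    · subst h
      exact core hM h1 h2 h3 hspk hS hT hK4 s0 s1 s2 a1 a2 he hi2

end

/-- the theorem from the steps: no minimal counterexample -/
theorem chain {m : ℕ} (p2 : SpecStep23 m) (p3 : SpecStep6' m) (hspk : SpecSpk m) (hS : SpecS m)
    (hT : SpecT m) (hK4 : SpecK4 m) (k3 : SpecK3 m) : ∀ u G, ¬ Cx0 9 3 6 17 m u G := by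
  intro o G h0
  have hM := min_of_cx0 h0
  have h1 := spec_step1 m o G hM
  have h2 := p2 o G hM h1
  have h3 := p3 o G hM h1 h2
  obtain ⟨x0, x1, x2, e0, e1, e2, g0, g1, g2, F0, F1, F2, ht⟩ :=
    exists_tri hM h1 h2 h3 hspk hS hT hK4
  exact k3 G o x0 x1 x2 e0 e1 e2 g0 g1 g2 F0 F1 F2 hM h1 h2 h3 ht

theorem main_of_no_cx {m : ℕ} (h : ∀ u G, ¬ Cx0 9 3 6 17 m u G) : SpecMain m :=
  fun _ _ hK => bound_of_no_cx h hK

end Gr

end Pool.Agent.Lib.MP06c549.T6H
end

section
/-!
# MP_06c549_co, T6H: the theorem from the steps, all weights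

`SpecP3`: Steps 4, 5, 6; `SpecBig`: at least five outer vertices; `SpecThree`: three outer vertices.
-/
set_option autoImplicit false

namespace Pool.Agent.Lib.MP06c549.T6H

open Finset

namespace Gr

/-- Steps 4, 5, 6 -/
def SpecP3 (a b c N m : ℕ) : Prop := ∀ (o : ℕ) (G : Gr), Cx a b c N m o G → G.P1 → G.P2 o → G.P3 o

/-- at least five outer vertices -/
def SpecBig (a b c N m : ℕ) : Prop := ∀ (o : ℕ) (G : Gr), Cx a b c N m o G → G.P1 → G.P2 o →
  G.P3 o → ∀ x0 x1 x2 x3 e0 e1 e2 e3 e4 g0 g1 g2 g3 F0 F1 F2 F3 F4 b0 b1 b2 b3,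
    G.Spk o x0 e0 g0 e1 F0 F1 b0 → G.Spk o x1 e1 g1 e2 F1 F2 b1 →
    G.Spk o x2 e2 g2 e3 F2 F3 b2 → G.Spk o x3 e3 g3 e4 F3 F4 b3 →
    G.E e1 x0 x1 → G.E e2 x1 x2 → G.E e3 x2 x3 → e0 ≠ e3 → e0 ≠ e4 → False

/-- three outer vertices -/
def SpecThree (a b c N m : ℕ) : Prop := ∀ (o : ℕ) (G : Gr), Cx a b c N m o G → G.P1 → G.P2 o →
  G.P3 o → ∀ x0 x1 x2 e0 e1 e2 g0 g1 g2 F0 F1 F2,
    G.Tri o x0 x1 x2 e0 e1 e2 g0 g1 g2 F0 F1 F2 → False

variable {G : Gr} {o m a b c N : ℕ}

/-- the face `o` is a triangle -/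
theorem exists_triP (hp : Par a b c N) (hC : Cx a b c N m o G) (h1 : G.P1) (h2 : G.P2 o)
    (h3 : G.P3 o) (big : SpecBig a b c N m) : ∃ x0 x1 x2 e0 e1 e2 g0 g1 g2 F0 F1 F2,
    G.Tri o x0 x1 x2 e0 e1 e2 g0 g1 g2 F0 F1 F2 := by
  have hG := hC.cls.good
  have hsp : ∀ x e g e' F F', G.Cub o x e g e' F F' → ∃ b, G.Spk o x e g e' F F' b :=
    fun x e g e' F F' hcub => hC.spk hp h1 h2 h3 hcub
  obtain ⟨x1, -, hx1, hc1⟩ := h2.ex
  obtain ⟨e1, g1, e2, F1, F2, c1⟩ := exists_cub hG h1 hx1 hc1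
  obtain ⟨b1, s1⟩ := hsp _ _ _ _ _ _ c1
  obtain ⟨x2, g2, e3, F3, b2, s2, a2⟩ := next hG h1 h3 hsp s1
  obtain ⟨x0, g0, e0, F0, b0, s0', a1'⟩ := next hG h1 h3 hsp s1.symm
  have s0 := s0'.symm
  have a1 := a1'.symm
  obtain ⟨n02, f02, f13, n01, n12⟩ := win3 hG h3 s0 s1 s2 a1 a2
  by_cases he : e0 = e3
  · have hF : F3 = F0 := by
      have h5 := s2.cub.se'
      rw [← he] at h5
      exact h5.other s0.cub.se
    subst hF
    rw [← he] at s2
    exact ⟨x0, x1, x2, e1, e2, e0, g0, g1, g2, F1, F2, F3, s0.cub, s1.cub, s2.cub, a1, a2,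
      E_of_mem s2.cub.me' s0.cub.me n02.symm, n01, n12, n02.symm, s1.cub.f3, s2.cub.f3,
      s0.cub.f3⟩
  · exfalso
    obtain ⟨x3, g3, e4, F4, b3, s3, a3⟩ := next hG h1 h3 hsp s2
    obtain ⟨n13, -, f24, -, n23⟩ := win3 hG h3 s1 s2 s3 a2 a3
    obtain ⟨n03, f14⟩ := win4 hG h3 s0 s1 s2 s3 a1 a2 a3 he
    by_cases h04 : e0 = e4
    · have hF : F4 = F0 := by
        have h5 := s3.cub.se'
        rw [← h04] at h5
        exact h5.other s0.cub.se
      subst hF
      rw [← h04] at s3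
      have a0 : G.E e0 x3 x0 := E_of_mem s3.cub.me' s0.cub.me n03.symm
      exact hC.k4 hp h1 s0 s1 s2 s3 a1 a2 a3 a0 n02 n13 f02 f13
    · exact big o G hC h1 h2 h3 _ _ _ _ _ _ _ _ _ _ _ _ _ _ _ _ _ _ _ _ _ _ s0 s1 s2 s3 a1 a2
        a3 he h04

/-- no minimal counterexample, from the steps -/
theorem chainP (hp : Par a b c N) (hNc : N + c ≤ 2 * a + 2 * b) (hac : a + c ≤ N + b)
    (p3 : SpecP3 a b c N m) (big : SpecBig a b c N m) (k3 : SpecThree a b c N m) :
    ∀ u G, ¬ Cx0 a b c N m u G := by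
  intro o G h0
  have hC : Cx a b c N m o G := h0.cx hp.bc hp.a2 hNc hp.cb hac
  have h1 : G.P1 := h0.p1 hp.bc hp.a2 hNc hp.cb hac
  have h2 : G.P2 o := hC.step23 hp h1
  have h3 : G.P3 o := p3 o G hC h1 h2
  obtain ⟨x0, x1, x2, e0, e1, e2, g0, g1, g2, F0, F1, F2, ht⟩ := exists_triP hp hC h1 h2 h3 big
  exact k3 o G hC h1 h2 h3 _ _ _ _ _ _ _ _ _ _ _ _ ht

end Gr

end Pool.Agent.Lib.MP06c549.T6H
end

section
/-!
# MP_06c549_co, T6H: cut vertices in the graph without the outer triangle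

`K` has a cut vertex on the outer face, on both sides of it there is a vertex which is in no optimal
cover: then `N tau + a + 2 b ≤ pot`. `Ex3 C u g b`: the vertex set `C` has three edges `g i` to other
vertices, with the different outer ends `b i`.
-/
set_option autoImplicit false

namespace Pool.Agent.Lib.MP06c549.T6H

open Finset

namespace Gr

variable {G : Gr}

/-! ## Covers of the two parts of a split -/

/-- covers of the two parts of a split from a cover of `G` -/
theorem Split.cost_ge (hG : G.Good) {u : ℕ} (hu : u ∈ G.us) {s A B : Finset ℕ}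
    (h : G.Split u s A B) (hs : s.card ≤ 1) :
    ∃ S ⊆ s, (G.del B u).cost S + (G.del A u).cost S ≤ G.tau + S.card := by
  obtain ⟨X, Y, hXY, hp⟩ := exists_tau hG
  -- one side
  have key : ∀ A B, G.Split u s A B → (G.del B u).IsCov (X \ B) (Y \ G.tf B) ∧
      (G.del B u).nb (G.del B u).ds (Y \ G.tf B) ⊆ (G.nb G.ds Y).filter (fun d => d ∈ G.tds A) ∧
      (Y \ G.tf B) ⊆ (G.del B u).fs \ (G.del B u).us := by
    intro A B h
    have hphi : ∀ d ∈ G.tds A, ∀ i, G.HasS d i → i ∈ Y → i ∉ G.tf B := by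
      intro d hd i hi hY hB
      have h1 := h.tf_and (mem_tf.2 ⟨d, hd, hi⟩) hB
      exact (mem_sdiff.1 (hXY.2.1 hY)).2 (h1 ▸ hu)
    have hY : (Y \ G.tf B) ⊆ (G.del B u).fs \ (G.del B u).us := by
      intro i hi
      obtain ⟨h1, h2⟩ := mem_sdiff.1 hi
      obtain ⟨h3, h4⟩ := mem_sdiff.1 (hXY.2.1 h1)
      refine mem_sdiff.2 ⟨mem_insert_of_mem (mem_sdiff.2 ⟨h3, h2⟩), fun h5 => ?_⟩
      rcases mem_insert.1 h5 with h5 | h5
      · exact h4 (h5 ▸ hu)
      · exact h4 (mem_sdiff.1 h5).1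
    have hdA : ∀ d ∈ (G.del B u).ds, d ∈ G.ds ∧ d ∈ G.tds A ∧ d ∉ G.tds B := by
      intro d hd
      obtain ⟨h1, h2⟩ := mem_sdiff.1 hd
      exact ⟨h1, (h.edge hG hs h1).resolve_right h2, h2⟩
    refine ⟨⟨fun z hz => ?_, hY, fun d hd => ?_⟩, fun d hd => ?_, hY⟩
    · obtain ⟨h1, h2⟩ := mem_sdiff.1 hz
      exact mem_sdiff.2 ⟨hXY.1 h1, h2⟩
    · obtain ⟨h1, h2, h3⟩ := hdA d hd
      have h4 : G.p d ∉ B ∧ G.q d ∉ B := by
        constructor
        · exact fun h => h3 (mem_tds.2 ⟨h1, Or.inl h⟩)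
        · exact fun h => h3 (mem_tds.2 ⟨h1, Or.inr h⟩)
      rcases hXY.2.2 d h1 with h5 | h5 | h5 | h5
      · exact Or.inl (mem_sdiff.2 ⟨h5, h4.1⟩)
      · exact Or.inr (Or.inl (mem_sdiff.2 ⟨h5, h4.2⟩))
      · have h6 := hphi d h2 _ (Or.inl rfl) h5
        refine Or.inr (Or.inr (Or.inl ?_))
        change G.phi B u (G.l d) ∈ _
        rw [phi_of_not h6]
        exact mem_sdiff.2 ⟨h5, h6⟩
      · have h6 := hphi d h2 _ (Or.inr rfl) h5
        refine Or.inr (Or.inr (Or.inr ?_))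
        change G.phi B u (G.r d) ∈ _
        rw [phi_of_not h6]
        exact mem_sdiff.2 ⟨h5, h6⟩
    · obtain ⟨hd1, hd2, hd3⟩ := mem_nb.1 hd
      obtain ⟨h1, h2, h3⟩ := hdA d hd1
      refine mem_filter.2 ⟨mem_nb.2 ⟨h1, fun h5 => ?_, fun h5 => ?_⟩, h2⟩
      · have h6 := hphi d h2 _ (Or.inl rfl) h5
        refine hd2 ?_
        change G.phi B u (G.l d) ∈ _
        rw [phi_of_not h6]
        exact mem_sdiff.2 ⟨h5, h6⟩
      · have h6 := hphi d h2 _ (Or.inr rfl) h5
        refine hd3 ?_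
        change G.phi B u (G.r d) ∈ _
        rw [phi_of_not h6]
        exact mem_sdiff.2 ⟨h5, h6⟩
  obtain ⟨c1, n1, y1⟩ := key A B h
  obtain ⟨c2, n2, y2⟩ := key B A h.symm
  refine ⟨X ∩ s, inter_subset_right, ?_⟩
  have h1 := cost_le c1 (S := X ∩ s) (fun z hz => mem_sdiff.2 ⟨(mem_inter.1 hz).1,
    fun h2 => disjoint_left.1 h.dBc h2 (mem_inter.1 hz).2⟩)
  have h2 := cost_le c2 (S := X ∩ s) (fun z hz => mem_sdiff.2 ⟨(mem_inter.1 hz).1,
    fun h2 => disjoint_left.1 h.dAc h2 (mem_inter.1 hz).2⟩)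
  have h3 : (X \ B).card + (X \ A).card ≤ X.card + (X ∩ s).card := by
    have h4 := card_union_add_card_inter (X \ B) (X \ A)
    have h5 : (X \ B) ∩ (X \ A) ⊆ X ∩ s := by
      intro z hz
      rw [mem_inter, mem_sdiff, mem_sdiff] at hz
      refine mem_inter.2 ⟨hz.1.1, ?_⟩
      rcases (h.cov z).1 (hXY.1 hz.1.1) with h6 | h6 | h6
      · exact absurd h6 hz.2.2
      · exact absurd h6 hz.1.2
      · exact h6
    have h6 := card_le_card h5
    have h7 := card_le_card (union_subset sdiff_subset sdiff_subset : (X \ B) ∪ (X \ A) ⊆ X)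
    omega
  have hdY : Disjoint (Y \ G.tf B) (Y \ G.tf A) := by
    rw [disjoint_left]
    intro i hi1 hi2
    obtain ⟨h4, h5⟩ := mem_sdiff.1 hi1
    obtain ⟨_, h6⟩ := mem_sdiff.1 hi2
    obtain ⟨h7, h8⟩ := mem_sdiff.1 (hXY.2.1 h4)
    rcases h.tf_or hG hs (hG.us_sub hu) h7 (fun h9 => h8 (h9 ▸ hu)) with h9 | h9
    · exact h6 h9
    · exact h5 h9
  have h4 : G.fpr (Y \ G.tf B) + G.fpr (Y \ G.tf A) ≤ G.fpr Y := by
    unfold fpr
    have h5 : (Y \ G.tf B).card + (Y \ G.tf A).card ≤ Y.card := by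
      rw [← card_union_of_disjoint hdY]
      exact card_le_card (union_subset sdiff_subset sdiff_subset)
    have h6 : ((Y \ G.tf B) ∩ G.hs).card + ((Y \ G.tf A) ∩ G.hs).card ≤ (Y ∩ G.hs).card := by
      rw [← card_union_of_disjoint
        (disjoint_of_subset_left inter_subset_left (disjoint_of_subset_right inter_subset_left hdY))]
      exact card_le_card (union_subset (inter_subset_inter sdiff_subset (Subset.refl _))
        (inter_subset_inter sdiff_subset (Subset.refl _)))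
    omega
  have h5 := fpr_del y1
  have h6 := fpr_del y2
  have h7 : G.ws ((G.del B u).nb (G.del B u).ds (Y \ G.tf B)) +
      G.ws ((G.del A u).nb (G.del A u).ds (Y \ G.tf A)) ≤ G.ws (G.nb G.ds Y) := by
    refine le_trans (add_le_add (ws_mono n1) (ws_mono n2)) ?_
    rw [← ws_union]
    · exact ws_mono (union_subset (filter_subset _ _) (filter_subset _ _))
    · rw [disjoint_left]
      intro d h8 h9
      exact h.edge_not (mem_filter.1 h8).2 (mem_filter.1 h9).2
  have h8 : G.ws ((G.del B u).nb (G.del B u).ds (Y \ G.tf B)) =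
      (G.del B u).ws ((G.del B u).nb (G.del B u).ds (Y \ G.tf B)) := rfl
  have h9 : G.ws ((G.del A u).nb (G.del A u).ds (Y \ G.tf A)) =
      (G.del A u).ws ((G.del A u).nb (G.del A u).ds (Y \ G.tf A)) := rfl
  unfold price at h1 h2 hp
  omega

/-- a cut vertex on the outer face, with vertices in no optimal cover on both sides -/
theorem cut_core {a b c N m n u : ℕ} (hbc : b ≤ c) (hN : N ≤ 2 * a) (hn : Bnd a b c N m n)
    (hG : G.Cls u m) (hconn : G.Conn) (hcard : G.vs.card ≤ n) {v : ℕ} (hv : v ∈ G.vs)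
    {A B : Finset ℕ} (h : G.Split u {v} A B) {x y : ℕ} (hx : x ∈ A) (hy : y ∈ B)
    (hxu : G.Touch x u) (hyu : G.Touch y u) (hxi : ∃ i, i ≠ u ∧ G.Touch x i)
    (hyi : ∃ i, i ≠ u ∧ G.Touch y i) (hx1 : G.tau + 1 ≤ G.cost {x})
    (hy1 : G.tau + 1 ≤ G.cost {y}) : N * G.tau + (a + 2 * b) ≤ G.pot a b c := by
  have hGood := hG.good
  have huf := hGood.us_sub hG.hu
  have hs1 : ({v} : Finset ℕ).card ≤ 1 := by simp
  have hpot := h.pot a b c hGood hG.huc hs1
  rw [card_singleton, mul_one] at hpot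
  have hvcost := tau_le_cost hGood (singleton_subset_iff.2 hv)
  have hcost0 := fun (S T : Finset ℕ) => h.cost hGood hs1
    (hG.del (h.symm.FC hGood hs1 huf)).good (hG.del (h.FC hGood hs1 huf)).good (S := S) (T := T)
  -- one side
  have key : ∀ A B, G.Split u {v} A B → ∀ x ∈ A, G.Touch x u → (∃ i, i ≠ u ∧ G.Touch x i) →
      (G.del B u).Good ∧ v ∈ (G.del B u).vs ∧ x ∈ (G.del B u).vs ∧ v ≠ x ∧
      N * (G.del B u).cost {x} + a + b ≤ (G.del B u).pot a b c + N ∧
      N * (G.del B u).cost {v, x} + 2 * a + b ≤ (G.del B u).pot a b c + 2 * N := by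
    intro A B h x hx hxu ⟨i, hi, hxi⟩
    have hK := hG.del (h.FC hGood hs1 huf)
    have hvB : v ∈ (G.del B u).vs :=
      mem_sdiff.2 ⟨hv, fun h1 => disjoint_left.1 h.dBc h1 (mem_singleton_self v)⟩
    have hxB : x ∈ (G.del B u).vs :=
      mem_sdiff.2 ⟨h.subA hx, fun h1 => disjoint_left.1 h.dAB hx h1⟩
    have hvx : v ≠ x := fun h1 => disjoint_left.1 h.dAc hx (mem_singleton.2 h1.symm)
    have hK1 : (G.del B u).vs.card ≤ n := by
      have := del_card (u := u) h.subB
      omega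
    have ht : ∀ j, G.Touch x j → (G.del B u).Touch x j := by
      rintro j ⟨e, he, hej⟩
      have heA : e ∈ G.tds A := star_sub_tds hx he
      refine ⟨e, ?_, ?_⟩
      · rw [Gr.star_del]
        exact mem_sdiff.2 ⟨he, h.edge_not heA⟩
      · have key : G.phi B u j = j := by
          by_cases h1 : j ∈ G.tf B
          · rw [phi_of_mem h1]
            exact (h.tf_and (mem_tf.2 ⟨e, heA, hej⟩) h1).symm
          · exact phi_of_not h1
        rcases hej with hej | hej
        · left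
          change G.phi B u (G.l e) = j
          rw [hej, key]
        · right
          change G.phi B u (G.r e) = j
          rw [hej, key]
    obtain ⟨e1, he1, he1A, he1u⟩ := h.exists_face hGood hconn hv
    have hvt := h.touch_del he1 he1A he1u
    have hFx : (G.del B u).FC {x} u := FC_single hK.good hxB (Or.inr (ht u hxu))
    have hT1 := cost_T (T := {x}) (B := {i}) hbc hN hn hK hK1 (singleton_subset_iff.2 hxB)
      (singleton_nonempty x) hFx
      (singleton_subset_iff.2 (mem_erase.2 ⟨hi, mem_tf_single.2 (ht i hxi)⟩))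
    have hT2 := cost_T (T := {v, x}) (B := {i}) hbc hN hn hK hK1
      (insert_subset hvB (singleton_subset_iff.2 hxB)) ⟨v, mem_insert_self _ _⟩
      (FC_insert hK.good hFx hvB (Or.inr (Or.inl hvt)))
      (singleton_subset_iff.2 (mem_erase.2 ⟨hi, tf_insert.2 (Or.inr
        (mem_tf_single.2 (ht i hxi)))⟩))
    rw [card_singleton, card_singleton, mul_one, mul_one, mul_one] at hT1
    rw [card_pair hvx, card_singleton, mul_one] at hT2
    refine ⟨hK.good, hvB, hxB, hvx, by omega, by omega⟩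
  obtain ⟨gB, vB, xB, nx, k1, k2⟩ := key A B h x hx hxu hxi
  obtain ⟨gA, vA, yA, ny, l1, l2⟩ := key B A h.symm y hy hyu hyi
  have hle1 := tau_le_cost gB (singleton_subset_iff.2 vB)
  have hle2 := tau_le_cost gA (singleton_subset_iff.2 vA)
  have hc00 : G.tau ≤ (G.del B u).tau + (G.del A u).tau := by
    have := hcost0 ∅ ∅ (empty_subset _) (empty_subset _)
    simp only [empty_union, empty_inter, card_empty, add_zero] at this
    exact this
  -- `x` alone, `y` alone
  have hcx : G.cost {x} ≤ (G.del B u).cost {x} + (G.del A u).tau := by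
    have := hcost0 {x} ∅ (singleton_subset_iff.2 xB) (empty_subset _)
    simp only [union_empty, inter_empty, card_empty, add_zero] at this
    exact this
  have hcy : G.cost {y} ≤ (G.del B u).tau + (G.del A u).cost {y} := by
    have := hcost0 ∅ {y} (empty_subset _) (singleton_subset_iff.2 yA)
    simp only [empty_union, empty_inter, card_empty, add_zero] at this
    exact this
  -- with `v`
  have hcvx : G.cost {x} + 1 ≤ (G.del B u).cost {v, x} + (G.del A u).cost {v} := by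
    have h1 := hcost0 {v, x} {v} (insert_subset vB (singleton_subset_iff.2 xB))
      (singleton_subset_iff.2 vA)
    have h2 : ({v, x} : Finset ℕ) ∩ {v} = {v} := inter_eq_right.2 (by simp)
    rw [h2, card_singleton] at h1
    have h3 := cost_mono hGood (S := {x}) (T := {v, x} ∪ {v}) (by simp)
      (union_subset (insert_subset hv (singleton_subset_iff.2 (h.subA hx)))
        (singleton_subset_iff.2 hv))
    omega
  have hcvy : G.cost {y} + 1 ≤ (G.del B u).cost {v} + (G.del A u).cost {v, y} := by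
    have h1 := hcost0 {v} {v, y} (singleton_subset_iff.2 vB)
      (insert_subset vA (singleton_subset_iff.2 yA))
    have h2 : ({v} : Finset ℕ) ∩ {v, y} = {v} := inter_eq_left.2 (by simp)
    rw [h2, card_singleton] at h1
    have h3 := cost_mono hGood (S := {y}) (T := {v} ∪ {v, y}) (by simp)
      (union_subset (singleton_subset_iff.2 hv)
        (insert_subset hv (singleton_subset_iff.2 (h.subB hy))))
    omega
  obtain ⟨S, hS, hR⟩ := h.cost_ge hGood hG.hu hs1
  have hR' : (G.del B u).tau + (G.del A u).tau ≤ G.tau ∨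
      (G.del B u).cost {v} + (G.del A u).cost {v} ≤ G.tau + 1 := by
    rcases subset_singleton_iff.1 hS with h1 | h1
    · left
      rw [h1, card_empty, add_zero] at hR
      exact hR
    · right
      rw [h1, card_singleton] at hR
      exact hR
  -- multiples of `N`
  obtain ⟨t1, ht1⟩ : ∃ t, t = (G.del B u).tau := ⟨_, rfl⟩
  obtain ⟨t2, ht2⟩ : ∃ t, t = (G.del A u).tau := ⟨_, rfl⟩
  rw [← ht1] at hle1 hc00 hcy hR'
  rw [← ht2] at hle2 hc00 hcx hR'
  by_cases f1 : (G.del B u).cost {v} = t1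
  · by_cases f2 : (G.del A u).cost {v} = t2
    · -- `v` free on both sides
      rw [f1] at hcvy hR'
      rw [f2] at hcvx hR'
      have e1 : G.tau + 2 ≤ (G.del B u).cost {v, x} + t2 := by omega
      have e2 : G.tau + 2 ≤ t1 + (G.del A u).cost {v, y} := by omega
      have e3 : t1 + t2 ≤ G.tau + 1 := by omega
      have m1 := Nat.mul_le_mul_left N e1
      have m2 := Nat.mul_le_mul_left N e2
      have m3 := Nat.mul_le_mul_left N e3
      simp only [mul_add, mul_one] at m1 m2 m3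
      omega
    · -- free in `del B` only
      have e0 : t1 + t2 ≤ G.tau := by omega
      have e1 : t1 + 1 ≤ (G.del B u).cost {x} := by omega
      have e2 : t2 + 2 ≤ (G.del A u).cost {v, y} := by omega
      have e3 : G.tau ≤ t1 + t2 := hc00
      have m1 := Nat.mul_le_mul_left N e1
      have m2 := Nat.mul_le_mul_left N e2
      have m3 := Nat.mul_le_mul_left N e3
      simp only [mul_add, mul_one] at m1 m2 m3
      omega
  · by_cases f2 : (G.del A u).cost {v} = t2
    · have e0 : t1 + t2 ≤ G.tau := by omega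
      have e1 : t2 + 1 ≤ (G.del A u).cost {y} := by omega
      have e2 : t1 + 2 ≤ (G.del B u).cost {v, x} := by omega
      have e3 : G.tau ≤ t1 + t2 := hc00
      have m1 := Nat.mul_le_mul_left N e1
      have m2 := Nat.mul_le_mul_left N e2
      have m3 := Nat.mul_le_mul_left N e3
      simp only [mul_add, mul_one] at m1 m2 m3
      omega
    · have e0 : t1 + t2 ≤ G.tau := by omega
      have e1 : t2 + 1 ≤ (G.del A u).cost {y} := by omega
      have e2 : t1 + 1 ≤ (G.del B u).cost {x} := by omega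
      have e3 : G.tau ≤ t1 + t2 := hc00
      have m1 := Nat.mul_le_mul_left N e1
      have m2 := Nat.mul_le_mul_left N e2
      have m3 := Nat.mul_le_mul_left N e3
      simp only [mul_add, mul_one] at m1 m2 m3
      omega

end Gr

end Pool.Agent.Lib.MP06c549.T6H
end

section
/-!
# MP_06c549_co, T6H: a vertex set with three exits

`Ex3 C u g b`: the vertex set `C` has three edges `g i` to other vertices, with the different outer
ends `b i`. The graph without `C` is connected; if it has a cut vertex then it has one with two of the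
`b i`, which are not cut vertices, on different sides.
-/
set_option autoImplicit false

namespace Pool.Agent.Lib.MP06c549.T6H

open Finset

namespace Gr

variable {G : Gr}

/-- three exits -/
structure Ex3 (G : Gr) (C : Finset ℕ) (u : ℕ) (g b : Fin 3 → ℕ) : Prop where
  sub : C ⊆ G.vs
  ne : C.Nonempty
  fc : G.FC C u
  ex : ∀ d x y, G.E d x y → x ∈ C → y ∉ C → ∃ i, d = g i ∧ y = b i
  inj : Function.Injective b
  nb : ∀ i, b i ∉ C
  gb : ∀ i, g i ∈ G.star (b i)
  gt : ∀ i, g i ∈ G.tds C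
  deg : ∀ i, 3 ≤ (G.star (b i)).card

/-- a set of vertices is not separated by edges at one vertex -/
lemma P1.no_exit (hG : G.Good) (hP : G.P1) {D : Finset ℕ} {c : ℕ} (hc : c ∈ G.vs)
    (hD : ∃ z ∈ G.vs, z ∈ D) (hD' : ∃ z ∈ G.vs, z ∉ D)
    (h : ∀ d x y, G.E d x y → x ∈ D → y ∉ D → x = c ∨ y = c)
    (he : ∃ e y, G.E e c y ∧ (c ∈ D ↔ y ∈ D)) : False := by
  classical
  let T := (G.star c).filter fun d => ¬ (G.p d ∈ D ↔ G.q d ∈ D)
  have hT : ∀ d ∈ T, ¬ (G.p d ∈ D ↔ G.q d ∈ D) := fun d hd => (mem_filter.1 hd).2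
  have hcross : ∀ d ∈ G.ds, ¬ (G.p d ∈ D ↔ G.q d ∈ D) → d ∈ T := by
    intro d hd h1
    have hE : G.E d (G.p d) (G.q d) := ⟨hd, Or.inl ⟨rfl, rfl⟩⟩
    refine mem_filter.2 ⟨mem_star.2 ⟨hd, ?_⟩, h1⟩
    by_cases h2 : G.p d ∈ D
    · exact h d _ _ hE h2 fun h3 => h1 ⟨fun _ => h3, fun _ => h2⟩
    · have h3 : G.q d ∈ D := by
        by_contra h3
        exact h1 ⟨fun h4 => absurd h4 h2, fun h4 => absurd h4 h3⟩
      exact (h d _ _ hE.symm h3 h2).symm
  have hev : G.Ev T := ev_of_cut hG ((filter_subset _ _).trans star_sub)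
    (c := fun z => if z ∈ D then 1 else 0) (by
    intro d hd
    by_cases h1 : G.p d ∈ D <;> by_cases h2 : G.q d ∈ D
    · rw [if_pos h1, if_pos h2, if_neg (fun h3 => hT d h3 ⟨fun _ => h2, fun _ => h1⟩)]
      decide
    · rw [if_pos h1, if_neg h2, if_pos (hcross d hd fun h3 => h2 (h3.1 h1))]
      decide
    · rw [if_neg h1, if_pos h2, if_pos (hcross d hd fun h3 => h1 (h3.2 h2))]
      decide
    · rw [if_neg h1, if_neg h2, if_neg (fun h3 => hT d h3
        ⟨fun h4 => absurd h4 h1, fun h4 => absurd h4 h2⟩)]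
      decide)
  rcases hP.ncv c hc T (filter_subset _ _) hev with h1 | h1
  · obtain ⟨z, hz, hzD⟩ := hD
    obtain ⟨w, hw, hwD⟩ := hD'
    have h2 := hP.conn (fun z => if z ∈ D then 1 else 0) (by
      intro d hd
      have h3 : G.p d ∈ D ↔ G.q d ∈ D := by
        by_contra h3
        have h4 := hcross d hd h3
        rw [h1] at h4
        exact notMem_empty _ h4
      simp only [h3]) z hz w hw
    rw [if_pos hzD, if_neg hwD] at h2
    exact one_ne_zero h2
  · obtain ⟨e, y, hE, hy⟩ := he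
    have h2 : e ∈ T := by rw [h1]; exact hE.left
    have h3 := hT e h2
    rcases hE.2 with ⟨h4, h5⟩ | ⟨h4, h5⟩
    · rw [h4, h5] at h3; exact h3 hy
    · rw [h4, h5] at h3; exact h3 hy.symm

lemma E_del {C : Finset ℕ} {u d x y : ℕ} :
    (G.del C u).E d x y ↔ G.E d x y ∧ x ∉ C ∧ y ∉ C := by
  constructor
  · rintro ⟨hd, h⟩
    obtain ⟨h1, h2⟩ := mem_sdiff.1 hd
    have h3 : G.p d ∉ C ∧ G.q d ∉ C :=
      ⟨fun h => h2 (mem_tds.2 ⟨h1, Or.inl h⟩), fun h => h2 (mem_tds.2 ⟨h1, Or.inr h⟩)⟩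
    change (G.p d = x ∧ G.q d = y) ∨ (G.p d = y ∧ G.q d = x) at h
    refine ⟨⟨h1, h⟩, ?_⟩
    rcases h with ⟨h4, h5⟩ | ⟨h4, h5⟩
    · rw [← h4, ← h5]; exact h3
    · rw [← h4, ← h5]; exact h3.symm
  · rintro ⟨⟨hd, h⟩, hx, hy⟩
    refine ⟨mem_sdiff.2 ⟨hd, fun h1 => ?_⟩, h⟩
    rcases h with ⟨h4, h5⟩ | ⟨h4, h5⟩ <;> rcases (mem_tds.1 h1).2 with h2 | h2
    · exact hx (h4 ▸ h2)
    · exact hy (h5 ▸ h2)
    · exact hy (h4 ▸ h2)
    · exact hx (h5 ▸ h2)

namespace Ex3

variable {C : Finset ℕ} {u : ℕ} {g b : Fin 3 → ℕ}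

lemma bv (hG : G.Good) (h : G.Ex3 C u g b) (i : Fin 3) : b i ∈ G.vs := by
  obtain ⟨y, hy⟩ := exists_E (h.gb i)
  exact hy.memv hG

lemma bdel (hG : G.Good) (h : G.Ex3 C u g b) (i : Fin 3) : b i ∈ (G.del C u).vs :=
  mem_sdiff.2 ⟨h.bv hG i, h.nb i⟩

/-- the only exit at `b i` is `g i` -/
lemma only (h : G.Ex3 C u g b) {i : Fin 3} {e : ℕ} (he : e ∈ G.star (b i)) (heC : e ∈ G.tds C) :
    e = g i := by
  obtain ⟨y, hy⟩ := exists_E he
  have hyC : y ∈ C := by
    rcases hy.2 with ⟨h1, h2⟩ | ⟨h1, h2⟩ <;> rcases (mem_tds.1 heC).2 with h3 | h3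
    · exact absurd (h1 ▸ h3) (h.nb i)
    · exact h2 ▸ h3
    · exact h1 ▸ h3
    · exact absurd (h2 ▸ h3) (h.nb i)
  obtain ⟨j, h1, h2⟩ := h.ex e y (b i) hy.symm hyC (h.nb i)
  rw [h.inj h2]
  exact h1

lemma star_b (h : G.Ex3 C u g b) (i : Fin 3) : (G.del C u).star (b i) = (G.star (b i)).erase (g i) := by
  rw [Gr.star_del]
  ext e
  rw [mem_sdiff, mem_erase]
  constructor
  · rintro ⟨h1, h2⟩
    exact ⟨fun h3 => h2 (h3 ▸ h.gt i), h1⟩
  · rintro ⟨h1, h2⟩
    exact ⟨h2, fun h3 => h1 (h.only h2 h3)⟩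

lemma card_b (h : G.Ex3 C u g b) (i : Fin 3) : 2 ≤ ((G.del C u).star (b i)).card := by
  rw [h.star_b i, card_erase_of_mem (h.gb i)]
  have := h.deg i
  omega

/-- `b i` has an inner edge -/
lemma inner (h : G.Ex3 C u g b) (i : Fin 3) : ∃ e y, G.E e (b i) y ∧ y ∉ C := by
  have h1 := h.card_b i
  obtain ⟨e, he⟩ := card_pos.1 (show 0 < ((G.del C u).star (b i)).card by omega)
  obtain ⟨y, hy⟩ := exists_E he
  exact ⟨e, y, (E_del.1 hy).1, (E_del.1 hy).2.2⟩

/-- `b i` lies on the face `u` of the graph without `C` -/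
lemma touch (hG : G.Good) (hP : G.P1) (h : G.Ex3 C u g b) (i : Fin 3) :
    (G.del C u).Touch (b i) u := by
  classical
  have hlr := hP.lr (g i) (star_sub (h.gb i))
  obtain ⟨e, he, hne, hei⟩ : ∃ e ∈ G.star (b i), e ≠ g i ∧
      (G.l e = G.l (g i) ∨ G.r e = G.l (g i)) := by
    by_contra hcon
    push Not at hcon
    have h1 := hG.even (b i) (h.bv hG i) fun j => if j = G.l (g i) then 1 else 0
    rw [sum_eq_single (g i)] at h1
    · rw [if_pos rfl, if_neg hlr.symm, add_zero] at h1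
      exact one_ne_zero h1
    · intro e he hne
      have h2 := hcon e he hne
      rw [if_neg h2.1, if_neg h2.2, add_zero]
    · intro h2
      exact absurd (h.gb i) h2
  refine ⟨e, ?_, ?_⟩
  · rw [h.star_b i]
    exact mem_erase.2 ⟨hne, he⟩
  · have h1 : G.l (g i) ∈ G.tf C := l_mem_tf (h.gt i)
    rcases hei with h2 | h2
    · left
      change G.phi C u (G.l e) = u
      rw [h2, phi_of_mem h1]
    · right
      change G.phi C u (G.r e) = u
      rw [h2, phi_of_mem h1]

/-- the graph without `C` is connected -/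
lemma conn (hG : G.Good) (hP : G.P1) (h : G.Ex3 C u g b) : (G.del C u).Conn := by
  classical
  intro f hf z hz w hw
  by_contra hzw
  have hfE : ∀ d x y, G.E d x y → x ∉ C → y ∉ C → f x = f y := by
    intro d x y hd hx hy
    have h1 := E_del (u := u).2 ⟨hd, hx, hy⟩
    have h2 := hf d h1.1
    rcases h1.2 with ⟨h3, h4⟩ | ⟨h3, h4⟩
    · rw [← h3, ← h4]; exact h2
    · rw [← h3, ← h4]; exact h2.symm
  have key : ∀ k : Fin 3 → ZMod 2, ∃ t i, ∀ j, j ≠ i → k j ≠ t := by decide
  obtain ⟨t, i, hti⟩ := key fun j => f (b j)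
  obtain ⟨z', hz', hz't⟩ : ∃ z' ∈ G.vs \ C, f z' = t := by
    have h1 : ∀ s1 s2 t : ZMod 2, s1 ≠ s2 → s1 = t ∨ s2 = t := by decide
    rcases h1 _ _ t hzw with h2 | h2
    · exact ⟨z, hz, h2⟩
    · exact ⟨w, hw, h2⟩
  obtain ⟨x0, hx0⟩ := h.ne
  refine hP.no_exit hG (D := (G.vs \ C).filter fun z => f z = t) (c := b i) (h.bv hG i)
    ⟨z', (mem_sdiff.1 hz').1, mem_filter.2 ⟨hz', hz't⟩⟩
    ⟨x0, h.sub hx0, fun h1 => (mem_sdiff.1 (mem_filter.1 h1).1).2 hx0⟩ ?_ ?_
  · intro d x y hd hx hy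
    obtain ⟨hx1, hx2⟩ := mem_filter.1 hx
    obtain ⟨hx3, hx4⟩ := mem_sdiff.1 hx1
    by_cases hyC : y ∈ C
    · obtain ⟨j, hj1, hj2⟩ := h.ex d y x hd.symm hyC hx4
      left
      by_contra h1
      have h2 : j ≠ i := fun h3 => h1 (by rw [hj2, h3])
      exact hti j h2 (by rw [← hj2]; exact hx2)
    · exfalso
      refine hy (mem_filter.2 ⟨mem_sdiff.2 ⟨hd.symm.memv hG, hyC⟩, ?_⟩)
      rw [← hfE d x y hd hx4 hyC]
      exact hx2
  · obtain ⟨e, y, he, hy⟩ := h.inner i
    refine ⟨e, y, he, ?_⟩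
    have h1 := hfE e (b i) y he (h.nb i) hy
    rw [mem_filter, mem_filter, mem_sdiff, mem_sdiff, h1]
    constructor
    · rintro ⟨_, h2⟩
      exact ⟨⟨he.symm.memv hG, hy⟩, h2⟩
    · rintro ⟨_, h2⟩
      exact ⟨⟨he.memv hG, h.nb i⟩, h2⟩

/-- each side of a split of the graph without `C` contains some `b i` -/
lemma side (hG : G.Good) (hP : G.P1) (h : G.Ex3 C u g b) (hu : u ∈ G.us) {v c : ℕ}
    (hc : c ∈ (G.del C u).vs) {A B : Finset ℕ} (hs : (G.del C u).Split v {c} A B) :
    ∃ i, b i ∈ A := by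
  by_contra hcon
  push Not at hcon
  have hcG := mem_sdiff.1 hc
  have hcA : c ∉ A := fun h1 => disjoint_left.1 hs.dAc h1 (mem_singleton_self c)
  have hcB : c ∉ B := fun h1 => disjoint_left.1 hs.dBc h1 (mem_singleton_self c)
  obtain ⟨a, ha⟩ := hs.nA
  refine hP.no_exit hG (D := A) (c := c) hcG.1 ⟨a, (mem_sdiff.1 (hs.subA ha)).1, ha⟩
    ⟨c, hcG.1, hcA⟩ ?_ ?_
  · intro d x y hd hx hy
    right
    have hxv := mem_sdiff.1 (hs.subA hx)
    by_cases hyC : y ∈ C
    · obtain ⟨j, _, hj2⟩ := h.ex d y x hd.symm hyC hxv.2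
      exact absurd (hj2 ▸ hx) (hcon j)
    · have hE : (G.del C u).E d x y := E_del.2 ⟨hd, hxv.2, hyC⟩
      have hyv : y ∈ (G.del C u).vs := mem_sdiff.2 ⟨hd.symm.memv hG, hyC⟩
      rcases (hs.cov y).1 hyv with h1 | h1 | h1
      · exact absurd h1 hy
      · exact absurd hE (hs.noe d x hx y h1)
      · exact mem_singleton.1 h1
  · obtain ⟨e, he, heB⟩ := hs.symm.exists_edge (hG.del hu h.fc) (h.conn hG hP) hc
    obtain ⟨y, hy⟩ := exists_E he
    have hyB : y ∈ B := by
      rcases hy.2 with ⟨h1, h2⟩ | ⟨h1, h2⟩ <;> rcases (mem_tds.1 heB).2 with h3 | h3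
      · exact absurd (h1 ▸ h3) hcB
      · exact h2 ▸ h3
      · exact h1 ▸ h3
      · exact absurd (h2 ▸ h3) hcB
    exact ⟨e, y, (E_del.1 hy).1, fun h1 => absurd h1 hcA,
      fun h1 => absurd hyB (disjoint_left.1 hs.dAB h1)⟩

/-- at most one `b i` is a cut vertex of the graph without `C` -/
lemma one_cut (hG : G.Good) (hP : G.P1) (h : G.Ex3 C u g b) (hu : u ∈ G.us) {i j : Fin 3}
    (hij : i ≠ j) {v A B A' B' : _} (hs : (G.del C u).Split v {b i} A B)
    (hs' : (G.del C u).Split v {b j} A' B') : False := by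
  classical
  -- we may assume that `b j` is in `A`
  have key : ∀ A B, (G.del C u).Split v {b i} A B → b j ∈ A → False := by
    intro A B hs hjA
    obtain ⟨k, hk⟩ := h.side hG hP hu (h.bdel hG i) hs.symm
    have hki : k ≠ i := fun h1 => disjoint_left.1 hs.dBc hk (by rw [h1]; exact mem_singleton_self _)
    have hkj : k ≠ j := fun h1 => disjoint_left.1 hs.dAB hjA (h1 ▸ hk)
    obtain ⟨i1, hi1⟩ := h.side hG hP hu (h.bdel hG j) hs'
    obtain ⟨i2, hi2⟩ := h.side hG hP hu (h.bdel hG j) hs'.symm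
    have h1j : i1 ≠ j := fun h1 => disjoint_left.1 hs'.dAc hi1 (by
      rw [h1]; exact mem_singleton_self _)
    have h2j : i2 ≠ j := fun h1 => disjoint_left.1 hs'.dBc hi2 (by
      rw [h1]; exact mem_singleton_self _)
    have h12 : i1 ≠ i2 := fun h1 => disjoint_left.1 hs'.dAB hi1 (h1 ▸ hi2)
    let f : ℕ → ZMod 2 := fun z => if z ∈ B ∨ z = b i then (if z ∈ A' then 1 else 0) else
      (if b i ∈ A' then 1 else 0)
    have hfE : ∀ d x y, (G.del C u).E d x y → (x ∈ B ∨ x = b i) → f x = f y := by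
      intro d x y hd hx
      have hxj : x ≠ b j := by
        rintro rfl
        rcases hx with h1 | h1
        · exact disjoint_left.1 hs.dAB hjA h1
        · exact hij (h.inj h1).symm
      by_cases hy : y ∈ B ∨ y = b i
      · have hyj : y ≠ b j := by
          rintro rfl
          rcases hy with h1 | h1
          · exact disjoint_left.1 hs.dAB hjA h1
          · exact hij (h.inj h1).symm
        have hxy : x ∈ A' ↔ y ∈ A' := by
          have hx' := (hs'.cov x).1 (hd.memv (hG.del hu h.fc))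
          have hy' := (hs'.cov y).1 (hd.symm.memv (hG.del hu h.fc))
          rw [mem_singleton] at hx' hy'
          constructor
          · intro h1
            rcases hy' with h2 | h2 | h2
            · exact h2
            · exact absurd hd (hs'.noe d x h1 y h2)
            · exact absurd h2 hyj
          · intro h1
            rcases hx' with h2 | h2 | h2
            · exact h2
            · exact absurd hd.symm (hs'.noe d y h1 x h2)
            · exact absurd h2 hxj
        change (if x ∈ B ∨ x = b i then _ else _) = if y ∈ B ∨ y = b i then _ else _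
        rw [if_pos hx, if_pos hy]
        simp only [hxy]
      · have hyA : y ∈ A := by
          rw [not_or] at hy
          rcases (hs.cov y).1 (hd.symm.memv (hG.del hu h.fc)) with h2 | h2 | h2
          · exact h2
          · exact absurd h2 hy.1
          · exact absurd (mem_singleton.1 h2) hy.2
        rcases hx with h1 | h1
        · exact absurd hd.symm (hs.noe d y hyA x h1)
        · subst h1
          change (if b i ∈ B ∨ b i = b i then _ else _) = if y ∈ B ∨ y = b i then _ else _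
          rw [if_pos (Or.inr rfl), if_neg hy]
    have h1 := h.conn hG hP f (by
      intro d hd
      have hE : (G.del C u).E d (G.p d) (G.q d) := ⟨hd, Or.inl ⟨rfl, rfl⟩⟩
      change f (G.p d) = f (G.q d)
      by_cases hp : G.p d ∈ B ∨ G.p d = b i
      · exact hfE d _ _ hE hp
      by_cases hq : G.q d ∈ B ∨ G.q d = b i
      · exact (hfE d _ _ hE.symm hq).symm
      change (if _ then _ else _) = if _ then _ else _
      rw [if_neg hp, if_neg hq]) (b k) (h.bdel hG k) (b i) (h.bdel hG i)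
    change (if b k ∈ B ∨ b k = b i then _ else _) = if b i ∈ B ∨ b i = b i then _ else _ at h1
    rw [if_pos (Or.inl hk), if_pos (Or.inr rfl)] at h1
    have h3 : ∀ i j k i1 i2 : Fin 3, i ≠ j → k ≠ i → k ≠ j → i1 ≠ j → i2 ≠ j → i1 ≠ i2 →
        (i1 = i ∧ i2 = k) ∨ (i1 = k ∧ i2 = i) := by decide
    replace h3 := h3 i j k i1 i2 hij hki hkj h1j h2j h12
    rcases h3 with ⟨rfl, rfl⟩ | ⟨rfl, rfl⟩
    · rw [if_pos hi1, if_neg fun h4 => disjoint_left.1 hs'.dAB h4 hi2] at h1
      exact zero_ne_one h1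
    · rw [if_pos hi1, if_neg fun h4 => disjoint_left.1 hs'.dAB h4 hi2] at h1
      exact one_ne_zero h1
  rcases (hs.cov (b j)).1 (h.bdel hG j) with h1 | h1 | h1
  · exact key A B hs h1
  · exact key B A hs.symm h1
  · exact hij (h.inj (mem_singleton.1 h1)).symm

end Ex3

end Gr

end Pool.Agent.Lib.MP06c549.T6H
end
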