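import Pool.Agent.Lib.MP_06c549_co.T6H.Spec
import Pool.Agent.Lib.MP_06c549_co.T6H.Par

/-!
# MP_06c549_co, T6H: step (4), two cubic outer vertices
-/

set_option autoImplicit false

namespace Pool.Agent.Lib.MP06c549.T6H

open Finset

namespace Gr

variable {G : Gr} {o : ℕ}

private lemma E.ps {d a b : ℕ} (h : G.E d a b) {X : Finset ℕ} (ha : a ∈ X) :
    G.p d ∈ X ∨ G.q d ∈ X := by
  rcases h.2 with ⟨h1, -⟩ | ⟨-, h1⟩
  · exact Or.inl (h1 ▸ ha)
  · exact Or.inr (h1 ▸ ha)

private lemma star_ps {v d : ℕ} (h : d ∈ G.star v) {X : Finset ℕ} (hv : v ∈ X) :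
    G.p d ∈ X ∨ G.q d ∈ X := by
  rcases (mem_star.1 h).2 with h1 | h1
  · exact Or.inl (h1 ▸ hv)
  · exact Or.inr (h1 ▸ hv)

private lemma tds_star {W : Finset ℕ} {d : ℕ} (h : d ∈ G.tds W) : ∃ v ∈ W, d ∈ G.star v := by
  obtain ⟨h1, h2 | h2⟩ := mem_tds.1 h
  · exact ⟨_, h2, mem_star.2 ⟨h1, Or.inl rfl⟩⟩
  · exact ⟨_, h2, mem_star.2 ⟨h1, Or.inr rfl⟩⟩

private lemma S.tf {d i j v : ℕ} (h : G.S d i j) (hd : d ∈ G.star v) {W : Finset ℕ} (hv : v ∈ W) :
    j ∈ G.tf W := by
  rcases h with h | h
  · rw [← h.2]; exact r_mem_tf (star_sub_tds hv hd)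
  · rw [← h.1]; exact l_mem_tf (star_sub_tds hv hd)

private lemma S.out {d i v : ℕ} (h : G.S d o i) (hd : d ∈ G.star v) : G.Out o v := by
  rcases h with h | h
  · exact ⟨d, hd, Or.inl h.1⟩
  · exact ⟨d, hd, Or.inr h.2⟩

namespace Cub

variable {x e g e' F F' : ℕ}

private lemma me (h : G.Cub o x e g e' F F') : e ∈ G.star x := by rw [h.st]; simp

private lemma mg (h : G.Cub o x e g e' F F') : g ∈ G.star x := by rw [h.st]; simp

private lemma me' (h : G.Cub o x e g e' F F') : e' ∈ G.star x := by rw [h.st]; simp

private lemma out (h : G.Cub o x e g e' F F') : G.Out o x := h.se.out h.me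

end Cub

/-- Step 4, no vertex of degree two -/
theorem step4a {a b c N m : ℕ} (hP : Par a b c N) (hG : Cx a b c N m o G)
    {x x' e e' g g' F F' : ℕ} (hx : G.Cub o x e g e' F F') (hx' : G.Cub o x' e g' e' F F')
    (he : G.E e x x') (he' : G.E e' x x') : False := by
  have hgood := hG.cls.good
  have hxx : x ≠ x' := he.ne hgood
  have hxv : x ∈ G.vs := he.memv hgood
  have hxv' : x' ∈ G.vs := he.symm.memv hgood
  have hFC : G.FC {x, x'} o :=
    (FC_singleton hgood hxv' hx'.out).insert_out hgood hxv hx.out
  have hab := hP.a2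
  have h5 := hP.a5b2
  by_cases hgg : g' ∈ G.star x
  · have h := hG.move hP.bc hP.a2 (W := {x, x'}) (X₀ := {x}) (Y₀ := ∅) (B := {F, F'})
      (by
        intro v hv
        simp only [mem_insert, mem_singleton] at hv
        rcases hv with rfl | rfl <;> assumption)
      ⟨x, by simp⟩ hFC (singleton_subset_iff.2 hxv) (empty_subset _)
      (by
        intro i hi
        simp only [mem_insert, mem_singleton] at hi
        rw [mem_erase]
        rcases hi with rfl | rfl
        · exact ⟨hx.f1, hx.se.tf hx.me (by simp)⟩
        · exact ⟨hx.f2, hx.se'.tf hx.me' (by simp)⟩)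
      (by
        intro d hd
        have h1 : G.p d ∈ ({x} : Finset ℕ) ∨ G.q d ∈ ({x} : Finset ℕ) := by
          obtain ⟨v, hv, hdv⟩ := tds_star hd
          simp only [mem_insert, mem_singleton] at hv
          rcases hv with rfl | rfl
          · exact star_ps hdv (by simp)
          · rw [hx'.st] at hdv
            simp only [mem_insert, mem_singleton] at hdv
            rcases hdv with rfl | rfl | rfl
            · exact he.ps (by simp)
            · exact star_ps hgg (by simp)
            · exact he'.ps (by simp)
        rcases h1 with h1 | h1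
        · exact Or.inl h1
        · exact Or.inr (Or.inl h1))
    rw [card_pair hxx, card_pair hx.f3, card_singleton, fpr_empty] at h
    omega
  · obtain ⟨s, hs⟩ := exists_E hx'.mg
    have hsx : s ≠ x := by
      rintro rfl
      exact hgg hs.right
    have hsx' : s ≠ x' := (hs.ne hgood).symm
    have hsv : s ∈ G.vs := hs.symm.memv hgood
    have hw : 1 ≤ G.ws {e, e'} := by
      have h1 := hG.cls.girth {e, e'} (by
        intro d hd
        simp only [mem_insert, mem_singleton] at hd
        rcases hd with rfl | rfl
        · exact he.mem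
        · exact he'.mem) (evenSet_pair he he' hx.n2) ⟨e, by simp⟩
      rw [sum_pair hx.n2] at h1
      rw [ws, sum_pair hx.n2]
      omega
    have h := hG.move_w hP.bc hP.a2 (W := {s, x, x'}) (X₀ := {x, s}) (Y₀ := ∅) (B := {F, F'})
      (D := {e, e'}) (D' := ∅)
      (by
        intro v hv
        simp only [mem_insert, mem_singleton] at hv
        rcases hv with rfl | rfl | rfl <;> assumption)
      ⟨x, by simp⟩ (hFC.insert_adj hgood (w := x') (by simp) ⟨g', hs.symm⟩)
      (by
        intro v hv
        simp only [mem_insert, mem_singleton] at hv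
        rcases hv with rfl | rfl <;> assumption)
      (empty_subset _)
      (by
        intro i hi
        simp only [mem_insert, mem_singleton] at hi
        rw [mem_erase]
        rcases hi with rfl | rfl
        · exact ⟨hx.f1, hx.se.tf hx.me (by simp)⟩
        · exact ⟨hx.f2, hx.se'.tf hx.me' (by simp)⟩)
      (by
        intro d hd
        have h1 : G.p d ∈ ({x, s} : Finset ℕ) ∨ G.q d ∈ ({x, s} : Finset ℕ) := by
          obtain ⟨v, hv, hdv⟩ := tds_star hd
          simp only [mem_insert, mem_singleton] at hv
          rcases hv with rfl | rfl | rfl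
          · exact star_ps hdv (by simp)
          · exact star_ps hdv (by simp)
          · rw [hx'.st] at hdv
            simp only [mem_insert, mem_singleton] at hdv
            rcases hdv with rfl | rfl | rfl
            · exact he.ps (by simp)
            · exact hs.symm.ps (by simp)
            · exact he'.ps (by simp)
        rcases h1 with h1 | h1
        · exact Or.inl h1
        · exact Or.inr (Or.inl h1))
      (by
        intro d hd
        simp only [mem_insert, mem_singleton] at hd
        rcases hd with rfl | rfl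
        · exact star_sub_tds (by simp) hx.me
        · exact star_sub_tds (by simp) hx.me')
      (empty_subset _) (disjoint_empty_right _) (by simp)
    have h6 : G.ws (∅ : Finset ℕ) = 0 := by simp [ws]
    rw [h6, card_insert_of_notMem (by simp [hsx, hsx']), card_pair hxx, card_pair hx.f3,
      card_pair hsx.symm, fpr_empty] at h
    have h7 : 2 * a - N ≤ (2 * a - N) * G.ws {e, e'} := Nat.le_mul_of_pos_right _ hw
    generalize (2 * a - N) * G.ws {e, e'} = t at h h7
    omega

/-- Step 4, one vertex `y` of degree two -/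
theorem step4b {a b c N m : ℕ} (hP : Par a b c N) (hG : Cx a b c N m o G)
    {x x' y e d d' g g' F F' : ℕ} (hx : G.Cub o x e g d F F') (hx' : G.Cub o x' e g' d' F F')
    (hy : G.Two o y d d' F') (he : G.E e x x') (hd : G.E d x y) (hd' : G.E d' x' y) : False := by
  have hgood := hG.cls.good
  have hxx : x ≠ x' := he.ne hgood
  have hxy : x ≠ y := hd.ne hgood
  have hxy' : x' ≠ y := hd'.ne hgood
  have hxv : x ∈ G.vs := he.memv hgood
  have hxv' : x' ∈ G.vs := he.symm.memv hgood
  have hyv : y ∈ G.vs := hd.symm.memv hgood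
  have hFC : G.FC {y, x, x'} o :=
    ((FC_singleton hgood hxv' hx'.out).insert_out hgood hxv hx.out).insert_out hgood hyv
      (hy.se.out (by rw [hy.st]; simp))
  have h5 := hP.a5b2
  have h2 := hP.a2
  obtain ⟨hZ, n1, n2, n3⟩ := evenSet_triangle he hd' hd.symm hxx hxy' hxy.symm
  have hcard : G.ws {e, d', d} = G.w e + (G.w d' + G.w d) := by
    rw [ws, sum_insert (by simp [n1, n2]), sum_pair n3]
  have hw : 1 ≤ G.ws {e, d', d} := by
    have h1 := hG.cls.girth {e, d', d} (by
      intro k hk
      simp only [mem_insert, mem_singleton] at hk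
      rcases hk with rfl | rfl | rfl
      · exact he.mem
      · exact hd'.mem
      · exact hd.mem) hZ ⟨e, by simp⟩
    rw [sum_insert (by simp [n1, n2]), sum_pair n3] at h1
    rw [hcard]
    omega
  have h := hG.move_w hP.bc hP.a2 (W := {y, x, x'}) (X₀ := {x, x'}) (Y₀ := ∅) (B := {F, F'})
    (D := {e, d', d}) (D' := ∅)
    (by
      intro v hv
      simp only [mem_insert, mem_singleton] at hv
      rcases hv with rfl | rfl | rfl <;> assumption)
    ⟨x, by simp⟩ hFC
    (by
      intro v hv
      simp only [mem_insert, mem_singleton] at hv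
      rcases hv with rfl | rfl <;> assumption)
    (empty_subset _)
    (by
      intro i hi
      simp only [mem_insert, mem_singleton] at hi
      rw [mem_erase]
      rcases hi with rfl | rfl
      · exact ⟨hx.f1, hx.se.tf hx.me (by simp)⟩
      · exact ⟨hx.f2, hx.se'.tf hx.me' (by simp)⟩)
    (by
      intro k hk
      have h1 : G.p k ∈ ({x, x'} : Finset ℕ) ∨ G.q k ∈ ({x, x'} : Finset ℕ) := by
        obtain ⟨v, hv, hkv⟩ := tds_star hk
        simp only [mem_insert, mem_singleton] at hv
        rcases hv with rfl | rfl | rfl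
        · rw [hy.st] at hkv
          simp only [mem_insert, mem_singleton] at hkv
          rcases hkv with rfl | rfl
          · exact hd.ps (by simp)
          · exact hd'.ps (by simp)
        · exact star_ps hkv (by simp)
        · exact star_ps hkv (by simp)
      rcases h1 with h1 | h1
      · exact Or.inl h1
      · exact Or.inr (Or.inl h1))
    (by
      intro k hk
      simp only [mem_insert, mem_singleton] at hk
      rcases hk with rfl | rfl | rfl
      · exact star_sub_tds (by simp) hx.me
      · exact star_sub_tds (v := x') (by simp) hx'.me'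
      · exact star_sub_tds (v := x) (by simp) hx.me')
    (empty_subset _) (disjoint_empty_right _) (by simp)
  have h6 : G.ws (∅ : Finset ℕ) = 0 := by simp [ws]
  rw [h6, card_insert_of_notMem (by simp [hxy.symm, hxy'.symm]), card_pair hxx, card_pair hx.f3,
    fpr_empty] at h
  have h7 : 2 * a - N ≤ (2 * a - N) * G.ws {e, d', d} := Nat.le_mul_of_pos_right _ hw
  generalize (2 * a - N) * G.ws {e, d', d} = t at h h7
  omega

/-- Step 4, two vertices `y`, `y'` of degree two -/
theorem step4c {a b c N m : ℕ} (hP : Par a b c N) (hG : Cx a b c N m o G)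
    {x x' y y' e e' d d' g g' F F' : ℕ} (hx : G.Cub o x e g d F F')
    (hx' : G.Cub o x' e' g' d' F F') (hy : G.Two o y e e' F) (hy' : G.Two o y' d d' F')
    (he : G.E e x y) (he' : G.E e' x' y) (hd : G.E d x y') (hd' : G.E d' x' y') : False := by
  have hgood := hG.cls.good
  have hxx : x ≠ x' := by
    rintro rfl
    have h1 := hx'.me
    rw [hx.st] at h1
    simp only [mem_insert, mem_singleton] at h1
    rcases h1 with h1 | h1 | h1
    · exact hy.n h1.symm
    · subst h1
      rcases hx.sg.unique hx'.se with h2 | h2
      · exact hx.f1 h2.1.symm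
      · exact hx.f2 h2.1.symm
    · subst h1
      exact hx.f3 (hx'.se.other hx.se')
  have hyy : y ≠ y' := by
    rintro rfl
    have h1 : e ∈ G.star y := he.right
    rw [hy'.st] at h1
    simp only [mem_insert, mem_singleton] at h1
    rcases h1 with h1 | h1
    · subst h1
      exact hx.f3 (hy.se.other hy'.se)
    · subst h1
      exact hx.f3 (hy.se.other hy'.se')
  have hxy : x ≠ y := he.ne hgood
  have hxy1 : x' ≠ y := he'.ne hgood
  have hxy2 : x ≠ y' := hd.ne hgood
  have hxy3 : x' ≠ y' := hd'.ne hgood
  have hxv : x ∈ G.vs := he.memv hgood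
  have hxv' : x' ∈ G.vs := he'.memv hgood
  have hyv : y ∈ G.vs := he.symm.memv hgood
  have hyv' : y' ∈ G.vs := hd.symm.memv hgood
  have hFC : G.FC {y', y, x, x'} o :=
    (((FC_singleton hgood hxv' hx'.out).insert_out hgood hxv hx.out).insert_out hgood hyv
      (hy.se.out (by rw [hy.st]; simp))).insert_out hgood hyv' (hy'.se.out (by rw [hy'.st]; simp))
  have h2 := hP.a2
  have h := hG.move hP.bc hP.a2 (W := {y', y, x, x'}) (X₀ := {x, x'}) (Y₀ := ∅) (B := {F, F'})
    (by
      intro v hv
      simp only [mem_insert, mem_singleton] at hv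
      rcases hv with rfl | rfl | rfl | rfl <;> assumption)
    ⟨x, by simp⟩ hFC
    (by
      intro v hv
      simp only [mem_insert, mem_singleton] at hv
      rcases hv with rfl | rfl <;> assumption)
    (empty_subset _)
    (by
      intro i hi
      simp only [mem_insert, mem_singleton] at hi
      rw [mem_erase]
      rcases hi with rfl | rfl
      · exact ⟨hx.f1, hx.se.tf hx.me (by simp)⟩
      · exact ⟨hx.f2, hx.se'.tf hx.me' (by simp)⟩)
    (by
      intro k hk
      have h1 : G.p k ∈ ({x, x'} : Finset ℕ) ∨ G.q k ∈ ({x, x'} : Finset ℕ) := by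
        obtain ⟨v, hv, hkv⟩ := tds_star hk
        simp only [mem_insert, mem_singleton] at hv
        rcases hv with rfl | rfl | rfl | rfl
        · rw [hy'.st] at hkv
          simp only [mem_insert, mem_singleton] at hkv
          rcases hkv with rfl | rfl
          · exact hd.ps (by simp)
          · exact hd'.ps (by simp)
        · rw [hy.st] at hkv
          simp only [mem_insert, mem_singleton] at hkv
          rcases hkv with rfl | rfl
          · exact he.ps (by simp)
          · exact he'.ps (by simp)
        · exact star_ps hkv (by simp)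
        · exact star_ps hkv (by simp)
      rcases h1 with h1 | h1
      · exact Or.inl h1
      · exact Or.inr (Or.inl h1))
  rw [card_insert_of_notMem (by simp [hyy.symm, hxy2.symm, hxy3.symm]),
    card_insert_of_notMem (by simp [hxy.symm, hxy1.symm]), card_pair hxx, card_pair hx.f3,
    fpr_empty] at h
  omega

theorem specStep4a (m : ℕ) : SpecStep4a m :=
  fun _ _ hG _ _ _ _ _ _ _ _ _ _ hx hx' he he' => step4a par17 hG hx hx' he he'

theorem specStep4b (m : ℕ) : SpecStep4b m :=
  fun _ _ hG _ _ _ _ _ _ _ _ _ _ _ _ hx hx' hy he hd hd' => step4b par17 hG hx hx' hy he hd hd'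

theorem specStep4c (m : ℕ) : SpecStep4c m :=
  fun _ _ hG _ _ _ _ _ _ _ _ _ _ _ _ _ _ hx hx' hy hy' he he' hd hd' =>
    step4c par17 hG hx hx' hy hy' he he' hd hd'

end Gr

end Pool.Agent.Lib.MP06c549.T6H
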