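import Pool.Agent.Lib.MP_06c549_co.T6H.Base

/-!
# MP_06c549_co, T6H: local lemmas (edges at a vertex, sides of the edges at a vertex)
-/

set_option autoImplicit false

namespace Pool.Agent.Lib.MP06c549.T6H

open Finset

namespace Gr

variable {G : Gr}

/-- the edge `d` joins `a` and `b` -/
def E (G : Gr) (d a b : ℕ) : Prop :=
  d ∈ G.ds ∧ ((G.p d = a ∧ G.q d = b) ∨ (G.p d = b ∧ G.q d = a))

/-- the sides of the edge `d` are `i` and `j` -/
def S (G : Gr) (d i j : ℕ) : Prop := (G.l d = i ∧ G.r d = j) ∨ (G.l d = j ∧ G.r d = i)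

/-- adjacency -/
def Adj (G : Gr) (a b : ℕ) : Prop := ∃ d, G.E d a b

lemma E.symm {d a b : ℕ} (h : G.E d a b) : G.E d b a := ⟨h.1, h.2.symm⟩

lemma S.symm {d i j : ℕ} (h : G.S d i j) : G.S d j i := Or.symm h

lemma E.mem {d a b : ℕ} (h : G.E d a b) : d ∈ G.ds := h.1

lemma E.left {d a b : ℕ} (h : G.E d a b) : d ∈ G.star a := by
  rw [mem_star]
  refine ⟨h.1, ?_⟩
  rcases h.2 with h1 | h1
  · exact Or.inl h1.1
  · exact Or.inr h1.2

lemma E.right {d a b : ℕ} (h : G.E d a b) : d ∈ G.star b := h.symm.left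

lemma E.ne (hG : G.Good) {d a b : ℕ} (h : G.E d a b) : a ≠ b := by
  have h1 := hG.ne d h.1
  rcases h.2 with ⟨h2, h3⟩ | ⟨h2, h3⟩
  · rwa [h2, h3] at h1
  · rw [h2, h3] at h1; exact h1.symm

lemma E.memv (hG : G.Good) {d a b : ℕ} (h : G.E d a b) : a ∈ G.vs := by
  have h1 := hG.ends d h.1
  rcases h.2 with ⟨h2, h3⟩ | ⟨h2, h3⟩
  · rw [← h2]; exact h1.1
  · rw [← h3]; exact h1.2

/-- an edge at `v` joins `v` with its other end -/
lemma exists_E {v d : ℕ} (h : d ∈ G.star v) : ∃ u, G.E d v u := by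
  rw [mem_star] at h
  rcases h.2 with h1 | h1
  · exact ⟨G.q d, h.1, Or.inl ⟨h1, rfl⟩⟩
  · exact ⟨G.p d, h.1, Or.inr ⟨rfl, h1⟩⟩

/-- the ends of an edge are determined -/
lemma E.other {d a b c : ℕ} (hG : G.Good) (h : G.E d a b) (h' : G.E d a c) : b = c := by
  have h1 := hG.ne d h.1
  rcases h.2 with ⟨h2, h3⟩ | ⟨h2, h3⟩ <;> rcases h'.2 with ⟨h4, h5⟩ | ⟨h4, h5⟩
  · rw [← h3, ← h5]
  · exact absurd (h2.trans h5.symm) h1
  · exact absurd (h4.trans h3.symm) h1
  · rw [← h2, ← h4]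

lemma E.ends {d a b v : ℕ} (h : G.E d a b) (hv : d ∈ G.star v) : v = a ∨ v = b := by
  rw [mem_star] at hv
  rcases h.2 with ⟨h2, h3⟩ | ⟨h2, h3⟩ <;> rcases hv.2 with h4 | h4
  · exact Or.inl (h4.symm.trans h2)
  · exact Or.inr (h4.symm.trans h3)
  · exact Or.inr (h4.symm.trans h2)
  · exact Or.inl (h4.symm.trans h3)

lemma E.mem_star_iff {d a b v : ℕ} (h : G.E d a b) : d ∈ G.star v ↔ v = a ∨ v = b := by
  constructor
  · exact h.ends
  · rintro (rfl | rfl)
    · exact h.left
    · exact h.right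

/-- the sum over the star of an indicator -/
lemma star_sum {v : ℕ} {Z : Finset ℕ} :
    ∑ d ∈ G.star v, (if d ∈ Z then (1 : ZMod 2) else 0) =
      ((Z.filter fun d => d ∈ G.star v).card : ZMod 2) := by
  rw [← sum_filter]
  have h1 : (G.star v).filter (fun d => d ∈ Z) = Z.filter fun d => d ∈ G.star v := by
    ext d
    simp only [mem_filter]
    exact and_comm
  rw [h1, sum_const, nsmul_eq_mul, mul_one]

/-- the edge set `Z` meets every star evenly -/
def EvenSet (G : Gr) (Z : Finset ℕ) : Prop :=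
  ∀ v ∈ G.vs, ∑ d ∈ G.star v, (if d ∈ Z then (1 : ZMod 2) else 0) = 0

lemma evenSet_of_card {Z : Finset ℕ}
    (h : ∀ v ∈ G.vs, Even (Z.filter fun d => d ∈ G.star v).card) : G.EvenSet Z := by
  intro v hv
  rw [star_sum]
  exact (ZMod.natCast_eq_zero_iff_even).2 (h v hv)

/-- two edges with the same ends form an even set -/
lemma evenSet_pair {d d' a b : ℕ} (h : G.E d a b) (h' : G.E d' a b) (hne : d ≠ d') :
    G.EvenSet {d, d'} := by
  refine evenSet_of_card fun v _ => ?_
  by_cases hv : v = a ∨ v = b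
  · have h1 : ({d, d'} : Finset ℕ).filter (fun d => d ∈ G.star v) = {d, d'} := by
      rw [filter_eq_self]
      intro e he
      rw [mem_insert, mem_singleton] at he
      rcases he with rfl | rfl
      · exact h.mem_star_iff.2 hv
      · exact h'.mem_star_iff.2 hv
    rw [h1, card_pair hne]
    exact even_two
  · have h1 : ({d, d'} : Finset ℕ).filter (fun d => d ∈ G.star v) = ∅ := by
      rw [filter_eq_empty_iff]
      intro e he
      rw [mem_insert, mem_singleton] at he
      rcases he with rfl | rfl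
      · exact fun h2 => hv (h.mem_star_iff.1 h2)
      · exact fun h2 => hv (h'.mem_star_iff.1 h2)
    rw [h1]
    exact Even.zero

/-- the edges of a triangle form an even set with three elements -/
lemma evenSet_triangle {d1 d2 d3 a b c : ℕ} (h1 : G.E d1 a b)
    (h2 : G.E d2 b c) (h3 : G.E d3 c a) (hab : a ≠ b) (hbc : b ≠ c) (hca : c ≠ a) :
    G.EvenSet {d1, d2, d3} ∧ d1 ≠ d2 ∧ d1 ≠ d3 ∧ d2 ≠ d3 := by
  have h12 : d1 ≠ d2 := by
    rintro rfl
    rcases h1.ends h2.right with h | h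
    · exact hca h
    · exact hbc h.symm
  have h23 : d2 ≠ d3 := by
    rintro rfl
    rcases h2.ends h3.right with h | h
    · exact hab h
    · exact hca h.symm
  have h13 : d1 ≠ d3 := by
    rintro rfl
    rcases h1.ends h3.left with h | h
    · exact hca h
    · exact hbc h.symm
  refine ⟨evenSet_of_card fun v _ => ?_, h12, h13, h23⟩
  have key : ∀ A : Finset ℕ, (∀ e, e ∈ A ↔ (e = d1 ∨ e = d2 ∨ e = d3) ∧ e ∈ G.star v) →
      (({d1, d2, d3} : Finset ℕ).filter fun d => d ∈ G.star v) = A := by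
    intro A hA
    ext e
    rw [mem_filter, hA]
    simp only [mem_insert, mem_singleton]
  by_cases hva : v = a
  · subst hva
    rw [key {d1, d3} (by
      intro e
      simp only [mem_insert, mem_singleton]
      constructor
      · rintro (rfl | rfl)
        · exact ⟨Or.inl rfl, h1.left⟩
        · exact ⟨Or.inr (Or.inr rfl), h3.right⟩
      · rintro ⟨rfl | rfl | rfl, h⟩
        · exact Or.inl rfl
        · exact absurd (h2.ends h) (by simp [hab, hca.symm])
        · exact Or.inr rfl), card_pair h13]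
    exact even_two
  by_cases hvb : v = b
  · subst hvb
    rw [key {d1, d2} (by
      intro e
      simp only [mem_insert, mem_singleton]
      constructor
      · rintro (rfl | rfl)
        · exact ⟨Or.inl rfl, h1.right⟩
        · exact ⟨Or.inr (Or.inl rfl), h2.left⟩
      · rintro ⟨rfl | rfl | rfl, h⟩
        · exact Or.inl rfl
        · exact Or.inr rfl
        · exact absurd (h3.ends h) (by simp [hab.symm, hbc])), card_pair h12]
    exact even_two
  by_cases hvc : v = c
  · subst hvc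
    rw [key {d2, d3} (by
      intro e
      simp only [mem_insert, mem_singleton]
      constructor
      · rintro (rfl | rfl)
        · exact ⟨Or.inr (Or.inl rfl), h2.right⟩
        · exact ⟨Or.inr (Or.inr rfl), h3.left⟩
      · rintro ⟨rfl | rfl | rfl, h⟩
        · exact absurd (h1.ends h) (by simp [hca, hbc.symm])
        · exact Or.inl rfl
        · exact Or.inr rfl), card_pair h23]
    exact even_two
  · rw [key ∅ (by
      intro e
      simp only [notMem_empty, false_iff]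
      rintro ⟨rfl | rfl | rfl, h⟩
      · rcases h1.ends h with h | h
        · exact hva h
        · exact hvb h
      · rcases h2.ends h with h | h
        · exact hvb h
        · exact hvc h
      · rcases h3.ends h with h | h
        · exact hvc h
        · exact hva h)]
    exact Even.zero

/-! ## Sides of the edges at a vertex -/

lemma S.mem_left (hG : G.Good) {d i j : ℕ} (hd : d ∈ G.ds) (h : G.S d i j) : i ∈ G.fs := by
  rcases h with ⟨h1, _⟩ | ⟨_, h1⟩
  · rw [← h1]; exact (hG.sides d hd).1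
  · rw [← h1]; exact (hG.sides d hd).2

lemma S.unique {d i j i' j' : ℕ} (h : G.S d i j) (h' : G.S d i' j') :
    (i' = i ∧ j' = j) ∨ (i' = j ∧ j' = i) := by
  rcases h with ⟨h1, h2⟩ | ⟨h1, h2⟩ <;> rcases h' with ⟨h3, h4⟩ | ⟨h3, h4⟩
  · exact Or.inl ⟨h3.symm.trans h1, h4.symm.trans h2⟩
  · exact Or.inr ⟨h4.symm.trans h2, h3.symm.trans h1⟩
  · exact Or.inr ⟨h3.symm.trans h1, h4.symm.trans h2⟩
  · exact Or.inl ⟨h4.symm.trans h2, h3.symm.trans h1⟩

/-- the second side is determined by the first one -/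
lemma S.other {d i j j' : ℕ} (h : G.S d i j) (h' : G.S d i j') : j = j' := by
  rcases h.unique h' with ⟨_, h1⟩ | ⟨h1, h2⟩
  · exact h1.symm
  · rw [h2, h1]

lemma S.sum {d i j : ℕ} (h : G.S d i j) (x : ℕ → ZMod 2) :
    x (G.l d) + x (G.r d) = x i + x j := by
  rcases h with ⟨h1, h2⟩ | ⟨h1, h2⟩
  · rw [h1, h2]
  · rw [h1, h2, add_comm]

lemma exists_S (d : ℕ) : G.S d (G.l d) (G.r d) := Or.inl ⟨rfl, rfl⟩

/-- at a vertex of degree two both edges have the same sides -/
lemma S_deg2 (hG : G.Good) {v d1 d2 a b : ℕ} (hv : v ∈ G.vs) (hs : G.star v = {d1, d2})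
    (hne : d1 ≠ d2) (h1 : G.S d1 a b) (hab : a ≠ b) : G.S d2 a b := by
  have key : ∀ x : ℕ → ZMod 2, (x a + x b) + (x (G.l d2) + x (G.r d2)) = 0 := by
    intro x
    have h2 := hG.even v hv x
    rw [hs, sum_pair hne, h1.sum] at h2
    exact h2
  have ka := key (fun i => if i = a then 1 else 0)
  have kb := key (fun i => if i = b then 1 else 0)
  simp only [if_true, if_neg hab.symm, if_neg hab] at ka kb
  by_cases hla : G.l d2 = a
  · by_cases hrb : G.r d2 = b
    · exact Or.inl ⟨hla, hrb⟩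
    · rw [hla, if_neg hab, if_neg hrb] at kb
      simp at kb
  · rw [if_neg hla] at ka
    have hra : G.r d2 = a := by
      by_contra h
      rw [if_neg h] at ka
      simp at ka
    rw [hra, if_neg hab] at kb
    have hlb : G.l d2 = b := by
      by_contra h
      rw [if_neg h] at kb
      simp at kb
    exact Or.inr ⟨hlb, hra⟩

lemma S_deg3_aux (hG : G.Good) {v d1 d2 d3 a b c' : ℕ} (hv : v ∈ G.vs)
    (hs : G.star v = {d1, d2, d3})
    (h12 : d1 ≠ d2) (h13 : d1 ≠ d3) (h23 : d2 ≠ d3) (h1 : G.S d1 a b) (hab : a ≠ b)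
    (h2 : G.S d2 a c') (hc : a ≠ c') (n3 : G.l d3 ≠ G.r d3) :
    c' ≠ b ∧ G.S d3 b c' := by
  have key : ∀ x : ℕ → ZMod 2, (x a + x b) + ((x a + x c') +
      (x (G.l d3) + x (G.r d3))) = 0 := by
    intro x
    have h3 := hG.even v hv x
    rw [hs, sum_insert (by simp [h12, h13]), sum_pair h23, h1.sum, h2.sum] at h3
    exact h3
  have k : ∀ i, (if a = i then (1 : ZMod 2) else 0) + (if b = i then 1 else 0) +
      ((if a = i then 1 else 0) + (if c' = i then 1 else 0) +
      ((if G.l d3 = i then 1 else 0) + (if G.r d3 = i then 1 else 0))) = 0 := fun i =>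
    key (fun j => if j = i then 1 else 0)
  have e : (1 : ZMod 2) + 1 = 0 := by decide
  have e1 : (1 : ZMod 2) ≠ 0 := by decide
  have hcb : c' ≠ b := by
    rintro rfl
    have k3 := k (G.l d3)
    have k4 : ∀ i, (if G.l d3 = i then (1 : ZMod 2) else 0) + (if G.r d3 = i then 1 else 0) = 0 := by
      intro i
      have := k i
      generalize (if G.l d3 = i then (1 : ZMod 2) else 0) + (if G.r d3 = i then 1 else 0) = s at *
      generalize (if a = i then (1 : ZMod 2) else 0) = s1 at *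
      generalize (if c' = i then (1 : ZMod 2) else 0) = s2 at *
      revert this
      revert s s1 s2
      decide
    have k5 := k4 (G.l d3)
    rw [if_pos rfl, if_neg n3.symm, add_zero] at k5
    exact e1 k5
  refine ⟨hcb, ?_⟩
  have kb := k b
  rw [if_neg hab, if_pos rfl, if_neg hcb, zero_add, zero_add, zero_add] at kb
  have kc := k c'
  rw [if_neg hc, if_neg hcb.symm, if_pos rfl, zero_add, zero_add, zero_add] at kc
  by_cases hl : G.l d3 = b
  · rw [hl, if_neg hcb.symm, zero_add] at kc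
    by_cases hr : G.r d3 = c'
    · exact Or.inl ⟨hl, hr⟩
    · rw [if_neg hr, add_zero] at kc
      exact absurd kc e1
  · rw [if_neg hl, zero_add] at kb
    have hr : G.r d3 = b := by
      by_contra hr
      rw [if_neg hr, add_zero] at kb
      exact e1 kb
    rw [hr, if_neg hcb.symm, add_zero] at kc
    by_cases hl' : G.l d3 = c'
    · exact Or.inr ⟨hl', hr⟩
    · rw [if_neg hl', add_zero] at kc
      exact absurd kc e1

/-- at a vertex of degree three the three edges have the sides `{a,b}`, `{b,c}`, `{c,a}` -/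
lemma S_deg3 (hG : G.Good) {v d1 d2 d3 a b : ℕ} (hv : v ∈ G.vs) (hs : G.star v = {d1, d2, d3})
    (h12 : d1 ≠ d2) (h13 : d1 ≠ d3) (h23 : d2 ≠ d3) (h1 : G.S d1 a b) (hab : a ≠ b)
    (n2 : G.l d2 ≠ G.r d2) (n3 : G.l d3 ≠ G.r d3) :
    ∃ c, c ≠ a ∧ c ≠ b ∧ ((G.S d2 a c ∧ G.S d3 b c) ∨ (G.S d3 a c ∧ G.S d2 b c)) := by
  have e1 : (1 : ZMod 2) ≠ 0 := by decide
  have hs' : G.star v = {d1, d3, d2} := by
    rw [hs]; ext i; simp only [mem_insert, mem_singleton]; tauto
  by_cases hl2 : G.l d2 = a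
  · have h2 : G.S d2 a (G.r d2) := Or.inl ⟨hl2, rfl⟩
    have hc : a ≠ G.r d2 := hl2 ▸ n2
    obtain ⟨h3, h4⟩ := S_deg3_aux hG hv hs h12 h13 h23 h1 hab h2 hc n3
    exact ⟨_, hc.symm, h3, Or.inl ⟨h2, h4⟩⟩
  by_cases hr2 : G.r d2 = a
  · have h2 : G.S d2 a (G.l d2) := Or.inr ⟨rfl, hr2⟩
    have hc : a ≠ G.l d2 := hr2 ▸ n2.symm
    obtain ⟨h3, h4⟩ := S_deg3_aux hG hv hs h12 h13 h23 h1 hab h2 hc n3
    exact ⟨_, hc.symm, h3, Or.inl ⟨h2, h4⟩⟩
  by_cases hl3 : G.l d3 = a
  · have h2 : G.S d3 a (G.r d3) := Or.inl ⟨hl3, rfl⟩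
    have hc : a ≠ G.r d3 := hl3 ▸ n3
    obtain ⟨h3, h4⟩ := S_deg3_aux hG hv hs' h13 h12 h23.symm h1 hab h2 hc n2
    exact ⟨_, hc.symm, h3, Or.inr ⟨h2, h4⟩⟩
  by_cases hr3 : G.r d3 = a
  · have h2 : G.S d3 a (G.l d3) := Or.inr ⟨rfl, hr3⟩
    have hc : a ≠ G.l d3 := hr3 ▸ n3.symm
    obtain ⟨h3, h4⟩ := S_deg3_aux hG hv hs' h13 h12 h23.symm h1 hab h2 hc n2
    exact ⟨_, hc.symm, h3, Or.inr ⟨h2, h4⟩⟩
  exfalso
  have h3 := hG.even v hv (fun i => if i = a then 1 else 0)
  rw [hs, sum_insert (by simp [h12, h13]), sum_pair h23,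
    h1.sum (fun i => if i = a then (1 : ZMod 2) else 0)] at h3
  simp only [if_true, if_neg hab.symm, if_neg hl2, if_neg hr2, if_neg hl3, if_neg hr3,
    add_zero] at h3
  exact e1 h3

/-! ## Faces linked to the unusable face -/

/-- an edge at `v` has the side `u` -/
def Out (G : Gr) (u v : ℕ) : Prop := ∃ d ∈ G.star v, G.l d = u ∨ G.r d = u

/-- the faces at a vertex: if `x` is constant across the edges at `v`, then it is constant on the
faces at `v` -/
lemma link_sides (hG : G.Good) {v : ℕ} (hv : v ∈ G.vs) {x : ℕ → ZMod 2}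
    (h : ∀ d ∈ G.star v, x (G.l d) = x (G.r d)) {d d' : ℕ} (hd : d ∈ G.star v)
    (hd' : d' ∈ G.star v) {i j : ℕ} (hi : G.l d = i ∨ G.r d = i) (hj : G.l d' = j ∨ G.r d' = j) :
    x i = x j := by
  have h1 := hG.link v hv x h d hd d' hd'
  have e1 : x i = x (G.l d) := by
    rcases hi with rfl | rfl
    · rfl
    · exact (h d hd).symm
  have e2 : x j = x (G.l d') := by
    rcases hj with rfl | rfl
    · rfl
    · exact (h d' hd').symm
  rw [e1, e2, h1]

lemma tds_insert {W : Finset ℕ} {v : ℕ} : G.tds (insert v W) = G.star v ∪ G.tds W := by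
  ext d
  rw [mem_union, mem_tds, mem_tds, mem_star, mem_insert, mem_insert]
  tauto

/-- a face touched by `insert v W` -/
lemma mem_tf_insert {W : Finset ℕ} {v i : ℕ} :
    i ∈ G.tf (insert v W) ↔ (∃ d ∈ G.star v, G.l d = i ∨ G.r d = i) ∨ i ∈ G.tf W := by
  rw [mem_tf, mem_tf, tds_insert]
  constructor
  · rintro ⟨d, hd, h⟩
    rcases mem_union.1 hd with hd | hd
    · exact Or.inl ⟨d, hd, h⟩
    · exact Or.inr ⟨d, hd, h⟩
  · rintro (⟨d, hd, h⟩ | ⟨d, hd, h⟩)
    · exact ⟨d, mem_union_left _ hd, h⟩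
    · exact ⟨d, mem_union_right _ hd, h⟩

lemma FC_emp {u : ℕ} : G.FC ∅ u := by
  intro x _ i hi
  obtain ⟨d, hd, _⟩ := mem_tf.1 hi
  rw [mem_tds] at hd
  simp at hd

/-- an outer vertex may be added -/
lemma FC.insert_out (hG : G.Good) {W : Finset ℕ} {u v : ℕ} (h : G.FC W u) (hv : v ∈ G.vs)
    (ho : G.Out u v) : G.FC (insert v W) u := by
  intro x hx i hi
  have h1 : ∀ d ∈ G.star v, x (G.l d) = x (G.r d) := fun d hd =>
    hx d (star_sub_tds (mem_insert_self _ _) hd)
  rcases mem_tf_insert.1 hi with ⟨d, hd, hdi⟩ | hi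
  · obtain ⟨d', hd', hd'u⟩ := ho
    exact link_sides hG hv h1 hd hd' hdi hd'u
  · refine h x (fun d hd => hx d ?_) i hi
    rw [tds_insert]; exact mem_union_right _ hd

/-- a neighbour of a vertex of `W` may be added -/
lemma FC.insert_adj (hG : G.Good) {W : Finset ℕ} {u v w : ℕ} (h : G.FC W u) (hw : w ∈ W)
    (hvw : G.Adj v w) : G.FC (insert v W) u := by
  obtain ⟨d0, hd0⟩ := hvw
  intro x hx i hi
  have hv : v ∈ G.vs := hd0.memv hG
  have h1 : ∀ d ∈ G.star v, x (G.l d) = x (G.r d) := fun d hd =>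
    hx d (star_sub_tds (mem_insert_self _ _) hd)
  have h2 : ∀ i ∈ G.tf W, x i = x u := h x (fun d hd => hx d (by
    rw [tds_insert]; exact mem_union_right _ hd))
  rcases mem_tf_insert.1 hi with ⟨d, hd, hdi⟩ | hi
  · rw [link_sides hG hv h1 hd hd0.left hdi (Or.inl rfl)]
    exact h2 _ (l_mem_tf (star_sub_tds hw hd0.right))
  · exact h2 i hi

lemma FC_singleton (hG : G.Good) {u v : ℕ} (hv : v ∈ G.vs) (ho : G.Out u v) :
    G.FC {v} u := by
  have h := (FC_emp (G := G) (u := u)).insert_out hG hv ho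
  rwa [insert_empty_eq] at h

end Gr

end Pool.Agent.Lib.MP06c549.T6H
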