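import Pool.Agent.Lib.MP_06c549_co.T6H.Side
import Pool.Agent.Lib.MP_06c549_co.T6H.Loc
import Pool.Agent.Lib.MP_06c549_co.T6H.Step5
import Pool.Agent.Lib.MP_06c549_co.T6H.Spec

section
/-!
# MP_06c549_co, T6H: section (6), the terminals are cubic
-/
set_option autoImplicit false

namespace Pool.Agent.Lib.MP06c549.T6H

open Finset

namespace Gr

variable {G : Gr}

/-- the end `t` of a cut edge has another edge with the side `o`, on a third face -/
def Term (G : Gr) (o z e1 e2 t : ℕ) : Prop :=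
  ∃ b ∈ G.star t, b ≠ e1 ∧ b ≠ e2 ∧ ∃ F, G.Sd b o F ∧ F ≠ o ∧ F ≠ z

lemma Term.symm {o z e1 e2 t : ℕ} (h : G.Term o z e1 e2 t) : G.Term o z e2 e1 t := by
  obtain ⟨b, h1, h2, h3, h4⟩ := h
  exact ⟨b, h1, h3, h2, h4⟩

/-- a vertex of degree three with an edge with the sides `o`, `z` -/
lemma deg3_out (hG : G.Good) (hlr : ∀ d ∈ G.ds, G.l d ≠ G.r d) {o z e t : ℕ} (he : e ∈ G.star t)
    (hs : G.S e o z) (h3 : (G.star t).card = 3) :
    ∃ b g H, G.star t = {e, b, g} ∧ e ≠ b ∧ e ≠ g ∧ b ≠ g ∧ G.S b o H ∧ G.S g z H ∧ H ≠ o ∧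
      H ≠ z := by
  have htv : t ∈ G.vs := by
    have h1 := hG.ends e (star_sub he)
    rcases (mem_star.1 he).2 with h | h
    · rw [← h]; exact h1.1
    · rw [← h]; exact h1.2
  have hoz : o ≠ z := by
    have h1 := hlr e (star_sub he)
    rcases hs with ⟨h2, h3⟩ | ⟨h2, h3⟩
    · rw [h2, h3] at h1; exact h1
    · rw [h2, h3] at h1; exact h1.symm
  have h2 : ((G.star t).erase e).card = 2 := by rw [card_erase_of_mem he, h3]
  obtain ⟨b, g, hbg, hbg'⟩ := card_eq_two.1 h2
  have hb : b ∈ (G.star t).erase e := by rw [hbg']; exact mem_insert_self _ _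
  have hg : g ∈ (G.star t).erase e := by
    rw [hbg']; exact mem_insert_of_mem (mem_singleton_self _)
  have hst : G.star t = {e, b, g} := by rw [← hbg', insert_erase he]
  have hbe := (mem_erase.1 hb).1
  have hge := (mem_erase.1 hg).1
  obtain ⟨H, h4, h5, h6 | h6⟩ := S_deg3 hG htv hst hbe.symm hge.symm hbg hs hoz
    (hlr b (star_sub (mem_erase.1 hb).2)) (hlr g (star_sub (mem_erase.1 hg).2))
  · exact ⟨b, g, H, hst, hbe.symm, hge.symm, hbg, h6.1, h6.2, h4, h5⟩
  · refine ⟨g, b, H, ?_, hge.symm, hbe.symm, hbg.symm, h6.1, h6.2, h4, h5⟩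
    rw [hst, Finset.pair_comm]

/-- a vertex of degree two -/
lemma deg2_out (hG : G.Good) (hlr : ∀ d ∈ G.ds, G.l d ≠ G.r d) {o z e t : ℕ} (he : e ∈ G.star t)
    (hs : G.S e o z) (h2 : (G.star t).card = 2) :
    ∃ b, G.star t = {e, b} ∧ e ≠ b ∧ G.S b o z := by
  have htv : t ∈ G.vs := by
    have h1 := hG.ends e (star_sub he)
    rcases (mem_star.1 he).2 with h | h
    · rw [← h]; exact h1.1
    · rw [← h]; exact h1.2
  have hoz : o ≠ z := by
    have h1 := hlr e (star_sub he)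
    rcases hs with ⟨h2, h3⟩ | ⟨h2, h3⟩
    · rw [h2, h3] at h1; exact h1
    · rw [h2, h3] at h1; exact h1.symm
  have h3 : ((G.star t).erase e).card = 1 := by rw [card_erase_of_mem he, h2]
  obtain ⟨b, hb⟩ := card_eq_one.1 h3
  have hbm : b ∈ (G.star t).erase e := by rw [hb]; exact mem_singleton_self _
  have hst : G.star t = {e, b} := by rw [← hb, insert_erase he]
  exact ⟨b, hst, (mem_erase.1 hbm).1.symm, S_deg2 hG htv hst (mem_erase.1 hbm).1.symm hs hoz⟩

/-- all ends of the two edges are terminals -/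
theorem term_of_end (hG : G.Good) (hlr : ∀ d ∈ G.ds, G.l d ≠ G.r d) {o z e1 e2 : ℕ}
    {f : ℕ → ZMod 2} (h : G.Cut2 o z e1 e2 f) (hne : e1 ≠ e2)
    (h23 : ∀ v ∈ G.vs, (∃ d ∈ G.star v, G.l d = o ∨ G.r d = o) →
      (G.star v).card = 2 ∨ (G.star v).card = 3)
    (hsm : ∀ {s t u v d0 d1 d2 : ℕ}, G.E d1 u s → G.E d0 s t → G.E d2 t v → G.star s = {d1, d0} →
      G.star t = {d0, d2} → d1 ≠ d2 → u ≠ v → False)
    (h5 : ∀ {y x x' e e' d1 g d1' g' F H H' : ℕ}, G.star y = {e, e'} → G.E e y x →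
      G.E e' y x' → x ≠ x' → G.star x = {e, d1, g} → G.star x' = {e', d1', g'} →
      G.S e o F → G.S e' o F → G.S d1 o H → G.S d1' o H' → F ≠ o → H ≠ o → H' ≠ o → F ≠ H →
      F ≠ H' → H = H')
    (hcom : ∀ v, e1 ∈ G.star v → e2 ∈ G.star v → (G.star v).card ≠ 2) {t : ℕ}
    (ht : e1 ∈ G.star t) : G.Term o z e1 e2 t := by
  have hoz : o ≠ z := by
    have h1 := hlr e1 h.m1
    rcases h.s1 with ⟨h2, h3⟩ | ⟨h2, h3⟩
    · rw [h2, h3] at h1; exact h1
    · rw [h2, h3] at h1; exact h1.symm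
  have hout : ∀ {v d i : ℕ}, d ∈ G.star v → G.S d o i →
      (G.star v).card = 2 ∨ (G.star v).card = 3 := by
    intro v d i hd hs
    refine h23 v ?_ ⟨d, hd, hs.imp (fun h => h.1) (fun h => h.2)⟩
    have h1 := hG.ends d (star_sub hd)
    rcases (mem_star.1 hd).2 with h | h
    · rw [← h]; exact h1.1
    · rw [← h]; exact h1.2
  -- the value of `f` at the ends of the edges
  have hfE : ∀ {d a b : ℕ}, G.E d a b → d ≠ e1 → d ≠ e2 → f a = f b := by
    intro d a b hd h1 h2
    have h3 := h.other d hd.1 h1 h2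
    rcases hd.2 with ⟨h4, h5⟩ | ⟨h4, h5⟩
    · rw [← h4, ← h5, h3]
    · rw [← h4, ← h5, h3]
  have hfE1 : ∀ {a b : ℕ}, G.E e1 a b → f a ≠ f b := by
    intro a b hd h1
    refine h.c1 ?_
    rcases hd.2 with ⟨h4, h5⟩ | ⟨h4, h5⟩
    · rw [h4, h5, h1]
    · rw [h4, h5, h1]
  have hfE2 : ∀ {a b : ℕ}, G.E e2 a b → f a ≠ f b := by
    intro a b hd h1
    refine h.c2 ?_
    rcases hd.2 with ⟨h4, h5⟩ | ⟨h4, h5⟩
    · rw [h4, h5, h1]
    · rw [h4, h5, h1]
  -- a cubic vertex is not on both edges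
  have hnot : ∀ {v : ℕ}, e1 ∈ G.star v → e2 ∈ G.star v → False := by
    intro v h1 h2
    rcases hout h1 h.s1 with h3 | h3
    · exact hcom v h1 h2 h3
    · obtain ⟨b, g, H, hst, h6, h7, h8, h9, h10, h11, h12⟩ := deg3_out hG hlr h1 h.s1 h3
      rw [hst, mem_insert, mem_insert, mem_singleton] at h2
      rcases h2 with h2 | h2 | h2
      · exact hne h2.symm
      · rw [← h2] at h9
        exact h12 (S.other h9 h.s2)
      · rw [← h2] at h10
        exact h11 (S.other h10 (S.symm h.s2))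
  rcases hout ht h.s1 with hd | hd
  · -- degree two
    exfalso
    obtain ⟨b, hst, heb, hsb⟩ := deg2_out hG hlr ht h.s1 hd
    have hbt : b ∈ G.star t := by rw [hst]; exact mem_insert_of_mem (mem_singleton_self _)
    have hb2 : b ≠ e2 := by
      rintro rfl
      exact hcom t ht hbt hd
    obtain ⟨t1, hE1⟩ := exists_E ht
    obtain ⟨t2, hE2⟩ := exists_E hbt
    have hf1 : f t ≠ f t1 := hfE1 hE1
    have hf2 : f t = f t2 := hfE hE2 heb.symm hb2
    have ht12 : t1 ≠ t2 := by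
      rintro rfl
      exact hf1 hf2
    -- `t1` is cubic
    have hc1 : (G.star t1).card = 3 := by
      rcases hout hE1.right h.s1 with h6 | h6
      · exfalso
        obtain ⟨b', hst', heb', -⟩ := deg2_out hG hlr hE1.right h.s1 h6
        have hbt' : b' ∈ G.star t1 := by rw [hst']; exact mem_insert_of_mem (mem_singleton_self _)
        have hb2' : b' ≠ e2 := by
          rintro rfl
          exact hcom t1 hE1.right hbt' h6
        obtain ⟨t3, hE3⟩ := exists_E hbt'
        have hf3 : f t1 = f t3 := hfE hE3 heb'.symm hb2'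
        refine hsm hE2.symm hE1 hE3 (by rw [hst, pair_comm]) hst' ?_ ?_
        · rintro rfl
          rcases hE3.ends hbt with h7 | h7
          · exact (hE1.ne hG) h7
          · rw [← h7] at hf3; exact hf1 hf3.symm
        · rintro rfl
          exact hf1 (hf2.trans hf3.symm)
      · exact h6
    -- `t2` is cubic
    have hc2 : (G.star t2).card = 3 := by
      rcases hout hE2.right hsb with h6 | h6
      · exfalso
        obtain ⟨b', hst', heb', -⟩ := deg2_out hG hlr hE2.right hsb h6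
        have hbt' : b' ∈ G.star t2 := by rw [hst']; exact mem_insert_of_mem (mem_singleton_self _)
        obtain ⟨t3, hE3⟩ := exists_E hbt'
        have hb1' : b' ≠ e1 := by
          rintro rfl
          rcases hE1.ends hbt' with h7 | h7
          · exact (hE2.ne hG) h7.symm
          · exact ht12 h7.symm
        refine hsm hE1.symm hE2 hE3 hst hst' hb1'.symm ?_
        rintro rfl
        by_cases hb2' : b' = e2
        · rw [hb2'] at hE3
          exact hnot hE1.right hE3.right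
        · exact hf1 (hf2.trans (hfE hE3 hb1' hb2'))
      · exact h6
    obtain ⟨d1, g1, H1, hst1, -, -, -, hS1, -, hH1o, hH1z⟩ := deg3_out hG hlr hE1.right h.s1 hc1
    obtain ⟨d2, g2, H2, hst2, -, -, -, hS2, -, hH2o, hH2z⟩ := deg3_out hG hlr hE2.right hsb hc2
    have hH := h5 hst hE1 hE2 ht12 hst1 hst2 h.s1 hsb hS1 hS2 hoz.symm hH1o hH2o hH1z.symm
      hH2z.symm
    have m1 : d1 ∈ G.star t1 := by rw [hst1]; simp
    have m2 : d2 ∈ G.star t2 := by rw [hst2]; simp
    have h6 := h.face hG (i := H1) hH1o hH1z (star_sub m1)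
      (hS1.elim (fun h => Or.inr h.2) (fun h => Or.inl h.1)) (star_sub m2)
      (by rw [hH]; exact hS2.elim (fun h => Or.inr h.2) (fun h => Or.inl h.1))
    have h7 : f (G.p d1) = f t1 := by
      rcases (mem_star.1 m1).2 with h8 | h8
      · rw [h8]
      · rw [h6.1, h8]
    have h9 : f (G.p d2) = f t2 := by
      rcases (mem_star.1 m2).2 with h8 | h8
      · rw [h8]
      · rw [h6.2.1, h8]
    exact hf1 (hf2.trans (h9.symm.trans (h6.2.2.symm.trans h7)))
  · obtain ⟨b, g, H, hst, h6, h7, h8, h9, h10, h11, h12⟩ := deg3_out hG hlr ht h.s1 hd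
    refine ⟨b, by rw [hst]; simp, h6.symm, ?_, H, h9, h11, h12⟩
    rintro rfl
    exact h12 (S.other h9 h.s2)

end Gr

end Pool.Agent.Lib.MP06c549.T6H
end

section
/-!
# MP_06c549_co, T6H: section (6), two outer edges on one bounded face
-/
set_option autoImplicit false

namespace Pool.Agent.Lib.MP06c549.T6H

open Finset

namespace Gr

variable {G : Gr} {m : ℕ}

lemma zmod2_ne_succ (c : ZMod 2) : c ≠ c + 1 := by
  revert c
  decide

lemma zmod2_eq_succ (a c : ZMod 2) (h : a ≠ c) : a = c + 1 := by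
  revert a c
  decide

lemma sdiff_side {f : ℕ → ZMod 2} {c : ZMod 2} : G.vs \ G.side f c = G.side f (c + 1) := by
  ext v
  rw [mem_sdiff, mem_side, mem_side]
  constructor
  · rintro ⟨h1, h2⟩
    refine ⟨h1, ?_⟩
    exact zmod2_eq_succ _ _ fun h => h2 ⟨h1, h⟩
  · rintro ⟨h1, h2⟩
    refine ⟨h1, fun h3 => ?_⟩
    exact zmod2_ne_succ c (h3.2.symm.trans h2)

section

variable {o z e1 e2 : ℕ} {f : ℕ → ZMod 2}

lemma Cut2.term (h : G.Cut2 o z e1 e2 f) (hG : G.Good) {c : ZMod 2} {t : ℕ}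
    (ht : t ∈ G.side f c) (hT : G.Term o z e1 e2 t) :
    (G.del (G.vs \ G.side f c) o).Touch t o ∧
      ∃ F ≠ o, F ∈ (G.del (G.vs \ G.side f c) o).tf {t} := by
  obtain ⟨b, hbt, hb1, hb2, F, hS, hFo, hFz⟩ := hT
  have hbds : b ∈ G.ds := star_sub hbt
  have hbf := h.other b hbds hb1 hb2
  have hft : f t = c := (mem_side.1 ht).2
  have hpc : f (G.p b) = c := by
    rcases (mem_star.1 hbt).2 with h1 | h1
    · rw [h1, hft]
    · rw [hbf, h1, hft]
  have hqc : f (G.q b) = c := hbf ▸ hpc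
  have hbW : b ∉ G.tds (G.vs \ G.side f c) := by
    intro h1
    rcases (mem_tds.1 h1).2 with h2 | h2
    · exact (mem_sdiff.1 h2).2 (mem_side.2 ⟨(hG.ends b hbds).1, hpc⟩)
    · exact (mem_sdiff.1 h2).2 (mem_side.2 ⟨(hG.ends b hbds).2, hqc⟩)
  have hstar : b ∈ (G.del (G.vs \ G.side f c) o).star t := by
    rw [star_del]
    exact mem_sdiff.2 ⟨hbt, hbW⟩
  have hFW : F ∉ G.tf (G.vs \ G.side f c) := by
    intro h1
    rw [sdiff_side] at h1
    have h2 := (h.l_tf hG hFo hFz h1 hbds (by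
      rcases hS with h3 | h3
      · exact Or.inr h3.2
      · exact Or.inl h3.1)).1
    exact zmod2_ne_succ c (hpc.symm.trans h2)
  constructor
  · refine ⟨b, hstar, ?_⟩
    rcases hS with h1 | h1
    · left
      show G.phi _ o (G.l b) = o
      rw [h1.1, phi_u]
    · right
      show G.phi _ o (G.r b) = o
      rw [h1.2, phi_u]
  · refine ⟨F, hFo, mem_tf.2 ⟨b, mem_tds.2 ⟨(mem_star.1 hstar).1, ?_⟩, ?_⟩⟩
    · rcases (mem_star.1 hbt).2 with h1 | h1
      · exact Or.inl (mem_singleton.2 h1)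
      · exact Or.inr (mem_singleton.2 h1)
    · rcases hS with h1 | h1
      · right
        show G.phi _ o (G.r b) = F
        rw [h1.2, phi_of_not hFW]
      · left
        show G.phi _ o (G.l b) = F
        rw [h1.1, phi_of_not hFW]

/-- the end of `e1` on the side `c` -/
lemma Cut2.exists_end (h : G.Cut2 o z e1 e2 f) (hG : G.Good) (c : ZMod 2) :
    ∃ t ∈ G.side f c, e1 ∈ G.star t := by
  by_cases h1 : f (G.p e1) = c
  · exact ⟨G.p e1, mem_side.2 ⟨(hG.ends _ h.m1).1, h1⟩, mem_star.2 ⟨h.m1, Or.inl rfl⟩⟩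
  · refine ⟨G.q e1, mem_side.2 ⟨(hG.ends _ h.m1).2, ?_⟩, mem_star.2 ⟨h.m1, Or.inr rfl⟩⟩
    by_contra h2
    exact h.c1 (zmod2_eq_of_ne h1 h2)

end

/-- Section (6): two edges with the sides `o`, `z`, all ends of which have another edge with the
side `o`, on a third face, do not exist in a minimal counterexample. -/
theorem six_core {o z e1 e2 : ℕ} (hG : Cx 9 3 6 17 m o G) (m1 : e1 ∈ G.ds) (m2 : e2 ∈ G.ds)
    (s1 : G.Sd e1 o z) (s2 : G.Sd e2 o z) (hne : e1 ≠ e2) (hzo : z ≠ o)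
    (hT1 : ∀ t, e1 ∈ G.star t → G.Term o z e1 e2 t)
    (hT2 : ∀ t, e2 ∈ G.star t → G.Term o z e1 e2 t) : False := by
  have hgood := hG.cls.good
  obtain ⟨f, hf⟩ := exists_cut2 hgood m1 m2 s1 s2 hne hG.cls.bc
  have hou := hG.cls.hu
  have hofs : o ∈ G.fs := hgood.us_sub hou
  -- the terminals
  obtain ⟨p, hp, hpe⟩ := hf.exists_end hgood 0
  obtain ⟨q, hq, hqe⟩ := hf.exists_end hgood 1
  obtain ⟨p', hp', hpe'⟩ := hf.symm.exists_end hgood 0
  obtain ⟨q', hq', hqe'⟩ := hf.symm.exists_end hgood 1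
  have hcl : ∀ c, (G.del (G.vs \ G.side f c) o).Cls o m := by
    intro c
    refine hG.cls.del ?_
    rw [sdiff_side]
    exact hf.FC_side hgood hofs _
  have hFC : ∀ c, G.FC (G.vs \ G.side f c) o := by
    intro c
    rw [sdiff_side]
    exact hf.FC_side hgood hofs _
  have hvs : ∀ c, (G.del (G.vs \ G.side f c) o).vs = G.side f c := by
    intro c
    simp only [del, sdiff_sdiff_right_self]
    exact inter_eq_right.2 side_sub
  have hlt : ∀ c, (G.side f c).card < G.vs.card := by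
    intro c
    refine card_lt_card ⟨side_sub, fun h => ?_⟩
    obtain ⟨t, ht, -⟩ := hf.exists_end hgood (c + 1)
    have h1 := (mem_side.1 (h (side_sub ht))).2
    have h2 := (mem_side.1 ht).2
    exact zmod2_ne_succ c (h1.symm.trans h2)
  have hih : ∀ c, 17 * (G.del (G.vs \ G.side f c) o).tau ≤
      (G.del (G.vs \ G.side f c) o).pot 9 3 6 := by
    intro c
    exact hG.ih o _ (hcl c) (by rw [hvs]; exact hlt c)
  -- forced terminals
  have hforce : ∀ c, ∀ t ∈ G.side f c, G.Term o z e1 e2 t → ∀ t' ∈ G.side f c,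
      G.Term o z e1 e2 t' →
      17 * (G.del (G.vs \ G.side f c) o).cost {t, t'} + 3 ≤
        (G.del (G.vs \ G.side f c) o).pot 9 3 6 + 8 * ({t, t'} : Finset ℕ).card := by
    intro c t ht hTt t' ht' hTt'
    obtain ⟨h1, F, hFo, hF⟩ := hf.term hgood ht hTt
    obtain ⟨h2, -⟩ := hf.term hgood ht' hTt'
    have hFC1 := FC_single (hcl c).good (by rw [hvs]; exact ht) (Or.inr h1)
    have hFC2 := FC_single (hcl c).good (by rw [hvs]; exact ht') (Or.inr h2)
    have hFC3 : (G.del (G.vs \ G.side f c) o).FC {t, t'} o := FC_cup hFC1 hFC2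
    have h3 := cost_T (a := 9) (b := 3) (c := 6) (N := 17) (B := {F}) (T := {t, t'}) (by norm_num)
      (by norm_num)
      (hG.ih.mono (hlt c).le) (hcl c) (by rw [hvs]) (by
        rw [hvs]
        intro v hv
        rcases mem_insert.1 hv with rfl | hv
        · exact ht
        · rw [mem_singleton.1 hv]; exact ht') ⟨t, mem_insert_self _ _⟩ hFC3 (by
        intro i hi
        rw [mem_singleton.1 hi]
        refine mem_erase.2 ⟨hFo, ?_⟩
        obtain ⟨d, hd, hdF⟩ := mem_tf.1 hF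
        refine mem_tf.2 ⟨d, ?_, hdF⟩
        rw [mem_tds, mem_singleton, mem_singleton] at hd
        rw [mem_tds]
        refine ⟨hd.1, hd.2.imp (fun h => ?_) (fun h => ?_)⟩
        · rw [h]; exact mem_insert_self _ _
        · rw [h]; exact mem_insert_self _ _)
    rw [card_singleton] at h3
    omega
  -- the two parts
  have hdis : Disjoint (G.side f 0) (G.side f 1) := by
    rw [disjoint_left]
    intro v h1 h2
    have h3 : (0 : ZMod 2) = 1 := (mem_side.1 h1).2.symm.trans (mem_side.1 h2).2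
    revert h3
    decide
  have hzB : ∀ c, ({z} : Finset ℕ) ⊆ (G.tf (G.vs \ G.side f c)).erase o := by
    intro c i hi
    rw [mem_singleton.1 hi, sdiff_side]
    refine mem_erase.2 ⟨hzo, ?_⟩
    refine mem_tf.2 ⟨e1, hf.e1_tds hgood _, ?_⟩
    rcases s1 with h1 | h1
    · exact Or.inr h1.2
    · exact Or.inl h1.1
  have hmove : ∀ T1 ⊆ G.side f 0, ∀ T2 ⊆ G.side f 1,
      (G.p e1 ∈ T1 ∪ T2 ∨ G.q e1 ∈ T1 ∪ T2) → (G.p e2 ∈ T1 ∪ T2 ∨ G.q e2 ∈ T1 ∪ T2) →
      (G.del (G.vs \ G.side f 0) o).pot 9 3 6 + (G.del (G.vs \ G.side f 1) o).pot 9 3 6 + 3 <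
        17 * ((G.del (G.vs \ G.side f 0) o).cost T1 + (G.del (G.vs \ G.side f 1) o).cost T2) := by
    intro T1 h1 T2 h2 h3 h4
    have h5 := hG.move_two_le (by norm_num) (by norm_num) (V₁ := G.side f 0) (V₂ := G.side f 1) (T₁ := T1)
      (T₂ := T2) (X₀ := ∅) (Y₀ := ∅) (B := {z}) side_sub side_sub hdis (hFC 0) (hFC 1) h1 h2
      (empty_subset _) (empty_subset _) (hzB 0) (hzB 1) (by
        intro d hd
        rw [empty_union]
        obtain ⟨hd, hn1, hn2⟩ := mem_rest.1 hd
        by_cases hd1 : d = e1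
        · rw [hd1]
          rcases h3 with h | h
          · exact Or.inl h
          · exact Or.inr (Or.inl h)
        by_cases hd2 : d = e2
        · rw [hd2]
          rcases h4 with h | h
          · exact Or.inl h
          · exact Or.inr (Or.inl h)
        exfalso
        have h6 := hf.other d hd hd1 hd2
        rcases zmod2 (f (G.p d)) with h7 | h7
        · exact hn1 ⟨mem_side.2 ⟨(hgood.ends d hd).1, h7⟩,
            mem_side.2 ⟨(hgood.ends d hd).2, h6 ▸ h7⟩⟩
        · exact hn2 ⟨mem_side.2 ⟨(hgood.ends d hd).1, h7⟩,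
            mem_side.2 ⟨(hgood.ends d hd).2, h6 ▸ h7⟩⟩)
    rw [card_empty, card_singleton] at h5
    have hf0 : G.fpr ∅ = 0 := by simp [fpr]
    omega
  have hend : ∀ {e t : ℕ} {T : Finset ℕ}, e ∈ G.star t → t ∈ T → (G.p e ∈ T ∨ G.q e ∈ T) := by
    intro e t T h1 h2
    rcases (mem_star.1 h1).2 with h | h
    · exact Or.inl (h ▸ h2)
    · exact Or.inr (h ▸ h2)
  have hcard : ∀ a b : ℕ, ({a, b} : Finset ℕ).card ≤ 2 := fun a b => card_le_two
  -- both terminals on one side
  have k1 := hmove {p, p'} (by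
    intro v hv
    rcases mem_insert.1 hv with rfl | hv
    · exact hp
    · rw [mem_singleton.1 hv]; exact hp') ∅ (empty_subset _)
    (hend hpe (mem_union_left _ (mem_insert_self _ _)))
    (hend hpe' (mem_union_left _ (mem_insert_of_mem (mem_singleton_self _))))
  have k2 := hmove ∅ (empty_subset _) {q, q'} (by
    intro v hv
    rcases mem_insert.1 hv with rfl | hv
    · exact hq
    · rw [mem_singleton.1 hv]; exact hq')
    (hend hqe (mem_union_right _ (mem_insert_self _ _)))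
    (hend hqe' (mem_union_right _ (mem_insert_of_mem (mem_singleton_self _))))
  have k3 := hmove {p} (singleton_subset_iff.2 hp) {q'} (singleton_subset_iff.2 hq')
    (hend hpe (mem_union_left _ (mem_singleton_self _)))
    (hend hqe' (mem_union_right _ (mem_singleton_self _)))
  have f1 := hforce 0 p hp (hT1 p hpe) p' hp' (hT2 p' hpe')
  have f2 := hforce 1 q hq (hT1 q hqe) q' hq' (hT2 q' hqe')
  have f3 := hforce 0 p hp (hT1 p hpe) p hp (hT1 p hpe)
  have f4 := hforce 1 q' hq' (hT2 q' hqe') q' hq' (hT2 q' hqe')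
  rw [insert_eq_of_mem (mem_singleton_self _), card_singleton] at f3 f4
  have g1 := hih 0
  have g2 := hih 1
  have c1 := hcard p p'
  have c2 := hcard q q'
  simp only [tau] at g1 g2
  omega

/-- Section (6) of the proof: in a minimal counterexample two edges with the sides `o`, `z` meet
in a vertex of degree two. -/
theorem step6_of {o z e1 e2 : ℕ} (hG : Cx 9 3 6 17 m o G) (hlr : ∀ d ∈ G.ds, G.l d ≠ G.r d)
    (h23 : ∀ v ∈ G.vs, (∃ d ∈ G.star v, G.l d = o ∨ G.r d = o) →
      (G.star v).card = 2 ∨ (G.star v).card = 3)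
    (hsm : ∀ {s t u v d0 d1 d2 : ℕ}, G.E d1 u s → G.E d0 s t → G.E d2 t v → G.star s = {d1, d0} →
      G.star t = {d0, d2} → d1 ≠ d2 → u ≠ v → False)
    (h5 : ∀ {y x x' e e' d1 g d1' g' F H H' : ℕ}, G.star y = {e, e'} → G.E e y x →
      G.E e' y x' → x ≠ x' → G.star x = {e, d1, g} → G.star x' = {e', d1', g'} →
      G.S e o F → G.S e' o F → G.S d1 o H → G.S d1' o H' → F ≠ o → H ≠ o → H' ≠ o → F ≠ H →
      F ≠ H' → H = H')
    (m1 : e1 ∈ G.ds) (m2 : e2 ∈ G.ds) (s1 : G.S e1 o z) (s2 : G.S e2 o z) (hne : e1 ≠ e2)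
    (hcom : ∀ v, e1 ∈ G.star v → e2 ∈ G.star v → (G.star v).card ≠ 2) : False := by
  have hgood := hG.cls.good
  obtain ⟨f, hf⟩ := exists_cut2 hgood m1 m2 s1 s2 hne hG.cls.bc
  have hzo : z ≠ o := by
    have h1 := hlr e1 m1
    rcases s1 with ⟨h2, h3⟩ | ⟨h2, h3⟩
    · rw [h2, h3] at h1; exact h1.symm
    · rw [h2, h3] at h1; exact h1
  exact six_core hG m1 m2 s1 s2 hne hzo
    (fun t ht => term_of_end hgood hlr hf hne h23 hsm h5 hcom ht)
    (fun t ht => (term_of_end hgood hlr hf.symm hne.symm h23 hsm h5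
      (fun v h1 h2 => hcom v h2 h1) ht).symm)

/-- Step 6 -/
theorem spec_step6 (m : ℕ) : SpecStep6 m := by
  intro o G hG hP hP2 e1 m1 e2 m2 z _ hne s1 s2 hcom
  have hgood := hG.cls.good
  have hst2 : ∀ {s a b : ℕ}, G.star s = {a, b} → s ∈ G.vs → a ≠ b := by
    rintro s a b h hs rfl
    have h1 := hP.deg s hs
    rw [h, insert_eq_of_mem (mem_singleton_self _), card_singleton] at h1
    omega
  refine step6_of hG hP.lr (fun v hv ht => ?_) ?_ (fun hy he he' => step5 hG hy he he') m1 m2 s1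
    s2 hne (fun v h1 h2 h3 => hcom v ?_ h3 h1 h2)
  · have h1 := hP.deg v hv
    have h2 := hP2.odeg v hv ht
    omega
  · intro s t u v d0 d1 d2 h1 h0 h2 ss st n12 uv
    exact hG.smooth_false h1 h0 h2 ss st n12 uv
      (hst2 ss (h0.memv hgood)).symm (hst2 st (h0.symm.memv hgood))
  · rcases (mem_star.1 h1).2 with h | h
    · rw [← h]; exact (hgood.ends e1 m1).1
    · rw [← h]; exact (hgood.ends e1 m1).2

end Gr

end Pool.Agent.Lib.MP06c549.T6H
end
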