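import Pool.Agent.Lib.MP_06c549_co.T6H.Step56
import Pool.Agent.Lib.MP_06c549_co.T6H.Step6
import Pool.Agent.Lib.MP_06c549_co.T6H.Step4
import Pool.Agent.Lib.MP_06c549_co.T6H.Ex3

section
/-!
# MP_06c549_co, T6H: steps 5, 6 and 6' for the weights 7, 2, 4, 13
-/
set_option autoImplicit false

namespace Pool.Agent.Lib.MP06c549.T6H

open Finset

namespace Gr

variable {G : Gr} {m o : ℕ}

/-- the outer vertices `x - y - x'` with `y` of degree two and `x`, `x'` cubic: the third faces at
`x` and `x'` coincide -/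
theorem step5_13 (hG : Cx 7 2 4 13 m o G) {y x x' e e' d1 g d1' g' F H H' : ℕ}
    (hy : G.star y = {e, e'}) (he : G.E e y x) (he' : G.E e' y x') (hxx : x ≠ x')
    (hx : G.star x = {e, d1, g}) (hx' : G.star x' = {e', d1', g'})
    (se : G.S e o F) (se' : G.S e' o F) (s1 : G.S d1 o H) (s1' : G.S d1' o H')
    (hF : F ≠ o) (hH : H ≠ o) (hH' : H' ≠ o) (hFH : F ≠ H) (hFH' : F ≠ H') : H = H' := by
  by_contra hne
  have hgood := hG.cls.good
  have hyv : y ∈ G.vs := he.memv hgood
  have hxv : x ∈ G.vs := he.symm.memv hgood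
  have hxv' : x' ∈ G.vs := he'.symm.memv hgood
  have hyx : y ≠ x := he.ne hgood
  have hyx' : y ≠ x' := he'.ne hgood
  have m1 : d1 ∈ G.star x := by rw [hx]; simp
  have m1' : d1' ∈ G.star x' := by rw [hx']; simp
  have out : ∀ {v d i : ℕ}, d ∈ G.star v → G.S d o i → G.Out o v := by
    intro v d i h1 h2
    rcases h2 with h2 | h2
    · exact ⟨d, h1, Or.inl h2.1⟩
    · exact ⟨d, h1, Or.inr h2.2⟩
  have hFC : G.FC {x, y, x'} o :=
    ((FC_singleton hgood hxv' (out m1' s1')).insert_out hgood hyv (out he.left se)).insert_out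
      hgood hxv (out m1 s1)
  have touch : ∀ {v d i : ℕ}, v ∈ ({x, y, x'} : Finset ℕ) → d ∈ G.star v → G.S d o i →
      i ∈ G.tf {x, y, x'} := by
    intro v d i hv h1 h2
    rcases h2 with h2 | h2
    · rw [← h2.2]; exact r_mem_tf (star_sub_tds hv h1)
    · rw [← h2.1]; exact l_mem_tf (star_sub_tds hv h1)
  have h := hG.move (by norm_num) (by norm_num) (W := {x, y, x'}) (X₀ := {x, x'}) (Y₀ := ∅) (B := {F, H, H'})
    (by
      intro v hv
      simp only [mem_insert, mem_singleton] at hv
      rcases hv with rfl | rfl | rfl <;> assumption)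
    ⟨x, by simp⟩ hFC
    (by
      intro v hv
      simp only [mem_insert, mem_singleton] at hv
      rcases hv with rfl | rfl <;> assumption)
    (empty_subset _)
    (by
      intro i hi
      simp only [mem_insert, mem_singleton] at hi
      rw [mem_erase]
      rcases hi with rfl | rfl | rfl
      · exact ⟨hF, touch (v := y) (by simp) he.left se⟩
      · exact ⟨hH, touch (v := x) (by simp) m1 s1⟩
      · exact ⟨hH', touch (v := x') (by simp) m1' s1'⟩)
    (by
      intro d hd
      have key : ∀ {v : ℕ}, v ∈ ({x, x'} : Finset ℕ) → d ∈ G.star v →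
          G.p d ∈ ({x, x'} : Finset ℕ) ∨ G.q d ∈ ({x, x'} : Finset ℕ) := by
        intro v hv h1
        rcases (mem_star.1 h1).2 with h2 | h2
        · left; rw [h2]; exact hv
        · right; rw [h2]; exact hv
      have h1 : d ∈ G.star x ∨ d ∈ G.star y ∨ d ∈ G.star x' := by
        rw [tds_insert, tds_insert, mem_union, mem_union] at hd
        rcases hd with h | h | h
        · exact Or.inl h
        · exact Or.inr (Or.inl h)
        · refine Or.inr (Or.inr ?_)
          rw [mem_tds] at h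
          rw [mem_star]
          simpa using h
      rcases h1 with h1 | h1 | h1
      · rcases key (v := x) (by simp) h1 with h | h
        · exact Or.inl h
        · exact Or.inr (Or.inl h)
      · rw [hy, mem_insert, mem_singleton] at h1
        rcases h1 with rfl | rfl
        · rcases key (v := x) (by simp) he.right with h | h
          · exact Or.inl h
          · exact Or.inr (Or.inl h)
        · rcases key (v := x') (by simp) he'.right with h | h
          · exact Or.inl h
          · exact Or.inr (Or.inl h)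
      · rcases key (v := x') (by simp) h1 with h | h
        · exact Or.inl h
        · exact Or.inr (Or.inl h))
  have hf : G.fpr ∅ = 0 := by simp [fpr]
  rw [card_insert_of_notMem (by simp [hyx.symm, hxx]), card_pair hyx',
    card_insert_of_notMem (by simp [hFH, hFH']), card_pair hne, card_pair hxx, hf] at h
  omega

/-- Section (6): two edges with the sides `o`, `z`, all ends of which have another edge with the
side `o`, on a third face, do not exist in a minimal counterexample. -/
theorem six_core_13 {o z e1 e2 : ℕ} (hG : Cx 7 2 4 13 m o G) (m1 : e1 ∈ G.ds) (m2 : e2 ∈ G.ds)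
    (s1 : G.Sd e1 o z) (s2 : G.Sd e2 o z) (hne : e1 ≠ e2) (hzo : z ≠ o)
    (hT1 : ∀ t, e1 ∈ G.star t → G.Term o z e1 e2 t)
    (hT2 : ∀ t, e2 ∈ G.star t → G.Term o z e1 e2 t) : False := by
  have hgood := hG.cls.good
  obtain ⟨f, hf⟩ := exists_cut2 hgood m1 m2 s1 s2 hne hG.cls.bc
  have hou := hG.cls.hu
  have hofs : o ∈ G.fs := hgood.us_sub hou
  -- the terminals
  obtain ⟨p, hp, hpe⟩ := hf.exists_end hgood 0
  obtain ⟨q, hq, hqe⟩ := hf.exists_end hgood 1
  obtain ⟨p', hp', hpe'⟩ := hf.symm.exists_end hgood 0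
  obtain ⟨q', hq', hqe'⟩ := hf.symm.exists_end hgood 1
  have hcl : ∀ c, (G.del (G.vs \ G.side f c) o).Cls o m := by
    intro c
    refine hG.cls.del ?_
    rw [sdiff_side]
    exact hf.FC_side hgood hofs _
  have hFC : ∀ c, G.FC (G.vs \ G.side f c) o := by
    intro c
    rw [sdiff_side]
    exact hf.FC_side hgood hofs _
  have hvs : ∀ c, (G.del (G.vs \ G.side f c) o).vs = G.side f c := by
    intro c
    simp only [del, sdiff_sdiff_right_self]
    exact inter_eq_right.2 side_sub
  have hlt : ∀ c, (G.side f c).card < G.vs.card := by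
    intro c
    refine card_lt_card ⟨side_sub, fun h => ?_⟩
    obtain ⟨t, ht, -⟩ := hf.exists_end hgood (c + 1)
    have h1 := (mem_side.1 (h (side_sub ht))).2
    have h2 := (mem_side.1 ht).2
    exact zmod2_ne_succ c (h1.symm.trans h2)
  have hih : ∀ c, 13 * (G.del (G.vs \ G.side f c) o).tau ≤
      (G.del (G.vs \ G.side f c) o).pot 7 2 4 := by
    intro c
    exact hG.ih o _ (hcl c) (by rw [hvs]; exact hlt c)
  -- forced terminals
  have hforce : ∀ c, ∀ t ∈ G.side f c, G.Term o z e1 e2 t → ∀ t' ∈ G.side f c,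
      G.Term o z e1 e2 t' →
      13 * (G.del (G.vs \ G.side f c) o).cost {t, t'} + 2 ≤
        (G.del (G.vs \ G.side f c) o).pot 7 2 4 + 6 * ({t, t'} : Finset ℕ).card := by
    intro c t ht hTt t' ht' hTt'
    obtain ⟨h1, F, hFo, hF⟩ := hf.term hgood ht hTt
    obtain ⟨h2, -⟩ := hf.term hgood ht' hTt'
    have hFC1 := FC_single (hcl c).good (by rw [hvs]; exact ht) (Or.inr h1)
    have hFC2 := FC_single (hcl c).good (by rw [hvs]; exact ht') (Or.inr h2)
    have hFC3 : (G.del (G.vs \ G.side f c) o).FC {t, t'} o := FC_cup hFC1 hFC2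
    have h3 := cost_T (a := 7) (b := 2) (c := 4) (N := 13) (B := {F}) (T := {t, t'}) (by norm_num)
      (by norm_num)
      (hG.ih.mono (hlt c).le) (hcl c) (by rw [hvs]) (by
        rw [hvs]
        intro v hv
        rcases mem_insert.1 hv with rfl | hv
        · exact ht
        · rw [mem_singleton.1 hv]; exact ht') ⟨t, mem_insert_self _ _⟩ hFC3 (by
        intro i hi
        rw [mem_singleton.1 hi]
        refine mem_erase.2 ⟨hFo, ?_⟩
        obtain ⟨d, hd, hdF⟩ := mem_tf.1 hF
        refine mem_tf.2 ⟨d, ?_, hdF⟩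
        rw [mem_tds, mem_singleton, mem_singleton] at hd
        rw [mem_tds]
        refine ⟨hd.1, hd.2.imp (fun h => ?_) (fun h => ?_)⟩
        · rw [h]; exact mem_insert_self _ _
        · rw [h]; exact mem_insert_self _ _)
    rw [card_singleton] at h3
    omega
  -- the two parts
  have hdis : Disjoint (G.side f 0) (G.side f 1) := by
    rw [disjoint_left]
    intro v h1 h2
    have h3 : (0 : ZMod 2) = 1 := (mem_side.1 h1).2.symm.trans (mem_side.1 h2).2
    revert h3
    decide
  have hzB : ∀ c, ({z} : Finset ℕ) ⊆ (G.tf (G.vs \ G.side f c)).erase o := by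
    intro c i hi
    rw [mem_singleton.1 hi, sdiff_side]
    refine mem_erase.2 ⟨hzo, ?_⟩
    refine mem_tf.2 ⟨e1, hf.e1_tds hgood _, ?_⟩
    rcases s1 with h1 | h1
    · exact Or.inr h1.2
    · exact Or.inl h1.1
  have hmove : ∀ T1 ⊆ G.side f 0, ∀ T2 ⊆ G.side f 1,
      (G.p e1 ∈ T1 ∪ T2 ∨ G.q e1 ∈ T1 ∪ T2) → (G.p e2 ∈ T1 ∪ T2 ∨ G.q e2 ∈ T1 ∪ T2) →
      (G.del (G.vs \ G.side f 0) o).pot 7 2 4 + (G.del (G.vs \ G.side f 1) o).pot 7 2 4 + 2 <
        13 * ((G.del (G.vs \ G.side f 0) o).cost T1 + (G.del (G.vs \ G.side f 1) o).cost T2) := by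
    intro T1 h1 T2 h2 h3 h4
    have h5 := hG.move_two_le (by norm_num) (by norm_num) (V₁ := G.side f 0) (V₂ := G.side f 1) (T₁ := T1)
      (T₂ := T2) (X₀ := ∅) (Y₀ := ∅) (B := {z}) side_sub side_sub hdis (hFC 0) (hFC 1) h1 h2
      (empty_subset _) (empty_subset _) (hzB 0) (hzB 1) (by
        intro d hd
        rw [empty_union]
        obtain ⟨hd, hn1, hn2⟩ := mem_rest.1 hd
        by_cases hd1 : d = e1
        · rw [hd1]
          rcases h3 with h | h
          · exact Or.inl h
          · exact Or.inr (Or.inl h)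
        by_cases hd2 : d = e2
        · rw [hd2]
          rcases h4 with h | h
          · exact Or.inl h
          · exact Or.inr (Or.inl h)
        exfalso
        have h6 := hf.other d hd hd1 hd2
        rcases zmod2 (f (G.p d)) with h7 | h7
        · exact hn1 ⟨mem_side.2 ⟨(hgood.ends d hd).1, h7⟩,
            mem_side.2 ⟨(hgood.ends d hd).2, h6 ▸ h7⟩⟩
        · exact hn2 ⟨mem_side.2 ⟨(hgood.ends d hd).1, h7⟩,
            mem_side.2 ⟨(hgood.ends d hd).2, h6 ▸ h7⟩⟩)
    rw [card_empty, card_singleton] at h5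
    have hf0 : G.fpr ∅ = 0 := by simp [fpr]
    omega
  have hend : ∀ {e t : ℕ} {T : Finset ℕ}, e ∈ G.star t → t ∈ T → (G.p e ∈ T ∨ G.q e ∈ T) := by
    intro e t T h1 h2
    rcases (mem_star.1 h1).2 with h | h
    · exact Or.inl (h ▸ h2)
    · exact Or.inr (h ▸ h2)
  have hcard : ∀ a b : ℕ, ({a, b} : Finset ℕ).card ≤ 2 := fun a b => card_le_two
  -- both terminals on one side
  have k1 := hmove {p, p'} (by
    intro v hv
    rcases mem_insert.1 hv with rfl | hv
    · exact hp
    · rw [mem_singleton.1 hv]; exact hp') ∅ (empty_subset _)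
    (hend hpe (mem_union_left _ (mem_insert_self _ _)))
    (hend hpe' (mem_union_left _ (mem_insert_of_mem (mem_singleton_self _))))
  have k2 := hmove ∅ (empty_subset _) {q, q'} (by
    intro v hv
    rcases mem_insert.1 hv with rfl | hv
    · exact hq
    · rw [mem_singleton.1 hv]; exact hq')
    (hend hqe (mem_union_right _ (mem_insert_self _ _)))
    (hend hqe' (mem_union_right _ (mem_insert_of_mem (mem_singleton_self _))))
  have k3 := hmove {p} (singleton_subset_iff.2 hp) {q'} (singleton_subset_iff.2 hq')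
    (hend hpe (mem_union_left _ (mem_singleton_self _)))
    (hend hqe' (mem_union_right _ (mem_singleton_self _)))
  have f1 := hforce 0 p hp (hT1 p hpe) p' hp' (hT2 p' hpe')
  have f2 := hforce 1 q hq (hT1 q hqe) q' hq' (hT2 q' hqe')
  have f3 := hforce 0 p hp (hT1 p hpe) p hp (hT1 p hpe)
  have f4 := hforce 1 q' hq' (hT2 q' hqe') q' hq' (hT2 q' hqe')
  rw [insert_eq_of_mem (mem_singleton_self _), card_singleton] at f3 f4
  have g1 := hih 0
  have g2 := hih 1
  have c1 := hcard p p'
  have c2 := hcard q q'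
  simp only [tau] at g1 g2
  omega

/-- Section (6) of the proof: in a minimal counterexample two edges with the sides `o`, `z` meet
in a vertex of degree two. -/
theorem step6_of_13 {o z e1 e2 : ℕ} (hG : Cx 7 2 4 13 m o G) (hlr : ∀ d ∈ G.ds, G.l d ≠ G.r d)
    (h23 : ∀ v ∈ G.vs, (∃ d ∈ G.star v, G.l d = o ∨ G.r d = o) →
      (G.star v).card = 2 ∨ (G.star v).card = 3)
    (hsm : ∀ {s t u v d0 d1 d2 : ℕ}, G.E d1 u s → G.E d0 s t → G.E d2 t v → G.star s = {d1, d0} →
      G.star t = {d0, d2} → d1 ≠ d2 → u ≠ v → False)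
    (h5 : ∀ {y x x' e e' d1 g d1' g' F H H' : ℕ}, G.star y = {e, e'} → G.E e y x →
      G.E e' y x' → x ≠ x' → G.star x = {e, d1, g} → G.star x' = {e', d1', g'} →
      G.S e o F → G.S e' o F → G.S d1 o H → G.S d1' o H' → F ≠ o → H ≠ o → H' ≠ o → F ≠ H →
      F ≠ H' → H = H')
    (m1 : e1 ∈ G.ds) (m2 : e2 ∈ G.ds) (s1 : G.S e1 o z) (s2 : G.S e2 o z) (hne : e1 ≠ e2)
    (hcom : ∀ v, e1 ∈ G.star v → e2 ∈ G.star v → (G.star v).card ≠ 2) : False := by
  have hgood := hG.cls.good
  obtain ⟨f, hf⟩ := exists_cut2 hgood m1 m2 s1 s2 hne hG.cls.bc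
  have hzo : z ≠ o := by
    have h1 := hlr e1 m1
    rcases s1 with ⟨h2, h3⟩ | ⟨h2, h3⟩
    · rw [h2, h3] at h1; exact h1.symm
    · rw [h2, h3] at h1; exact h1
  exact six_core_13 hG m1 m2 s1 s2 hne hzo
    (fun t ht => term_of_end hgood hlr hf hne h23 hsm h5 hcom ht)
    (fun t ht => (term_of_end hgood hlr hf.symm hne.symm h23 hsm h5
      (fun v h1 h2 => hcom v h2 h1) ht).symm)

/-- Step 6 -/
theorem step6_13 (hG : Cx 7 2 4 13 m o G) (hP : G.P1) (hP2 : G.P2 o) {e1 e2 z : ℕ}
    (m1 : e1 ∈ G.ds) (m2 : e2 ∈ G.ds) (hne : e1 ≠ e2) (s1 : G.S e1 o z) (s2 : G.S e2 o z)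
    (hcom : ∀ v ∈ G.vs, (G.star v).card = 2 → e1 ∈ G.star v → e2 ∉ G.star v) : False := by
  have hgood := hG.cls.good
  have hst2 : ∀ {s a b : ℕ}, G.star s = {a, b} → s ∈ G.vs → a ≠ b := by
    rintro s a b h hs rfl
    have h1 := hP.deg s hs
    rw [h, insert_eq_of_mem (mem_singleton_self _), card_singleton] at h1
    omega
  refine step6_of_13 hG hP.lr (fun v hv ht => ?_) ?_ (fun hy he he' => step5_13 hG hy he he') m1 m2 s1
    s2 hne (fun v h1 h2 h3 => hcom v ?_ h3 h1 h2)
  · have h1 := hP.deg v hv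
    have h2 := hP2.odeg v hv ht
    omega
  · intro s t u v d0 d1 d2 h1 h0 h2 ss st n12 uv
    exact hG.smooth_false h1 h0 h2 ss st n12 uv
      (hst2 ss (h0.memv hgood)).symm (hst2 st (h0.symm.memv hgood))
  · rcases (mem_star.1 h1).2 with h | h
    · rw [← h]; exact (hgood.ends e1 m1).1
    · rw [← h]; exact (hgood.ends e1 m1).2

theorem step5_13' (hG : Cx 7 2 4 13 m o G) {x x' y e e' d d' g g' F H H' : ℕ}
    (hT : G.Two o y e e' F) (hC : G.Cub o x e g d F H) (hC' : G.Cub o x' e' g' d' F H')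
    (he : G.E e x y) (he' : G.E e' x' y) : H = H' := by
  have hxx : x ≠ x' := by
    rintro rfl
    rcases hC.oe hC'.me hT.se'.fst_side with h | h
    · exact hT.n h.symm
    · have h1 := hT.se'
      rw [h] at h1
      exact hC.f3 (h1.other hC.se')
  have hs : G.star x = {e, d, g} := by
    rw [hC.st]
    ext i
    simp only [mem_insert, mem_singleton]
    tauto
  have hs' : G.star x' = {e', d', g'} := by
    rw [hC'.st]
    ext i
    simp only [mem_insert, mem_singleton]
    tauto
  exact step5_13 hG hT.st he.symm he'.symm hxx hs hs' hT.se hT.se' hC.se' hC'.se' hT.f hC.f2 hC'.f2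
    hC.f3 hC'.f3

/-- all outer vertices are cubic, a face has at most one edge in common with `o`, no parallel
outer edges -/
theorem p3_13 (hG : Cx 7 2 4 13 m o G) (h1 : G.P1) (h2 : G.P2 o) : G.P3 o := by
  have hgood := hG.cls.good
  have hcub : ∀ v ∈ G.vs, G.Touch v o → (G.star v).card = 3 := by
    intro y hy hyo
    by_contra hne
    have hy2 : (G.star y).card = 2 := by
      have := h1.deg y hy
      have := h2.odeg y hy hyo
      omega
    obtain ⟨e, hey, heo⟩ := hyo
    obtain ⟨F, hF, hS⟩ := h1.other (star_sub hey) heo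
    obtain ⟨e', hT⟩ := two_at hgood hey hS hF hy2
    have nb : ∀ {d : ℕ}, d ∈ G.star y → G.S d o F → ∃ x g d1 H, G.E d x y ∧ x ∈ G.vs ∧
        G.Cub o x d g d1 F H := by
      intro d hd hdS
      obtain ⟨x, hx⟩ := exists_E hd
      have hxv : x ∈ G.vs := hx.symm.memv hgood
      have hxo : G.Touch x o := (hdS.touch hx.right).1
      have hx3 : (G.star x).card = 3 := by
        have e1 := h1.deg x hxv
        have e2 := h2.odeg x hxv hxo
        have e3 : (G.star x).card ≠ 2 := fun h => h2.na d y x hx hy2 h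
        omega
      obtain ⟨g, d1, H, hC⟩ := cub_at hgood h1 hx.right hdS hF hx3
      exact ⟨x, g, d1, H, hx.symm, hxv, hC⟩
    obtain ⟨x, g, d, H, hex, hxv, hC⟩ := nb hT.me hT.se
    obtain ⟨x', g', d', H', hex', hxv', hC'⟩ := nb hT.me' hT.se'
    have hHH := step5_13' hG hT hC hC' hex hex'
    rw [← hHH] at hC'
    have hxx : x ≠ x' := by
      rintro rfl
      rcases hC.oe hC'.me hT.se'.fst_side with h | h
      · exact hT.n h.symm
      · have h1 := hT.se'
        rw [h] at h1
        exact hC.f3 (h1.other hC.se')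
    by_cases hdd : d = d'
    · rw [← hdd] at hC'
      exact step4b par13 hG hC.symm hC'.symm hT
        (E_of_mem hC.me' hC'.me' hxx) hex hex'
    · refine step6_13 hG h1 h2 (star_sub hC.me') (star_sub hC'.me') hdd hC.se' hC'.se' ?_
      intro v hv hv2 hdv hdv'
      obtain ⟨d1, hT'⟩ := two_at hgood hdv hC.se' hC.f2 hv2
      have hd1 : d1 = d' := by
        rw [hT'.st, mem_insert, mem_singleton] at hdv'
        rcases hdv' with h | h
        · exact absurd h.symm hdd
        · exact h.symm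
      rw [hd1] at hT'
      have hvx : ∀ {u : ℕ}, (G.star u).card = 3 → u ≠ v := by
        rintro u hu rfl
        omega
      exact step4c par13 hG hC hC' hT hT' hex hex'
        (E_of_mem hC.me' hdv (hvx hC.card)) (E_of_mem hC'.me' hdv' (hvx hC'.card))
  refine ⟨hcub, ?_, ?_⟩
  · intro e he e' he' F hF hS hS'
    by_contra hne
    refine step6_13 hG h1 h2 he he' hne hS hS' ?_
    intro v hv hv2 hev
    have := hcub v hv (hS.touch hev).1
    omega
  · intro e e' x x' hne hE hE' heo heo'
    obtain ⟨F, hF, hS⟩ := h1.other hE.mem heo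
    have key : ∀ {u : ℕ}, e ∈ G.star u → e' ∈ G.star u → ∃ g F', G.Cub o u e g e' F F' := by
      intro u hu hu'
      have hto := hS.touch hu
      have huv : u ∈ G.vs := (touch_mem hgood hto.1).1
      obtain ⟨g, d, F', hC⟩ := cub_at hgood h1 hu hS hF (hcub u huv hto.1)
      rcases hC.oe hu' heo' with h | h
      · exact absurd h.symm hne
      · rw [← h] at hC
        exact ⟨g, F', hC⟩
    obtain ⟨g, F', hC⟩ := key hE.left hE'.left
    obtain ⟨g1, F1, hC'⟩ := key hE.right hE'.right
    have hFF : F1 = F' := hC'.se'.other hC.se'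
    rw [hFF] at hC'
    exact step4a par13 hG hC hC' hE hE'

end Gr

end Pool.Agent.Lib.MP06c549.T6H
end

section
/-!
# MP_06c549_co, T6H: the theorem from the steps, weights `7, 2, 4, 13`

The case of at least five outer vertices in the form with `Gr.Ring` (`SpecRing`).
-/
set_option autoImplicit false

namespace Pool.Agent.Lib.MP06c549.T6H

open Finset

namespace Gr

/-- at least five outer vertices -/
def SpecRing (a b c N m : ℕ) : Prop := ∀ (o : ℕ) (G : Gr), Cx a b c N m o G → G.P1 → G.P2 o →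
  G.P3 o → ∀ k x e g F z, G.Ring o k x e g F z → 5 ≤ k → False

variable {G : Gr} {o m a b c N : ℕ}

/-- the face `o` is a triangle -/
theorem exists_triR (hp : Par a b c N) (hC : Cx a b c N m o G) (h1 : G.P1) (h2 : G.P2 o)
    (h3 : G.P3 o) (big : SpecRing a b c N m) : ∃ x0 x1 x2 e0 e1 e2 g0 g1 g2 F0 F1 F2,
    G.Tri o x0 x1 x2 e0 e1 e2 g0 g1 g2 F0 F1 F2 := by
  have hG := hC.cls.good
  have hsp : ∀ x e g e' F F', G.Cub o x e g e' F F' → ∃ b, G.Spk o x e g e' F F' b :=
    fun x e g e' F F' hcub => hC.spk hp h1 h2 h3 hcub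
  obtain ⟨k, x, e, g, F, z, hR⟩ := exists_ring hG h1 h2 h3 hsp
  have hk := hR.k3
  rcases Nat.lt_or_ge 4 k with h5 | h5
  · exact (big o G hC h1 h2 h3 k x e g F z hR h5).elim
  rcases Nat.lt_or_ge 3 k with h4 | h4
  · exfalso
    obtain rfl : k = 4 := by omega
    have eF : F (0 - 1) = F 3 := by
      have h := hR.pF (-1)
      norm_num at h ⊢
      exact h.symm
    have ee : e (0 - 1) = e 3 := by
      have h := hR.pe (-1)
      norm_num at h ⊢
      exact h.symm
    have ex : x (3 + 1) = x 0 := hR.px 0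
    have s0 := hR.spk 0
    rw [eF, ee] at s0
    have a0 := hR.adj 3
    rw [ex] at a0
    exact hC.k4 hp h1 s0 (hR.spk 1) (hR.spk 2) (hR.spk 3) (hR.adj 0) (hR.adj 1) (hR.adj 2) a0
      (hR.xne (by norm_num) (by norm_num)) (hR.xne (by norm_num) (by norm_num))
      (hR.Fne (by norm_num) (by norm_num)).symm (hR.Fne (by norm_num) (by norm_num))
  · obtain rfl : k = 3 := by omega
    have eF : F (0 - 1) = F 2 := by
      have h := hR.pF (-1)
      norm_num at h ⊢
      exact h.symm
    have ee : e (0 - 1) = e 2 := by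
      have h := hR.pe (-1)
      norm_num at h ⊢
      exact h.symm
    have ex : x (2 + 1) = x 0 := hR.px 0
    have s0 := hR.spk 0
    rw [eF, ee] at s0
    have a0 := hR.adj 2
    rw [ex] at a0
    exact ⟨x 0, x 1, x 2, e 0, e 1, e 2, g 0, g 1, g 2, F 0, F 1, F 2, s0.cub, (hR.spk 1).cub,
      (hR.spk 2).cub, hR.adj 0, hR.adj 1, a0, hR.xne (by norm_num) (by norm_num),
      hR.xne (by norm_num) (by norm_num), (hR.xne (by norm_num) (by norm_num)).symm,
      hR.Fne (by norm_num) (by norm_num), hR.Fne (by norm_num) (by norm_num),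
      (hR.Fne (by norm_num) (by norm_num)).symm⟩

/-- no minimal counterexample, from the steps -/
theorem chainR (hp : Par a b c N) (hNc : N + c ≤ 2 * a + 2 * b) (hac : a + c ≤ N + b)
    (p3 : SpecP3 a b c N m) (big : SpecRing a b c N m) (k3 : SpecThree a b c N m) :
    ∀ u G, ¬ Cx0 a b c N m u G := by
  intro o G h0
  have hC : Cx a b c N m o G := h0.cx hp.bc hp.a2 hNc hp.cb hac
  have h1 : G.P1 := h0.p1 hp.bc hp.a2 hNc hp.cb hac
  have h2 : G.P2 o := hC.step23 hp h1
  have h3 : G.P3 o := p3 o G hC h1 h2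
  obtain ⟨x0, x1, x2, e0, e1, e2, g0, g1, g2, F0, F1, F2, ht⟩ := exists_triR hp hC h1 h2 h3 big
  exact k3 o G hC h1 h2 h3 _ _ _ _ _ _ _ _ _ _ _ _ ht

theorem spec_p13 (m : ℕ) : SpecP3 7 2 4 13 m := fun _ _ hC h1 h2 => p3_13 hC h1 h2

/-- no minimal counterexample for the weights `7, 2, 4, 13` -/
theorem no_cx13_of {m : ℕ} (big : SpecRing 7 2 4 13 m) (k3 : SpecThree 7 2 4 13 m) :
    ∀ u G, ¬ Cx0 7 2 4 13 m u G :=
  chainR par13 (by norm_num) (by norm_num) (spec_p13 m) big k3

end Gr

end Pool.Agent.Lib.MP06c549.T6H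
end
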