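import Pool.Agent.Lib.MP_06c549_co.T6H.Rew2

/-!
# MP_06c549_co, T6H, constant 13: (G3), five outer vertices, no common neighbour of `b j` and
`b (j + 1)` through the edges `l j` and `r (j + 1)`
-/

set_option autoImplicit false

namespace Pool.Agent.Lib.MP06c549.T6H

open Finset

namespace Gr

variable {G : Gr} {u : ℕ}

/-- a set is linked to `u` if every vertex of it with a neighbour outside touches `u` or is joined
to such a vertex by a path of length one or two in the set -/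
theorem Cls.FC_chain {m : ℕ} (hG : G.Cls u m) {W : Finset ℕ} (hW : W ⊆ G.vs)
    (h : ∀ d a b, G.E d a b → a ∈ W → b ∉ W → G.Touch a u ∨
      ∃ a' ∈ W, G.Adj a a' ∧ (G.Touch a' u ∨ ∃ a'' ∈ W, G.Adj a' a'' ∧ G.Touch a'' u)) :
    G.FC W u := by
  classical
  intro x hx
  by_contra hcon
  push Not at hcon
  obtain ⟨i, hi, hxi⟩ := hcon
  have hg0 := hG.good
  have hg1 : ∀ w ∈ W, ∀ i j, G.Touch w i → G.Touch w j → x i = x j := fun w hw i j hi hj =>
    link' hg0 (hW hw) (fun d hd => hx d (star_sub_tds hw hd)) hi hj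
  let P : ℕ → Prop := fun w => ∃ i, G.Touch w i ∧ x i ≠ x u
  have hPu : ∀ w ∈ W, G.Touch w u → ¬ P w := by
    rintro w hw hwu ⟨i, hi, h1⟩
    exact h1 (hg1 w hw i u hi hwu)
  have hPa : ∀ w ∈ W, ∀ w' ∈ W, G.Adj w w' → P w → P w' := by
    rintro w hw w' hw' ⟨d, hd⟩ ⟨i, hi, h1⟩
    refine ⟨G.l d, ⟨d, hd.right, Or.inl rfl⟩, ?_⟩
    rw [← hg1 w hw i (G.l d) hi ⟨d, hd.left, Or.inl rfl⟩]
    exact h1
  let A := W.filter P
  have hA : ∀ w, w ∈ A ↔ w ∈ W ∧ P w := fun w => mem_filter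
  -- no edge leaves `A`
  have hno : ∀ d ∈ G.ds, (G.p d ∈ A ↔ G.q d ∈ A) := by
    have key : ∀ d a b, G.E d a b → a ∈ A → b ∈ A := by
      intro d a b hd ha
      obtain ⟨haW, haP⟩ := (hA a).1 ha
      by_cases hb : b ∈ W
      · exact (hA b).2 ⟨hb, hPa a haW b hb ⟨d, hd⟩ haP⟩
      · exfalso
        rcases h d a b hd haW hb with h1 | ⟨a', ha', h1, h2 | ⟨a'', ha'', h3, h4⟩⟩
        · exact hPu a haW h1 haP
        · exact hPu a' ha' h2 (hPa a haW a' ha' h1 haP)
        · exact hPu a'' ha'' h4 (hPa a' ha' a'' ha'' h3 (hPa a haW a' ha' h1 haP))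
    intro d hd
    have hE : G.E d (G.p d) (G.q d) := ⟨hd, Or.inl ⟨rfl, rfl⟩⟩
    exact ⟨key _ _ _ hE, key _ _ _ hE.symm⟩
  have hcF : G.FC A u := by
    refine comp_FC hg0 hG.hu hG.bc (f := fun w => if w ∈ A then 1 else 0) (fun d hd => ?_)
      fun w _ => ?_
    · simp only [hno d hd]
    · by_cases h1 : w ∈ A
      · simp [h1]
      · simp [h1]
  obtain ⟨d, hd, hdi⟩ := mem_tf.1 hi
  rw [mem_tds] at hd
  have key : ∀ w ∈ W, G.Touch w i → False := by
    intro w hw hwi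
    have hwA : w ∈ A := (hA w).2 ⟨hw, i, hwi, hxi⟩
    refine hxi (hcF x (fun d hd => ?_) i ?_)
    · rw [mem_tds] at hd
      refine hx d (mem_tds.2 ⟨hd.1, ?_⟩)
      rcases hd.2 with h1 | h1
      · exact Or.inl ((hA _).1 h1).1
      · exact Or.inr ((hA _).1 h1).1
    · obtain ⟨e, he, hei⟩ := hwi
      exact mem_tf.2 ⟨e, star_sub_tds hwA he, hei⟩
  rcases hd.2 with h1 | h1
  · exact key _ h1 ⟨d, mem_star.2 ⟨hd.1, Or.inl rfl⟩, hdi⟩
  · exact key _ h1 ⟨d, mem_star.2 ⟨hd.1, Or.inr rfl⟩, hdi⟩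

/-- a face does not occur more often after a deletion -/
lemma cnt_del_leG {W : Finset ℕ} {i v : ℕ} (hi : i ≠ u) : (G.del W u).cnt i v ≤ G.cnt i v := by
  have key : ∀ j, G.phi W u j = i → j = i := by
    intro j hj
    by_cases h : j ∈ G.tf W
    · rw [phi_of_mem h] at hj
      exact absurd hj.symm hi
    · rwa [phi_of_not h] at hj
  unfold cnt
  refine add_le_add (card_le_card ?_) (card_le_card ?_)
  · intro d hd
    rw [star_del, mem_filter, mem_sdiff] at hd
    exact mem_filter.2 ⟨hd.1.1, key _ hd.2⟩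
  · intro d hd
    rw [star_del, mem_filter, mem_sdiff] at hd
    exact mem_filter.2 ⟨hd.1.1, key _ hd.2⟩

/-- a remaining edge with a touched side -/
lemma touch_of_side {W : Finset ℕ} {d v i : ℕ} (hd : d ∈ G.star v) (hdW : d ∉ G.tds W)
    (hi : G.l d = i ∨ G.r d = i) (hiW : i ∈ G.tf W) : (G.del W u).Touch v u := by
  refine ⟨d, by rw [star_del]; exact mem_sdiff.2 ⟨hd, hdW⟩, ?_⟩
  change G.phi W u (G.l d) = u ∨ G.phi W u (G.r d) = u
  rcases hi with rfl | rfl
  · exact Or.inl (phi_of_mem hiW)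
  · exact Or.inr (phi_of_mem hiW)

/-- a remaining edge with a side which is not touched -/
lemma side_del' {W : Finset ℕ} {d i : ℕ} (hi : G.l d = i ∨ G.r d = i) (hiW : i ∉ G.tf W) :
    (G.del W u).l d = i ∨ (G.del W u).r d = i := by
  change G.phi W u (G.l d) = i ∨ G.phi W u (G.r d) = i
  rcases hi with rfl | rfl
  · exact Or.inl (phi_of_not hiW)
  · exact Or.inr (phi_of_not hiW)

lemma exists_touch {W : Finset ℕ} {i : ℕ} (h : i ∈ G.tf W) : ∃ v ∈ W, G.Touch v i := by
  obtain ⟨d, hd, hi⟩ := mem_tf.1 h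
  rw [mem_tds] at hd
  rcases hd.2 with h1 | h1
  · exact ⟨_, h1, d, mem_star.2 ⟨hd.1, Or.inl rfl⟩, hi⟩
  · exact ⟨_, h1, d, mem_star.2 ⟨hd.1, Or.inr rfl⟩, hi⟩

lemma touch_tf {W : Finset ℕ} {v i : ℕ} (hv : v ∈ W) (h : G.Touch v i) : i ∈ G.tf W := by
  obtain ⟨d, hd, hi⟩ := h
  exact mem_tf.2 ⟨d, star_sub_tds hv hd, hi⟩

variable {o m : ℕ} {x e g F b l r O : ℤ → ℕ}

/-- (G3) in the numbering of the deleted vertices `x i`, `x (i - 1)`, `x (i + 1)`, `b i` -/
theorem Ring3.G3' (h : G.Ring3 m o 5 x e g F b l r O) (hO : ∀ i, O i ≠ O (i + 2))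
    {i : ℤ} {c : ℕ} (h1 : G.E (l (i + 2)) (b (i + 2)) c)
    (h2 : G.E (r (i + 3)) (b (i + 3)) c) : False := by
  classical
  have hM := h.cx
  have hG := h.good
  have hR := h.ring
  have hOF := h.OF
  have two : ∀ a b : ZMod 2, a ≠ b → ∀ c, c ≠ a → c = b := by decide
  have k5 : ((5 : ℕ) : ℤ) = 5 := rfl
  -- periodicity
  have px4 : x (i + 4) = x (i - 1) := (Ring.per hR.px (by rw [k5]; omega)).symm
  have pF3 : F (i + 3) = F (i - 2) := (Ring.per hR.pF (by rw [k5]; omega)).symm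
  have e12 : i + 2 - 1 = i + 1 := by ring
  have e13 : i + 3 - 1 = i + 2 := by ring
  have e11 : i - 1 - 1 = i - 2 := by ring
  have e10 : i - 1 + 1 = i := by ring
  have e1p : i + 1 - 1 = i := by ring
  have e1q : i + 1 + 1 = i + 2 := by ring
  have e2q : i + 2 + 1 = i + 3 := by ring
  have e3q : i + 3 + 1 = i + 4 := by ring
  -- edges
  have A1 : G.E (e (i + 1)) (x (i + 1)) (x (i + 2)) := by
    have := hR.adj (i + 1); rwa [e1q] at this
  have A2 : G.E (e (i + 2)) (x (i + 2)) (x (i + 3)) := by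
    have := hR.adj (i + 2); rwa [e2q] at this
  have A3 : G.E (e (i + 3)) (x (i + 3)) (x (i - 1)) := by
    have := hR.adj (i + 3); rwa [e3q, px4] at this
  have Am : G.E (e (i - 1)) (x (i - 1)) (x i) := by
    have := hR.adj (i - 1); rwa [e10] at this
  have A0 : G.E (e i) (x i) (x (i + 1)) := hR.adj i
  have sl2 : G.S (l (i + 2)) (F (i + 1)) (O (i + 2)) := by
    have := h.sl (i + 2); rwa [e12] at this
  have sr3 : G.S (r (i + 3)) (F (i + 3)) (O (i + 3)) := h.sr (i + 3)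
  -- the vertex `c`
  have tcO : G.Touch c (O (i + 2)) := (sl2.touch h1.right).2
  have tc1 : G.Touch c (F (i + 1)) := (sl2.touch h1.right).1
  have tc3 : G.Touch c (F (i + 3)) := (sr3.touch h2.right).1
  have cx : ∀ n, c ≠ x n := by
    rintro n rfl
    rcases (hR.spk n).cub.touch tcO with h3 | h3 | h3
    · exact h.Oo _ h3
    · exact hOF _ _ h3
    · exact hOF _ _ h3
  have cb : c ≠ b i := by
    rintro rfl
    rcases h.touch_b tcO with h3 | h3 | h3
    · exact hOF _ _ h3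
    · exact hOF _ _ h3
    · exact hO i h3.symm
  have cb2 : c ≠ b (i + 2) := (h1.ne hG).symm
  have cb3 : c ≠ b (i + 3) := (h2.ne hG).symm
  have hcv : c ∈ G.vs := h1.symm.memv hG
  -- the cut
  obtain ⟨T, hTc, hTx⟩ := link_path hG tc1 tc3
  have nsc : ∀ n, e n ∉ G.star c := by
    intro n hn
    rcases (hR.adj n).ends hn with h3 | h3
    · exact cx _ h3
    · exact cx _ h3
  have ne13 : e (i + 1) ≠ e (i + 3) := hR.ene (by omega) (by rw [k5]; omega)
  let K : Finset ℕ := insert (e (i + 1)) (insert (e (i + 3)) T)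
  have hK : ∀ d, d ∈ K ↔ d = e (i + 1) ∨ d = e (i + 3) ∨ d ∈ T := fun d => by
    simp only [K, mem_insert]
  have hEv : G.Ev K := by
    intro y
    have n1 : e (i + 1) ∉ insert (e (i + 3)) T := by
      rw [mem_insert, not_or]
      exact ⟨ne13, fun h3 => nsc _ (hTc h3)⟩
    have n2 : e (i + 3) ∉ T := fun h3 => nsc _ (hTc h3)
    rw [sum_insert n1, sum_insert n2, hTx y, (hR.se (i + 1)).sum, (hR.se (i + 3)).sum]
    have z1 := CharTwo.add_self_eq_zero (y o)
    have z2 := CharTwo.add_self_eq_zero (y (F (i + 1)))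
    have z3 := CharTwo.add_self_eq_zero (y (F (i + 3)))
    linear_combination z1 + z2 + z3
  have hKs : K ⊆ G.ds := by
    intro d hd
    rcases (hK d).1 hd with rfl | rfl | h3
    · exact A1.1
    · exact A3.1
    · exact star_sub (hTc h3)
  obtain ⟨f, hf⟩ := cut_of_ev hG hKs hEv
  have hfE : ∀ d a b, G.E d a b → d ∉ K → f a = f b := by
    intro d a b hd hdK
    have h3 := hf d hd.1
    rw [if_neg hdK] at h3
    have h4 := CharTwo.add_eq_zero.1 h3
    rcases hd.2 with ⟨h5, h6⟩ | ⟨h5, h6⟩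
    · rw [← h5, ← h6]; exact h4
    · rw [← h5, ← h6]; exact h4.symm
  have hfK : ∀ d a b, G.E d a b → d ∈ K → f a ≠ f b := by
    intro d a b hd hdK hab
    have h3 := hf d hd.1
    rw [if_pos hdK] at h3
    have h4 : f (G.p d) = f (G.q d) := by
      rcases hd.2 with ⟨h5, h6⟩ | ⟨h5, h6⟩
      · rw [h5, h6]; exact hab
      · rw [h5, h6]; exact hab.symm
    rw [h4, CharTwo.add_self_eq_zero] at h3
    exact zero_ne_one h3
  have eK : ∀ n, (5 : ℤ) ∣ n - (i + 1) ∨ (5 : ℤ) ∣ n - (i + 3) ∨ e n ∉ K := by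
    intro n
    by_cases h3 : e n ∈ K
    · rcases (hK _).1 h3 with h4 | h4 | h4
      · have h5 := hR.ie _ _ h4
        rw [k5] at h5
        left; omega
      · have h5 := hR.ie _ _ h4
        rw [k5] at h5
        right; left; omega
      · exact absurd (hTc h4) (nsc n)
    · exact Or.inr (Or.inr h3)
  have gK : ∀ n, c ≠ b n → g n ∉ K := by
    intro n hn h3
    rcases (hK _).1 h3 with h4 | h4 | h4
    · exact hR.nb n (((h4 ▸ hR.se (i + 1) : G.S (g n) o (F (i + 1))).touch (hR.eg n).right).1)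
    · exact hR.nb n (((h4 ▸ hR.se (i + 3) : G.S (g n) o (F (i + 3))).touch (hR.eg n).right).1)
    · rcases (hR.eg n).ends (hTc h4) with h5 | h5
      · exact cx _ h5
      · exact hn h5
  have ke0 : e i ∉ K := by
    rcases eK i with h3 | h3 | h3
    · omega
    · omega
    · exact h3
  have kem : e (i - 1) ∉ K := by
    rcases eK (i - 1) with h3 | h3 | h3
    · omega
    · omega
    · exact h3
  have ke2 : e (i + 2) ∉ K := by
    rcases eK (i + 2) with h3 | h3 | h3
    · omega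
    · omega
    · exact h3
  have k1 : e (i + 1) ∈ K := (hK _).2 (Or.inl rfl)
  have k3 : e (i + 3) ∈ K := (hK _).2 (Or.inr (Or.inl rfl))
  -- the sides
  have f1 : f (x (i + 1)) ≠ f (x (i + 2)) := hfK _ _ _ A1 k1
  have f3 : f (x (i + 3)) = f (x (i + 2)) := (hfE _ _ _ A2 ke2).symm
  have f0 : f (x i) ≠ f (x (i + 2)) := by rw [hfE _ _ _ A0 ke0]; exact f1
  have fm : f (x (i - 1)) ≠ f (x (i + 2)) := by rw [hfE _ _ _ Am kem]; exact f0
  have fb : f (b i) ≠ f (x (i + 2)) := by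
    rw [← hfE _ _ _ (hR.eg i) (gK i cb)]; exact f0
  have fb2 : f (b (i + 2)) = f (x (i + 2)) := (hfE _ _ _ (hR.eg (i + 2)) (gK _ cb2)).symm
  -- the tight part
  have s0 := hR.spk (i - 1)
  have s1 := hR.spk i
  have s2 := hR.spk (i + 1)
  rw [e1p] at s2
  have hFW := (win_fc hG s0.cub s1 s2.cub).1
  have hWv := (win_fc hG s0.cub s1 s2.cub).2
  have hT := win_tight hM s0.cub s1 s2.cub (h.tight i)
  set W : Finset ℕ := {x i, x (i - 1), x (i + 1), b i} with hWdef
  have mW : ∀ v, v ∈ W ↔ v = x i ∨ v = x (i - 1) ∨ v = x (i + 1) ∨ v = b i := fun v => by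
    simp only [hWdef, mem_insert, mem_singleton]
  have W0 : x i ∈ W := (mW _).2 (Or.inl rfl)
  have Wm : x (i - 1) ∈ W := (mW _).2 (Or.inr (Or.inl rfl))
  have W1 : x (i + 1) ∈ W := (mW _).2 (Or.inr (Or.inr (Or.inl rfl)))
  have fW : ∀ v ∈ W, f v ≠ f (x (i + 2)) := by
    intro v hv
    rcases (mW v).1 hv with rfl | rfl | rfl | rfl
    · exact f0
    · exact fm
    · exact f1
    · exact fb
  have nW : ∀ v, f v = f (x (i + 2)) → v ∉ W := fun v hv h3 => fW v h3 hv
  have cW : c ∉ W := by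
    intro h3
    rcases (mW c).1 h3 with h4 | h4 | h4 | h4
    · exact cx _ h4
    · exact cx _ h4
    · exact cx _ h4
    · exact cb h4
  have bW : b (i + 2) ∉ W := nW _ fb2
  have xW : x (i + 2) ∉ W := nW _ rfl
  have x3W : x (i + 3) ∉ W := nW _ f3
  have F1W : F (i + 1) ∈ G.tf W := touch_tf W1 s2.cub.tF'
  have OW : O (i + 2) ∉ G.tf W := by
    intro h3
    obtain ⟨v, hv, hvt⟩ := exists_touch h3
    have hx : ∀ n, ¬ G.Touch (x n) (O (i + 2)) := by
      intro n hn
      rcases (hR.spk n).cub.touch hn with h4 | h4 | h4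
      · exact h.Oo _ h4
      · exact hOF _ _ h4
      · exact hOF _ _ h4
    rcases (mW v).1 hv with rfl | rfl | rfl | rfl
    · exact hx _ hvt
    · exact hx _ hvt
    · exact hx _ hvt
    · rcases h.touch_b hvt with h4 | h4 | h4
      · exact hOF _ _ h4
      · exact hOF _ _ h4
      · exact hO i h4.symm
  have dW : ∀ d a b, G.E d a b → a ∉ W → b ∉ W → d ∉ G.tds W := by
    intro d a b hd ha hb h3
    obtain ⟨-, h4⟩ := mem_tds.1 h3
    rcases hd.2 with ⟨h5, h6⟩ | ⟨h5, h6⟩ <;> rcases h4 with h4 | h4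
    · exact ha (h5 ▸ h4)
    · exact hb (h6 ▸ h4)
    · exact hb (h5 ▸ h4)
    · exact ha (h6 ▸ h4)
  set Q := G.del W o with hQ
  have hQv : ∀ v, v ∈ Q.vs ↔ v ∈ G.vs ∧ v ∉ W := fun v => mem_sdiff
  have hcut : Q.CutV o c f := by
    refine ⟨touch_of_side h1.right (dW _ _ _ h1 bW cW) (by
      rcases sl2 with h3 | h3
      · exact Or.inl h3.1
      · exact Or.inr h3.2) F1W, fun j _ hj => (cnt_del_leG hj).trans (h.p1.cnt_le hG hcv j),
      fun d hd hdc => ?_⟩
    have hd' : d ∈ G.ds ∧ d ∉ G.tds W := mem_sdiff.1 hd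
    have hdc' : d ∉ G.star c := fun h3 => hdc (by
      rw [star_del]; exact mem_sdiff.2 ⟨h3, hd'.2⟩)
    refine hfE d _ _ ⟨hd'.1, Or.inl ⟨rfl, rfl⟩⟩ fun h3 => ?_
    rcases (hK d).1 h3 with rfl | rfl | h4
    · exact hd'.2 (star_sub_tds W1 A1.left)
    · exact hd'.2 (star_sub_tds Wm A3.right)
    · exact hdc' (hTc h4)
  have hD1 := hT.cv (by norm_num) (by norm_num) (by norm_num) hcut (f (x (i + 2)))
    (h1.symm.del cW bW) fb2 (side_del' (by
      rcases sl2 with h3 | h3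
      · exact Or.inr h3.2
      · exact Or.inl h3.1) OW) (h.Oo _)
  have hFQ := hcut.FC hT.cls (f (x (i + 2)))
  set D := Q.sideV c f (f (x (i + 2))) with hD
  have mD : ∀ v, v ∈ D ↔ (v ∈ G.vs ∧ v ∉ W) ∧ (f v = f (x (i + 2)) ∨ v = c) := fun v => by
    rw [hD, mem_sideV, hQv]
  have hun : W ∪ (Q.vs \ D) = G.vs \ D := by
    ext v
    rw [mem_union, mem_sdiff, mem_sdiff, hQv]
    constructor
    · rintro (h3 | ⟨h3, h4⟩)
      · exact ⟨hWv h3, fun h4 => ((mD v).1 h4).1.2 h3⟩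
      · exact ⟨h3.1, h4⟩
    · rintro ⟨h3, h4⟩
      by_cases h5 : v ∈ W
      · exact Or.inl h5
      · exact Or.inr ⟨⟨h3, h5⟩, h4⟩
  have hPeq : Q.del (Q.vs \ D) o = G.del (G.vs \ D) o := by
    rw [hQ, del_del (fun h3 => (mem_sdiff.1 (hM.cls.hsub h3)).2 hM.cls.hu) hM.cls.hun, ← hQ, hun]
  rw [hPeq] at hD1
  have hFD : G.FC (G.vs \ D) o := by
    rw [← hun]
    exact FC_union hFW hFQ
  have x2D : x (i + 2) ∈ D := (mD _).2 ⟨⟨A2.memv hG, xW⟩, Or.inl rfl⟩
  have x3D : x (i + 3) ∈ D := (mD _).2 ⟨⟨A2.symm.memv hG, x3W⟩, Or.inl f3⟩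
  have bD : b (i + 2) ∈ D := (mD _).2 ⟨⟨h1.memv hG, bW⟩, Or.inl fb2⟩
  have cD : c ∈ D := (mD _).2 ⟨⟨hcv, cW⟩, Or.inr rfl⟩
  have xmD : x (i - 1) ∉ D := fun h3 => ((mD _).1 h3).1.2 Wm
  have x1D : x (i + 1) ∉ D := fun h3 => ((mD _).1 h3).1.2 W1
  have hDv : D ⊆ G.vs := fun v hv => ((mD v).1 hv).1.1
  have hcross : ∀ d a b', G.E d a b' → a ∈ D → b' ∉ D →
      d ∈ G.star c ∨ d = e (i + 1) ∨ d = e (i + 3) := by
    intro d a b' hd ha hb'
    rcases ((mD a).1 ha).2 with h3 | h3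
    · by_cases hdK : d ∈ K
      · rcases (hK d).1 hdK with h4 | h4 | h4
        · exact Or.inr (Or.inl h4)
        · exact Or.inr (Or.inr h4)
        · exact Or.inl (hTc h4)
      · exfalso
        have h4 := (hfE _ _ _ hd hdK).symm.trans h3
        exact hb' ((mD b').2 ⟨⟨hd.symm.memv hG, nW _ h4⟩, Or.inl h4⟩)
    · left
      rw [← h3]
      exact hd.left
  have hV2v : insert (x (i - 1)) D ⊆ G.vs := insert_subset (Am.memv hG) hDv
  have hFD' : G.FC (insert (x (i - 1)) D) o := by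
    refine hM.cls.FC_chain hV2v fun d a b' hd ha hb' => ?_
    rw [mem_insert, not_or] at hb'
    rcases mem_insert.1 ha with rfl | ha
    · exact Or.inl (hR.tx _)
    · by_cases hac : a = c
      · right
        rw [hac]
        exact ⟨b (i + 2), mem_insert_of_mem bD, ⟨_, h1.symm⟩, Or.inr ⟨x (i + 2),
          mem_insert_of_mem x2D, ⟨_, (hR.eg (i + 2)).symm⟩, hR.tx _⟩⟩
      · left
        rcases hcross d a b' hd ha hb'.2 with h3 | h3 | h3
        · rcases hd.ends h3 with h4 | h4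
          · exact absurd h4.symm hac
          · exact absurd (h4 ▸ cD) hb'.2
        · subst h3
          rcases A1.ends hd.left with h4 | h4
          · rw [h4]; exact hR.tx _
          · rw [h4]; exact hR.tx _
        · subst h3
          rcases A3.ends hd.left with h4 | h4
          · rw [h4]; exact hR.tx _
          · rw [h4]; exact hR.tx _
  -- the forced vertices are free
  have hfree : (G.del (G.vs \ D) o).cost {x (i + 2), c} = (G.del (G.vs \ D) o).tau := by
    have inD : ∀ d a b', G.E d a b' → a ∈ D → b' ∈ D → d ∉ G.tds (G.vs \ D) := by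
      intro d a b' hd ha hb' h3
      obtain ⟨-, h4⟩ := mem_tds.1 h3
      rcases hd.2 with ⟨h5, h6⟩ | ⟨h5, h6⟩ <;> rcases h4 with h4 | h4
      · exact (mem_sdiff.1 h4).2 (h5 ▸ ha)
      · exact (mem_sdiff.1 h4).2 (h6 ▸ hb')
      · exact (mem_sdiff.1 h4).2 (h5 ▸ hb')
      · exact (mem_sdiff.1 h4).2 (h6 ▸ ha)
    have x1s : x (i + 1) ∈ G.vs \ D := mem_sdiff.2 ⟨A1.memv hG, x1D⟩
    have tc : (G.del (G.vs \ D) o).Touch c o := touch_of_side h1.right (inD _ _ _ h1 bD cD) (by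
      rcases sl2 with h3 | h3
      · exact Or.inl h3.1
      · exact Or.inr h3.2) (touch_tf x1s s2.cub.tF')
    have tx : (G.del (G.vs \ D) o).Touch (x (i + 2)) o := touch_of_side A2.left
      (inD _ _ _ A2 x2D x3D) (by
      rcases hR.se (i + 2) with h3 | h3
      · exact Or.inl h3.1
      · exact Or.inr h3.2) (touch_tf x1s (hR.tx _))
    have hg' := hD1.cls.good
    refine hD1.free (by norm_num) (by norm_num) ?_ ?_ card_le_two
    · rw [vs_del_compl hDv]
      intro v hv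
      rcases mem_insert.1 hv with rfl | hv
      · exact x2D
      · rw [mem_singleton.1 hv]; exact cD
    · exact (FC_singleton hg' (touch_mem hg' tc).1 tc).insert_out hg' (touch_mem hg' tx).1 tx
  -- the move
  have hss : G.vs \ (G.vs \ insert (x (i - 1)) D) = insert (x (i - 1)) D := by
    rw [sdiff_sdiff_right_self]
    exact inter_eq_right.2 hV2v
  have hF2 : G.FC (G.vs \ (G.vs \ insert (x (i - 1)) D)) o := by rw [hss]; exact hFD'
  have xms : x (i - 1) ∈ G.vs \ D := mem_sdiff.2 ⟨Am.memv hG, xmD⟩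
  have x1s : x (i + 1) ∈ G.vs \ D := mem_sdiff.2 ⟨A1.memv hG, x1D⟩
  have xmi : x (i - 1) ∈ insert (x (i - 1)) D := mem_insert_self _ _
  have tm3 : G.Touch (x (i - 1)) (F (i + 3)) := by
    rw [pF3]
    have h3 := (hR.spk (i - 1)).cub.tF
    rwa [e11] at h3
  have tm1 : G.Touch (x (i - 1)) (F (i - 1)) := (hR.spk (i - 1)).cub.tF'
  have t11 : G.Touch (x (i + 1)) (F (i + 1)) := (hR.spk (i + 1)).cub.tF'
  have t21 : G.Touch (x (i + 2)) (F (i + 1)) := by
    have h3 := (hR.spk (i + 2)).cub.tF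
    rwa [e12] at h3
  have hmv := hM.move_two (B := {F (i + 1), F (i + 3), F (i - 1)}) (T₁ := {x (i + 2), c})
    (T₂ := ∅) (X₀ := {x (i - 1)}) (Y₀ := ∅) (V₁ := D) (V₂ := G.vs \ insert (x (i - 1)) D)
    (by norm_num) hDv sdiff_subset (by
      rw [disjoint_left]
      intro v hv hv'
      exact (mem_sdiff.1 hv').2 (mem_insert_of_mem hv)) hFD hF2 (by
      intro v hv
      rcases mem_insert.1 hv with rfl | hv
      · exact x2D
      · rw [mem_singleton.1 hv]; exact cD) (empty_subset _)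
    (singleton_subset_iff.2 (Am.memv hG)) (empty_subset _) (by
      intro j hj
      rw [mem_erase]
      simp only [mem_insert, mem_singleton] at hj
      rcases hj with rfl | rfl | rfl
      · exact ⟨hR.Fo _, touch_tf x1s t11⟩
      · exact ⟨hR.Fo _, touch_tf xms tm3⟩
      · exact ⟨hR.Fo _, touch_tf xms tm1⟩) (by
      intro j hj
      rw [hss, mem_erase]
      simp only [mem_insert, mem_singleton] at hj
      rcases hj with rfl | rfl | rfl
      · exact ⟨hR.Fo _, touch_tf (mem_insert_of_mem x2D) t21⟩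
      · exact ⟨hR.Fo _, touch_tf xmi tm3⟩
      · exact ⟨hR.Fo _, touch_tf xmi tm1⟩) (by
      intro d hd
      obtain ⟨hd, h3, h4⟩ := mem_rest.1 hd
      have hends := hG.ends d hd
      have key : ∀ a b', G.E d a b' → a ∈ D → b' ∉ D →
          a ∈ ({x (i - 1)} ∪ ({x (i + 2), c} ∪ ∅) : Finset ℕ) ∨
          b' ∈ ({x (i - 1)} ∪ ({x (i + 2), c} ∪ ∅) : Finset ℕ) := by
        intro a b' hE ha hb'
        rcases hcross d a b' hE ha hb' with h5 | h5 | h5
        · rcases hE.ends h5 with h6 | h6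
          · left; rw [← h6]; simp
          · right; rw [← h6]; simp
        · subst h5
          rcases hE.ends A1.right with h6 | h6
          · left; rw [← h6]; simp
          · right; rw [← h6]; simp
        · subst h5
          rcases hE.ends A3.right with h6 | h6
          · left; rw [← h6]; simp
          · right; rw [← h6]; simp
      have hE : G.E d (G.p d) (G.q d) := ⟨hd, Or.inl ⟨rfl, rfl⟩⟩
      by_cases hp : G.p d ∈ D
      · have hq : G.q d ∉ D := fun h5 => h3 ⟨hp, h5⟩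
        rcases key _ _ hE hp hq with h5 | h5
        · exact Or.inl h5
        · exact Or.inr (Or.inl h5)
      · by_cases hq : G.q d ∈ D
        · rcases key _ _ hE.symm hq hp with h5 | h5
          · exact Or.inr (Or.inl h5)
          · exact Or.inl h5
        · by_cases hp' : G.p d = x (i - 1)
          · left; rw [hp']; simp
          · by_cases hq' : G.q d = x (i - 1)
            · right; left; rw [hq']; simp
            · exfalso
              refine h4 ⟨mem_sdiff.2 ⟨hends.1, ?_⟩, mem_sdiff.2 ⟨hends.2, ?_⟩⟩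
              · rw [mem_insert, not_or]; exact ⟨hp', hp⟩
              · rw [mem_insert, not_or]; exact ⟨hq', hq⟩)
  have hBc : ({F (i + 1), F (i + 3), F (i - 1)} : Finset ℕ).card = 3 := by
    have n1 : F (i + 1) ≠ F (i + 3) := hR.Fne (by omega) (by rw [k5]; omega)
    have n2 : F (i + 1) ≠ F (i - 1) := (hR.Fne (by omega) (by rw [k5]; omega)).symm
    have n3 : F (i + 3) ≠ F (i - 1) := (hR.Fne (by omega) (by rw [k5]; omega)).symm
    rw [card_insert_of_notMem (by simp [n1, n2]), card_pair n3]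
  have hone : 1 ≤ (G.vs \ (D ∪ (G.vs \ insert (x (i - 1)) D))).card := by
    refine card_pos.2 ⟨x (i - 1), mem_sdiff.2 ⟨Am.memv hG, ?_⟩⟩
    rw [mem_union, not_or]
    exact ⟨xmD, fun h3 => (mem_sdiff.1 h3).2 xmi⟩
  have hP2 : 13 * (G.del (G.vs \ (G.vs \ insert (x (i - 1)) D)) o).tau ≤
      (G.del (G.vs \ (G.vs \ insert (x (i - 1)) D)) o).pot 7 2 4 := by
    refine hM.ih _ _ (hM.cls.del hF2) ?_
    rw [vs_del_compl sdiff_subset]
    refine card_lt_card ⟨sdiff_subset, fun h3 => ?_⟩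
    exact (mem_sdiff.1 (h3 (Am.memv hG))).2 xmi
  have hP1 : 13 * (G.del (G.vs \ D) o).tau ≤ (G.del (G.vs \ D) o).pot 7 2 4 := by
    refine hM.ih _ _ (hM.cls.del hFD) ?_
    rw [vs_del_compl hDv]
    exact card_lt_card ⟨hDv, fun h3 => xmD (h3 (Am.memv hG))⟩
  rw [hBc, hfree, nb_empty, card_singleton, fpr_empty] at hmv
  change _ < 13 * (1 + 0 + G.ws (G.rest D (G.vs \ insert (x (i - 1)) D)) +
    (G.del (G.vs \ D) o).tau + (G.del (G.vs \ (G.vs \ insert (x (i - 1)) D)) o).tau) at hmv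
  omega

/-- (G3) -/
theorem Ring3.G3 (h : G.Ring3 m o 5 x e g F b l r O) (hO : ∀ i, O i ≠ O (i + 2))
    {j : ℤ} {c : ℕ} (h1 : G.E (l j) (b j) c)
    (h2 : G.E (r (j + 1)) (b (j + 1)) c) : False := by
  refine h.G3' hO (i := j - 2) (c := c) ?_ ?_
  · have e1 : j - 2 + 2 = j := by ring
    rw [e1]; exact h1
  · have e1 : j - 2 + 3 = j + 1 := by ring
    rw [e1]; exact h2

end Gr

end Pool.Agent.Lib.MP06c549.T6H
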