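import Pool.Agent.Lib.MP_06c549_co.T6H.Step56
import Pool.Agent.Lib.MP_06c549_co.T6H.Par

/-!
# MP_06c549_co, T6H, constant 13: the inner neighbours have degree three, the remaining graph is
tight
-/

set_option autoImplicit false

namespace Pool.Agent.Lib.MP06c549.T6H

open Finset

namespace Gr

open S7a

variable {G : Gr} {o m : ℕ}

/-- the slack of a deletion without bought faces; the unusable faces in `B` count twice -/
theorem Cx.slack {a b c N m u : ℕ} (hG : Cx a b c N m u G) (hb : 2 * b ≤ c)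
    {W X₀ B : Finset ℕ} (hW : W ⊆ G.vs) (hFC : G.FC W u) (hX₀ : X₀ ⊆ G.vs)
    (hB : B ⊆ (G.tf W).erase u)
    (hcov : ∀ d ∈ G.tds W, G.p d ∈ X₀ ∨ G.q d ∈ X₀ ∨ G.l d ∈ (∅ : Finset ℕ) ∨
      G.r d ∈ (∅ : Finset ℕ)) :
    (G.del W u).pot a b c + a * W.card + 2 * a * G.ws (G.tds W) + b * B.card +
      b * (B ∩ G.us).card < N * (X₀.card + G.ws (G.tds W) + (G.del W u).tau) := by
  have hK := hG.cls.del hFC
  have h4 := cost_del (u := u) (S := ∅) (T := ∅) (Y₀ := ∅) hK.good (empty_subset _) hX₀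
    (empty_subset _) (empty_subset _) (by simpa using hcov)
  rw [nb_empty, fpr_empty] at h4
  have h5 := pot_del a b c hG.cls.good hG.cls.huc hW
  rw [cs_eq hG.nn] at h5
  have h6 : (B \ G.us).card ≤ (G.tf W \ G.us).card :=
    card_le_card (sdiff_subset_sdiff (fun i hi => (mem_erase.1 (hB hi)).2) (Subset.refl _))
  have h7 : (B ∩ G.us).card ≤ ((G.tf W ∩ G.us).erase u).card := card_le_card (by
    intro i hi
    obtain ⟨h8, h9⟩ := mem_inter.1 hi
    obtain ⟨h10, h11⟩ := mem_erase.1 (hB h8)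
    exact mem_erase.2 ⟨h10, mem_inter.2 ⟨h11, h9⟩⟩)
  have h8 : (B \ G.us).card + (B ∩ G.us).card = B.card := card_sdiff_add_card_inter B G.us
  have h9 := hG.bad
  unfold tau at h9 ⊢
  have h10 := Nat.mul_le_mul_left N h4
  have h11 := Nat.mul_le_mul_left b h6
  have h12 := Nat.mul_le_mul_right ((B ∩ G.us).card) hb
  have h13 := Nat.mul_le_mul_left c h7
  have h14 : N * (X₀.card + 0 + G.ws (G.tds W) + (G.del W u).cost ∅) =
    N * (X₀.card + G.ws (G.tds W) + (G.del W u).cost ∅) := by ring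
  rw [h14] at h10
  nlinarith

/-- the inner neighbour `b` of the outer vertex `x` has degree three: edges `g`, `l` (sides `F`,
`O`), `r` (sides `F'`, `O`) -/
structure Sp3 (G : Gr) (o x e g e' F F' b l r O : ℕ) : Prop where
  spk : G.Spk o x e g e' F F' b
  st : G.star b = {g, l, r}
  n1 : g ≠ l
  n2 : g ≠ r
  n3 : l ≠ r
  sl : G.S l F O
  sr : G.S r F' O
  o1 : O ≠ o
  o2 : O ≠ F
  o3 : O ≠ F'

lemma Sp3.symm {x e g e' F F' b l r O : ℕ} (h : G.Sp3 o x e g e' F F' b l r O) :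
    G.Sp3 o x e' g e F' F b r l O where
  spk := h.spk.symm
  st := by
    rw [h.st]
    ext i
    simp only [mem_insert, mem_singleton]
    tauto
  n1 := h.n2
  n2 := h.n1
  n3 := h.n3.symm
  sl := h.sr
  sr := h.sl
  o1 := h.o1
  o2 := h.o3
  o3 := h.o2

/-- the move `W = {x1, x0, x2, b1}` in the scale `7, 2, 4, 13` -/
theorem t1 (hM : Cx 7 2 4 13 m o G) (hP : G.P1)
    {x0 x1 x2 e0 e1 e2 e3 g0 g1 g2 F0 F1 F2 F3 b0 b1 b2 : ℕ}
    (h0 : G.Spk o x0 e0 g0 e1 F0 F1 b0) (h1 : G.Spk o x1 e1 g1 e2 F1 F2 b1)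
    (h2 : G.Spk o x2 e2 g2 e3 F2 F3 b2) (a1 : G.E e1 x0 x1) (a2 : G.E e2 x1 x2) (n02 : x0 ≠ x2)
    (f03 : F0 ≠ F3) (t0 : ¬ G.Touch b1 F0) (t3 : ¬ G.Touch b1 F3) :
    (∃ l r O, G.Sp3 o x1 e1 g1 e2 F1 F2 b1 l r O ∧ O ≠ F0 ∧ O ≠ F3 ∧ O ∉ G.us) ∧
      (F0 ∉ G.us ∧ F1 ∉ G.us ∧ F2 ∉ G.us ∧ F3 ∉ G.us) ∧
      G.ws (G.tds {x1, x0, x2, b1}) = 0 ∧
      (G.del {x1, x0, x2, b1} o).pot 7 2 4 = 13 * (G.del {x1, x0, x2, b1} o).tau := by
  have hgood := hM.cls.good
  have n01 : x0 ≠ x1 := a1.ne hgood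
  have n12 : x1 ≠ x2 := a2.ne hgood
  have u0 : G.Touch x0 o := h0.cub.tO
  have u1 : G.Touch x1 o := h1.cub.tO
  have u2 : G.Touch x2 o := h2.cub.tO
  have v0 := h0.cub.mv hgood
  have v1 := h1.cub.mv hgood
  have v2 := h2.cub.mv hgood
  have vb := h1.eb.symm.memv hgood
  have b0' : b1 ≠ x0 := h1.ne u0
  have b1' : b1 ≠ x1 := h1.ne u1
  have b2' : b1 ≠ x2 := h1.ne u2
  have hWv : ({x1, x0, x2, b1} : Finset ℕ) ⊆ G.vs := by
    intro v hv
    simp only [mem_insert, mem_singleton] at hv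
    rcases hv with rfl | rfl | rfl | rfl <;> assumption
  have hXv : ({x0, x2, b1} : Finset ℕ) ⊆ G.vs := by
    intro v hv
    simp only [mem_insert, mem_singleton] at hv
    rcases hv with rfl | rfl | rfl <;> assumption
  have hFC : G.FC {x1, x0, x2, b1} o := by
    have e1 : ({x1, x0, x2, b1} : Finset ℕ) = insert b1 {x1, x0, x2} := by
      ext v; simp only [mem_insert, mem_singleton]; tauto
    rw [e1]
    refine FC.insert_adj hgood ?_ (w := x1) (by simp) ⟨g1, h1.eb.symm⟩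
    exact ((FC_singleton hgood v2 u2).insert_out hgood v0 u0).insert_out hgood v1 u1
  have hcov : ∀ d ∈ G.tds {x1, x0, x2, b1}, G.p d ∈ ({x0, x2, b1} : Finset ℕ) ∨
      G.q d ∈ ({x0, x2, b1} : Finset ℕ) ∨ G.l d ∈ (∅ : Finset ℕ) ∨ G.r d ∈ (∅ : Finset ℕ) :=
    cover_of (by
      intro v hv hvX d hd
      simp only [mem_insert, mem_singleton] at hv hvX
      have hv' : v = x1 := by tauto
      subst hv'
      rw [h1.cub.st] at hd
      simp only [mem_insert, mem_singleton] at hd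
      rcases hd with rfl | rfl | rfl
      · exact end_mem a1.symm (by simp)
      · exact end_mem h1.eb (by simp)
      · exact end_mem a2 (by simp))
  have c1 : ({x1, x0, x2, b1} : Finset ℕ).card = 4 :=
    card4 n01.symm n12 b1'.symm n02 b0'.symm b2'.symm
  have c2 : ({x0, x2, b1} : Finset ℕ).card ≤ 3 := card_le_three
  -- the touched faces
  have hB : insert F0 (insert F3 (G.fv b1)) ⊆ (G.tf {x1, x0, x2, b1}).erase o := by
    intro i hi
    simp only [mem_insert] at hi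
    rcases hi with rfl | rfl | hi
    · exact mem_erase.2 ⟨h0.cub.f1, mem_tf_touch (v := x0) (by simp) h0.cub.tF⟩
    · exact mem_erase.2 ⟨h2.cub.f2, mem_tf_touch (v := x2) (by simp) h2.cub.tF'⟩
    · have h3 := mem_fv.1 hi
      refine mem_erase.2 ⟨?_, mem_tf_touch (v := b1) (by simp) h3⟩
      rintro rfl
      exact h1.nb h3
  have hBc : (insert F0 (insert F3 (G.fv b1))).card = (G.star b1).card + 2 := by
    rw [card_insert_of_notMem, card_insert_of_notMem, hP.card_fv hgood vb]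
    · rw [mem_fv]; exact t3
    · rw [mem_insert, mem_fv, not_or]; exact ⟨f03, t0⟩
  have key := hM.slack (by norm_num) hWv hFC hXv hB hcov
  have hdb := h1.db
  have hQ : (G.del {x1, x0, x2, b1} o).Cls o m := hM.cls.del hFC
  have hle : 13 * (G.del {x1, x0, x2, b1} o).tau ≤ (G.del {x1, x0, x2, b1} o).pot 7 2 4 := by
    refine hM.ih _ _ hQ ?_
    have h2 := del_card (u := o) hWv
    omega
  rw [c1, hBc] at key
  have e1 : (G.star b1).card = 3 ∧ G.ws (G.tds {x1, x0, x2, b1}) = 0 ∧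
      (insert F0 (insert F3 (G.fv b1)) ∩ G.us).card = 0 ∧
      (G.del {x1, x0, x2, b1} o).pot 7 2 4 = 13 * (G.del {x1, x0, x2, b1} o).tau := by
    omega
  obtain ⟨k1, k2, k3, k4⟩ := e1
  have hus : ∀ i ∈ insert F0 (insert F3 (G.fv b1)), i ∉ G.us := by
    intro i hi hiu
    have h3 := card_eq_zero.1 k3
    have h4 : i ∈ insert F0 (insert F3 (G.fv b1)) ∩ G.us := mem_inter.2 ⟨hi, hiu⟩
    rw [h3] at h4
    exact notMem_empty _ h4
  have mg : g1 ∈ G.star b1 := h1.eb.right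
  have h5 : ((G.star b1).erase g1).card = 2 := by rw [card_erase_of_mem mg, k1]
  obtain ⟨d2, d3, h23, hs⟩ := card_eq_two.1 h5
  have m2 : d2 ∈ (G.star b1).erase g1 := by rw [hs]; simp
  have m3 : d3 ∈ (G.star b1).erase g1 := by rw [hs]; simp
  have h12 : g1 ≠ d2 := (mem_erase.1 m2).1.symm
  have h13 : g1 ≠ d3 := (mem_erase.1 m3).1.symm
  have hst : G.star b1 = {g1, d2, d3} := by rw [← insert_erase mg, hs]
  have hst' : G.star b1 = {g1, d3, d2} := by
    rw [hst]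
    ext i
    simp only [mem_insert, mem_singleton]
    tauto
  obtain ⟨O, hO1, hO2, hO⟩ := S_deg3 hgood vb hst h12 h13 h23 h1.cub.sg h1.cub.f3
    (hP.lr d2 (star_sub (mem_erase.1 m2).2)) (hP.lr d3 (star_sub (mem_erase.1 m3).2))
  have hOt : G.Touch b1 O := by
    rcases hO with h | h
    · exact (h.1.touch (mem_erase.1 m2).2).2
    · exact (h.1.touch (mem_erase.1 m3).2).2
  have hOo : O ≠ o := by
    rintro rfl
    exact h1.nb hOt
  have hO0 : O ≠ F0 := by
    rintro rfl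
    exact t0 hOt
  have hO3 : O ≠ F3 := by
    rintro rfl
    exact t3 hOt
  have hOu : O ∉ G.us := hus O (mem_insert_of_mem (mem_insert_of_mem (mem_fv.2 hOt)))
  refine ⟨?_, ⟨hus _ (mem_insert_self _ _), hus _ (mem_insert_of_mem (mem_insert_of_mem
    (mem_fv.2 h1.bF))), hus _ (mem_insert_of_mem (mem_insert_of_mem (mem_fv.2 h1.bF'))),
    hus _ (mem_insert_of_mem (mem_insert_self _ _))⟩, k2, k4⟩
  rcases hO with h | h
  · exact ⟨d2, d3, O, ⟨h1, hst, h12, h13, h23, h.1, h.2, hOo, hO1, hO2⟩, hO0, hO3, hOu⟩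
  · exact ⟨d3, d2, O, ⟨h1, hst', h13, h12, h23.symm, h.1, h.2, hOo, hO1, hO2⟩, hO0, hO3, hOu⟩

end Gr

end Pool.Agent.Lib.MP06c549.T6H
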