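import Pool.Agent.Lib.MP_06c549_co.T6H.Step56
import Pool.Agent.Lib.MP_06c549_co.T6H.T1

/-!
# MP_06c549_co, T6H, constant 13: the outer cycle with inner neighbours of degree three
-/

set_option autoImplicit false

namespace Pool.Agent.Lib.MP06c549.T6H

open Finset

namespace Gr

variable {G : Gr} {o m k : ℕ} {x e g F b l r O : ℤ → ℕ}

lemma S.cases {d i j i' j' : ℕ} (h : G.S d i j) (h' : G.S d i' j') :
    (i' = i ∧ j' = j) ∨ (i' = j ∧ j' = i) := by
  rcases h with ⟨h1, h2⟩ | ⟨h1, h2⟩ <;> rcases h' with ⟨h3, h4⟩ | ⟨h3, h4⟩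
  · exact Or.inl ⟨h3.symm.trans h1, h4.symm.trans h2⟩
  · exact Or.inr ⟨h4.symm.trans h2, h3.symm.trans h1⟩
  · exact Or.inr ⟨h3.symm.trans h1, h4.symm.trans h2⟩
  · exact Or.inl ⟨h4.symm.trans h2, h3.symm.trans h1⟩

namespace Sp3

variable {x e g e' F F' b l r O : ℕ}

lemma tO (h : G.Sp3 o x e g e' F F' b l r O) : G.Touch b O :=
  (h.sl.touch (d := l) (v := b) (by rw [h.st]; simp)).2

lemma ml (h : G.Sp3 o x e g e' F F' b l r O) : l ∈ G.star b := by rw [h.st]; simp

lemma mr (h : G.Sp3 o x e g e' F F' b l r O) : r ∈ G.star b := by rw [h.st]; simp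

/-- the faces at `b` -/
lemma touch (h : G.Sp3 o x e g e' F F' b l r O) {i : ℕ} (hi : G.Touch b i) :
    i = F ∨ i = F' ∨ i = O := by
  obtain ⟨d, hd, h1⟩ := hi
  rw [h.st] at hd
  simp only [mem_insert, mem_singleton] at hd
  rcases hd with rfl | rfl | rfl
  · rcases h.spk.cub.sg.side h1 with h2 | h2
    · exact Or.inl h2
    · exact Or.inr (Or.inl h2)
  · rcases h.sl.side h1 with h2 | h2
    · exact Or.inl h2
    · exact Or.inr (Or.inr h2)
  · rcases h.sr.side h1 with h2 | h2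
    · exact Or.inr (Or.inl h2)
    · exact Or.inr (Or.inr h2)

lemma unique (h : G.Sp3 o x e g e' F F' b l r O) {l' r' O' : ℕ}
    (h' : G.Sp3 o x e g e' F F' b l' r' O') : l' = l ∧ r' = r ∧ O' = O := by
  have h1 : O' = O := by
    rcases h.touch h'.tO with h2 | h2 | h2
    · exact absurd h2 h'.o2
    · exact absurd h2 h'.o3
    · exact h2
  subst h1
  have key : ∀ d, d ∈ G.star b → G.S d F O' → d = l := by
    intro d hd hS
    rw [h.st] at hd
    simp only [mem_insert, mem_singleton] at hd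
    rcases hd with rfl | rfl | rfl
    · rcases h.spk.cub.sg.cases hS with h2 | h2
      · exact absurd h2.2 h.o3
      · exact absurd h2.2 h.o2
    · rfl
    · rcases h.sr.cases hS with h2 | h2
      · exact absurd h2.1 h.spk.cub.f3
      · exact absurd h2.1 h.o2.symm
  have key2 : ∀ d, d ∈ G.star b → G.S d F' O' → d = r := by
    intro d hd hS
    rw [h.st] at hd
    simp only [mem_insert, mem_singleton] at hd
    rcases hd with rfl | rfl | rfl
    · rcases h.spk.cub.sg.cases hS with h2 | h2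
      · exact absurd h2.2 h.o3
      · exact absurd h2.2 h.o2
    · rcases h.sl.cases hS with h2 | h2
      · exact absurd h2.1.symm h.spk.cub.f3
      · exact absurd h2.1 h.o3.symm
    · rfl
  exact ⟨key _ h'.ml h'.sl, key2 _ h'.mr h'.sr, rfl⟩

end Sp3

/-- the outer cycle, `k ≥ 5`, after the move `T1`: the inner neighbour `b i` has the edges `g i`,
`l i` (sides `F (i - 1)`, `O i`), `r i` (sides `F i`, `O i`) -/
structure Ring3 (G : Gr) (m o k : ℕ) (x e g F b l r O : ℤ → ℕ) : Prop where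
  cx : Cx 7 2 4 13 m o G
  p1 : G.P1
  ring : G.Ring o k x e g F b
  k5 : 5 ≤ k
  sp : ∀ i, G.Sp3 o (x i) (e (i - 1)) (g i) (e i) (F (i - 1)) (F i) (b i) (l i) (r i) (O i)
  om : ∀ i, O i ≠ F (i - 2)
  op : ∀ i, O i ≠ F (i + 1)
  uF : ∀ i, F i ∉ G.us
  uO : ∀ i, O i ∉ G.us
  w0 : ∀ i, ∀ d, (d ∈ G.star (x i) ∨ d ∈ G.star (b i)) → G.w d = 0
  ib : ∀ i j, b i = b j → (k : ℤ) ∣ j - i
  tight : ∀ i, (G.del {x i, x (i - 1), x (i + 1), b i} o).pot 7 2 4 =
    13 * (G.del {x i, x (i - 1), x (i + 1), b i} o).tau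
  J : ∀ i v, G.Touch v (F (i - 1)) → G.Touch v (F i) → v = x i ∨ v = b i

namespace Ring3

variable (h : G.Ring3 m o k x e g F b l r O)

include h

lemma good : G.Good := h.cx.cls.good

lemma sl (i : ℤ) : G.S (l i) (F (i - 1)) (O i) := (h.sp i).sl

lemma sr (i : ℤ) : G.S (r i) (F i) (O i) := (h.sp i).sr

lemma star_b (i : ℤ) : G.star (b i) = {g i, l i, r i} := (h.sp i).st

lemma Oo (i : ℤ) : O i ≠ o := (h.sp i).o1

lemma bne {i j : ℤ} (h1 : i < j) (h2 : j < i + k) : b i ≠ b j :=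
  fun h3 => not_dvd_of_lt (by omega) (by omega) (h.ib i j h3)

/-- the faces at `b i` -/
lemma touch_b {i : ℤ} {j : ℕ} (hj : G.Touch (b i) j) : j = F (i - 1) ∨ j = F i ∨ j = O i :=
  (h.sp i).touch hj

lemma pl (i : ℤ) : l (i + k) = l i := by
  have h1 := h.sp (i + k)
  have h2 : i + (k : ℤ) - 1 = i - 1 + k := by ring
  rw [h2, h.ring.px, h.ring.pe, h.ring.pe, h.ring.pg, h.ring.pF, h.ring.pF, h.ring.pb] at h1
  exact ((h.sp i).unique h1).1

lemma pr (i : ℤ) : r (i + k) = r i := by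
  have h1 := h.sp (i + k)
  have h2 : i + (k : ℤ) - 1 = i - 1 + k := by ring
  rw [h2, h.ring.px, h.ring.pe, h.ring.pe, h.ring.pg, h.ring.pF, h.ring.pF, h.ring.pb] at h1
  exact ((h.sp i).unique h1).2.1

lemma pO (i : ℤ) : O (i + k) = O i := by
  have h1 := h.sp (i + k)
  have h2 : i + (k : ℤ) - 1 = i - 1 + k := by ring
  rw [h2, h.ring.px, h.ring.pe, h.ring.pe, h.ring.pg, h.ring.pF, h.ring.pF, h.ring.pb] at h1
  exact ((h.sp i).unique h1).2.2

/-- the mirror image -/
lemma symm : G.Ring3 m o k (fun i => x (-i)) (fun i => e (-i - 1)) (fun i => g (-i))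
    (fun i => F (-i - 1)) (fun i => b (-i)) (fun i => r (-i)) (fun i => l (-i))
    (fun i => O (-i)) where
  cx := h.cx
  p1 := h.p1
  ring := h.ring.symm
  k5 := h.k5
  sp := by
    intro i
    have h1 := (h.sp (-i)).symm
    have h2 : -(i - 1) - 1 = -i := by ring
    simp only [h2]
    exact h1
  om := by
    intro i
    have h1 := h.op (-i)
    have h2 : -(i - 2) - 1 = -i + 1 := by ring
    simp only [h2]
    exact h1
  op := by
    intro i
    have h1 := h.om (-i)
    have h2 : -(i + 1) - 1 = -i - 2 := by ring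
    simp only [h2]
    exact h1
  uF := fun i => h.uF _
  uO := fun i => h.uO _
  w0 := fun i => h.w0 _
  ib := fun i j hij => by
    have h1 := h.ib _ _ hij
    have h2 : -j - -i = -(j - i) := by ring
    rw [h2] at h1
    exact (dvd_neg).1 h1
  tight := by
    intro i
    have h1 := h.tight (-i)
    have h2 : -(i - 1) = -i + 1 := by ring
    have h3 : -(i + 1) = -i - 1 := by ring
    have h4 : ({x (-i), x (-i + 1), x (-i - 1), b (-i)} : Finset ℕ) =
        {x (-i), x (-i - 1), x (-i + 1), b (-i)} := by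
      ext v
      simp only [mem_insert, mem_singleton]
      tauto
    simp only [h2, h3, h4]
    exact h1
  J := by
    intro i v hv hv'
    have h2 : -(i - 1) - 1 = -i := by ring
    simp only [h2] at hv
    exact h.J (-i) v hv' hv

end Ring3

/-- the outer cycle after `T1` -/
theorem exists_ring3 (hM : Cx 7 2 4 13 m o G) (h1 : G.P1) (hR : G.Ring o k x e g F b)
    (hk : 5 ≤ k) (hT : ∀ i, b i ≠ b (i + 1))
    (hJ : ∀ i v, G.Touch v (F (i - 1)) → G.Touch v (F i) → v = x i ∨ v = b i) :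
    ∃ l r O, G.Ring3 m o k x e g F b l r O := by
  have hG := hM.cls.good
  have hm : ∀ i : ℤ, i - 1 - 1 = i - 2 := fun i => by ring
  have hmm : ∀ i : ℤ, i - 1 + 1 = i := fun i => by ring
  have hpp : ∀ i : ℤ, i + 1 - 1 = i := fun i => by ring
  -- `b i` is not at the neighbouring faces
  have hp : ∀ i, ¬ G.Touch (b i) (F (i + 1)) := by
    intro i ht
    have h3 := hJ (i + 1) (b i) (by rw [hpp]; exact (hR.spk i).bF') ht
    rcases h3 with h3 | h3
    · exact hR.bx _ _ h3
    · exact hT i h3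
  have hn : ∀ i, ¬ G.Touch (b i) (F (i - 2)) := by
    intro i ht
    have h3 := hJ (i - 1) (b i) (by rw [hm]; exact ht) (hR.spk i).bF
    rcases h3 with h3 | h3
    · exact hR.bx _ _ h3
    · have h4 := hT (i - 1)
      rw [hmm] at h4
      exact h4 h3.symm
  have key : ∀ i, (∃ l r O, G.Sp3 o (x i) (e (i - 1)) (g i) (e i) (F (i - 1)) (F i) (b i) l r O ∧
      O ≠ F (i - 2) ∧ O ≠ F (i + 1) ∧ O ∉ G.us) ∧ F i ∉ G.us ∧
      G.ws (G.tds {x i, x (i - 1), x (i + 1), b i}) = 0 ∧
      (G.del {x i, x (i - 1), x (i + 1), b i} o).pot 7 2 4 =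
        13 * (G.del {x i, x (i - 1), x (i + 1), b i} o).tau := by
    intro i
    have s0 := hR.spk (i - 1)
    have s1 := hR.spk i
    have s2 := hR.spk (i + 1)
    rw [hm] at s0
    rw [hpp] at s2
    have a1 := hR.adj (i - 1)
    rw [hmm] at a1
    have h3 := t1 hM h1 s0 s1 s2 a1 (hR.adj i) (hR.xne (by omega) (by omega))
      (hR.Fne (by omega) (by omega)) (hn i) (hp i)
    exact ⟨h3.1, h3.2.1.2.2.1, h3.2.2⟩
  choose l r O hO using fun i => (key i).1
  have hw : ∀ i, ∀ d, (d ∈ G.star (x i) ∨ d ∈ G.star (b i)) → G.w d = 0 := by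
    intro i d hd
    have h3 := (key i).2.2.1
    rw [ws, sum_eq_zero_iff] at h3
    refine h3 d ?_
    rcases hd with hd | hd
    · exact star_sub_tds (by simp) hd
    · exact star_sub_tds (by simp) hd
  refine ⟨l, r, O, hM, h1, hR, hk, fun i => (hO i).1, fun i => (hO i).2.1, fun i => (hO i).2.2.1,
    fun i => (key i).2.1, fun i => (hO i).2.2.2, hw, ?_, fun i => (key i).2.2.2, hJ⟩
  -- injectivity
  intro i j hij
  by_contra hnd
  have h3 : G.Touch (b i) (F (j - 1)) := by rw [hij]; exact (hR.spk j).bF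
  have h4 : G.Touch (b i) (F j) := by rw [hij]; exact (hR.spk j).bF'
  have h5 : F (j - 1) ≠ F (i - 1) := by
    intro h6
    have h7 := hR.iF _ _ h6
    have h8 : j - i = -(i - 1 - (j - 1)) := by ring
    rw [h8, dvd_neg] at hnd
    exact hnd h7
  have h6 : F j ≠ F i := by
    intro h6
    have h7 := hR.iF _ _ h6
    have h8 : j - i = -(i - j) := by ring
    rw [h8, dvd_neg] at hnd
    exact hnd h7
  have h7 : F (j - 1) ≠ F i := by
    intro h7
    -- then `F j = F (i + 1)`
    have h8 := hR.iF _ _ h7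
    have h9 : F j = F (i + 1) := Ring.per hR.pF (by
      have h10 : i + 1 - j = i - (j - 1) := by ring
      rw [h10]
      exact h8)
    rw [h9] at h4
    exact hp i h4
  have h8 : F j ≠ F (i - 1) := by
    intro h8
    have h9 := hR.iF _ _ h8
    have h10 : F (j - 1) = F (i - 2) := Ring.per hR.pF (by
      have h11 : i - 2 - (j - 1) = i - 1 - j := by ring
      rw [h11]
      exact h9)
    rw [h10] at h3
    exact hn i h3
  rcases (hO i).1.touch h3 with h9 | h9 | h9
  · exact h5 h9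
  · exact h7 h9
  · rcases (hO i).1.touch h4 with h10 | h10 | h10
    · exact h8 h10
    · exact h6 h10
    · exact (hR.spk j).cub.f3 (h9.trans h10.symm)

end Gr

end Pool.Agent.Lib.MP06c549.T6H
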