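import Pool.Agent.Lib.MP_06c549_co.T6H.Base
import Pool.Agent.Lib.MP_06c549_co.T6H.Inst
import Pool.Agent.Lib.MP_06c549_co.T6H.Loc

section
/-!
# MP_06c549_co, T6H: cuts

Duality between even edge functions and cuts, edge cuts from sets of edges which meet every face
evenly, linked sets of faces, the number of faces at a vertex.
-/
set_option autoImplicit false

namespace Pool.Agent.Lib.MP06c549.T6H

open Finset

namespace Gr

variable {G : Gr}

/-- the graph is connected -/
def Conn (G : Gr) : Prop :=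
  ∀ f : ℕ → ZMod 2, (∀ d ∈ G.ds, f (G.p d) = f (G.q d)) → ∀ v ∈ G.vs, ∀ w ∈ G.vs, f v = f w

/-- `T` meets every face an even number of times -/
def Ev (G : Gr) (T : Finset ℕ) : Prop := ∀ x : ℕ → ZMod 2, ∑ d ∈ T, (x (G.l d) + x (G.r d)) = 0

/-- `v` is not a cut vertex -/
def NCV (G : Gr) (v : ℕ) : Prop := ∀ T ⊆ G.star v, G.Ev T → T = ∅ ∨ T = G.star v

/-- the face `i` occurs at `v` -/
def Touch (G : Gr) (v i : ℕ) : Prop := ∃ d ∈ G.star v, G.l d = i ∨ G.r d = i

lemma zmod2 (a : ZMod 2) : a = 0 ∨ a = 1 := by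
  revert a
  decide

lemma sum_star (hG : G.Good) (f z : ℕ → ZMod 2) :
    ∑ v ∈ G.vs, f v * ∑ d ∈ G.star v, z d = ∑ d ∈ G.ds, (f (G.p d) + f (G.q d)) * z d := by
  have h1 : ∀ v ∈ G.vs, f v * ∑ d ∈ G.star v, z d =
      ∑ d ∈ G.ds, (if G.p d = v ∨ G.q d = v then f v * z d else 0) := by
    intro v _
    rw [star, sum_filter, mul_sum]
    refine sum_congr rfl fun d _ => ?_
    split_ifs <;> simp
  rw [sum_congr rfl h1, sum_comm]
  refine sum_congr rfl fun d hd => ?_
  have hne := hG.ne d hd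
  have h2 : ∀ v ∈ G.vs, (if G.p d = v ∨ G.q d = v then f v * z d else 0) =
      (if G.p d = v then f v * z d else 0) + (if G.q d = v then f v * z d else 0) := by
    intro v _
    by_cases h1 : G.p d = v
    · have h3 : G.q d ≠ v := fun h => hne (h1.trans h.symm)
      simp [h1, h3]
    · by_cases h3 : G.q d = v
      · simp [h1, h3]
      · simp [h1, h3]
  rw [sum_congr rfl h2, sum_add_distrib, sum_ite_eq, sum_ite_eq, if_pos (hG.ends d hd).1,
    if_pos (hG.ends d hd).2, add_mul]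

/-- the boundary of a single edge -/
lemma sum_single (hG : G.Good) {d₀ : ℕ} (hd : d₀ ∈ G.ds) (v : ℕ) :
    ∑ d ∈ G.star v, (if d = d₀ then (1 : ZMod 2) else 0) =
      (if v = G.p d₀ then 1 else 0) + (if v = G.q d₀ then 1 else 0) := by
  rw [sum_ite_eq']
  have hne := hG.ne d₀ hd
  by_cases h1 : v = G.p d₀
  · subst h1
    rw [if_pos (mem_star.2 ⟨hd, Or.inl rfl⟩), if_pos rfl, if_neg hne, add_zero]
  · by_cases h2 : v = G.q d₀
    · subst h2
      rw [if_pos (mem_star.2 ⟨hd, Or.inr rfl⟩), if_neg h1, if_pos rfl, zero_add]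
    · rw [if_neg, if_neg h1, if_neg h2, add_zero]
      intro h
      rcases (mem_star.1 h).2 with h | h
      · exact h1 h.symm
      · exact h2 h.symm

/-- either `a` and `b` are joined by a path in `A`, or they are separated -/
theorem dicho (hG : G.Good) {A : Finset ℕ} (hA : A ⊆ G.ds) (a b : ℕ) :
    (∃ z : ℕ → ZMod 2, (∀ d, d ∉ A → z d = 0) ∧
      ∀ v, ∑ d ∈ G.star v, z d = (if v = a then 1 else 0) + (if v = b then 1 else 0)) ∨
    (∃ c : ℕ → ZMod 2, (∀ d ∈ A, c (G.p d) = c (G.q d)) ∧ c a ≠ c b) := by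
  classical
  let R : ℕ → ℕ → Prop := fun x y => ∃ d ∈ A, (G.p d = x ∧ G.q d = y) ∨ (G.q d = x ∧ G.p d = y)
  by_cases h : Relation.ReflTransGen R a b
  · left
    induction h with
    | refl =>
      refine ⟨fun _ => 0, fun _ _ => rfl, fun v => ?_⟩
      rw [sum_const_zero]
      exact (CharTwo.add_self_eq_zero _).symm
    | tail _ hbc ih =>
      obtain ⟨z, hz0, hz⟩ := ih
      obtain ⟨d₀, hd₀, hd⟩ := hbc
      refine ⟨fun d => z d + (if d = d₀ then 1 else 0), fun d hd' => ?_, fun v => ?_⟩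
      · have h1 : d ≠ d₀ := fun h => hd' (h ▸ hd₀)
        simp only [hz0 d hd', if_neg h1, add_zero]
      · rw [sum_add_distrib, hz v, sum_single hG (hA hd₀)]
        rcases hd with ⟨rfl, rfl⟩ | ⟨rfl, rfl⟩
        · rw [add_assoc, ← add_assoc (if v = G.p d₀ then (1 : ZMod 2) else 0),
            CharTwo.add_self_eq_zero, zero_add]
        · rw [add_assoc, add_comm (if v = G.p d₀ then (1 : ZMod 2) else 0),
            ← add_assoc (if v = G.q d₀ then (1 : ZMod 2) else 0), CharTwo.add_self_eq_zero,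
            zero_add]
  · right
    refine ⟨fun v => if Relation.ReflTransGen R a v then 1 else 0, fun d hd => ?_, ?_⟩
    · have h1 : Relation.ReflTransGen R a (G.p d) ↔ Relation.ReflTransGen R a (G.q d) :=
        ⟨fun h => h.tail ⟨d, hd, Or.inl ⟨rfl, rfl⟩⟩, fun h => h.tail ⟨d, hd, Or.inr ⟨rfl, rfl⟩⟩⟩
      simp only [h1]
    · simp only [if_neg h, if_pos Relation.ReflTransGen.refl]
      exact one_ne_zero

/-- a function orthogonal to all even functions is a coboundary -/
theorem dual (hG : G.Good) (y : ℕ → ZMod 2)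
    (hy : ∀ z : ℕ → ZMod 2, (∀ v ∈ G.vs, ∑ d ∈ G.star v, z d = 0) → ∑ d ∈ G.ds, y d * z d = 0) :
    ∃ f : ℕ → ZMod 2, ∀ d ∈ G.ds, y d = f (G.p d) + f (G.q d) := by
  classical
  have key : ∀ A : Finset ℕ, A ⊆ G.ds →
      ∃ f : ℕ → ZMod 2, ∀ d ∈ A, y d = f (G.p d) + f (G.q d) := by
    intro A
    induction A using Finset.induction_on with
    | empty => intro _; exact ⟨fun _ => 0, fun d hd => absurd hd (notMem_empty d)⟩
    | insert d₀ A hd₀ ih =>
      intro hA
      have hA' : A ⊆ G.ds := fun d hd => hA (mem_insert_of_mem hd)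
      have hd₀' : d₀ ∈ G.ds := hA (mem_insert_self _ _)
      obtain ⟨f, hf⟩ := ih hA'
      by_cases h0 : y d₀ = f (G.p d₀) + f (G.q d₀)
      · refine ⟨f, fun d hd => ?_⟩
        rcases mem_insert.1 hd with rfl | hd
        · exact h0
        · exact hf d hd
      rcases dicho hG hA' (G.p d₀) (G.q d₀) with ⟨z, hz0, hz⟩ | ⟨c, hc, hcne⟩
      · exfalso
        apply h0
        have h1 := hy (fun d => z d + if d = d₀ then 1 else 0) (fun v _ => by
          rw [sum_add_distrib, hz v, sum_single hG hd₀']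
          exact CharTwo.add_self_eq_zero _)
        have h2 : ∑ d ∈ G.ds, y d * z d = f (G.p d₀) + f (G.q d₀) := by
          have h3 : ∑ d ∈ G.ds, y d * z d = ∑ d ∈ G.ds, (f (G.p d) + f (G.q d)) * z d := by
            refine sum_congr rfl fun d _ => ?_
            by_cases hdA : d ∈ A
            · rw [hf d hdA]
            · rw [hz0 d hdA, mul_zero, mul_zero]
          rw [h3, ← sum_star hG, sum_congr rfl (fun v _ => by rw [hz v])]
          simp only [mul_add, sum_add_distrib, mul_ite, mul_one, mul_zero]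
          rw [sum_ite_eq', sum_ite_eq', if_pos (hG.ends d₀ hd₀').1, if_pos (hG.ends d₀ hd₀').2]
        simp only [mul_add, sum_add_distrib, mul_ite, mul_one, mul_zero] at h1
        rw [h2, sum_ite_eq', if_pos hd₀'] at h1
        exact (CharTwo.add_eq_zero.1 h1).symm
      · refine ⟨fun v => f v + c v, fun d hd => ?_⟩
        rcases mem_insert.1 hd with rfl | hd
        · have h1 : y d = f (G.p d) + f (G.q d) + 1 := by
            rcases zmod2 (y d) with h | h <;> rcases zmod2 (f (G.p d) + f (G.q d)) with h' | h'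
            · exact absurd (h.trans h'.symm) h0
            · rw [h, h']; decide
            · rw [h, h']; decide
            · exact absurd (h.trans h'.symm) h0
          have h2 : c (G.p d) + c (G.q d) = 1 := by
            rcases zmod2 (c (G.p d)) with h | h <;> rcases zmod2 (c (G.q d)) with h' | h'
            · exact absurd (h.trans h'.symm) hcne
            · rw [h, h']; decide
            · rw [h, h']; decide
            · exact absurd (h.trans h'.symm) hcne
          rw [h1, ← h2]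
          ring
        · show y d = f (G.p d) + c (G.p d) + (f (G.q d) + c (G.q d))
          rw [hf d hd, ← hc d hd]
          have := CharTwo.add_self_eq_zero (c (G.p d))
          linear_combination -this
  exact key G.ds Subset.rfl

/-- a set of edges meeting every face evenly is a cut -/
theorem cut_of_ev (hG : G.Good) {K : Finset ℕ} (hK : K ⊆ G.ds) (h : G.Ev K) :
    ∃ c : ℕ → ZMod 2, ∀ d ∈ G.ds, c (G.p d) + c (G.q d) = if d ∈ K then 1 else 0 := by
  classical
  obtain ⟨f, hf⟩ := dual hG (fun d => if d ∈ K then 1 else 0) (by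
    intro z hz
    obtain ⟨x, hx⟩ := hG.exact z hz
    have h2 : ∀ d ∈ G.ds, (if d ∈ K then (1 : ZMod 2) else 0) * z d =
        if d ∈ K then x (G.l d) + x (G.r d) else 0 := by
      intro d hd
      split_ifs
      · rw [one_mul, hx d hd]
      · rw [zero_mul]
    rw [sum_congr rfl h2, ← sum_filter, filter_mem_eq_inter, inter_eq_right.2 hK]
    exact h x)
  exact ⟨f, fun d hd => (hf d hd).symm⟩

/-- the faces at a vertex are linked -/
lemma link' (hG : G.Good) {v : ℕ} (hv : v ∈ G.vs) {x : ℕ → ZMod 2}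
    (hx : ∀ d ∈ G.star v, x (G.l d) = x (G.r d)) {i j : ℕ} (hi : G.Touch v i)
    (hj : G.Touch v j) : x i = x j := by
  obtain ⟨d, hd, h1⟩ := hi
  obtain ⟨e, he, h2⟩ := hj
  have h3 := hG.link v hv x hx d hd e he
  rcases h1 with rfl | rfl <;> rcases h2 with rfl | rfl
  · exact h3
  · rw [h3, hx e he]
  · rw [← hx d hd, h3]
  · rw [← hx d hd, h3, hx e he]

lemma mem_tf_single {v i : ℕ} : i ∈ G.tf {v} ↔ G.Touch v i := by
  rw [mem_tf]
  constructor
  · rintro ⟨d, hd, h⟩
    refine ⟨d, ?_, h⟩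
    rw [mem_tds, mem_singleton, mem_singleton] at hd
    exact mem_star.2 hd
  · rintro ⟨d, hd, h⟩
    refine ⟨d, ?_, h⟩
    rw [mem_tds, mem_singleton, mem_singleton]
    exact mem_star.1 hd

lemma tf_insert {v : ℕ} {W : Finset ℕ} {i : ℕ} :
    i ∈ G.tf (insert v W) ↔ G.Touch v i ∨ i ∈ G.tf W := by
  rw [mem_tf, mem_tf]
  constructor
  · rintro ⟨d, hd, h⟩
    rw [mem_tds, mem_insert, mem_insert] at hd
    by_cases h1 : G.p d = v ∨ G.q d = v
    · exact Or.inl ⟨d, mem_star.2 ⟨hd.1, h1⟩, h⟩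
    · refine Or.inr ⟨d, mem_tds.2 ⟨hd.1, ?_⟩, h⟩
      rcases hd.2 with (h2 | h2) | (h2 | h2)
      · exact absurd (Or.inl h2) h1
      · exact Or.inl h2
      · exact absurd (Or.inr h2) h1
      · exact Or.inr h2
  · rintro (⟨d, hd, h⟩ | ⟨d, hd, h⟩)
    · refine ⟨d, ?_, h⟩
      exact star_sub_tds (mem_insert_self _ _) hd
    · refine ⟨d, ?_, h⟩
      rw [mem_tds] at hd ⊢
      exact ⟨hd.1, hd.2.imp (fun h => mem_insert_of_mem h) (fun h => mem_insert_of_mem h)⟩

lemma FC_empty (u : ℕ) : G.FC ∅ u := by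
  intro x _ i hi
  obtain ⟨d, hd, _⟩ := mem_tf.1 hi
  rw [mem_tds] at hd
  rcases hd.2 with h | h <;> exact absurd h (notMem_empty _)

/-- linked sets grow along edges -/
lemma FC_insert (hG : G.Good) {W : Finset ℕ} {u v : ℕ} (hW : G.FC W u) (hv : v ∈ G.vs)
    (h : G.star v = ∅ ∨ G.Touch v u ∨ ∃ d ∈ G.star v, d ∈ G.tds W) : G.FC (insert v W) u := by
  intro x hx
  have h1 : ∀ d ∈ G.tds W, x (G.l d) = x (G.r d) := by
    intro d hd
    refine hx d ?_
    rw [mem_tds] at hd ⊢
    exact ⟨hd.1, hd.2.imp (fun h => mem_insert_of_mem h) (fun h => mem_insert_of_mem h)⟩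
  have h2 : ∀ d ∈ G.star v, x (G.l d) = x (G.r d) :=
    fun d hd => hx d (star_sub_tds (mem_insert_self _ _) hd)
  have h3 := hW x h1
  intro i hi
  rcases tf_insert.1 hi with h4 | h4
  · rcases h with h | h | ⟨d, hd, hdW⟩
    · obtain ⟨d, hd, _⟩ := h4
      rw [h] at hd
      exact absurd hd (notMem_empty _)
    · exact link' hG hv h2 h4 h
    · rw [← h3 _ (l_mem_tf hdW)]
      exact link' hG hv h2 h4 ⟨d, hd, Or.inl rfl⟩
  · exact h3 i h4

lemma FC_single (hG : G.Good) {u v : ℕ} (hv : v ∈ G.vs) (h : G.star v = ∅ ∨ G.Touch v u) :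
    G.FC {v} u := by
  have := FC_insert hG (FC_empty u) hv (h.imp_right Or.inl)
  simpa using this

/-- one side of a cut all of whose edges have the side `u` is linked to `u` -/
theorem FC_side (hG : G.Good) (hc : G.Conn) {W : Finset ℕ} {u w₀ : ℕ} (hW : W ⊆ G.vs)
    (hw₀ : w₀ ∈ G.vs) (hw₀' : w₀ ∉ W)
    (h : ∀ d ∈ G.ds, (G.p d ∈ W ↔ G.q d ∉ W) → G.l d = u ∨ G.r d = u) : G.FC W u := by
  classical
  intro x hx
  let g : ℕ → ZMod 2 := fun v => if h : (G.star v).Nonempty then x (G.l h.choose) else x u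
  have hg : ∀ v ∈ W, ∀ i, G.Touch v i → x i = g v := by
    intro v hv i hi
    have hne : (G.star v).Nonempty := by
      obtain ⟨d, hd, _⟩ := hi
      exact ⟨d, hd⟩
    simp only [g, dif_pos hne]
    exact link' hG (hW hv) (fun d hd => hx d (star_sub_tds hv hd)) hi
      ⟨hne.choose, hne.choose_spec, Or.inl rfl⟩
  have key := hc (fun v => if v ∈ W then g v + x u else 0) (by
    intro d hd
    by_cases h1 : G.p d ∈ W <;> by_cases h2 : G.q d ∈ W
    · simp only [if_pos h1, if_pos h2]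
      rw [← hg _ h1 (G.l d) ⟨d, mem_star.2 ⟨hd, Or.inl rfl⟩, Or.inl rfl⟩,
        ← hg _ h2 (G.l d) ⟨d, mem_star.2 ⟨hd, Or.inr rfl⟩, Or.inl rfl⟩]
    · simp only [if_pos h1, if_neg h2]
      rw [← hg _ h1 u ⟨d, mem_star.2 ⟨hd, Or.inl rfl⟩, h d hd ⟨fun _ => h2, fun _ => h1⟩⟩]
      exact CharTwo.add_self_eq_zero _
    · simp only [if_neg h1, if_pos h2]
      rw [← hg _ h2 u ⟨d, mem_star.2 ⟨hd, Or.inr rfl⟩,
        h d hd ⟨fun h => absurd h h1, fun h => absurd h2 h⟩⟩]
      exact (CharTwo.add_self_eq_zero _).symm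
    · simp only [if_neg h1, if_neg h2])
  intro i hi
  obtain ⟨d, hd, hdi⟩ := mem_tf.1 hi
  rw [mem_tds] at hd
  have key2 : ∀ v ∈ W, g v = x u := by
    intro v hv
    have := key v (hW hv) w₀ hw₀
    simp only [if_pos hv, if_neg hw₀'] at this
    exact CharTwo.add_eq_zero.1 this
  rcases hd.2 with h1 | h1
  · rw [hg _ h1 i ⟨d, mem_star.2 ⟨hd.1, Or.inl rfl⟩, hdi⟩, key2 _ h1]
  · rw [hg _ h1 i ⟨d, mem_star.2 ⟨hd.1, Or.inr rfl⟩, hdi⟩, key2 _ h1]

/-! ## Faces at a vertex -/

/-- the faces at `v` -/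
def fv (G : Gr) (v : ℕ) : Finset ℕ := G.tf {v}

lemma mem_fv {v i : ℕ} : i ∈ G.fv v ↔ G.Touch v i := mem_tf_single

/-- a vertex which is not a cut vertex touches at least as many faces as edges -/
theorem deg_le (G : Gr) {v : ℕ} (h : G.NCV v) : (G.star v).card ≤ (G.fv v).card := by
  classical
  rcases (G.star v).eq_empty_or_nonempty with h0 | ⟨d₀, hd₀⟩
  · rw [h0, card_empty]
    exact Nat.zero_le _
  have hi₀ : G.l d₀ ∈ G.fv v := mem_fv.2 ⟨d₀, hd₀, Or.inl rfl⟩
  -- the parity vector of a set of edges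
  let P : Finset ℕ → Finset ℕ := fun T =>
    ((G.fv v).erase (G.l d₀)).filter fun i =>
      ∑ d ∈ T, ((if G.l d = i then (1 : ZMod 2) else 0) + if G.r d = i then 1 else 0) = 1
  have hinj : Set.InjOn P (((G.star v).erase d₀).powerset : Set (Finset ℕ)) := by
    intro T₁ h1 T₂ h2 hP
    rw [mem_coe, mem_powerset] at h1 h2
    have hT₁ : T₁ ⊆ G.star v := h1.trans (erase_subset _ _)
    have hT₂ : T₂ ⊆ G.star v := h2.trans (erase_subset _ _)
    have hsd : symmDiff T₁ T₂ ⊆ (G.star v).erase d₀ := by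
      intro d hd
      rcases mem_symmDiff.1 hd with h | h
      · exact h1 h.1
      · exact h2 h.1
    have hsum : ∀ φ : ℕ → ZMod 2, ∑ d ∈ symmDiff T₁ T₂, φ d = ∑ d ∈ T₁, φ d + ∑ d ∈ T₂, φ d := by
      intro φ
      have e1 : ∑ d ∈ symmDiff T₁ T₂, φ d = ∑ d ∈ T₁ \ T₂, φ d + ∑ d ∈ T₂ \ T₁, φ d := by
        rw [symmDiff_def, sup_eq_union, sum_union]
        exact disjoint_sdiff_sdiff
      have e2 : ∑ d ∈ T₁, φ d = ∑ d ∈ T₁ \ T₂, φ d + ∑ d ∈ T₁ ∩ T₂, φ d := by
        rw [← sum_sdiff (inter_subset_left : T₁ ∩ T₂ ⊆ T₁), sdiff_inter_self_left]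
      have e3 : ∑ d ∈ T₂, φ d = ∑ d ∈ T₂ \ T₁, φ d + ∑ d ∈ T₁ ∩ T₂, φ d := by
        rw [← sum_sdiff (inter_subset_right : T₁ ∩ T₂ ⊆ T₂), sdiff_inter_self_right]
      rw [e1, e2, e3]
      have := CharTwo.add_self_eq_zero (∑ d ∈ T₁ ∩ T₂, φ d)
      linear_combination -this
    -- parity at every face other than `l d₀`
    have hpar : ∀ i, i ≠ G.l d₀ → ∑ d ∈ symmDiff T₁ T₂,
        ((if G.l d = i then (1 : ZMod 2) else 0) + if G.r d = i then 1 else 0) = 0 := by
      intro i hi
      rw [hsum]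
      by_cases hiv : i ∈ G.fv v
      · have hm : i ∈ (G.fv v).erase (G.l d₀) := mem_erase.2 ⟨hi, hiv⟩
        have h3 : i ∈ P T₁ ↔ i ∈ P T₂ := by rw [hP]
        simp only [P, mem_filter, hm, true_and] at h3
        rcases zmod2 (∑ d ∈ T₁, ((if G.l d = i then (1 : ZMod 2) else 0) +
          if G.r d = i then 1 else 0)) with h4 | h4 <;>
        rcases zmod2 (∑ d ∈ T₂, ((if G.l d = i then (1 : ZMod 2) else 0) +
          if G.r d = i then 1 else 0)) with h5 | h5
        · rw [h4, h5, add_zero]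
        · rw [h4, h5] at h3
          exact absurd (h3.2 rfl) (by decide)
        · rw [h4, h5] at h3
          exact absurd (h3.1 rfl) (by decide)
        · rw [h4, h5]
          decide
      · have h6 : ∀ T ⊆ G.star v, ∑ d ∈ T,
            ((if G.l d = i then (1 : ZMod 2) else 0) + if G.r d = i then 1 else 0) = 0 := by
          intro T hT
          refine sum_eq_zero fun d hd => ?_
          rw [if_neg, if_neg, add_zero]
          · exact fun h => hiv (mem_fv.2 ⟨d, hT hd, Or.inr h⟩)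
          · exact fun h => hiv (mem_fv.2 ⟨d, hT hd, Or.inl h⟩)
        rw [h6 T₁ hT₁, h6 T₂ hT₂, add_zero]
    have hev : G.Ev (symmDiff T₁ T₂) := by
      intro x
      -- replace `x` by `x - x (l d₀)`
      have h3 : ∑ d ∈ symmDiff T₁ T₂, (x (G.l d) + x (G.r d)) =
          ∑ d ∈ symmDiff T₁ T₂, ((x (G.l d) + x (G.l d₀)) + (x (G.r d) + x (G.l d₀))) := by
        refine sum_congr rfl fun d _ => ?_
        have := CharTwo.add_self_eq_zero (x (G.l d₀))
        linear_combination -this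
      have h4 : ∀ d ∈ symmDiff T₁ T₂, (x (G.l d) + x (G.l d₀)) + (x (G.r d) + x (G.l d₀)) =
          ∑ i ∈ (G.fv v).erase (G.l d₀), (x i + x (G.l d₀)) *
            ((if G.l d = i then (1 : ZMod 2) else 0) + if G.r d = i then 1 else 0) := by
        intro d hd
        have hdv : d ∈ G.star v := (mem_erase.1 (hsd hd)).2
        simp only [mul_add, sum_add_distrib, mul_ite, mul_one, mul_zero, sum_ite_eq]
        congr 1
        · by_cases h : G.l d = G.l d₀
          · rw [h, CharTwo.add_self_eq_zero, if_neg (notMem_erase _ _)]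
          · rw [if_pos (mem_erase.2 ⟨h, mem_fv.2 ⟨d, hdv, Or.inl rfl⟩⟩)]
        · by_cases h : G.r d = G.l d₀
          · rw [h, CharTwo.add_self_eq_zero, if_neg (notMem_erase _ _)]
          · rw [if_pos (mem_erase.2 ⟨h, mem_fv.2 ⟨d, hdv, Or.inr rfl⟩⟩)]
      rw [h3, sum_congr rfl h4, sum_comm]
      refine sum_eq_zero fun i hi => ?_
      rw [← mul_sum, hpar i (mem_erase.1 hi).1, mul_zero]
    rcases h _ (hsd.trans (erase_subset _ _)) hev with h3 | h3
    · exact symmDiff_eq_bot.1 h3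
    · exfalso
      have h4 : d₀ ∈ symmDiff T₁ T₂ := by
        rw [h3]
        exact hd₀
      exact notMem_erase d₀ _ (hsd h4)
  have hmaps : Set.MapsTo P (((G.star v).erase d₀).powerset : Set (Finset ℕ))
      (((G.fv v).erase (G.l d₀)).powerset : Set (Finset ℕ)) := by
    intro T _
    rw [mem_coe, mem_powerset]
    exact filter_subset _ _
  have h1 := card_le_card_of_injOn P hmaps hinj
  rw [card_powerset, card_powerset] at h1
  have h2 := (Nat.pow_le_pow_iff_right (by norm_num : 1 < 2)).1 h1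
  rw [card_erase_of_mem hd₀, card_erase_of_mem hi₀] at h2
  have h3 : 0 < (G.star v).card := card_pos.2 ⟨d₀, hd₀⟩
  have h4 : 0 < (G.fv v).card := card_pos.2 ⟨_, hi₀⟩
  omega

end Gr

end Pool.Agent.Lib.MP06c549.T6H
end

section
/-!
# MP_06c549_co, T6H: more on cuts

Components, cut vertices, bridges, cuts of two edges, the boundary of the outer face.
-/
set_option autoImplicit false

namespace Pool.Agent.Lib.MP06c549.T6H

open Finset

namespace Gr

variable {G : Gr}

lemma Good.bc (hG : G.Good) {i : ℕ} (hi : i ∈ G.fs) (hu : i ∉ G.us) : G.BC i :=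
  hG.bconn i hi hu

lemma touch_mem (hG : G.Good) {v i : ℕ} (h : G.Touch v i) : v ∈ G.vs ∧ i ∈ G.fs := by
  obtain ⟨d, hd, h⟩ := h
  rw [mem_star] at hd
  constructor
  · rcases hd.2 with rfl | rfl
    · exact (hG.ends d hd.1).1
    · exact (hG.ends d hd.1).2
  · rcases h with rfl | rfl
    · exact (hG.sides d hd.1).1
    · exact (hG.sides d hd.1).2

/-- the boundary of a face is connected, in terms of vertices -/
lemma BC.vert {i : ℕ} (h : G.BC i) {f : ℕ → ZMod 2}
    (hf : ∀ d ∈ G.ds, (G.l d = i ∨ G.r d = i) → f (G.p d) = f (G.q d)) {v v' : ℕ}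
    (hv : G.Touch v i) (hv' : G.Touch v' i) : f v = f v' := by
  obtain ⟨d, hd, hi⟩ := hv
  obtain ⟨d', hd', hi'⟩ := hv'
  rw [mem_star] at hd hd'
  have h1 := h f hf d hd.1 hi d' hd'.1 hi'
  have h2 := hf d hd.1 hi
  have h3 := hf d' hd'.1 hi'
  rcases hd.2 with rfl | rfl <;> rcases hd'.2 with rfl | rfl
  · exact h1
  · exact h1.trans h3
  · exact h2.symm.trans h1
  · exact h2.symm.trans (h1.trans h3)

/-! ## Components -/

/-- a union of components is linked to `u` -/
theorem comp_FC (hG : G.Good) {u : ℕ} (hu : u ∈ G.us) (hb : ∀ i ∈ G.fs, i ≠ u → G.BC i)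
    {f : ℕ → ZMod 2} (hf : ∀ d ∈ G.ds, f (G.p d) = f (G.q d)) {W : Finset ℕ}
    (hW : ∀ v ∈ G.vs, v ∈ W ↔ f v = 1) : G.FC W u := by
  classical
  intro x hx
  have hmem : ∀ d ∈ G.ds, d ∈ G.tds W ↔ f (G.p d) = 1 := by
    intro d hd
    rw [mem_tds, hW _ (hG.ends d hd).1, hW _ (hG.ends d hd).2, ← hf d hd]
    simp [hd]
  have hsame : ∀ d ∈ G.ds, d ∉ G.tds W → ∀ i, (G.l d = i ∨ G.r d = i) → i ∈ G.tf W → i = u := by
    intro d hd hdW i hi hiW
    by_contra hiu
    obtain ⟨e, he, hei⟩ := mem_tf.1 hiW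
    have he' := tds_sub he
    have h1 := hb i (tf_sub hG hiW) hiu f (fun d hd _ => hf d hd) d hd hi e he' hei
    rw [hmem e he'] at he
    rw [hmem d hd] at hdW
    exact hdW (h1.trans he)
  have key := hG.dconn (fun i => if i ∈ G.tf W then x i else x u) (by
    intro d hd
    by_cases h : d ∈ G.tds W
    · simp only [if_pos (l_mem_tf h), if_pos (r_mem_tf h)]
      exact hx d h
    · have h1 : (if G.l d ∈ G.tf W then x (G.l d) else x u) = x u := by
        split_ifs with h2
        · rw [hsame d hd h _ (Or.inl rfl) h2]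
        · rfl
      have h3 : (if G.r d ∈ G.tf W then x (G.r d) else x u) = x u := by
        split_ifs with h2
        · rw [hsame d hd h _ (Or.inr rfl) h2]
        · rfl
      simp only [h1, h3])
  intro i hi
  have h1 := key i (tf_sub hG hi) u (hG.us_sub hu)
  simp only [if_pos hi] at h1
  rw [h1]
  split_ifs <;> rfl

/-! ## Counting faces at a vertex -/

/-- how often the face `i` occurs along the edges in `T` -/
def cntS (G : Gr) (T : Finset ℕ) (i : ℕ) : ℕ :=
  (T.filter fun d => G.l d = i).card + (T.filter fun d => G.r d = i).card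

lemma cnt_eq (i v : ℕ) : G.cnt i v = G.cntS (G.star v) i := rfl

lemma cntS_cast (T : Finset ℕ) (i : ℕ) :
    (G.cntS T i : ZMod 2) =
      ∑ d ∈ T, ((if G.l d = i then (1 : ZMod 2) else 0) + if G.r d = i then 1 else 0) := by
  rw [cntS, Nat.cast_add, sum_add_distrib, card_filter, card_filter, Nat.cast_sum, Nat.cast_sum]
  congr 1 <;> exact sum_congr rfl fun d _ => by split_ifs <;> simp

lemma Ev.even {T : Finset ℕ} (h : G.Ev T) (i : ℕ) : Even (G.cntS T i) := by
  rw [← ZMod.natCast_eq_zero_iff_even, cntS_cast]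
  exact h fun j => if j = i then 1 else 0

lemma star_ev (hG : G.Good) {v : ℕ} (hv : v ∈ G.vs) : G.Ev (G.star v) := fun x => hG.even v hv x

lemma cnt_ev (hG : G.Good) {v : ℕ} (hv : v ∈ G.vs) (i : ℕ) : Even (G.cnt i v) :=
  (star_ev hG hv).even i

lemma cntS_pos {T : Finset ℕ} {i : ℕ} : 0 < G.cntS T i ↔ ∃ d ∈ T, G.l d = i ∨ G.r d = i := by
  rw [cntS, Nat.add_pos_iff_pos_or_pos, card_pos, card_pos]
  constructor
  · rintro (⟨d, hd⟩ | ⟨d, hd⟩) <;> rw [mem_filter] at hd
    · exact ⟨d, hd.1, Or.inl hd.2⟩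
    · exact ⟨d, hd.1, Or.inr hd.2⟩
  · rintro ⟨d, hd, h | h⟩
    · exact Or.inl ⟨d, mem_filter.2 ⟨hd, h⟩⟩
    · exact Or.inr ⟨d, mem_filter.2 ⟨hd, h⟩⟩

lemma cnt_touch {v i : ℕ} : 0 < G.cnt i v ↔ G.Touch v i := cntS_pos

lemma cntS_sdiff {S T : Finset ℕ} (h : T ⊆ S) (i : ℕ) :
    G.cntS (S \ T) i + G.cntS T i = G.cntS S i := by
  classical
  have h1 : ∀ P : ℕ → Prop, ∀ _ : DecidablePred P,
      ((S \ T).filter P).card + (T.filter P).card = (S.filter P).card := by
    intro P _
    rw [← card_union_of_disjoint, ← filter_union, sdiff_union_of_subset h]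
    exact disjoint_filter_filter sdiff_disjoint
  have h2 := h1 (fun d => G.l d = i) inferInstance
  have h3 := h1 (fun d => G.r d = i) inferInstance
  unfold cntS
  omega

/-- a proper even set of edges at `v` shares a face of multiplicity at least four with its
complement -/
theorem ev_common (hG : G.Good) {v : ℕ} (hv : v ∈ G.vs) {T : Finset ℕ} (hT : T ⊆ G.star v)
    (hE : G.Ev T) (h0 : T.Nonempty) (h1 : T ≠ G.star v) :
    ∃ i ∈ G.fs, (∃ d ∈ T, G.l d = i ∨ G.r d = i) ∧ (∃ d ∈ G.star v \ T, G.l d = i ∨ G.r d = i) ∧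
      4 ≤ G.cnt i v := by
  classical
  by_contra hcon
  push Not at hcon
  -- no common face
  have hno : ∀ i, (∃ d ∈ T, G.l d = i ∨ G.r d = i) → ¬ ∃ d ∈ G.star v \ T, G.l d = i ∨ G.r d = i := by
    intro i hi hi'
    have hif : i ∈ G.fs := by
      obtain ⟨d, hd, h⟩ := hi
      have := hG.sides d (star_sub (hT hd))
      rcases h with rfl | rfl
      · exact this.1
      · exact this.2
    have h2 := hcon i hif hi hi'
    obtain ⟨d, hd, hdi⟩ := hi'
    obtain ⟨e, he, hei⟩ := hi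
    have h3 := hE.even i
    have h4 := cnt_ev hG hv i
    rw [cnt_eq, ← cntS_sdiff hT i] at h4 h2
    have h5 : 0 < G.cntS T i := cntS_pos.2 ⟨e, he, hei⟩
    have h6 : 0 < G.cntS (G.star v \ T) i := cntS_pos.2 ⟨d, hd, hdi⟩
    have h7 : Even (G.cntS (G.star v \ T) i) := (Nat.even_add.1 h4).2 h3
    obtain ⟨a, ha⟩ := h3
    obtain ⟨b, hb⟩ := h7
    omega
  obtain ⟨d₀, hd₀⟩ := h0
  obtain ⟨d₁, hd₁, hd₁'⟩ : ∃ d ∈ G.star v, d ∉ T := by
    by_contra h
    push Not at h
    exact h1 (Subset.antisymm hT h)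
  have h2 := hG.link v hv (fun i => if ∃ d ∈ T, G.l d = i ∨ G.r d = i then 1 else 0) (by
    intro d hd
    by_cases hdT : d ∈ T
    · rw [if_pos ⟨d, hdT, Or.inl rfl⟩, if_pos ⟨d, hdT, Or.inr rfl⟩]
    · rw [if_neg fun h => hno _ h ⟨d, mem_sdiff.2 ⟨hd, hdT⟩, Or.inl rfl⟩,
        if_neg fun h => hno _ h ⟨d, mem_sdiff.2 ⟨hd, hdT⟩, Or.inr rfl⟩]) d₀ (hT hd₀) d₁ hd₁
  rw [if_pos ⟨d₀, hd₀, Or.inl rfl⟩,
    if_neg fun h => hno _ h ⟨d₁, mem_sdiff.2 ⟨hd₁, hd₁'⟩, Or.inl rfl⟩] at h2
  exact one_ne_zero h2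

/-- a vertex at which no face occurs four times is not a cut vertex -/
theorem ncv_of_cnt (hG : G.Good) {v : ℕ} (hv : v ∈ G.vs) (h : ∀ i ∈ G.fs, G.cnt i v ≤ 3) :
    G.NCV v := by
  intro T hT hE
  by_contra hcon
  push Not at hcon
  obtain ⟨i, hi, -, -, h4⟩ := ev_common hG hv hT hE hcon.1 hcon.2
  have := h i hi
  omega

/-- a vertex which touches no unusable face is not a cut vertex -/
theorem ncv_inner (hG : G.Good) {v : ℕ} (hv : v ∈ G.vs) (h : ∀ i ∈ G.us, ¬ G.Touch v i) :
    G.NCV v := by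
  refine ncv_of_cnt hG hv fun i hi => ?_
  by_cases hu : i ∈ G.us
  · have h1 := h i hu
    rw [← cnt_touch] at h1
    omega
  · exact (hG.simp v hv i hi hu).trans (by norm_num)

lemma sum_cnt_fv (v : ℕ) : ∑ i ∈ G.fv v, G.cnt i v = 2 * (G.star v).card := by
  classical
  have h1 : ∀ φ : ℕ → ℕ, (∀ d ∈ G.star v, φ d ∈ G.fv v) →
      ∑ i ∈ G.fv v, ((G.star v).filter fun d => φ d = i).card = (G.star v).card := by
    intro φ h
    exact (card_eq_sum_card_fiberwise h).symm
  unfold cnt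
  rw [sum_add_distrib, h1 G.l fun d hd => mem_fv.2 ⟨d, hd, Or.inl rfl⟩,
    h1 G.r fun d hd => mem_fv.2 ⟨d, hd, Or.inr rfl⟩, two_mul]

/-- every face at a vertex which is not a cut vertex occurs there exactly twice -/
theorem cnt_eq_two (hG : G.Good) {v i : ℕ} (h : G.NCV v) (hi : G.Touch v i) : G.cnt i v = 2 := by
  have hv := (touch_mem hG hi).1
  have h2 : ∀ j ∈ G.fv v, 2 ≤ G.cnt j v := by
    intro j hj
    have h3 : 0 < G.cnt j v := cnt_touch.2 (mem_fv.1 hj)
    obtain ⟨a, ha⟩ := cnt_ev hG hv j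
    omega
  have h3 := sum_cnt_fv (G := G) v
  have h4 := deg_le G h
  by_contra hne
  have h5 : ∑ j ∈ G.fv v, 2 < ∑ j ∈ G.fv v, G.cnt j v :=
    sum_lt_sum h2 ⟨i, mem_fv.2 hi, lt_of_le_of_ne (h2 i (mem_fv.2 hi)) (Ne.symm hne)⟩
  rw [sum_const, smul_eq_mul, h3] at h5
  omega

/-- as many faces as edges at a vertex which is not a cut vertex -/
theorem card_fv (hG : G.Good) {v : ℕ} (h : G.NCV v) : (G.fv v).card = (G.star v).card := by
  have h3 := sum_cnt_fv (G := G) v
  rw [sum_congr rfl fun i hi => cnt_eq_two hG h (mem_fv.1 hi), sum_const, smul_eq_mul] at h3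
  omega

/-- a bridge at a vertex which is not a cut vertex is the only edge there -/
theorem bridge {v d : ℕ} (h : G.NCV v) (hd : d ∈ G.star v) (hlr : G.l d = G.r d) :
    G.star v = {d} := by
  have h1 : G.Ev {d} := fun x => by
    rw [sum_singleton, hlr]
    exact CharTwo.add_self_eq_zero _
  rcases h {d} (singleton_subset_iff.2 hd) h1 with h2 | h2
  · exact absurd h2 (singleton_ne_empty d)
  · exact h2.symm

/-- the edge at a leaf is a bridge -/
theorem leaf (hG : G.Good) {v d : ℕ} (hv : v ∈ G.vs) (h : G.star v = {d}) : G.l d = G.r d := by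
  have h1 := hG.even v hv fun i => if i = G.l d then 1 else 0
  rw [h, sum_singleton, if_pos rfl] at h1
  by_contra hne
  rw [if_neg fun h => hne h.symm, add_zero] at h1
  exact one_ne_zero h1

/-! ## Cuts -/

/-- the converse of `cut_of_ev` -/
theorem ev_of_cut (hG : G.Good) {K : Finset ℕ} (hK : K ⊆ G.ds) {c : ℕ → ZMod 2}
    (h : ∀ d ∈ G.ds, c (G.p d) + c (G.q d) = if d ∈ K then 1 else 0) : G.Ev K := by
  classical
  intro x
  have h1 := sum_star hG c fun d => x (G.l d) + x (G.r d)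
  rw [sum_eq_zero fun v hv => by rw [hG.even v hv x, mul_zero]] at h1
  rw [sum_congr rfl fun d hd => by rw [h d hd]] at h1
  simp only [ite_mul, one_mul, zero_mul] at h1
  rw [← sum_filter, filter_mem_eq_inter, inter_eq_right.2 hK] at h1
  exact h1.symm

/-- the sides of a cut vertex on `u` are linked to `u` -/
theorem FC_cv (hG : G.Good) (hc : G.Conn) {v u : ℕ} (hu : G.Touch v u)
    (hcnt : ∀ i ∈ G.fs, i ≠ u → G.cnt i v ≤ 3) {W : Finset ℕ} (hW : W ⊆ G.vs) (hvW : v ∉ W)
    (h : ∀ d ∈ G.ds, (G.p d ∈ W → G.q d ∉ W → G.q d = v) ∧ (G.q d ∈ W → G.p d ∉ W → G.p d = v)) :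
    G.FC W u := by
  classical
  have hv := (touch_mem hG hu).1
  intro x hx
  let g : ℕ → ZMod 2 := fun v => if h : (G.star v).Nonempty then x (G.l h.choose) else x u
  have hg : ∀ w ∈ W, ∀ i, G.Touch w i → x i = g w := by
    intro w hw i hi
    have hne : (G.star w).Nonempty := by
      obtain ⟨d, hd, _⟩ := hi
      exact ⟨d, hd⟩
    simp only [g, dif_pos hne]
    exact link' hG (hW hw) (fun d hd => hx d (star_sub_tds hw hd)) hi
      ⟨hne.choose, hne.choose_spec, Or.inl rfl⟩
  have hgg : ∀ d ∈ G.ds, G.p d ∈ W → G.q d ∈ W → g (G.p d) = g (G.q d) := by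
    intro d hd h1 h2
    rw [← hg _ h1 (G.l d) ⟨d, mem_star.2 ⟨hd, Or.inl rfl⟩, Or.inl rfl⟩,
      ← hg _ h2 (G.l d) ⟨d, mem_star.2 ⟨hd, Or.inr rfl⟩, Or.inl rfl⟩]
  -- the part of `W` which is not linked to `u`
  let A := W.filter fun w => g w ≠ x u
  have hvA : v ∉ A := fun h => hvW (mem_filter.1 h).1
  by_cases hA : A.Nonempty
  · exfalso
    let T := (G.star v).filter fun d => G.p d ∈ A ∨ G.q d ∈ A
    have hTv : T ⊆ G.star v := filter_subset _ _
    have hT : ∀ d ∈ G.ds, (if G.p d ∈ A then (1 : ZMod 2) else 0) + (if G.q d ∈ A then 1 else 0) =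
        if d ∈ T then 1 else 0 := by
      intro d hd
      by_cases h1 : G.p d ∈ A <;> by_cases h2 : G.q d ∈ A
      · have h3 : d ∉ T := by
          intro h4
          rcases (mem_star.1 (hTv h4)).2 with h5 | h5
          · exact hvA (h5 ▸ h1)
          · exact hvA (h5 ▸ h2)
        rw [if_pos h1, if_pos h2, if_neg h3]
        decide
      · have h3 : d ∈ T := by
          refine mem_filter.2 ⟨mem_star.2 ⟨hd, Or.inr ?_⟩, Or.inl h1⟩
          have h1' := mem_filter.1 h1
          refine (h d hd).1 h1'.1 fun h4 => h2 (mem_filter.2 ⟨h4, ?_⟩)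
          rw [← hgg d hd h1'.1 h4]
          exact h1'.2
        rw [if_pos h1, if_neg h2, if_pos h3, add_zero]
      · have h3 : d ∈ T := by
          refine mem_filter.2 ⟨mem_star.2 ⟨hd, Or.inl ?_⟩, Or.inr h2⟩
          have h2' := mem_filter.1 h2
          refine (h d hd).2 h2'.1 fun h4 => h1 (mem_filter.2 ⟨h4, ?_⟩)
          rw [hgg d hd h4 h2'.1]
          exact h2'.2
        rw [if_neg h1, if_pos h2, if_pos h3, zero_add]
      · have h3 : d ∉ T := by
          intro h4
          rcases (mem_filter.1 h4).2 with h5 | h5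
          · exact h1 h5
          · exact h2 h5
        rw [if_neg h1, if_neg h2, if_neg h3, add_zero]
    have hEv : G.Ev T := ev_of_cut hG (hTv.trans star_sub)
      (c := fun w => if w ∈ A then 1 else 0) hT
    have hTne : T.Nonempty := by
      by_contra hTe
      rw [not_nonempty_iff_eq_empty] at hTe
      obtain ⟨a, ha⟩ := hA
      have h1 := hc (fun w => if w ∈ A then 1 else 0) (by
        intro d hd
        have := hT d hd
        rw [hTe, if_neg (notMem_empty d)] at this
        exact CharTwo.add_eq_zero.1 this) a (hW (mem_filter.1 ha).1) v hv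
      simp only [if_pos ha, if_neg hvA] at h1
      exact one_ne_zero h1
    have hno : ∀ d ∈ T, ¬ (G.l d = u ∨ G.r d = u) := by
      intro d hd hdu
      have hdG := star_sub (hTv hd)
      rcases (mem_filter.1 hd).2 with h1 | h1
      · exact (mem_filter.1 h1).2 (hg _ (mem_filter.1 h1).1 u
          ⟨d, mem_star.2 ⟨hdG, Or.inl rfl⟩, hdu⟩).symm
      · exact (mem_filter.1 h1).2 (hg _ (mem_filter.1 h1).1 u
          ⟨d, mem_star.2 ⟨hdG, Or.inr rfl⟩, hdu⟩).symm
    by_cases hTs : T = G.star v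
    · obtain ⟨d, hd, hdu⟩ := hu
      exact hno d (hTs ▸ hd) hdu
    · obtain ⟨i, hi, ⟨d, hd, hdi⟩, -, h4⟩ := ev_common hG hv hTv hEv hTne hTs
      have hiu : i ≠ u := by
        rintro rfl
        exact hno d hd hdi
      have := hcnt i hi hiu
      omega
  · have key2 : ∀ w ∈ W, g w = x u := by
      intro w hw
      by_contra h1
      exact hA ⟨w, mem_filter.2 ⟨hw, h1⟩⟩
    intro i hi
    obtain ⟨d, hd, hdi⟩ := mem_tf.1 hi
    rw [mem_tds] at hd
    rcases hd.2 with h1 | h1
    · rw [hg _ h1 i ⟨d, mem_star.2 ⟨hd.1, Or.inl rfl⟩, hdi⟩, key2 _ h1]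
    · rw [hg _ h1 i ⟨d, mem_star.2 ⟨hd.1, Or.inr rfl⟩, hdi⟩, key2 _ h1]

/-- two edges with the same sides form a cut -/
theorem two_cut (hG : G.Good) {e e' i j : ℕ} (he : e ∈ G.ds) (he' : e' ∈ G.ds) (hne : e ≠ e')
    (h1 : (G.l e = i ∧ G.r e = j) ∨ (G.l e = j ∧ G.r e = i))
    (h2 : (G.l e' = i ∧ G.r e' = j) ∨ (G.l e' = j ∧ G.r e' = i)) :
    ∃ A ⊆ G.vs, (G.p e ∈ A ↔ G.q e ∉ A) ∧ (G.p e' ∈ A ↔ G.q e' ∉ A) ∧
      ∀ d ∈ G.ds, d ≠ e → d ≠ e' → (G.p d ∈ A ↔ G.q d ∈ A) := by
  classical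
  have hK : G.Ev {e, e'} := by
    intro x
    rw [sum_pair hne]
    have h3 : x (G.l e) + x (G.r e) = x i + x j := by
      rcases h1 with ⟨rfl, rfl⟩ | ⟨rfl, rfl⟩
      · rfl
      · exact add_comm _ _
    have h4 : x (G.l e') + x (G.r e') = x i + x j := by
      rcases h2 with ⟨rfl, rfl⟩ | ⟨rfl, rfl⟩
      · rfl
      · exact add_comm _ _
    rw [h3, h4]
    exact CharTwo.add_self_eq_zero _
  have hKs : ({e, e'} : Finset ℕ) ⊆ G.ds := by
    intro d hd
    rw [mem_insert, mem_singleton] at hd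
    rcases hd with rfl | rfl
    · exact he
    · exact he'
  obtain ⟨c, hc⟩ := cut_of_ev hG hKs hK
  have hmem : ∀ v ∈ G.vs, v ∈ G.vs.filter (fun v => c v = 1) ↔ c v = 1 := by
    intro v hv
    rw [mem_filter]
    exact ⟨fun h => h.2, fun h => ⟨hv, h⟩⟩
  have hcross : ∀ a b : ZMod 2, a + b = 1 → (a = 1 ↔ ¬ b = 1) := by decide
  have hsame : ∀ a b : ZMod 2, a + b = 0 → (a = 1 ↔ b = 1) := by decide
  refine ⟨G.vs.filter (fun v => c v = 1), filter_subset _ _, ?_, ?_, ?_⟩
  · rw [hmem _ (hG.ends e he).1, hmem _ (hG.ends e he).2]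
    have := hc e he
    rw [if_pos (mem_insert_self _ _)] at this
    exact hcross _ _ this
  · rw [hmem _ (hG.ends e' he').1, hmem _ (hG.ends e' he').2]
    have := hc e' he'
    rw [if_pos (mem_insert_of_mem (mem_singleton_self _))] at this
    exact hcross _ _ this
  · intro d hd hde hde'
    rw [hmem _ (hG.ends d hd).1, hmem _ (hG.ends d hd).2]
    have := hc d hd
    rw [if_neg (by
      rw [mem_insert, mem_singleton, not_or]
      exact ⟨hde, hde'⟩)] at this
    exact hsame _ _ this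

/-- a face without crossing edges lies on one side of a cut -/
theorem one_side {A : Finset ℕ} {z : ℕ} (hz : G.BC z)
    (h : ∀ d ∈ G.ds, (G.l d = z ∨ G.r d = z) → (G.p d ∈ A ↔ G.q d ∈ A)) :
    (∀ v, G.Touch v z → v ∈ A) ∨ (∀ v, G.Touch v z → v ∉ A) := by
  classical
  by_contra hcon
  push Not at hcon
  obtain ⟨⟨v, hv, hvA⟩, ⟨v', hv', hvA'⟩⟩ := hcon
  have h1 := hz.vert (f := fun v => if v ∈ A then 1 else 0) (by
    intro d hd hdz
    simp only [h d hd hdz]) hv hv'
  simp only [if_neg hvA, if_pos hvA'] at h1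
  exact zero_ne_one h1

/-! ## Boundaries of faces -/

/-- in a connected graph the boundary of every face is connected -/
theorem Conn.bc (hG : G.Good) (hc : G.Conn) (o : ℕ) : G.BC o := by
  classical
  intro f hf
  let s : ℕ → ZMod 2 := fun d => (if G.l d = o then 1 else 0) + if G.r d = o then 1 else 0
  have hs : ∀ v, ∀ d ∈ G.star v, f (G.p d) * s d = f v * s d := by
    intro v d hd
    rw [mem_star] at hd
    by_cases h : G.l d = o ∨ G.r d = o
    · rcases hd.2 with h1 | h1
      · rw [h1]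
      · rw [hf d hd.1 h, h1]
    · rw [not_or] at h
      simp only [s, if_neg h.1, if_neg h.2, add_zero, mul_zero]
  obtain ⟨x, hx⟩ := hG.exact (fun d => f (G.p d) * s d) (by
    intro v hv
    rw [sum_congr rfl (hs v), ← mul_sum]
    have h1 := hG.even v hv fun i => if i = o then 1 else 0
    simp only [s, h1, mul_zero])
  let y : ℕ → ℕ → ZMod 2 := fun v i => x i + f v * if i = o then 1 else 0
  have hy : ∀ v ∈ G.vs, ∀ i j, G.Touch v i → G.Touch v j → y v i = y v j := by
    intro v hv i j hi hj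
    refine link' hG hv (fun d hd => ?_) hi hj
    have h1 := hx d (star_sub hd)
    simp only [hs v d hd, s, mul_add] at h1
    refine CharTwo.add_eq_zero.1 ?_
    simp only [y]
    have h2 := CharTwo.add_self_eq_zero (x (G.l d) + x (G.r d))
    linear_combination h1 + h2
  let h : ℕ → ZMod 2 := fun v => if h : (G.star v).Nonempty then y v (G.l h.choose) else 0
  have hh : ∀ v i, G.Touch v i → y v i = h v := by
    intro v i hi
    have hne : (G.star v).Nonempty := by
      obtain ⟨d, hd, _⟩ := hi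
      exact ⟨d, hd⟩
    simp only [h, dif_pos hne]
    exact hy v (touch_mem hG hi).1 _ _ hi ⟨hne.choose, hne.choose_spec, Or.inl rfl⟩
  have key := hc h (by
    intro d hd
    rw [← hh (G.p d) (G.l d) ⟨d, mem_star.2 ⟨hd, Or.inl rfl⟩, Or.inl rfl⟩,
      ← hh (G.q d) (G.l d) ⟨d, mem_star.2 ⟨hd, Or.inr rfl⟩, Or.inl rfl⟩]
    simp only [y]
    by_cases h1 : G.l d = o
    · rw [hf d hd (Or.inl h1)]
    · rw [if_neg h1, mul_zero, mul_zero])
  intro d hd hdo d' hd' hdo'
  have h1 := key _ (hG.ends d hd).1 _ (hG.ends d' hd').1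
  rw [← hh (G.p d) o ⟨d, mem_star.2 ⟨hd, Or.inl rfl⟩, hdo⟩,
    ← hh (G.p d') o ⟨d', mem_star.2 ⟨hd', Or.inl rfl⟩, hdo'⟩] at h1
  simp only [y, if_true, mul_one] at h1
  exact add_left_cancel h1

/-- two faces at a vertex are linked by a set of edges there -/
theorem link_path (hG : G.Good) {v i j : ℕ} (hi : G.Touch v i) (hj : G.Touch v j) :
    ∃ T ⊆ G.star v, ∀ x : ℕ → ZMod 2, ∑ d ∈ T, (x (G.l d) + x (G.r d)) = x i + x j := by
  classical
  let R : ℕ → ℕ → Prop := fun a b =>
    ∃ d ∈ G.star v, (G.l d = a ∧ G.r d = b) ∨ (G.r d = a ∧ G.l d = b)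
  have h : Relation.ReflTransGen R i j := by
    by_contra h
    have h1 := link' hG (touch_mem hG hi).1
      (x := fun a => if Relation.ReflTransGen R i a then 1 else 0) (by
      intro d hd
      have h1 : Relation.ReflTransGen R i (G.l d) ↔ Relation.ReflTransGen R i (G.r d) :=
        ⟨fun h => h.tail ⟨d, hd, Or.inl ⟨rfl, rfl⟩⟩, fun h => h.tail ⟨d, hd, Or.inr ⟨rfl, rfl⟩⟩⟩
      simp only [h1]) hi hj
    simp only [if_pos Relation.ReflTransGen.refl, if_neg h] at h1
    exact one_ne_zero h1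
  suffices h2 : ∃ z : ℕ → ZMod 2, ∀ x : ℕ → ZMod 2,
      ∑ d ∈ G.star v, z d * (x (G.l d) + x (G.r d)) = x i + x j by
    obtain ⟨z, hz⟩ := h2
    refine ⟨(G.star v).filter fun d => z d = 1, filter_subset _ _, fun x => ?_⟩
    rw [← hz x, sum_filter]
    refine sum_congr rfl fun d _ => ?_
    rcases zmod2 (z d) with h3 | h3
    · rw [h3, zero_mul, if_neg zero_ne_one]
    · rw [h3, one_mul, if_pos rfl]
  clear hj
  induction h with
  | refl =>
    refine ⟨fun _ => 0, fun x => ?_⟩
    simp only [zero_mul, sum_const_zero]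
    exact (CharTwo.add_self_eq_zero _).symm
  | tail _ hbc ih =>
    obtain ⟨z, hz⟩ := ih
    obtain ⟨d₀, hd₀, hd⟩ := hbc
    refine ⟨fun d => z d + (if d = d₀ then 1 else 0), fun x => ?_⟩
    simp only [add_mul, sum_add_distrib, hz x, ite_mul, one_mul, zero_mul]
    rw [sum_ite_eq', if_pos hd₀]
    rcases hd with ⟨rfl, rfl⟩ | ⟨rfl, rfl⟩
    · have := CharTwo.add_self_eq_zero (x (G.l d₀))
      linear_combination this
    · have := CharTwo.add_self_eq_zero (x (G.r d₀))
      linear_combination this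

/-- an edge between two faces which meet at the vertex `b` is a bridge of the graph minus `b` -/
theorem cut_edge_vertex (hG : G.Good) {g b i j : ℕ} (hg : g ∈ G.ds)
    (hs : (G.l g = i ∧ G.r g = j) ∨ (G.l g = j ∧ G.r g = i)) (hgb : g ∉ G.star b)
    (hi : G.Touch b i) (hj : G.Touch b j) :
    ∃ c : ℕ → ZMod 2, c (G.p g) ≠ c (G.q g) ∧
      ∀ d ∈ G.ds, d ≠ g → d ∉ G.star b → c (G.p d) = c (G.q d) := by
  classical
  obtain ⟨T, hT, hTx⟩ := link_path hG hi hj
  have hgT : g ∉ T := fun h => hgb (hT h)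
  have hEv : G.Ev (insert g T) := by
    intro x
    rw [sum_insert hgT, hTx x]
    have h3 : x (G.l g) + x (G.r g) = x i + x j := by
      rcases hs with ⟨rfl, rfl⟩ | ⟨rfl, rfl⟩
      · rfl
      · exact add_comm _ _
    rw [h3]
    exact CharTwo.add_self_eq_zero _
  obtain ⟨c, hc⟩ := cut_of_ev hG (insert_subset hg (hT.trans star_sub)) hEv
  refine ⟨c, fun h => ?_, fun d hd hdg hdb => ?_⟩
  · have h1 := hc g hg
    rw [if_pos (mem_insert_self _ _), h, CharTwo.add_self_eq_zero] at h1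
    exact zero_ne_one h1
  · have h1 := hc d hd
    rw [if_neg (by
      rw [mem_insert, not_or]
      exact ⟨hdg, fun h => hdb (hT h)⟩)] at h1
    exact CharTwo.add_eq_zero.1 h1

/-- the boundary of a face is even -/
theorem face_even (hG : G.Good) (f : ℕ → ZMod 2) (i : ℕ) :
    ∑ d ∈ G.ds, (f (G.p d) + f (G.q d)) *
      ((if G.l d = i then 1 else 0) + if G.r d = i then 1 else 0) = 0 := by
  rw [← sum_star hG f]
  refine sum_eq_zero fun v hv => ?_
  rw [hG.even v hv fun j => if j = i then 1 else 0, mul_zero]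

lemma card_le_cnt {v i : ℕ} {T : Finset ℕ} (hT : ∀ d ∈ T, d ∈ G.star v ∧ (G.l d = i ∨ G.r d = i)) :
    T.card ≤ G.cnt i v := by
  classical
  have h1 : T ⊆ ((G.star v).filter fun d => G.l d = i) ∪ ((G.star v).filter fun d => G.r d = i) := by
    intro d hd
    rw [mem_union, mem_filter, mem_filter]
    obtain ⟨h2, h3 | h3⟩ := hT d hd
    · exact Or.inl ⟨h2, h3⟩
    · exact Or.inr ⟨h2, h3⟩
  exact (card_le_card h1).trans (card_union_le _ _)

/-- a face which occurs twice at `b` stays connected without `b` -/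
theorem face_minus (hG : G.Good) {i b : ℕ} (hb : G.BC i) (hcnt : G.cnt i b ≤ 2)
    {f : ℕ → ZMod 2} (hf : ∀ d ∈ G.ds, (G.l d = i ∨ G.r d = i) → d ∉ G.star b →
      f (G.p d) = f (G.q d)) {v v' : ℕ} (hv : v ≠ b) (hv' : v' ≠ b) (h : G.Touch v i)
    (h' : G.Touch v' i) : f v = f v' := by
  classical
  by_contra hne
  have key : ∀ t : ZMod 2, ∃ d ∈ G.star b, (G.l d = i ∨ G.r d = i) ∧
      f (G.p d) + f (G.q d) + f b ≠ t := by
    intro t
    by_contra hcon
    push Not at hcon
    have h1 := hb.vert (f := fun w => if w = b then t else f w) (by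
      intro d hd hdi
      by_cases hdb : d ∈ G.star b
      · have h2 := hcon d hdb hdi
        have h3 := hG.ne d hd
        have h4 := CharTwo.add_self_eq_zero (f b)
        rcases (mem_star.1 hdb).2 with h5 | h5
        · have h6 : G.q d ≠ b := fun h => h3 (h5.trans h.symm)
          simp only [h5, if_true, if_neg h6]
          rw [h5] at h2
          linear_combination -h2 + h4
        · have h6 : G.p d ≠ b := fun h => h3 (h.trans h5.symm)
          simp only [h5, if_true, if_neg h6]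
          rw [h5] at h2
          linear_combination h2 - h4
      · have h5 : G.p d ≠ b := fun h => hdb (mem_star.2 ⟨hd, Or.inl h⟩)
        have h6 : G.q d ≠ b := fun h => hdb (mem_star.2 ⟨hd, Or.inr h⟩)
        simp only [if_neg h5, if_neg h6]
        exact hf d hd hdi hdb) h h'
    simp only [if_neg hv, if_neg hv'] at h1
    exact hne h1
  obtain ⟨d₀, hd₀, hi₀, h0⟩ := key (f b + 1)
  obtain ⟨d₁, hd₁, hi₁, h1⟩ := key (f b)
  have h0' : f (G.p d₀) + f (G.q d₀) = 0 := by
    rcases zmod2 (f (G.p d₀) + f (G.q d₀)) with h2 | h2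
    · exact h2
    · exact absurd (by rw [h2, add_comm]) h0
  have h1' : f (G.p d₁) + f (G.q d₁) = 1 := by
    rcases zmod2 (f (G.p d₁) + f (G.q d₁)) with h2 | h2
    · exact absurd (by rw [h2, zero_add]) h1
    · exact h2
  have hne' : d₀ ≠ d₁ := by
    rintro rfl
    exact zero_ne_one (h0'.symm.trans h1')
  have honly : ∀ d ∈ G.star b, (G.l d = i ∨ G.r d = i) → d ≠ d₁ → d = d₀ := by
    intro d hd hdi hd1
    by_contra hd0
    have h2 := card_le_cnt (v := b) (i := i) (T := {d, d₀, d₁}) (by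
      intro e he
      simp only [mem_insert, mem_singleton] at he
      rcases he with rfl | rfl | rfl
      · exact ⟨hd, hdi⟩
      · exact ⟨hd₀, hi₀⟩
      · exact ⟨hd₁, hi₁⟩)
    rw [card_eq_three.2 ⟨d, d₀, d₁, hd0, hd1, hne', rfl⟩] at h2
    omega
  have hone : ((if G.l d₁ = i then (1 : ZMod 2) else 0) + if G.r d₁ = i then 1 else 0) = 1 := by
    by_cases h2 : G.l d₁ = i <;> by_cases h3 : G.r d₁ = i
    · exfalso
      have h4 := card_union_add_card_inter ((G.star b).filter fun d => G.l d = i)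
        ((G.star b).filter fun d => G.r d = i)
      have h5 : 2 ≤ (((G.star b).filter fun d => G.l d = i) ∪
          ((G.star b).filter fun d => G.r d = i)).card := by
        rw [← card_pair hne']
        refine card_le_card fun e he => ?_
        simp only [mem_insert, mem_singleton] at he
        rw [mem_union, mem_filter, mem_filter]
        rcases he with rfl | rfl
        · exact hi₀.imp (fun h => ⟨hd₀, h⟩) (fun h => ⟨hd₀, h⟩)
        · exact Or.inl ⟨hd₁, h2⟩
      have h6 : 1 ≤ (((G.star b).filter fun d => G.l d = i) ∩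
          ((G.star b).filter fun d => G.r d = i)).card :=
        card_pos.2 ⟨d₁, mem_inter.2 ⟨mem_filter.2 ⟨hd₁, h2⟩, mem_filter.2 ⟨hd₁, h3⟩⟩⟩
      unfold cnt at hcnt
      omega
    · rw [if_pos h2, if_neg h3, add_zero]
    · rw [if_neg h2, if_pos h3, zero_add]
    · rcases hi₁ with h4 | h4
      · exact absurd h4 h2
      · exact absurd h4 h3
  have hfe := face_even hG f i
  rw [sum_eq_single d₁] at hfe
  · rw [h1', hone, one_mul] at hfe
    exact one_ne_zero hfe
  · intro d hd hd1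
    by_cases hdi : G.l d = i ∨ G.r d = i
    · by_cases hdb : d ∈ G.star b
      · rw [honly d hdb hdi hd1, h0', zero_mul]
      · rw [hf d hd hdi hdb, CharTwo.add_self_eq_zero, zero_mul]
    · rw [not_or] at hdi
      rw [if_neg hdi.1, if_neg hdi.2, add_zero, mul_zero]
  · intro h2
    exact absurd (star_sub hd₁) h2

end Gr

end Pool.Agent.Lib.MP06c549.T6H
end

section
/-!
# MP_06c549_co, T6H: cut vertices (separation lemmas)
-/
set_option autoImplicit false

namespace Pool.Agent.Lib.MP06c549.T6H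

open Finset

namespace Gr

variable {G : Gr}

/-- `j` is a side of `d` -/
def HasS (G : Gr) (d j : ℕ) : Prop := G.l d = j ∨ G.r d = j

/-- `T` is a union of components of the link of `v` without the face `i` -/
def Closed (G : Gr) (i v : ℕ) (T : Finset ℕ) : Prop :=
  ∀ d ∈ T, ∀ d' ∈ G.star v, ∀ j, j ≠ i → G.HasS d j → G.HasS d' j → d' ∈ T

/-- a union of components of the link without `i` meets every sum of faces evenly -/
lemma Closed.parity (hG : G.Good) {i v : ℕ} {T : Finset ℕ} (hv : v ∈ G.vs) (hT : T ⊆ G.star v)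
    (hcl : G.Closed i v T) {x : ℕ → ZMod 2} (hx : x i = 0) :
    ∑ d ∈ T, (x (G.l d) + x (G.r d)) = 0 := by
  classical
  let y : ℕ → ZMod 2 := fun j => if ∃ d ∈ T, G.HasS d j then x j else 0
  have h1 := hG.even v hv (fun j => if j = i then 0 else y j)
  rw [← sum_sdiff hT] at h1
  have h2 : ∑ d ∈ G.star v \ T, ((if G.l d = i then 0 else y (G.l d)) +
      (if G.r d = i then 0 else y (G.r d))) = 0 := by
    refine sum_eq_zero fun d hd => ?_
    rw [mem_sdiff] at hd
    have key : ∀ j, G.HasS d j → (if j = i then 0 else y j) = 0 := by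
      intro j hj
      split_ifs with h
      · rfl
      · refine if_neg ?_
        rintro ⟨d', hd', h'⟩
        exact hd.2 (hcl d' hd' d hd.1 j h h' hj)
    rw [key _ (Or.inl rfl), key _ (Or.inr rfl), add_zero]
  rw [h2, zero_add] at h1
  rw [← h1]
  refine sum_congr rfl fun d hd => ?_
  have key : ∀ j, G.HasS d j → (if j = i then 0 else y j) = x j := by
    intro j hj
    split_ifs with h
    · rw [h, hx]
    · exact if_pos ⟨d, hd, hj⟩
  rw [key _ (Or.inl rfl), key _ (Or.inr rfl)]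

/-- a union of components of the link without `i` meets every even set evenly -/
lemma Closed.even (hG : G.Good) {i v : ℕ} {T : Finset ℕ} (hv : v ∈ G.vs) (hT : T ⊆ G.star v)
    (hcl : G.Closed i v T) {z : ℕ → ZMod 2} (hz : ∀ u ∈ G.vs, ∑ d ∈ G.star u, z d = 0) :
    ∑ d ∈ T, z d = 0 := by
  obtain ⟨x, hx⟩ := hG.exact z hz
  rw [← Closed.parity hG hv hT hcl (x := fun j => x j + x i) (CharTwo.add_self_eq_zero _)]
  refine sum_congr rfl fun d hd => ?_
  rw [hx d (star_sub (hT hd))]
  have h2 := CharTwo.add_self_eq_zero (x i)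
  calc x (G.l d) + x (G.r d) = x (G.l d) + x (G.r d) + (x i + x i) := by rw [h2, add_zero]
    _ = x (G.l d) + x i + (x (G.r d) + x i) := by ring

/-- adjacency in `G - v` -/
def Rv (G : Gr) (v a b : ℕ) : Prop := a ≠ v ∧ b ≠ v ∧ G.Adj a b

lemma sum_star_single {d a b u : ℕ} (h : G.E d a b) (hab : a ≠ b) :
    ∑ e ∈ G.star u, (if e = d then (1 : ZMod 2) else 0) =
      (if u = a then 1 else 0) + (if u = b then 1 else 0) := by
  rw [sum_ite_eq']
  by_cases h1 : u = a
  · rw [if_pos (h.mem_star_iff.2 (Or.inl h1)), if_pos h1,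
      if_neg (fun h2 => hab (h1.symm.trans h2)), add_zero]
  · by_cases h2 : u = b
    · rw [if_pos (h.mem_star_iff.2 (Or.inr h2)), if_neg h1, if_pos h2, zero_add]
    · rw [if_neg (fun h3 => ?_), if_neg h1, if_neg h2, add_zero]
      rcases h.mem_star_iff.1 h3 with h4 | h4
      · exact h1 h4
      · exact h2 h4

/-- a path in `G - v` as a chain modulo two -/
lemma exists_chain (hG : G.Good) {v a b : ℕ} (h : Relation.ReflTransGen (G.Rv v) a b) :
    ∃ z : ℕ → ZMod 2, (∀ d ∈ G.star v, z d = 0) ∧ ∀ u ∈ G.vs,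
      ∑ d ∈ G.star u, z d = (if u = a then 1 else 0) + (if u = b then 1 else 0) := by
  induction h with
  | refl =>
    refine ⟨fun _ => 0, fun _ _ => rfl, fun u _ => ?_⟩
    rw [sum_const_zero, CharTwo.add_self_eq_zero]
  | @tail b c _ hbc ih =>
    obtain ⟨z, hz1, hz2⟩ := ih
    obtain ⟨hb, hc, e, he⟩ := hbc
    refine ⟨fun d => z d + if d = e then 1 else 0, fun d hd => ?_, fun u hu => ?_⟩
    · change z d + (if d = e then 1 else 0) = 0
      rw [hz1 d hd, zero_add]
      refine if_neg ?_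
      rintro rfl
      rcases he.ends hd with h | h
      · exact hb h.symm
      · exact hc h.symm
    · rw [sum_add_distrib, hz2 u hu, sum_star_single he (he.ne hG)]
      have := CharTwo.add_self_eq_zero (if u = b then (1 : ZMod 2) else 0)
      calc _ = (if u = a then (1 : ZMod 2) else 0) +
          ((if u = b then (1 : ZMod 2) else 0) + (if u = b then (1 : ZMod 2) else 0)) +
          (if u = c then 1 else 0) := by ring
        _ = _ := by rw [this, add_zero]

/-- edges at `v` in different parts of the link are not connected in `G - v` -/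
lemma Closed.sep (hG : G.Good) {i v : ℕ} {T : Finset ℕ} (hv : v ∈ G.vs) (hT : T ⊆ G.star v)
    (hcl : G.Closed i v T) {d d' a b : ℕ} (hd : d ∈ T) (hd' : d' ∉ T) (hda : G.E d v a)
    (hdb : G.E d' v b) : ¬ Relation.ReflTransGen (G.Rv v) a b := by
  intro h
  obtain ⟨z, hz1, hz2⟩ := exists_chain hG h
  have h1 := hcl.even hG hv hT (z := fun e => z e + ((if e = d then 1 else 0) +
      (if e = d' then 1 else 0))) (by
    intro u hu
    rw [sum_add_distrib, sum_add_distrib, hz2 u hu, sum_star_single hda (hda.ne hG),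
      sum_star_single hdb (hdb.ne hG)]
    generalize (if u = a then (1 : ZMod 2) else 0) = s1
    generalize (if u = b then (1 : ZMod 2) else 0) = s2
    generalize (if u = v then (1 : ZMod 2) else 0) = s3
    revert s1 s2 s3
    decide)
  rw [sum_add_distrib, sum_add_distrib, sum_ite_eq', if_pos hd, sum_ite_eq', if_neg hd',
    sum_eq_zero fun e he => hz1 e (hT he)] at h1
  simp at h1

/-- `G` splits into the vertex sets `A`, `B` and the (empty or one element) set `c`; only the face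
`u` has edges on both sides -/
structure Split (G : Gr) (u : ℕ) (c A B : Finset ℕ) : Prop where
  cov : ∀ a, a ∈ G.vs ↔ a ∈ A ∨ a ∈ B ∨ a ∈ c
  dAB : Disjoint A B
  dAc : Disjoint A c
  dBc : Disjoint B c
  nA : A.Nonempty
  nB : B.Nonempty
  noe : ∀ d, ∀ a ∈ A, ∀ b ∈ B, ¬ G.E d a b
  face : ∀ d ∈ G.tds A, ∀ d' ∈ G.tds B, ∀ j, G.HasS d j → G.HasS d' j → j = u

lemma Split.symm {u : ℕ} {c A B : Finset ℕ} (h : G.Split u c A B) : G.Split u c B A where
  cov a := by rw [h.cov]; tauto
  dAB := h.dAB.symm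
  dAc := h.dBc
  dBc := h.dAc
  nA := h.nB
  nB := h.nA
  noe d a ha b hb he := h.noe d b hb a ha he.symm
  face d hd d' hd' j h1 h2 := h.face d' hd' d hd j h2 h1

/-- every edge has an end in `A` or in `B` if `c` has at most one element -/
lemma Split.edge (hG : G.Good) {u : ℕ} {c A B : Finset ℕ} (h : G.Split u c A B)
    (hc : c.card ≤ 1) {d : ℕ} (hd : d ∈ G.ds) : d ∈ G.tds A ∨ d ∈ G.tds B := by
  rw [mem_tds, mem_tds]
  rcases (h.cov _).1 (hG.ends d hd).1 with h1 | h1 | h1
  · exact Or.inl ⟨hd, Or.inl h1⟩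
  · exact Or.inr ⟨hd, Or.inl h1⟩
  rcases (h.cov _).1 (hG.ends d hd).2 with h2 | h2 | h2
  · exact Or.inl ⟨hd, Or.inr h2⟩
  · exact Or.inr ⟨hd, Or.inr h2⟩
  exact absurd (card_le_one.1 hc _ h1 _ h2) (hG.ne d hd)

/-- no edge has an end in `A` and an end in `B` -/
lemma Split.edge_not {u : ℕ} {c A B : Finset ℕ} (h : G.Split u c A B) {d : ℕ}
    (hA : d ∈ G.tds A) : d ∉ G.tds B := by
  intro hB
  rw [mem_tds] at hA hB
  rcases hA.2 with h1 | h1 <;> rcases hB.2 with h2 | h2
  · exact disjoint_left.1 h.dAB h1 h2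
  · exact h.noe d _ h1 _ h2 ⟨hA.1, Or.inl ⟨rfl, rfl⟩⟩
  · exact h.noe d _ h1 _ h2 ⟨hA.1, Or.inr ⟨rfl, rfl⟩⟩
  · exact disjoint_left.1 h.dAB h1 h2

/-- the faces on the side `B` are linked to `u` through edges at `B` -/
lemma Split.FC (hG : G.Good) {u : ℕ} {c A B : Finset ℕ} (h : G.Split u c A B)
    (hc : c.card ≤ 1) (hu : u ∈ G.fs) : G.FC B u := by
  classical
  intro x hx i hi
  have h1 := hG.dconn (fun j => if j ∈ G.tf B then x j else x u) (by
    intro d hd
    by_cases hdB : d ∈ G.tds B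
    · rw [if_pos (l_mem_tf hdB), if_pos (r_mem_tf hdB)]
      exact hx d hdB
    · have hdA : d ∈ G.tds A := (h.edge hG hc hd).resolve_right hdB
      have key : ∀ j, G.HasS d j → (if j ∈ G.tf B then x j else x u) = x u := by
        intro j hj
        split_ifs with hjB
        · obtain ⟨d', hd', h'⟩ := mem_tf.1 hjB
          rw [h.face d hdA d' hd' j hj h']
        · rfl
      rw [key _ (Or.inl rfl), key _ (Or.inr rfl)]) i (tf_sub hG hi) u hu
  rw [if_pos hi] at h1
  rw [h1]
  split_ifs <;> rfl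

/-- a closed part of the link of `v` without `u` gives a split -/
theorem split_of_closed (hG : G.Good) {u v : ℕ} (hv : v ∈ G.vs) (hb : ∀ j, j ≠ u → G.BC j)
    {T : Finset ℕ} (hT : T ⊆ G.star v) (hTn : T.Nonempty) (hTn' : (G.star v \ T).Nonempty)
    (hcl : G.Closed u v T) : ∃ A B, G.Split u {v} A B := by
  classical
  let P : ℕ → Prop := fun b => ∃ d ∈ T, ∃ a, G.E d v a ∧ Relation.ReflTransGen (G.Rv v) a b
  have hPE : ∀ a b d, G.E d a b → a ≠ v → b ≠ v → P a → P b := by
    rintro a b d hd ha hb ⟨e, he, a', h1, h2⟩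
    exact ⟨e, he, a', h1, h2.tail ⟨ha, hb, d, hd⟩⟩
  have hT1 : ∀ d ∈ T, ∀ a, G.E d v a → P a := fun d hd a ha =>
    ⟨d, hd, a, ha, Relation.ReflTransGen.refl⟩
  have hT2 : ∀ d, d ∉ T → ∀ a, G.E d v a → ¬ P a := by
    rintro d hd a ha ⟨e, he, a', h1, h2⟩
    exact hcl.sep hG hv hT he hd h1 ha h2
  refine ⟨(G.vs.erase v).filter P, (G.vs.erase v).filter fun a => ¬ P a, ?_⟩
  refine ⟨?_, ?_, ?_, ?_, ?_, ?_, ?_, ?_⟩
  · intro a
    simp only [mem_filter, mem_erase, mem_singleton]
    constructor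
    · intro ha
      by_cases h1 : a = v
      · exact Or.inr (Or.inr h1)
      · by_cases h2 : P a
        · exact Or.inl ⟨⟨h1, ha⟩, h2⟩
        · exact Or.inr (Or.inl ⟨⟨h1, ha⟩, h2⟩)
    · rintro (⟨⟨_, h⟩, _⟩ | ⟨⟨_, h⟩, _⟩ | h)
      · exact h
      · exact h
      · rw [h]; exact hv
  · rw [disjoint_left]
    intro a h1 h2
    exact (mem_filter.1 h2).2 (mem_filter.1 h1).2
  · rw [disjoint_left]
    intro a h1 h2
    exact (mem_erase.1 (mem_filter.1 h1).1).1 (mem_singleton.1 h2)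
  · rw [disjoint_left]
    intro a h1 h2
    exact (mem_erase.1 (mem_filter.1 h1).1).1 (mem_singleton.1 h2)
  · obtain ⟨d, hd⟩ := hTn
    obtain ⟨a, ha⟩ := exists_E (hT hd)
    exact ⟨a, mem_filter.2 ⟨mem_erase.2 ⟨(ha.ne hG).symm, ha.symm.memv hG⟩, hT1 d hd a ha⟩⟩
  · obtain ⟨d, hd⟩ := hTn'
    rw [mem_sdiff] at hd
    obtain ⟨a, ha⟩ := exists_E hd.1
    exact ⟨a, mem_filter.2 ⟨mem_erase.2 ⟨(ha.ne hG).symm, ha.symm.memv hG⟩, hT2 d hd.2 a ha⟩⟩
  · intro d a ha b hb he
    simp only [mem_filter, mem_erase] at ha hb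
    exact hb.2 (hPE a b d he ha.1.1 hb.1.1 ha.2)
  · intro d hd d' hd' j hj hj'
    by_contra hju
    let f : ℕ → ZMod 2 := fun a => if a = v then (if ∃ e ∈ T, G.HasS e j then 1 else 0) else
      if P a then 1 else 0
    have hfv : ∀ e a, G.HasS e j → G.E e v a → f v = f a := by
      intro e a hej hea
      have hav : a ≠ v := (hea.ne hG).symm
      change (if v = v then _ else _) = if a = v then _ else _
      rw [if_pos rfl, if_neg hav]
      by_cases heT : e ∈ T
      · rw [if_pos ⟨e, heT, hej⟩, if_pos (hT1 e heT a hea)]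
      · rw [if_neg (hT2 e heT a hea), if_neg]
        rintro ⟨e', he', h⟩
        exact heT (hcl e' he' e hea.left j hju h hej)
    have hf : ∀ e ∈ G.ds, G.HasS e j → f (G.p e) = f (G.q e) := by
      intro e he hej
      have hE : G.E e (G.p e) (G.q e) := ⟨he, Or.inl ⟨rfl, rfl⟩⟩
      by_cases h1 : G.p e = v
      · rw [h1]
        rw [h1] at hE
        exact hfv e _ hej hE
      by_cases h2 : G.q e = v
      · rw [h2]
        rw [h2] at hE
        exact (hfv e _ hej hE.symm).symm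
      change (if G.p e = v then _ else _) = if G.q e = v then _ else _
      rw [if_neg h1, if_neg h2]
      by_cases h3 : P (G.p e)
      · rw [if_pos h3, if_pos (hPE _ _ e hE h1 h2 h3)]
      · rw [if_neg h3, if_neg (fun h4 => h3 (hPE _ _ e hE.symm h2 h1 h4))]
    have hfA : f (G.p d) = 1 := by
      have h1 : ∀ a, a ∈ (G.vs.erase v).filter P → f a = 1 := by
        intro a ha
        rw [mem_filter, mem_erase] at ha
        change (if a = v then _ else _) = _
        rw [if_neg ha.1.1, if_pos ha.2]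
      rw [mem_tds] at hd
      rcases hd.2 with h2 | h2
      · exact h1 _ h2
      · rw [hf d hd.1 hj]; exact h1 _ h2
    have hfB : f (G.p d') = 0 := by
      have h1 : ∀ a, a ∈ (G.vs.erase v).filter (fun a => ¬ P a) → f a = 0 := by
        intro a ha
        rw [mem_filter, mem_erase] at ha
        change (if a = v then _ else _) = _
        rw [if_neg ha.1.1, if_neg ha.2]
      rw [mem_tds] at hd'
      rcases hd'.2 with h2 | h2
      · exact h1 _ h2
      · rw [hf d' hd'.1 hj']; exact h1 _ h2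
    have h3 := hb j hju f hf d (tds_sub hd) hj d' (tds_sub hd') hj'
    rw [hfA, hfB] at h3
    exact one_ne_zero h3

/-- sets of edges at `v` which meet every face evenly are closed under intersection -/
lemma Ev.inter (hG : G.Good) {v : ℕ} {Z Z' : Finset ℕ} (hZ : Z ⊆ G.star v) (hZ' : Z' ⊆ G.star v)
    (h : G.Ev Z) (h' : G.Ev Z') : G.Ev (Z ∩ Z') := by
  classical
  obtain ⟨c, hc⟩ := cut_of_ev hG (hZ.trans star_sub) h
  obtain ⟨c', hc'⟩ := cut_of_ev hG (hZ'.trans star_sub) h'
  refine ev_of_cut hG ((inter_subset_left.trans hZ).trans star_sub)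
    (c := fun a => (c a + c v) * (c' a + c' v)) fun d hd => ?_
  have h1 := hc d hd
  have h2 := hc' d hd
  have key : (if d ∈ Z ∩ Z' then (1 : ZMod 2) else 0) =
      (if d ∈ Z then 1 else 0) * (if d ∈ Z' then 1 else 0) := by
    by_cases h3 : d ∈ Z <;> by_cases h4 : d ∈ Z' <;> simp [h3, h4]
  rw [key, ← h1, ← h2]
  by_cases h3 : d ∈ G.star v
  · rcases (mem_star.1 h3).2 with h4 | h4
    · rw [h4]
      generalize c v = s1
      generalize c' v = s2
      generalize c (G.q d) = s3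
      generalize c' (G.q d) = s4
      revert s1 s2 s3 s4
      decide
    · rw [h4]
      generalize c v = s1
      generalize c' v = s2
      generalize c (G.p d) = s3
      generalize c' (G.p d) = s4
      revert s1 s2 s3 s4
      decide
  · rw [if_neg fun h => h3 (hZ h)] at h1
    rw [if_neg fun h => h3 (hZ' h)] at h2
    rw [CharTwo.add_eq_zero.1 h1, CharTwo.add_eq_zero.1 h2]
    generalize c v = s1
    generalize c' v = s2
    generalize c (G.q d) = s3
    generalize c' (G.q d) = s4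
    revert s1 s2 s3 s4
    decide

/-- if the face `j` occurs at least twice at `v` then the link of `v` without `j` is disconnected -/
theorem exists_closed (hG : G.Good) {j v : ℕ} (h4 : 4 ≤ G.cnt j v) :
    ∃ T ⊆ G.star v, T.Nonempty ∧ (G.star v \ T).Nonempty ∧ G.Closed j v T := by
  classical
  by_cases hloop : ∃ e ∈ G.star v, G.l e = j ∧ G.r e = j
  · obtain ⟨e, he, hl, hr⟩ := hloop
    refine ⟨{e}, singleton_subset_iff.2 he, singleton_nonempty e, ?_, ?_⟩
    · by_contra hcon
      rw [not_nonempty_iff_eq_empty, sdiff_eq_empty_iff_subset] at hcon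
      have h1 : (G.star v).card ≤ 1 := by
        have := card_le_card hcon
        rwa [card_singleton] at this
      have h2 := card_filter_le (G.star v) fun d => G.l d = j
      have h3 := card_filter_le (G.star v) fun d => G.r d = j
      unfold cnt at h4
      omega
    · intro d hd d' _ k hk h _
      rw [mem_singleton] at hd
      subst hd
      rcases h with h | h
      · exact absurd (h.symm.trans hl) hk
      · exact absurd (h.symm.trans hr) hk
  · push Not at hloop
    have hother : ∀ e ∈ G.star v, G.HasS e j → ∃ i, i ≠ j ∧ G.S e j i := by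
      intro e he h
      by_cases hl : G.l e = j
      · exact ⟨G.r e, hloop e he hl, Or.inl ⟨hl, rfl⟩⟩
      · exact ⟨G.l e, hl, Or.inr ⟨rfl, h.resolve_left hl⟩⟩
    have hJ : 2 < ((G.star v).filter fun e => G.HasS e j).card := by
      have h1 : (G.star v).filter (fun e => G.HasS e j) =
          ((G.star v).filter fun e => G.l e = j) ∪ ((G.star v).filter fun e => G.r e = j) := by
        ext e
        rw [mem_filter, mem_union, mem_filter, mem_filter, ← and_or_left]
        rfl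
      rw [h1, card_union_of_disjoint]
      · unfold cnt at h4
        omega
      · rw [disjoint_left]
        intro e he he'
        rw [mem_filter] at he he'
        exact hloop e he.1 he.2 he'.2
    obtain ⟨d1, hd1, d2, hd2, d3, hd3, h12, h13, h23⟩ := two_lt_card.1 hJ
    rw [mem_filter] at hd1 hd2 hd3
    obtain ⟨i1, hi1, hs1⟩ := hother d1 hd1.1 hd1.2
    let R : ℕ → ℕ → Prop := fun x y => ∃ e ∈ G.star v, ¬ G.HasS e j ∧ G.S e x y
    have hchain : ∀ x, Relation.ReflTransGen R i1 x → ∃ z : ℕ → ZMod 2,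
        (∀ e, G.HasS e j → z e = 0) ∧
        ∀ y : ℕ → ZMod 2, ∑ e ∈ G.star v, z e * (y (G.l e) + y (G.r e)) = y i1 + y x := by
      intro x hx
      induction hx with
      | refl =>
        refine ⟨fun _ => 0, fun _ _ => rfl, fun y => ?_⟩
        simp only [zero_mul, sum_const_zero]
        exact (CharTwo.add_self_eq_zero _).symm
      | @tail b c _ hbc ih =>
        obtain ⟨z, hz1, hz2⟩ := ih
        obtain ⟨e, he, hej, hes⟩ := hbc
        refine ⟨fun d => z d + if d = e then 1 else 0, fun d hd => ?_, fun y => ?_⟩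
        · have h1 : d ≠ e := fun h => hej (h ▸ hd)
          simp only [hz1 d hd, if_neg h1, add_zero]
        · simp only [add_mul, sum_add_distrib, hz2 y, ite_mul, one_mul, zero_mul]
          rw [sum_ite_eq', if_pos he, hes.sum y]
          have := CharTwo.add_self_eq_zero (y b)
          linear_combination this
    have mk : ∀ t ∈ G.star v, t ≠ d1 → ∀ it, G.S t j it → Relation.ReflTransGen R i1 it →
        ∃ Z ⊆ G.star v, G.Ev Z ∧ ∀ e ∈ G.star v, G.HasS e j → (e ∈ Z ↔ e = d1 ∨ e = t) := by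
      intro t ht htd it hst hreach
      obtain ⟨z, hz1, hz2⟩ := hchain it hreach
      let z' : ℕ → ZMod 2 := fun e => z e + ((if e = d1 then 1 else 0) + if e = t then 1 else 0)
      refine ⟨(G.star v).filter fun e => z' e = 1, filter_subset _ _, ?_, ?_⟩
      · intro y
        have h1 : ∑ e ∈ G.star v, z' e * (y (G.l e) + y (G.r e)) = 0 := by
          simp only [z', add_mul, sum_add_distrib, hz2 y, ite_mul, one_mul, zero_mul]
          rw [sum_ite_eq', if_pos hd1.1, sum_ite_eq', if_pos ht, hs1.sum y, hst.sum y]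
          generalize y i1 = s1
          generalize y it = s2
          generalize y j = s3
          revert s1 s2 s3
          decide
        rw [← h1, sum_filter]
        refine sum_congr rfl fun e _ => ?_
        rcases zmod2 (z' e) with h | h
        · rw [if_neg (by rw [h]; exact zero_ne_one), h, zero_mul]
        · rw [if_pos h, h, one_mul]
      · intro e he hej
        rw [mem_filter]
        simp only [z', hz1 e hej, zero_add]
        by_cases h1 : e = d1
        · have h2 : e ≠ t := fun h => htd (h.symm.trans h1)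
          simp [h1, hd1.1, htd.symm]
        · by_cases h2 : e = t
          · simp [h2, ht, htd]
          · simp [h1, h2]
    refine ⟨(G.star v).filter fun e => ∃ k, k ≠ j ∧ G.HasS e k ∧ Relation.ReflTransGen R i1 k,
      filter_subset _ _, ⟨d1, ?_⟩, ?_, ?_⟩
    · exact mem_filter.2 ⟨hd1.1, i1, hi1, hs1.symm.imp And.left And.right, Relation.ReflTransGen.refl⟩
    · by_contra hcon
      rw [not_nonempty_iff_eq_empty, sdiff_eq_empty_iff_subset] at hcon
      have hreach : ∀ t ∈ G.star v, G.HasS t j → ∃ it, G.S t j it ∧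
          Relation.ReflTransGen R i1 it := by
        intro t ht htj
        obtain ⟨k, hk, hk1, hk2⟩ := (mem_filter.1 (hcon ht)).2
        refine ⟨k, ?_, hk2⟩
        rcases htj with h1 | h1 <;> rcases hk1 with h2 | h2
        · exact absurd (h2.symm.trans h1) hk
        · exact Or.inl ⟨h1, h2⟩
        · exact Or.inr ⟨h2, h1⟩
        · exact absurd (h2.symm.trans h1) hk
      obtain ⟨i2, hs2, hr2⟩ := hreach d2 hd2.1 hd2.2
      obtain ⟨i3, hs3, hr3⟩ := hreach d3 hd3.1 hd3.2
      obtain ⟨Z2, hZ2, hE2, hm2⟩ := mk d2 hd2.1 h12.symm i2 hs2 hr2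
      obtain ⟨Z3, hZ3, hE3, hm3⟩ := mk d3 hd3.1 h13.symm i3 hs3 hr3
      have hE := Ev.inter hG hZ2 hZ3 hE2 hE3 fun k => if k = j then 1 else 0
      rw [sum_eq_single d1] at hE
      · rcases hs1 with ⟨h1, h2⟩ | ⟨h1, h2⟩
        · rw [h1, h2, if_pos rfl, if_neg hi1, add_zero] at hE
          exact one_ne_zero hE
        · rw [h1, h2, if_pos rfl, if_neg hi1, zero_add] at hE
          exact one_ne_zero hE
      · intro e he hne
        rw [mem_inter] at he
        have h1 : ¬ G.HasS e j := by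
          intro h
          have g2 := ((hm2 e (hZ2 he.1) h).1 he.1).resolve_left hne
          have g3 := ((hm3 e (hZ3 he.2) h).1 he.2).resolve_left hne
          exact h23 (g2.symm.trans g3)
        unfold HasS at h1
        rw [not_or] at h1
        rw [if_neg h1.1, if_neg h1.2, add_zero]
      · intro h
        exact absurd (mem_inter.2 ⟨(hm2 d1 hd1.1 hd1.2).2 (Or.inl rfl),
          (hm3 d1 hd1.1 hd1.2).2 (Or.inl rfl)⟩) h
    · intro e he e' he' k hk h h'
      obtain ⟨he1, k0, hk0, h0, hr⟩ := mem_filter.1 he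
      refine mem_filter.2 ⟨he', k, hk, h', ?_⟩
      by_cases hkk : k0 = k
      · rw [← hkk]; exact hr
      · have hS : G.S e k0 k := by
          rcases h0 with h1 | h1 <;> rcases h with h2 | h2
          · exact absurd (h1.symm.trans h2) hkk
          · exact Or.inl ⟨h1, h2⟩
          · exact Or.inr ⟨h2, h1⟩
          · exact absurd (h1.symm.trans h2) hkk
        refine hr.tail ⟨e, he1, ?_, hS⟩
        rintro (h1 | h1)
        · rcases hS with ⟨h2, _⟩ | ⟨h2, _⟩
          · exact hk0 (h2.symm.trans h1)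
          · exact hk (h2.symm.trans h1)
        · rcases hS with ⟨_, h2⟩ | ⟨_, h2⟩
          · exact hk (h2.symm.trans h1)
          · exact hk0 (h2.symm.trans h1)

/-- a vertex at which the face `j` occurs at least twice gives a split -/
theorem exists_split (hG : G.Good) {j v : ℕ} (hv : v ∈ G.vs) (hb : ∀ k, k ≠ j → G.BC k)
    (h4 : 4 ≤ G.cnt j v) : ∃ A B, G.Split j {v} A B := by
  obtain ⟨T, h1, h2, h3, h5⟩ := exists_closed hG h4
  exact split_of_closed hG hv hb h1 h2 h3 h5

end Gr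

end Pool.Agent.Lib.MP06c549.T6H
end

section
/-!
# MP_06c549_co, T6H: the two sides of a 2-edge cut
-/
set_option autoImplicit false

namespace Pool.Agent.Lib.MP06c549.T6H

open Finset

namespace Gr

variable {G : Gr}

/-- the boundary of the face `i` is connected -/
def BConn (G : Gr) (i : ℕ) : Prop :=
  ∀ f : ℕ → ZMod 2, (∀ d ∈ G.ds, (G.l d = i ∨ G.r d = i) → f (G.p d) = f (G.q d)) →
    ∀ d ∈ G.ds, (G.l d = i ∨ G.r d = i) → ∀ d' ∈ G.ds, (G.l d' = i ∨ G.r d' = i) →
      f (G.p d) = f (G.p d')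

/-- the edge `d` has the sides `i` and `j` -/
def Sd (G : Gr) (d i j : ℕ) : Prop := (G.l d = i ∧ G.r d = j) ∨ (G.l d = j ∧ G.r d = i)

/-- a cut function of the two edges `e1`, `e2` with the sides `o`, `z` -/
structure Cut2 (G : Gr) (o z e1 e2 : ℕ) (f : ℕ → ZMod 2) : Prop where
  m1 : e1 ∈ G.ds
  m2 : e2 ∈ G.ds
  s1 : G.Sd e1 o z
  s2 : G.Sd e2 o z
  c1 : f (G.p e1) ≠ f (G.q e1)
  c2 : f (G.p e2) ≠ f (G.q e2)
  other : ∀ d ∈ G.ds, d ≠ e1 → d ≠ e2 → f (G.p d) = f (G.q d)
  bc : ∀ i ∈ G.fs, i ≠ o → G.BConn i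

lemma zmod2_eq_of_ne {a b c : ZMod 2} (h : a ≠ c) (h' : b ≠ c) : a = b := by
  rcases zmod2 a with rfl | rfl <;> rcases zmod2 b with rfl | rfl <;>
    rcases zmod2 c with rfl | rfl <;> simp_all

/-- two edges with the same sides form a cut -/
theorem exists_cut2 (hG : G.Good) {o z e1 e2 : ℕ} (m1 : e1 ∈ G.ds) (m2 : e2 ∈ G.ds)
    (s1 : G.Sd e1 o z) (s2 : G.Sd e2 o z) (hne : e1 ≠ e2)
    (bc : ∀ i ∈ G.fs, i ≠ o → G.BConn i) : ∃ f, G.Cut2 o z e1 e2 f := by
  have hsum : ∀ (d : ℕ) (x : ℕ → ZMod 2), G.Sd d o z → x (G.l d) + x (G.r d) = x o + x z := by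
    rintro d x (⟨h1, h2⟩ | ⟨h1, h2⟩)
    · rw [h1, h2]
    · rw [h1, h2, add_comm]
  obtain ⟨f, hf⟩ := cut_of_ev hG (K := {e1, e2}) (by
    intro d hd
    rcases mem_insert.1 hd with rfl | hd
    · exact m1
    · rw [mem_singleton.1 hd]; exact m2) (by
    intro x
    rw [sum_pair hne, hsum e1 x s1, hsum e2 x s2]
    exact CharTwo.add_self_eq_zero _)
  have e01 : (1 : ZMod 2) ≠ 0 := by decide
  refine ⟨f, m1, m2, s1, s2, ?_, ?_, ?_, bc⟩
  · intro h
    have h1 := hf e1 m1
    rw [if_pos (mem_insert_self _ _), h] at h1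
    rw [CharTwo.add_self_eq_zero] at h1
    exact e01 h1.symm
  · intro h
    have h1 := hf e2 m2
    rw [if_pos (mem_insert_of_mem (mem_singleton_self _)), h] at h1
    rw [CharTwo.add_self_eq_zero] at h1
    exact e01 h1.symm
  · intro d hd h1 h2
    have h3 := hf d hd
    rw [if_neg (by
      intro h4
      rcases mem_insert.1 h4 with h4 | h4
      · exact h1 h4
      · exact h2 (mem_singleton.1 h4))] at h3
    exact CharTwo.add_eq_zero.1 h3

/-- a face other than `o`, `z` lies on one side of the cut -/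
lemma Cut2.face {o z e1 e2 : ℕ} {f : ℕ → ZMod 2} (h : G.Cut2 o z e1 e2 f) (hG : G.Good) {i : ℕ}
    (hio : i ≠ o) (hiz : i ≠ z) {d d' : ℕ} (hd : d ∈ G.ds) (hi : G.l d = i ∨ G.r d = i)
    (hd' : d' ∈ G.ds) (hi' : G.l d' = i ∨ G.r d' = i) :
    f (G.p d) = f (G.q d) ∧ f (G.p d') = f (G.q d') ∧ f (G.p d) = f (G.p d') := by
  have key : ∀ d ∈ G.ds, (G.l d = i ∨ G.r d = i) → f (G.p d) = f (G.q d) := by
    intro d hd hi
    refine h.other d hd ?_ ?_
    · rintro rfl
      rcases h.s1 with ⟨h1, h2⟩ | ⟨h1, h2⟩ <;> rcases hi with h3 | h3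
      · exact hio (h3.symm.trans h1)
      · exact hiz (h3.symm.trans h2)
      · exact hiz (h3.symm.trans h1)
      · exact hio (h3.symm.trans h2)
    · rintro rfl
      rcases h.s2 with ⟨h1, h2⟩ | ⟨h1, h2⟩ <;> rcases hi with h3 | h3
      · exact hio (h3.symm.trans h1)
      · exact hiz (h3.symm.trans h2)
      · exact hiz (h3.symm.trans h1)
      · exact hio (h3.symm.trans h2)
  have hfs : i ∈ G.fs := by
    rcases hi with h1 | h1
    · rw [← h1]; exact (hG.sides d hd).1
    · rw [← h1]; exact (hG.sides d hd).2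
  exact ⟨key d hd hi, key d' hd' hi', h.bc i hfs hio f key d hd hi d' hd' hi'⟩

/-- the vertices on one side -/
def side (G : Gr) (f : ℕ → ZMod 2) (c : ZMod 2) : Finset ℕ := G.vs.filter fun v => f v = c

lemma mem_side {f : ℕ → ZMod 2} {c : ZMod 2} {v : ℕ} : v ∈ G.side f c ↔ v ∈ G.vs ∧ f v = c := by
  rw [side, mem_filter]

lemma side_sub {f : ℕ → ZMod 2} {c : ZMod 2} : G.side f c ⊆ G.vs := filter_subset _ _

lemma Cut2.l_tf {o z e1 e2 : ℕ} {f : ℕ → ZMod 2} (h : G.Cut2 o z e1 e2 f) (hG : G.Good)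
    {c : ZMod 2} {i : ℕ} (hio : i ≠ o) (hiz : i ≠ z) (hi : i ∈ G.tf (G.side f c)) {d : ℕ}
    (hd : d ∈ G.ds) (hdi : G.l d = i ∨ G.r d = i) : f (G.p d) = c ∧ f (G.q d) = c := by
  obtain ⟨d', hd', hi'⟩ := mem_tf.1 hi
  have h1 := h.face hG hio hiz hd hdi (tds_sub hd') hi'
  have h2 : f (G.p d') = c := by
    rcases (mem_tds.1 hd').2 with h3 | h3
    · exact (mem_side.1 h3).2
    · rw [h1.2.1]; exact (mem_side.1 h3).2
  exact ⟨h1.2.2.trans h2, h1.1 ▸ h1.2.2.trans h2⟩

lemma Cut2.symm {o z e1 e2 : ℕ} {f : ℕ → ZMod 2} (h : G.Cut2 o z e1 e2 f) :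
    G.Cut2 o z e2 e1 f :=
  ⟨h.m2, h.m1, h.s2, h.s1, h.c2, h.c1, fun d hd h1 h2 => h.other d hd h2 h1, h.bc⟩

lemma Cut2.e1_tds {o z e1 e2 : ℕ} {f : ℕ → ZMod 2} (h : G.Cut2 o z e1 e2 f) (hG : G.Good)
    (c : ZMod 2) : e1 ∈ G.tds (G.side f c) := by
  rw [mem_tds]
  refine ⟨h.m1, ?_⟩
  by_cases h1 : f (G.p e1) = c
  · exact Or.inl (mem_side.2 ⟨(hG.ends _ h.m1).1, h1⟩)
  · refine Or.inr (mem_side.2 ⟨(hG.ends _ h.m1).2, ?_⟩)
    by_contra h2
    exact h.c1 (zmod2_eq_of_ne h1 h2)

/-- one side of a 2-edge cut may be deleted -/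
theorem Cut2.FC_side {o z e1 e2 : ℕ} {f : ℕ → ZMod 2} (h : G.Cut2 o z e1 e2 f) (hG : G.Good)
    (ho : o ∈ G.fs) (c : ZMod 2) : G.FC (G.side f c) o := by
  intro x hx
  have hz : x z = x o := by
    have h1 := hx e1 (h.e1_tds hG c)
    rcases h.s1 with ⟨h2, h3⟩ | ⟨h2, h3⟩
    · rw [h2, h3] at h1; exact h1.symm
    · rw [h2, h3] at h1; exact h1
  set W := G.side f c with hW
  have key : ∀ d ∈ G.ds, (if G.l d ∈ G.tf W then x (G.l d) else x o) =
      (if G.r d ∈ G.tf W then x (G.r d) else x o) := by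
    intro d hd
    by_cases hdW : d ∈ G.tds W
    · rw [if_pos (l_mem_tf hdW), if_pos (r_mem_tf hdW)]
      exact hx d hdW
    · have aux : ∀ i, (G.l d = i ∨ G.r d = i) → i ∈ G.tf W → x i = x o := by
        intro i hi hiW
        by_cases hio : i = o
        · rw [hio]
        by_cases hiz : i = z
        · rw [hiz, hz]
        exfalso
        have h1 := h.l_tf hG hio hiz hiW hd hi
        exact hdW (mem_tds.2 ⟨hd, Or.inl (mem_side.2 ⟨(hG.ends d hd).1, h1.1⟩)⟩)
      have h1 : (if G.l d ∈ G.tf W then x (G.l d) else x o) = x o := by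
        split_ifs with h3
        · exact aux _ (Or.inl rfl) h3
        · rfl
      have h2 : (if G.r d ∈ G.tf W then x (G.r d) else x o) = x o := by
        split_ifs with h3
        · exact aux _ (Or.inr rfl) h3
        · rfl
      rw [h1, h2]
  intro i hi
  have h1 := hG.dconn (fun i => if i ∈ G.tf W then x i else x o) key i (tf_sub hG hi) o ho
  simp only [if_pos hi] at h1
  rw [h1]
  split_ifs <;> rfl

/-- the union of two linked sets -/
lemma FC_cup {A B : Finset ℕ} {u : ℕ} (hA : G.FC A u) (hB : G.FC B u) : G.FC (A ∪ B) u := by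
  intro x hx i hi
  obtain ⟨d, hd, hdi⟩ := mem_tf.1 hi
  have hd' := mem_tds.1 hd
  have hsA : ∀ d ∈ G.tds A, d ∈ G.tds (A ∪ B) := by
    intro d hd
    rw [mem_tds] at hd ⊢
    exact ⟨hd.1, hd.2.imp (fun h => mem_union_left _ h) (fun h => mem_union_left _ h)⟩
  have hsB : ∀ d ∈ G.tds B, d ∈ G.tds (A ∪ B) := by
    intro d hd
    rw [mem_tds] at hd ⊢
    exact ⟨hd.1, hd.2.imp (fun h => mem_union_right _ h) (fun h => mem_union_right _ h)⟩
  have hcase : d ∈ G.tds A ∨ d ∈ G.tds B := by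
    rw [mem_tds, mem_tds]
    rcases hd'.2 with h | h <;> rcases mem_union.1 h with h | h
    · exact Or.inl ⟨hd'.1, Or.inl h⟩
    · exact Or.inr ⟨hd'.1, Or.inl h⟩
    · exact Or.inl ⟨hd'.1, Or.inr h⟩
    · exact Or.inr ⟨hd'.1, Or.inr h⟩
  rcases hcase with h | h
  · exact hA x (fun d hd => hx d (hsA d hd)) i (mem_tf.2 ⟨d, h, hdi⟩)
  · exact hB x (fun d hd => hx d (hsB d hd)) i (mem_tf.2 ⟨d, h, hdi⟩)

end Gr

end Pool.Agent.Lib.MP06c549.T6H
end
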