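import Pool.Agent.Lib.MP_06c549_co.T6H.Base
import Pool.Agent.Lib.MP_06c549_co.T6H.Side
import Pool.Agent.Lib.MP_06c549_co.T6H.Loc
import Pool.Agent.Lib.MP_06c549_co.T6H.Par
import Pool.Agent.Lib.MP_06c549_co.T6H.RingO
import Pool.Agent.Lib.MP_06c549_co.T6H.Step56
import Pool.Agent.Lib.MP_06c549_co.T6H.T1

section
/-!
# MP_06c549_co, T6H: iterated deletion

`(G.del A u).del B u = G.del (A ∪ B) u`, and the condition `FC` for iterated deletions.
-/
set_option autoImplicit false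

namespace Pool.Agent.Lib.MP06c549.T6H

open Finset

namespace Gr

variable {G : Gr} {u : ℕ} {A B : Finset ℕ}

lemma mem_tds_del {d : ℕ} : d ∈ (G.del A u).tds B ↔ d ∈ G.tds B ∧ d ∉ G.tds A := by
  rw [mem_tds, mem_tds]
  simp only [del, mem_sdiff]
  tauto

lemma tds_union : G.tds (A ∪ B) = G.tds A ∪ G.tds B := by
  ext d
  rw [mem_union, mem_tds, mem_tds, mem_tds, mem_union, mem_union]
  tauto

lemma tf_union : G.tf (A ∪ B) = G.tf A ∪ G.tf B := by
  ext i
  rw [mem_union, mem_tf, mem_tf, mem_tf, tds_union]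
  constructor
  · rintro ⟨d, hd, h⟩
    rcases mem_union.1 hd with h1 | h1
    · exact Or.inl ⟨d, h1, h⟩
    · exact Or.inr ⟨d, h1, h⟩
  · rintro (⟨d, hd, h⟩ | ⟨d, hd, h⟩)
    · exact ⟨d, mem_union_left _ hd, h⟩
    · exact ⟨d, mem_union_right _ hd, h⟩

/-- the faces touched by `B` after the deletion of `A` -/
lemma mem_tf_del {i : ℕ} (hi : i ≠ u) : i ∈ (G.del A u).tf B ↔ i ∈ G.tf B ∧ i ∉ G.tf A := by
  rw [mem_tf]
  constructor
  · rintro ⟨d, hd, h⟩
    rw [mem_tds_del] at hd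
    have key : ∀ j, (j = G.l d ∨ j = G.r d) → G.phi A u j = i → i ∈ G.tf B ∧ i ∉ G.tf A := by
      intro j hj h1
      by_cases h2 : j ∈ G.tf A
      · rw [phi_of_mem h2] at h1
        exact absurd h1.symm hi
      · rw [phi_of_not h2] at h1
        subst h1
        refine ⟨mem_tf.2 ⟨d, hd.1, ?_⟩, h2⟩
        rcases hj with h3 | h3
        · exact Or.inl h3.symm
        · exact Or.inr h3.symm
    rcases h with h | h
    · exact key _ (Or.inl rfl) h
    · exact key _ (Or.inr rfl) h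
  · rintro ⟨h1, h2⟩
    obtain ⟨d, hd, h⟩ := mem_tf.1 h1
    refine ⟨d, mem_tds_del.2 ⟨hd, fun h3 => h2 (mem_tf.2 ⟨d, h3, h⟩)⟩, ?_⟩
    simp only [del]
    rcases h with h | h
    · left
      rw [h, phi_of_not h2]
    · right
      rw [h, phi_of_not h2]

/-- iterated deletion -/
theorem del_del (hh : u ∉ G.hs) (hn : u ∉ G.ns) :
    (G.del A u).del B u = G.del (A ∪ B) u := by
  have hphi : ∀ i, (G.del A u).phi B u (G.phi A u i) = G.phi (A ∪ B) u i := by
    intro i
    by_cases hiu : i = u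
    · rw [hiu, phi_u, phi_u, phi_u]
    by_cases hA : i ∈ G.tf A
    · rw [phi_of_mem hA, phi_u, phi_of_mem]
      rw [tf_union]
      exact mem_union_left _ hA
    · rw [phi_of_not hA]
      by_cases hB : i ∈ G.tf B
      · rw [phi_of_mem ((mem_tf_del hiu).2 ⟨hB, hA⟩), phi_of_mem]
        rw [tf_union]
        exact mem_union_right _ hB
      · rw [phi_of_not fun h => hB ((mem_tf_del hiu).1 h).1, phi_of_not]
        rw [tf_union, mem_union]
        tauto
  have hfs : ∀ T : Finset ℕ, insert u ((insert u (T \ G.tf A)) \ (G.del A u).tf B) =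
      insert u (T \ G.tf (A ∪ B)) := by
    intro T
    ext i
    by_cases hiu : i = u
    · rw [hiu]
      simp
    · rw [tf_union]
      simp only [mem_insert, mem_sdiff, mem_union, hiu, false_or, mem_tf_del hiu]
      tauto
  have h1 : ((G.vs \ A) \ B) = G.vs \ (A ∪ B) := by
    rw [sdiff_sdiff_left]
    rfl
  have h2 : (G.del A u).ds \ (G.del A u).tds B = G.ds \ G.tds (A ∪ B) := by
    ext d
    rw [mem_sdiff, mem_tds_del, tds_union, mem_sdiff, mem_union]
    simp only [del, mem_sdiff]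
    tauto
  have h3 : insert u ((G.del A u).fs \ (G.del A u).tf B) = insert u (G.fs \ G.tf (A ∪ B)) :=
    hfs G.fs
  have h4 : insert u ((G.del A u).us \ (G.del A u).tf B) = insert u (G.us \ G.tf (A ∪ B)) :=
    hfs G.us
  have h5 : (fun d => (G.del A u).phi B u ((G.del A u).l d)) = fun d => G.phi (A ∪ B) u (G.l d) :=
    funext fun d => hphi (G.l d)
  have h6 : (fun d => (G.del A u).phi B u ((G.del A u).r d)) = fun d => G.phi (A ∪ B) u (G.r d) :=
    funext fun d => hphi (G.r d)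
  have h7 : ∀ T : Finset ℕ, u ∉ T → (T \ G.tf A) \ (G.del A u).tf B = T \ G.tf (A ∪ B) := by
    intro T hT
    ext i
    by_cases hiu : i = u
    · rw [hiu]
      simp only [mem_sdiff, hT, false_and]
    · rw [tf_union]
      simp only [mem_sdiff, mem_union, mem_tf_del hiu]
      tauto
  have h8 : (G.del A u).hs \ (G.del A u).tf B = G.hs \ G.tf (A ∪ B) := h7 G.hs hh
  have h9 : (G.del A u).ns \ (G.del A u).tf B = G.ns \ G.tf (A ∪ B) := h7 G.ns hn
  change Gr.mk _ _ _ _ _ _ _ _ _ _ _ = Gr.mk _ _ _ _ _ _ _ _ _ _ _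
  rw [Gr.mk.injEq]
  exact ⟨h1, h2, h3, h4, h8, h9, rfl, rfl, h5, h6, rfl⟩

/-- `FC` after a first deletion -/
theorem FC_del (h : G.FC (A ∪ B) u) : (G.del A u).FC B u := by
  intro x hx i hi
  have h1 := h (fun j => x (G.phi A u j)) (by
    intro d hd
    by_cases hdA : d ∈ G.tds A
    · rw [phi_of_mem (l_mem_tf hdA), phi_of_mem (r_mem_tf hdA)]
    · refine hx d (mem_tds_del.2 ⟨?_, hdA⟩)
      rw [tds_union] at hd
      rcases mem_union.1 hd with h1 | h1
      · exact absurd h1 hdA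
      · exact h1)
  by_cases hiu : i = u
  · rw [hiu]
  · obtain ⟨h2, h3⟩ := (mem_tf_del hiu).1 hi
    have h4 := h1 i (by rw [tf_union]; exact mem_union_right _ h2)
    change x (G.phi A u i) = x (G.phi A u u) at h4
    rwa [phi_of_not h3, phi_u] at h4

/-- `FC` of a union from two deletions -/
theorem FC_union (h1 : G.FC A u) (h2 : (G.del A u).FC B u) : G.FC (A ∪ B) u := by
  intro x hx
  have hA : ∀ i ∈ G.tf A, x i = x u := h1 x fun d hd => hx d (by
    rw [tds_union]; exact mem_union_left _ hd)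
  have hphi : ∀ i, x (G.phi A u i) = x i := by
    intro i
    by_cases h : i ∈ G.tf A
    · rw [phi_of_mem h, hA i h]
    · rw [phi_of_not h]
  have hB := h2 x (by
    intro d hd
    change x (G.phi A u (G.l d)) = x (G.phi A u (G.r d))
    rw [hphi, hphi]
    refine hx d ?_
    rw [tds_union]
    exact mem_union_right _ (mem_tds_del.1 hd).1)
  intro i hi
  by_cases hiu : i = u
  · rw [hiu]
  by_cases hiA : i ∈ G.tf A
  · exact hA i hiA
  · rw [tf_union] at hi
    rcases mem_union.1 hi with h | h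
    · exact absurd h hiA
    · exact hB i ((mem_tf_del hiu).2 ⟨h, hiA⟩)

end Gr

end Pool.Agent.Lib.MP06c549.T6H
end

section
/-!
# MP_06c549_co, T6H: tight graphs

A graph of the class with `pot = N tau`, the bound being known for all smaller graphs. (D0)
`Tight.free`, (D1) `Tight.not_isolated`, `Tight.not_leaf`, (D2) `Tight.not_two`, (D3) `Tight.cv`,
`Tight.not_cv`, (D4) `Tight.bridge`, components `Tight.comp`.
-/
set_option autoImplicit false

namespace Pool.Agent.Lib.MP06c549.T6H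

open Finset

namespace Gr

variable {G : Gr} {u : ℕ}

/-! ## Sets linked to `u` -/

/-- a set which is not linked to `u` is left by an even set of edges without the side `u` -/
theorem Cls.unlinked {m : ℕ} (hG : G.Cls u m) {W : Finset ℕ} (hW : W ⊆ G.vs)
    (h : ¬ G.FC W u) : ∃ T ⊆ G.ds, T.Nonempty ∧ G.Ev T ∧
      ∀ d ∈ T, ¬ (G.p d ∈ W ↔ G.q d ∈ W) ∧ G.l d ≠ u ∧ G.r d ≠ u := by
  classical
  unfold FC at h
  push Not at h
  obtain ⟨x, hx, i, hi, hxi⟩ := h
  have hg0 := hG.good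
  let g : ℕ → ZMod 2 := fun v => if h : (G.star v).Nonempty then x (G.l h.choose) else x u
  have hg : ∀ w ∈ W, ∀ i, G.Touch w i → x i = g w := by
    intro w hw i hi
    have hne : (G.star w).Nonempty := by
      obtain ⟨d, hd, _⟩ := hi
      exact ⟨d, hd⟩
    simp only [g, dif_pos hne]
    exact link' hg0 (hW hw) (fun d hd => hx d (star_sub_tds hw hd)) hi
      ⟨hne.choose, hne.choose_spec, Or.inl rfl⟩
  have tp : ∀ d ∈ G.ds, ∀ i, (G.l d = i ∨ G.r d = i) → G.Touch (G.p d) i := fun d hd i hi =>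
    ⟨d, mem_star.2 ⟨hd, Or.inl rfl⟩, hi⟩
  have tq : ∀ d ∈ G.ds, ∀ i, (G.l d = i ∨ G.r d = i) → G.Touch (G.q d) i := fun d hd i hi =>
    ⟨d, mem_star.2 ⟨hd, Or.inr rfl⟩, hi⟩
  let A := W.filter fun w => g w ≠ x u
  have hA : ∀ w, w ∈ A ↔ w ∈ W ∧ g w ≠ x u := fun w => mem_filter
  let T := G.ds.filter fun d => ¬ (G.p d ∈ A ↔ G.q d ∈ A)
  have hT : ∀ d, d ∈ T ↔ d ∈ G.ds ∧ ¬ (G.p d ∈ A ↔ G.q d ∈ A) := fun d => mem_filter
  have hEv : G.Ev T := by
    refine ev_of_cut hg0 (filter_subset _ _) (c := fun w => if w ∈ A then 1 else 0)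
      fun d hd => ?_
    by_cases h1 : G.p d ∈ A <;> by_cases h2 : G.q d ∈ A
    · rw [if_pos h1, if_pos h2, if_neg (fun h3 => ((hT d).1 h3).2 ⟨fun _ => h2, fun _ => h1⟩)]
      decide
    · rw [if_pos h1, if_neg h2, if_pos ((hT d).2 ⟨hd, fun h3 => h2 (h3.1 h1)⟩)]
      decide
    · rw [if_neg h1, if_pos h2, if_pos ((hT d).2 ⟨hd, fun h3 => h1 (h3.2 h2)⟩)]
      decide
    · rw [if_neg h1, if_neg h2, if_neg (fun h3 => ((hT d).1 h3).2
        ⟨fun h4 => absurd h4 h1, fun h4 => absurd h4 h2⟩)]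
      decide
  refine ⟨T, filter_subset _ _, ?_, hEv, fun d hd => ?_⟩
  · by_contra hTe
    rw [not_nonempty_iff_eq_empty] at hTe
    have hcF : G.FC A u := by
      refine comp_FC hg0 hG.hu hG.bc (f := fun w => if w ∈ A then 1 else 0) (fun d hd => ?_)
        fun w _ => ?_
      · have h1 : d ∉ T := by rw [hTe]; exact notMem_empty d
        rw [hT, not_and, not_not] at h1
        simp only [h1 hd]
      · by_cases h1 : w ∈ A
        · simp [h1]
        · simp [h1]
    obtain ⟨d, hd, hdi⟩ := mem_tf.1 hi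
    rw [mem_tds] at hd
    have key : ∀ w ∈ W, G.Touch w i → False := by
      intro w hw hwi
      have hwA : w ∈ A := by
        rw [hA, ← hg w hw i hwi]
        exact ⟨hw, hxi⟩
      refine hxi (hcF x (fun d hd => ?_) i ?_)
      · rw [mem_tds] at hd
        refine hx d (mem_tds.2 ⟨hd.1, ?_⟩)
        rcases hd.2 with h1 | h1
        · exact Or.inl ((hA _).1 h1).1
        · exact Or.inr ((hA _).1 h1).1
      · obtain ⟨e, he, hei⟩ := hwi
        exact mem_tf.2 ⟨e, star_sub_tds hwA he, hei⟩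
    rcases hd.2 with h1 | h1
    · exact key _ h1 (tp d hd.1 i hdi)
    · exact key _ h1 (tq d hd.1 i hdi)
  · obtain ⟨hd1, hd2⟩ := (hT d).1 hd
    have hu : ∀ w, (w = G.p d ∨ w = G.q d) → w ∈ A → ∀ i, (G.l d = i ∨ G.r d = i) → i ≠ u := by
      rintro w hw hwA i hi rfl
      obtain ⟨h1, h2⟩ := (hA w).1 hwA
      refine h2 (hg w h1 i ?_).symm
      rcases hw with rfl | rfl
      · exact tp d hd1 i hi
      · exact tq d hd1 i hi
    have hgg : G.p d ∈ W → G.q d ∈ W → g (G.p d) = g (G.q d) := by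
      intro h1 h2
      rw [← hg _ h1 (G.l d) (tp d hd1 _ (Or.inl rfl)), ← hg _ h2 (G.l d) (tq d hd1 _ (Or.inl rfl))]
    have hex : ∃ w, (w = G.p d ∨ w = G.q d) ∧ w ∈ A := by
      by_contra hcon
      push Not at hcon
      exact hd2 ⟨fun h => absurd h (hcon _ (Or.inl rfl)), fun h => absurd h (hcon _ (Or.inr rfl))⟩
    obtain ⟨w, hw, hwA⟩ := hex
    refine ⟨fun hiff => hd2 ?_, hu w hw hwA _ (Or.inl rfl), hu w hw hwA _ (Or.inr rfl)⟩
    have h3 : G.p d ∈ W ∧ G.q d ∈ W := by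
      rcases hw with rfl | rfl
      · exact ⟨((hA _).1 hwA).1, hiff.1 ((hA _).1 hwA).1⟩
      · exact ⟨hiff.2 ((hA _).1 hwA).1, ((hA _).1 hwA).1⟩
    rw [hA, hA, hgg h3.1 h3.2]
    exact ⟨fun h => ⟨h3.2, h.2⟩, fun h => ⟨h3.1, h.2⟩⟩

/-- a set is linked to `u` if every edge leaving it has the side `u` -/
theorem Cls.FC_out {m : ℕ} (hG : G.Cls u m) {W : Finset ℕ} (hW : W ⊆ G.vs)
    (h : ∀ d ∈ G.ds, ¬ (G.p d ∈ W ↔ G.q d ∈ W) → G.l d = u ∨ G.r d = u) : G.FC W u := by
  by_contra hcon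
  obtain ⟨T, hT, ⟨d, hd⟩, -, h1⟩ := hG.unlinked hW hcon
  obtain ⟨h2, h3, h4⟩ := h1 d hd
  rcases h d (hT hd) h2 with h5 | h5
  · exact h3 h5
  · exact h4 h5

/-- a set is linked to `u` if every edge leaving it has the side `u` or is at the vertex `v` on
`u` -/
theorem Cls.FC_at {m : ℕ} (hG : G.Cls u m) {W : Finset ℕ} (hW : W ⊆ G.vs) {v : ℕ}
    (hv : G.Touch v u) (hcnt : ∀ i ∈ G.fs, i ≠ u → G.cnt i v ≤ 3)
    (h : ∀ d ∈ G.ds, ¬ (G.p d ∈ W ↔ G.q d ∈ W) → (G.l d = u ∨ G.r d = u) ∨ d ∈ G.star v) :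
    G.FC W u := by
  classical
  by_contra hcon
  obtain ⟨T, hT, hTne, hEv, h1⟩ := hG.unlinked hW hcon
  have hTv : T ⊆ G.star v := by
    intro d hd
    obtain ⟨h2, h3, h4⟩ := h1 d hd
    rcases h d (hT hd) h2 with (h5 | h5) | h5
    · exact absurd h5 h3
    · exact absurd h5 h4
    · exact h5
  have hTs : T ≠ G.star v := by
    rintro rfl
    obtain ⟨d, hd, hdu⟩ := hv
    rcases hdu with h2 | h2
    · exact (h1 d hd).2.1 h2
    · exact (h1 d hd).2.2 h2
  obtain ⟨i, hi, ⟨d, hd, hdi⟩, -, h4⟩ := ev_common hG.good (touch_mem hG.good hv).1 hTv hEv hTne hTs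
  have hiu : i ≠ u := by
    rintro rfl
    rcases hdi with h2 | h2
    · exact (h1 d hd).2.1 h2
    · exact (h1 d hd).2.2 h2
  have := hcnt i hi hiu
  omega

/-! ## Tight graphs -/

/-- a tight graph with fewer than `n` vertices, the bound being known for all graphs with fewer than
`n` vertices -/
structure Tight (a b c N m n u : ℕ) (K : Gr) : Prop where
  cls : K.Cls u m
  ih : Bnd a b c N m n
  lt : K.vs.card < n
  le : K.pot a b c ≤ N * K.tau

variable {K : Gr} {a b c N m n : ℕ}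

/-- the bound for a part of `K` -/
lemma part_le (ih : Bnd a b c N m n) (hK : K.Cls u m) (hn : K.vs.card < n) {V : Finset ℕ}
    (hV : V ⊆ K.vs) (hF : K.FC (K.vs \ V) u) :
    N * (K.del (K.vs \ V) u).tau ≤ (K.del (K.vs \ V) u).pot a b c := by
  refine ih u _ (hK.del hF) ?_
  rw [vs_del_compl hV]
  exact lt_of_le_of_lt (card_le_card hV) hn

/-- MOVE in a tight graph -/
theorem Tight.move (h : Tight a b c N m n u K) (hbc : b ≤ c) (hN : N ≤ 2 * a)
    {W X₀ Y₀ B : Finset ℕ} (hW : W ⊆ K.vs) (hne : W.Nonempty) (hFC : K.FC W u) (hX₀ : X₀ ⊆ K.vs)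
    (hY₀ : Y₀ ⊆ K.fs \ K.us) (hB : B ⊆ (K.tf W).erase u)
    (hcov : ∀ d ∈ K.tds W, K.p d ∈ X₀ ∨ K.q d ∈ X₀ ∨ K.l d ∈ Y₀ ∨ K.r d ∈ Y₀) :
    a * W.card + b * B.card ≤ N * (X₀.card + K.fpr Y₀) := by
  have h1 := cost_move_le hbc hN h.ih h.cls h.lt.le hW hne hFC hX₀ hY₀ (empty_subset _) hB hcov
  have h2 := h.le
  unfold tau at h2
  omega

/-- MOVE in a tight graph with two parts and forced sets -/
theorem Tight.move_two (h : Tight a b c N m n u K) (hbc : b ≤ c)
    {V₁ V₂ T₁ T₂ X₀ Y₀ B : Finset ℕ} (hV₁ : V₁ ⊆ K.vs) (hV₂ : V₂ ⊆ K.vs) (hV : Disjoint V₁ V₂)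
    (hF₁ : K.FC (K.vs \ V₁) u) (hF₂ : K.FC (K.vs \ V₂) u) (hT₁ : T₁ ⊆ V₁) (hT₂ : T₂ ⊆ V₂)
    (hX₀ : X₀ ⊆ K.vs) (hY₀ : Y₀ ⊆ K.fs \ K.us)
    (hB₁ : B ⊆ (K.tf (K.vs \ V₁)).erase u) (hB₂ : B ⊆ (K.tf (K.vs \ V₂)).erase u)
    (hcov : ∀ d ∈ K.rest V₁ V₂,
      K.p d ∈ X₀ ∪ (T₁ ∪ T₂) ∨ K.q d ∈ X₀ ∪ (T₁ ∪ T₂) ∨ K.l d ∈ Y₀ ∨ K.r d ∈ Y₀) :
    (K.del (K.vs \ V₁) u).pot a b c + (K.del (K.vs \ V₂) u).pot a b c +
      a * (K.vs \ (V₁ ∪ V₂)).card + 2 * a * K.ws (K.rest V₁ V₂) + b * B.card ≤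
      N * (X₀.card + K.fpr Y₀ + K.ws (K.nb (K.rest V₁ V₂) Y₀) +
        (K.del (K.vs \ V₁) u).cost T₁ + (K.del (K.vs \ V₂) u).cost T₂) := by
  have hK₁ := h.cls.del hF₁
  have hK₂ := h.cls.del hF₂
  have h4 := cost_two (u := u) (S := ∅) hK₁.good hK₂.good hV₁ hV₂ hT₁ hT₂ hX₀ hY₀
    (empty_subset _) hcov
  have h5 := pot_two_le (a := a) hbc h.cls.good h.cls.huc hV₁ hV₂ hV hB₁ hB₂
  have h1 := h.le
  have h7 : N * K.tau ≤ N * (X₀.card + K.fpr Y₀ + K.ws (K.nb (K.rest V₁ V₂) Y₀) +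
      (K.del (K.vs \ V₁) u).cost T₁ + (K.del (K.vs \ V₂) u).cost T₂) := Nat.mul_le_mul_left N h4
  omega

/-- a forced outer vertex: free, or the potential is large -/
lemma free_or (ih : Bnd a b c N m n) (hK : K.Cls u m) (hn : K.vs.card ≤ n) (hbc : b ≤ c)
    (hN : N ≤ 2 * a) {x : ℕ} (hx : x ∈ K.vs) (hF : K.FC {x} u) {B : Finset ℕ}
    (hB : B ⊆ (K.tf {x}).erase u) :
    K.cost {x} = K.tau ∨ N * K.tau + a + b * B.card ≤ K.pot a b c := by
  have h1 := cost_T hbc hN ih hK hn (singleton_subset_iff.2 hx) (singleton_nonempty x) hF hB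
  have h2 : K.tau ≤ K.cost {x} := tau_le_cost hK.good (singleton_subset_iff.2 hx)
  rw [card_singleton] at h1
  by_cases h3 : K.cost {x} = K.tau
  · exact Or.inl h3
  · right
    have h4 : K.tau + 1 ≤ K.cost {x} := by omega
    have h5 := Nat.mul_le_mul_left N h4
    rw [mul_add] at h5
    omega

/-- (D0): one or two outer vertices are free -/
theorem Tight.free (h : Tight a b c N m n u K) (hbc : b ≤ c) (hN : N < 2 * a) {T : Finset ℕ}
    (hT : T ⊆ K.vs) (hF : K.FC T u) (hc : T.card ≤ 2) : K.cost T = K.tau := by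
  rcases T.eq_empty_or_nonempty with rfl | hne
  · rfl
  refine le_antisymm ?_ (tau_le_cost h.cls.good hT)
  by_contra hcon
  have h1 := cost_T (B := ∅) hbc hN.le h.ih h.cls h.lt.le hT hne hF (empty_subset _)
  have h2 := h.le
  have h4 : K.tau + 1 ≤ K.cost T := by omega
  have h5 := Nat.mul_le_mul_left N h4
  rw [mul_add] at h5
  have h6 := hne.card_pos
  rw [card_empty] at h1
  have h7 : T.card = 1 ∨ T.card = 2 := by omega
  rcases h7 with h7 | h7 <;> rw [h7] at h1 <;> omega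

/-- (D1): no isolated vertex -/
theorem Tight.not_isolated (h : Tight a b c N m n u K) (hbc : b ≤ c) (hN : N < 2 * a) {y : ℕ}
    (hy : y ∈ K.vs) : K.star y ≠ ∅ := by
  intro hs
  have hF : K.FC {y} u := FC_single h.cls.good hy (Or.inl hs)
  have h1 := h.move (X₀ := ∅) (Y₀ := ∅) (B := ∅) hbc hN.le (singleton_subset_iff.2 hy)
    (singleton_nonempty y) hF (empty_subset _) (empty_subset _) (empty_subset _) (by
      intro d hd
      rw [mem_tds, mem_singleton, mem_singleton, ← mem_star, hs] at hd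
      exact absurd hd (notMem_empty d))
  simp only [card_singleton, card_empty, fpr_empty] at h1
  omega

/-- (D1): no leaf on `u` -/
theorem Tight.not_leaf (h : Tight a b c N m n u K) (hbc : b ≤ c) (hN : N < 2 * a) {y z d : ℕ}
    (hy : K.star y = {d}) (hd : K.E d y z) (hu : K.Touch y u) : False := by
  have hg := h.cls.good
  have hyv := hd.memv hg
  have hzv := hd.symm.memv hg
  have hF : K.FC {z, y} u :=
    (FC_single hg hyv (Or.inr hu)).insert_adj hg (mem_singleton_self y) ⟨d, hd.symm⟩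
  have h1 := h.move (X₀ := {z}) (Y₀ := ∅) (B := ∅) hbc hN.le (by
      intro v hv
      rw [mem_insert, mem_singleton] at hv
      rcases hv with rfl | rfl
      · exact hzv
      · exact hyv) ⟨z, by simp⟩ hF (singleton_subset_iff.2 hzv) (empty_subset _)
    (empty_subset _) (by
      intro e he
      have h2 : e ∈ K.star z := by
        rw [tds_insert, mem_union] at he
        rcases he with he | he
        · exact he
        · rw [mem_tds, mem_singleton, mem_singleton, ← mem_star, hy, mem_singleton] at he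
          rw [he]
          exact hd.right
      rcases (mem_star.1 h2).2 with h3 | h3
      · exact Or.inl (mem_singleton.2 h3)
      · exact Or.inr (Or.inl (mem_singleton.2 h3)))
  rw [card_pair (hd.ne hg).symm, card_singleton, card_empty, fpr_empty] at h1
  omega

/-- an outer vertex of a part -/
lemma part_FC (hK : K.Good) {V : Finset ℕ} (hF : K.FC (K.vs \ V) u) {x : ℕ} (hu : K.Touch x u) :
    (K.del (K.vs \ V) u).FC {x} u := by
  refine FC_del ?_
  rw [union_comm, ← insert_eq]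
  exact hF.insert_out hK (touch_mem hK hu).1 hu

/-- a forced outer vertex of a part: free, or the potential is large -/
lemma part_free_or (ih : Bnd a b c N m n) (hK : K.Cls u m) (hn : K.vs.card < n) (hbc : b ≤ c)
    (hN : N ≤ 2 * a) {V : Finset ℕ} (hV : V ⊆ K.vs) (hF : K.FC (K.vs \ V) u) {x : ℕ}
    (hx : x ∈ V) (hu : K.Touch x u) :
    (K.del (K.vs \ V) u).cost {x} = (K.del (K.vs \ V) u).tau ∨
      N * (K.del (K.vs \ V) u).tau + a ≤ (K.del (K.vs \ V) u).pot a b c := by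
  have h := free_or (B := ∅) ih (hK.del hF) (by
    rw [vs_del_compl hV]
    exact (lt_of_le_of_lt (card_le_card hV) hn).le) hbc hN (x := x) (by
    rw [vs_del_compl hV]; exact hx) (part_FC hK.good hF hu) (empty_subset _)
  rwa [card_empty, mul_zero, add_zero] at h

/-- a tight part -/
lemma part_tight (h : Tight a b c N m n u K) {V : Finset ℕ} (hV : V ⊆ K.vs)
    (hF : K.FC (K.vs \ V) u)
    (hle : (K.del (K.vs \ V) u).pot a b c ≤ N * (K.del (K.vs \ V) u).tau) :
    Tight a b c N m n u (K.del (K.vs \ V) u) where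
  cls := h.cls.del hF
  ih := h.ih
  lt := by
    rw [vs_del_compl hV]
    exact lt_of_le_of_lt (card_le_card hV) h.lt
  le := hle

/-- (D4): both sides of a bridge `e` on `u` are tight -/
theorem Tight.bridge (h : Tight a b c N m n u K) (hbc : b ≤ c) (hN : N < 2 * a) {e s t : ℕ}
    (he : K.E e s t) (hu : K.l e = u ∨ K.r e = u) {f : ℕ → ZMod 2} (hst : f s ≠ f t)
    (hf : ∀ d ∈ K.ds, d ≠ e → f (K.p d) = f (K.q d)) :
    Tight a b c N m n u (K.del (K.vs \ K.vs.filter fun v => f v = f s) u) ∧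
      Tight a b c N m n u (K.del (K.vs \ K.vs.filter fun v => f v = f t) u) ∧ K.w e = 0 := by
  classical
  have hg := h.cls.good
  set V₁ := K.vs.filter fun v => f v = f s with hV₁
  set V₂ := K.vs.filter fun v => f v = f t with hV₂
  have m1 : ∀ v, v ∈ V₁ ↔ v ∈ K.vs ∧ f v = f s := fun v => mem_filter
  have m2 : ∀ v, v ∈ V₂ ↔ v ∈ K.vs ∧ f v = f t := fun v => mem_filter
  have two : ∀ x y z : ZMod 2, x ≠ y → z = x ∨ z = y := by decide
  have hsub1 : V₁ ⊆ K.vs := filter_subset _ _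
  have hsub2 : V₂ ⊆ K.vs := filter_subset _ _
  have hdis : Disjoint V₁ V₂ := by
    rw [disjoint_left]
    intro v h1 h2
    exact hst (((m1 v).1 h1).2.symm.trans ((m2 v).1 h2).2)
  have hun : K.vs \ (V₁ ∪ V₂) = ∅ := by
    rw [sdiff_eq_empty_iff_subset]
    intro v hv
    rw [mem_union, m1, m2]
    rcases two _ _ (f v) hst with h1 | h1
    · exact Or.inl ⟨hv, h1⟩
    · exact Or.inr ⟨hv, h1⟩
  have side : ∀ V : Finset ℕ, (∀ v w, v ∈ K.vs → w ∈ K.vs → f v = f w → (v ∈ V ↔ w ∈ V)) →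
      K.FC (K.vs \ V) u := by
    intro V hV
    refine h.cls.FC_out sdiff_subset fun d hd hnd => ?_
    by_cases hde : d = e
    · rw [hde]; exact hu
    · exfalso
      apply hnd
      have h1 := hV _ _ (hg.ends d hd).1 (hg.ends d hd).2 (hf d hd hde)
      rw [mem_sdiff, mem_sdiff, h1]
      exact ⟨fun h2 => ⟨(hg.ends d hd).2, h2.2⟩, fun h2 => ⟨(hg.ends d hd).1, h2.2⟩⟩
  have hF₁ : K.FC (K.vs \ V₁) u := side V₁ fun v w hv hw hvw => by
    rw [m1, m1, hvw]
    exact ⟨fun h2 => ⟨hw, h2.2⟩, fun h2 => ⟨hv, h2.2⟩⟩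
  have hF₂ : K.FC (K.vs \ V₂) u := side V₂ fun v w hv hw hvw => by
    rw [m2, m2, hvw]
    exact ⟨fun h2 => ⟨hw, h2.2⟩, fun h2 => ⟨hv, h2.2⟩⟩
  have hrest : ∀ d, d ∈ K.rest V₁ V₂ ↔ d = e := by
    intro d
    rw [mem_rest]
    constructor
    · rintro ⟨hd, h1, h2⟩
      by_contra hde
      have h3 := hf d hd hde
      rcases two _ _ (f (K.p d)) hst with h4 | h4
      · exact h1 ⟨(m1 _).2 ⟨(hg.ends d hd).1, h4⟩, (m1 _).2 ⟨(hg.ends d hd).2, h3 ▸ h4⟩⟩
      · exact h2 ⟨(m2 _).2 ⟨(hg.ends d hd).1, h4⟩, (m2 _).2 ⟨(hg.ends d hd).2, h3 ▸ h4⟩⟩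
    · rintro rfl
      refine ⟨he.1, fun h1 => ?_, fun h1 => ?_⟩
      · have h2 := ((m1 _).1 h1.1).2
        have h3 := ((m1 _).1 h1.2).2
        rcases he.2 with ⟨h4, h5⟩ | ⟨h4, h5⟩
        · rw [h5] at h3; exact hst h3.symm
        · rw [h4] at h2; exact hst h2.symm
      · have h2 := ((m2 _).1 h1.1).2
        have h3 := ((m2 _).1 h1.2).2
        rcases he.2 with ⟨h4, h5⟩ | ⟨h4, h5⟩
        · rw [h4] at h2; exact hst h2
        · rw [h5] at h3; exact hst h3
  have hre : K.rest V₁ V₂ = {e} := by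
    ext d
    rw [hrest, mem_singleton]
  have hws : K.ws (K.rest V₁ V₂) = K.w e := by rw [hre, ws, sum_singleton]
  have hsu : K.Touch s u := ⟨e, he.left, hu⟩
  have htu : K.Touch t u := ⟨e, he.right, hu⟩
  have hs1 : s ∈ V₁ := (m1 s).2 ⟨he.memv hg, rfl⟩
  have ht2 : t ∈ V₂ := (m2 t).2 ⟨he.symm.memv hg, rfl⟩
  have p1 := part_le h.ih h.cls h.lt hsub1 hF₁
  have p2 := part_le h.ih h.cls h.lt hsub2 hF₂
  have mv : ∀ T₁ T₂ X₀ : Finset ℕ, T₁ ⊆ V₁ → T₂ ⊆ V₂ → X₀ ⊆ K.vs → (s ∈ X₀ ∪ (T₁ ∪ T₂) ∨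
      t ∈ X₀ ∪ (T₁ ∪ T₂)) →
      (K.del (K.vs \ V₁) u).pot a b c + (K.del (K.vs \ V₂) u).pot a b c + 2 * a * K.w e ≤
      N * (X₀.card + K.w e + (K.del (K.vs \ V₁) u).cost T₁ + (K.del (K.vs \ V₂) u).cost T₂) := by
    intro T₁ T₂ X₀ hT₁ hT₂ hX₀ hc
    have h1 := h.move_two (B := ∅) (Y₀ := ∅) hbc hsub1 hsub2 hdis hF₁ hF₂ hT₁ hT₂ hX₀
      (empty_subset _) (empty_subset _) (empty_subset _) (by
        intro d hd
        rw [hrest] at hd
        subst hd
        rcases he.2 with ⟨h4, h5⟩ | ⟨h4, h5⟩ <;> rcases hc with hc | hc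
        · exact Or.inl (h4 ▸ hc)
        · exact Or.inr (Or.inl (h5 ▸ hc))
        · exact Or.inr (Or.inl (h5 ▸ hc))
        · exact Or.inl (h4 ▸ hc))
    rw [hun, nb_empty, hws, card_empty] at h1
    simpa using h1
  -- one of the ends is free
  have fin : (K.del (K.vs \ V₁) u).pot a b c + (K.del (K.vs \ V₂) u).pot a b c + 2 * a * K.w e ≤
      N * (K.w e + (K.del (K.vs \ V₁) u).tau + (K.del (K.vs \ V₂) u).tau) := by
    rcases part_free_or h.ih h.cls h.lt hbc hN.le hsub1 hF₁ hs1 hsu with h1 | h1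
    · have h3 := mv {s} ∅ ∅ (singleton_subset_iff.2 hs1) (empty_subset _) (empty_subset _)
        (by simp)
      rw [h1, card_empty, zero_add] at h3
      exact h3
    rcases part_free_or h.ih h.cls h.lt hbc hN.le hsub2 hF₂ ht2 htu with h2 | h2
    · have h3 := mv ∅ {t} ∅ (empty_subset _) (singleton_subset_iff.2 ht2) (empty_subset _)
        (by simp)
      rw [h2, card_empty, zero_add] at h3
      exact h3
    exfalso
    have h3 := mv ∅ ∅ {s} (empty_subset _) (empty_subset _)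
      (singleton_subset_iff.2 (he.memv hg)) (by simp)
    rw [card_singleton] at h3
    change _ ≤ N * (1 + K.w e + (K.del (K.vs \ V₁) u).tau + (K.del (K.vs \ V₂) u).tau) at h3
    have h4 : N * K.w e ≤ 2 * a * K.w e := Nat.mul_le_mul_right _ hN.le
    rw [mul_add, mul_add, mul_add, mul_one] at h3
    omega
  rw [mul_add, mul_add] at fin
  obtain ⟨k, hk⟩ := Nat.exists_eq_add_of_lt hN
  have hw : K.w e = 0 := by
    by_contra hw
    have h5 : 1 ≤ K.w e := by omega
    rw [hk, show (N + k + 1) * K.w e = N * K.w e + (k + 1) * K.w e by ring] at fin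
    have h6 : 1 * 1 ≤ (k + 1) * K.w e := Nat.mul_le_mul (by omega) h5
    omega
  rw [hw] at fin
  simp only [mul_zero] at fin
  exact ⟨part_tight h hsub1 hF₁ (by omega), part_tight h hsub2 hF₂ (by omega), hw⟩

/-- (D2): no vertex of degree two with both edges inside `u` -/
theorem Tight.not_two (h : Tight a b c N m n u K) (hbc : b ≤ c) (hN : N < 2 * a) {y d1 d2 : ℕ}
    (hy : K.star y = {d1, d2}) (hne : d1 ≠ d2) (l1 : K.l d1 = u) (r1 : K.r d1 = u)
    (l2 : K.l d2 = u) : False := by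
  classical
  have hg := h.cls.good
  have md1 : d1 ∈ K.star y := by rw [hy]; simp
  have md2 : d2 ∈ K.star y := by rw [hy]; simp
  obtain ⟨s, hs⟩ := exists_E md1
  obtain ⟨t, ht⟩ := exists_E md2
  have hyv : y ∈ K.vs := hs.memv hg
  have hEv : K.Ev {d1} := fun x => by
    rw [sum_singleton, l1, r1]
    exact CharTwo.add_self_eq_zero _
  obtain ⟨f, hf⟩ := cut_of_ev hg (singleton_subset_iff.2 hs.1) hEv
  have two : ∀ x y : ZMod 2, x + y = 1 → x ≠ y := by decide
  have two' : ∀ x y z : ZMod 2, x ≠ y → z = x ∨ z = y := by decide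
  have hsy : f s ≠ f y := by
    have h1 := hf d1 hs.1
    rw [if_pos (mem_singleton_self _)] at h1
    rcases hs.2 with ⟨h4, h5⟩ | ⟨h4, h5⟩
    · rw [h4, h5] at h1; exact (two _ _ h1).symm
    · rw [h4, h5] at h1; exact two _ _ h1
  have hfd : ∀ d ∈ K.ds, d ≠ d1 → f (K.p d) = f (K.q d) := by
    intro d hd hd1
    have h1 := hf d hd
    rw [if_neg (by rwa [mem_singleton])] at h1
    exact CharTwo.add_eq_zero.1 h1
  have hty : f t = f y := by
    have h1 := hfd d2 ht.1 hne.symm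
    rcases ht.2 with ⟨h4, h5⟩ | ⟨h4, h5⟩
    · rw [h4, h5] at h1; exact h1.symm
    · rw [h4, h5] at h1; exact h1
  have hty' : t ≠ y := (ht.ne hg).symm
  set V₁ := K.vs.filter fun v => f v = f s with hV₁
  set V₂ := K.vs.filter fun v => f v = f y ∧ v ≠ y with hV₂
  have m1 : ∀ v, v ∈ V₁ ↔ v ∈ K.vs ∧ f v = f s := fun v => mem_filter
  have m2 : ∀ v, v ∈ V₂ ↔ v ∈ K.vs ∧ f v = f y ∧ v ≠ y := fun v => mem_filter
  have hsub1 : V₁ ⊆ K.vs := filter_subset _ _
  have hsub2 : V₂ ⊆ K.vs := filter_subset _ _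
  have hdis : Disjoint V₁ V₂ := by
    rw [disjoint_left]
    intro v h1 h2
    exact hsy (((m1 v).1 h1).2.symm.trans ((m2 v).1 h2).2.1)
  have hun : K.vs \ (V₁ ∪ V₂) = {y} := by
    ext v
    rw [mem_sdiff, mem_union, m1, m2, mem_singleton]
    constructor
    · rintro ⟨h1, h2⟩
      by_contra h3
      rcases two' _ _ (f v) hsy with h4 | h4
      · exact h2 (Or.inl ⟨h1, h4⟩)
      · exact h2 (Or.inr ⟨h1, h4, h3⟩)
    · rintro rfl
      refine ⟨hyv, ?_⟩
      rintro (h1 | h1)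
      · exact hsy h1.2.symm
      · exact h1.2.2 rfl
  have hF₁ : K.FC (K.vs \ V₁) u := by
    refine h.cls.FC_out sdiff_subset fun d hd hnd => ?_
    by_cases hde : d = d1
    · rw [hde]; exact Or.inl l1
    · exfalso
      apply hnd
      rw [mem_sdiff, mem_sdiff, m1, m1, hfd d hd hde]
      have h1 := hg.ends d hd
      tauto
  have hF₂ : K.FC (K.vs \ V₂) u := by
    refine h.cls.FC_out sdiff_subset fun d hd hnd => ?_
    by_cases hde : d = d1
    · rw [hde]; exact Or.inl l1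
    by_cases hde2 : d = d2
    · rw [hde2]; exact Or.inl l2
    · exfalso
      apply hnd
      have h2 : d ∉ K.star y := by
        rw [hy, mem_insert, mem_singleton, not_or]
        exact ⟨hde, hde2⟩
      have h3 : K.p d ≠ y := fun h4 => h2 (mem_star.2 ⟨hd, Or.inl h4⟩)
      have h4 : K.q d ≠ y := fun h4 => h2 (mem_star.2 ⟨hd, Or.inr h4⟩)
      rw [mem_sdiff, mem_sdiff, m2, m2, hfd d hd hde]
      have h1 := hg.ends d hd
      tauto
  have hrest : ∀ d ∈ K.rest V₁ V₂, d = d1 ∨ d = d2 := by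
    intro d hd
    rw [mem_rest] at hd
    obtain ⟨hd, h1, h2⟩ := hd
    by_contra hcon
    rw [not_or] at hcon
    have h0 : d ∉ K.star y := by
      rw [hy, mem_insert, mem_singleton, not_or]
      exact hcon
    have h3 : K.p d ≠ y := fun h4 => h0 (mem_star.2 ⟨hd, Or.inl h4⟩)
    have h4 : K.q d ≠ y := fun h4 => h0 (mem_star.2 ⟨hd, Or.inr h4⟩)
    have h5 := hfd d hd hcon.1
    rcases two' _ _ (f (K.p d)) hsy with h6 | h6
    · exact h1 ⟨(m1 _).2 ⟨(hg.ends d hd).1, h6⟩, (m1 _).2 ⟨(hg.ends d hd).2, h5 ▸ h6⟩⟩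
    · exact h2 ⟨(m2 _).2 ⟨(hg.ends d hd).1, h6, h3⟩, (m2 _).2 ⟨(hg.ends d hd).2, h5 ▸ h6, h4⟩⟩
  have hs1 : s ∈ V₁ := (m1 s).2 ⟨hs.symm.memv hg, rfl⟩
  have ht2 : t ∈ V₂ := (m2 t).2 ⟨ht.symm.memv hg, hty, hty'⟩
  have hsu : K.Touch s u := ⟨d1, hs.right, Or.inl l1⟩
  have htu : K.Touch t u := ⟨d2, ht.right, Or.inl l2⟩
  have p1 := part_le h.ih h.cls h.lt hsub1 hF₁
  have p2 := part_le h.ih h.cls h.lt hsub2 hF₂
  have mv : ∀ T₁ T₂ X₀ : Finset ℕ, T₁ ⊆ V₁ → T₂ ⊆ V₂ → X₀ ⊆ K.vs →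
      (∀ d, d = d1 ∨ d = d2 → K.p d ∈ X₀ ∪ (T₁ ∪ T₂) ∨ K.q d ∈ X₀ ∪ (T₁ ∪ T₂)) →
      (K.del (K.vs \ V₁) u).pot a b c + (K.del (K.vs \ V₂) u).pot a b c + a ≤
      N * (X₀.card + (K.del (K.vs \ V₁) u).cost T₁ + (K.del (K.vs \ V₂) u).cost T₂) := by
    intro T₁ T₂ X₀ hT₁ hT₂ hX₀ hc
    have h1 := h.move_two (B := ∅) (Y₀ := ∅) hbc hsub1 hsub2 hdis hF₁ hF₂ hT₁ hT₂ hX₀
      (empty_subset _) (empty_subset _) (empty_subset _) (by
        intro d hd
        rcases hc d (hrest d hd) with h2 | h2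
        · exact Or.inl h2
        · exact Or.inr (Or.inl h2))
    rw [hun, nb_empty, card_empty, card_singleton] at h1
    have h2 : N * K.ws (K.rest V₁ V₂) ≤ 2 * a * K.ws (K.rest V₁ V₂) :=
      Nat.mul_le_mul_right _ hN.le
    simp only [fpr_empty, mul_zero, add_zero, mul_one, mul_add] at h1 ⊢
    omega
  rcases part_free_or h.ih h.cls h.lt hbc hN.le hsub1 hF₁ hs1 hsu with h1 | h1
  · rcases part_free_or h.ih h.cls h.lt hbc hN.le hsub2 hF₂ ht2 htu with h2 | h2
    · have h3 := mv {s} {t} ∅ (singleton_subset_iff.2 hs1) (singleton_subset_iff.2 ht2)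
        (empty_subset _) (by
          rintro d (rfl | rfl)
          · rcases hs.2 with ⟨_, h5⟩ | ⟨h5, _⟩
            · right; rw [h5]; simp
            · left; rw [h5]; simp
          · rcases ht.2 with ⟨_, h5⟩ | ⟨h5, _⟩
            · right; rw [h5]; simp
            · left; rw [h5]; simp)
      rw [h1, h2, card_empty, zero_add, mul_add] at h3
      omega
    · have h3 := mv ∅ ∅ {y} (empty_subset _) (empty_subset _) (singleton_subset_iff.2 hyv) (by
        have key : ∀ d ∈ K.star y, K.p d ∈ ({y} ∪ (∅ ∪ ∅) : Finset ℕ) ∨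
            K.q d ∈ ({y} ∪ (∅ ∪ ∅) : Finset ℕ) := by
          intro d hd
          rcases (mem_star.1 hd).2 with h5 | h5
          · left; rw [h5]; simp
          · right; rw [h5]; simp
        rintro d (rfl | rfl)
        · exact key _ md1
        · exact key _ md2)
      rw [card_singleton] at h3
      change _ ≤ N * (1 + (K.del (K.vs \ V₁) u).tau + (K.del (K.vs \ V₂) u).tau) at h3
      rw [mul_add, mul_add, mul_one] at h3
      omega
  · have h3 := mv ∅ ∅ {y} (empty_subset _) (empty_subset _) (singleton_subset_iff.2 hyv) (by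
      have key : ∀ d ∈ K.star y, K.p d ∈ ({y} ∪ (∅ ∪ ∅) : Finset ℕ) ∨
          K.q d ∈ ({y} ∪ (∅ ∪ ∅) : Finset ℕ) := by
        intro d hd
        rcases (mem_star.1 hd).2 with h5 | h5
        · left; rw [h5]; simp
        · right; rw [h5]; simp
      rintro d (rfl | rfl)
      · exact key _ md1
      · exact key _ md2)
    rw [card_singleton] at h3
    change _ ≤ N * (1 + (K.del (K.vs \ V₁) u).tau + (K.del (K.vs \ V₂) u).tau) at h3
    rw [mul_add, mul_add, mul_one] at h3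
    omega

/-- a union of components is tight -/
theorem Tight.comp (h : Tight a b c N m n u K) (hbc : b ≤ c) (hN : N < 2 * a) {f : ℕ → ZMod 2}
    (hf : ∀ d ∈ K.ds, f (K.p d) = f (K.q d)) (t : ZMod 2) :
    Tight a b c N m n u (K.del (K.vs \ K.vs.filter fun v => f v = t) u) := by
  classical
  have hg := h.cls.good
  set V₁ := K.vs.filter fun v => f v = t with hV₁
  set V₂ := K.vs.filter fun v => f v ≠ t with hV₂
  have m1 : ∀ v, v ∈ V₁ ↔ v ∈ K.vs ∧ f v = t := fun v => mem_filter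
  have m2 : ∀ v, v ∈ V₂ ↔ v ∈ K.vs ∧ f v ≠ t := fun v => mem_filter
  have hsub1 : V₁ ⊆ K.vs := filter_subset _ _
  have hsub2 : V₂ ⊆ K.vs := filter_subset _ _
  have hdis : Disjoint V₁ V₂ := by
    rw [disjoint_left]
    intro v h1 h2
    exact ((m2 v).1 h2).2 ((m1 v).1 h1).2
  have hF₁ : K.FC (K.vs \ V₁) u := by
    refine h.cls.FC_out sdiff_subset fun d hd hnd => absurd ?_ hnd
    rw [mem_sdiff, mem_sdiff, m1, m1, hf d hd]
    have h1 := hg.ends d hd
    tauto
  have hF₂ : K.FC (K.vs \ V₂) u := by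
    refine h.cls.FC_out sdiff_subset fun d hd hnd => absurd ?_ hnd
    rw [mem_sdiff, mem_sdiff, m2, m2, hf d hd]
    have h1 := hg.ends d hd
    tauto
  have p2 := part_le h.ih h.cls h.lt hsub2 hF₂
  have h1 := h.move_two (B := ∅) (Y₀ := ∅) (X₀ := ∅) (T₁ := ∅) (T₂ := ∅) hbc hsub1 hsub2 hdis hF₁
    hF₂ (empty_subset _) (empty_subset _) (empty_subset _) (empty_subset _) (empty_subset _)
    (empty_subset _) (by
      intro d hd
      exfalso
      obtain ⟨hd, h1, h2⟩ := mem_rest.1 hd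
      have h3 := hf d hd
      by_cases h4 : f (K.p d) = t
      · exact h1 ⟨(m1 _).2 ⟨(hg.ends d hd).1, h4⟩, (m1 _).2 ⟨(hg.ends d hd).2, h3 ▸ h4⟩⟩
      · exact h2 ⟨(m2 _).2 ⟨(hg.ends d hd).1, h4⟩, (m2 _).2 ⟨(hg.ends d hd).2, h3 ▸ h4⟩⟩)
  rw [nb_empty, card_empty] at h1
  change _ ≤ N * (0 + 2 * 0 + K.ws (K.rest V₁ V₂) + (K.del (K.vs \ V₁) u).tau +
    (K.del (K.vs \ V₂) u).tau) at h1
  have h2 : N * K.ws (K.rest V₁ V₂) ≤ 2 * a * K.ws (K.rest V₁ V₂) := Nat.mul_le_mul_right _ hN.le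
  simp only [mul_zero, add_zero, zero_add, mul_add] at h1
  exact part_tight h hsub1 hF₁ (by omega)

/-- the potentials of two parts with the common vertex `v` -/
lemma pot_overlap {a b c : ℕ} (hG : G.Good) (hu : u ∈ G.cs) {V₁ V₂ : Finset ℕ} {v : ℕ}
    (hV₁ : V₁ ⊆ G.vs) (hV₂ : V₂ ⊆ G.vs) (hV : V₁ ∩ V₂ ⊆ {v}) :
    (G.del (G.vs \ V₁) u).pot a b c + (G.del (G.vs \ V₂) u).pot a b c ≤ G.pot a b c + a := by
  rw [pot_erase a b c hu, pot_erase a b c (mem_del_cs (W := G.vs \ V₁) hu),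
    pot_erase a b c (mem_del_cs (W := G.vs \ V₂) hu), del_usable hu, del_usable hu,
    del_us_erase hu, del_us_erase hu, vs_del_compl hV₁, vs_del_compl hV₂]
  have hmem : ∀ V : Finset ℕ, ∀ d ∈ G.ds, d ∉ G.tds (G.vs \ V) → G.p d ∈ V ∧ G.q d ∈ V := by
    intro V d hd h
    constructor
    · by_contra hp
      exact h (mem_tds.2 ⟨hd, Or.inl (mem_sdiff.2 ⟨(hG.ends d hd).1, hp⟩)⟩)
    · by_contra hp
      exact h (mem_tds.2 ⟨hd, Or.inr (mem_sdiff.2 ⟨(hG.ends d hd).2, hp⟩)⟩)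
  have hone : ∀ d ∈ G.ds, G.p d ∈ V₁ ∧ G.q d ∈ V₁ → G.p d ∈ V₂ ∧ G.q d ∈ V₂ → False := by
    intro d hd h1 h2
    have h3 := mem_singleton.1 (hV (mem_inter.2 ⟨h1.1, h2.1⟩))
    have h4 := mem_singleton.1 (hV (mem_inter.2 ⟨h1.2, h2.2⟩))
    exact hG.ne d hd (h3.trans h4.symm)
  have hdis : ∀ i ∈ G.fs, i ≠ u → i ∉ G.tf (G.vs \ V₁) → i ∉ G.tf (G.vs \ V₂) → False := by
    intro i hi hiu h1 h2
    obtain ⟨d, hd, hdi⟩ := face_edge hG hi (cs_sub hG hu) hiu
    exact hone d hd (hmem V₁ d hd fun h => h1 (mem_tf.2 ⟨d, h, hdi⟩))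
      (hmem V₂ d hd fun h => h2 (mem_tf.2 ⟨d, h, hdi⟩))
  have h1 : V₁.card + V₂.card ≤ G.vs.card + 1 := by
    rw [← card_union_add_card_inter]
    have h2 := card_le_card (union_subset hV₁ hV₂)
    have h3 := card_le_card hV
    rw [card_singleton] at h3
    omega
  have h1' : G.ws (G.ds \ G.tds (G.vs \ V₁)) + G.ws (G.ds \ G.tds (G.vs \ V₂)) ≤ G.ws G.ds := by
    rw [← ws_union]
    · exact ws_mono (union_subset sdiff_subset sdiff_subset)
    · rw [disjoint_left]
      intro d hd hd'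
      exact hone d (mem_sdiff.1 hd).1 (hmem _ d (mem_sdiff.1 hd).1 (mem_sdiff.1 hd).2)
        (hmem _ d (mem_sdiff.1 hd').1 (mem_sdiff.1 hd').2)
  have h2 : ((G.fs \ G.cs) \ G.tf (G.vs \ V₁)).card + ((G.fs \ G.cs) \ G.tf (G.vs \ V₂)).card ≤
      (G.fs \ G.cs).card := by
    rw [← card_union_of_disjoint]
    · exact card_le_card (union_subset sdiff_subset sdiff_subset)
    · rw [disjoint_left]
      intro i hi hi'
      have hi1 := mem_sdiff.1 (mem_sdiff.1 hi).1
      exact hdis i hi1.1 (fun h => hi1.2 (h ▸ hu)) (mem_sdiff.1 hi).2 (mem_sdiff.1 hi').2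
  have h3 : ((G.cs \ G.tf (G.vs \ V₁)).erase u).card + ((G.cs \ G.tf (G.vs \ V₂)).erase u).card ≤
      (G.cs.erase u).card := by
    rw [← card_union_of_disjoint]
    · exact card_le_card (union_subset (erase_subset_erase _ sdiff_subset)
        (erase_subset_erase _ sdiff_subset))
    · rw [disjoint_left]
      intro i hi hi'
      obtain ⟨hiu, hi1⟩ := mem_erase.1 hi
      obtain ⟨-, hi2⟩ := mem_erase.1 hi'
      exact hdis i (cs_sub hG (mem_sdiff.1 hi1).1) hiu (mem_sdiff.1 hi1).2 (mem_sdiff.1 hi2).2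
  have e1 : (G.del (G.vs \ V₁) u).ws (G.del (G.vs \ V₁) u).ds =
      G.ws (G.ds \ G.tds (G.vs \ V₁)) := rfl
  have e2 : (G.del (G.vs \ V₂) u).ws (G.del (G.vs \ V₂) u).ds =
      G.ws (G.ds \ G.tds (G.vs \ V₂)) := rfl
  rw [e1, e2]
  nlinarith [Nat.mul_le_mul_left b h2, Nat.mul_le_mul_left c h3, Nat.mul_le_mul_left (2 * a) h1',
    Nat.mul_le_mul_left a h1]

/-- the data of a cut vertex `v` on `u` -/
structure CutV (K : Gr) (u v : ℕ) (f : ℕ → ZMod 2) : Prop where
  hv : K.Touch v u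
  cnt : ∀ i ∈ K.fs, i ≠ u → K.cnt i v ≤ 2
  hf : ∀ d ∈ K.ds, d ∉ K.star v → f (K.p d) = f (K.q d)

/-- one side of a cut vertex, with the vertex -/
def sideV (K : Gr) (v : ℕ) (f : ℕ → ZMod 2) (t : ZMod 2) : Finset ℕ :=
  K.vs.filter fun x => f x = t ∨ x = v

lemma mem_sideV {v : ℕ} {f : ℕ → ZMod 2} {t : ZMod 2} {x : ℕ} :
    x ∈ K.sideV v f t ↔ x ∈ K.vs ∧ (f x = t ∨ x = v) := mem_filter

lemma sideV_sub {v : ℕ} {f : ℕ → ZMod 2} {t : ZMod 2} : K.sideV v f t ⊆ K.vs := filter_subset _ _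

lemma CutV.ends {v : ℕ} {f : ℕ → ZMod 2} (hc : K.CutV u v f) {d : ℕ} (hd : d ∈ K.ds)
    (h : d ∉ K.star v) : f (K.p d) = f (K.q d) ∧ K.p d ≠ v ∧ K.q d ≠ v :=
  ⟨hc.hf d hd h, fun h1 => h (mem_star.2 ⟨hd, Or.inl h1⟩), fun h1 => h (mem_star.2 ⟨hd, Or.inr h1⟩)⟩

lemma CutV.FC {v : ℕ} {f : ℕ → ZMod 2} (hc : K.CutV u v f) (hK : K.Cls u m) (t : ZMod 2) :
    K.FC (K.vs \ K.sideV v f t) u := by
  refine hK.FC_at sdiff_subset hc.hv (fun i hi hiu => (hc.cnt i hi hiu).trans (by norm_num))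
    fun d hd hnd => ?_
  right
  by_contra h
  apply hnd
  obtain ⟨h1, h2, h3⟩ := hc.ends hd h
  have h4 := hK.good.ends d hd
  rw [mem_sdiff, mem_sdiff, mem_sideV, mem_sideV, h1]
  tauto

lemma CutV.FC' {v : ℕ} {f : ℕ → ZMod 2} (hc : K.CutV u v f) (hK : K.Cls u m) (t : ZMod 2) :
    K.FC (K.sideV v f t) u := by
  refine hK.FC_at sideV_sub hc.hv (fun i hi hiu => (hc.cnt i hi hiu).trans (by norm_num))
    fun d hd hnd => ?_
  right
  by_contra h
  apply hnd
  obtain ⟨h1, h2, h3⟩ := hc.ends hd h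
  have h4 := hK.good.ends d hd
  rw [mem_sideV, mem_sideV, h1]
  tauto

/-- a face at `v` on the side `t` is not touched by the other side -/
lemma CutV.face {v : ℕ} {f : ℕ → ZMod 2} (hc : K.CutV u v f) (hK : K.Cls u m) {t : ZMod 2}
    {e s i : ℕ} (he : K.E e v s) (hs : f s = t) (hi : K.l e = i ∨ K.r e = i) (hiu : i ≠ u) :
    i ∉ K.tf (K.vs \ K.sideV v f t) := by
  intro h
  obtain ⟨d, hd, hdi⟩ := mem_tf.1 h
  have hif : i ∈ K.fs := tf_sub hK.good h
  have key : ∀ x ∈ K.vs \ K.sideV v f t, K.Touch x i → False := by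
    intro x hx hxi
    rw [mem_sdiff, mem_sideV] at hx
    have hxv : x ≠ v := fun h1 => hx.2 ⟨hx.1, Or.inr h1⟩
    have h1 := face_minus hK.good (hK.bc i hif hiu) (hc.cnt i hif hiu)
      (fun d hd _ h2 => hc.hf d hd h2) (he.ne hK.good).symm hxv ⟨e, he.right, hi⟩ hxi
    exact hx.2 ⟨hx.1, Or.inl (h1.symm.trans hs)⟩
  rw [mem_tds] at hd
  rcases hd.2 with h1 | h1
  · exact key _ h1 ⟨d, mem_star.2 ⟨hd.1, Or.inl rfl⟩, hdi⟩
  · exact key _ h1 ⟨d, mem_star.2 ⟨hd.1, Or.inr rfl⟩, hdi⟩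

/-- (D3): a cut vertex is free in a side with a further face at it -/
theorem Tight.cv_free (h : Tight a b c N m n u K) (hbc : b ≤ c) (hb : 0 < b) (hN : N < 2 * a)
    {v : ℕ} {f : ℕ → ZMod 2} (hc : K.CutV u v f) (t : ZMod 2) {e s i : ℕ} (he : K.E e v s)
    (hs : f s = t) (hi : K.l e = i ∨ K.r e = i) (hiu : i ≠ u) :
    (K.del (K.vs \ K.sideV v f t) u).cost {v} = (K.del (K.vs \ K.sideV v f t) u).tau := by
  classical
  have hg := h.cls.good
  have two : ∀ x y : ZMod 2, x = y ∨ x = y + 1 := by decide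
  have ht : ∀ x : ZMod 2, x ≠ x + 1 := by decide
  have hvv := (touch_mem hg hc.hv).1
  have hv1 : v ∈ K.sideV v f t := mem_sideV.2 ⟨hvv, Or.inr rfl⟩
  have hF₁ := hc.FC h.cls t
  have hF₂ := hc.FC h.cls (t + 1)
  have p2 := part_le h.ih h.cls h.lt sideV_sub hF₂
  have hfr := free_or (B := {i}) h.ih (h.cls.del hF₁) (by
    rw [vs_del_compl sideV_sub]
    exact (lt_of_le_of_lt (card_le_card sideV_sub) h.lt).le) hbc hN.le (x := v) (by
    rw [vs_del_compl sideV_sub]; exact hv1) (part_FC hg hF₁ hc.hv) (by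
    rw [singleton_subset_iff, mem_erase]
    refine ⟨hiu, (mem_tf_del hiu).2 ⟨?_, hc.face h.cls he hs hi hiu⟩⟩
    exact mem_tf_single.2 ⟨e, he.left, hi⟩)
  rcases hfr with h1 | h1
  · exact h1
  exfalso
  rw [card_singleton, mul_one] at h1
  have hrest : K.rest (K.sideV v f t) (K.sideV v f (t + 1)) = ∅ := by
    rw [eq_empty_iff_forall_notMem]
    intro d hd
    obtain ⟨hd, h3, h4⟩ := mem_rest.1 hd
    have h6 := hg.ends d hd
    by_cases h5 : d ∈ K.star v
    · rcases (mem_star.1 h5).2 with h7 | h7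
      · rcases two (f (K.q d)) t with h8 | h8
        · exact h3 ⟨mem_sideV.2 ⟨h6.1, Or.inr h7⟩, mem_sideV.2 ⟨h6.2, Or.inl h8⟩⟩
        · exact h4 ⟨mem_sideV.2 ⟨h6.1, Or.inr h7⟩, mem_sideV.2 ⟨h6.2, Or.inl h8⟩⟩
      · rcases two (f (K.p d)) t with h8 | h8
        · exact h3 ⟨mem_sideV.2 ⟨h6.1, Or.inl h8⟩, mem_sideV.2 ⟨h6.2, Or.inr h7⟩⟩
        · exact h4 ⟨mem_sideV.2 ⟨h6.1, Or.inl h8⟩, mem_sideV.2 ⟨h6.2, Or.inr h7⟩⟩
    · have h7 := hc.hf d hd h5
      rcases two (f (K.q d)) t with h8 | h8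
      · exact h3 ⟨mem_sideV.2 ⟨h6.1, Or.inl (h7.trans h8)⟩, mem_sideV.2 ⟨h6.2, Or.inl h8⟩⟩
      · exact h4 ⟨mem_sideV.2 ⟨h6.1, Or.inl (h7.trans h8)⟩, mem_sideV.2 ⟨h6.2, Or.inl h8⟩⟩
  have h2 := cost_two (u := u) (S := ∅) (T₁ := ∅) (T₂ := ∅) (X₀ := ∅) (Y₀ := ∅)
    (h.cls.del hF₁).good (h.cls.del hF₂).good sideV_sub sideV_sub (empty_subset _)
    (empty_subset _) (empty_subset _) (empty_subset _) (empty_subset _) (by
      rw [hrest]
      intro d hd
      exact absurd hd (notMem_empty d))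
  rw [hrest, nb_empty, ws, sum_empty, card_empty] at h2
  change K.tau ≤ 0 + 2 * 0 + 0 + (K.del (K.vs \ K.sideV v f t) u).tau +
    (K.del (K.vs \ K.sideV v f (t + 1)) u).tau at h2
  have h3 := pot_overlap (a := a) (b := b) (c := c) hg h.cls.huc (V₁ := K.sideV v f t)
    (V₂ := K.sideV v f (t + 1)) (v := v) sideV_sub sideV_sub (by
      intro x hx
      rw [mem_inter, mem_sideV, mem_sideV] at hx
      rw [mem_singleton]
      rcases hx.1.2 with h4 | h4
      · rcases hx.2.2 with h5 | h5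
        · exact absurd (h4.symm.trans h5) (ht t)
        · exact h5
      · exact h4)
  have h4 := Nat.mul_le_mul_left N h2
  simp only [mul_zero, zero_add, mul_add] at h4
  have h5 := h.le
  omega

/-- the two parts at a cut vertex, the vertex in the part `t`; faces `B` at `v` on the other side -/
lemma Tight.cv_move (h : Tight a b c N m n u K) (hbc : b ≤ c) (hN : N < 2 * a)
    {v : ℕ} {f : ℕ → ZMod 2} (hc : K.CutV u v f) (t : ZMod 2)
    (hfr : (K.del (K.vs \ K.sideV v f t) u).cost {v} = (K.del (K.vs \ K.sideV v f t) u).tau)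
    {B : Finset ℕ} (hB : ∀ i ∈ B, i ≠ u ∧ ∃ e s, K.E e v s ∧ f s ≠ t ∧ (K.l e = i ∨ K.r e = i)) :
    (K.del (K.vs \ K.sideV v f t) u).pot a b c + b * B.card ≤
      N * (K.del (K.vs \ K.sideV v f t) u).tau := by
  classical
  have hg := h.cls.good
  have two : ∀ x y : ZMod 2, x = y ∨ x = y + 1 := by decide
  have hvv := (touch_mem hg hc.hv).1
  have hv1 : v ∈ K.sideV v f t := mem_sideV.2 ⟨hvv, Or.inr rfl⟩
  have hF₁ := hc.FC h.cls t
  have hss : K.vs \ (K.vs \ K.sideV v f t) = K.sideV v f t := by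
    rw [sdiff_sdiff_right_self]
    exact inter_eq_right.2 sideV_sub
  have hF₂ : K.FC (K.vs \ (K.vs \ K.sideV v f t)) u := by
    rw [hss]
    exact hc.FC' h.cls t
  have p2 := part_le h.ih h.cls h.lt sdiff_subset hF₂
  have hsv : ∀ e s, K.E e v s → f s ≠ t → s ∈ K.vs \ K.sideV v f t := by
    intro e s he hs
    rw [mem_sdiff, mem_sideV]
    refine ⟨he.symm.memv hg, ?_⟩
    rintro ⟨-, h1 | h1⟩
    · exact hs h1
    · exact he.ne hg h1.symm
  have h1 := h.move_two (B := B) (Y₀ := ∅) (X₀ := ∅) (T₁ := {v}) (T₂ := ∅) hbc sideV_sub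
    sdiff_subset disjoint_sdiff hF₁ hF₂ (singleton_subset_iff.2 hv1) (empty_subset _)
    (empty_subset _) (empty_subset _) (by
      intro i hi
      obtain ⟨hiu, e, s, he, hs, hi'⟩ := hB i hi
      exact mem_erase.2 ⟨hiu, mem_tf.2 ⟨e, star_sub_tds (hsv e s he hs) he.right, hi'⟩⟩) (by
      intro i hi
      obtain ⟨hiu, e, s, he, hs, hi'⟩ := hB i hi
      rw [hss]
      exact mem_erase.2 ⟨hiu, mem_tf.2 ⟨e, star_sub_tds hv1 he.left, hi'⟩⟩) (by
      intro d hd
      obtain ⟨hd, h3, h4⟩ := mem_rest.1 hd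
      have h6 := hg.ends d hd
      have h5 : d ∈ K.star v := by
        by_contra h5
        obtain ⟨h7, h8, h9⟩ := hc.ends hd h5
        by_cases h10 : f (K.p d) = t
        · exact h3 ⟨mem_sideV.2 ⟨h6.1, Or.inl h10⟩, mem_sideV.2 ⟨h6.2, Or.inl (h7 ▸ h10)⟩⟩
        · refine h4 ⟨mem_sdiff.2 ⟨h6.1, ?_⟩, mem_sdiff.2 ⟨h6.2, ?_⟩⟩
          · rw [mem_sideV]
            rintro ⟨-, h11 | h11⟩
            · exact h10 h11
            · exact h8 h11
          · rw [mem_sideV]
            rintro ⟨-, h11 | h11⟩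
            · exact h10 (h7.trans h11)
            · exact h9 h11
      rcases (mem_star.1 h5).2 with h7 | h7
      · left; rw [h7]; simp
      · right; left; rw [h7]; simp)
  have hun : K.vs \ (K.sideV v f t ∪ K.vs \ K.sideV v f t) = ∅ := by
    rw [union_sdiff_of_subset sideV_sub, sdiff_self]
    rfl
  rw [hun, nb_empty, card_empty, hfr] at h1
  change _ ≤ N * (0 + 2 * 0 + K.ws (K.rest (K.sideV v f t) (K.vs \ K.sideV v f t)) +
    (K.del (K.vs \ K.sideV v f t) u).tau +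
    (K.del (K.vs \ (K.vs \ K.sideV v f t)) u).tau) at h1
  have h2 : N * K.ws (K.rest (K.sideV v f t) (K.vs \ K.sideV v f t)) ≤
      2 * a * K.ws (K.rest (K.sideV v f t) (K.vs \ K.sideV v f t)) := Nat.mul_le_mul_right _ hN.le
  simp only [mul_zero, add_zero, zero_add, mul_add] at h1
  omega

/-- (D3): the side of a cut vertex with a further face at the vertex is tight -/
theorem Tight.cv (h : Tight a b c N m n u K) (hbc : b ≤ c) (hb : 0 < b) (hN : N < 2 * a)
    {v : ℕ} {f : ℕ → ZMod 2} (hc : K.CutV u v f) (t : ZMod 2) {e s i : ℕ} (he : K.E e v s)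
    (hs : f s = t) (hi : K.l e = i ∨ K.r e = i) (hiu : i ≠ u) :
    Tight a b c N m n u (K.del (K.vs \ K.sideV v f t) u) := by
  have h1 := h.cv_move hbc hN hc t (h.cv_free hbc hb hN hc t he hs hi hiu) (B := ∅)
    (fun i hi => absurd hi (notMem_empty i))
  rw [card_empty, mul_zero, add_zero] at h1
  exact part_tight h sideV_sub (hc.FC h.cls t) h1

/-- (D3): no cut vertex with further faces on both sides -/
theorem Tight.not_cv (h : Tight a b c N m n u K) (hbc : b ≤ c) (hb : 0 < b) (hN : N < 2 * a)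
    {v : ℕ} {f : ℕ → ZMod 2} (hc : K.CutV u v f) {e s i e' s' i' : ℕ} (he : K.E e v s)
    (hi : K.l e = i ∨ K.r e = i) (hiu : i ≠ u) (he' : K.E e' v s')
    (hi' : K.l e' = i' ∨ K.r e' = i') (hiu' : i' ≠ u) (hss : f s ≠ f s') : False := by
  have h1 := h.cv_move hbc hN hc (f s) (h.cv_free hbc hb hN hc (f s) he rfl hi hiu) (B := {i'})
    (by
      intro j hj
      rw [mem_singleton] at hj
      subst hj
      exact ⟨hiu', e', s', he', hss.symm, hi'⟩)
  have hF := hc.FC h.cls (f s)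
  have h2 := part_le h.ih h.cls h.lt sideV_sub hF
  rw [card_singleton, mul_one] at h1
  omega

end Gr

end Pool.Agent.Lib.MP06c549.T6H
end

section
/-!
# MP_06c549_co, T6H, constant 13: the third faces of `b i` and `b (i + 2)` are different
-/
set_option autoImplicit false

namespace Pool.Agent.Lib.MP06c549.T6H

open Finset

namespace Gr

variable {G : Gr} {o m k : ℕ} {x e g F b l r O : ℤ → ℕ}

/-- a function on the integers without steps is constant -/
lemma const_of_step {α : Type*} {φ : ℤ → α} (h : ∀ j, φ (j + 1) = φ j) (i j : ℤ) : φ i = φ j := by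
  have h0 : ∀ n : ℤ, φ n = φ 0 := by
    intro n
    induction n using Int.induction_on with
    | zero => rfl
    | succ n ih => rw [h, ih]
    | pred n ih =>
      have h1 := h (-(n : ℤ) - 1)
      have h2 : -(n : ℤ) - 1 + 1 = -n := by ring
      rw [h2] at h1
      rw [← h1, ih]
  rw [h0 i, h0 j]

/-- the cut of an even set of edges, for edges with named ends -/
lemma cut_E (hG : G.Good) {K : Finset ℕ} (hK : K ⊆ G.ds) (hE : G.Ev K) :
    ∃ f : ℕ → ZMod 2, (∀ d u v, G.E d u v → d ∉ K → f u = f v) ∧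
      (∀ d u v, G.E d u v → d ∈ K → f u ≠ f v) := by
  classical
  obtain ⟨f, hf⟩ := cut_of_ev hG hK hE
  have key : ∀ d u v, G.E d u v → f u + f v = if d ∈ K then 1 else 0 := by
    rintro d u v ⟨hd, ⟨rfl, rfl⟩ | ⟨rfl, rfl⟩⟩
    · exact hf d hd
    · rw [add_comm]; exact hf d hd
  have h0 : ∀ a c : ZMod 2, a + c = 0 → a = c := by decide
  have h1 : ∀ a c : ZMod 2, a + c = 1 → a ≠ c := by decide
  refine ⟨f, fun d u v hd hn => h0 _ _ ?_, fun d u v hd hn => h1 _ _ ?_⟩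
  · rw [key d u v hd, if_neg hn]
  · rw [key d u v hd, if_pos hn]

namespace Ring3

variable (h : G.Ring3 m o k x e g F b l r O)

include h

lemma xv (i : ℤ) : x i ∈ G.vs := (touch_mem h.good (h.ring.tx i)).1

lemma bv (i : ℤ) : b i ∈ G.vs := (h.ring.eg i).symm.memv h.good

lemma ee (i : ℤ) : G.E (e i) (x i) (x (i + 1)) := h.ring.adj i

lemma eg (i : ℤ) : G.E (g i) (x i) (b i) := h.ring.eg i

lemma Wv (i : ℤ) : ({x i, x (i - 1), x (i + 1), b i} : Finset ℕ) ⊆ G.vs := by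
  intro v hv
  simp only [mem_insert, mem_singleton] at hv
  rcases hv with rfl | rfl | rfl | rfl
  · exact h.xv _
  · exact h.xv _
  · exact h.xv _
  · exact h.bv _

lemma hFC (i : ℤ) : G.FC {x i, x (i - 1), x (i + 1), b i} o := by
  have hg := h.good
  have e1 : ({x i, x (i - 1), x (i + 1), b i} : Finset ℕ) =
      insert (b i) {x i, x (i - 1), x (i + 1)} := by
    ext v; simp only [mem_insert, mem_singleton]; tauto
  rw [e1]
  refine FC.insert_adj hg ?_ (w := x i) (by simp) ⟨g i, (h.eg i).symm⟩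
  exact ((FC_singleton hg (h.xv _) (h.ring.tx _)).insert_out hg (h.xv _)
    (h.ring.tx _)).insert_out hg (h.xv _) (h.ring.tx _)

lemma Wcard (i : ℤ) : ({x i, x (i - 1), x (i + 1), b i} : Finset ℕ).card = 4 := by
  have hk := h.k5
  exact S7a.card4 (h.ring.xne (by omega) (by omega)).symm (h.ring.xne (by omega) (by omega))
    (h.ring.bx _ _).symm (h.ring.xne (by omega) (by omega)) (h.ring.bx _ _).symm
    (h.ring.bx _ _).symm

/-- the graph without `x (i - 1), x i, x (i + 1), b i` is tight -/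
theorem tQ (i : ℤ) : Tight 7 2 4 13 m G.vs.card o
    (G.del {x i, x (i - 1), x (i + 1), b i} o) where
  cls := h.cx.cls.del (h.hFC i)
  ih := h.cx.ih
  lt := by
    have h1 := del_card (u := o) (h.Wv i)
    rw [h.Wcard] at h1
    omega
  le := (h.tight i).le

/-- `O i ≠ O (i + 2)` -/
theorem O_ne (i : ℤ) : O i ≠ O (i + 2) := by
  classical
  intro hO
  have hg := h.good
  have hk := h.k5
  have R := h.ring
  have eyb : ∀ j, ∃ y, G.E (r j) (b j) y := fun j => exists_E (h.sp j).mr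
  obtain ⟨y, hy⟩ := exists_E (h.sp i).mr
  obtain ⟨z, hz⟩ := exists_E (h.sp (i + 2)).ml
  have s1 := h.sr i
  have s2 := R.sg (i + 1)
  have s3 := h.sl (i + 2)
  have c1 : i + 1 - 1 = i := by ring
  have c2 : i + 2 - 1 = i + 1 := by ring
  rw [c1] at s2
  rw [c2] at s3
  -- inequalities between the faces
  have f01 : F i ≠ F (i + 1) := R.Fne (by omega) (by omega)
  have f02 : F i ≠ F (i + 2) := R.Fne (by omega) (by omega)
  have f12 : F (i + 1) ≠ F (i + 2) := R.Fne (by omega) (by omega)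
  have fm0 : F (i - 1) ≠ F i := R.Fne (by omega) (by omega)
  have fm1 : F (i - 1) ≠ F (i + 1) := R.Fne (by omega) (by omega)
  have o0 : O i ≠ F i := (h.sp i).o3
  have o1 : O i ≠ F (i + 1) := h.op i
  have o2 : O (i + 2) ≠ F i := by
    have := h.om (i + 2)
    have c3 : i + 2 - 2 = i := by ring
    rwa [c3] at this
  have o3 : O (i + 2) ≠ F (i + 1) := by
    have := (h.sp (i + 2)).o2
    rwa [c2] at this
  -- the three edges are different
  have n12 : r i ≠ g (i + 1) := by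
    intro h1
    rw [h1] at s1
    rcases s1.cases s2 with h2 | h2
    · exact o1 h2.2.symm
    · exact o0 h2.1.symm
  have n13 : r i ≠ l (i + 2) := by
    intro h1
    rw [h1] at s1
    rcases s1.cases s3 with h2 | h2
    · exact f01 h2.1.symm
    · exact o1 h2.1.symm
  have n23 : g (i + 1) ≠ l (i + 2) := by
    intro h1
    rw [h1] at s2
    rcases s2.cases s3 with h2 | h2
    · exact f01 h2.1.symm
    · exact o2 h2.2
  have hKsub : ({r i, g (i + 1), l (i + 2)} : Finset ℕ) ⊆ G.ds := by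
    intro d hd
    simp only [mem_insert, mem_singleton] at hd
    rcases hd with rfl | rfl | rfl
    · exact hy.1
    · exact (h.eg _).1
    · exact hz.1
  have hEv : G.Ev {r i, g (i + 1), l (i + 2)} := by
    intro t
    rw [sum_insert (by simp [n12, n13]), sum_pair n23, s1.sum, s2.sum, s3.sum, ← hO]
    have h1 := CharTwo.add_self_eq_zero (t (F i))
    have h2 := CharTwo.add_self_eq_zero (t (F (i + 1)))
    have h3 := CharTwo.add_self_eq_zero (t (O i))
    linear_combination h1 + h2 + h3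
  obtain ⟨f, hf, hf'⟩ := cut_E hg hKsub hEv
  have hK : ∀ d, d ∈ ({r i, g (i + 1), l (i + 2)} : Finset ℕ) ↔
      d = r i ∨ d = g (i + 1) ∨ d = l (i + 2) := by
    intro d; simp only [mem_insert, mem_singleton]
  -- the outer vertices are on one side
  have hx : ∀ j j', f (x j) = f (x j') := const_of_step (φ := fun j => f (x j)) (by
    intro j
    refine (hf (e j) _ _ (h.ee j) ?_).symm
    rw [hK]
    have s4 := R.se j
    rintro (h1 | h1 | h1)
    · rw [h1] at s4
      rcases s4.cases s1 with h2 | h2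
      · exact R.Fo _ h2.1
      · exact h.Oo _ h2.2
    · rw [h1] at s4
      rcases s4.cases s2 with h2 | h2
      · exact R.Fo _ h2.1
      · exact R.Fo _ h2.2
    · rw [h1] at s4
      rcases s4.cases s3 with h2 | h2
      · exact R.Fo _ h2.1
      · exact h.Oo _ h2.2)
  have hb0 : f (x i) = f (b i) := by
    refine hf (g i) _ _ (h.eg i) ?_
    rw [hK]
    have s4 := R.sg i
    rintro (h1 | h1 | h1)
    · exact (h.sp i).n2 h1
    · rw [h1] at s4
      rcases s4.cases s2 with h2 | h2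
      · exact fm0 h2.1.symm
      · exact fm1 h2.2.symm
    · rw [h1] at s4
      rcases s4.cases s3 with h2 | h2
      · exact fm1 h2.1.symm
      · exact f01 h2.1.symm
  have hb2 : f (x (i + 2)) = f (b (i + 2)) := by
    refine hf (g (i + 2)) _ _ (h.eg _) ?_
    rw [hK]
    have s4 := R.sg (i + 2)
    rw [c2] at s4
    rintro (h1 | h1 | h1)
    · rw [h1] at s4
      rcases s4.cases s1 with h2 | h2
      · exact f01 h2.1
      · exact f02 h2.1
    · rw [h1] at s4
      rcases s4.cases s2 with h2 | h2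
      · exact f01 h2.1
      · exact f02 h2.1
    · exact (h.sp (i + 2)).n1 h1
  have hb1 : f (x (i + 1)) ≠ f (b (i + 1)) := hf' (g (i + 1)) _ _ (h.eg _) (by rw [hK]; tauto)
  have hfy : f (b i) ≠ f y := hf' (r i) _ _ hy (by rw [hK]; tauto)
  have hfz : f (b (i + 2)) ≠ f z := hf' (l (i + 2)) _ _ hz (by rw [hK]; tauto)
  have two : ∀ p q s : ZMod 2, p ≠ q → p ≠ s → q = s := by decide
  have hyz : f z = f y := by
    rw [← hb0] at hfy
    rw [← hb2, hx (i + 2) i] at hfz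
    exact two _ _ _ hfz hfy
  -- the side `M`
  set M := G.vs.filter fun v => f v = f y with hM
  have mM : ∀ v, v ∈ M ↔ v ∈ G.vs ∧ f v = f y := fun v => mem_filter
  have hMv : M ⊆ G.vs := filter_subset _ _
  have hyM : y ∈ M := (mM y).2 ⟨hy.symm.memv hg, rfl⟩
  have hzM : z ∈ M := (mM z).2 ⟨hz.symm.memv hg, hyz⟩
  have hxM : ∀ j, x j ∉ M := fun j hj => hfy (by rw [← hb0, hx i j]; exact ((mM _).1 hj).2)
  have hbM : b i ∉ M := fun hj => hfy ((mM _).1 hj).2
  have hbM2 : b (i + 2) ∉ M := fun hj => hfz (by rw [hyz]; exact ((mM _).1 hj).2)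
  -- edges between `M` and the rest
  have hcross : ∀ d ∈ G.ds, ¬ (G.p d ∈ M ↔ G.q d ∈ M) → d = r i ∨ d = g (i + 1) ∨ d = l (i + 2) := by
    intro d hd hc
    by_contra hcon
    have h1 := hf d (G.p d) (G.q d) ⟨hd, Or.inl ⟨rfl, rfl⟩⟩ (by rw [hK]; exact hcon)
    apply hc
    rw [mM, mM, h1]
    simp [(hg.ends d hd).1, (hg.ends d hd).2]
  -- the tight graph
  have tQ := h.tQ i
  set W : Finset ℕ := {x i, x (i - 1), x (i + 1), b i} with hW
  have hWM : ∀ v ∈ W, v ∉ M := by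
    intro v hv
    simp only [hW, mem_insert, mem_singleton] at hv
    rcases hv with rfl | rfl | rfl | rfl
    · exact hxM _
    · exact hxM _
    · exact hxM _
    · exact hbM
  have hQvs : (G.del W o).vs = G.vs \ W := rfl
  have hQM : (G.del W o).vs.filter (fun v => f v = f z) = M := by
    ext v
    rw [mem_filter, hQvs, mem_sdiff, mM, hyz]
    constructor
    · rintro ⟨⟨h1, -⟩, h2⟩; exact ⟨h1, h2⟩
    · rintro ⟨h1, h2⟩; exact ⟨⟨h1, fun h3 => hWM v h3 ((mM v).2 ⟨h1, h2⟩)⟩, h2⟩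
  have hWu : W ∪ ((G.del W o).vs \ M) = G.vs \ M := by
    ext v
    rw [mem_union, mem_sdiff, hQvs, mem_sdiff, mem_sdiff]
    constructor
    · rintro (h1 | h1)
      · exact ⟨h.Wv i h1, hWM v h1⟩
      · exact ⟨h1.1.1, h1.2⟩
    · rintro ⟨h1, h2⟩
      by_cases h3 : v ∈ W
      · exact Or.inl h3
      · exact Or.inr ⟨⟨h1, h3⟩, h2⟩
  -- the edge `l (i + 2)` in the tight graph
  have hzW : z ∉ W := fun h1 => hWM z h1 hzM
  have hbW : b (i + 2) ∉ W := by
    simp only [hW, mem_insert, mem_singleton, not_or]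
    exact ⟨R.bx _ _, R.bx _ _, R.bx _ _, (h.bne (by omega) (by omega)).symm⟩
  have hEQ : (G.del W o).E (l (i + 2)) z (b (i + 2)) := by
    refine ⟨mem_sdiff.2 ⟨hz.1, fun h1 => ?_⟩, hz.symm.2⟩
    rcases (mem_tds.1 h1).2 with h2 | h2 <;> rcases hz.2 with h3 | h3
    · rw [h3.1] at h2; exact hbW h2
    · rw [h3.1] at h2; exact hzW h2
    · rw [h3.2] at h2; exact hzW h2
    · rw [h3.2] at h2; exact hbW h2
  have tF1 : F (i + 1) ∈ G.tf W := by
    refine Touch.tfm (x := x (i + 1)) ?_ (by simp [hW])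
    exact (R.spk (i + 1)).cub.tF'
  have hsideQ : ∀ d, (G.l d = F (i + 1) ∨ G.r d = F (i + 1)) →
      ((G.del W o).l d = o ∨ (G.del W o).r d = o) := by
    rintro d (h1 | h1)
    · left; show G.phi W o (G.l d) = o; rw [h1, phi_of_mem tF1]
    · right; show G.phi W o (G.r d) = o; rw [h1, phi_of_mem tF1]
  have hfQ : ∀ d ∈ (G.del W o).ds, d ≠ l (i + 2) → f (G.p d) = f (G.q d) := by
    intro d hd hdl
    obtain ⟨h1, h2⟩ := mem_sdiff.1 hd
    refine hf d _ _ ⟨h1, Or.inl ⟨rfl, rfl⟩⟩ ?_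
    rw [hK]
    rintro (h3 | h3 | h3)
    · refine h2 (star_sub_tds (v := b i) (by simp [hW]) ?_)
      rw [h3]; exact hy.left
    · refine h2 (star_sub_tds (v := x (i + 1)) (by simp [hW]) ?_)
      rw [h3]; exact (h.eg _).left
    · exact hdl h3
  have hlF : G.l (l (i + 2)) = F (i + 1) ∨ G.r (l (i + 2)) = F (i + 1) := by
    rcases s3 with h1 | h1
    · exact Or.inl h1.1
    · exact Or.inr h1.2
  obtain ⟨tM, -, -⟩ := tQ.bridge (by norm_num) (by norm_num) hEQ (hsideQ _ hlF)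
    (Ne.symm hfz) hfQ
  rw [hQM, del_del (fun h1 => (mem_sdiff.1 (h.cx.cls.hsub h1)).2 h.cx.cls.hu) h.cx.cls.hun,
    hWu] at tM
  -- FC of the complement of `M`
  have hF1 : G.FC (G.vs \ M) o := by
    rw [← hWu]
    refine FC_union (h.hFC i) (tQ.cls.FC_out sdiff_subset ?_)
    intro d hd hc
    obtain ⟨h1, h2⟩ := mem_sdiff.1 hd
    have hpv : G.p d ∈ (G.del W o).vs := (tQ.cls.good.ends d hd).1
    have hqv : G.q d ∈ (G.del W o).vs := (tQ.cls.good.ends d hd).2
    by_cases hdl : d = l (i + 2)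
    · exact hsideQ d (hdl ▸ hlF)
    · exfalso
      apply hc
      have h3 := hfQ d hd hdl
      show G.p d ∈ (G.del W o).vs \ M ↔ G.q d ∈ (G.del W o).vs \ M
      rw [mem_sdiff, mem_sdiff, mM, mM, h3]
      simp [hpv, hqv, (hg.ends d h1).1, (hg.ends d h1).2]
  -- `{y, z}` is free in `M`
  have hfree : (G.del (G.vs \ M) o).cost {y, z} = (G.del (G.vs \ M) o).tau := by
    refine tM.free (by norm_num) (by norm_num) ?_ ?_ (card_le_two)
    · rw [vs_del_compl hMv]
      intro v hv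
      simp only [mem_insert, mem_singleton] at hv
      rcases hv with rfl | rfl
      · exact hyM
      · exact hzM
    · refine FC_del ?_
      have e1 : (G.vs \ M) ∪ {y, z} = insert y (insert z (G.vs \ M)) := by
        ext v; simp only [mem_union, mem_insert, mem_singleton]; tauto
      rw [e1]
      refine FC.insert_adj hg (FC.insert_adj hg hF1 (w := b (i + 2)) ?_ ⟨_, hz.symm⟩)
        (w := b i) ?_ ⟨_, hy.symm⟩
      · exact mem_sdiff.2 ⟨h.bv _, hbM2⟩
      · exact mem_insert_of_mem (mem_sdiff.2 ⟨h.bv _, hbM⟩)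
  -- FC of `M` with `x (i + 1)`
  have hV2 : G.vs \ (G.vs \ insert (x (i + 1)) M) = insert (x (i + 1)) M := by
    rw [sdiff_sdiff_right_self]
    exact inter_eq_right.2 (insert_subset (h.xv _) hMv)
  have hF2 : G.FC (G.vs \ (G.vs \ insert (x (i + 1)) M)) o := by
    rw [hV2, insert_eq]
    have hS : G.FC {x (i + 1)} o := FC_singleton hg (h.xv _) (R.tx _)
    refine FC_union hS ((h.cx.cls.del hS).FC_out ?_ ?_)
    · intro v hv
      refine mem_sdiff.2 ⟨hMv hv, ?_⟩
      rw [mem_singleton]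
      rintro rfl
      exact hxM _ hv
    · intro d hd hc
      obtain ⟨h1, h2⟩ := mem_sdiff.1 hd
      have tf0 : F i ∈ G.tf {x (i + 1)} := by
        refine Touch.tfm (x := x (i + 1)) ?_ (by simp)
        have := (R.spk (i + 1)).cub.tF
        rwa [c1] at this
      have tf1 : F (i + 1) ∈ G.tf {x (i + 1)} :=
        Touch.tfm (x := x (i + 1)) (R.spk (i + 1)).cub.tF' (by simp)
      have hc' : ∀ j, j ∈ G.tf {x (i + 1)} → (G.l d = j ∨ G.r d = j) →
          ((G.del {x (i + 1)} o).l d = o ∨ (G.del {x (i + 1)} o).r d = o) := by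
        rintro j hj (h3 | h3)
        · left; show G.phi {x (i + 1)} o (G.l d) = o; rw [h3, phi_of_mem hj]
        · right; show G.phi {x (i + 1)} o (G.r d) = o; rw [h3, phi_of_mem hj]
      rcases hcross d h1 hc with h3 | h3 | h3
      · rw [← h3] at s1
        rcases s1 with h4 | h4
        · exact hc' _ tf0 (Or.inl h4.1)
        · exact hc' _ tf0 (Or.inr h4.2)
      · exfalso
        apply h2
        rw [h3]
        exact star_sub_tds (mem_singleton_self _) (h.eg _).left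
      · rw [h3]
        rw [h3] at hc'
        exact hc' _ tf1 hlF
  -- the move
  have hdisj : Disjoint M (G.vs \ insert (x (i + 1)) M) := by
    rw [disjoint_left]
    intro v hv hv'
    exact (mem_sdiff.1 hv').2 (mem_insert_of_mem hv)
  have key := h.cx.move_two_le (by norm_num) (by norm_num) (V₁ := M)
    (V₂ := G.vs \ insert (x (i + 1)) M) (T₁ := {y, z}) (T₂ := ∅) (X₀ := {x (i + 1)}) (Y₀ := ∅)
    (B := {F i, F (i + 1), O i}) hMv sdiff_subset hdisj hF1 hF2 (by
      intro v hv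
      simp only [mem_insert, mem_singleton] at hv
      rcases hv with rfl | rfl
      · exact hyM
      · exact hzM) (empty_subset _) (singleton_subset_iff.2 (h.xv _)) (empty_subset _) (by
      intro j hj
      simp only [mem_insert, mem_singleton] at hj
      have hxc : x (i + 1) ∈ G.vs \ M := mem_sdiff.2 ⟨h.xv _, hxM _⟩
      rcases hj with rfl | rfl | rfl
      · refine mem_erase.2 ⟨R.Fo _, ?_⟩
        have := (R.spk (i + 1)).cub.tF
        rw [c1] at this
        exact this.tfm hxc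
      · exact mem_erase.2 ⟨R.Fo _, (R.spk (i + 1)).cub.tF'.tfm hxc⟩
      · exact mem_erase.2 ⟨h.Oo _, (h.sp i).tO.tfm (mem_sdiff.2 ⟨h.bv _, hbM⟩)⟩) (by
      rw [hV2]
      intro j hj
      simp only [mem_insert, mem_singleton] at hj
      rcases hj with rfl | rfl | rfl
      · refine mem_erase.2 ⟨R.Fo _, ?_⟩
        have := (R.spk (i + 1)).cub.tF
        rw [c1] at this
        exact this.tfm (mem_insert_self _ _)
      · exact mem_erase.2 ⟨R.Fo _, (R.spk (i + 1)).cub.tF'.tfm (mem_insert_self _ _)⟩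
      · exact mem_erase.2 ⟨h.Oo _, (s1.touch hy.right).2.tfm (mem_insert_of_mem hyM)⟩) (by
      intro d hd
      obtain ⟨h1, h2, h3⟩ := mem_rest.1 hd
      obtain ⟨hp, hq⟩ := hg.ends d h1
      by_cases hpx : G.p d = x (i + 1)
      · left; rw [hpx]; simp
      by_cases hqx : G.q d = x (i + 1)
      · right; left; rw [hqx]; simp
      have hc : ¬ (G.p d ∈ M ↔ G.q d ∈ M) := by
        intro hc
        by_cases hpM : G.p d ∈ M
        · exact h2 ⟨hpM, hc.1 hpM⟩
        · have hqM : G.q d ∉ M := fun h4 => hpM (hc.2 h4)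
          refine h3 ⟨mem_sdiff.2 ⟨hp, ?_⟩, mem_sdiff.2 ⟨hq, ?_⟩⟩
          · rw [mem_insert, not_or]; exact ⟨hpx, hpM⟩
          · rw [mem_insert, not_or]; exact ⟨hqx, hqM⟩
      have hend : ∀ u v, G.E d u v → v ∈ ({x (i + 1)} ∪ ({y, z} ∪ ∅) : Finset ℕ) →
          (G.p d ∈ ({x (i + 1)} ∪ ({y, z} ∪ ∅) : Finset ℕ) ∨
            G.q d ∈ ({x (i + 1)} ∪ ({y, z} ∪ ∅) : Finset ℕ) ∨ G.l d ∈ (∅ : Finset ℕ) ∨
            G.r d ∈ (∅ : Finset ℕ)) := by
        rintro u v ⟨-, ⟨-, h4⟩ | ⟨h4, -⟩⟩ hv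
        · right; left; rw [h4]; exact hv
        · left; rw [h4]; exact hv
      rcases hcross d h1 hc with h4 | h4 | h4
      · rw [h4] at hend ⊢
        exact hend _ _ hy (by simp)
      · rw [h4] at hend ⊢
        exact hend _ _ (h.eg _).symm (by simp)
      · rw [h4] at hend ⊢
        exact hend _ _ hz (by simp))
  rw [hfree, card_singleton, fpr_empty, S7a.card3 f01 o0.symm o1.symm] at key
  have hcard : (G.vs \ (M ∪ (G.vs \ insert (x (i + 1)) M))).card = 1 := by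
    rw [card_eq_one]
    refine ⟨x (i + 1), ?_⟩
    ext v
    rw [mem_sdiff, mem_union, mem_sdiff, mem_insert, mem_singleton]
    constructor
    · rintro ⟨h1, h2⟩
      by_contra h3
      exact h2 (by
        by_cases h4 : v ∈ M
        · exact Or.inl h4
        · exact Or.inr ⟨h1, by tauto⟩)
    · rintro rfl
      refine ⟨h.xv _, ?_⟩
      rintro (h4 | h4)
      · exact hxM _ h4
      · exact h4.2 (Or.inl rfl)
  rw [hcard] at key
  have p1 := tM.le
  have b1 : 13 * (G.del (G.vs \ M) o).tau ≤ (G.del (G.vs \ M) o).pot 7 2 4 :=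
    h.cx.ih o _ tM.cls tM.lt
  have b2 : 13 * (G.del (G.vs \ (G.vs \ insert (x (i + 1)) M)) o).tau ≤
      (G.del (G.vs \ (G.vs \ insert (x (i + 1)) M)) o).pot 7 2 4 := by
    refine h.cx.ih o _ (h.cx.cls.del hF2) ?_
    rw [hV2]
    have h1 := del_card (u := o) (G := G) (W := insert (x (i + 1)) M)
      (insert_subset (h.xv _) hMv)
    have h2 : 0 < (insert (x (i + 1)) M).card := card_pos.2 ⟨_, mem_insert_self _ _⟩
    omega
  unfold tau at key b1 b2
  omega

end Ring3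

end Gr

end Pool.Agent.Lib.MP06c549.T6H
end

section
/-!
# MP_06c549_co, T6H, constant 13: the consequences (E1), (E2), (E3) of the tightness of the graph
without an outer vertex, its neighbours on the outer cycle and its inner neighbour
-/
set_option autoImplicit false

namespace Pool.Agent.Lib.MP06c549.T6H

open Finset

namespace Gr

open S7a

variable {G : Gr} {o m a b c N : ℕ}

/-- the bound below a part of a minimal counterexample -/
lemma Cx.bnd_del (hM : Cx a b c N m o G) {W : Finset ℕ} (hW : W ⊆ G.vs) :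
    Bnd a b c N m (G.del W o).vs.card := by
  refine hM.ih.mono ?_
  have h := del_card (u := o) hW
  omega

/-- a part with equality in the bound is tight -/
lemma Cx.tight (hM : Cx a b c N m o G) {W : Finset ℕ} (hW : W ⊆ G.vs) (hne : W.Nonempty)
    (hFC : G.FC W o) (ht : (G.del W o).pot a b c ≤ N * (G.del W o).tau) :
    Tight a b c N m G.vs.card o (G.del W o) where
  cls := hM.cls.del hFC
  ih := hM.ih
  lt := by
    have h := del_card (u := o) hW
    have h1 := hne.card_pos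
    omega
  le := ht

/-- in `G - W` an edge both sides of which are touched by `W` has the side `o` twice -/
lemma S.open {W : Finset ℕ} {d i j : ℕ} (h : G.S d i j) (hi : i ∈ G.tf W) (hj : j ∈ G.tf W) :
    (G.del W o).l d = o ∧ (G.del W o).r d = o := by
  have h1 : G.l d ∈ G.tf W := by
    rcases h with h | h
    · rw [h.1]; exact hi
    · rw [h.1]; exact hj
  have h2 : G.r d ∈ G.tf W := by
    rcases h with h | h
    · rw [h.2]; exact hj
    · rw [h.2]; exact hi
  change G.phi W o (G.l d) = o ∧ G.phi W o (G.r d) = o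
  exact ⟨phi_of_mem h1, phi_of_mem h2⟩

/-- in a tight part a vertex with a deleted edge has degree at least two -/
theorem two_le_del (hG : G.Good) (hbc : b ≤ c) (hN : N < 2 * a) {W : Finset ℕ} {n : ℕ}
    (ht : Tight a b c N m n o (G.del W o)) {v d : ℕ} (hv : v ∈ G.vs) (hvW : v ∉ W)
    (m1 : d ∈ G.star v) (w1 : d ∈ G.tds W) : 2 ≤ ((G.del W o).star v).card := by
  have hv' : v ∈ (G.del W o).vs := mem_sdiff.2 ⟨hv, hvW⟩
  by_contra hcon
  have h0 : ((G.del W o).star v).card ≠ 0 := fun h =>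
    ht.not_isolated hbc hN hv' (card_eq_zero.1 h)
  obtain ⟨e, he⟩ := card_eq_one.1 (show ((G.del W o).star v).card = 1 by omega)
  obtain ⟨z, hz⟩ := exists_E (show e ∈ (G.del W o).star v by rw [he]; simp)
  refine ht.not_leaf hbc hN he hz ?_
  rcases touch_del (u := o) hG hv m1 w1 with h | h
  · exact absurd h (ht.not_isolated hbc hN hv')
  · exact h

/-- a cubic vertex of `G` has at most one deleted edge -/
theorem no_two_del (hG : G.Good) (hbc : b ≤ c) (hN : N < 2 * a) {W : Finset ℕ} {n : ℕ}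
    (ht : Tight a b c N m n o (G.del W o)) {v d1 d2 : ℕ} (hv : v ∈ G.vs) (hvW : v ∉ W)
    (h3 : (G.star v).card ≤ 3) (m1 : d1 ∈ G.star v) (m2 : d2 ∈ G.star v) (n12 : d1 ≠ d2)
    (w1 : d1 ∈ G.tds W) (w2 : d2 ∈ G.tds W) : False := by
  have h := two_le_del hG hbc hN ht hv hvW m1 w1
  rw [star_del] at h
  have h1 : (G.star v \ G.tds W).card + ({d1, d2} : Finset ℕ).card ≤ (G.star v).card := by
    rw [← card_union_of_disjoint]
    · refine card_le_card fun d hd => ?_
      rcases mem_union.1 hd with hd | hd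
      · exact (mem_sdiff.1 hd).1
      · rcases mem_insert.1 hd with rfl | hd
        · exact m1
        · rw [mem_singleton.1 hd]; exact m2
    · rw [disjoint_left]
      intro d hd hd'
      refine (mem_sdiff.1 hd).2 ?_
      rcases mem_insert.1 hd' with rfl | hd'
      · exact w1
      · rw [mem_singleton.1 hd']; exact w2
  rw [card_pair n12] at h1
  omega

/-- a cubic vertex of `G` with a deleted edge has an edge with a side which is not touched -/
theorem no_open (hG : G.Good) (hbc : b ≤ c) (hN : N < 2 * a) {W : Finset ℕ} {n : ℕ}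
    (ht : Tight a b c N m n o (G.del W o)) {v d0 d1 d2 i j i' j' : ℕ} (hv : v ∈ G.vs)
    (hvW : v ∉ W) (hs : G.star v = {d0, d1, d2}) (w0 : d0 ∈ G.tds W) (s1 : G.S d1 i j)
    (s2 : G.S d2 i' j') (hi : i ∈ G.tf W) (hj : j ∈ G.tf W) (hi' : i' ∈ G.tf W)
    (hj' : j' ∈ G.tf W) : False := by
  have h := two_le_del hG hbc hN ht hv hvW (d := d0) (by rw [hs]; simp) w0
  rw [star_del] at h
  have hsub : G.star v \ G.tds W ⊆ {d1, d2} := by
    intro d hd
    obtain ⟨h1, h2⟩ := mem_sdiff.1 hd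
    rw [hs, mem_insert] at h1
    rcases h1 with rfl | h1
    · exact absurd w0 h2
    · exact h1
  have n12 : d1 ≠ d2 := by
    rintro rfl
    have := card_le_card hsub
    rw [pair_eq_singleton, card_singleton] at this
    omega
  have heq : G.star v \ G.tds W = {d1, d2} := by
    refine eq_of_subset_of_card_le hsub ?_
    rw [card_pair n12]
    exact h
  exact ht.not_two hbc hN (y := v) (by rw [star_del]; exact heq) n12 (s1.open hi hj).1
    (s1.open hi hj).2 (s2.open hi' hj').1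

section

variable {x0 x1 x2 x3 e0 e1 e2 e3 e4 g0 g1 g2 g3 F0 F1 F2 F3 F4 b0 b1 b2 : ℕ}

/-- the deleted part is linked to `o` -/
lemma win_fc (hgood : G.Good) (h0 : G.Cub o x0 e0 g0 e1 F0 F1)
    (h1 : G.Spk o x1 e1 g1 e2 F1 F2 b1) (h2 : G.Cub o x2 e2 g2 e3 F2 F3) :
    G.FC {x1, x0, x2, b1} o ∧ ({x1, x0, x2, b1} : Finset ℕ) ⊆ G.vs := by
  have v0 := h0.mv hgood
  have v1 := h1.cub.mv hgood
  have v2 := h2.mv hgood
  have vb := h1.eb.symm.memv hgood
  constructor
  · have e1 : ({x1, x0, x2, b1} : Finset ℕ) = insert b1 {x1, x0, x2} := by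
      ext v; simp only [mem_insert, mem_singleton]; tauto
    rw [e1]
    refine FC.insert_adj hgood ?_ (w := x1) (by simp) ⟨g1, h1.eb.symm⟩
    exact ((FC_singleton hgood v2 h2.tO).insert_out hgood v0 h0.tO).insert_out hgood v1 h1.cub.tO
  · intro v hv
    simp only [mem_insert, mem_singleton] at hv
    rcases hv with rfl | rfl | rfl | rfl <;> assumption

/-- the graph `Q` without `x1`, `x0`, `x2`, `b1` is tight (from the last clause of `t1`) -/
lemma win_tight (hM : Cx a b c N m o G) (h0 : G.Cub o x0 e0 g0 e1 F0 F1)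
    (h1 : G.Spk o x1 e1 g1 e2 F1 F2 b1) (h2 : G.Cub o x2 e2 g2 e3 F2 F3)
    (ht : (G.del {x1, x0, x2, b1} o).pot a b c = N * (G.del {x1, x0, x2, b1} o).tau) :
    Tight a b c N m G.vs.card o (G.del {x1, x0, x2, b1} o) := by
  obtain ⟨hFC, hsub⟩ := win_fc hM.cls.good h0 h1 h2
  exact hM.tight hsub ⟨x1, by simp⟩ hFC ht.le

/-- (E1): the inner neighbours of `x1`, `x2` are not adjacent -/
theorem E1 (hgood : G.Good) (hbc : b ≤ c) (hN : N < 2 * a) {n : ℕ} (h0 : G.Cub o x0 e0 g0 e1 F0 F1)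
    (h1 : G.Spk o x1 e1 g1 e2 F1 F2 b1) (h2 : G.Spk o x2 e2 g2 e3 F2 F3 b2)
    (ht : Tight a b c N m n o (G.del {x1, x0, x2, b1} o)) (nb : b1 ≠ b2)
    (hb2 : (G.star b2).card = 3) {k : ℕ} (hk : G.E k b1 b2) : False := by
  refine no_two_del hgood hbc hN ht (v := b2) (d1 := k) (d2 := g2) (hk.symm.memv hgood) ?_ hb2.le
    hk.right h2.eb.right ?_ (star_sub_tds (v := b1) (by simp) hk.left)
    (star_sub_tds (v := x2) (by simp) h2.eb.left)
  · simp only [mem_insert, mem_singleton, not_or]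
    exact ⟨h2.ne h1.cub.tO, h2.ne h0.tO, h2.ne h2.cub.tO, nb.symm⟩
  · rintro rfl
    exact h1.ne h2.cub.tO (hk.symm.other hgood h2.eb.symm)

/-- (E2): the third faces at the inner neighbours of `x1`, `x2` are different -/
theorem E2 (hgood : G.Good) (hbc : b ≤ c) (hN : N < 2 * a) {n : ℕ} (h0 : G.Cub o x0 e0 g0 e1 F0 F1)
    {l1 r1 O1 l2 r2 O2 : ℕ} (h1 : G.Sp3 o x1 e1 g1 e2 F1 F2 b1 l1 r1 O1)
    (h2 : G.Sp3 o x2 e2 g2 e3 F2 F3 b2 l2 r2 O2)
    (ht : Tight a b c N m n o (G.del {x1, x0, x2, b1} o)) (nb : b1 ≠ b2) : O1 ≠ O2 := by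
  intro hO
  have hO2 : O2 ∈ G.tf {x1, x0, x2, b1} := by
    rw [← hO]
    exact mem_tf_touch (v := b1) (by simp) (h1.sl.touch (by rw [h1.st]; simp)).2
  refine no_open hgood hbc hN ht (v := b2) (h2.spk.eb.symm.memv hgood) ?_ h2.st
    (star_sub_tds (v := x2) (by simp) h2.spk.eb.left) h2.sl h2.sr
    (mem_tf_touch (v := x1) (by simp) h1.spk.cub.tF') hO2
    (mem_tf_touch (v := x2) (by simp) h2.spk.cub.tF') hO2
  simp only [mem_insert, mem_singleton, not_or]
  exact ⟨h2.spk.ne h1.spk.cub.tO, h2.spk.ne h0.tO, h2.spk.ne h2.spk.cub.tO, nb.symm⟩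

/-- (E3): the third face at the inner neighbour of `x1` is not the face behind `x3` -/
theorem E3 (hgood : G.Good) (hbc : b ≤ c) (hN : N < 2 * a) {n : ℕ} (h0 : G.Cub o x0 e0 g0 e1 F0 F1)
    {l1 r1 O1 : ℕ} (h1 : G.Sp3 o x1 e1 g1 e2 F1 F2 b1 l1 r1 O1)
    (h2 : G.Cub o x2 e2 g2 e3 F2 F3) (h3 : G.Cub o x3 e3 g3 e4 F3 F4) (a3 : G.E e3 x2 x3)
    (ht : Tight a b c N m n o (G.del {x1, x0, x2, b1} o)) (n0 : x3 ≠ x0) (n1 : x3 ≠ x1) :
    O1 ≠ F4 := by
  intro hO
  have hF4 : F4 ∈ G.tf {x1, x0, x2, b1} := by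
    rw [← hO]
    exact mem_tf_touch (v := b1) (by simp) (h1.sl.touch (by rw [h1.st]; simp)).2
  refine no_open hgood hbc hN ht (v := x3) (h3.mv hgood) ?_ h3.st
    (star_sub_tds (v := x2) (by simp) a3.left) h3.sg h3.se'
    (mem_tf_touch (v := x2) (by simp) h2.tF') hF4 (mem_tf_touch (v := x1) (by simp) h1.spk.cub.tO)
    hF4
  simp only [mem_insert, mem_singleton, not_or]
  exact ⟨n1, n0, (a3.ne hgood).symm, (h1.spk.ne h3.tO).symm⟩

end

/-- the mirror image of the deleted part -/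
lemma win_symm {x1 x0 x2 b1 : ℕ} : ({x1, x0, x2, b1} : Finset ℕ) = {x1, x2, x0, b1} := by
  ext v; simp only [mem_insert, mem_singleton]; tauto

end Gr

end Pool.Agent.Lib.MP06c549.T6H
end
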