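import Pool.Agent.Lib.MP_06c549_co.T6H.Step56
import Pool.Agent.Lib.MP_06c549_co.T6H.E13

section
/-!
# MP_06c549_co, T6H, the constant 13: two consecutive faces around the outer face

`J1`: the only edge between `F1` and `F2` is the inner edge `g1` at the common outer vertex `x1`.
`J2`: the only vertices on `F1` and `F2` are `x1` and its inner neighbour.
-/
set_option autoImplicit false

namespace Pool.Agent.Lib.MP06c549.T6H

open Finset

namespace Gr

variable {G : Gr} {o m : ℕ}

/-! ## Parts -/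

/-- the faces which occur at `W` and at an edge outside are linked to `u` -/
theorem FC_cross (hG : G.Good) {W : Finset ℕ} {u : ℕ} (hu : u ∈ G.fs)
    (h : ∀ x : ℕ → ZMod 2, (∀ d ∈ G.tds W, x (G.l d) = x (G.r d)) → ∀ i ∈ G.tf W,
      ∀ d ∈ G.ds, d ∉ G.tds W → (G.l d = i ∨ G.r d = i) → x i = x u) : G.FC W u := by
  classical
  intro x hx
  have key := hG.dconn (fun i => if i ∈ G.tf W then x i else x u) (by
    intro d hd
    by_cases h1 : d ∈ G.tds W
    · simp only [if_pos (l_mem_tf h1), if_pos (r_mem_tf h1)]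
      exact hx d h1
    · have h2 : (if G.l d ∈ G.tf W then x (G.l d) else x u) = x u := by
        split_ifs with h3
        · exact h x hx _ h3 d hd h1 (Or.inl rfl)
        · rfl
      have h4 : (if G.r d ∈ G.tf W then x (G.r d) else x u) = x u := by
        split_ifs with h3
        · exact h x hx _ h3 d hd h1 (Or.inr rfl)
        · rfl
      simp only [h2, h4])
  intro i hi
  have h1 := key i (tf_sub hG hi) u hu
  simp only [if_pos hi] at h1
  rw [h1]
  split_ifs <;> rfl

/-- the bound for a part -/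
lemma pt_bound {a b c N : ℕ} (hG : Cx a b c N m o G) {V : Finset ℕ} (hV : V ⊆ G.vs) {v : ℕ}
    (hv : v ∈ G.vs) (hvV : v ∉ V) (hF : G.FC (G.vs \ V) o) :
    N * (G.del (G.vs \ V) o).tau ≤ (G.del (G.vs \ V) o).pot a b c := by
  refine hG.ih o _ (hG.cls.del hF) ?_
  have h1 : (G.del (G.vs \ V) o).vs = V := vs_del_compl hV
  rw [h1]
  exact card_lt_card ((ssubset_iff_of_subset hV).2 ⟨v, hv, hvV⟩)

/-- forced vertices in a part -/
lemma pt_T {a b c N : ℕ} (hG : Cx a b c N m o G) (hbc : b ≤ c) (hN : N ≤ 2 * a)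
    {V T B : Finset ℕ} (hV : V ⊆ G.vs) (hT : T ⊆ V) (hne : T.Nonempty)
    (hF : G.FC (G.vs \ V) o) (hFT : G.FC ((G.vs \ V) ∪ T) o)
    (hB : ∀ i ∈ B, i ≠ o ∧ i ∈ G.tf T ∧ i ∉ G.tf (G.vs \ V)) :
    N * (G.del (G.vs \ V) o).cost T + a * T.card + b * B.card ≤
      (G.del (G.vs \ V) o).pot a b c + N * T.card := by
  have h1 : (G.del (G.vs \ V) o).vs = V := vs_del_compl hV
  refine cost_T hbc hN hG.ih (hG.cls.del hF) ?_ ?_ hne (FC_del hFT) ?_
  · rw [h1]; exact card_le_card hV
  · rw [h1]; exact hT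
  · intro i hi
    obtain ⟨h2, h3, h4⟩ := hB i hi
    exact mem_erase.2 ⟨h2, (mem_tf_del h2).2 ⟨h3, h4⟩⟩

/-- a face at a vertex other than two given ones -/
lemma third_touch (hG : G.Good) (hP : G.P1) {v i j : ℕ} (hv : v ∈ G.vs)
    (h : 3 ≤ (G.star v).card) : ∃ k, G.Touch v k ∧ k ≠ i ∧ k ≠ j := by
  have h2 : 3 ≤ (G.fv v).card := by rw [hP.card_fv hG hv]; exact h
  obtain ⟨k, hk, hk'⟩ : ∃ k ∈ G.fv v, k ∉ ({i, j} : Finset ℕ) := by
    by_contra hcon
    push Not at hcon
    have h3 := card_le_card (s := G.fv v) (t := {i, j}) hcon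
    have h4 := card_le_two (a := i) (b := j)
    omega
  simp only [mem_insert, mem_singleton, not_or] at hk'
  exact ⟨k, mem_fv.1 hk, hk'.1, hk'.2⟩

lemma E.mem_iff {d a b : ℕ} {A : Finset ℕ} (h : G.E d a b) :
    (G.p d ∈ A ↔ G.q d ∈ A) ↔ (a ∈ A ↔ b ∈ A) := by
  rcases h.2 with ⟨h1, h2⟩ | ⟨h1, h2⟩
  · rw [h1, h2]
  · rw [h1, h2]
    tauto

lemma E.tds {d a b : ℕ} {W : Finset ℕ} (h : G.E d a b) : d ∈ G.tds W ↔ a ∈ W ∨ b ∈ W := by
  rw [mem_tds]
  rcases h.2 with ⟨h1, h2⟩ | ⟨h1, h2⟩
  · rw [h1, h2]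
    exact and_iff_right h.1
  · rw [h1, h2, and_iff_right h.1]
    tauto

/-- every edge joins two vertices -/
lemma E_self {d : ℕ} (hd : d ∈ G.ds) : G.E d (G.p d) (G.q d) := ⟨hd, Or.inl ⟨rfl, rfl⟩⟩

lemma end_mem' {d v : ℕ} {X : Finset ℕ} (h : d ∈ G.star v) (hv : v ∈ X) :
    G.p d ∈ X ∨ G.q d ∈ X := by
  rcases (mem_star.1 h).2 with h1 | h1
  · left; rw [h1]; exact hv
  · right; rw [h1]; exact hv

open S7a

/-! ## No second edge between `F1` and `F2` -/

/-- J1 -/
theorem J1 (hG : Cx 7 2 4 13 m o G) (h1 : G.P1) (h2 : G.P2 o) (h3 : G.P3 o)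
    {x0 x1 x2 e0 e1 e2 e3 g0 g1 g2 F0 F1 F2 F3 b1 : ℕ}
    (c0 : G.Cub o x0 e0 g0 e1 F0 F1) (s1 : G.Spk o x1 e1 g1 e2 F1 F2 b1)
    (c2 : G.Cub o x2 e2 g2 e3 F2 F3) (a1 : G.E e1 x0 x1) (a2 : G.E e2 x1 x2) (n02 : x0 ≠ x2)
    (f02 : F0 ≠ F2) (f13 : F1 ≠ F3) (f03 : F0 ≠ F3) {d : ℕ} (hd : d ∈ G.ds)
    (sd : G.S d F1 F2) : d = g1 := by
  classical
  by_contra hne
  have hgood := hG.cls.good
  have hofs : o ∈ G.fs := hgood.us_sub hG.cls.hu
  have f12 := s1.cub.f3
  have f1o := s1.cub.f1
  have f2o := s1.cub.f2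
  have f01 := c0.f3
  have f23 := c2.f3
  have hx1 : x1 ∈ G.vs := s1.cub.mv hgood
  have hx0 : x0 ∈ G.vs := c0.mv hgood
  have hx2 : x2 ∈ G.vs := c2.mv hgood
  have hb1 : b1 ∈ G.vs := s1.eb.symm.memv hgood
  have n01 : x0 ≠ x1 := a1.ne hgood
  have n12 : x1 ≠ x2 := a2.ne hgood
  -- the side `M` of the cut
  obtain ⟨M, hM, hbM, hxM, hdM, hcr⟩ : ∃ M ⊆ G.vs, b1 ∈ M ∧ x1 ∉ M ∧
      (G.p d ∈ M ↔ G.q d ∉ M) ∧
      ∀ d' ∈ G.ds, d' ≠ g1 → d' ≠ d → (G.p d' ∈ M ↔ G.q d' ∈ M) := by
    obtain ⟨A, hA, hc1, hc2, hc3⟩ := two_cut hgood s1.eb.1 hd (Ne.symm hne) s1.cub.sg sd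
    have hxb : x1 ∈ A ↔ b1 ∉ A := by
      rcases s1.eb.2 with ⟨h4, h5⟩ | ⟨h4, h5⟩
      · rw [h4, h5] at hc1; exact hc1
      · rw [h4, h5] at hc1; tauto
    by_cases hb : b1 ∈ A
    · exact ⟨A, hA, hb, fun h => hxb.1 h hb, hc2, hc3⟩
    · refine ⟨G.vs \ A, sdiff_subset, mem_sdiff.2 ⟨hb1, hb⟩,
        fun h => (mem_sdiff.1 h).2 (hxb.2 hb), ?_, fun d' hd' h4 h5 => ?_⟩
      · have h6 := hgood.ends d hd
        simp only [mem_sdiff, h6.1, h6.2, true_and]
        tauto
      · have h6 := hgood.ends d' hd'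
        have h7 := hc3 d' hd' h4 h5
        simp only [mem_sdiff, h6.1, h6.2, true_and]
        tauto
  -- the ends of `d`
  obtain ⟨a', a, hE, haM', haM⟩ : ∃ a' a, G.E d a' a ∧ a' ∈ M ∧ a ∉ M := by
    by_cases hp : G.p d ∈ M
    · exact ⟨_, _, E_self hd, hp, hdM.1 hp⟩
    · refine ⟨_, _, (E_self hd).symm, ?_, hp⟩
      by_contra hq
      exact hp (hdM.2 hq)
  have hav' : a' ∈ G.vs := hE.memv hgood
  have hav : a ∈ G.vs := hE.symm.memv hgood
  -- faces on one side
  have side : ∀ i, i ≠ F1 → i ≠ F2 → (∀ v, G.Touch v i → v ∈ M) ∨ (∀ v, G.Touch v i → v ∉ M) := by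
    intro i hi1 hi2
    refine one_side (h1.bc i) fun d' hd' hdi => hcr d' hd' ?_ ?_
    · rintro rfl
      rcases s1.cub.sg.side hdi with h | h
      · exact hi1 h
      · exact hi2 h
    · rintro rfl
      rcases sd.side hdi with h | h
      · exact hi1 h
      · exact hi2 h
  have hout : ∀ v, G.Touch v o → v ∉ M := by
    rcases side o f1o.symm f2o.symm with h | h
    · exact absurd (h x1 s1.cub.tO) hxM
    · exact h
  have sideM : ∀ v ∈ M, ∀ k, G.Touch v k → k ≠ F1 → k ≠ F2 → k ≠ o ∧ ∀ w, G.Touch w k → w ∈ M := by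
    intro v hv k hk k1 k2
    rcases side k k1 k2 with h | h
    · refine ⟨?_, h⟩
      rintro rfl
      exact hout v hk hv
    · exact absurd hv (h v hk)
  have hdx : d ∉ G.star x1 := by
    intro h
    rw [s1.cub.st] at h
    simp only [mem_insert, mem_singleton] at h
    rcases h with rfl | rfl | rfl
    · rcases sd.unique s1.cub.se with h | h
      · exact f1o h.1.symm
      · exact f2o h.1.symm
    · exact hne rfl
    · rcases sd.unique s1.cub.se' with h | h
      · exact f1o h.1.symm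
      · exact f2o h.1.symm
  have hax : a ≠ x1 := by
    rintro rfl
    exact hdx hE.right
  have hao : ¬ G.Touch a o := by
    intro h
    exact hax (eq_of_inner hgood h1 h3 s1.cub hE.right sd h).symm
  have hab : a' ≠ b1 := by
    rintro rfl
    have hEv : G.Ev {g1, d} := by
      intro x
      rw [sum_pair (Ne.symm hne), s1.cub.sg.sum, sd.sum]
      exact CharTwo.add_self_eq_zero _
    rcases h1.ncv a' hav' {g1, d} (by
      intro e he
      simp only [mem_insert, mem_singleton] at he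
      rcases he with rfl | rfl
      · exact s1.eb.right
      · exact hE.left) hEv with h | h
    · exact absurd h (insert_ne_empty _ _)
    · have h4 := s1.db
      rw [← h, card_pair (Ne.symm hne)] at h4
      omega
  have hx0M : x0 ∉ M := hout x0 c0.tO
  have hx2M : x2 ∉ M := hout x2 c2.tO
  -- faces at the vertices
  have tfM : ∀ {V : Finset ℕ} {v i : ℕ}, v ∈ V → G.Touch v i → i ∈ G.tf V := fun hv h =>
    mem_tf_touch hv h
  have tf_touch : ∀ {V : Finset ℕ} {i : ℕ}, i ∈ G.tf V → ∃ v ∈ V, G.Touch v i := by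
    intro V i hi
    obtain ⟨d', hd', hdi⟩ := mem_tf.1 hi
    rw [mem_tds] at hd'
    rcases hd'.2 with h | h
    · exact ⟨_, h, d', mem_star.2 ⟨hd'.1, Or.inl rfl⟩, hdi⟩
    · exact ⟨_, h, d', mem_star.2 ⟨hd'.1, Or.inr rfl⟩, hdi⟩
  have tend : ∀ {d' i : ℕ}, d' ∈ G.ds → (G.l d' = i ∨ G.r d' = i) → G.Touch (G.p d') i :=
    fun hd' hdi => ⟨_, mem_star.2 ⟨hd', Or.inl rfl⟩, hdi⟩
  -- linked sets
  have FC1 : G.FC (G.vs \ M) o := by
    refine FC_cross hgood hofs fun x hx i hi d' hd' hdW hdi => ?_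
    have hx1W : x1 ∈ G.vs \ M := mem_sdiff.2 ⟨hx1, hxM⟩
    by_cases hi1 : i = F1
    · have h4 := hx e1 (star_sub_tds hx1W s1.cub.me)
      rw [hi1]
      rcases s1.cub.se with h5 | h5
      · rw [h5.1, h5.2] at h4; exact h4.symm
      · rw [h5.1, h5.2] at h4; exact h4
    by_cases hi2 : i = F2
    · have h4 := hx e2 (star_sub_tds hx1W s1.cub.me')
      rw [hi2]
      rcases s1.cub.se' with h5 | h5
      · rw [h5.1, h5.2] at h4; exact h4.symm
      · rw [h5.1, h5.2] at h4; exact h4
    exfalso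
    obtain ⟨v, hv, hvi⟩ := tf_touch hi
    have hp : G.p d' ∈ M := by
      by_contra hp
      exact hdW (mem_tds.2 ⟨hd', Or.inl (mem_sdiff.2 ⟨(hgood.ends d' hd').1, hp⟩)⟩)
    exact (mem_sdiff.1 hv).2 ((sideM _ hp i (tend hd' hdi) hi1 hi2).2 v hvi)
  have FC2 : G.FC (insert x1 M) o := by
    refine FC_cross hgood hofs fun x hx i hi d' hd' hdW hdi => ?_
    have hx1W : x1 ∈ insert x1 M := mem_insert_self _ _
    by_cases hi1 : i = F1
    · have h4 := hx e1 (star_sub_tds hx1W s1.cub.me)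
      rw [hi1]
      rcases s1.cub.se with h5 | h5
      · rw [h5.1, h5.2] at h4; exact h4.symm
      · rw [h5.1, h5.2] at h4; exact h4
    by_cases hi2 : i = F2
    · have h4 := hx e2 (star_sub_tds hx1W s1.cub.me')
      rw [hi2]
      rcases s1.cub.se' with h5 | h5
      · rw [h5.1, h5.2] at h4; exact h4.symm
      · rw [h5.1, h5.2] at h4; exact h4
    by_cases hio : i = o
    · rw [hio]
    exfalso
    obtain ⟨v, hv, hvi⟩ := tf_touch hi
    have hp : G.p d' ∉ M := by
      intro hp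
      exact hdW (mem_tds.2 ⟨hd', Or.inl (mem_insert_of_mem hp)⟩)
    rcases mem_insert.1 hv with rfl | hv
    · rcases s1.cub.touch hvi with h | h | h
      · exact hio h
      · exact hi1 h
      · exact hi2 h
    · exact hp ((sideM v hv i hvi hi1 hi2).2 _ (tend hd' hdi))
  have hW2 : insert x1 M ⊆ G.vs := insert_subset hx1 hM
  have FC3 : G.FC (insert x0 (insert x2 (insert x1 M))) o :=
    (FC2.insert_adj hgood (mem_insert_self _ _) ⟨e2, a2.symm⟩).insert_adj hgood
      (mem_insert_of_mem (mem_insert_self _ _)) ⟨e1, a1⟩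
  have hW3 : insert x0 (insert x2 (insert x1 M)) ⊆ G.vs :=
    insert_subset hx0 (insert_subset hx2 hW2)
  have adj' : G.Adj a' a := ⟨d, hE⟩
  have FC4 : G.FC ((G.vs \ M) ∪ {b1, a'}) o := by
    have h4 := (FC1.insert_adj hgood (mem_sdiff.2 ⟨hav, haM⟩) adj').insert_adj hgood
      (mem_insert_of_mem (mem_sdiff.2 ⟨hx1, hxM⟩)) ⟨g1, s1.eb.symm⟩
    rw [union_comm, insert_union, singleton_union]
    exact h4
  have FC5 : G.FC ((G.vs \ M) ∪ {a'}) o := by
    have h4 := FC1.insert_adj hgood (mem_sdiff.2 ⟨hav, haM⟩) adj'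
    rw [union_comm, singleton_union]
    exact h4
  have FC6 : G.FC (insert x1 M ∪ {a}) o := by
    have h4 := FC2.insert_adj hgood (mem_insert_of_mem haM') ⟨d, hE.symm⟩
    rw [union_comm, singleton_union]
    exact h4
  -- the parts
  have k1 := pt_bound hG hM hx1 hxM FC1
  obtain ⟨K, hK⟩ : ∃ K, K = G.del (G.vs \ M) o := ⟨_, rfl⟩
  rw [← hK] at k1
  have sW2 : G.vs \ (G.vs \ insert x1 M) = insert x1 M := Finset.sdiff_sdiff_eq_self hW2
  have sW3 : G.vs \ (G.vs \ insert x0 (insert x2 (insert x1 M))) =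
      insert x0 (insert x2 (insert x1 M)) := Finset.sdiff_sdiff_eq_self hW3
  have l1 := pt_bound hG (V := G.vs \ insert x1 M) sdiff_subset hx1
    (fun h => (mem_sdiff.1 h).2 (mem_insert_self _ _)) (by rw [sW2]; exact FC2)
  obtain ⟨L, hL⟩ : ∃ L, L = G.del (G.vs \ (G.vs \ insert x1 M)) o := ⟨_, rfl⟩
  rw [← hL] at l1
  have r1 := pt_bound hG (V := G.vs \ insert x0 (insert x2 (insert x1 M))) sdiff_subset hx1
    (fun h => (mem_sdiff.1 h).2 (by simp)) (by rw [sW3]; exact FC3)
  -- faces of the parts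
  have hkM : ∀ {T : Finset ℕ} {v k : ℕ}, v ∈ M → v ∈ T → G.Touch v k → k ≠ F1 → k ≠ F2 →
      k ≠ o ∧ k ∈ G.tf T ∧ k ∉ G.tf (G.vs \ M) := by
    intro T v k hv hvT hk hk1 hk2
    obtain ⟨h4, h5⟩ := sideM v hv k hk hk1 hk2
    refine ⟨h4, tfM hvT hk, fun h6 => ?_⟩
    obtain ⟨w, hw, hwk⟩ := tf_touch h6
    exact (mem_sdiff.1 hw).2 (h5 w hwk)
  have hkR : ∀ {k : ℕ}, G.Touch a k → k ≠ F1 → k ≠ F2 →
      k ≠ o ∧ k ∈ G.tf {a} ∧ k ∉ G.tf (insert x1 M) := by
    intro k hk hk1 hk2
    have h4 : k ≠ o := fun h => hao (h ▸ hk)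
    refine ⟨h4, tfM (mem_singleton_self _) hk, fun h6 => ?_⟩
    obtain ⟨w, hw, hwk⟩ := tf_touch h6
    rcases mem_insert.1 hw with rfl | hw
    · rcases s1.cub.touch hwk with h | h | h
      · exact h4 h
      · exact hk1 h
      · exact hk2 h
    · exact haM ((sideM w hw k hwk hk1 hk2).2 a hk)
  -- the general move with the parts `M` and the rest
  have hdis : Disjoint M (G.vs \ insert x1 M) := by
    rw [disjoint_left]
    intro v hv hv'
    exact (mem_sdiff.1 hv').2 (mem_insert_of_mem hv)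
  have hcard1 : 1 ≤ (G.vs \ (M ∪ (G.vs \ insert x1 M))).card := by
    refine card_pos.2 ⟨x1, mem_sdiff.2 ⟨hx1, fun h => ?_⟩⟩
    rcases mem_union.1 h with h | h
    · exact hxM h
    · exact (mem_sdiff.1 h).2 (mem_insert_self _ _)
  have move : ∀ T₁ ⊆ M, ∀ T₂ ⊆ G.vs \ insert x1 M, (a' ∈ T₁ ∨ a ∈ T₂) →
      K.pot 7 2 4 + L.pot 7 2 4 + 11 < 13 * (1 + K.cost T₁ + L.cost T₂) := by
    intro T₁ hT₁ T₂ hT₂ hT
    have h4 := hG.move_two_le (by norm_num) (by norm_num) (V₁ := M) (V₂ := G.vs \ insert x1 M)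
      (T₁ := T₁) (T₂ := T₂) (X₀ := {x1}) (Y₀ := ∅) (B := {F1, F2}) hM sdiff_subset hdis FC1
      (by rw [sW2]; exact FC2) hT₁ hT₂ (singleton_subset_iff.2 hx1) (empty_subset _)
      (by
        have hx1W : x1 ∈ G.vs \ M := mem_sdiff.2 ⟨hx1, hxM⟩
        intro i hi
        simp only [mem_insert, mem_singleton] at hi
        rcases hi with rfl | rfl
        · exact mem_erase.2 ⟨f1o, tfM hx1W s1.cub.tF⟩
        · exact mem_erase.2 ⟨f2o, tfM hx1W s1.cub.tF'⟩)
      (by
        rw [sW2]
        intro i hi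
        simp only [mem_insert, mem_singleton] at hi
        rcases hi with rfl | rfl
        · exact mem_erase.2 ⟨f1o, tfM (mem_insert_self _ _) s1.cub.tF⟩
        · exact mem_erase.2 ⟨f2o, tfM (mem_insert_self _ _) s1.cub.tF'⟩)
      (by
        intro e he
        obtain ⟨he1, he2, he3⟩ := mem_rest.1 he
        have hends := hgood.ends e he1
        by_cases hex : e ∈ G.star x1
        · have := end_mem' hex (X := {x1} ∪ (T₁ ∪ T₂)) (by simp)
          rcases this with h | h
          · exact Or.inl h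
          · exact Or.inr (Or.inl h)
        by_cases hed : e = d
        · subst hed
          rcases hT with h | h
          · exact end_mem hE.symm (by simp [h])
          · exact end_mem hE (by simp [h])
        exfalso
        have heg : e ≠ g1 := by
          rintro rfl
          exact hex s1.eb.left
        have hcr' := hcr e he1 heg hed
        by_cases hp : G.p e ∈ M
        · exact he2 ⟨hp, hcr'.1 hp⟩
        · have hq : G.q e ∉ M := fun h => hp (hcr'.2 h)
          refine he3 ⟨mem_sdiff.2 ⟨hends.1, fun h => ?_⟩, mem_sdiff.2 ⟨hends.2, fun h => ?_⟩⟩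
          · rcases mem_insert.1 h with h | h
            · exact hex (mem_star.2 ⟨he1, Or.inl h⟩)
            · exact hp h
          · rcases mem_insert.1 h with h | h
            · exact hex (mem_star.2 ⟨he1, Or.inr h⟩)
            · exact hq h)
    rw [card_singleton, card_pair f12, fpr_empty, ← hK, ← hL] at h4
    omega
  by_cases hfree : K.cost {b1, a'} ≤ K.tau
  · -- both ends free in `M`
    have hdis3 : Disjoint M (G.vs \ insert x0 (insert x2 (insert x1 M))) := by
      rw [disjoint_left]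
      intro v hv hv'
      exact (mem_sdiff.1 hv').2 (by simp [hv])
    have h4 := hG.move_two_le (by norm_num) (by norm_num) (V₁ := M)
      (V₂ := G.vs \ insert x0 (insert x2 (insert x1 M)))
      (T₁ := {b1, a'}) (T₂ := ∅) (X₀ := {x0, x2}) (Y₀ := ∅) (B := {F0, F1, F2, F3}) hM
      sdiff_subset hdis3 FC1 (by rw [sW3]; exact FC3)
      (insert_subset hbM (singleton_subset_iff.2 haM')) (empty_subset _)
      (insert_subset hx0 (singleton_subset_iff.2 hx2)) (empty_subset _)
      (by
        intro i hi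
        simp only [mem_insert, mem_singleton] at hi
        rcases hi with rfl | rfl | rfl | rfl
        · exact mem_erase.2 ⟨c0.f1, tfM (mem_sdiff.2 ⟨hx0, hx0M⟩) c0.tF⟩
        · exact mem_erase.2 ⟨f1o, tfM (mem_sdiff.2 ⟨hx1, hxM⟩) s1.cub.tF⟩
        · exact mem_erase.2 ⟨f2o, tfM (mem_sdiff.2 ⟨hx1, hxM⟩) s1.cub.tF'⟩
        · exact mem_erase.2 ⟨c2.f2, tfM (mem_sdiff.2 ⟨hx2, hx2M⟩) c2.tF'⟩)
      (by
        rw [sW3]
        intro i hi
        simp only [mem_insert, mem_singleton] at hi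
        rcases hi with rfl | rfl | rfl | rfl
        · exact mem_erase.2 ⟨c0.f1, tfM (v := x0) (by simp) c0.tF⟩
        · exact mem_erase.2 ⟨f1o, tfM (v := x1) (by simp) s1.cub.tF⟩
        · exact mem_erase.2 ⟨f2o, tfM (v := x1) (by simp) s1.cub.tF'⟩
        · exact mem_erase.2 ⟨c2.f2, tfM (v := x2) (by simp) c2.tF'⟩)
      (by
        intro e he
        obtain ⟨he1, he2, he3⟩ := mem_rest.1 he
        have hends := hgood.ends e he1
        by_cases hex0 : e ∈ G.star x0
        · rcases end_mem' hex0 (X := {x0, x2} ∪ ({b1, a'} ∪ ∅)) (by simp) with h | h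
          · exact Or.inl h
          · exact Or.inr (Or.inl h)
        by_cases hex2 : e ∈ G.star x2
        · rcases end_mem' hex2 (X := {x0, x2} ∪ ({b1, a'} ∪ ∅)) (by simp) with h | h
          · exact Or.inl h
          · exact Or.inr (Or.inl h)
        by_cases heg : e = g1
        · subst heg
          exact end_mem s1.eb (by simp)
        by_cases hed : e = d
        · subst hed
          exact end_mem hE.symm (by simp)
        exfalso
        have hex : e ∉ G.star x1 := by
          intro h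
          rw [s1.cub.st] at h
          simp only [mem_insert, mem_singleton] at h
          rcases h with rfl | rfl | rfl
          · exact hex0 a1.left
          · exact heg rfl
          · exact hex2 a2.right
        have hcr' := hcr e he1 heg hed
        by_cases hp : G.p e ∈ M
        · exact he2 ⟨hp, hcr'.1 hp⟩
        · have hq : G.q e ∉ M := fun h => hp (hcr'.2 h)
          refine he3 ⟨mem_sdiff.2 ⟨hends.1, fun h => ?_⟩, mem_sdiff.2 ⟨hends.2, fun h => ?_⟩⟩
          · simp only [mem_insert] at h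
            rcases h with h | h | h | h
            · exact hex0 (mem_star.2 ⟨he1, Or.inl h⟩)
            · exact hex2 (mem_star.2 ⟨he1, Or.inl h⟩)
            · exact hex (mem_star.2 ⟨he1, Or.inl h⟩)
            · exact hp h
          · simp only [mem_insert] at h
            rcases h with h | h | h | h
            · exact hex0 (mem_star.2 ⟨he1, Or.inr h⟩)
            · exact hex2 (mem_star.2 ⟨he1, Or.inr h⟩)
            · exact hex (mem_star.2 ⟨he1, Or.inr h⟩)
            · exact hq h)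
    have h5 : 3 ≤ (G.vs \ (M ∪ (G.vs \ insert x0 (insert x2 (insert x1 M))))).card := by
      rw [← card3 n01 n02 n12]
      refine card_le_card ?_
      intro v hv
      simp only [mem_insert, mem_singleton] at hv
      rw [mem_sdiff, mem_union, mem_sdiff]
      rcases hv with rfl | rfl | rfl
      · exact ⟨hx0, by simp [hx0M]⟩
      · exact ⟨hx1, by simp [hxM]⟩
      · exact ⟨hx2, by simp [hx2M]⟩
    rw [card_pair n02, fpr_empty, card4 f01 f02 f03 f12 f13 f23, ← hK] at h4
    have h6 : (G.del (G.vs \ (G.vs \ insert x0 (insert x2 (insert x1 M)))) o).cost ∅ =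
      (G.del (G.vs \ (G.vs \ insert x0 (insert x2 (insert x1 M)))) o).tau := rfl
    omega
  · push Not at hfree
    obtain ⟨k, hk, hk1, hk2⟩ := third_touch (i := F1) (j := F2) hgood h1 hb1 s1.db
    have hT := pt_T hG (by norm_num) (by norm_num) (V := M) (T := {b1, a'}) (B := {k}) hM
      (insert_subset hbM (singleton_subset_iff.2 haM')) ⟨b1, mem_insert_self _ _⟩ FC1 FC4 (by
        intro i hi
        rw [mem_singleton] at hi
        subst hi
        exact hkM hbM (mem_insert_self _ _) hk hk1 hk2)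
    rw [card_pair hab.symm, card_singleton, ← hK] at hT
    by_cases ha : L.cost {a} ≤ L.tau
    · have h4 := move ∅ (empty_subset _) {a} (singleton_subset_iff.2 (mem_sdiff.2 ⟨hav, by
        simp [hax, haM]⟩)) (Or.inr (mem_singleton_self _))
      have h5 : K.cost ∅ = K.tau := rfl
      omega
    push Not at ha
    by_cases ha' : K.cost {a'} ≤ K.tau
    · have h4 := move {a'} (singleton_subset_iff.2 haM') ∅ (empty_subset _)
        (Or.inl (mem_singleton_self _))
      have h5 : L.cost ∅ = L.tau := rfl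
      omega
    push Not at ha'
    have h4 := move {a'} (singleton_subset_iff.2 haM') ∅ (empty_subset _)
      (Or.inl (mem_singleton_self _))
    have h5 : L.cost ∅ = L.tau := rfl
    have h6 : K.cost {a'} ≤ K.tau + 1 := by
      rw [hK]
      refine cost_singleton_le (hG.cls.del FC1).good ?_
      rw [vs_del_compl hM]
      exact haM'
    have q1 := h1.deg a' hav'
    have q2 := h1.deg a hav
    by_cases hc' : 3 ≤ (G.star a').card
    · obtain ⟨k', hk', hk1', hk2'⟩ := third_touch (i := F1) (j := F2) hgood h1 hav' hc'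
      have h7 := pt_T hG (by norm_num) (by norm_num) (V := M) (T := {a'}) (B := {k'}) hM
        (singleton_subset_iff.2 haM') ⟨a', mem_singleton_self _⟩ FC1 FC5 (by
          intro i hi
          rw [mem_singleton] at hi
          subst hi
          exact hkM haM' (mem_singleton_self _) hk' hk1' hk2')
      have h8 := pt_T hG (by norm_num) (by norm_num) (V := G.vs \ insert x1 M) (T := {a})
        (B := ∅) sdiff_subset (singleton_subset_iff.2 (mem_sdiff.2 ⟨hav, by simp [hax, haM]⟩))
        ⟨a, mem_singleton_self _⟩ (by rw [sW2]; exact FC2) (by rw [sW2]; exact FC6) (by simp)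
      simp only [card_singleton, card_empty, ← hK, ← hL] at h7 h8
      omega
    by_cases hc : 3 ≤ (G.star a).card
    · obtain ⟨k', hk', hk1', hk2'⟩ := third_touch (i := F1) (j := F2) hgood h1 hav hc
      have h7 := pt_T hG (by norm_num) (by norm_num) (V := M) (T := {a'}) (B := ∅) hM
        (singleton_subset_iff.2 haM') ⟨a', mem_singleton_self _⟩ FC1 FC5 (by simp)
      have h8 := pt_T hG (by norm_num) (by norm_num) (V := G.vs \ insert x1 M) (T := {a})
        (B := {k'}) sdiff_subset (singleton_subset_iff.2 (mem_sdiff.2 ⟨hav, by simp [hax, haM]⟩))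
        ⟨a, mem_singleton_self _⟩ (by rw [sW2]; exact FC2) (by rw [sW2]; exact FC6) (by
          intro i hi
          rw [mem_singleton] at hi
          subst hi
          rw [sW2]
          exact hkR hk' hk1' hk2')
      simp only [card_singleton, card_empty, ← hK, ← hL] at h7 h8
      omega
    exact h2.na d a' a hE (by omega) (by omega)

/-! ## No further common vertex of `F1` and `F2` -/

/-- an edge with different sides is no bridge -/
lemma no_bridge_cut (hG : G.Good) {g : ℕ} (hg : g ∈ G.ds) (hlr : G.l g ≠ G.r g) {A : Finset ℕ}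
    (h1 : G.p g ∈ A ↔ G.q g ∉ A) (h2 : ∀ d ∈ G.ds, d ≠ g → (G.p d ∈ A ↔ G.q d ∈ A)) : False := by
  classical
  have hEv : G.Ev {g} := by
    refine ev_of_cut hG (singleton_subset_iff.2 hg) (c := fun v => if v ∈ A then 1 else 0) ?_
    intro d hd
    by_cases hdg : d = g
    · subst hdg
      rw [if_pos (mem_singleton_self _)]
      by_cases hp : G.p d ∈ A
      · rw [if_pos hp, if_neg (h1.1 hp), add_zero]
      · have hq : G.q d ∈ A := by
          by_contra hq
          exact hp (h1.2 hq)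
        rw [if_neg hp, if_pos hq, zero_add]
    · have h0 : d ∉ ({g} : Finset ℕ) := by simpa using hdg
      have h3 := h2 d hd hdg
      by_cases hp : G.p d ∈ A
      · simp only [if_neg h0, if_pos hp, if_pos (h3.1 hp)]
        exact CharTwo.add_self_eq_zero _
      · simp only [if_neg h0, if_neg hp, if_neg fun h => hp (h3.2 h), add_zero]
  have h3 := hEv fun i => if i = G.l g then 1 else 0
  rw [sum_singleton, if_pos rfl, if_neg hlr.symm, add_zero] at h3
  exact one_ne_zero h3

/-- J2 -/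
theorem J2 (hG : Cx 7 2 4 13 m o G) (h1 : G.P1) (h2 : G.P2 o) (h3 : G.P3 o)
    {x0 x1 x2 e0 e1 e2 e3 g0 g1 g2 F0 F1 F2 F3 b1 : ℕ}
    (c0 : G.Cub o x0 e0 g0 e1 F0 F1) (s1 : G.Spk o x1 e1 g1 e2 F1 F2 b1)
    (c2 : G.Cub o x2 e2 g2 e3 F2 F3) (a1 : G.E e1 x0 x1) (a2 : G.E e2 x1 x2) (n02 : x0 ≠ x2)
    (f02 : F0 ≠ F2) (f13 : F1 ≠ F3) (f03 : F0 ≠ F3) {v : ℕ} (hv1 : G.Touch v F1)
    (hv2 : G.Touch v F2) : v = x1 ∨ v = b1 := by
  classical
  by_contra hcon
  rw [not_or] at hcon
  obtain ⟨hvx, hvb⟩ := hcon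
  have hJ1 : ∀ d ∈ G.ds, G.S d F1 F2 → d = g1 := fun d hd sd =>
    J1 hG h1 h2 h3 c0 s1 c2 a1 a2 n02 f02 f13 f03 hd sd
  have hgood := hG.cls.good
  have hofs : o ∈ G.fs := hgood.us_sub hG.cls.hu
  have f12 := s1.cub.f3
  have f1o := s1.cub.f1
  have f2o := s1.cub.f2
  have hx1 : x1 ∈ G.vs := s1.cub.mv hgood
  have hb1 : b1 ∈ G.vs := s1.eb.symm.memv hgood
  have hv : v ∈ G.vs := (touch_mem hgood hv1).1
  have hgv : g1 ∉ G.star v := by
    intro h
    rcases s1.eb.ends h with h | h
    · exact hvx h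
    · exact hvb h
  -- `v` is an inner vertex
  have hvo : ¬ G.Touch v o := by
    intro h
    obtain ⟨d, k, d', A, A', hc⟩ := exists_cub hgood h1 h (h3.cub v hv h)
    have hk : G.S k F1 F2 := by
      rcases hc.touch hv1 with h4 | h4 | h4
      · exact absurd h4 f1o
      · rcases hc.touch hv2 with h5 | h5 | h5
        · exact absurd h5 f2o
        · exact absurd (h4.trans h5.symm) f12
        · rw [h4, h5]; exact hc.sg
      · rcases hc.touch hv2 with h5 | h5 | h5
        · exact absurd h5 f2o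
        · rw [h4, h5]; exact hc.sg.symm
        · exact absurd (h4.trans h5.symm) f12
    exact hvx (eq_of_inner hgood h1 h3 s1.cub hc.mg hk h).symm
  obtain ⟨c, hc1, hc2⟩ := cut_edge_vertex hgood s1.eb.1 s1.cub.sg hgv hv1 hv2
  have hxb : c x1 ≠ c b1 := by
    rcases s1.eb.2 with ⟨h4, h5⟩ | ⟨h4, h5⟩
    · rw [h4, h5] at hc1; exact hc1
    · rw [h4, h5] at hc1; exact hc1.symm
  obtain ⟨M, hM, hbM, hxM, hvM, hgM, hcr⟩ : ∃ M ⊆ G.vs, b1 ∈ M ∧ x1 ∉ M ∧ v ∉ M ∧
      (G.p g1 ∈ M ↔ G.q g1 ∉ M) ∧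
      ∀ d ∈ G.ds, d ≠ g1 → d ∉ G.star v → (G.p d ∈ M ↔ G.q d ∈ M) := by
    refine ⟨G.vs.filter fun w => w ≠ v ∧ c w = c b1, filter_subset _ _,
      mem_filter.2 ⟨hb1, Ne.symm hvb, rfl⟩, fun h => hxb (mem_filter.1 h).2.2,
      fun h => (mem_filter.1 h).2.1 rfl, ?_, fun d hd hd1 hdv => ?_⟩
    · have hbF : b1 ∈ G.vs.filter fun w => w ≠ v ∧ c w = c b1 :=
        mem_filter.2 ⟨hb1, Ne.symm hvb, rfl⟩
      have hxF : x1 ∉ G.vs.filter fun w => w ≠ v ∧ c w = c b1 :=
        fun h => hxb (mem_filter.1 h).2.2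
      rcases s1.eb.2 with ⟨h4, h5⟩ | ⟨h4, h5⟩
      · rw [h4, h5]; exact ⟨fun h => absurd h hxF, fun h => absurd hbF h⟩
      · rw [h4, h5]; exact ⟨fun _ => hxF, fun _ => hbF⟩
    · have h6 := hgood.ends d hd
      have h7 := hc2 d hd hd1 hdv
      have h8 : G.p d ≠ v := fun h => hdv (mem_star.2 ⟨hd, Or.inl h⟩)
      have h9 : G.q d ≠ v := fun h => hdv (mem_star.2 ⟨hd, Or.inr h⟩)
      simp only [mem_filter, h6.1, h6.2, h8, h9, h7, true_and, ne_eq, not_false_eq_true]
  -- faces on one side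
  have side : ∀ i, i ≠ F1 → i ≠ F2 → ∀ w w', w ≠ v → w' ≠ v → G.Touch w i → G.Touch w' i →
      w ∈ M → w' ∈ M := by
    intro i hi1 hi2 w w' hw hw' hwi hwi' hwM
    have h4 := face_minus (f := fun w => if w ∈ M then (1 : ZMod 2) else 0) hgood (h1.bc i)
      (h1.cnt_le hgood hv i) (fun d hd hdi hdv => by
        have h5 := hcr d hd (by
          rintro rfl
          rcases s1.cub.sg.side hdi with h | h
          · exact hi1 h
          · exact hi2 h) hdv
        simp only [h5]) hw hw' hwi hwi'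
    by_contra hwM'
    simp only [if_pos hwM, if_neg hwM'] at h4
    exact one_ne_zero h4
  have hnev : ∀ w, G.Touch w o → w ≠ v := fun w h => by
    rintro rfl
    exact hvo h
  have hout : ∀ w, G.Touch w o → w ∉ M := fun w h h4 =>
    hxM (side o f1o.symm f2o.symm w x1 (hnev w h) (Ne.symm hvx) h s1.cub.tO h4)
  have tfM : ∀ {V : Finset ℕ} {v i : ℕ}, v ∈ V → G.Touch v i → i ∈ G.tf V := fun hv h =>
    mem_tf_touch hv h
  have tf_touch : ∀ {V : Finset ℕ} {i : ℕ}, i ∈ G.tf V → ∃ v ∈ V, G.Touch v i := by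
    intro V i hi
    obtain ⟨d', hd', hdi⟩ := mem_tf.1 hi
    rw [mem_tds] at hd'
    rcases hd'.2 with h | h
    · exact ⟨_, h, d', mem_star.2 ⟨hd'.1, Or.inl rfl⟩, hdi⟩
    · exact ⟨_, h, d', mem_star.2 ⟨hd'.1, Or.inr rfl⟩, hdi⟩
  -- an edge from `v` into `M`
  obtain ⟨dK, w, hEK, hwM⟩ : ∃ d w, G.E d v w ∧ w ∈ M := by
    by_contra hno
    push Not at hno
    refine no_bridge_cut hgood s1.eb.1 (h1.lr _ s1.eb.1) hgM fun d hd hdg => ?_
    by_cases hdv : d ∈ G.star v
    · obtain ⟨w, hw⟩ := exists_E hdv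
      rw [hw.mem_iff]
      exact ⟨fun h => absurd h hvM, fun h => absurd h (hno d w hw)⟩
    · exact hcr d hd hdg hdv
  have hwv : w ≠ v := fun h => hvM (h ▸ hwM)
  -- an edge from `v` to the other side
  obtain ⟨dR, w', hER, hwM', hwv'⟩ : ∃ d w', G.E d v w' ∧ w' ∉ M ∧ w' ≠ v := by
    by_contra hno
    push Not at hno
    have hxN : x1 ∉ insert v M := by
      rw [mem_insert, not_or]
      exact ⟨Ne.symm hvx, hxM⟩
    have hbN : b1 ∈ insert v M := mem_insert_of_mem hbM
    refine no_bridge_cut hgood s1.eb.1 (h1.lr _ s1.eb.1) (A := insert v M) ?_ fun d hd hdg => ?_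
    · rcases s1.eb.2 with ⟨h4, h5⟩ | ⟨h4, h5⟩
      · rw [h4, h5]; exact ⟨fun h => absurd h hxN, fun h => absurd hbN h⟩
      · rw [h4, h5]; exact ⟨fun _ => hxN, fun _ => hbN⟩
    · by_cases hdv : d ∈ G.star v
      · obtain ⟨w'', hw⟩ := exists_E hdv
        rw [hw.mem_iff]
        refine ⟨fun _ => ?_, fun _ => mem_insert_self _ _⟩
        by_cases h4 : w'' ∈ M
        · exact mem_insert_of_mem h4
        · rw [hno d w'' hw h4]
          exact mem_insert_self _ _
      · have h4 := hcr d hd hdg hdv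
        have h8 : G.p d ≠ v := fun h => hdv (mem_star.2 ⟨hd, Or.inl h⟩)
        have h9 : G.q d ≠ v := fun h => hdv (mem_star.2 ⟨hd, Or.inr h⟩)
        simp only [mem_insert, h8, h9, false_or, h4]
  have hwx' : w' ≠ x1 := by
    rintro rfl
    have h4 := hER.right
    rw [s1.cub.st] at h4
    simp only [mem_insert, mem_singleton] at h4
    rcases h4 with h | h | h
    · rw [h] at hER
      rcases a1.ends hER.left with h5 | h5
      · exact hvo (h5 ▸ c0.tO)
      · exact hvx h5
    · rw [h] at hER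
      exact hgv hER.left
    · rw [h] at hER
      rcases a2.ends hER.left with h5 | h5
      · exact hvx h5
      · exact hvo (h5 ▸ c2.tO)
  -- a further side of an edge at `v`
  have further : ∀ {d : ℕ}, d ∈ G.star v → ∃ i, (G.l d = i ∨ G.r d = i) ∧ i ≠ F1 ∧ i ≠ F2 ∧
      i ≠ o := by
    intro d hd
    have hlr := h1.lr d (star_sub hd)
    have ho : ∀ i, (G.l d = i ∨ G.r d = i) → i ≠ o := by
      rintro i hi rfl
      exact hvo ⟨d, hd, hi⟩
    by_contra hno
    push Not at hno
    have hl := hno (G.l d) (Or.inl rfl)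
    have hr := hno (G.r d) (Or.inr rfl)
    have hl' : G.l d = F1 ∨ G.l d = F2 := by
      by_contra h
      rw [not_or] at h
      exact ho _ (Or.inl rfl) (hl h.1 h.2)
    have hr' : G.r d = F1 ∨ G.r d = F2 := by
      by_contra h
      rw [not_or] at h
      exact ho _ (Or.inr rfl) (hr h.1 h.2)
    have hS : G.S d F1 F2 := by
      rcases hl' with h4 | h4 <;> rcases hr' with h5 | h5
      · exact absurd (h4.trans h5.symm) hlr
      · exact Or.inl ⟨h4, h5⟩
      · exact Or.inr ⟨h4, h5⟩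
      · exact absurd (h4.trans h5.symm) hlr
    exact hgv (hJ1 d (star_sub hd) hS ▸ hd)
  obtain ⟨i, hi, hi1, hi2, hio⟩ := further hEK.left
  obtain ⟨j, hj, hj1, hj2, hjo⟩ := further hER.left
  have tiv : G.Touch v i := ⟨dK, hEK.left, hi⟩
  have tiw : G.Touch w i := ⟨dK, hEK.right, hi⟩
  have tjv : G.Touch v j := ⟨dR, hER.left, hj⟩
  have tjw : G.Touch w' j := ⟨dR, hER.right, hj⟩
  have hpv : G.p g1 ∈ insert v M ∨ G.q g1 ∈ insert v M := by
    rcases s1.eb.2 with ⟨h4, h5⟩ | ⟨h4, h5⟩
    · right; rw [h5]; exact mem_insert_of_mem hbM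
    · left; rw [h4]; exact mem_insert_of_mem hbM
  have tend : ∀ {d' i : ℕ}, d' ∈ G.ds → (G.l d' = i ∨ G.r d' = i) →
      G.Touch (G.p d') i ∧ G.Touch (G.q d') i :=
    fun hd' hdi => ⟨⟨_, mem_star.2 ⟨hd', Or.inl rfl⟩, hdi⟩, ⟨_, mem_star.2 ⟨hd', Or.inr rfl⟩, hdi⟩⟩
  -- linked sets
  have hxa : x1 ∈ G.vs \ insert v M := mem_sdiff.2 ⟨hx1, by simp [Ne.symm hvx, hxM]⟩
  have x12 : ∀ {W : Finset ℕ}, x1 ∈ W → ∀ {x : ℕ → ZMod 2},
      (∀ d ∈ G.tds W, x (G.l d) = x (G.r d)) → x F1 = x o ∧ x F2 = x o := by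
    intro W hW x hx
    constructor
    · have h4 := hx e1 (star_sub_tds hW s1.cub.me)
      rcases s1.cub.se with h5 | h5
      · rw [h5.1, h5.2] at h4; exact h4.symm
      · rw [h5.1, h5.2] at h4; exact h4
    · have h4 := hx e2 (star_sub_tds hW s1.cub.me')
      rcases s1.cub.se' with h5 | h5
      · rw [h5.1, h5.2] at h4; exact h4.symm
      · rw [h5.1, h5.2] at h4; exact h4
  have FCa : G.FC (G.vs \ insert v M) o := by
    refine FC_cross hgood hofs fun x hx k hk d' hd' hdW hdk => ?_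
    by_cases hk1 : k = F1
    · rw [hk1]; exact (x12 hxa hx).1
    by_cases hk2 : k = F2
    · rw [hk2]; exact (x12 hxa hx).2
    exfalso
    obtain ⟨u, hu, huk⟩ := tf_touch hk
    have hu' := (mem_sdiff.1 hu).2
    rw [mem_insert, not_or] at hu'
    have hends := hgood.ends d' hd'
    have hp : G.p d' ∈ insert v M := by
      by_contra hp
      exact hdW (mem_tds.2 ⟨hd', Or.inl (mem_sdiff.2 ⟨hends.1, hp⟩)⟩)
    have hq : G.q d' ∈ insert v M := by
      by_contra hq
      exact hdW (mem_tds.2 ⟨hd', Or.inr (mem_sdiff.2 ⟨hends.2, hq⟩)⟩)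
    obtain ⟨tp, tq⟩ := tend hd' hdk
    by_cases hpv' : G.p d' = v
    · have hqv : G.q d' ≠ v := fun h => hgood.ne d' hd' (hpv'.trans h.symm)
      have hqM : G.q d' ∈ M := (mem_insert.1 hq).resolve_left hqv
      exact hu'.2 (side k hk1 hk2 _ u hqv hu'.1 tq huk hqM)
    · have hpM : G.p d' ∈ M := (mem_insert.1 hp).resolve_left hpv'
      exact hu'.2 (side k hk1 hk2 _ u hpv' hu'.1 tp huk hpM)
  have FCd : G.FC (insert x1 M) o := by
    refine FC_cross hgood hofs fun x hx k hk d' hd' hdW hdk => ?_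
    by_cases hk1 : k = F1
    · rw [hk1]; exact (x12 (mem_insert_self _ _) hx).1
    by_cases hk2 : k = F2
    · rw [hk2]; exact (x12 (mem_insert_self _ _) hx).2
    by_cases hko : k = o
    · rw [hko]
    exfalso
    obtain ⟨u, hu, huk⟩ := tf_touch hk
    obtain ⟨tp, tq⟩ := tend hd' hdk
    have hp : G.p d' ∉ insert x1 M := fun hp => hdW (mem_tds.2 ⟨hd', Or.inl hp⟩)
    have hq : G.q d' ∉ insert x1 M := fun hq => hdW (mem_tds.2 ⟨hd', Or.inr hq⟩)
    rcases mem_insert.1 hu with rfl | hu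
    · rcases s1.cub.touch huk with h | h | h
      · exact hko h
      · exact hk1 h
      · exact hk2 h
    · have huv : u ≠ v := fun h => hvM (h ▸ hu)
      by_cases hpv' : G.p d' = v
      · have hqv : G.q d' ≠ v := fun h => hgood.ne d' hd' (hpv'.trans h.symm)
        exact hq (mem_insert_of_mem (side k hk1 hk2 u _ huv hqv huk tq hu))
      · exact hp (mem_insert_of_mem (side k hk1 hk2 u _ huv hpv' huk tp hu))
  have eb' : G.vs \ M = insert v (G.vs \ insert v M) := by
    ext u
    simp only [mem_sdiff, mem_insert, not_or]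
    constructor
    · rintro ⟨h4, h5⟩
      by_cases h6 : u = v
      · exact Or.inl h6
      · exact Or.inr ⟨h4, h6, h5⟩
    · rintro (h4 | ⟨h4, -, h5⟩)
      · rw [h4]; exact ⟨hv, hvM⟩
      · exact ⟨h4, h5⟩
  have FCb : G.FC (G.vs \ M) o := by
    rw [eb']
    exact FCa.insert_adj hgood (mem_sdiff.2 ⟨hER.symm.memv hgood, by simp [hwM', hwv']⟩) ⟨dR, hER⟩
  have ec' : insert x1 (insert v M) = insert v (insert x1 M) := insert_comm _ _ _
  have FCc : G.FC (insert x1 (insert v M)) o := by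
    rw [ec']
    exact FCd.insert_adj hgood (mem_insert_of_mem hwM) ⟨dK, hEK⟩
  have hVa : insert v M ⊆ G.vs := insert_subset hv hM
  have hVc : insert x1 (insert v M) ⊆ G.vs := insert_subset hx1 hVa
  have hVd : insert x1 M ⊆ G.vs := insert_subset hx1 hM
  have sc : G.vs \ (G.vs \ insert x1 (insert v M)) = insert x1 (insert v M) :=
    Finset.sdiff_sdiff_eq_self hVc
  have sd' : G.vs \ (G.vs \ insert x1 M) = insert x1 M := Finset.sdiff_sdiff_eq_self hVd
  have kb := pt_bound hG (V := insert v M) hVa hx1 (mem_sdiff.1 hxa).2 FCa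
  have mb := pt_bound hG (V := M) hM hx1 hxM FCb
  have rb := pt_bound hG (V := G.vs \ insert x1 (insert v M)) sdiff_subset hx1
    (fun h => (mem_sdiff.1 h).2 (mem_insert_self _ _)) (by rw [sc]; exact FCc)
  have lb := pt_bound hG (V := G.vs \ insert x1 M) sdiff_subset hx1
    (fun h => (mem_sdiff.1 h).2 (mem_insert_self _ _)) (by rw [sd']; exact FCd)
  by_cases hfree : (G.del (G.vs \ insert v M) o).cost {v} ≤ (G.del (G.vs \ insert v M) o).tau
  · have hdis : Disjoint (insert v M) (G.vs \ insert x1 (insert v M)) := by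
      rw [disjoint_left]
      intro u hu hu'
      exact (mem_sdiff.1 hu').2 (mem_insert_of_mem hu)
    have h4 := hG.move_two_le (by norm_num) (by norm_num) (V₁ := insert v M)
      (V₂ := G.vs \ insert x1 (insert v M)) (T₁ := {v}) (T₂ := ∅) (X₀ := {x1}) (Y₀ := ∅)
      (B := {F1, F2, j}) hVa sdiff_subset hdis FCa (by rw [sc]; exact FCc)
      (singleton_subset_iff.2 (mem_insert_self _ _)) (empty_subset _)
      (singleton_subset_iff.2 hx1) (empty_subset _)
      (by
        intro k hk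
        simp only [mem_insert, mem_singleton] at hk
        rcases hk with rfl | rfl | rfl
        · exact mem_erase.2 ⟨f1o, tfM hxa s1.cub.tF⟩
        · exact mem_erase.2 ⟨f2o, tfM hxa s1.cub.tF'⟩
        · exact mem_erase.2 ⟨hjo, tfM (mem_sdiff.2 ⟨hER.symm.memv hgood, by
            simp [hwM', hwv']⟩) tjw⟩)
      (by
        rw [sc]
        intro k hk
        simp only [mem_insert, mem_singleton] at hk
        rcases hk with rfl | rfl | rfl
        · exact mem_erase.2 ⟨f1o, tfM (mem_insert_self _ _) s1.cub.tF⟩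
        · exact mem_erase.2 ⟨f2o, tfM (mem_insert_self _ _) s1.cub.tF'⟩
        · exact mem_erase.2 ⟨hjo, tfM (mem_insert_of_mem (mem_insert_self _ _)) tjv⟩)
      (by
        intro e he
        obtain ⟨he1, he2, he3⟩ := mem_rest.1 he
        have hends := hgood.ends e he1
        by_cases hex : e ∈ G.star x1
        · rcases end_mem' hex (X := {x1} ∪ ({v} ∪ ∅)) (by simp) with h | h
          · exact Or.inl h
          · exact Or.inr (Or.inl h)
        by_cases hev : e ∈ G.star v
        · rcases end_mem' hev (X := {x1} ∪ ({v} ∪ ∅)) (by simp) with h | h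
          · exact Or.inl h
          · exact Or.inr (Or.inl h)
        exfalso
        have heg : e ≠ g1 := by
          rintro rfl
          exact hex s1.eb.left
        have hcr' := hcr e he1 heg hev
        by_cases hp : G.p e ∈ M
        · exact he2 ⟨mem_insert_of_mem hp, mem_insert_of_mem (hcr'.1 hp)⟩
        · have hq : G.q e ∉ M := fun h => hp (hcr'.2 h)
          refine he3 ⟨mem_sdiff.2 ⟨hends.1, fun h => ?_⟩, mem_sdiff.2 ⟨hends.2, fun h => ?_⟩⟩
          · simp only [mem_insert] at h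
            rcases h with h | h | h
            · exact hex (mem_star.2 ⟨he1, Or.inl h⟩)
            · exact hev (mem_star.2 ⟨he1, Or.inl h⟩)
            · exact hp h
          · simp only [mem_insert] at h
            rcases h with h | h | h
            · exact hex (mem_star.2 ⟨he1, Or.inr h⟩)
            · exact hev (mem_star.2 ⟨he1, Or.inr h⟩)
            · exact hq h)
    have h5 : 1 ≤ (G.vs \ (insert v M ∪ (G.vs \ insert x1 (insert v M)))).card := by
      refine card_pos.2 ⟨x1, mem_sdiff.2 ⟨hx1, fun h => ?_⟩⟩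
      rcases mem_union.1 h with h | h
      · exact (mem_sdiff.1 hxa).2 h
      · exact (mem_sdiff.1 h).2 (mem_insert_self _ _)
    rw [card_singleton, fpr_empty, card3 f12 hj1.symm hj2.symm] at h4
    have h6 : (G.del (G.vs \ (G.vs \ insert x1 (insert v M))) o).cost ∅ =
      (G.del (G.vs \ (G.vs \ insert x1 (insert v M))) o).tau := rfl
    omega
  · push Not at hfree
    -- the part `K` on `M` and `v`
    obtain ⟨K, hK⟩ : ∃ K, K = G.del (G.vs \ insert v M) o := ⟨_, rfl⟩
    rw [← hK] at hfree kb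
    have hKvs : K.vs = insert v M := by rw [hK, vs_del_compl hVa]
    have hKd : K.del {v} o = G.del (G.vs \ M) o := by
      rw [hK, del_del (fun h => (mem_sdiff.1 (hG.cls.hsub h)).2 hG.cls.hu) hG.cls.hun, union_comm,
        singleton_union, ← eb']
    have hKg : K.Good := by rw [hK]; exact (hG.cls.del FCa).good
    have q1 := cost_del (G := K) (u := o) (W := {v}) (S := {v}) (T := ∅) (X₀ := {v}) (Y₀ := ∅)
      (by rw [hKd]; exact (hG.cls.del FCb).good) (empty_subset _)
      (by rw [hKvs]; exact singleton_subset_iff.2 (mem_insert_self _ _)) (empty_subset _)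
      (by simp) (by
        intro d hd
        rcases (mem_tds.1 hd).2 with h | h
        · exact Or.inl (by simpa using h)
        · exact Or.inr (Or.inl (by simpa using h)))
    rw [hKd, card_singleton, fpr_empty, nb_empty] at q1
    have q1' : (G.del (G.vs \ M) o).cost ∅ = (G.del (G.vs \ M) o).tau := rfl
    -- the cost of `G`
    have q2 := cost_two (G := G) (u := o) (V₁ := insert v M) (V₂ := G.vs \ insert x1 M)
      (S := ∅) (T₁ := ∅) (T₂ := ∅) (X₀ := {x1}) (Y₀ := ∅) (hG.cls.del FCa).good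
      (by rw [sd']; exact (hG.cls.del FCd).good) hVa sdiff_subset (empty_subset _)
      (empty_subset _) (singleton_subset_iff.2 hx1) (empty_subset _) (empty_subset _)
      (by
        intro e he
        obtain ⟨he1, he2, he3⟩ := mem_rest.1 he
        have hends := hgood.ends e he1
        by_cases hex : e ∈ G.star x1
        · rcases end_mem' hex (X := {x1} ∪ (∅ ∪ ∅)) (by simp) with h | h
          · exact Or.inl h
          · exact Or.inr (Or.inl h)
        exfalso
        have heg : e ≠ g1 := by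
          rintro rfl
          exact hex s1.eb.left
        have hpx : G.p e ≠ x1 := fun h => hex (mem_star.2 ⟨he1, Or.inl h⟩)
        have hqx : G.q e ≠ x1 := fun h => hex (mem_star.2 ⟨he1, Or.inr h⟩)
        have hV2 : ∀ u ∈ G.vs, u ≠ x1 → u ∉ M → u ∈ G.vs \ insert x1 M := fun u hu h4 h5 =>
          mem_sdiff.2 ⟨hu, by simp [h4, h5]⟩
        by_cases hev : e ∈ G.star v
        · obtain ⟨u, hu⟩ := exists_E hev
          have key : ∀ a b, G.E e a b → a = v → b ≠ x1 →
              (a ∈ insert v M ∧ b ∈ insert v M) ∨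
                (a ∈ G.vs \ insert x1 M ∧ b ∈ G.vs \ insert x1 M) := by
            intro a b hab hav hbx
            by_cases hbM' : b ∈ M
            · exact Or.inl ⟨by rw [hav]; exact mem_insert_self _ _, mem_insert_of_mem hbM'⟩
            · exact Or.inr ⟨hV2 a (hab.memv hgood) (by rw [hav]; exact hvx)
                (by rw [hav]; exact hvM), hV2 b (hab.symm.memv hgood) hbx hbM'⟩
          rcases (mem_star.1 hev).2 with h | h
          · rcases key _ _ (E_self he1) h hqx with h5 | h5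
            · exact he2 h5
            · exact he3 h5
          · rcases key _ _ (E_self he1).symm h hpx with h5 | h5
            · exact he2 h5.symm
            · exact he3 h5.symm
        · have hcr' := hcr e he1 heg hev
          by_cases hp : G.p e ∈ M
          · exact he2 ⟨mem_insert_of_mem hp, mem_insert_of_mem (hcr'.1 hp)⟩
          · exact he3 ⟨hV2 _ hends.1 hpx hp, hV2 _ hends.2 hqx fun h => hp (hcr'.2 h)⟩)
    rw [card_singleton, fpr_empty, nb_empty, ← hK] at q2
    -- the potential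
    have hdis : Disjoint M (G.vs \ insert x1 M) := by
      rw [disjoint_left]
      intro u hu hu'
      exact (mem_sdiff.1 hu').2 (mem_insert_of_mem hu)
    have hxb' : x1 ∈ G.vs \ M := mem_sdiff.2 ⟨hx1, hxM⟩
    have q3 := pot_two_le (a := 7) (b := 2) (c := 4) (by norm_num) hgood hG.cls.huc (V₁ := M)
      (V₂ := G.vs \ insert x1 M) (B := {F1, F2, i}) hM sdiff_subset hdis
      (by
        intro k hk
        simp only [mem_insert, mem_singleton] at hk
        rcases hk with rfl | rfl | rfl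
        · exact mem_erase.2 ⟨f1o, tfM hxb' s1.cub.tF⟩
        · exact mem_erase.2 ⟨f2o, tfM hxb' s1.cub.tF'⟩
        · exact mem_erase.2 ⟨hio, tfM (mem_sdiff.2 ⟨hv, hvM⟩) tiv⟩)
      (by
        rw [sd']
        intro k hk
        simp only [mem_insert, mem_singleton] at hk
        rcases hk with rfl | rfl | rfl
        · exact mem_erase.2 ⟨f1o, tfM (mem_insert_self _ _) s1.cub.tF⟩
        · exact mem_erase.2 ⟨f2o, tfM (mem_insert_self _ _) s1.cub.tF'⟩
        · exact mem_erase.2 ⟨hio, tfM (mem_insert_of_mem hwM) tiw⟩)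
    have h5 : 1 ≤ (G.vs \ (M ∪ (G.vs \ insert x1 M))).card := by
      refine card_pos.2 ⟨x1, mem_sdiff.2 ⟨hx1, fun h => ?_⟩⟩
      rcases mem_union.1 h with h | h
      · exact hxM h
      · exact (mem_sdiff.1 h).2 (mem_insert_self _ _)
    rw [card3 f12 hi1.symm hi2.symm] at q3
    -- the weights
    have q4 : G.ws (G.rest (insert v M) (G.vs \ insert x1 M)) + K.ws (K.tds {v}) ≤
        G.ws (G.rest M (G.vs \ insert x1 M)) := by
      have hw : K.ws (K.tds {v}) = G.ws (K.tds {v}) := by rw [hK]; rfl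
      have hmem : ∀ e ∈ K.tds {v}, e ∈ G.ds ∧ G.p e ∈ insert v M ∧ G.q e ∈ insert v M ∧
          e ∈ G.star v := by
        intro e he
        rw [hK, mem_tds_del] at he
        obtain ⟨he1, he2⟩ := he
        rw [mem_tds, mem_singleton, mem_singleton] at he1
        have hends := hgood.ends e he1.1
        refine ⟨he1.1, ?_, ?_, mem_star.2 he1⟩
        · by_contra h
          exact he2 (mem_tds.2 ⟨he1.1, Or.inl (mem_sdiff.2 ⟨hends.1, h⟩)⟩)
        · by_contra h
          exact he2 (mem_tds.2 ⟨he1.1, Or.inr (mem_sdiff.2 ⟨hends.2, h⟩)⟩)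
      rw [hw, ← ws_union]
      · refine ws_mono (union_subset ?_ ?_)
        · intro e he
          obtain ⟨he1, he2, he3⟩ := mem_rest.1 he
          exact mem_rest.2 ⟨he1, fun h => he2 ⟨mem_insert_of_mem h.1, mem_insert_of_mem h.2⟩, he3⟩
        · intro e he
          obtain ⟨he1, he2, he3, he4⟩ := hmem e he
          refine mem_rest.2 ⟨he1, fun h => ?_, fun h => ?_⟩
          · rcases (mem_star.1 he4).2 with h6 | h6
            · exact hvM (h6 ▸ h.1)
            · exact hvM (h6 ▸ h.2)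
          · rcases (mem_star.1 he4).2 with h6 | h6
            · have h7 : G.q e ≠ v := fun h8 => hgood.ne e he1 (h6.trans h8.symm)
              exact (mem_sdiff.1 h.2).2 (mem_insert_of_mem ((mem_insert.1 he3).resolve_left h7))
            · have h7 : G.p e ≠ v := fun h8 => hgood.ne e he1 (h8.trans h6.symm)
              exact (mem_sdiff.1 h.1).2 (mem_insert_of_mem ((mem_insert.1 he2).resolve_left h7))
      · rw [disjoint_left]
        intro e he he'
        obtain ⟨-, he2, he3, -⟩ := hmem e he'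
        exact (mem_rest.1 he).2.1 ⟨he2, he3⟩
    have q5 := hG.bad
    have q6 : G.cost ∅ = G.tau := rfl
    have q7 : K.cost ∅ = K.tau := rfl
    have q8 : (G.del (G.vs \ (G.vs \ insert x1 M)) o).cost ∅ =
      (G.del (G.vs \ (G.vs \ insert x1 M)) o).tau := rfl
    omega

end Gr

end Pool.Agent.Lib.MP06c549.T6H
end

section
/-!
# MP_06c549_co, T6H, constant 13: (J) for the outer cycle
-/
set_option autoImplicit false

namespace Pool.Agent.Lib.MP06c549.T6H

namespace Gr

variable {G : Gr} {m o k : ℕ} {x e g F b : ℤ → ℕ}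

/-- two consecutive faces have only the vertices `x i`, `b i` in common -/
theorem Ring.J (h : G.Ring o k x e g F b) (hM : Cx 7 2 4 13 m o G) (h1 : G.P1) (h2 : G.P2 o)
    (h3 : G.P3 o) (hk : 5 ≤ k) (i : ℤ) (v : ℕ) (hv : G.Touch v (F (i - 1)))
    (hv' : G.Touch v (F i)) : v = x i ∨ v = b i := by
  have c0 := (h.spk (i - 1)).cub
  have c2 := (h.spk (i + 1)).cub
  have a1 := h.adj (i - 1)
  rw [show i - 1 - 1 = i - 2 by ring] at c0
  rw [show i + 1 - 1 = i by ring] at c2
  rw [show i - 1 + 1 = i by ring] at a1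
  exact J2 hM h1 h2 h3 c0 (h.spk i) c2 a1 (h.adj i) (h.xne (by omega) (by omega))
    (h.Fne (by omega) (by omega)) (h.Fne (by omega) (by omega)) (h.Fne (by omega) (by omega)) hv hv'

end Gr

end Pool.Agent.Lib.MP06c549.T6H
end
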