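import Pool.Agent.Lib.MP_06c549_co.T6H.Ex3
import Pool.Agent.Lib.MP_06c549_co.T6H.Step56

section
/-!
# MP_06c549_co, T6H, the outer face is a triangle: the graph without it has no cut vertex
-/
set_option autoImplicit false

namespace Pool.Agent.Lib.MP06c549.T6H

open Finset

namespace Gr

variable {G : Gr}

/-- deletion does not increase the number of occurrences of a face other than `u` -/
lemma cnt_del_le {W : Finset ℕ} {u i v : ℕ} (hiu : i ≠ u) : (G.del W u).cnt i v ≤ G.cnt i v := by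
  have key : ∀ j, G.phi W u j = i → j = i := by
    intro j hj
    by_cases h : j ∈ G.tf W
    · rw [phi_of_mem h] at hj
      exact absurd hj.symm hiu
    · rwa [phi_of_not h] at hj
  unfold cnt
  rw [star_del]
  refine add_le_add (card_le_card fun d hd => ?_) (card_le_card fun d hd => ?_)
  · obtain ⟨h1, h2⟩ := mem_filter.1 hd
    exact mem_filter.2 ⟨(mem_sdiff.1 h1).1, key _ h2⟩
  · obtain ⟨h1, h2⟩ := mem_filter.1 hd
    exact mem_filter.2 ⟨(mem_sdiff.1 h1).1, key _ h2⟩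

/-- a vertex of a graph without cut vertices which is a cut vertex after a deletion -/
lemma cnt_of_not_ncv (hG : G.Good) (hP : G.P1) {W : Finset ℕ} {u v : ℕ}
    (hK : (G.del W u).Good) (hv : v ∈ (G.del W u).vs) (h : ¬ (G.del W u).NCV v) :
    4 ≤ (G.del W u).cnt u v := by
  by_contra hcon
  refine h (ncv_of_cnt hK hv fun i _ => ?_)
  by_cases hiu : i = u
  · rw [hiu]; omega
  · have h1 := cnt_del_le (G := G) (W := W) (v := v) hiu
    have h2 := hP.cnt_le hG (mem_sdiff.1 hv).1 i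
    omega

/-- the graph without `C` has no cut vertex, or large slack -/
theorem Ex3.ncv_or {a b c N m n u : ℕ} (hbc : b ≤ c) (hN : N ≤ 2 * a) (hn : Bnd a b c N m n)
    (hG : G.Cls u m) (hP : G.P1) (hcard : G.vs.card ≤ n) {C : Finset ℕ} {g bb : Fin 3 → ℕ}
    (h : G.Ex3 C u g bb) (hfree : ∀ i, (G.del C u).tau + 1 ≤ (G.del C u).cost {bb i}) :
    N * (G.del C u).tau + (a + 2 * b) ≤ (G.del C u).pot a b c ∨
      ∀ v ∈ (G.del C u).vs, (G.del C u).NCV v := by
  classical
  by_cases hall : ∀ v ∈ (G.del C u).vs, (G.del C u).NCV v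
  · exact Or.inr hall
  left
  push Not at hall
  obtain ⟨v0, hv0, hv0n⟩ := hall
  have hGood := hG.good
  have hK := hG.del h.fc
  have hKG := hK.good
  have hconn := h.conn hGood hP
  have hKn : (G.del C u).vs.card ≤ n := by
    have := del_card (u := u) h.sub
    omega
  have hsplit : ∀ c ∈ (G.del C u).vs, ¬ (G.del C u).NCV c →
      ∃ A B, (G.del C u).Split u {c} A B := fun c hc hcn =>
    exists_split hKG hc (fun k _ => Conn.bc hKG hconn k) (cnt_of_not_ncv hGood hP hKG hc hcn)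
  -- the final step
  have key : ∀ w ∈ (G.del C u).vs, ∀ A B, (G.del C u).Split u {w} A B →
      (∀ j, bb j ≠ w → (G.del C u).NCV (bb j)) →
      N * (G.del C u).tau + (a + 2 * b) ≤ (G.del C u).pot a b c := by
    intro w hw A B hs hN'
    obtain ⟨i, hi⟩ := h.side hGood hP hG.hu hw hs
    obtain ⟨j, hj⟩ := h.side hGood hP hG.hu hw hs.symm
    have hface : ∀ k, bb k ≠ w → ∃ i, i ≠ u ∧ (G.del C u).Touch (bb k) i := by
      intro k hk
      have h1 := Gr.card_fv hKG (hN' k hk)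
      have h2 := h.card_b k
      obtain ⟨i, hi, hiu⟩ := exists_mem_ne (show 1 < ((G.del C u).fv (bb k)).card by omega) u
      exact ⟨i, hiu, mem_fv.1 hi⟩
    have hic : bb i ≠ w := fun h1 => disjoint_left.1 hs.dAc hi (mem_singleton.2 h1)
    have hjc : bb j ≠ w := fun h1 => disjoint_left.1 hs.dBc hj (mem_singleton.2 h1)
    exact cut_core hbc hN hn hK hconn hKn hw hs hi hj (h.touch hGood hP i) (h.touch hGood hP j)
      (hface i hic) (hface j hjc) (hfree i) (hfree j)
  by_cases hb : ∃ i, ¬ (G.del C u).NCV (bb i)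
  · obtain ⟨i, hi⟩ := hb
    obtain ⟨A, B, hs⟩ := hsplit _ (h.bdel hGood i) hi
    refine key _ (h.bdel hGood i) A B hs fun j hj => ?_
    by_contra hjn
    obtain ⟨A', B', hs'⟩ := hsplit _ (h.bdel hGood j) hjn
    exact h.one_cut hGood hP hG.hu (fun h1 => hj (by rw [h1])) hs hs'
  · push Not at hb
    obtain ⟨A, B, hs⟩ := hsplit v0 hv0 hv0n
    exact key v0 hv0 A B hs fun j _ => hb j

section

variable {m : ℕ} {o x0 x1 x2 e0 e1 e2 g0 g1 g2 F0 F1 F2 b0 b1 b2 : ℕ}

lemma K3.xC (h : K3 m G o x0 x1 x2 e0 e1 e2 g0 g1 g2 F0 F1 F2 b0 b1 b2) :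
    ({x0, x1, x2} : Finset ℕ) ⊆ G.vs := by
  have hG := h.mn.cls.good
  exact insert_subset (h.s0.cub.mv hG) (insert_subset (h.s1.cub.mv hG)
    (singleton_subset_iff.2 (h.s2.cub.mv hG)))

lemma K3.FC (h : K3 m G o x0 x1 x2 e0 e1 e2 g0 g1 g2 F0 F1 F2 b0 b1 b2) :
    G.FC {x0, x1, x2} o := by
  have hG := h.mn.cls.good
  exact FC_insert hG (FC_insert hG (FC_single hG (h.s2.cub.mv hG) (Or.inr h.s2.cub.tO))
    (h.s1.cub.mv hG) (Or.inr (Or.inl h.s1.cub.tO))) (h.s0.cub.mv hG)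
    (Or.inr (Or.inl h.s0.cub.tO))

lemma K3.card3 (h : K3 m G o x0 x1 x2 e0 e1 e2 g0 g1 g2 F0 F1 F2 b0 b1 b2) :
    ({x0, x1, x2} : Finset ℕ).card = 3 := by
  rw [card_insert_of_notMem (by simp [h.tri.n01, h.tri.n20.symm]), card_pair h.tri.n12]

lemma K3.cardF3 (h : K3 m G o x0 x1 x2 e0 e1 e2 g0 g1 g2 F0 F1 F2 b0 b1 b2) :
    ({F0, F1, F2} : Finset ℕ).card = 3 := by
  rw [card_insert_of_notMem (by simp [h.tri.m01, h.tri.m20.symm]), card_pair h.tri.m12]

lemma K3.FB (h : K3 m G o x0 x1 x2 e0 e1 e2 g0 g1 g2 F0 F1 F2 b0 b1 b2) :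
    ({F0, F1, F2} : Finset ℕ) ⊆ (G.tf {x0, x1, x2}).erase o := by
  have key : ∀ x i, G.Touch x i → x ∈ ({x0, x1, x2} : Finset ℕ) → i ∈ G.tf {x0, x1, x2} := by
    rintro x i ⟨d, hd, h'⟩ hx
    exact mem_tf.2 ⟨d, star_sub_tds hx hd, h'⟩
  refine insert_subset (mem_erase.2 ⟨h.s0.cub.f2, key x0 _ h.s0.cub.tF' (by simp)⟩)
    (insert_subset (mem_erase.2 ⟨h.s1.cub.f2, key x1 _ h.s1.cub.tF' (by simp)⟩)
      (singleton_subset_iff.2 (mem_erase.2 ⟨h.s2.cub.f2, key x2 _ h.s2.cub.tF' (by simp)⟩)))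

/-- the edges at `x0` -/
lemma K3.at0 (h : K3 m G o x0 x1 x2 e0 e1 e2 g0 g1 g2 F0 F1 F2 b0 b1 b2) {d y : ℕ}
    (hd : G.E d x0 y) : (d = e2 ∧ y = x2) ∨ (d = g0 ∧ y = b0) ∨ (d = e0 ∧ y = x1) := by
  have hG := h.mn.cls.good
  have h1 := hd.left
  rw [h.s0.cub.st] at h1
  simp only [mem_insert, mem_singleton] at h1
  rcases h1 with rfl | rfl | rfl
  · exact Or.inl ⟨rfl, hd.other hG h.tri.a2.symm⟩
  · exact Or.inr (Or.inl ⟨rfl, hd.other hG h.s0.eb⟩)
  · exact Or.inr (Or.inr ⟨rfl, hd.other hG h.tri.a0⟩)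

lemma K3.ex3 (h : K3 m G o x0 x1 x2 e0 e1 e2 g0 g1 g2 F0 F1 F2 b0 b1 b2) (n01 : b0 ≠ b1)
    (n12 : b1 ≠ b2) (n20 : b2 ≠ b0) : G.Ex3 {x0, x1, x2} o ![g0, g1, g2] ![b0, b1, b2] where
  sub := h.xC
  ne := ⟨x0, mem_insert_self _ _⟩
  fc := h.FC
  ex := by
    intro d x y hd hx hy
    simp only [mem_insert, mem_singleton] at hx
    rcases hx with rfl | rfl | rfl
    · rcases h.at0 hd with ⟨_, h1⟩ | h1 | ⟨_, h1⟩
      · exact absurd (by simp [h1]) hy
      · exact ⟨0, h1⟩
      · exact absurd (by simp [h1]) hy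
    · rcases h.rot.at0 hd with ⟨_, h1⟩ | h1 | ⟨_, h1⟩
      · exact absurd (by simp [h1]) hy
      · exact ⟨1, h1⟩
      · exact absurd (by simp [h1]) hy
    · rcases h.rot.rot.at0 hd with ⟨_, h1⟩ | h1 | ⟨_, h1⟩
      · exact absurd (by simp [h1]) hy
      · exact ⟨2, h1⟩
      · exact absurd (by simp [h1]) hy
  inj := by
    intro i j hij
    fin_cases i <;> fin_cases j
    · rfl
    · exact absurd hij n01
    · exact absurd hij n20.symm
    · exact absurd hij n01.symm
    · rfl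
    · exact absurd hij n12
    · exact absurd hij n20
    · exact absurd hij n12.symm
    · rfl
  nb := by
    have key : ∀ b, ¬ G.Touch b o → b ∉ ({x0, x1, x2} : Finset ℕ) := by
      intro b hb hm
      simp only [mem_insert, mem_singleton] at hm
      rcases hm with rfl | rfl | rfl
      · exact hb h.s0.cub.tO
      · exact hb h.s1.cub.tO
      · exact hb h.s2.cub.tO
    intro i
    fin_cases i
    · exact key b0 h.s0.nb
    · exact key b1 h.s1.nb
    · exact key b2 h.s2.nb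
  gb := by
    intro i
    fin_cases i
    · exact h.s0.eb.right
    · exact h.s1.eb.right
    · exact h.s2.eb.right
  gt := by
    intro i
    fin_cases i
    · exact star_sub_tds (by simp) h.s0.eb.left
    · exact star_sub_tds (by simp) h.s1.eb.left
    · exact star_sub_tds (by simp) h.s2.eb.left
  deg := by
    intro i
    fin_cases i
    · exact h.s0.db
    · exact h.s1.db
    · exact h.s2.db

lemma K3.bnd (h : K3 m G o x0 x1 x2 e0 e1 e2 g0 g1 g2 F0 F1 F2 b0 b1 b2) :
    17 * (G.del {x0, x1, x2} o).tau ≤ (G.del {x0, x1, x2} o).pot 9 3 6 := by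
  refine h.mn.ih o _ (h.mn.cls.del h.FC) ?_
  have h1 := del_card (u := o) h.xC
  have h2 := h.card3
  omega

/-- the move with all three vertices of the triangle -/
lemma K3.move3 (h : K3 m G o x0 x1 x2 e0 e1 e2 g0 g1 g2 F0 F1 F2 b0 b1 b2) :
    (G.del {x0, x1, x2} o).pot 9 3 6 + G.ws (G.tds {x0, x1, x2}) <
      17 * (G.del {x0, x1, x2} o).tau + 15 := by
  have h1 := h.mn.toCx0.move_T (by norm_num : 3 ≤ 6) (W := {x0, x1, x2}) (T := ∅)
    (X₀ := {x0, x1, x2}) (Y₀ := ∅) (B := {F0, F1, F2}) h.xC h.FC (empty_subset _) h.xC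
    (empty_subset _) h.FB (by
      intro d hd
      rw [union_empty]
      rcases (mem_tds.1 hd).2 with h1 | h1
      · exact Or.inl h1
      · exact Or.inr (Or.inl h1))
  rw [h.card3, h.cardF3, fpr_empty, nb_empty] at h1
  unfold tau
  omega

/-- `b0` is in no optimal cover of the graph without the triangle -/
lemma K3.not_free (h : K3 m G o x0 x1 x2 e0 e1 e2 g0 g1 g2 F0 F1 F2 b0 b1 b2) :
    (G.del {x0, x1, x2} o).tau + 1 ≤ (G.del {x0, x1, x2} o).cost {b0} := by
  have hG := h.mn.cls.good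
  by_contra hcon
  have hb0 : b0 ∉ ({x0, x1, x2} : Finset ℕ) := by
    intro hm
    simp only [mem_insert, mem_singleton] at hm
    rcases hm with h1 | h1 | h1
    · exact h.s0.nb (h1 ▸ h.s0.cub.tO)
    · exact h.s0.nb (h1 ▸ h.s1.cub.tO)
    · exact h.s0.nb (h1 ▸ h.s2.cub.tO)
  have h1 := h.mn.toCx0.move_T (by norm_num : 3 ≤ 6) (W := {x0, x1, x2}) (T := {b0})
    (X₀ := {x1, x2}) (Y₀ := ∅) (B := {F0, F1, F2}) h.xC h.FC
    (singleton_subset_iff.2 (mem_sdiff.2 ⟨h.s0.eb.symm.memv hG, hb0⟩))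
    ((subset_insert _ _).trans h.xC) (empty_subset _) h.FB (by
      intro d hd
      have key : ∀ x y, G.E d x y → x ∈ ({x0, x1, x2} : Finset ℕ) →
          (G.p d ∈ ({x1, x2} ∪ {b0} : Finset ℕ) ∨ G.q d ∈ ({x1, x2} ∪ {b0} : Finset ℕ)) := by
        intro x y hE hx
        have h2 : x ∈ ({x1, x2} ∪ {b0} : Finset ℕ) ∨ y ∈ ({x1, x2} ∪ {b0} : Finset ℕ) := by
          simp only [mem_insert, mem_singleton] at hx
          rcases hx with rfl | rfl | rfl
          · right
            rcases h.at0 hE with ⟨_, h1⟩ | ⟨_, h1⟩ | ⟨_, h1⟩ <;> simp [h1]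
          · left; simp
          · left; simp
        rcases hE.2 with ⟨h3, h4⟩ | ⟨h3, h4⟩
        · rw [h3, h4]; exact h2
        · rw [h3, h4]; exact h2.symm
      have hE : G.E d (G.p d) (G.q d) := ⟨tds_sub hd, Or.inl ⟨rfl, rfl⟩⟩
      have h2 : G.p d ∈ ({x1, x2} ∪ {b0} : Finset ℕ) ∨ G.q d ∈ ({x1, x2} ∪ {b0} : Finset ℕ) := by
        rcases (mem_tds.1 hd).2 with h1 | h1
        · exact key _ _ hE h1
        · exact key _ _ hE.symm h1
      rcases h2 with h2 | h2
      · exact Or.inl h2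
      · exact Or.inr (Or.inl h2))
  rw [h.card3, h.cardF3, fpr_empty, nb_empty, card_pair h.tri.n12] at h1
  have h2 := h.bnd
  omega

/-- **the graph without the triangle has no cut vertex** -/
theorem K3.ncv (h : K3 m G o x0 x1 x2 e0 e1 e2 g0 g1 g2 F0 F1 F2 b0 b1 b2) (n01 : b0 ≠ b1)
    (n12 : b1 ≠ b2) (n20 : b2 ≠ b0) :
    ∀ v ∈ (G.del {x0, x1, x2} o).vs, (G.del {x0, x1, x2} o).NCV v := by
  have hC1 : ({x0, x1, x2} : Finset ℕ) = {x1, x2, x0} := by
    ext i
    simp only [mem_insert, mem_singleton]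
    tauto
  have hC2 : ({x0, x1, x2} : Finset ℕ) = {x2, x0, x1} := by
    ext i
    simp only [mem_insert, mem_singleton]
    tauto
  rcases (h.ex3 n01 n12 n20).ncv_or (a := 9) (b := 3) (c := 6) (N := 17) (by norm_num)
    (by norm_num) h.mn.ih h.mn.cls h.p1 le_rfl (by
      intro i
      fin_cases i
      · exact h.not_free
      · have h1 := h.rot.not_free
        rw [← hC1] at h1
        exact h1
      · have h1 := h.rot.rot.not_free
        rw [← hC2] at h1
        exact h1) with h1 | h1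
  · have h2 := h.move3
    omega
  · exact h1

lemma K3b.ncv (h : K3b m G o x0 x1 x2 e0 e1 e2 g0 g1 g2 F0 F1 F2 b0 b1 b2) :
    ∀ v ∈ (G.del {x0, x1, x2} o).vs, (G.del {x0, x1, x2} o).NCV v :=
  h.toK3.ncv h.n01 h.n12 h.n20

lemma K3b.conn (h : K3b m G o x0 x1 x2 e0 e1 e2 g0 g1 g2 F0 F1 F2 b0 b1 b2) :
    (G.del {x0, x1, x2} o).Conn :=
  (h.ex3 h.n01 h.n12 h.n20).conn h.mn.cls.good h.p1

end

end Gr

end Pool.Agent.Lib.MP06c549.T6H
end

section
/-!
# MP_06c549_co, T6H, the outer face is a triangle: the inner neighbours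

`spec_K3Opp'`: an inner neighbour does not touch the opposite face. `spec_K3Leg'`: it has degree three.
-/
set_option autoImplicit false

namespace Pool.Agent.Lib.MP06c549.T6H

open Finset

namespace Gr

variable {G : Gr}

/-- the merged faces at a vertex -/
lemma sum_cntS_le {C F : Finset ℕ} {u v : ℕ} (hF : F ⊆ G.tf C) :
    ∑ i ∈ F, G.cntS ((G.del C u).star v) i ≤ (G.del C u).cnt u v := by
  classical
  have key : ∀ φ : ℕ → ℕ, ∑ i ∈ F, (((G.del C u).star v).filter fun d => φ d = i).card ≤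
      (((G.del C u).star v).filter fun d => G.phi C u (φ d) = u).card := by
    intro φ
    rw [← card_biUnion]
    · refine card_le_card fun d hd => ?_
      obtain ⟨i, hi, hd⟩ := mem_biUnion.1 hd
      obtain ⟨h1, h2⟩ := mem_filter.1 hd
      exact mem_filter.2 ⟨h1, by rw [h2]; exact phi_of_mem (hF hi)⟩
    · intro i _ j _ hij
      rw [Function.onFun, disjoint_left]
      intro d h1 h2
      exact hij ((mem_filter.1 h1).2.symm.trans (mem_filter.1 h2).2)
  unfold cntS cnt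
  rw [sum_add_distrib]
  exact add_le_add (key G.l) (key G.r)

/-- a face at an edge at `v` with different sides has another edge at `v` -/
lemma other_edge (hG : G.Good) {v d i : ℕ} (hv : v ∈ G.vs) (hd : d ∈ G.star v)
    (hi : G.HasS d i) (hlr : G.l d ≠ G.r d) : ∃ e ∈ G.star v, e ≠ d ∧ G.HasS e i := by
  by_contra hcon
  push Not at hcon
  have h1 := hG.even v hv fun j => if j = i then 1 else 0
  rw [sum_eq_single d] at h1
  · rcases hi with h2 | h2
    · rw [if_pos h2, if_neg (fun h3 => hlr (h2.trans h3.symm)), add_zero] at h1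
      exact one_ne_zero h1
    · rw [if_pos h2, if_neg (fun h3 => hlr (h3.trans h2.symm)), zero_add] at h1
      exact one_ne_zero h1
  · intro e he hne
    have h2 := hcon e he hne
    unfold HasS at h2
    rw [not_or] at h2
    rw [if_neg h2.1, if_neg h2.2, add_zero]
  · intro h2
    exact absurd hd h2

/-- three edges at `v` with the side `i` -/
lemma P1.three (hP : G.P1) (hG : G.Good) {v i d e f : ℕ} (hv : v ∈ G.vs) (hd : d ∈ G.star v)
    (he : e ∈ G.star v) (hf : f ∈ G.star v) (hde : d ≠ e) (hdf : d ≠ f) (hef : e ≠ f)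
    (h1 : G.HasS d i) (h2 : G.HasS e i) (h3 : G.HasS f i) : False := by
  have h4 := card_le_cnt (v := v) (i := i) (T := {d, e, f}) (by
    intro g hg
    simp only [mem_insert, mem_singleton] at hg
    rcases hg with rfl | rfl | rfl
    · exact ⟨hd, h1⟩
    · exact ⟨he, h2⟩
    · exact ⟨hf, h3⟩)
  rw [card_insert_of_notMem (by simp [hde, hdf]), card_pair hef] at h4
  have h5 := hP.cnt_le hG hv i
  omega

section

variable {m : ℕ} {o x0 x1 x2 e0 e1 e2 g0 g1 g2 F0 F1 F2 b0 b1 b2 : ℕ}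

lemma K3.FC' (h : K3 m G o x0 x1 x2 e0 e1 e2 g0 g1 g2 F0 F1 F2 b0 b1 b2) :
    ({F0, F1, F2} : Finset ℕ) ⊆ G.tf {x0, x1, x2} := h.FB.trans (erase_subset _ _)

/-- an inner neighbour does not touch the opposite face -/
theorem spec_K3Opp' (m : ℕ) : SpecK3Opp m := by
  intro G o x0 x1 x2 e0 e1 e2 g0 g1 g2 F0 F1 F2 b0 b1 b2 h ht
  have hG := h.mn.cls.good
  have hx := h.ex3 h.n01 h.n12 h.n20
  have hbv := hx.bdel hG 0
  have hE := (h.mn.cls.del h.FC).good
  have h1 := Gr.cnt_eq_two hE (h.ncv _ hbv) (hx.touch hG h.p1 0)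
  have h2 := sum_cntS_le (G := G) (u := o) (v := b0) h.FC'
  have hst : (G.del {x0, x1, x2} o).star b0 = (G.star b0).erase g0 := hx.star_b 0
  have c0 := h.p1.cnt hG h.s0.bF'
  have c1 := h.p1.cnt hG ht
  have c2 := h.p1.cnt hG h.s0.bF
  have hg : g0 ∈ G.star b0 := h.s0.eb.right
  have hsub : ({g0} : Finset ℕ) ⊆ G.star b0 := singleton_subset_iff.2 hg
  have e0' := cntS_sdiff (G := G) hsub F0
  have e1' := cntS_sdiff (G := G) hsub F1
  have e2' := cntS_sdiff (G := G) hsub F2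
  rw [sdiff_singleton_eq_erase, ← cnt_eq] at e0' e1' e2'
  have hs := h.s0.cub.sg
  have g1' : G.cntS {g0} F1 = 0 := by
    by_contra hne
    obtain ⟨d, hd, hd1⟩ := cntS_pos.1 (Nat.pos_of_ne_zero hne)
    rw [mem_singleton.1 hd] at hd1
    rcases hs.side hd1 with h3 | h3
    · exact h.tri.m12 h3
    · exact h.tri.m01 h3.symm
  have hle : ∀ i, i ≠ F0 ∨ i ≠ F2 → G.cntS {g0} i ≤ 1 := by
    intro i hi
    unfold cntS
    have h3 : ¬ (G.l g0 = i ∧ G.r g0 = i) := by
      rintro ⟨h4, h5⟩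
      exact h.p1.lr g0 (star_sub hg) (h4.trans h5.symm)
    have h4 : ∀ p : Prop, ∀ _ : Decidable p, (({g0} : Finset ℕ).filter fun _ => p).card =
        if p then 1 else 0 := by
      intro p _
      by_cases hp : p <;> simp [hp]
    have h5 : (({g0} : Finset ℕ).filter fun d => G.l d = i) =
        ({g0} : Finset ℕ).filter fun _ => G.l g0 = i :=
      filter_congr fun d hd => by rw [mem_singleton.1 hd]
    have h6 : (({g0} : Finset ℕ).filter fun d => G.r d = i) =
        ({g0} : Finset ℕ).filter fun _ => G.r g0 = i :=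
      filter_congr fun d hd => by rw [mem_singleton.1 hd]
    rw [h5, h6, h4, h4]
    by_cases h7 : G.l g0 = i <;> by_cases h8 : G.r g0 = i
    · exact absurd ⟨h7, h8⟩ h3
    · rw [if_pos h7, if_neg h8]
    · rw [if_neg h7, if_pos h8]
    · rw [if_neg h7, if_neg h8]
      exact Nat.zero_le _
  have f0 := hle F0 (Or.inr h.tri.m20.symm)
  have f2 := hle F2 (Or.inl h.tri.m20)
  rw [sum_insert (by simp [h.tri.m01, h.tri.m20.symm]), sum_pair h.tri.m12, hst] at h2
  have h1' : (G.del {x0, x1, x2} o).cnt o b0 = 2 := h1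
  omega

/-- an inner neighbour has degree three -/
theorem spec_K3Leg' (m : ℕ) : SpecK3Leg m := by
  intro G o x0 x1 x2 e0 e1 e2 g0 g1 g2 F0 F1 F2 b0 b1 b2 h ht
  have hG := h.mn.cls.good
  have hx := h.ex3 h.n01 h.n12 h.n20
  have hbv : b0 ∈ (G.del {x0, x1, x2} o).vs := hx.bdel hG 0
  have hb : b0 ∈ G.vs := (mem_sdiff.1 hbv).1
  have hK := h.mn.cls.del h.FC
  have hE := hK.good
  have hst : (G.del {x0, x1, x2} o).star b0 = (G.star b0).erase g0 := hx.star_b 0
  have hg : g0 ∈ G.star b0 := h.s0.eb.right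
  have hto : (G.del {x0, x1, x2} o).Touch b0 o := hx.touch hG h.p1 0
  have hfv := Gr.card_fv hE (h.ncv _ hbv)
  rw [hst, card_erase_of_mem hg] at hfv
  -- the degree
  have hdeg : (G.star b0).card = 3 := by
    have h1 := h.s0.db
    by_contra hne
    have h2 := cost_T (T := {b0}) (B := ((G.del {x0, x1, x2} o).fv b0).erase o)
      (a := 9) (b := 3) (c := 6) (N := 17) (by norm_num) (by norm_num)
      (h.mn.ih.mono (card_le_card sdiff_subset : (G.del {x0, x1, x2} o).vs.card ≤ G.vs.card))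
      hK le_rfl (singleton_subset_iff.2 hbv) (singleton_nonempty _)
      (FC_single hE hbv (Or.inr hto)) (Subset.refl _)
    rw [card_singleton, card_erase_of_mem (mem_fv.2 hto)] at h2
    have h3 := h.not_free
    have h4 := h.move3
    omega
  have hs := h.s0.cub.sg
  have hcard : ((G.star b0).erase g0).card = 2 := by rw [card_erase_of_mem hg, hdeg]
  obtain ⟨p, q, hpq, hpq'⟩ := card_eq_two.1 hcard
  have hmem : ∀ e ∈ G.star b0, e ≠ g0 → e = p ∨ e = q := by
    intro e he hne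
    have h1 : e ∈ (G.star b0).erase g0 := mem_erase.2 ⟨hne, he⟩
    rw [hpq', mem_insert, mem_singleton] at h1
    exact h1
  have hp : p ∈ (G.star b0).erase g0 := by rw [hpq']; exact mem_insert_self _ _
  have hq : q ∈ (G.star b0).erase g0 := by
    rw [hpq']; exact mem_insert_of_mem (mem_singleton_self _)
  rw [mem_erase] at hp hq
  have hg2 : G.HasS g0 F2 := by rcases hs with h1 | h1; exacts [Or.inl h1.1, Or.inr h1.2]
  have hg0' : G.HasS g0 F0 := by rcases hs with h1 | h1; exacts [Or.inr h1.2, Or.inl h1.1]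
  have hlr : ∀ e ∈ G.star b0, G.l e ≠ G.r e := fun e he => h.p1.lr e (star_sub he)
  obtain ⟨d, hd, hdg, hd2⟩ := other_edge hG hb hg hg2 (hlr _ hg)
  obtain ⟨d', hd', hdg', hd0⟩ := other_edge hG hb hg hg0' (hlr _ hg)
  have h3 := fun {i a b c : ℕ} (ha : a ∈ G.star b0) (hb' : b ∈ G.star b0) (hc : c ∈ G.star b0)
    (n1 : a ≠ b) (n2 : a ≠ c) (n3 : b ≠ c) (k1 : G.HasS a i) (k2 : G.HasS b i)
    (k3 : G.HasS c i) => h.p1.three hG hb ha hb' hc n1 n2 n3 k1 k2 k3
  -- a third edge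
  have hthird : ∀ e ∈ G.star b0, e ≠ g0 → ∃ e' ∈ G.star b0, e' ≠ g0 ∧ e' ≠ e ∧
      ∀ f ∈ G.star b0, f = g0 ∨ f = e ∨ f = e' := by
    intro e he hne
    rcases hmem e he hne with rfl | rfl
    · exact ⟨q, hq.2, hq.1, hpq.symm, fun f hf => by
        by_cases hfg : f = g0
        · exact Or.inl hfg
        · exact Or.inr (hmem f hf hfg)⟩
    · exact ⟨p, hp.2, hp.1, hpq, fun f hf => by
        by_cases hfg : f = g0
        · exact Or.inl hfg
        · exact Or.inr (hmem f hf hfg).symm⟩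
  have hdd : d ≠ d' := by
    rintro rfl
    obtain ⟨e, he, heg, hed, hall⟩ := hthird d hd hdg
    obtain ⟨f, hf, hfe, hfs⟩ := other_edge hG hb he (Or.inl rfl : G.HasS e (G.l e)) (hlr _ he)
    have hS : ∀ j, G.HasS d j → j = F2 ∨ j = F0 := by
      intro j hj
      have hne : F2 ≠ F0 := h.tri.m20
      have hdl := hlr _ hd
      rcases hd2 with h1 | h1 <;> rcases hd0 with h2 | h2 <;> rcases hj with h4 | h4
      · exact Or.inl (h4.symm.trans h1)
      · exact absurd (h1.symm.trans h2) hne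
      · exact Or.inl (h4.symm.trans h1)
      · exact Or.inr (h4.symm.trans h2)
      · exact Or.inr (h4.symm.trans h2)
      · exact Or.inl (h4.symm.trans h1)
      · exact absurd (h1.symm.trans h2) hne
      · exact Or.inl (h4.symm.trans h1)
    have hj : G.l e = F2 ∨ G.l e = F0 := by
      rcases hall f hf with rfl | rfl | rfl
      · exact hs.side hfs
      · exact hS _ hfs
      · exact absurd rfl hfe
    rcases hj with h1 | h1
    · exact h3 hg hd he hdg.symm heg.symm hed.symm hg2 hd2 (Or.inl h1)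
    · exact h3 hg hd he hdg.symm heg.symm hed.symm hg0' hd0 (Or.inl h1)
  have hstar : G.star b0 = {g0, d, d'} := by
    obtain ⟨e, he, heg, hed, hall⟩ := hthird d hd hdg
    have hed' : d' = e := by
      rcases hall d' hd' with h1 | h1 | h1
      · exact absurd h1 hdg'
      · exact absurd h1.symm hdd
      · exact h1
    ext f
    simp only [mem_insert, mem_singleton]
    constructor
    · intro hf
      rw [hed']
      exact hall f hf
    · rintro (rfl | rfl | rfl)
      · exact hg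
      · exact hd
      · exact hd'
  -- the other side of `d`
  obtain ⟨O, hO, hOF⟩ : ∃ O, G.S d F2 O ∧ O ≠ F2 := by
    rcases hd2 with h1 | h1
    · exact ⟨G.r d, Or.inl ⟨h1, rfl⟩, fun h2 => hlr _ hd (h1.trans h2.symm)⟩
    · exact ⟨G.l d, Or.inr ⟨rfl, h1⟩, fun h2 => hlr _ hd (h2.trans h1.symm)⟩
  have hOd : G.HasS d O := by rcases hO with h1 | h1; exacts [Or.inr h1.2, Or.inl h1.1]
  have hO0 : O ≠ F0 := by
    intro h1
    exact h3 hg hd hd' hdg.symm hdg'.symm hdd hg0' (h1 ▸ hOd) hd0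
  obtain ⟨f, hf, hfd, hfO⟩ := other_edge hG hb hd hOd (hlr _ hd)
  have hfd' : f = d' := by
    rw [hstar] at hf
    simp only [mem_insert, mem_singleton] at hf
    rcases hf with h1 | h1 | h1
    · rw [h1] at hfO
      rcases hs.side hfO with h2 | h2
      · exact absurd h2 hOF
      · exact absurd h2 hO0
    · exact absurd h1 hfd
    · exact h1
  rw [hfd'] at hfO
  have hO' : G.S d' F0 O := by
    rcases hd0 with h1 | h1 <;> rcases hfO with h2 | h2
    · exact absurd (h2.symm.trans h1) hO0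
    · exact Or.inl ⟨h1, h2⟩
    · exact Or.inr ⟨h2, h1⟩
    · exact absurd (h2.symm.trans h1) hO0
  refine ⟨d, d', O, hstar, hdg.symm, hdg'.symm, hdd, hO, hO', ?_, hO0, ?_, hOF⟩
  · rintro rfl
    exact h.s0.nb ⟨d, hd, hOd⟩
  · rintro rfl
    exact ht ⟨d, hd, hOd⟩

end

end Gr

end Pool.Agent.Lib.MP06c549.T6H
end

section
/-!
# MP_06c549_co, T6H, the outer face is a triangle: no common neighbour of the three inner neighbours
-/
set_option autoImplicit false

namespace Pool.Agent.Lib.MP06c549.T6H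

open Finset

namespace Gr

variable {G : Gr}

/-- in the graph without `C` an edge with a side in `tf C` has the side `u` -/
lemma side_del_u {C : Finset ℕ} {u d i : ℕ} (hi : i ∈ G.tf C) (h : G.HasS d i) :
    (G.del C u).l d = u ∨ (G.del C u).r d = u := by
  rcases h with h | h
  · left
    change G.phi C u (G.l d) = u
    rw [h, phi_of_mem hi]
  · right
    change G.phi C u (G.r d) = u
    rw [h, phi_of_mem hi]

theorem spec_K3Cen (m : ℕ) : SpecK3Cen m := by
  intro G o x0 x1 x2 e0 e1 e2 g0 g1 g2 F0 F1 F2 b0 b1 b2 d0 d0' d1 d1' d2 d2' O0 O1 O2 c p0 p1 p2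
    h l0 l1 l2 _ _ _ hp0 hp1 hp2 c0 c1 c2
  have hG := h.mn.cls.good
  have hx := h.ex3 h.n01 h.n12 h.n20
  have hE := (h.mn.cls.del h.FC).good
  have hcC : c ∉ ({x0, x1, x2} : Finset ℕ) := by simp [c0, c1, c2]
  have hc : c ∈ (G.del {x0, x1, x2} o).vs := mem_sdiff.2 ⟨hp0.symm.memv hG, hcC⟩
  have hF0 : F0 ∈ G.tf {x0, x1, x2} := h.FC' (by simp)
  have hF1 : F1 ∈ G.tf {x0, x1, x2} := h.FC' (by simp)
  have hF2 : F2 ∈ G.tf {x0, x1, x2} := h.FC' (by simp)
  -- one edge
  have key : ∀ b g d d' F F' O p x, G.Leg o F0 F1 F2 b g d d' F F' O → G.E p b c → G.E g x b →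
      x ≠ c → b ∉ ({x0, x1, x2} : Finset ℕ) → F ∈ G.tf {x0, x1, x2} →
      F' ∈ G.tf {x0, x1, x2} → p ∈ (G.del {x0, x1, x2} o).star c ∧
        ((G.del {x0, x1, x2} o).l p = o ∨ (G.del {x0, x1, x2} o).r p = o) := by
    intro b g d d' F F' O p x hl hp hg hxc hb hF hF'
    have h1 : (G.del {x0, x1, x2} o).E p b c := E_del.2 ⟨hp, hb, hcC⟩
    refine ⟨h1.right, ?_⟩
    have h2 := hp.left
    rw [hl.st] at h2
    simp only [mem_insert, mem_singleton] at h2
    rcases h2 with rfl | rfl | rfl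
    · exact absurd (hg.symm.other hG hp) hxc
    · exact side_del_u hF (by rcases hl.sd with h3 | h3; exacts [Or.inl h3.1, Or.inr h3.2])
    · exact side_del_u hF' (by rcases hl.sd' with h3 | h3; exacts [Or.inl h3.1, Or.inr h3.2])
  have k0 := key b0 g0 d0 d0' F2 F0 O0 p0 x0 l0 hp0 h.s0.eb c0.symm (hx.nb 0) hF2 hF0
  have k1 := key b1 g1 d1 d1' F0 F1 O1 p1 x1 l1 hp1 h.s1.eb c1.symm (hx.nb 1) hF0 hF1
  have k2 := key b2 g2 d2 d2' F1 F2 O2 p2 x2 l2 hp2 h.s2.eb c2.symm (hx.nb 2) hF1 hF2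
  have hne : ∀ b b' p p', G.E p b c → G.E p' b' c → b ≠ b' → p ≠ p' := by
    rintro b b' p p' h1 h2 hbb rfl
    exact hbb (h1.symm.other hG h2.symm)
  have n01 := hne b0 b1 p0 p1 hp0 hp1 h.n01
  have n12 := hne b1 b2 p1 p2 hp1 hp2 h.n12
  have n02 := hne b0 b2 p0 p2 hp0 hp2 h.n20.symm
  have h1 := card_le_cnt (G := G.del {x0, x1, x2} o) (v := c) (i := o) (T := {p0, p1, p2}) (by
    intro e he
    simp only [mem_insert, mem_singleton] at he
    rcases he with rfl | rfl | rfl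
    · exact k0
    · exact k1
    · exact k2)
  rw [card_insert_of_notMem (by simp [n01, n02]), card_pair n12] at h1
  have h2 := Gr.cnt_eq_two hE (h.ncv _ hc) ⟨p0, k0⟩
  omega

end Gr

end Pool.Agent.Lib.MP06c549.T6H
end
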