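import Pool.Agent.Lib.MP_06c549_co.T6H.Step56
import Pool.Agent.Lib.MP_06c549_co.T6H.Loc

section
/-!
# MP_06c549_co, T6H: K11, the outer triangle, three different common neighbours

`c0` is a common neighbour of `b0` and `b1`, `c1` of `b1` and `b2`, `c2` of `b2` and `b0`. The face at the
weighted edge `e0` of the outer triangle is bought.
-/
set_option autoImplicit false

namespace Pool.Agent.Lib.MP06c549.T6H

open Finset

namespace Gr

/-- the configuration -/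
structure Hex (m : ℕ) (G : Gr) (o x0 x1 x2 e0 e1 e2 g0 g1 g2 F0 F1 F2 b0 b1 b2
    d0 d0' d1 d1' d2 d2' O0 O1 O2 c0 c1 c2 p0 q0 p1 q1 p2 q2 : ℕ) : Prop where
  k : K3b m G o x0 x1 x2 e0 e1 e2 g0 g1 g2 F0 F1 F2 b0 b1 b2
  l0 : G.Leg o F0 F1 F2 b0 g0 d0 d0' F2 F0 O0
  l1 : G.Leg o F0 F1 F2 b1 g1 d1 d1' F0 F1 O1
  l2 : G.Leg o F0 F1 F2 b2 g2 d2 d2' F1 F2 O2
  m0 : ∀ d, ¬ G.E d b0 b1
  m1 : ∀ d, ¬ G.E d b1 b2
  m2 : ∀ d, ¬ G.E d b2 b0
  ep0 : G.E p0 b0 c0
  eq0 : G.E q0 c0 b1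
  ep1 : G.E p1 b1 c1
  eq1 : G.E q1 c1 b2
  ep2 : G.E p2 b2 c2
  eq2 : G.E q2 c2 b0
  x00 : c0 ≠ x0
  x01 : c0 ≠ x1
  x02 : c0 ≠ x2
  x10 : c1 ≠ x0
  x11 : c1 ≠ x1
  x12 : c1 ≠ x2
  x20 : c2 ≠ x0
  x21 : c2 ≠ x1
  x22 : c2 ≠ x2
  c01 : c0 ≠ c1
  c12 : c1 ≠ c2
  c20 : c2 ≠ c0

/-- the boundary of an edge -/
lemma star_one {G : Gr} {d a b u : ℕ} (h : G.E d a b) (hab : a ≠ b) :
    ∑ e ∈ G.star u, (if e = d then (1 : ZMod 2) else 0) =
      (if u = a then 1 else 0) + (if u = b then 1 else 0) := by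
  rw [sum_ite_eq']
  by_cases h1 : u = a
  · rw [if_pos (h.mem_star_iff.2 (Or.inl h1)), if_pos h1,
      if_neg (fun h2 => hab (h1.symm.trans h2)), add_zero]
  · by_cases h2 : u = b
    · rw [if_pos (h.mem_star_iff.2 (Or.inr h2)), if_neg h1, if_pos h2, zero_add]
    · rw [if_neg (fun h3 => ?_), if_neg h1, if_neg h2, add_zero]
      rcases h.mem_star_iff.1 h3 with h4 | h4
      · exact h1 h4
      · exact h2 h4

namespace Hex

variable {m : ℕ} {G : Gr} {o x0 x1 x2 e0 e1 e2 g0 g1 g2 F0 F1 F2 b0 b1 b2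
    d0 d0' d1 d1' d2 d2' O0 O1 O2 c0 c1 c2 p0 q0 p1 q1 p2 q2 : ℕ}

lemma rot (h : Hex m G o x0 x1 x2 e0 e1 e2 g0 g1 g2 F0 F1 F2 b0 b1 b2
    d0 d0' d1 d1' d2 d2' O0 O1 O2 c0 c1 c2 p0 q0 p1 q1 p2 q2) :
    Hex m G o x1 x2 x0 e1 e2 e0 g1 g2 g0 F1 F2 F0 b1 b2 b0
      d1 d1' d2 d2' d0 d0' O1 O2 O0 c1 c2 c0 p1 q1 p2 q2 p0 q0 :=
  ⟨h.k.rot, h.l1.rot, h.l2.rot, h.l0.rot, h.m1, h.m2, h.m0, h.ep1, h.eq1, h.ep2, h.eq2, h.ep0, h.eq0,
    h.x11, h.x12, h.x10, h.x21, h.x22, h.x20, h.x01, h.x02, h.x00, h.c12, h.c20, h.c01⟩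

/-- `b0` is not on the triangle -/
lemma bx (h : Hex m G o x0 x1 x2 e0 e1 e2 g0 g1 g2 F0 F1 F2 b0 b1 b2
    d0 d0' d1 d1' d2 d2' O0 O1 O2 c0 c1 c2 p0 q0 p1 q1 p2 q2) : b0 ≠ x0 ∧ b0 ≠ x1 ∧ b0 ≠ x2 :=
  ⟨h.k.s0.ne h.k.tri.c0.tO, h.k.s0.ne h.k.tri.c1.tO, h.k.s0.ne h.k.tri.c2.tO⟩

/-- `c0` is not a `b` -/
lemma cb (h : Hex m G o x0 x1 x2 e0 e1 e2 g0 g1 g2 F0 F1 F2 b0 b1 b2
    d0 d0' d1 d1' d2 d2' O0 O1 O2 c0 c1 c2 p0 q0 p1 q1 p2 q2) : c0 ≠ b0 ∧ c0 ≠ b1 ∧ c0 ≠ b2 := by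
  have hG := h.k.mn.cls.good
  refine ⟨(h.ep0.ne hG).symm, h.eq0.ne hG, ?_⟩
  intro h1
  exact h.m2 p0 (h1 ▸ h.ep0.symm)

lemma not_end {d a b v : ℕ} (hd : G.E d a b) (ha : v ≠ a) (hb : v ≠ b) : d ∉ G.star v := by
  intro h
  rcases hd.ends h with h1 | h1
  · exact ha h1
  · exact hb h1

/-- the edge `c2 b0` is the edge `d0` -/
lemma q2d (h : Hex m G o x0 x1 x2 e0 e1 e2 g0 g1 g2 F0 F1 F2 b0 b1 b2
    d0 d0' d1 d1' d2 d2' O0 O1 O2 c0 c1 c2 p0 q0 p1 q1 p2 q2) : q2 = d0 := by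
  have hG := h.k.mn.cls.good
  have t := h.k.tri
  obtain ⟨bx00, bx01, bx02⟩ := h.bx
  obtain ⟨bx11, bx12, bx10⟩ := h.rot.bx
  obtain ⟨bx22, bx20, bx21⟩ := h.rot.rot.bx
  obtain ⟨cb00, cb01, cb02⟩ := h.cb
  obtain ⟨cb22, cb20, cb21⟩ := h.rot.rot.cb
  have k0 := h.k.s0.eb
  have k1 := h.k.s1.eb
  have k2 := h.k.s2.eb
  -- the cycle `x0 b0 c0 b1 x1`
  obtain ⟨z, hz⟩ : ∃ z : ℕ → ZMod 2, z = fun d => (if d = e0 then 1 else 0) +
      ((if d = g0 then 1 else 0) + ((if d = p0 then 1 else 0) + ((if d = q0 then 1 else 0) +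
        (if d = g1 then 1 else 0)))) := ⟨_, rfl⟩
  obtain ⟨x, hx⟩ := hG.exact z (by
    intro u _
    rw [hz]
    simp only [sum_add_distrib]
    rw [star_one t.a0 t.n01, star_one k0 bx00.symm, star_one h.ep0 cb00.symm,
      star_one h.eq0 cb01, star_one k1 bx11.symm]
    generalize (if u = x0 then (1 : ZMod 2) else 0) = s1
    generalize (if u = x1 then (1 : ZMod 2) else 0) = s2
    generalize (if u = b0 then (1 : ZMod 2) else 0) = s3
    generalize (if u = b1 then (1 : ZMod 2) else 0) = s4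
    generalize (if u = c0 then (1 : ZMod 2) else 0) = s5
    revert s1 s2 s3 s4 s5
    decide)
  have zero : ∀ d, d ≠ e0 → d ≠ g0 → d ≠ p0 → d ≠ q0 → d ≠ g1 → z d = 0 := by
    intro d h1 h2 h3 h4 h5
    rw [hz]
    simp only [if_neg h1, if_neg h2, if_neg h3, if_neg h4, if_neg h5, add_zero]
  have away : ∀ v, v ≠ x0 → v ≠ x1 → v ≠ b0 → v ≠ b1 → v ≠ c0 → ∀ d ∈ G.star v,
      x (G.l d) = x (G.r d) := by
    intro v h1 h2 h3 h4 h5 d hd
    have h6 := hx d (star_sub hd)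
    rw [zero d (fun h7 => not_end t.a0 h1 h2 (h7 ▸ hd)) (fun h7 => not_end k0 h1 h3 (h7 ▸ hd))
      (fun h7 => not_end h.ep0 h3 h5 (h7 ▸ hd)) (fun h7 => not_end h.eq0 h5 h4 (h7 ▸ hd))
      (fun h7 => not_end k1 h2 h4 (h7 ▸ hd))] at h6
    exact CharTwo.add_eq_zero.1 h6.symm
  -- the values at `o`, `F0`, `F2`
  have v2 : x o = x F2 := by
    have h6 := hx e2 t.a2.mem
    have hd : e2 ∈ G.star x2 := t.a2.left
    have hx2 : ∀ d ∈ G.star x2, x (G.l d) = x (G.r d) :=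
      away x2 t.n20 t.n12.symm bx02.symm bx12.symm h.x02.symm
    have h7 := hx2 e2 hd
    rcases t.c0.se with ⟨h8, h9⟩ | ⟨h8, h9⟩
    · rw [h8, h9] at h7; exact h7
    · rw [h8, h9] at h7; exact h7.symm
  have v0 : x o ≠ x F0 := by
    have h6 := hx e0 t.a0.mem
    have n1 : e0 ≠ g0 := t.c0.n3.symm
    have n2 : e0 ≠ g1 := t.c1.n1
    have n3 : e0 ≠ p0 := fun h7 => not_end h.ep0 bx00.symm h.x00.symm (h7 ▸ t.a0.left)
    have n4 : e0 ≠ q0 := fun h7 => not_end h.eq0 h.x00.symm bx10.symm (h7 ▸ t.a0.left)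
    rw [hz] at h6
    simp only [if_true, if_neg n1, if_neg n2, if_neg n3, if_neg n4, add_zero] at h6
    intro h7
    rcases t.c1.se with ⟨h8, h9⟩ | ⟨h8, h9⟩
    · rw [h8, h9, h7, CharTwo.add_self_eq_zero] at h6; exact one_ne_zero h6
    · rw [h8, h9, h7, CharTwo.add_self_eq_zero] at h6; exact one_ne_zero h6
  have hb2 := away b2 bx20 bx21 h.k.n20 h.k.n12.symm cb02.symm
  have hc2 := away c2 h.x20 h.x21 cb20 cb21 h.c20
  have w1 : x (G.l p2) = x F2 := link' hG (h.ep2.memv hG) hb2 ⟨p2, h.ep2.left, Or.inl rfl⟩ h.k.s2.bF'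
  have w2 : ∀ i, G.Touch c2 i → x i = x F2 := by
    intro i hi
    rw [← w1]
    exact link' hG (h.ep2.symm.memv hG) hc2 hi ⟨p2, h.ep2.right, Or.inl rfl⟩
  have hq := h.eq2.right
  rw [h.l0.st] at hq
  simp only [mem_insert, mem_singleton] at hq
  rcases hq with h1 | h1 | h1
  · exfalso
    have h2 := h.eq2.left
    rw [h1] at h2
    exact not_end k0 h.x20 cb20 h2
  · exact h1
  · exfalso
    have h2 : G.Touch c2 F0 := by
      have h3 := h.l0.sd'
      rw [← h1] at h3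
      exact (h3.touch h.eq2.left).1
    exact v0 (v2.trans (w2 F0 h2).symm)

/-- the edge `b0 c0` is the edge `d0'` -/
lemma p0d (h : Hex m G o x0 x1 x2 e0 e1 e2 g0 g1 g2 F0 F1 F2 b0 b1 b2
    d0 d0' d1 d1' d2 d2' O0 O1 O2 c0 c1 c2 p0 q0 p1 q1 p2 q2) : p0 = d0' := by
  have hp := h.ep0.left
  rw [h.l0.st] at hp
  simp only [mem_insert, mem_singleton] at hp
  rcases hp with h1 | h1 | h1
  · exfalso
    have h2 := h.ep0.right
    rw [h1] at h2
    exact not_end h.k.s0.eb h.x00 h.cb.1 h2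
  · exfalso
    have h2 := h.eq2.left
    rw [h.q2d, ← h1] at h2
    exact not_end h.ep0 h.rot.rot.cb.2.1 h.c20 h2
  · exact h1

/-- the edges at `b0` -/
lemma stb (h : Hex m G o x0 x1 x2 e0 e1 e2 g0 g1 g2 F0 F1 F2 b0 b1 b2
    d0 d0' d1 d1' d2 d2' O0 O1 O2 c0 c1 c2 p0 q0 p1 q1 p2 q2) : G.star b0 = {g0, q2, p0} := by
  rw [h.q2d, h.p0d]
  exact h.l0.st

/-- the numbers -/
lemma _root_.Pool.Agent.Lib.MP06c549.T6H.fin11 {w ws0 ws1 f W B X : ℕ} (h1 : ws1 = w) (h0 : ws0 = 0)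
    (hf : f ≤ 3 * 1) (hw : 1 ≤ w) (hW : W = 8) (hB : B = 4) (hX : X = 3)
    (h : 9 * W + 3 * B + (2 * 9 - 17) * ws0 + 2 * 9 * ws1 < 17 * (X + f)) : False := by
  subst h1 h0 hW hB hX
  omega

/-- **the configuration does not occur** -/
theorem false (h : Hex m G o x0 x1 x2 e0 e1 e2 g0 g1 g2 F0 F1 F2 b0 b1 b2
    d0 d0' d1 d1' d2 d2' O0 O1 O2 c0 c1 c2 p0 q0 p1 q1 p2 q2) (hw : 1 ≤ G.w e0) : False := by
  have hG := h.k.mn
  have hgood := hG.cls.good
  have hF := h.k.u0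
  have t := h.k.tri
  have k0 := h.k.s0.eb
  have k1 := h.k.s1.eb
  have k2 := h.k.s2.eb
  have hb0 : b0 ∈ G.vs := k0.symm.memv hgood
  have hb1 : b1 ∈ G.vs := k1.symm.memv hgood
  have hb2 : b2 ∈ G.vs := k2.symm.memv hgood
  have hc1 : c1 ∈ G.vs := h.ep1.symm.memv hgood
  have hc2 : c2 ∈ G.vs := h.ep2.symm.memv hgood
  have hx0 : x0 ∈ G.vs := k0.memv hgood
  have hx1 : x1 ∈ G.vs := k1.memv hgood
  have hx2 : x2 ∈ G.vs := k2.memv hgood
  have bx0 := h.bx
  obtain ⟨bx11, bx12, bx10⟩ := h.rot.bx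
  obtain ⟨bx22, bx20, bx21⟩ := h.rot.rot.bx
  obtain ⟨cb11, cb12, cb10⟩ := h.rot.cb
  obtain ⟨cb22, cb20, cb21⟩ := h.rot.rot.cb
  have cc12 := h.c12
  have sa0 : G.S p0 F0 O0 := by rw [h.p0d]; exact h.l0.sd'
  have sq0 : G.S q0 F0 O1 := by rw [h.rot.q2d]; exact h.l1.sd
  obtain ⟨W, hWdef⟩ : ∃ W : Finset ℕ, W = insert c1 (insert c2 (insert b0 (insert b1
    (insert b2 {x0, x1, x2})))) := ⟨_, rfl⟩
  have hmem : ∀ v, v ∈ W ↔ v = c1 ∨ v = c2 ∨ v = b0 ∨ v = b1 ∨ v = b2 ∨ v = x0 ∨ v = x1 ∨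
      v = x2 := by
    intro v
    rw [hWdef]
    simp only [mem_insert, mem_singleton]
  have hWv : W ⊆ G.vs := by
    intro v hv
    rw [hmem] at hv
    rcases hv with rfl | rfl | rfl | rfl | rfl | rfl | rfl | rfl <;> assumption
  have hc : W.card = 8 := by
    rw [hWdef, card_insert_of_notMem, card_insert_of_notMem, card_insert_of_notMem,
      card_insert_of_notMem, card_insert_of_notMem, card_insert_of_notMem, card_pair t.n12]
    · simp only [mem_insert, mem_singleton, not_or]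
      exact ⟨t.n01, t.n20.symm⟩
    · simp only [mem_insert, mem_singleton, not_or]
      exact ⟨bx20, bx21, bx22⟩
    · simp only [mem_insert, mem_singleton, not_or]
      exact ⟨h.k.n12, bx10, bx11, bx12⟩
    · simp only [mem_insert, mem_singleton, not_or]
      exact ⟨h.k.n01, h.k.n20.symm, bx0⟩
    · simp only [mem_insert, mem_singleton, not_or]
      exact ⟨cb20, cb21, cb22, h.x20, h.x21, h.x22⟩
    · simp only [mem_insert, mem_singleton, not_or]
      exact ⟨cc12, cb10, cb11, cb12, h.x10, h.x11, h.x12⟩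
  have hFC : G.FC W o := by
    rw [hWdef]
    have f0 : G.FC {x0, x1, x2} o :=
      FC_insert hgood (FC_insert hgood (FC_single hgood hx2 (Or.inr t.c2.tO))
        hx1 (Or.inr (Or.inl t.c1.tO))) hx0
        (Or.inr (Or.inl t.c0.tO))
    have f1 : G.FC (insert b2 {x0, x1, x2}) o :=
      FC_insert hgood f0 hb2 (Or.inr (Or.inr ⟨g2, k2.right, star_sub_tds (by simp) k2.left⟩))
    have f2 : G.FC (insert b1 (insert b2 {x0, x1, x2})) o :=
      FC_insert hgood f1 hb1 (Or.inr (Or.inr ⟨g1, k1.right,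
        star_sub_tds (v := x1) (by simp) k1.left⟩))
    have f3 : G.FC (insert b0 (insert b1 (insert b2 {x0, x1, x2}))) o :=
      FC_insert hgood f2 hb0 (Or.inr (Or.inr ⟨g0, k0.right,
        star_sub_tds (v := x0) (by simp) k0.left⟩))
    have f4 : G.FC (insert c2 (insert b0 (insert b1 (insert b2 {x0, x1, x2})))) o :=
      FC_insert hgood f3 hc2 (Or.inr (Or.inr ⟨p2, h.ep2.right,
        star_sub_tds (v := b2) (by simp) h.ep2.left⟩))
    exact FC_insert hgood f4 hc1 (Or.inr (Or.inr ⟨p1, h.ep1.right,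
      star_sub_tds (v := b1) (by simp) h.ep1.left⟩))
  -- covered edges
  have kE : ∀ {d v w : ℕ}, G.E d v w → v ∈ ({x2, c1, c2} : Finset ℕ) →
      G.p d ∈ ({x2, c1, c2} : Finset ℕ) ∨ G.q d ∈ ({x2, c1, c2} : Finset ℕ) ∨
        G.l d ∈ ({F0} : Finset ℕ) ∨ G.r d ∈ ({F0} : Finset ℕ) := by
    intro d v w h1 h2
    rcases h1.2 with h3 | h3
    · left; rw [h3.1]; exact h2
    · right; left; rw [h3.2]; exact h2
  have kS : ∀ {d i : ℕ}, G.S d F0 i → G.p d ∈ ({x2, c1, c2} : Finset ℕ) ∨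
      G.q d ∈ ({x2, c1, c2} : Finset ℕ) ∨ G.l d ∈ ({F0} : Finset ℕ) ∨
        G.r d ∈ ({F0} : Finset ℕ) := by
    intro d i h1
    rcases h1 with h3 | h3
    · right; right; left; rw [h3.1]; simp
    · right; right; right; rw [h3.2]; simp
  have ke0 := kS t.c1.se.symm
  have ke1 := kE t.a1.symm (by simp)
  have ke2 := kE t.a2 (by simp)
  have kg0 := kS t.c0.sg.symm
  have kg1 := kS t.c1.sg
  have kg2 := kE k2 (by simp)
  have ka0 := kS sa0
  have kq0 := kS sq0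
  have ka1 := kE h.ep1.symm (by simp)
  have kq1 := kE h.eq1 (by simp)
  have ka2 := kE h.ep2.symm (by simp)
  have kq2 := kE h.eq2 (by simp)
  have st0 := h.stb
  have st1 := h.rot.stb
  have st2 := h.rot.rot.stb
  have hcov : ∀ d ∈ G.tds W, G.p d ∈ ({x2, c1, c2} : Finset ℕ) ∨
      G.q d ∈ ({x2, c1, c2} : Finset ℕ) ∨ G.l d ∈ ({F0} : Finset ℕ) ∨
        G.r d ∈ ({F0} : Finset ℕ) := by
    intro d hd
    have h1 : ∃ v ∈ W, d ∈ G.star v := by
      rw [mem_tds] at hd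
      rcases hd.2 with h2 | h2
      · exact ⟨_, h2, mem_star.2 ⟨hd.1, Or.inl rfl⟩⟩
      · exact ⟨_, h2, mem_star.2 ⟨hd.1, Or.inr rfl⟩⟩
    obtain ⟨v, hv, hdv⟩ := h1
    obtain ⟨w, hw⟩ := exists_E hdv
    rw [hmem] at hv
    rcases hv with rfl | rfl | rfl | rfl | rfl | rfl | rfl | rfl
    · exact kE hw (by simp)
    · exact kE hw (by simp)
    · rw [st0] at hdv
      simp only [mem_insert, mem_singleton] at hdv
      rcases hdv with rfl | rfl | rfl <;> assumption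
    · rw [st1] at hdv
      simp only [mem_insert, mem_singleton] at hdv
      rcases hdv with rfl | rfl | rfl <;> assumption
    · rw [st2] at hdv
      simp only [mem_insert, mem_singleton] at hdv
      rcases hdv with rfl | rfl | rfl <;> assumption
    · rcases (by rw [t.c0.st] at hdv; simpa only [mem_insert, mem_singleton] using hdv : d = e2 ∨ d = g0 ∨ d = e0) with rfl | rfl | rfl <;> assumption
    · rcases (by rw [t.c1.st] at hdv; simpa only [mem_insert, mem_singleton] using hdv : d = e0 ∨ d = g1 ∨ d = e1) with rfl | rfl | rfl <;> assumption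
    · exact kE hw (by simp)
  have me0 : e0 ∈ G.tds W := star_sub_tds ((hmem x0).2 (by simp)) t.a0.left
  have me1 : e1 ∈ G.tds W := star_sub_tds ((hmem x1).2 (by simp)) t.a1.left
  have me2 : e2 ∈ G.tds W := star_sub_tds ((hmem x2).2 (by simp)) t.a2.left
  have ma0 : p0 ∈ G.tds W := star_sub_tds ((hmem b0).2 (by simp)) h.ep0.left
  have tf_of : ∀ {d i F : ℕ}, d ∈ G.tds W → G.S d i F → F ∈ G.tf W := by
    intro d i F h1 h2
    rcases h2 with h3 | h3
    · rw [← h3.2]; exact r_mem_tf h1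
    · rw [← h3.1]; exact l_mem_tf h1
  have f0 : F0 ∈ G.tf W := tf_of me0 t.c1.se
  have f1 : F1 ∈ G.tf W := tf_of me1 t.c2.se
  have f2 : F2 ∈ G.tf W := tf_of me2 t.c0.se
  have fO : O0 ∈ G.tf W := tf_of ma0 sa0
  have hmv := hG.toCx0.move_w (by norm_num) (by norm_num) (W := W) (X₀ := {x2, c1, c2})
    (Y₀ := {F0}) (B := {F0, F1, F2, O0}) (D := ∅) (D' := {e0}) hWv ⟨x0, (hmem x0).2 (by simp)⟩ hFC
    (by
      intro v hv
      simp only [mem_insert, mem_singleton] at hv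
      rcases hv with rfl | rfl | rfl <;> assumption)
    (singleton_subset_iff.2 (mem_sdiff.2 ⟨tf_sub hgood f0, hF⟩))
    (by
      intro i hi
      simp only [mem_insert, mem_singleton] at hi
      rw [mem_erase]
      rcases hi with rfl | rfl | rfl | rfl
      · exact ⟨t.c0.f2, f0⟩
      · exact ⟨t.c1.f2, f1⟩
      · exact ⟨t.c2.f2, f2⟩
      · exact ⟨h.l0.o1, fO⟩)
    hcov (empty_subset _) (singleton_subset_iff.2 me0) (disjoint_empty_left _)
    (by
      intro d hd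
      rw [mem_singleton] at hd
      rw [hd]
      rcases t.c1.se with h1 | h1
      · exact Or.inr (by rw [h1.2]; simp)
      · exact Or.inl (by rw [h1.1]; simp))
  have hB4 : ({F0, F1, F2, O0} : Finset ℕ).card = 4 := by
    rw [card_insert_of_notMem, card_insert_of_notMem, card_pair (Ne.symm h.l0.o4)]
    · simp only [mem_insert, mem_singleton, not_or]
      exact ⟨t.m12, Ne.symm h.l0.o3⟩
    · simp only [mem_insert, mem_singleton, not_or]
      exact ⟨t.m01, t.m20.symm, Ne.symm h.l0.o2⟩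
  have hX3 : ({x2, c1, c2} : Finset ℕ).card = 3 := by
    rw [card_insert_of_notMem, card_pair cc12]
    simp only [mem_insert, mem_singleton, not_or]
    exact ⟨Ne.symm h.x12, Ne.symm h.x22⟩
  exact fin11 (by rw [ws, sum_singleton]) (by rw [ws, sum_empty]) (by
    have := G.fpr_le (Y := {F0})
    rwa [card_singleton] at this) hw hc hB4 hX3 hmv

end Hex

/-- K11 -/
theorem spec_K3Hex (m : ℕ) : SpecK3Hex m := by
  intro G o x0 x1 x2 e0 e1 e2 g0 g1 g2 F0 F1 F2 b0 b1 b2 d0 d0' d1 d1' d2 d2' O0 O1 O2 c0 c1 c2 p0 q0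
    p1 q1 p2 q2 hk l0 l1 l2 m0 m1 m2 ep0 eq0 ep1 eq1 ep2 eq2 x00 x01 x02 x10 x11 x12 x20 x21 x22
    c01 c12 c20
  have h : Hex m G o x0 x1 x2 e0 e1 e2 g0 g1 g2 F0 F1 F2 b0 b1 b2 d0 d0' d1 d1' d2 d2' O0 O1 O2
      c0 c1 c2 p0 q0 p1 q1 p2 q2 := ⟨hk, l0, l1, l2, m0, m1, m2, ep0, eq0, ep1, eq1, ep2, eq2, x00,
    x01, x02, x10, x11, x12, x20, x21, x22, c01, c12, c20⟩
  have hw := hk.wt
  by_cases h0 : 1 ≤ G.w e0
  · exact h.false h0
  · by_cases h1 : 1 ≤ G.w e1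
    · exact h.rot.false h1
    · exact h.rot.rot.false (by omega)

end Gr

end Pool.Agent.Lib.MP06c549.T6H
end

section
/-!
# MP_06c549_co, T6H: an outer triangle, the move P
-/
set_option autoImplicit false

namespace Pool.Agent.Lib.MP06c549.T6H

open Finset

namespace Gr

variable {G : Gr} {o m : ℕ}

/-- the third edge at a vertex of degree three -/
lemma third {b g d : ℕ} (hc : (G.star b).card = 3) (hg : g ∈ G.star b) (hd : d ∈ G.star b)
    (hne : g ≠ d) : ∃ k, G.star b = {g, d, k} ∧ k ≠ g ∧ k ≠ d := by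
  have h1 : (((G.star b).erase g).erase d).card = 1 := by
    rw [card_erase_of_mem (mem_erase.2 ⟨hne.symm, hd⟩), card_erase_of_mem hg, hc]
  obtain ⟨k, hk⟩ := card_eq_one.1 h1
  have hk' : k ∈ ((G.star b).erase g).erase d := by rw [hk]; exact mem_singleton_self k
  obtain ⟨h2, h3⟩ := mem_erase.1 hk'
  refine ⟨k, ?_, (mem_erase.1 h3).1, h2⟩
  rw [← insert_erase hg, ← insert_erase (mem_erase.2 ⟨hne.symm, hd⟩), hk]

namespace K3b

variable {x0 x1 x2 e0 e1 e2 g0 g1 g2 F0 F1 F2 b0 b1 b2 : ℕ}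

section

variable (h : K3b m G o x0 x1 x2 e0 e1 e2 g0 g1 g2 F0 F1 F2 b0 b1 b2)

include h

lemma nx0 {v : ℕ} (hv : G.Touch v o) : b0 ≠ v := fun h1 => h.s0.nb (h1 ▸ hv)

lemma b0_notMem : b0 ≠ x0 ∧ b0 ≠ x1 ∧ b0 ≠ x2 :=
  ⟨h.nx0 h.tri.c0.tO, h.nx0 h.tri.c1.tO, h.nx0 h.tri.c2.tO⟩

lemma b1_notMem : b1 ≠ x1 ∧ b1 ≠ x2 ∧ b1 ≠ x0 := h.rot.b0_notMem

lemma b2_notMem : b2 ≠ x2 ∧ b2 ≠ x0 ∧ b2 ≠ x1 := h.rot.rot.b0_notMem

lemma W_card : ({x0, x1, x2, b0, b1, b2} : Finset ℕ).card = 6 := by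
  obtain ⟨a1, a2, a3⟩ := h.b0_notMem
  obtain ⟨b1', b2', b3'⟩ := h.b1_notMem
  obtain ⟨c1, c2, c3⟩ := h.b2_notMem
  have n01 := h.tri.n01
  have n12 := h.tri.n12
  have n20 := h.tri.n20
  rw [card_insert_of_notMem, card_insert_of_notMem, card_insert_of_notMem,
    card_insert_of_notMem, card_pair h.n12]
  · simp only [mem_insert, mem_singleton, not_or]
    exact ⟨h.n01, h.n20.symm⟩
  · simp only [mem_insert, mem_singleton, not_or]
    exact ⟨a3.symm, b2'.symm, c1.symm⟩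
  · simp only [mem_insert, mem_singleton, not_or]
    exact ⟨n12, a2.symm, b1'.symm, c3.symm⟩
  · simp only [mem_insert, mem_singleton, not_or]
    exact ⟨n01, n20.symm, a1.symm, b3'.symm, c2.symm⟩

lemma W_sub (hG : G.Good) : ({x0, x1, x2, b0, b1, b2} : Finset ℕ) ⊆ G.vs := by
  intro x hx
  simp only [mem_insert, mem_singleton] at hx
  rcases hx with rfl | rfl | rfl | rfl | rfl | rfl
  · exact h.s0.eb.memv hG
  · exact h.s1.eb.memv hG
  · exact h.s2.eb.memv hG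
  · exact h.s0.eb.symm.memv hG
  · exact h.s1.eb.symm.memv hG
  · exact h.s2.eb.symm.memv hG

lemma W_FC (hG : G.Good) : G.FC {x0, x1, x2, b0, b1, b2} o := by
  have e1' : ({x0, x1, x2, b0, b1, b2} : Finset ℕ) =
      insert b0 (insert b1 (insert b2 (insert x0 (insert x1 {x2})))) := by
    ext i; simp only [mem_insert, mem_singleton]; tauto
  rw [e1']
  refine FC_insert hG (FC_insert hG (FC_insert hG (FC_insert hG (FC_insert hG (FC_single hG
    (h.s2.eb.memv hG) (Or.inr h.tri.c2.tO)) (h.s1.eb.memv hG) (Or.inr (Or.inl h.tri.c1.tO)))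
    (h.s0.eb.memv hG) (Or.inr (Or.inl h.tri.c0.tO))) (h.s2.eb.symm.memv hG)
    (Or.inr (Or.inr ⟨g2, h.s2.eb.right, ?_⟩))) (h.s1.eb.symm.memv hG)
    (Or.inr (Or.inr ⟨g1, h.s1.eb.right, ?_⟩))) (h.s0.eb.symm.memv hG)
    (Or.inr (Or.inr ⟨g0, h.s0.eb.right, ?_⟩))
  · exact mem_tds_iff.2 ⟨x2, by simp, h.s2.eb.left⟩
  · exact mem_tds_iff.2 ⟨x1, by simp, h.s1.eb.left⟩
  · exact mem_tds_iff.2 ⟨x0, by simp, h.s0.eb.left⟩

/-- the faces touched by the triangle -/
lemma mF {W : Finset ℕ} (h0 : x0 ∈ W) (h1 : x1 ∈ W) :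
    F0 ∈ G.tf W ∧ F1 ∈ G.tf W ∧ F2 ∈ G.tf W :=
  ⟨h.tri.c0.tF'.tfm h0, h.tri.c1.tF'.tfm h1, h.tri.c0.tF.tfm h0⟩

lemma B_card {O : ℕ} (n0 : O ≠ F0) (n1 : O ≠ F1) (n2 : O ≠ F2) :
    ({O, F0, F1, F2} : Finset ℕ).card = 4 := by
  rw [card_insert_of_notMem, card_insert_of_notMem, card_pair h.tri.m12]
  · simp only [mem_insert, mem_singleton, not_or]
    exact ⟨h.tri.m01, h.tri.m20.symm⟩
  · simp only [mem_insert, mem_singleton, not_or]
    exact ⟨n0, n1, n2⟩

lemma B_sub {O : ℕ} {W : Finset ℕ} (h0 : x0 ∈ W) (h1 : x1 ∈ W) (no : O ≠ o) (hO : O ∈ G.tf W) :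
    ({O, F0, F1, F2} : Finset ℕ) ⊆ (G.tf W).erase o := by
  obtain ⟨m0, m1, m2⟩ := h.mF h0 h1
  intro i hi
  simp only [mem_insert, mem_singleton] at hi
  rw [mem_erase]
  rcases hi with rfl | rfl | rfl | rfl
  · exact ⟨no, hO⟩
  · exact ⟨h.tri.c1.f1, m0⟩
  · exact ⟨h.tri.c1.f2, m1⟩
  · exact ⟨h.tri.c0.f1, m2⟩

lemma e_card : G.ws {e0, e1, e2} = G.w e0 + G.w e1 + G.w e2 := by
  unfold ws
  rw [sum_insert, sum_pair h.tri.c2.n2]
  · ring
  · simp only [mem_insert, mem_singleton, not_or]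
    exact ⟨h.tri.c1.n2, h.tri.c0.n2.symm⟩

end

/-- **the move P**: the edges at `b1` and `b2` have an end in `{b0, x1, x2} ∪ A` -/
theorem moveP (h : K3b m G o x0 x1 x2 e0 e1 e2 g0 g1 g2 F0 F1 F2 b0 b1 b2)
    {A : Finset ℕ} (hA : A ⊆ G.vs)
    (hAW : Disjoint A {x0, x1, x2, b0, b1, b2}) (hAc : A.card ≤ 2)
    (hAn : ∀ a ∈ A, ∃ b ∈ ({b0, b1, b2} : Finset ℕ), ∃ d, G.E d a b)
    (hc1 : ∀ d ∈ G.star b1, ∃ v ∈ ({b0, x1, x2} : Finset ℕ) ∪ A, d ∈ G.star v)
    (hc2 : ∀ d ∈ G.star b2, ∃ v ∈ ({b0, x1, x2} : Finset ℕ) ∪ A, d ∈ G.star v) {O v : ℕ}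
    (hv : v ∈ ({x0, x1, x2, b0, b1, b2} : Finset ℕ) ∪ A) (hO : G.Touch v O) (no : O ≠ o)
    (n0 : O ≠ F0) (n1 : O ≠ F1) (n2 : O ≠ F2) : False := by
  have hgd := h.mn.cls.good
  have hFC : ∀ A' ⊆ A, G.FC (A' ∪ {x0, x1, x2, b0, b1, b2}) o := by
    intro A' hA'
    induction A' using Finset.induction_on with
    | empty => rw [empty_union]; exact h.W_FC hgd
    | insert a A' ha ih =>
      rw [insert_union]
      obtain ⟨b, hb, d, hd⟩ := hAn a (hA' (mem_insert_self _ _))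
      refine FC_insert hgd (ih fun x hx => hA' (mem_insert_of_mem hx)) (hd.memv hgd)
        (Or.inr (Or.inr ⟨d, hd.left, mem_tds_iff.2 ⟨b, ?_, hd.right⟩⟩))
      apply mem_union_right
      simp only [mem_insert, mem_singleton] at hb ⊢
      tauto
  have hX : ({b0, x1, x2} : Finset ℕ) ∪ A ⊆ G.vs := by
    refine union_subset (fun x hx => h.W_sub hgd ?_) hA
    simp only [mem_insert, mem_singleton] at hx ⊢
    tauto
  have hsc : ∀ {d v : ℕ}, v ∈ ({b0, x1, x2} : Finset ℕ) ∪ A → d ∈ G.star v →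
      G.p d ∈ ({b0, x1, x2} : Finset ℕ) ∪ A ∨ G.q d ∈ ({b0, x1, x2} : Finset ℕ) ∪ A ∨
        G.l d ∈ (∅ : Finset ℕ) ∨ G.r d ∈ (∅ : Finset ℕ) := fun hv hd => star_cov hd hv
  have key := h.mn.move_w (by norm_num) (by norm_num) (W := A ∪ {x0, x1, x2, b0, b1, b2})
    (X₀ := {b0, x1, x2} ∪ A) (Y₀ := ∅) (B := {O, F0, F1, F2}) (D := {e0, e1, e2}) (D' := ∅)
    (union_subset hA (h.W_sub hgd)) ⟨x0, by simp⟩ (hFC A Subset.rfl) hX (empty_subset _)
    (h.B_sub (by simp) (by simp) no (hO.tfm (by rwa [union_comm])))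
    (by
      intro d hd
      obtain ⟨x, hx, hdx⟩ := mem_tds_iff.1 hd
      rw [mem_union] at hx
      rcases hx with hx | hx
      · exact hsc (mem_union_right _ hx) hdx
      simp only [mem_insert, mem_singleton] at hx
      rcases hx with rfl | rfl | rfl | rfl | rfl | rfl
      · rw [h.tri.c0.st, mem_insert, mem_insert, mem_singleton] at hdx
        rcases hdx with rfl | rfl | rfl
        · exact hsc (v := x2) (by simp) h.tri.a2.left
        · exact hsc (v := b0) (by simp) h.s0.eb.right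
        · exact hsc (v := x1) (by simp) h.tri.a0.right
      · exact hsc (by simp) hdx
      · exact hsc (by simp) hdx
      · exact hsc (by simp) hdx
      · obtain ⟨v, hv, hdv⟩ := hc1 d hdx
        exact hsc hv hdv
      · obtain ⟨v, hv, hdv⟩ := hc2 d hdx
        exact hsc hv hdv)
    (by
      intro d hd
      simp only [mem_insert, mem_singleton] at hd
      rcases hd with rfl | rfl | rfl
      · exact mem_tds_iff.2 ⟨x0, by simp, h.tri.a0.left⟩
      · exact mem_tds_iff.2 ⟨x1, by simp, h.tri.a1.left⟩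
      · exact mem_tds_iff.2 ⟨x2, by simp, h.tri.a2.left⟩)
    (empty_subset _) (disjoint_empty_right _) (by simp)
  have e' : G.ws (∅ : Finset ℕ) = 0 := by unfold ws; rw [sum_empty]
  have c1 := card_union_le ({b0, x1, x2} : Finset ℕ) A
  have c2 : ({b0, x1, x2} : Finset ℕ).card ≤ 3 := card_le_three
  rw [card_union_of_disjoint hAW, h.W_card, h.B_card n0 n1 n2, fpr_empty, h.e_card, e'] at key
  have hw := h.wt
  omega

/-- the inner neighbours are pairwise adjacent vertices of degree three -/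
theorem prism (h : K3b m G o x0 x1 x2 e0 e1 e2 g0 g1 g2 F0 F1 F2 b0 b1 b2)
    {d d' d'' : ℕ}
    (s1 : ∀ k ∈ G.star b1, k = g1 ∨ k = d ∨ k = d'') (s2 : ∀ k ∈ G.star b2, k = g2 ∨ k = d' ∨ k = d'')
    (hd : G.E d b0 b1) (hd' : G.E d' b0 b2) (hd'' : G.E d'' b1 b2) {O v : ℕ}
    (hv : v ∈ ({x0, x1, x2, b0, b1, b2} : Finset ℕ)) (hO : G.Touch v O) (no : O ≠ o)
    (n0 : O ≠ F0) (n1 : O ≠ F1) (n2 : O ≠ F2) : False := by
  have hgd := h.mn.cls.good
  obtain ⟨z1, z2, z3⟩ := h.b0_notMem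
  obtain ⟨z4, z5, z6⟩ := h.b1_notMem
  obtain ⟨z7, z8, z9⟩ := h.b2_notMem
  have hX : ({b0, b1, x1, x2} : Finset ℕ) ⊆ G.vs := by
    intro x hx
    apply h.W_sub hgd
    simp only [mem_insert, mem_singleton] at hx ⊢
    tauto
  have hsc : ∀ {d v : ℕ}, v ∈ ({b0, b1, x1, x2} : Finset ℕ) → d ∈ G.star v →
      G.p d ∈ ({b0, b1, x1, x2} : Finset ℕ) ∨ G.q d ∈ ({b0, b1, x1, x2} : Finset ℕ) ∨
        G.l d ∈ (∅ : Finset ℕ) ∨ G.r d ∈ (∅ : Finset ℕ) := fun hv hd => star_cov hd hv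
  -- the weights
  obtain ⟨ht, h12, h13, h23⟩ := evenSet_triangle hd hd'' hd'.symm h.n01 h.n12 h.n20
  have hgir := h.mn.cls.girth {d, d'', d'} (by
    intro k hk
    simp only [mem_insert, mem_singleton] at hk
    rcases hk with rfl | rfl | rfl
    · exact hd.1
    · exact hd''.1
    · exact hd'.1) ht ⟨d, by simp⟩
  rw [sum_insert (by simp [h12, h13]), sum_pair h23] at hgir
  have hdis : Disjoint ({e0, e1, e2} : Finset ℕ) {d, d'', d'} := by
    have hx : ∀ {e x : ℕ}, G.Touch x o → e ∈ G.star x → e ∉ ({d, d'', d'} : Finset ℕ) := by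
      intro e x hx he hm
      simp only [mem_insert, mem_singleton] at hm
      rcases hm with rfl | rfl | rfl
      · rcases hd.ends he with h1 | h1
        · exact h.s0.nb (h1 ▸ hx)
        · exact h.s1.nb (h1 ▸ hx)
      · rcases hd''.ends he with h1 | h1
        · exact h.s1.nb (h1 ▸ hx)
        · exact h.s2.nb (h1 ▸ hx)
      · rcases hd'.ends he with h1 | h1
        · exact h.s0.nb (h1 ▸ hx)
        · exact h.s2.nb (h1 ▸ hx)
    rw [disjoint_left]
    intro e he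
    simp only [mem_insert, mem_singleton] at he
    rcases he with rfl | rfl | rfl
    · exact hx h.tri.c0.tO h.tri.a0.left
    · exact hx h.tri.c1.tO h.tri.a1.left
    · exact hx h.tri.c2.tO h.tri.a2.left
  have hD : G.ws ({e0, e1, e2} ∪ {d, d'', d'} : Finset ℕ) =
      G.w e0 + G.w e1 + G.w e2 + (G.w d + G.w d'' + G.w d') := by
    rw [ws_union hdis, h.e_card]
    congr 1
    unfold ws
    rw [sum_insert (by simp [h12, h13]), sum_pair h23]
    ring
  have key := h.mn.move_w (by norm_num) (by norm_num) (W := {x0, x1, x2, b0, b1, b2})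
    (X₀ := {b0, b1, x1, x2}) (Y₀ := ∅) (B := {O, F0, F1, F2})
    (D := {e0, e1, e2} ∪ {d, d'', d'}) (D' := ∅)
    (h.W_sub hgd) ⟨x0, by simp⟩ (h.W_FC hgd) hX (empty_subset _)
    (h.B_sub (by simp) (by simp) no (hO.tfm hv))
    (by
      intro k hk
      obtain ⟨x, hx, hdx⟩ := mem_tds_iff.1 hk
      simp only [mem_insert, mem_singleton] at hx
      rcases hx with rfl | rfl | rfl | rfl | rfl | rfl
      · rw [h.tri.c0.st, mem_insert, mem_insert, mem_singleton] at hdx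
        rcases hdx with rfl | rfl | rfl
        · exact hsc (v := x2) (by simp) h.tri.a2.left
        · exact hsc (v := b0) (by simp) h.s0.eb.right
        · exact hsc (v := x1) (by simp) h.tri.a0.right
      · exact hsc (by simp) hdx
      · exact hsc (by simp) hdx
      · exact hsc (by simp) hdx
      · exact hsc (by simp) hdx
      · rcases s2 k hdx with rfl | rfl | rfl
        · exact hsc (v := x2) (by simp) h.s2.eb.left
        · exact hsc (v := b0) (by simp) hd'.left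
        · exact hsc (v := b1) (by simp) hd''.left)
    (by
      intro k hk
      rw [mem_union] at hk
      simp only [mem_insert, mem_singleton] at hk
      rcases hk with (rfl | rfl | rfl) | (rfl | rfl | rfl)
      · exact mem_tds_iff.2 ⟨x0, by simp, h.tri.a0.left⟩
      · exact mem_tds_iff.2 ⟨x1, by simp, h.tri.a1.left⟩
      · exact mem_tds_iff.2 ⟨x2, by simp, h.tri.a2.left⟩
      · exact mem_tds_iff.2 ⟨b0, by simp, hd.left⟩
      · exact mem_tds_iff.2 ⟨b1, by simp, hd''.left⟩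
      · exact mem_tds_iff.2 ⟨b0, by simp, hd'.left⟩)
    (empty_subset _) (disjoint_empty_right _) (by simp)
  have e' : G.ws (∅ : Finset ℕ) = 0 := by unfold ws; rw [sum_empty]
  have c2 : ({b0, b1, x1, x2} : Finset ℕ).card ≤ 4 := card_le_four
  rw [h.W_card, h.B_card n0 n1 n2, fpr_empty, hD, e'] at key
  have hw := h.wt
  omega

/-- an edge at `b0` other than `g0` does not go to the triangle -/
lemma out (h : K3b m G o x0 x1 x2 e0 e1 e2 g0 g1 g2 F0 F1 F2 b0 b1 b2) {k a : ℕ}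
    (hk : G.E k b0 a) (hkg : k ≠ g0) : a ≠ x0 ∧ a ≠ x1 ∧ a ≠ x2 := by
  obtain ⟨z1, z2, z3⟩ := h.b0_notMem
  refine ⟨?_, ?_, ?_⟩
  · rintro rfl
    have h1 := hk.right
    rw [h.tri.c0.st, mem_insert, mem_insert, mem_singleton] at h1
    rcases h1 with rfl | rfl | rfl
    · rcases h.tri.a2.ends hk.left with h1 | h1
      · exact z3 h1
      · exact z1 h1
    · exact hkg rfl
    · rcases h.tri.a0.ends hk.left with h1 | h1
      · exact z1 h1
      · exact z2 h1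
  · rintro rfl
    have h1 := hk.right
    rw [h.tri.c1.st, mem_insert, mem_insert, mem_singleton] at h1
    rcases h1 with rfl | rfl | rfl
    · rcases h.tri.a0.ends hk.left with h1 | h1
      · exact z1 h1
      · exact z2 h1
    · rcases h.s1.eb.ends hk.left with h1 | h1
      · exact z2 h1
      · exact h.n01 h1
    · rcases h.tri.a1.ends hk.left with h1 | h1
      · exact z2 h1
      · exact z3 h1
  · rintro rfl
    have h1 := hk.right
    rw [h.tri.c2.st, mem_insert, mem_insert, mem_singleton] at h1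
    rcases h1 with rfl | rfl | rfl
    · rcases h.tri.a1.ends hk.left with h1 | h1
      · exact z2 h1
      · exact z3 h1
    · rcases h.s2.eb.ends hk.left with h1 | h1
      · exact z3 h1
      · exact h.n20 h1.symm
    · rcases h.tri.a2.ends hk.left with h1 | h1
      · exact z3 h1
      · exact z1 h1

/-- the edges between `b`s are no spokes -/
lemma g_ne (h : K3b m G o x0 x1 x2 e0 e1 e2 g0 g1 g2 F0 F1 F2 b0 b1 b2) {d : ℕ}
    (hd : G.E d b0 b1) : g0 ≠ d ∧ g1 ≠ d := by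
  obtain ⟨z1, z2, z3⟩ := h.b0_notMem
  obtain ⟨z4, z5, z6⟩ := h.b1_notMem
  constructor
  · rintro rfl
    rcases h.s0.eb.ends hd.right with h1 | h1
    · exact z6 h1
    · exact h.n01 h1.symm
  · rintro rfl
    rcases h.s1.eb.ends hd.left with h1 | h1
    · exact z2 h1
    · exact h.n01 h1

/-- `b0` is adjacent to `b1` and `b2` -/
theorem k10a (h : K3b m G o x0 x1 x2 e0 e1 e2 g0 g1 g2 F0 F1 F2 b0 b1 b2)
    (c1 : (G.star b1).card = 3) (c2 : (G.star b2).card = 3) {d d' : ℕ}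
    (hd : G.E d b0 b1) (hd' : G.E d' b0 b2) {O v : ℕ}
    (hv : v ∈ ({x0, x1, x2, b0, b1, b2} : Finset ℕ)) (hO : G.Touch v O) (no : O ≠ o)
    (n0 : O ≠ F0) (n1 : O ≠ F1) (n2 : O ≠ F2) : False := by
  have hgd := h.mn.cls.good
  have hdd : d ≠ d' := by
    rintro rfl
    exact h.n12 (hd.other hgd hd')
  have g1d : g1 ≠ d := (h.g_ne hd).2
  have g2d : g2 ≠ d' := (h.rot.rot.g_ne hd'.symm).1
  obtain ⟨k1, s1, k1g, k1d⟩ := third c1 h.s1.eb.right hd.right g1d
  obtain ⟨k2, s2, k2g, k2d⟩ := third c2 h.s2.eb.right hd'.right g2d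
  have m1 : k1 ∈ G.star b1 := by rw [s1]; simp
  have m2 : k2 ∈ G.star b2 := by rw [s2]; simp
  obtain ⟨a1, ha1⟩ := exists_E m1
  obtain ⟨a2, ha2⟩ := exists_E m2
  obtain ⟨p1, p2, p0⟩ := h.rot.out ha1 k1g
  obtain ⟨q2, q0, q1⟩ := h.rot.rot.out ha2 k2g
  by_cases hp : a1 = b2
  · subst hp
    refine h.prism (d := d) (d' := d') (d'' := k1) ?_ ?_ hd hd' ha1 hv hO no n0 n1 n2
    · intro k hk
      rw [s1] at hk
      simpa using hk
    · intro k hk
      have h1 := ha1.right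
      rw [s2] at hk h1
      simp only [mem_insert, mem_singleton] at hk h1
      have h2 : k1 ≠ g2 := (h.rot.g_ne ha1).2.symm
      have h3 : k1 ≠ d' := by
        rintro rfl
        rcases hd'.ends ha1.left with h4 | h4
        · exact h.n01 h4.symm
        · exact h.n12 h4
      have h4 : k1 = k2 := by tauto
      rw [h4]
      exact hk
  have r1 : a1 ≠ b1 := (ha1.ne hgd).symm
  have r2 : a2 ≠ b2 := (ha2.ne hgd).symm
  -- a second edge between two `b`s
  have r3 : a2 ≠ b1 := by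
    rintro rfl
    have h1 := ha2.right
    rw [s1] at h1
    simp only [mem_insert, mem_singleton] at h1
    rcases h1 with h1 | h1 | h1
    · exact (h.rot.g_ne ha2.symm).1 h1.symm
    · rw [h1] at ha2
      rcases hd.ends ha2.left with h4 | h4
      · exact h.n20 h4
      · exact h.n12 h4.symm
    · rw [h1] at ha2
      exact hp (ha1.other hgd ha2.symm)
  -- the third neighbours which are not `b0`
  refine h.moveP (A := ({a1, a2} : Finset ℕ).erase b0) ?_ ?_ ?_ ?_ ?_ ?_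
    (mem_union_left _ hv) hO no n0 n1 n2
  · intro x hx
    have hx' := (mem_erase.1 hx).2
    simp only [mem_insert, mem_singleton] at hx'
    rcases hx' with rfl | rfl
    · exact ha1.symm.memv hgd
    · exact ha2.symm.memv hgd
  · rw [disjoint_left]
    intro x hx
    obtain ⟨hx0, hx'⟩ := mem_erase.1 hx
    simp only [mem_insert, mem_singleton, not_or] at hx' ⊢
    rcases hx' with rfl | rfl
    · exact ⟨p0, p1, p2, hx0, r1, hp⟩
    · exact ⟨q0, q1, q2, hx0, r3, r2⟩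
  · exact (card_le_card (erase_subset _ _)).trans card_le_two
  · intro a ha
    have ha' := (mem_erase.1 ha).2
    simp only [mem_insert, mem_singleton] at ha'
    rcases ha' with rfl | rfl
    · exact ⟨b1, by simp, k1, ha1.symm⟩
    · exact ⟨b2, by simp, k2, ha2.symm⟩
  · intro k hk
    rw [s1] at hk
    simp only [mem_insert, mem_singleton] at hk
    rcases hk with rfl | rfl | rfl
    · exact ⟨x1, by simp, h.s1.eb.left⟩
    · exact ⟨b0, by simp, hd.left⟩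
    · by_cases h1 : a1 = b0
      · exact ⟨b0, by simp, h1 ▸ ha1.right⟩
      · exact ⟨a1, mem_union_right _ (mem_erase.2 ⟨h1, by simp⟩), ha1.right⟩
  · intro k hk
    rw [s2] at hk
    simp only [mem_insert, mem_singleton] at hk
    rcases hk with rfl | rfl | rfl
    · exact ⟨x2, by simp, h.s2.eb.left⟩
    · exact ⟨b0, by simp, hd'.left⟩
    · by_cases h1 : a2 = b0
      · exact ⟨b0, by simp, h1 ▸ ha2.right⟩
      · exact ⟨a2, mem_union_right _ (mem_erase.2 ⟨h1, by simp⟩), ha2.right⟩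

/-- **no two of `b0`, `b1`, `b2` are adjacent** -/
theorem k10 (h : K3b m G o x0 x1 x2 e0 e1 e2 g0 g1 g2 F0 F1 F2 b0 b1 b2)
    (c0 : (G.star b0).card = 3) (c1 : (G.star b1).card = 3) (c2 : (G.star b2).card = 3)
    (l12 : G.Near x0 x1 x2 b1 b2) (l20 : G.Near x0 x1 x2 b2 b0) {d : ℕ} (hd : G.E d b0 b1) {O v : ℕ}
    (hv : v ∈ ({x0, x1, x2, b0, b1, b2} : Finset ℕ)) (hO : G.Touch v O) (no : O ≠ o)
    (n0 : O ≠ F0) (n1 : O ≠ F1) (n2 : O ≠ F2) : False := by
  have hgd := h.mn.cls.good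
  by_cases h20 : ∃ d', G.E d' b0 b2
  · obtain ⟨d', hd'⟩ := h20
    exact h.k10a c1 c2 hd hd' hv hO no n0 n1 n2
  by_cases h21 : ∃ d', G.E d' b1 b2
  · obtain ⟨d', hd'⟩ := h21
    refine h.refl.k10a c0 c2 hd.symm hd' (O := O) (v := v) ?_ hO no n0 n2 n1
    simp only [mem_insert, mem_singleton] at hv ⊢
    tauto
  push Not at h20 h21
  obtain ⟨g0d, g1d⟩ := h.g_ne hd
  obtain ⟨k0, s0, k0g, k0d⟩ := third c0 h.s0.eb.right hd.left g0d
  obtain ⟨k1, s1, k1g, k1d⟩ := third c1 h.s1.eb.right hd.right g1d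
  -- the common neighbour of `b2` and `b0`
  have l20' : ∃ g v, G.E g b2 v ∧ G.E k0 b0 v := by
    rcases l20 with ⟨g, h1, -⟩ | ⟨g, g', v, h1, h2, -, -, v0, v1, v2⟩
    · exact absurd h1.symm (h20 g)
    · have h4 := h2.right
      rw [s0] at h4
      simp only [mem_insert, mem_singleton] at h4
      rcases h4 with h4 | h4 | h4
      · rw [h4] at h2
        exact absurd (h.s0.eb.symm.other hgd h2.symm).symm v0
      · exfalso
        rw [h4] at h2
        have h5 : v = b1 := (hd.other hgd h2.symm).symm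
        rw [h5] at h1
        exact h21 g h1.symm
      · exact ⟨g, v, h1, h4 ▸ h2.symm⟩
  have l21' : ∃ g v, G.E g b2 v ∧ G.E k1 b1 v := by
    rcases l12 with ⟨g, h1, -⟩ | ⟨g', g, v, h2, h1, -, -, v0, v1, v2⟩
    · exact absurd h1 (h21 g)
    · have h4 := h2.left
      rw [s1] at h4
      simp only [mem_insert, mem_singleton] at h4
      rcases h4 with h4 | h4 | h4
      · rw [h4] at h2
        exact absurd (h.s1.eb.symm.other hgd h2).symm v1
      · exfalso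
        rw [h4] at h2
        have h5 : v = b0 := (hd.symm.other hgd h2).symm
        rw [h5] at h1
        exact h20 g h1
      · exact ⟨g, v, h1.symm, h4 ▸ h2⟩
  obtain ⟨g, a, hg, ha⟩ := l20'
  obtain ⟨g', a', hg', ha'⟩ := l21'
  obtain ⟨p0, p1, p2⟩ := h.out ha k0g
  obtain ⟨q1, q2, q0⟩ := h.rot.out ha' k1g
  have gg : g2 ≠ g := by
    rintro rfl
    exact p2 (h.s2.eb.symm.other hgd hg).symm
  obtain ⟨k, s2, kg2, kg⟩ := third c2 h.s2.eb.right hg.left gg
  have mk : k ∈ G.star b2 := by rw [s2]; simp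
  obtain ⟨y, hy⟩ := exists_E mk
  obtain ⟨t2, t0, t1⟩ := h.rot.rot.out hy kg2
  have ha'm : a' = a ∨ a' = y := by
    have h1 := hg'.left
    rw [s2] at h1
    simp only [mem_insert, mem_singleton] at h1
    rcases h1 with h1 | h1 | h1
    · exfalso
      rw [h1] at hg'
      exact q2 (h.s2.eb.symm.other hgd hg').symm
    · left
      rw [h1] at hg'
      exact hg'.other hgd hg
    · right
      rw [h1] at hg'
      exact hg'.other hgd hy
  have r0 : a ≠ b0 := (ha.ne hgd).symm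
  have r2 : a ≠ b2 := (hg.ne hgd).symm
  have r1 : a ≠ b1 := by
    rintro rfl
    exact h21 g hg.symm
  have u2 : y ≠ b2 := (hy.ne hgd).symm
  have u0 : y ≠ b0 := by
    rintro rfl
    exact h20 k hy.symm
  have u1 : y ≠ b1 := by
    rintro rfl
    exact h21 k hy.symm
  refine h.moveP (A := {a, y}) ?_ ?_ card_le_two ?_ ?_ ?_
    (mem_union_left _ hv) hO no n0 n1 n2
  · intro x hx
    simp only [mem_insert, mem_singleton] at hx
    rcases hx with rfl | rfl
    · exact ha.symm.memv hgd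
    · exact hy.symm.memv hgd
  · rw [disjoint_left]
    intro x hx
    simp only [mem_insert, mem_singleton, not_or] at hx ⊢
    rcases hx with rfl | rfl
    · exact ⟨p0, p1, p2, r0, r1, r2⟩
    · exact ⟨t0, t1, t2, u0, u1, u2⟩
  · intro x hx
    simp only [mem_insert, mem_singleton] at hx
    rcases hx with rfl | rfl
    · exact ⟨b0, by simp, k0, ha.symm⟩
    · exact ⟨b2, by simp, k, hy.symm⟩
  · intro e he
    rw [s1] at he
    simp only [mem_insert, mem_singleton] at he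
    rcases he with rfl | rfl | rfl
    · exact ⟨x1, by simp, h.s1.eb.left⟩
    · exact ⟨b0, by simp, hd.left⟩
    · refine ⟨a', mem_union_right _ ?_, ha'.right⟩
      rw [mem_insert, mem_singleton]
      exact ha'm
  · intro e he
    rw [s2] at he
    simp only [mem_insert, mem_singleton] at he
    rcases he with rfl | rfl | rfl
    · exact ⟨x2, by simp, h.s2.eb.left⟩
    · exact ⟨a, by simp, hg.right⟩
    · exact ⟨y, by simp, hy.right⟩

end K3b

lemma Leg.card {F0 F1 F2 b g d d' F F' O : ℕ} (h : G.Leg o F0 F1 F2 b g d d' F F' O) :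
    (G.star b).card = 3 := by
  rw [h.st, card_insert_of_notMem (by simp [h.n1, h.n2]), card_pair h.n3]

lemma Leg.touch {F0 F1 F2 b g d d' F F' O : ℕ} (h : G.Leg o F0 F1 F2 b g d d' F F' O) :
    G.Touch b O := (h.sd.touch (by rw [h.st]; simp)).2

/-- **K10** -/
theorem spec_K3Adj (m : ℕ) (hN : SpecK3Near m) : SpecK3Adj m := by
  intro G o x0 x1 x2 e0 e1 e2 g0 g1 g2 F0 F1 F2 b0 b1 b2 d0 d0' d1 d1' d2 d2' O0 O1 O2 h l0 l1 l2 d
    hd
  exact h.k10 l0.card l1.card l2.card (hN _ _ _ _ _ _ _ _ _ _ _ _ _ _ _ _ _ h.rot).rot.rot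
    (hN _ _ _ _ _ _ _ _ _ _ _ _ _ _ _ _ _ h.rot.rot).rot hd (O := O0) (v := b0) (by simp)
    l0.touch l0.o1 l0.o2 l0.o3 l0.o4

/-- **K8, the move P** -/
theorem spec_K3P (m : ℕ) : ∀ (G : Gr) (o x0 x1 x2 e0 e1 e2 g0 g1 g2 F0 F1 F2 b0 b1 b2 : ℕ),
  K3b m G o x0 x1 x2 e0 e1 e2 g0 g1 g2 F0 F1 F2 b0 b1 b2 → ∀ (A : Finset ℕ) (O b : ℕ), A.card ≤ 2 →
    (∀ a ∈ A, a ≠ b1 ∧ a ≠ b2 ∧ ∃ d, G.E d b0 a ∨ G.E d b1 a ∨ G.E d b2 a) →
    (∀ d, d ∈ G.star b1 ∨ d ∈ G.star b2 →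
      (G.p d = b0 ∨ G.p d = x1 ∨ G.p d = x2 ∨ G.p d ∈ A) ∨
      (G.q d = b0 ∨ G.q d = x1 ∨ G.q d = x2 ∨ G.q d ∈ A)) →
    (b = b0 ∨ b = b1 ∨ b = b2) → G.Touch b O → O ≠ o → O ≠ F0 → O ≠ F1 → O ≠ F2 → False := by
  intro G o x0 x1 x2 e0 e1 e2 g0 g1 g2 F0 F1 F2 b0 b1 b2 h A O b hA hA' hc hb hO n0 n1 n2 n3
  have hgd := h.mn.cls.good
  obtain ⟨z1, z2, z3⟩ := h.b0_notMem
  obtain ⟨z4, z5, z6⟩ := h.b1_notMem
  obtain ⟨z7, z8, z9⟩ := h.b2_notMem
  have hmem : ∀ v ∈ A, v ≠ x0 → v ≠ b0 → v ∈ ({b0, x1, x2} : Finset ℕ) ∪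
      A.filter (fun v => v ∉ ({x0, x1, x2, b0, b1, b2} : Finset ℕ)) := by
    intro v hv hx hb0
    obtain ⟨v1, v2, -⟩ := hA' v hv
    by_cases h1 : v = x1
    · simp [h1]
    by_cases h2 : v = x2
    · simp [h2]
    refine mem_union_right _ (mem_filter.2 ⟨hv, ?_⟩)
    simp only [mem_insert, mem_singleton, not_or]
    exact ⟨hx, h1, h2, hb0, v1, v2⟩
  have hcov : ∀ d, d ∈ G.star b1 ∨ d ∈ G.star b2 → ∃ v ∈ ({b0, x1, x2} : Finset ℕ) ∪
      A.filter (fun v => v ∉ ({x0, x1, x2, b0, b1, b2} : Finset ℕ)), d ∈ G.star v := by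
    intro d hd
    have hds : d ∈ G.ds := by
      rcases hd with h1 | h1
      · exact star_sub h1
      · exact star_sub h1
    have key : ∀ v, d ∈ G.star v → (v = b0 ∨ v = x1 ∨ v = x2 ∨ v ∈ A) → ∃ v ∈ ({b0, x1, x2} :
        Finset ℕ) ∪ A.filter (fun v => v ∉ ({x0, x1, x2, b0, b1, b2} : Finset ℕ)),
        d ∈ G.star v := by
      intro v hdv hv
      rcases hv with rfl | rfl | rfl | hv
      · exact ⟨v, by simp, hdv⟩
      · exact ⟨v, by simp, hdv⟩
      · exact ⟨v, by simp, hdv⟩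
      · by_cases hb0 : v = b0
        · exact ⟨v, by simp [hb0], hdv⟩
        · refine ⟨v, hmem v hv ?_ hb0, hdv⟩
          rintro rfl
          -- an edge at `x0` is not at `b1`, `b2`
          rw [h.tri.c0.st, mem_insert, mem_insert, mem_singleton] at hdv
          rcases hdv with rfl | rfl | rfl
          · rcases hd with h1 | h1
            · rcases h.tri.a2.ends h1 with h2 | h2
              · exact z5 h2
              · exact z6 h2
            · rcases h.tri.a2.ends h1 with h2 | h2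
              · exact z7 h2
              · exact z8 h2
          · rcases hd with h1 | h1
            · rcases h.s0.eb.ends h1 with h2 | h2
              · exact z6 h2
              · exact h.n01 h2.symm
            · rcases h.s0.eb.ends h1 with h2 | h2
              · exact z8 h2
              · exact h.n20 h2
          · rcases hd with h1 | h1
            · rcases h.tri.a0.ends h1 with h2 | h2
              · exact z6 h2
              · exact z4 h2
            · rcases h.tri.a0.ends h1 with h2 | h2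
              · exact z8 h2
              · exact z9 h2
    rcases hc d hd with h1 | h1
    · exact key _ (mem_star.2 ⟨hds, Or.inl rfl⟩) h1
    · exact key _ (mem_star.2 ⟨hds, Or.inr rfl⟩) h1
  refine h.moveP (A := A.filter (fun v => v ∉ ({x0, x1, x2, b0, b1, b2} : Finset ℕ))) (O := O)
    (v := b) ?_ ?_ ((card_le_card (filter_subset _ _)).trans hA) ?_
    (fun d hd => hcov d (Or.inl hd)) (fun d hd => hcov d (Or.inr hd)) ?_ hO n0 n1 n2 n3
  · intro a ha
    obtain ⟨-, -, d, hd⟩ := hA' a (mem_filter.1 ha).1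
    rcases hd with hd | hd | hd
    · exact hd.symm.memv hgd
    · exact hd.symm.memv hgd
    · exact hd.symm.memv hgd
  · rw [disjoint_left]
    intro x hx
    exact (mem_filter.1 hx).2
  · intro a ha
    obtain ⟨-, -, d, hd⟩ := hA' a (mem_filter.1 ha).1
    rcases hd with hd | hd | hd
    · exact ⟨b0, by simp, d, hd.symm⟩
    · exact ⟨b1, by simp, d, hd.symm⟩
    · exact ⟨b2, by simp, d, hd.symm⟩
  · apply mem_union_left
    simp only [mem_insert, mem_singleton]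
    tauto

end Gr

end Pool.Agent.Lib.MP06c549.T6H
end
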