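import Pool.Agent.Lib.MP_06c549_co.T6H.Step5
import Pool.Agent.Lib.MP_06c549_co.T6H.E13
import Pool.Agent.Lib.MP_06c549_co.T6H.RingO
import Pool.Agent.Lib.MP_06c549_co.T6H.Spec

section
/-!
# MP_06c549_co, T6H: lowered weights

`G.low D F` is `G` with the weights of the edges in `D` set to zero and `F` removed from `hs`. For a path `b - s - t - b'` of
vertices of degree two on the outer face `o` and an inner face `F`: the graph with the weights of the
three edges set to zero (`path3`), and the graph in which the path is replaced by one edge of weight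
zero (`path1`), compared with the graph without `s`, `t`.
-/
set_option autoImplicit false

namespace Pool.Agent.Lib.MP06c549.T6H

open Finset

namespace Gr

variable {G : Gr}

/-- the weights of the edges in `D` set to zero, the price of `F` set to 2 -/
def low (G : Gr) (D : Finset ℕ) (F : ℕ) : Gr where
  vs := G.vs
  ds := G.ds
  fs := G.fs
  us := G.us
  p := G.p
  q := G.q
  l := G.l
  r := G.r
  w := fun d => if d ∈ D then 0 else G.w d
  hs := G.hs.erase F
  ns := G.ns

theorem Good.low (hG : G.Good) (D : Finset ℕ) (F : ℕ) : (G.low D F).Good :=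
  ⟨hG.ends, hG.ne, hG.sides, hG.us_sub, hG.us_ne, hG.even, hG.exact, hG.dconn, hG.link, hG.simp,
    hG.bconn⟩

lemma ws_low (D A : Finset ℕ) (F : ℕ) : (G.low D F).ws A = G.ws (A \ D) := by
  unfold ws
  rw [← filter_notMem_eq_sdiff, sum_filter]
  refine sum_congr rfl fun d _ => ?_
  by_cases h : d ∈ D
  · simp [low, h]
  · simp [low, h]

/-- the prices of the faces -/
lemma fpr_low (D Y : Finset ℕ) (F : ℕ) :
    G.fpr Y = (G.low D F).fpr Y + if F ∈ Y ∩ G.hs then 1 else 0 := by
  unfold fpr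
  have h : Y ∩ (G.low D F).hs = (Y ∩ G.hs).erase F := by
    ext i
    simp only [low, mem_inter, mem_erase]
    tauto
  rw [h]
  split_ifs with h1
  · have h2 := card_erase_add_one h1
    omega
  · rw [erase_eq_of_notMem h1, add_zero]

/-- the price if the edges in `D` are bought -/
lemma price_low {D X Y : Finset ℕ} {F : ℕ} (h : ∀ d ∈ D, G.l d ∈ Y ∨ G.r d ∈ Y) :
    G.price X Y = (G.low D F).price X Y + if F ∈ Y ∩ G.hs then 1 else 0 := by
  have h1 : (G.low D F).ws ((G.low D F).nb (G.low D F).ds Y) = G.ws (G.nb G.ds Y) := by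
    rw [ws_low]
    have h2 : ((G.low D F).nb (G.low D F).ds Y) \ D = G.nb G.ds Y := by
      ext d
      rw [mem_sdiff]
      constructor
      · exact fun h3 => h3.1
      · intro h3
        refine ⟨h3, fun h4 => ?_⟩
        obtain ⟨-, h5, h6⟩ := mem_nb.1 h3
        rcases h d h4 with h7 | h7
        · exact h5 h7
        · exact h6 h7
    rw [h2]
  have h8 := fpr_low (G := G) D Y F
  unfold price
  omega

lemma pot_low {D : Finset ℕ} (hD : D ⊆ G.ds) (F a b c : ℕ) :
    (G.low D F).pot a b c + 2 * a * G.ws D = G.pot a b c := by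
  unfold pot
  have h1 : (G.low D F).ws (G.low D F).ds = G.ws (G.ds \ D) := ws_low D G.ds F
  have h2 : G.ws (G.ds \ D) + G.ws D = G.ws G.ds := by
    unfold ws
    exact sum_sdiff hD
  have h3 : (G.low D F).vs = G.vs := rfl
  have h4 : (G.low D F).fs = G.fs := rfl
  have h5 : (G.low D F).cs = G.cs := rfl
  rw [h1, h3, h4, h5, ← h2]
  ring

theorem Cls.low {o m F : ℕ} (hG : G.Cls o m) (hn : G.ns = ∅) {D : Finset ℕ}
    (hD : ∀ d ∈ D, G.S d o F) (h : (G.low D F).Girth) : (G.low D F).Cls o m where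
  good := hG.good.low D F
  girth := h
  hu := hG.hu
  um := hG.um
  bc := hG.bc
  hun := hG.hun
  hsub := fun i hi => hG.hsub (mem_erase.1 hi).2
  nsub := hG.nsub
  hlen := by
    intro i hi
    obtain ⟨h1, h2⟩ := mem_erase.1 hi
    refine (hG.hlen i h2).trans (le_of_eq (sum_congr rfl fun d hd => ?_))
    have h3 : d ∉ D := by
      intro h3
      have h4 := hD d h3
      have h5 : G.l d = i ∨ G.r d = i := (mem_filter.1 hd).2
      have h6 : i ≠ o := by
        rintro rfl
        exact (mem_sdiff.1 (hG.hsub h2)).2 hG.hu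
      unfold S at h4
      omega
    simp only [Gr.low, if_neg h3]
  npend := fun i hi => by
    have hi' : i ∈ G.ns := hi
    rw [hn] at hi'
    exact absurd hi' (notMem_empty i)
  nns := fun i hi => by
    have hi' : i ∈ G.ns := hi
    rw [hn] at hi'
    exact absurd hi' (notMem_empty i)

variable {s t b b' d0 d1 d2 : ℕ}

/-- the parity condition at a vertex -/
lemma sum_star_ite (Z : Finset ℕ) (v : ℕ) :
    ∑ d ∈ G.star v, (if d ∈ Z then (1 : ZMod 2) else 0) =
      ∑ d ∈ Z, (if d ∈ G.star v then (1 : ZMod 2) else 0) := by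
  rw [sum_ite_mem, sum_ite_mem, inter_comm]

/-! ## The path with weights zero -/

/-- the three edges of the path lie in the same even sets -/
lemma Sm.even_path (h : G.Sm s t b b' d0 d1 d2) (hG : G.Good) {Z : Finset ℕ}
    (hev : ∀ v ∈ G.vs, ∑ d ∈ G.star v, (if d ∈ Z then (1 : ZMod 2) else 0) = 0) :
    (d0 ∈ Z ↔ d1 ∈ Z) ∧ (d0 ∈ Z ↔ d2 ∈ Z) := by
  have h1 := hev s (h.e0.memv hG)
  have h2 := hev t (h.e2.memv hG)
  rw [h.ss, sum_pair h.n01.symm] at h1
  rw [h.st, sum_pair h.n02] at h2
  constructor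
  · by_cases h3 : d0 ∈ Z <;> by_cases h4 : d1 ∈ Z
    · exact ⟨fun _ => h4, fun _ => h3⟩
    · simp [h3, h4] at h1
    · simp [h3, h4] at h1
    · exact ⟨fun h5 => absurd h5 h3, fun h5 => absurd h5 h4⟩
  · by_cases h3 : d0 ∈ Z <;> by_cases h4 : d2 ∈ Z
    · exact ⟨fun _ => h4, fun _ => h3⟩
    · simp [h3, h4] at h2
    · simp [h3, h4] at h2
    · exact ⟨fun h5 => absurd h5 h3, fun h5 => absurd h5 h4⟩

lemma Sm.girth_low (h : G.Sm s t b b' d0 d1 d2) (hG : G.Good) (hg : G.Girth) (F : ℕ) :
    (G.low {d0, d1, d2} F).Girth := by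
  intro Z hZ hev hne
  have hev' : ∀ v ∈ G.vs, ∑ d ∈ G.star v, (if d ∈ Z then (1 : ZMod 2) else 0) = 0 := hev
  obtain ⟨h1, h2⟩ := h.even_path hG hev'
  by_cases h0 : d0 ∈ Z
  · -- a further edge at `b`
    have h3 := hev' b (h.e1.memv hG)
    rw [sum_star_ite] at h3
    have h01 : d1 ∈ Z := h1.1 h0
    have h02 : d2 ∈ Z := h2.1 h0
    have hex : ∃ g ∈ Z, g ≠ d0 ∧ g ≠ d1 ∧ g ≠ d2 := by
      by_contra hcon
      push Not at hcon
      have hZe : Z = {d0, d1, d2} := by
        ext g
        rw [mem_insert, mem_insert, mem_singleton]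
        constructor
        · intro hg
          by_cases g0 : g = d0
          · exact Or.inl g0
          by_cases g1 : g = d1
          · exact Or.inr (Or.inl g1)
          exact Or.inr (Or.inr (hcon g hg g0 g1))
        · rintro (rfl | rfl | rfl)
          · exact h0
          · exact h01
          · exact h02
      rw [hZe, sum_insert (by rw [mem_insert, mem_singleton, not_or]; exact ⟨h.n01, h.n02⟩),
        sum_pair h.n12, if_neg, if_pos h.e1.left, if_neg] at h3
      · simp at h3
      · intro h5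
        rcases h.e2.ends h5 with h6 | h6
        · exact h.u_ne_t h6
        · exact h.uv h6
      · intro h5
        rcases h.e0.ends h5 with h6 | h6
        · exact h.u_ne_s hG h6
        · exact h.u_ne_t h6
    obtain ⟨g, hgZ, g0, g1, g2⟩ := hex
    have h4 : ({d0, d1, d2, g} : Finset ℕ) ⊆ Z := by
      intro d hd
      simp only [mem_insert, mem_singleton] at hd
      rcases hd with rfl | rfl | rfl | rfl
      · exact h0
      · exact h01
      · exact h02
      · exact hgZ
    have h5 : ({d0, d1, d2, g} : Finset ℕ).card = 4 := by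
      rw [card_insert_of_notMem, card_insert_of_notMem, card_pair g2.symm]
      · rw [mem_insert, mem_singleton, not_or]
        exact ⟨h.n12, g1.symm⟩
      · rw [mem_insert, mem_insert, mem_singleton, not_or, not_or]
        exact ⟨h.n01, h.n02, g0.symm⟩
    calc 4 = ∑ _d ∈ ({d0, d1, d2, g} : Finset ℕ), 1 := by rw [sum_const, h5]; rfl
      _ ≤ ∑ _d ∈ Z, 1 := sum_le_sum_of_subset h4
      _ ≤ _ := sum_le_sum fun d _ => Nat.le_add_right _ _
  · have h01 : d1 ∉ Z := fun h5 => h0 (h1.2 h5)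
    have h02 : d2 ∉ Z := fun h5 => h0 (h2.2 h5)
    refine le_trans (hg Z hZ hev' hne) (le_of_eq (sum_congr rfl fun d hd => ?_))
    have h3 : d ∉ ({d0, d1, d2} : Finset ℕ) := by
      rw [mem_insert, mem_insert, mem_singleton]
      rintro (rfl | rfl | rfl)
      · exact h0 hd
      · exact h01 hd
      · exact h02 hd
    simp only [Gr.low, if_neg h3]

/-! ## The graph without `s` and `t` -/

section

variable {o F : ℕ}

lemma Sm.tds_eq (h : G.Sm s t b b' d0 d1 d2) : G.tds {s, t} = {d0, d1, d2} := by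
  have h1 : ∀ d, d ∈ G.tds {s, t} ↔ d ∈ G.star s ∨ d ∈ G.star t := by
    intro d
    rw [mem_tds, mem_star, mem_star]
    simp only [mem_insert, mem_singleton]
    tauto
  ext d
  rw [h1, h.at_s, h.at_t, mem_insert, mem_insert, mem_singleton]
  tauto

lemma Sm.sides (h : G.Sm s t b b' d0 d1 d2) (hG : G.Good) (hS : G.S d0 o F) :
    ∀ d ∈ ({d0, d1, d2} : Finset ℕ), G.S d o F := by
  have h1 : G.S d1 o F := by
    have h1 := h.same1 hG
    unfold S at hS ⊢
    omega
  have h2 : G.S d2 o F := by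
    have h2 := h.same2 hG
    unfold S at h1 ⊢
    omega
  intro d hd
  rw [mem_insert, mem_insert, mem_singleton] at hd
  rcases hd with rfl | rfl | rfl
  · exact hS
  · exact h1
  · exact h2

lemma Sm.tf_eq (h : G.Sm s t b b' d0 d1 d2) (hG : G.Good) (hS : G.S d0 o F) :
    G.tf {s, t} = {o, F} := by
  ext i
  rw [mem_tf, h.tds_eq, mem_insert, mem_singleton]
  constructor
  · rintro ⟨d, hd, h1⟩
    have h2 := h.sides hG hS d hd
    unfold S at h2
    omega
  · intro h1
    refine ⟨d0, mem_insert_self _ _, ?_⟩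
    unfold S at hS
    omega

/-- the graph without `s` and `t`: covers -/
lemma Sm.cov_del (h : G.Sm s t b b' d0 d1 d2) (hG : G.Good) (ho : o ∈ G.us) (hS : G.S d0 o F)
    {X Y : Finset ℕ} (hX : X ⊆ G.vs) (hY : Y ⊆ G.fs \ G.us) (hF : F ∉ Y)
    (hc : ∀ d ∈ G.ds \ {d0, d1, d2}, G.p d ∈ X ∨ G.q d ∈ X ∨ G.l d ∈ Y ∨ G.r d ∈ Y) :
    (G.del {s, t} o).IsCov (X \ {s, t}) Y ∧ (G.del {s, t} o).price (X \ {s, t}) Y =
      (X \ {s, t}).card + G.fpr Y + G.ws (G.nb G.ds Y \ {d0, d1, d2}) := by
  have hYt : ∀ i ∈ Y, i ∉ G.tf {s, t} := by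
    intro i hi
    rw [h.tf_eq hG hS, mem_insert, mem_singleton]
    rintro (rfl | rfl)
    · exact (mem_sdiff.1 (hY hi)).2 ho
    · exact hF hi
  have hoY : o ∉ Y := fun h1 => (mem_sdiff.1 (hY h1)).2 ho
  have hphi : ∀ i, G.phi {s, t} o i ∈ Y ↔ i ∈ Y := by
    intro i
    by_cases hi : i ∈ G.tf {s, t}
    · rw [phi_of_mem hi]
      exact ⟨fun h1 => absurd h1 hoY, fun h1 => absurd hi (hYt i h1)⟩
    · rw [phi_of_not hi]
  have hYu : Y ⊆ (G.del {s, t} o).fs \ (G.del {s, t} o).us := by
    intro i hi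
    have h1 := mem_sdiff.1 (hY hi)
    have h2 : i ≠ o := fun h3 => h1.2 (h3 ▸ ho)
    simp only [del, mem_insert, mem_sdiff, not_or]
    exact ⟨Or.inr ⟨h1.1, hYt i hi⟩, h2, fun h3 => h1.2 h3.1⟩
  refine ⟨⟨sdiff_subset_sdiff hX (Subset.refl _), hYu, ?_⟩, ?_⟩
  · intro d hd
    have hd' : d ∈ G.ds \ G.tds {s, t} := hd
    rw [mem_sdiff, mem_tds] at hd'
    have h1 := hc d (by rw [mem_sdiff, ← h.tds_eq, mem_tds]; exact hd')
    have hp : G.p d ∉ ({s, t} : Finset ℕ) := fun h2 => hd'.2 ⟨hd'.1, Or.inl h2⟩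
    have hq : G.q d ∉ ({s, t} : Finset ℕ) := fun h2 => hd'.2 ⟨hd'.1, Or.inr h2⟩
    rcases h1 with h1 | h1 | h1 | h1
    · exact Or.inl (mem_sdiff.2 ⟨h1, hp⟩)
    · exact Or.inr (Or.inl (mem_sdiff.2 ⟨h1, hq⟩))
    · exact Or.inr (Or.inr (Or.inl ((hphi _).2 h1)))
    · exact Or.inr (Or.inr (Or.inr ((hphi _).2 h1)))
  · have h1 : (G.del {s, t} o).nb (G.del {s, t} o).ds Y = G.nb G.ds Y \ {d0, d1, d2} := by
      ext d
      rw [mem_nb, mem_sdiff, mem_nb, ← h.tds_eq]
      simp only [del, hphi, mem_sdiff]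
      tauto
    unfold price
    rw [h1, fpr_del hYu]
    rfl

lemma card_sdiff_pair {X : Finset ℕ} (h : s ∈ X) (h' : t ∈ X) (hne : s ≠ t) :
    (X \ {s, t}).card + 2 = X.card := by
  have h1 := card_sdiff_add_card_eq_card (s := {s, t}) (t := X) (by
    intro a ha
    rw [mem_insert, mem_singleton] at ha
    rcases ha with rfl | rfl
    · exact h
    · exact h')
  rwa [card_pair hne] at h1

lemma card_sdiff_pair_le {X : Finset ℕ} {a : ℕ} (h : a ∈ X) (ha : a = s ∨ a = t) :
    (X \ {s, t}).card + 1 ≤ X.card := by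
  have h1 : (X \ {s, t}) ⊆ X.erase a := by
    intro c hc
    rw [mem_sdiff, mem_insert, mem_singleton, not_or] at hc
    rw [mem_erase]
    refine ⟨?_, hc.1⟩
    rintro rfl
    rcases ha with ha | ha
    · exact hc.2.1 ha
    · exact hc.2.2 ha
  have h2 := card_le_card h1
  have h3 := card_erase_add_one h
  omega

/-- **the path with weights zero** -/
theorem Sm.cost_path3 (h : G.Sm s t b b' d0 d1 d2) (hG : G.Good) (ho : o ∈ G.us)
    (hS : G.S d0 o F) :
    (G.del {s, t} o).tau + 2 ≤ (G.low {d0, d1, d2} F).tau ∨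
      (G.del {s, t} o).cost {b} + 1 ≤ (G.low {d0, d1, d2} F).tau ∨
      (G.del {s, t} o).cost {b'} + 1 ≤ (G.low {d0, d1, d2} F).tau ∨
      G.tau ≤ (G.low {d0, d1, d2} F).tau + if F ∈ G.hs then 1 else 0 := by
  obtain ⟨X, Y, hc, hp⟩ := exists_tau (hG.low {d0, d1, d2} F)
  have hc' : G.IsCov X Y := hc
  by_cases hF : F ∈ Y
  · right; right; right
    have h0 := price_low (G := G) (D := {d0, d1, d2}) (X := X) (Y := Y) (F := F)
    have h1 := h0 ?_
    · have h2 := Gr.tau_le hc'
      have h3 : (if F ∈ Y ∩ G.hs then 1 else 0) = if F ∈ G.hs then 1 else 0 := by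
        simp only [mem_inter, hF, true_and]
      rw [h3, hp] at h1
      omega
    · intro d hd
      have h1 := h.sides hG hS d hd
      unfold S at h1
      rcases h1 with ⟨_, h1⟩ | ⟨h1, _⟩
      · exact Or.inr (by rw [h1]; exact hF)
      · exact Or.inl (by rw [h1]; exact hF)
  · obtain ⟨h1, h2⟩ := h.cov_del hG ho hS hc.1 hc.2.1 hF fun d hd => hc.2.2 d (mem_sdiff.1 hd).1
    have hoY : o ∉ Y := fun h3 => (mem_sdiff.1 (hc'.2.1 h3)).2 ho
    have hpr : (G.low {d0, d1, d2} F).price X Y =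
        X.card + G.fpr Y + G.ws (G.nb G.ds Y \ {d0, d1, d2}) := by
      have h3 := fpr_low (G := G) {d0, d1, d2} Y F
      rw [if_neg fun h4 => hF (mem_inter.1 h4).1, add_zero] at h3
      unfold price
      rw [ws_low, h3]
      rfl
    have hcov : ∀ {d a c : ℕ}, d ∈ ({d0, d1, d2} : Finset ℕ) → G.E d a c → a ∈ X ∨ c ∈ X := by
      intro d a c hd hE
      have h3 := h.sides hG hS d hd
      have h4 : G.l d ∉ Y ∧ G.r d ∉ Y := by
        unfold S at h3
        rcases h3 with ⟨h3, h4⟩ | ⟨h3, h4⟩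
        · rw [h3, h4]; exact ⟨hoY, hF⟩
        · rw [h3, h4]; exact ⟨hF, hoY⟩
      rcases hc'.2.2 d hE.1 with h5 | h5 | h5 | h5
      · rcases hE.2 with ⟨h6, _⟩ | ⟨h6, _⟩
        · exact Or.inl (by rwa [← h6])
        · exact Or.inr (by rwa [← h6])
      · rcases hE.2 with ⟨_, h6⟩ | ⟨_, h6⟩
        · exact Or.inr (by rwa [← h6])
        · exact Or.inl (by rwa [← h6])
      · exact absurd h5 h4.1
      · exact absurd h5 h4.2
    have c0 := hcov (by simp) h.e0
    have c1 := hcov (by simp) h.e1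
    have c2 := hcov (by simp) h.e2
    rw [hpr] at hp
    by_cases hs : s ∈ X
    · by_cases ht : t ∈ X
      · left
        have h3 := card_sdiff_pair hs ht (h.s_ne_t hG)
        have h4 := Gr.tau_le h1
        omega
      · right; right; left
        have hb : b' ∈ X := by
          rcases c2 with h3 | h3
          · exact absurd h3 ht
          · exact h3
        have h3 := card_sdiff_pair_le (s := s) (t := t) hs (Or.inl rfl)
        have h4 := Gr.cost_le (S := {b'}) h1 (by
          rw [singleton_subset_iff, mem_sdiff, mem_insert, mem_singleton, not_or]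
          exact ⟨hb, h.v_ne_s, h.v_ne_t hG⟩)
        omega
    · right; left
      have ht : t ∈ X := by
        rcases c0 with h3 | h3
        · exact absurd h3 hs
        · exact h3
      have hb : b ∈ X := by
        rcases c1 with h3 | h3
        · exact h3
        · exact absurd h3 hs
      have h3 := card_sdiff_pair_le (s := s) (t := t) ht (Or.inr rfl)
      have h4 := Gr.cost_le (S := {b}) h1 (by
        rw [singleton_subset_iff, mem_sdiff, mem_insert, mem_singleton, not_or]
        exact ⟨hb, h.u_ne_s hG, h.u_ne_t⟩)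
      omega

/-- **the path replaced by an edge of weight zero** -/
theorem Sm.cost_path1 (h : G.Sm s t b b' d0 d1 d2) (hG : G.Good) (ho : o ∈ G.us)
    (hS : G.S d0 o F) :
    (G.del {s, t} o).cost {b} ≤ ((G.smooth s t b b' d0 d1 d2).low {d1} F).tau ∨
      (G.del {s, t} o).cost {b'} ≤ ((G.smooth s t b b' d0 d1 d2).low {d1} F).tau ∨
      G.tau ≤ ((G.smooth s t b b' d0 d1 d2).low {d1} F).tau + if F ∈ G.hs then 1 else 0 := by
  obtain ⟨X, Y, hc, hp⟩ := exists_tau ((hG.smooth h).low {d1} F)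
  have hc' : (G.smooth s t b b' d0 d1 d2).IsCov X Y := hc
  have hX : ∀ a ∈ X, a ∈ G.vs ∧ a ≠ s ∧ a ≠ t := fun a ha => Sm.mem_vs'.1 (hc'.1 ha)
  have hY : Y ⊆ G.fs \ G.us := hc'.2.1
  by_cases hF : F ∈ Y
  · right; right
    have h0 := price_low (G := G.smooth s t b b' d0 d1 d2) (D := {d1}) (X := X) (Y := Y) (F := F)
    have h1 := h0 ?_
    · have h2 := Gr.tau_le hc'
      have h4 := h.tau_le hG
      have h3 : (if F ∈ Y ∩ (G.smooth s t b b' d0 d1 d2).hs then 1 else 0) =
          if F ∈ G.hs then 1 else 0 := by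
        have h5 : (G.smooth s t b b' d0 d1 d2).hs = G.hs := rfl
        simp only [h5, mem_inter, hF, true_and]
      rw [h3, hp] at h1
      omega
    · intro d hd
      rw [mem_singleton] at hd
      have h1 := h.sides hG hS d (by rw [hd]; simp)
      unfold S at h1
      change G.l d ∈ Y ∨ G.r d ∈ Y
      rcases h1 with ⟨_, h1⟩ | ⟨h1, _⟩
      · exact Or.inr (by rw [h1]; exact hF)
      · exact Or.inl (by rw [h1]; exact hF)
  · have hoY : o ∉ Y := fun h3 => (mem_sdiff.1 (hY h3)).2 ho
    obtain ⟨h1, h2⟩ := h.cov_del hG ho hS (fun a ha => (hX a ha).1) hY hF (by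
      intro d hd
      rw [mem_sdiff, mem_insert, mem_insert, mem_singleton, not_or, not_or] at hd
      have h3 := hc'.2.2 d (Sm.mem_ds'.2 ⟨hd.1, hd.2.1, hd.2.2.2⟩)
      simp only [Gr.smooth, if_neg hd.2.2.1] at h3
      exact h3)
    have hXs : X \ {s, t} = X := by
      rw [Finset.sdiff_eq_self_iff_disjoint, disjoint_left]
      intro a ha ha'
      rw [mem_insert, mem_singleton] at ha'
      rcases ha' with ha' | ha'
      · exact (hX a ha).2.1 ha'
      · exact (hX a ha).2.2 ha'
    rw [hXs] at h1 h2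
    have hpr : X.card + G.fpr Y + G.ws (G.nb G.ds Y \ {d0, d1, d2}) ≤
        ((G.smooth s t b b' d0 d1 d2).low {d1} F).price X Y := by
      have h6 := fpr_low (G := G.smooth s t b b' d0 d1 d2) {d1} Y F
      rw [if_neg fun h4 => hF (mem_inter.1 h4).1, add_zero] at h6
      have h7 : (G.smooth s t b b' d0 d1 d2).fpr Y = G.fpr Y := rfl
      have h3 : G.ws (G.nb G.ds Y \ {d0, d1, d2}) ≤ ((G.smooth s t b b' d0 d1 d2).low {d1} F).ws
          (((G.smooth s t b b' d0 d1 d2).low {d1} F).nb
            ((G.smooth s t b b' d0 d1 d2).low {d1} F).ds Y) := by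
        rw [ws_low]
        refine le_of_eq ?_
        have h4 : (((G.smooth s t b b' d0 d1 d2).low {d1} F).nb
            ((G.smooth s t b b' d0 d1 d2).low {d1} F).ds Y) \ {d1} =
            G.nb G.ds Y \ {d0, d1, d2} := by
          ext d
          simp only [mem_sdiff, mem_nb, low, smooth, mem_insert, mem_singleton]
          tauto
        rw [h4]
        unfold ws
        refine sum_congr rfl fun d hd => ?_
        have h5 : d ≠ d1 := by
          rintro rfl
          exact (mem_sdiff.1 hd).2 (by simp)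
        simp only [smooth, if_neg h5]
      unfold price
      omega
    have hcd : b ∈ X ∨ b' ∈ X := by
      have h3 := hc'.2.2 d1 h.d1_mem
      have h4 := h.sides hG hS d1 (by simp)
      have h5 : G.l d1 ∉ Y ∧ G.r d1 ∉ Y := by
        unfold S at h4
        rcases h4 with ⟨h4, h5⟩ | ⟨h4, h5⟩
        · rw [h4, h5]; exact ⟨hoY, hF⟩
        · rw [h4, h5]; exact ⟨hF, hoY⟩
      simp only [smooth, if_true] at h3
      rcases h3 with h3 | h3 | h3 | h3
      · exact Or.inl h3
      · exact Or.inr h3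
      · exact absurd h3 h5.1
      · exact absurd h3 h5.2
    rcases hcd with hb | hb
    · left
      have h4 := Gr.cost_le (S := {b}) h1 (singleton_subset_iff.2 hb)
      omega
    · right; left
      have h4 := Gr.cost_le (S := {b'}) h1 (singleton_subset_iff.2 hb)
      omega

/-! ## Potentials -/

lemma ws_three (hn1 : d0 ≠ d1) (hn2 : d0 ≠ d2) (hn3 : d1 ≠ d2) :
    G.ws {d0, d1, d2} = G.w d0 + G.w d1 + G.w d2 := by
  unfold ws
  rw [sum_insert (by rw [mem_insert, mem_singleton, not_or]; exact ⟨hn1, hn2⟩), sum_pair hn3]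
  omega

/-- the potential of the graph without `s` and `t` -/
lemma Sm.pot_del (h : G.Sm s t b b' d0 d1 d2) (hG : G.Good) (hn : G.ns = ∅) (ho : o ∈ G.us)
    (hS : G.S d0 o F) (hF : F ∉ G.us) (a b₀ c : ℕ) :
    (G.del {s, t} o).pot a b₀ c + 2 * a + 2 * a * G.ws {d0, d1, d2} + b₀ = G.pot a b₀ c := by
  have h1 := Gr.pot_del a b₀ c hG (by rw [cs_eq hn]; exact ho) (W := {s, t}) (by
    intro v hv
    rw [mem_insert, mem_singleton] at hv
    rcases hv with rfl | rfl
    · exact h.e0.memv hG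
    · exact h.e2.memv hG)
  rw [cs_eq hn] at h1
  have h2 : G.tf {s, t} \ G.us = {F} := by
    rw [h.tf_eq hG hS]
    ext i
    rw [mem_sdiff, mem_insert, mem_singleton]
    constructor
    · rintro ⟨rfl | h3, h4⟩
      · exact absurd ho h4
      · exact h3
    · rintro rfl
      exact ⟨Or.inr rfl, hF⟩
  have h3 : (G.tf {s, t} ∩ G.us).erase o = ∅ := by
    rw [h.tf_eq hG hS]
    ext i
    rw [mem_erase, mem_inter, mem_insert, mem_singleton]
    constructor
    · rintro ⟨h4, h5 | h5, h6⟩
      · exact absurd h5 h4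
      · rw [h5] at h6
        exact absurd h6 hF
    · intro h4
      exact absurd h4 (notMem_empty i)
  rw [h.tds_eq, h2, h3, card_pair (h.s_ne_t hG), card_singleton, card_empty] at h1
  omega

lemma Sm.pot_path3 (h : G.Sm s t b b' d0 d1 d2) (hG : G.Good) (hn : G.ns = ∅) (ho : o ∈ G.us)
    (hS : G.S d0 o F) (hF : F ∉ G.us) (a b₀ c : ℕ) :
    (G.low {d0, d1, d2} F).pot a b₀ c = (G.del {s, t} o).pot a b₀ c + 2 * a + b₀ := by
  have h1 := h.pot_del hG hn ho hS hF a b₀ c
  have h2 := pot_low (G := G) (D := {d0, d1, d2}) (by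
    intro d hd
    rw [mem_insert, mem_insert, mem_singleton] at hd
    rcases hd with rfl | rfl | rfl
    · exact h.e0.1
    · exact h.e1.1
    · exact h.e2.1) F a b₀ c
  omega

lemma Sm.pot_path1 (h : G.Sm s t b b' d0 d1 d2) (hG : G.Good) (hn : G.ns = ∅) (ho : o ∈ G.us)
    (hS : G.S d0 o F) (hF : F ∉ G.us) (a b₀ c : ℕ) :
    ((G.smooth s t b b' d0 d1 d2).low {d1} F).pot a b₀ c =
      (G.del {s, t} o).pot a b₀ c + b₀ := by
  have h1 := h.pot_del hG hn ho hS hF a b₀ c
  have h2 := pot_low (G := G.smooth s t b b' d0 d1 d2) (D := {d1})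
    (singleton_subset_iff.2 h.d1_mem) F a b₀ c
  rw [h.pot_eq hG] at h2
  have h3 : (G.smooth s t b b' d0 d1 d2).ws {d1} = G.ws {d0, d1, d2} + 1 := by
    rw [ws_three h.n01 h.n02 h.n12]
    unfold ws
    rw [sum_singleton]
    simp only [smooth, if_true]
  rw [h3] at h2
  nlinarith [h1, h2]

/-! ## Girth of the graph with the new edge -/

/-- **the girth of the graph with the path replaced by an edge of weight zero** -/
lemma Sm.girth_path1 (h : G.Sm s t b b' d0 d1 d2) (hG : G.Good) (hg : G.Girth)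
    (h1 : ∀ g, G.E g b b' → 1 ≤ G.w g)
    (h2 : ∀ g g' c, G.E g b c → G.E g' c b' → 1 ≤ G.w g + G.w g') :
    ((G.smooth s t b b' d0 d1 d2).low {d1} F).Girth := by
  intro Z hZ hev hne
  have hG' := hG.smooth h
  by_cases hd : d1 ∈ Z
  swap
  · refine le_trans (hg.smooth hG h Z hZ hev hne) (le_of_eq (sum_congr rfl fun d hdZ => ?_))
    have h3 : d ∉ ({d1} : Finset ℕ) := by
      rw [mem_singleton]
      rintro rfl
      exact hd hdZ
    simp only [low, if_neg h3]
  · have hE1 : (G.smooth s t b b' d0 d1 d2).E d1 b b' := by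
      refine ⟨h.d1_mem, Or.inl ⟨?_, ?_⟩⟩
      · simp only [smooth, if_true]
      · simp only [smooth, if_true]
    -- an edge of the smoothed graph other than `d1`
    have hE : ∀ {g a c : ℕ}, g ≠ d1 → (G.smooth s t b b' d0 d1 d2).E g a c → G.E g a c := by
      intro g a c hg1 hgE
      refine ⟨(Sm.mem_ds'.1 hgE.1).1, ?_⟩
      have h3 := hgE.2
      simp only [smooth, if_neg hg1] at h3
      exact h3
    have hbv : b ∈ (G.smooth s t b b' d0 d1 d2).vs := hE1.memv hG'
    have hbv' : b' ∈ (G.smooth s t b b' d0 d1 d2).vs := hE1.symm.memv hG'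
    have hev' : ∀ v ∈ (G.smooth s t b b' d0 d1 d2).vs,
        ∑ d ∈ Z.erase d1, (if d ∈ (G.smooth s t b b' d0 d1 d2).star v then (1 : ZMod 2) else 0) =
          if v = b ∨ v = b' then 1 else 0 := by
      intro v hv
      have h3 : ∑ d ∈ (G.smooth s t b b' d0 d1 d2).star v, (if d ∈ Z then (1 : ZMod 2) else 0) = 0 :=
        hev v hv
      rw [sum_star_ite, ← add_sum_erase Z _ hd] at h3
      simp only [hE1.mem_star_iff] at h3
      split_ifs at h3 ⊢ with h4
      · have h5 := eq_neg_of_add_eq_zero_right h3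
        rw [h5]
        rfl
      · rw [zero_add] at h3
        exact h3
    have hsum : ∑ d ∈ Z, (1 + 2 * ((G.smooth s t b b' d0 d1 d2).low {d1} F).w d) =
        1 + ∑ d ∈ Z.erase d1, (1 + 2 * G.w d) := by
      rw [← add_sum_erase Z _ hd]
      have h3 : 1 + 2 * ((G.smooth s t b b' d0 d1 d2).low {d1} F).w d1 = 1 := by
        simp only [low, mem_singleton, if_true]
      rw [h3]
      congr 1
      refine sum_congr rfl fun d hd' => ?_
      have h4 := (mem_erase.1 hd').1
      have h5 : d ∉ ({d1} : Finset ℕ) := by rwa [mem_singleton]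
      simp only [low, if_neg h5, smooth, if_neg h4]
    rw [hsum]
    by_contra hcon
    push Not at hcon
    have hcard : (Z.erase d1).card + ∑ d ∈ Z.erase d1, 2 * G.w d ≤ 2 := by
      rw [sum_add_distrib, sum_const, smul_eq_mul, mul_one] at hcon
      omega
    have hmem : ∀ g ∈ Z.erase d1, g ≠ d1 ∧ g ∈ (G.smooth s t b b' d0 d1 d2).ds := fun g hg =>
      ⟨(mem_erase.1 hg).1, hZ (mem_erase.1 hg).2⟩
    have hcase : (Z.erase d1).card = 0 ∨ (Z.erase d1).card = 1 ∨ (Z.erase d1).card = 2 := by omega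
    rcases hcase with h3 | h3 | h3
    · have h4 := hev' b hbv
      rw [card_eq_zero.1 h3, sum_empty, if_pos (Or.inl rfl)] at h4
      exact zero_ne_one h4
    · obtain ⟨g, hgZ⟩ := card_eq_one.1 h3
      have h4 := hev' b hbv
      have h5 := hev' b' hbv'
      have hgm := hmem g (by rw [hgZ]; exact mem_singleton_self _)
      rw [hgZ, sum_singleton] at h4 h5
      rw [if_pos (Or.inl rfl)] at h4
      rw [if_pos (Or.inr rfl)] at h5
      have h6 : g ∈ (G.smooth s t b b' d0 d1 d2).star b := by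
        by_contra h6
        rw [if_neg h6] at h4
        exact zero_ne_one h4
      have h7 : g ∈ (G.smooth s t b b' d0 d1 d2).star b' := by
        by_contra h7
        rw [if_neg h7] at h5
        exact zero_ne_one h5
      obtain ⟨c, hc⟩ := exists_E h6
      rcases hc.ends h7 with h8 | h8
      · exact h.uv h8.symm
      · rw [← h8] at hc
        have h9 := h1 g (hE hgm.1 hc)
        rw [hgZ, sum_singleton, card_singleton] at hcard
        omega
    · obtain ⟨g, g', hne', hgZ⟩ := card_eq_two.1 h3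
      have hw : G.w g = 0 ∧ G.w g' = 0 := by
        rw [hgZ, card_pair hne', sum_pair hne'] at hcard
        omega
      have hgm := hmem g (by rw [hgZ]; simp)
      have hgm' := hmem g' (by rw [hgZ]; simp)
      have key : ∀ v ∈ (G.smooth s t b b' d0 d1 d2).vs,
          (if g ∈ (G.smooth s t b b' d0 d1 d2).star v then (1 : ZMod 2) else 0) +
            (if g' ∈ (G.smooth s t b b' d0 d1 d2).star v then (1 : ZMod 2) else 0) =
          if v = b ∨ v = b' then 1 else 0 := by
        intro v hv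
        rw [← hev' v hv, hgZ, sum_pair hne']
      -- one of the two edges is at `b`
      have main : ∀ k k' : ℕ, k ≠ d1 → k' ≠ d1 → G.w k = 0 → G.w k' = 0 →
          k ∈ (G.smooth s t b b' d0 d1 d2).star b → k' ∉ (G.smooth s t b b' d0 d1 d2).star b →
          (∀ v ∈ (G.smooth s t b b' d0 d1 d2).vs,
          (if k ∈ (G.smooth s t b b' d0 d1 d2).star v then (1 : ZMod 2) else 0) +
            (if k' ∈ (G.smooth s t b b' d0 d1 d2).star v then (1 : ZMod 2) else 0) =
          if v = b ∨ v = b' then 1 else 0) → False := by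
        intro k k' hk hk' wk wk' hkb hkb' hkey
        obtain ⟨c, hc⟩ := exists_E hkb
        have hcb : c ≠ b' := by
          rintro rfl
          have := h1 k (hE hk hc)
          omega
        have hcb2 : c ≠ b := (hc.ne hG').symm
        have h4 := hkey c (hc.symm.memv hG')
        have h4' : ¬ (c = b ∨ c = b') := by
          rintro (h5 | h5)
          · exact hcb2 h5
          · exact hcb h5
        rw [if_pos hc.right, if_neg h4'] at h4
        have h5 : k' ∈ (G.smooth s t b b' d0 d1 d2).star c := by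
          by_contra h5
          rw [if_neg h5, add_zero] at h4
          exact one_ne_zero h4
        have h6 := hkey b' hbv'
        have h7 : k ∉ (G.smooth s t b b' d0 d1 d2).star b' := by
          intro h7
          rcases hc.ends h7 with h8 | h8
          · exact h.uv h8.symm
          · exact hcb h8.symm
        rw [if_neg h7, if_pos (Or.inr rfl), zero_add] at h6
        have h8 : k' ∈ (G.smooth s t b b' d0 d1 d2).star b' := by
          by_contra h8
          rw [if_neg h8] at h6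
          exact zero_ne_one h6
        obtain ⟨e, he⟩ := exists_E h5
        rcases he.ends h8 with h9 | h9
        · exact hcb h9.symm
        · rw [← h9] at he
          have := h2 k k' c (hE hk hc) (hE hk' he)
          omega
      have h4 := key b hbv
      rw [if_pos (Or.inl rfl)] at h4
      by_cases h5 : g ∈ (G.smooth s t b b' d0 d1 d2).star b
      · by_cases h6 : g' ∈ (G.smooth s t b b' d0 d1 d2).star b
        · rw [if_pos h5, if_pos h6] at h4
          exact absurd h4 (by decide)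
        · exact main g g' hgm.1 hgm'.1 hw.1 hw.2 h5 h6 key
      · by_cases h6 : g' ∈ (G.smooth s t b b' d0 d1 d2).star b
        · exact main g' g hgm'.1 hgm.1 hw.2 hw.1 h6 h5 fun v hv => by
            rw [add_comm]; exact key v hv
        · rw [if_neg h5, if_neg h6] at h4
          exact absurd h4 (by decide)

/-! ## The bounds -/

/-- **E plus a path of three edges**: `E = G.del {s, t} o` -/
theorem Sm.bound3 (h : G.Sm s t b b' d0 d1 d2) {a b₀ c N m n : ℕ} (hn : Bnd a b₀ c N m n)
    (hG : G.Cls o m) (hns : G.ns = ∅) (hc : G.vs.card < n) (hS : G.S d0 o F) (hF : F ∉ G.us)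
    (hb : (G.del {s, t} o).tau < (G.del {s, t} o).cost {b})
    (hb' : (G.del {s, t} o).tau < (G.del {s, t} o).cost {b'}) :
    G.tau ≤ (G.del {s, t} o).tau + 1 + (if F ∈ G.hs then 1 else 0) ∨
      N * ((G.del {s, t} o).tau + 2) ≤ (G.del {s, t} o).pot a b₀ c + 2 * a + b₀ := by
  have h1 := hn o _ (hG.low hns (h.sides hG.good hS) (h.girth_low hG.good hG.girth F)) hc
  rw [h.pot_path3 hG.good hns hG.hu hS hF] at h1
  by_cases h2 : (G.del {s, t} o).tau + 2 ≤ (G.low {d0, d1, d2} F).tau
  · exact Or.inr ((Nat.mul_le_mul_left N h2).trans h1)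
  · have h3 := h.cost_path3 hG.good hG.hu hS
    left
    omega

/-- **E plus an edge**: `E = G.del {s, t} o` -/
theorem Sm.bound1 (h : G.Sm s t b b' d0 d1 d2) {a b₀ c N m n : ℕ} (hn : Bnd a b₀ c N m n)
    (hG : G.Cls o m) (hns : G.ns = ∅) (hc : G.vs.card < n) (hS : G.S d0 o F) (hF : F ∉ G.us)
    (h1 : ∀ g, G.E g b b' → 1 ≤ G.w g)
    (h2 : ∀ g g' c, G.E g b c → G.E g' c b' → 1 ≤ G.w g + G.w g')
    (hb : (G.del {s, t} o).tau < (G.del {s, t} o).cost {b})
    (hb' : (G.del {s, t} o).tau < (G.del {s, t} o).cost {b'}) :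
    G.tau ≤ (G.del {s, t} o).tau + (if F ∈ G.hs then 1 else 0) ∨
      N * ((G.del {s, t} o).tau + 1) ≤ (G.del {s, t} o).pot a b₀ c + b₀ := by
  have hcl : ((G.smooth s t b b' d0 d1 d2).low {d1} F).Cls o m :=
    (hG.smooth hns h).low hns (by
      intro d hd
      rw [mem_singleton] at hd
      rw [hd]
      exact h.sides hG.good hS d1 (by simp)) (h.girth_path1 hG.good hG.girth h1 h2)
  have h3 := hn o _ hcl (by
    have h4 := h.card_vs hG.good
    change (G.smooth s t b b' d0 d1 d2).vs.card < n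
    omega)
  rw [h.pot_path1 hG.good hns hG.hu hS hF] at h3
  by_cases h4 : (G.del {s, t} o).tau + 1 ≤ ((G.smooth s t b b' d0 d1 d2).low {d1} F).tau
  · exact Or.inr ((Nat.mul_le_mul_left N h4).trans h3)
  · have h5 := h.cost_path1 hG.good hG.hu hS
    left
    omega

end

end Gr

end Pool.Agent.Lib.MP06c549.T6H
end

section
/-!
# MP_06c549_co, T6H, constant 13: lowered weights in tight graphs, (G2)

A tight graph has no edge set of positive weight which may be lowered to zero without losing the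
girth. So the ends of a path of three edges with two inner vertices of degree two are adjacent or
have a common neighbour, by edges of weight zero. For five faces around `o` it follows that `F j`
has five edges or that `l j` and `r (j + 1)` have a common end.
-/
set_option autoImplicit false

namespace Pool.Agent.Lib.MP06c549.T6H

open Finset

namespace Gr

variable {K : Gr} {a b c N m n u : ℕ}

/-- lowering of the weights of edges between `u` and `F`: the price drops by at most the weight -/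
lemma tau_low_ws (hK : K.Good) {D : Finset ℕ} {F : ℕ} (hD : ∀ d ∈ D, K.S d u F)
    (hw : 1 ≤ K.ws D) : K.tau ≤ (K.low D F).tau + K.ws D := by
  obtain ⟨X, Y, hc, hp⟩ := exists_tau (hK.low D F)
  have hc' : K.IsCov X Y := hc
  have h1 := Gr.tau_le hc'
  by_cases hF : F ∈ Y
  · have h2 := price_low (G := K) (D := D) (X := X) (Y := Y) (F := F) (by
      intro d hd
      rcases hD d hd with ⟨_, h3⟩ | ⟨h3, _⟩
      · exact Or.inr (by rw [h3]; exact hF)
      · exact Or.inl (by rw [h3]; exact hF))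
    have h4 : (if F ∈ Y ∩ K.hs then 1 else 0) ≤ 1 := by split_ifs <;> omega
    omega
  · have h5 := fpr_low (G := K) D Y F
    rw [if_neg fun h4 => hF (mem_inter.1 h4).1, add_zero] at h5
    have h2 : (K.low D F).ws ((K.low D F).nb (K.low D F).ds Y) = K.ws (K.nb K.ds Y \ D) :=
      ws_low D _ F
    have h3 : K.ws (K.nb K.ds Y) ≤ K.ws (K.nb K.ds Y \ D) + K.ws D := by
      unfold ws
      have h4 : ∑ d ∈ K.nb K.ds Y, K.w d ≤ ∑ d ∈ (K.nb K.ds Y \ D) ∪ D, K.w d := by
        refine sum_le_sum_of_subset fun d hd => ?_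
        by_cases h5 : d ∈ D
        · exact mem_union_right _ h5
        · exact mem_union_left _ (mem_sdiff.2 ⟨hd, h5⟩)
      rwa [sum_union sdiff_disjoint] at h4
    unfold price at h1 hp
    omega

/-- in a tight graph no weight can be lowered -/
theorem Tight.not_low (h : Tight a b c N m n u K) (hn : K.ns = ∅) (hN : N < 2 * a)
    {D : Finset ℕ} {F : ℕ} (hD : D ⊆ K.ds) (hS : ∀ d ∈ D, K.S d u F)
    (hw : 1 ≤ K.ws D) (hg : (K.low D F).Girth) : False := by
  have h1 := h.ih u _ (h.cls.low hn hS hg) h.lt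
  have h2 := pot_low hD F a b c
  have h3 := Nat.mul_le_mul_left N (tau_low_ws h.cls.good hS hw)
  have h4 := h.le
  have h5 : N * K.ws D < 2 * a * K.ws D := Nat.mul_lt_mul_of_pos_right hN hw
  rw [mul_add] at h3
  omega

/-- smoothing keeps a graph tight -/
theorem Tight.smooth (h : Tight a b c N m n u K) (hn : K.ns = ∅) {s t v v' d0 d1 d2 : ℕ}
    (hs : K.Sm s t v v' d0 d1 d2) : Tight a b c N m n u (K.smooth s t v v' d0 d1 d2) where
  cls := h.cls.smooth hn hs
  ih := h.ih
  lt := by
    have h1 := hs.card_vs h.cls.good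
    have h2 := h.lt
    omega
  le := by
    rw [hs.pot_eq h.cls.good]
    exact h.le.trans (Nat.mul_le_mul_left N (hs.tau_le h.cls.good))

/-- the ends of a path of three edges with two inner vertices of degree two on `u` are adjacent or
have a common neighbour, by edges of weight zero -/
theorem Tight.two_path (h : Tight a b c N m n u K) (hn : K.ns = ∅) (hN : N < 2 * a)
    {s t v v' d0 d1 d2 F : ℕ} (hs : K.Sm s t v v' d0 d1 d2) (hS : K.S d0 u F) :
    (∃ g, K.E g v v' ∧ K.w g = 0) ∨
      ∃ g g' y, K.E g v y ∧ K.E g' y v' ∧ K.w g = 0 ∧ K.w g' = 0 := by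
  by_contra hcon
  push Not at hcon
  obtain ⟨h1, h2⟩ := hcon
  refine (h.smooth hn hs).not_low hn hN (D := {d1}) (F := F) (singleton_subset_iff.2 hs.d1_mem) ?_ ?_
    (hs.girth_path1 h.cls.good h.cls.girth (fun g hg => ?_) fun g g' y hg hg' => ?_)
  · intro d hd
    exact hs.sides h.cls.good hS d (by rw [mem_singleton.1 hd]; simp)
  · unfold ws
    rw [sum_singleton]
    simp only [Gr.smooth, if_true]
    omega
  · have h3 := h1 g hg
    omega
  · have h3 := h2 g g' y hg hg'
    by_contra h4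
    exact h3 (by omega) (by omega)

/-! ## Edges of a part -/

variable {G : Gr} {o k : ℕ} {x e g F b l r O : ℤ → ℕ}

lemma E.del {W : Finset ℕ} {d v w : ℕ} (h : G.E d v w) (hv : v ∉ W) (hw : w ∉ W) :
    (G.del W o).E d v w := by
  refine ⟨mem_sdiff.2 ⟨h.1, fun h1 => ?_⟩, h.2⟩
  obtain ⟨y, hy, hd⟩ := mem_tds_iff.1 h1
  rcases h.ends hd with rfl | rfl
  · exact hv hy
  · exact hw hy

lemma E.of_del {W : Finset ℕ} {d v w : ℕ} (h : (G.del W o).E d v w) : G.E d v w :=
  ⟨(mem_sdiff.1 h.1).1, h.2⟩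

lemma star_del_eq {W : Finset ℕ} {y d0 d1 d2 : ℕ} (hs : G.star y = {d0, d1, d2})
    (h0 : d0 ∈ G.tds W) (h1 : d1 ∉ G.tds W) (h2 : d2 ∉ G.tds W) :
    (G.del W o).star y = {d1, d2} := by
  rw [star_del, hs]
  ext d
  simp only [mem_sdiff, mem_insert, mem_singleton]
  constructor
  · rintro ⟨rfl | h3 | h3, h4⟩
    · exact absurd h0 h4
    · exact Or.inl h3
    · exact Or.inr h3
  · rintro (rfl | rfl)
    · exact ⟨Or.inr (Or.inl rfl), h1⟩
    · exact ⟨Or.inr (Or.inr rfl), h2⟩

/-! ## The ring -/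

namespace Ring3

section

variable (h : G.Ring3 m o k x e g F b l r O)

include h

lemma win (i : ℤ) : G.FC {x i, x (i - 1), x (i + 1), b i} o ∧
    ({x i, x (i - 1), x (i + 1), b i} : Finset ℕ) ⊆ G.vs :=
  win_fc h.good (h.ring.spk (i - 1)).cub (by simpa using h.ring.spk i)
    (by simpa using (h.ring.spk (i + 1)).cub)

/-- the part is tight -/
lemma tt (i : ℤ) : Tight 7 2 4 13 m G.vs.card o (G.del {x i, x (i - 1), x (i + 1), b i} o) :=
  h.cx.tight (h.win i).2 ⟨x i, by simp⟩ (h.win i).1 (h.tight i).le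

/-- (E1) -/
lemma e1 (i : ℤ) (d : ℕ) : ¬ G.E d (b i) (b (i + 1)) := by
  intro hd
  have h5 := h.k5
  have s0 := h.ring.spk (i - 1)
  have s1 := h.ring.spk i
  have s2 := h.ring.spk (i + 1)
  rw [show i + 1 - 1 = i by ring] at s2
  have hst : (G.star (b (i + 1))).card = 3 := by
    have h1 := h.sp (i + 1)
    rw [h1.st, card_insert_of_notMem, card_pair h1.n3]
    rw [mem_insert, mem_singleton, not_or]
    exact ⟨h1.n1, h1.n2⟩
  exact E1 h.good (by norm_num) (by norm_num) s0.cub s1 s2 (h.tt i)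
    (h.bne (by omega) (by omega)) hst hd

lemma spr (i : ℤ) : G.Sp3 o (x (i + 1)) (e i) (g (i + 1)) (e (i + 1)) (F i) (F (i + 1))
    (b (i + 1)) (l (i + 1)) (r (i + 1)) (O (i + 1)) := by
  have h1 := h.sp (i + 1)
  rwa [show i + 1 - 1 = i by ring] at h1

/-- (E2) -/
lemma e2 (i : ℤ) : O i ≠ O (i + 1) := by
  have h5 := h.k5
  exact E2 h.good (by norm_num) (by norm_num) (h.ring.spk (i - 1)).cub (h.sp i) (h.spr i) (h.tt i)
    (h.bne (by omega) (by omega))

/-- (E3) -/
lemma e3 (i : ℤ) : O i ≠ F (i + 2) := by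
  have h5 := h.k5
  have c3 := (h.spr (i + 1)).spk.cub
  have a3 := h.ring.adj (i + 1)
  rw [show i + 1 + 1 = i + 2 by ring] at c3 a3
  exact E3 h.good (by norm_num) (by norm_num) (h.ring.spk (i - 1)).cub (h.sp i) (h.spr i).spk.cub
    c3 a3 (h.tt i) (h.ring.xne (i := i - 1) (j := i + 2) (by omega) (by omega)).symm
    (h.ring.xne (i := i) (j := i + 2) (by omega) (by omega)).symm

end

/-- **(G2)**: five faces around `o`: the edges `r j`, `l (j + 1)` or the edges `l j`, `r (j + 1)`
have a common end -/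
theorem g2 (h : G.Ring3 m o 5 x e g F b l r O) (j : ℤ) :
    (∃ c, G.E (r j) (b j) c ∧ G.E (l (j + 1)) (b (j + 1)) c) ∨
      ∃ c, G.E (l j) (b j) c ∧ G.E (r (j + 1)) (b (j + 1)) c := by
  have hG := h.good
  have hR := h.ring
  -- the deleted part
  have hx3 : x (j + 2) = x (j - 3) := by
    have h1 := hR.px (j - 3)
    rw [← h1]
    congr 1
    push_cast
    ring
  have ht := h.tt (j - 2)
  rw [show j - 2 - 1 = j - 3 by ring, show j - 2 + 1 = j - 1 by ring] at ht
  generalize hW : ({x (j - 2), x (j - 3), x (j - 1), b (j - 2)} : Finset ℕ) = W at ht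
  have hm : ∀ v, v ∈ W ↔ v = x (j - 2) ∨ v = x (j - 3) ∨ v = x (j - 1) ∨ v = b (j - 2) := by
    intro v
    rw [← hW]
    simp only [mem_insert, mem_singleton]
  have n0 : x j ∉ W := by
    rw [hm]
    rintro (h1 | h1 | h1 | h1)
    · exact hR.xne (i := j - 2) (j := j) (by omega) (by omega) h1.symm
    · exact hR.xne (i := j - 3) (j := j) (by omega) (by omega) h1.symm
    · exact hR.xne (i := j - 1) (j := j) (by omega) (by omega) h1.symm
    · exact hR.bx _ _ h1.symm
  have n1 : x (j + 1) ∉ W := by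
    rw [hm]
    rintro (h1 | h1 | h1 | h1)
    · exact hR.xne (i := j - 2) (j := j + 1) (by omega) (by omega) h1.symm
    · exact hR.xne (i := j - 3) (j := j + 1) (by omega) (by omega) h1.symm
    · exact hR.xne (i := j - 1) (j := j + 1) (by omega) (by omega) h1.symm
    · exact hR.bx _ _ h1.symm
  have nb0 : b j ∉ W := by
    rw [hm]
    rintro (h1 | h1 | h1 | h1)
    · exact hR.bx _ _ h1
    · exact hR.bx _ _ h1
    · exact hR.bx _ _ h1
    · exact h.bne (i := j - 2) (j := j) (by omega) (by omega) h1.symm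
  have nb1 : b (j + 1) ∉ W := by
    rw [hm]
    rintro (h1 | h1 | h1 | h1)
    · exact hR.bx _ _ h1
    · exact hR.bx _ _ h1
    · exact hR.bx _ _ h1
    · exact h.bne (i := j - 2) (j := j + 1) (by omega) (by omega) h1.symm
  have ad := hR.adj j
  have ad1 := hR.adj (j + 1)
  have ad0 := hR.adj (j - 1)
  rw [show j - 1 + 1 = j by ring] at ad0
  rw [show j + 1 + 1 = j + 2 by ring, hx3] at ad1
  have eg0 := hR.eg j
  have eg1 := hR.eg (j + 1)
  have t0 : e (j - 1) ∈ G.tds W := mem_tds_iff.2 ⟨x (j - 1), (hm _).2 (by tauto), ad0.left⟩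
  have t1 : e (j + 1) ∈ G.tds W := mem_tds_iff.2 ⟨x (j - 3), (hm _).2 (by tauto), ad1.right⟩
  have c0 := (hR.spk j).cub
  have c1 := (hR.spk (j + 1)).cub
  rw [show j + 1 - 1 = j by ring] at c1
  have k0 := ad.del (o := o) n0 n1
  have k1 := eg0.del (o := o) n0 nb0
  have k2 := eg1.del (o := o) n1 nb1
  have hbb : b j ≠ b (j + 1) := h.bne (by omega) (by omega)
  have hgg : g j ≠ g (j + 1) := by
    intro h1
    rw [h1] at eg0
    rcases eg1.ends eg0.left with h2 | h2
    · exact hR.xne (i := j) (j := j + 1) (by omega) (by omega) h2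
    · exact hR.bx _ _ h2.symm
  have hsm : (G.del W o).Sm (x j) (x (j + 1)) (b j) (b (j + 1)) (e j) (g j) (g (j + 1)) := by
    refine ⟨k1.symm, k0, k2, ?_, ?_, c0.n3.symm, c1.n1, hgg, hbb⟩
    · exact star_del_eq c0.st t0 (mem_sdiff.1 k1.1).2 (mem_sdiff.1 k0.1).2
    · have hst : G.star (x (j + 1)) = {e (j + 1), e j, g (j + 1)} := by
        rw [c1.st]
        ext d
        simp only [mem_insert, mem_singleton]
        tauto
      exact star_del_eq hst t1 (mem_sdiff.1 k0.1).2 (mem_sdiff.1 k2.1).2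
  -- the face `F j` is not touched
  have hF : F j ∉ G.tf W := by
    intro hF
    obtain ⟨d, hd, hd'⟩ := mem_tf.1 hF
    obtain ⟨v, hv, hdv⟩ := mem_tds_iff.1 hd
    have hvt : G.Touch v (F j) := ⟨d, hdv, hd'⟩
    have hc2 := (hR.spk (j - 2)).cub
    have hc3 := (hR.spk (j - 3)).cub
    have hc1 := (hR.spk (j - 1)).cub
    rw [show j - 2 - 1 = j - 3 by ring] at hc2
    rw [show j - 3 - 1 = j - 4 by ring] at hc3
    rw [show j - 1 - 1 = j - 2 by ring] at hc1
    have f1 := hR.Fne (i := j - 1) (j := j) (by omega) (by omega)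
    have f2 := hR.Fne (i := j - 2) (j := j) (by omega) (by omega)
    have f3 := hR.Fne (i := j - 3) (j := j) (by omega) (by omega)
    have f4 := hR.Fne (i := j - 4) (j := j) (by omega) (by omega)
    rcases (hm v).1 hv with rfl | rfl | rfl | rfl
    · rcases hc2.touch hvt with h1 | h1 | h1
      · exact hR.Fo j h1
      · exact f3 h1.symm
      · exact f2 h1.symm
    · rcases hc3.touch hvt with h1 | h1 | h1
      · exact hR.Fo j h1
      · exact f4 h1.symm
      · exact f3 h1.symm
    · rcases hc1.touch hvt with h1 | h1 | h1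
      · exact hR.Fo j h1
      · exact f2 h1.symm
      · exact f1 h1.symm
    · rcases h.touch_b hvt with h1 | h1 | h1
      · rw [show j - 2 - 1 = j - 3 by ring] at h1
        exact f3 h1.symm
      · exact f2 h1.symm
      · have h2 := h.e3 (j - 2)
        rw [show j - 2 + 2 = j by ring] at h2
        exact h2 h1.symm
  have hS : (G.del W o).S (e j) o (F j) := by
    have h1 := hR.se j
    have h2 : G.phi W o (F j) = F j := phi_of_not hF
    rcases h1 with ⟨h3, h4⟩ | ⟨h3, h4⟩
    · refine Or.inl ⟨?_, ?_⟩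
      · change G.phi W o (G.l (e j)) = o
        rw [h3, phi_u]
      · change G.phi W o (G.r (e j)) = F j
        rw [h4, h2]
    · refine Or.inr ⟨?_, ?_⟩
      · change G.phi W o (G.l (e j)) = F j
        rw [h3, h2]
      · change G.phi W o (G.r (e j)) = o
        rw [h4, phi_u]
  have hns : (G.del W o).ns = ∅ := by
    change G.ns \ G.tf W = ∅
    rw [h.cx.nn, empty_sdiff]
  rcases ht.two_path hns (by norm_num) hsm hS with ⟨d, hd, -⟩ | ⟨d, d', c, hd, hd', -, -⟩
  · exact absurd hd.of_del (h.e1 j d)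
  have hd := hd.of_del
  have hd' := hd'.of_del
  have hs0 := h.star_b j
  have hs1 := h.star_b (j + 1)
  -- `c` is no outer vertex of the two
  have cx0 : c ≠ x j := by
    rintro rfl
    have h1 : d' ∈ G.star (x j) := hd'.left
    rw [c0.st, mem_insert, mem_insert, mem_singleton] at h1
    rcases h1 with rfl | rfl | rfl
    · exact hR.bx _ _ (hd'.other hG ad0.symm)
    · exact hbb (hd'.other hG eg0).symm
    · exact hR.bx _ _ (hd'.other hG ad)
  have cx1 : c ≠ x (j + 1) := by
    rintro rfl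
    have h1 : d ∈ G.star (x (j + 1)) := hd.right
    rw [c1.st, mem_insert, mem_insert, mem_singleton] at h1
    rcases h1 with rfl | rfl | rfl
    · exact hR.bx _ _ (hd.symm.other hG ad.symm)
    · exact hbb (hd.symm.other hG eg1)
    · exact hR.bx _ _ (hd.symm.other hG (hR.adj (j + 1)))
  have m0 : d = l j ∨ d = r j := by
    have h1 : d ∈ G.star (b j) := hd.left
    rw [hs0, mem_insert, mem_insert, mem_singleton] at h1
    rcases h1 with rfl | h1
    · exact absurd (hd.other hG eg0.symm) cx0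
    · exact h1
  have m1 : d' = l (j + 1) ∨ d' = r (j + 1) := by
    have h1 : d' ∈ G.star (b (j + 1)) := hd'.right
    rw [hs1, mem_insert, mem_insert, mem_singleton] at h1
    rcases h1 with rfl | h1
    · exact absurd (hd'.symm.other hG eg1.symm) cx1
    · exact h1
  have sl1 := h.sl (j + 1)
  rw [show j + 1 - 1 = j by ring] at sl1
  rcases m0 with rfl | rfl <;> rcases m1 with rfl | rfl
  · exfalso
    rcases h.J j c ((h.sl j).touch hd.right).1 (sl1.touch hd'.left).1 with h1 | h1
    · exact cx0 h1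
    · exact hd.ne hG h1.symm
  · exact Or.inr ⟨c, hd, hd'.symm⟩
  · exact Or.inl ⟨c, hd, hd'.symm⟩
  · exfalso
    rcases h.J (j + 1) c (by
      rw [show j + 1 - 1 = j by ring]
      exact ((h.sr j).touch hd.right).1) ((h.sr (j + 1)).touch hd'.left).1 with h1 | h1
    · exact cx1 h1
    · exact hd'.ne hG h1

end Ring3

end Gr

end Pool.Agent.Lib.MP06c549.T6H
end

section
/-!
# MP_06c549_co, T6H, constant 13: (E2), (E3) for the outer cycle
-/
set_option autoImplicit false

namespace Pool.Agent.Lib.MP06c549.T6H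

open Finset

namespace Gr

variable {G : Gr} {m o k : ℕ} {x e g F b l r O : ℤ → ℕ}

namespace Ring3

section

variable (h : G.Ring3 m o k x e g F b l r O)

include h

/-- (E3), mirror image -/
lemma e3' (i : ℤ) : O i ≠ F (i - 3) := by
  have h1 := h.symm.e3 (-i)
  simp only [neg_neg] at h1
  rwa [show -(-i + 2) - 1 = i - 3 by ring] at h1

end

/-- `k = 5`: the faces `O i` and `F j` are different -/
lemma OF (h : G.Ring3 m o 5 x e g F b l r O) (i j : ℤ) : O i ≠ F j := by
  have key : ∀ t : ℤ, 0 ≤ t → t < 5 → O i ≠ F (i - 2 + t) := by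
    intro t h1 h2
    have h3 : t = 0 ∨ t = 1 ∨ t = 2 ∨ t = 3 ∨ t = 4 := by omega
    rcases h3 with rfl | rfl | rfl | rfl | rfl
    · rw [show i - 2 + 0 = i - 2 by ring]; exact h.om i
    · rw [show i - 2 + 1 = i - 1 by ring]; exact (h.sp i).o2
    · rw [show i - 2 + 2 = i by ring]; exact (h.sp i).o3
    · rw [show i - 2 + 3 = i + 1 by ring]; exact h.op i
    · rw [show i - 2 + 4 = i + 2 by ring]; exact h.e3 i
  have h1 := key ((j - (i - 2)) % 5) (Int.emod_nonneg _ (by norm_num))
    (Int.emod_lt_of_pos _ (by norm_num))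
  have h2 : F j = F (i - 2 + (j - (i - 2)) % 5) := Ring.per h.ring.pF (by
    have h3 := Int.emod_add_mul_ediv (j - (i - 2)) 5
    push_cast
    refine ⟨-((j - (i - 2)) / 5), ?_⟩
    linarith)
  rwa [← h2] at h1

end Ring3

end Gr

end Pool.Agent.Lib.MP06c549.T6H
end

section
/-!
# MP_06c549_co, T6H, constant 13: at least six outer vertices
-/
set_option autoImplicit false

namespace Pool.Agent.Lib.MP06c549.T6H

open Finset

namespace Gr

open S7a

variable {G : Gr} {o m k : ℕ} {x e g F b l r O : ℤ → ℕ}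

namespace Ring3

/-- the move on seven vertices -/
theorem T2 (h : G.Ring3 m o k x e g F b l r O) (hk : 6 ≤ k) (i : ℤ) (h1 : O (i + 1) ≠ F (i - 3))
    (h2 : O (i - 1) ≠ F (i + 2)) : False := by
  have hg := h.good
  have R := h.ring
  have hfx : ∀ j, x j ∈ G.vs := h.xv
  have hE : ∀ j j', j' = j + 1 → G.E (e j) (x j) (x j') := by
    rintro j j' rfl
    exact h.ee j
  have hWv : ({x (i - 2), x (i - 1), x i, x (i + 1), x (i + 2), b (i - 1), b (i + 1)} :
      Finset ℕ) ⊆ G.vs := by
    intro v hv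
    simp only [mem_insert, mem_singleton] at hv
    rcases hv with rfl | rfl | rfl | rfl | rfl | rfl | rfl
    · exact hfx _
    · exact hfx _
    · exact hfx _
    · exact hfx _
    · exact hfx _
    · exact h.bv _
    · exact h.bv _
  have hFC : G.FC {x (i - 2), x (i - 1), x i, x (i + 1), x (i + 2), b (i - 1), b (i + 1)} o := by
    have e1 : ({x (i - 2), x (i - 1), x i, x (i + 1), x (i + 2), b (i - 1), b (i + 1)} :
        Finset ℕ) = insert (b (i - 1)) (insert (b (i + 1))
          {x (i - 2), x (i - 1), x i, x (i + 1), x (i + 2)}) := by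
      ext v; simp only [mem_insert, mem_singleton]; tauto
    rw [e1]
    refine FC.insert_adj hg ?_ (w := x (i - 1)) (by simp) ⟨g (i - 1), (h.eg _).symm⟩
    refine FC.insert_adj hg ?_ (w := x (i + 1)) (by simp) ⟨g (i + 1), (h.eg _).symm⟩
    exact ((((FC_singleton hg (hfx _) (R.tx _)).insert_out hg (hfx _) (R.tx _)).insert_out hg
      (hfx _) (R.tx _)).insert_out hg (hfx _) (R.tx _)).insert_out hg (hfx _) (R.tx _)
  have hXv : ({x (i - 2), x i, x (i + 2), b (i - 1), b (i + 1)} : Finset ℕ) ⊆ G.vs := by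
    intro v hv
    simp only [mem_insert, mem_singleton] at hv
    rcases hv with rfl | rfl | rfl | rfl | rfl
    · exact hfx _
    · exact hfx _
    · exact hfx _
    · exact h.bv _
    · exact h.bv _
  have tfl : ∀ j, G.Touch (x j) (F (j - 1)) := fun j => (R.spk j).cub.tF
  have tfr : ∀ j, G.Touch (x j) (F j) := fun j => (R.spk j).cub.tF'
  have key := h.cx.move (by norm_num) (by norm_num)
    (W := {x (i - 2), x (i - 1), x i, x (i + 1), x (i + 2), b (i - 1), b (i + 1)})
    (X₀ := {x (i - 2), x i, x (i + 2), b (i - 1), b (i + 1)}) (Y₀ := ∅)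
    (B := {F (i - 3), F (i - 2), F (i - 1), F i, F (i + 1), F (i + 2), O (i - 1), O (i + 1)})
    hWv ⟨x (i - 2), mem_insert_self _ _⟩ hFC hXv (empty_subset _) (by
      intro j hj
      simp only [mem_insert, mem_singleton] at hj
      rw [mem_erase]
      rcases hj with rfl | rfl | rfl | rfl | rfl | rfl | rfl | rfl
      · refine ⟨R.Fo _, mem_tf_touch (v := x (i - 2)) (by simp) ?_⟩
        have h3 := tfl (i - 2)
        rwa [show i - 2 - 1 = i - 3 by ring] at h3
      · exact ⟨R.Fo _, mem_tf_touch (v := x (i - 2)) (by simp) (tfr _)⟩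
      · exact ⟨R.Fo _, mem_tf_touch (v := x (i - 1)) (by simp) (tfr _)⟩
      · exact ⟨R.Fo _, mem_tf_touch (v := x i) (by simp) (tfr _)⟩
      · exact ⟨R.Fo _, mem_tf_touch (v := x (i + 1)) (by simp) (tfr _)⟩
      · exact ⟨R.Fo _, mem_tf_touch (v := x (i + 2)) (by simp) (tfr _)⟩
      · exact ⟨h.Oo _, mem_tf_touch (v := b (i - 1)) (by simp) (h.sp _).tO⟩
      · exact ⟨h.Oo _, mem_tf_touch (v := b (i + 1)) (by simp) (h.sp _).tO⟩)
    (cover_of (by
      intro v hv hvX d hd
      simp only [mem_insert, mem_singleton] at hv hvX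
      have hv' : v = x (i - 1) ∨ v = x (i + 1) := by tauto
      rcases hv' with rfl | rfl
      · rw [R.star_x] at hd
        simp only [mem_insert, mem_singleton] at hd
        rcases hd with rfl | rfl | rfl
        · rw [show i - 1 - 1 = i - 2 by ring]
          exact end_mem (hE (i - 2) (i - 1) (by ring)).symm (by simp)
        · exact end_mem (h.eg _) (by simp)
        · exact end_mem (hE (i - 1) i (by ring)) (by simp)
      · rw [R.star_x] at hd
        simp only [mem_insert, mem_singleton] at hd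
        rcases hd with rfl | rfl | rfl
        · rw [show i + 1 - 1 = i by ring]
          exact end_mem (h.ee i).symm (by simp)
        · exact end_mem (h.eg _) (by simp)
        · exact end_mem (hE (i + 1) (i + 2) (by ring)) (by simp)))
  have xn : ∀ {p q : ℤ}, p < q → q < p + 6 → x p ≠ x q := fun h3 h4 => R.xne h3 (by omega)
  have Fn : ∀ {p q : ℤ}, p < q → q < p + 6 → F p ≠ F q := fun h3 h4 => R.Fne h3 (by omega)
  have bx : ∀ p q, x p ≠ b q := fun p q => (R.bx q p).symm
  have bb : b (i - 1) ≠ b (i + 1) := h.bne (by omega) (by omega)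
  have c1 : ({x (i - 2), x (i - 1), x i, x (i + 1), x (i + 2), b (i - 1), b (i + 1)} :
      Finset ℕ).card = 7 := by
    have x1 : x (i - 2) ≠ x (i - 1) := xn (by omega) (by omega)
    have x2 : x (i - 2) ≠ x i := xn (by omega) (by omega)
    have x3 : x (i - 2) ≠ x (i + 1) := xn (by omega) (by omega)
    have x4 : x (i - 2) ≠ x (i + 2) := xn (by omega) (by omega)
    have x5 : x (i - 1) ≠ x i := xn (by omega) (by omega)
    have x6 : x (i - 1) ≠ x (i + 1) := xn (by omega) (by omega)
    have x7 : x (i - 1) ≠ x (i + 2) := xn (by omega) (by omega)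
    have x8 : x i ≠ x (i + 1) := xn (by omega) (by omega)
    have x9 : x i ≠ x (i + 2) := xn (by omega) (by omega)
    have x10 : x (i + 1) ≠ x (i + 2) := xn (by omega) (by omega)
    rw [card_insert_of_notMem (by simp [x1, x2, x3, x4, bx]),
      card_insert_of_notMem (by simp [x5, x6, x7, bx]),
      card_insert_of_notMem (by simp [x8, x9, bx]), card_insert_of_notMem (by simp [x10, bx]),
      card_insert_of_notMem (by simp [bx]), card_pair bb]
  have c2 : ({x (i - 2), x i, x (i + 2), b (i - 1), b (i + 1)} : Finset ℕ).card ≤ 5 :=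
    card_le_five
  have c3 : ({F (i - 3), F (i - 2), F (i - 1), F i, F (i + 1), F (i + 2), O (i - 1), O (i + 1)} :
      Finset ℕ).card = 8 := by
    have y1 : F (i - 3) ≠ F (i - 2) := Fn (by omega) (by omega)
    have y2 : F (i - 3) ≠ F (i - 1) := Fn (by omega) (by omega)
    have y3 : F (i - 3) ≠ F i := Fn (by omega) (by omega)
    have y4 : F (i - 3) ≠ F (i + 1) := Fn (by omega) (by omega)
    have y5 : F (i - 3) ≠ F (i + 2) := Fn (by omega) (by omega)
    have y6 : F (i - 2) ≠ F (i - 1) := Fn (by omega) (by omega)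
    have y7 : F (i - 2) ≠ F i := Fn (by omega) (by omega)
    have y8 : F (i - 2) ≠ F (i + 1) := Fn (by omega) (by omega)
    have y9 : F (i - 2) ≠ F (i + 2) := Fn (by omega) (by omega)
    have y10 : F (i - 1) ≠ F i := Fn (by omega) (by omega)
    have y11 : F (i - 1) ≠ F (i + 1) := Fn (by omega) (by omega)
    have y12 : F (i - 1) ≠ F (i + 2) := Fn (by omega) (by omega)
    have y13 : F i ≠ F (i + 1) := Fn (by omega) (by omega)
    have y14 : F i ≠ F (i + 2) := Fn (by omega) (by omega)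
    have y15 : F (i + 1) ≠ F (i + 2) := Fn (by omega) (by omega)
    -- the third face at `b (i - 1)`
    have z1 : F (i - 3) ≠ O (i - 1) := by
      have h3 := (h.om (i - 1)).symm
      rwa [show i - 1 - 2 = i - 3 by ring] at h3
    have z2 : F (i - 2) ≠ O (i - 1) := by
      have h3 := (h.sp (i - 1)).o2.symm
      rwa [show i - 1 - 1 = i - 2 by ring] at h3
    have z3 : F (i - 1) ≠ O (i - 1) := (h.sp (i - 1)).o3.symm
    have z4 : F i ≠ O (i - 1) := by
      have h3 := (h.op (i - 1)).symm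
      rwa [show i - 1 + 1 = i by ring] at h3
    have z5 : F (i + 1) ≠ O (i - 1) := by
      have h3 := (h.e3 (i - 1)).symm
      rwa [show i - 1 + 2 = i + 1 by ring] at h3
    have z6 : F (i + 2) ≠ O (i - 1) := h2.symm
    -- the third face at `b (i + 1)`
    have w1 : F (i - 3) ≠ O (i + 1) := h1.symm
    have w2 : F (i - 2) ≠ O (i + 1) := by
      have h3 := (h.e3' (i + 1)).symm
      rwa [show i + 1 - 3 = i - 2 by ring] at h3
    have w3 : F (i - 1) ≠ O (i + 1) := by
      have h3 := (h.om (i + 1)).symm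
      rwa [show i + 1 - 2 = i - 1 by ring] at h3
    have w4 : F i ≠ O (i + 1) := by
      have h3 := (h.sp (i + 1)).o2.symm
      rwa [show i + 1 - 1 = i by ring] at h3
    have w5 : F (i + 1) ≠ O (i + 1) := (h.sp (i + 1)).o3.symm
    have w6 : F (i + 2) ≠ O (i + 1) := by
      have h3 := (h.op (i + 1)).symm
      rwa [show i + 1 + 1 = i + 2 by ring] at h3
    have oo : O (i - 1) ≠ O (i + 1) := by
      have h3 := h.O_ne (i - 1)
      rwa [show i - 1 + 2 = i + 1 by ring] at h3
    rw [card_insert_of_notMem (by simp [y1, y2, y3, y4, y5, z1, w1]),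
      card_insert_of_notMem (by simp [y6, y7, y8, y9, z2, w2]),
      card_insert_of_notMem (by simp [y10, y11, y12, z3, w3]),
      card_insert_of_notMem (by simp [y13, y14, z4, w4]),
      card_insert_of_notMem (by simp [y15, z5, w5]),
      card_insert_of_notMem (by simp [z6, w6]), card_pair oo]
  rw [c1, c3, fpr_empty] at key
  omega

/-- the third face at `b (i + 1)` is not `F (i - 3)` -/
theorem not_B (h : G.Ring3 m o k x e g F b l r O) (hk : 6 ≤ k) (i : ℤ) :
    O (i + 1) ≠ F (i - 3) := by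
  classical
  intro hB
  have hg := h.good
  have R := h.ring
  have Fn : ∀ {p q : ℤ}, p < q → q < p + 6 → F p ≠ F q := fun h3 h4 => R.Fne h3 (by omega)
  obtain ⟨z, hz⟩ := exists_E (h.sp (i + 1)).ml
  have s1 := R.se i
  have s2 := R.se (i - 3)
  have s3 := h.sl (i + 1)
  rw [show i + 1 - 1 = i by ring, hB] at s3
  have n12 : e i ≠ e (i - 3) := (R.ene (by omega) (by omega)).symm
  have n13 : e i ≠ l (i + 1) := by
    intro h1
    rw [h1] at s1
    rcases s1.cases s3 with h2 | h2
    · exact R.Fo _ h2.1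
    · exact R.Fo _ h2.2
  have n23 : e (i - 3) ≠ l (i + 1) := by
    intro h1
    rw [h1] at s2
    rcases s2.cases s3 with h2 | h2
    · exact R.Fo _ h2.1
    · exact R.Fo _ h2.2
  have hKsub : ({e i, e (i - 3), l (i + 1)} : Finset ℕ) ⊆ G.ds := by
    intro d hd
    simp only [mem_insert, mem_singleton] at hd
    rcases hd with rfl | rfl | rfl
    · exact (h.ee _).1
    · exact (h.ee _).1
    · exact hz.1
  have hEv : G.Ev {e i, e (i - 3), l (i + 1)} := by
    intro t
    rw [sum_insert (by simp [n12, n13]), sum_pair n23, s1.sum, s2.sum, s3.sum]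
    have h1 := CharTwo.add_self_eq_zero (t o)
    have h2 := CharTwo.add_self_eq_zero (t (F i))
    have h3 := CharTwo.add_self_eq_zero (t (F (i - 3)))
    linear_combination h1 + h2 + h3
  obtain ⟨f, hf, hf'⟩ := cut_E hg hKsub hEv
  have hK : ∀ d, d ∈ ({e i, e (i - 3), l (i + 1)} : Finset ℕ) ↔
      d = e i ∨ d = e (i - 3) ∨ d = l (i + 1) := by
    intro d; simp only [mem_insert, mem_singleton]
  -- a face without an edge of the cut is on one side
  have hface : ∀ j, j ≠ o → j ≠ F i → j ≠ F (i - 3) → ∀ u v, G.Touch u j → G.Touch v j →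
      f u = f v := by
    intro j j1 j2 j3 u v hu hv
    refine (h.p1.bc j).vert (f := f) (fun d hd hdj => ?_) hu hv
    refine hf d _ _ ⟨hd, Or.inl ⟨rfl, rfl⟩⟩ ?_
    rw [hK]
    rintro (rfl | rfl | rfl)
    · rcases s1.side hdj with h1 | h1
      · exact j1 h1
      · exact j2 h1
    · rcases s2.side hdj with h1 | h1
      · exact j1 h1
      · exact j3 h1
    · rcases s3.side hdj with h1 | h1
      · exact j2 h1
      · exact j3 h1
  -- the edges of the ring in the cut
  have hgj : ∀ j, j < i + 1 → i + 1 < j + k → f (x j) = f (b j) := by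
    intro j j1 j2
    refine hf (g j) _ _ (h.eg j) ?_
    rw [hK]
    rintro (h1 | h1 | h1)
    · rw [← h1] at s1
      rcases (R.sg j).cases s1 with h2 | h2
      · exact R.Fo _ h2.1.symm
      · exact R.Fo _ h2.1.symm
    · rw [← h1] at s2
      rcases (R.sg j).cases s2 with h2 | h2
      · exact R.Fo _ h2.1.symm
      · exact R.Fo _ h2.1.symm
    · rw [← h1] at hz
      rcases (h.eg j).ends hz.left with h2 | h2
      · exact R.bx _ _ h2
      · exact h.bne j1 j2 h2.symm
  have hej : ∀ j, i - 3 < j → j < i → f (x j) = f (x (j + 1)) := by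
    intro j j1 j2
    refine hf (e j) _ _ (h.ee j) ?_
    rw [hK]
    rintro (h1 | h1 | h1)
    · exact R.ene j2 (by omega) h1
    · exact R.ene j1 (by omega) h1.symm
    · have s4 := R.se j
      rw [h1] at s4
      rcases s4.cases s3 with h2 | h2
      · exact R.Fo _ h2.1
      · exact R.Fo _ h2.2
  have hx1 : f (x (i - 2)) = f (x (i - 1)) := by
    have h1 := hej (i - 2) (by omega) (by omega)
    rwa [show i - 2 + 1 = i - 1 by ring] at h1
  have hx2 : f (x (i - 1)) = f (x i) := by
    have h1 := hej (i - 1) (by omega) (by omega)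
    rwa [show i - 1 + 1 = i by ring] at h1
  have hx3 : f (x (i - 3)) ≠ f (x (i - 2)) := by
    have h1 := hf' (e (i - 3)) _ _ (h.ee _) (by rw [hK]; tauto)
    rwa [show i - 3 + 1 = i - 2 by ring] at h1
  have hx4 : f (x i) ≠ f (x (i + 1)) := hf' (e i) _ _ (h.ee _) (by rw [hK]; tauto)
  refine h.T2 hk (i - 1) ?_ ?_
  · rw [show i - 1 + 1 = i by ring, show i - 1 - 3 = i - 4 by ring]
    intro hO
    have t1 : G.Touch (b i) (F (i - 4)) := by rw [← hO]; exact (h.sp i).tO
    have t2 : G.Touch (x (i - 3)) (F (i - 4)) := by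
      have h1 := (R.spk (i - 3)).cub.tF
      rwa [show i - 3 - 1 = i - 4 by ring] at h1
    have h1 := hface _ (R.Fo _) (Fn (by omega) (by omega)) (Fn (by omega) (by omega)) _ _ t1 t2
    rw [← hgj i (by omega) (by omega), ← hx2, ← hx1] at h1
    exact hx3 h1.symm
  · rw [show i - 1 - 1 = i - 2 by ring, show i - 1 + 2 = i + 1 by ring]
    intro hO
    have t1 : G.Touch (b (i - 2)) (F (i + 1)) := by rw [← hO]; exact (h.sp _).tO
    have t2 : G.Touch (x (i + 1)) (F (i + 1)) := (R.spk _).cub.tF'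
    have h1 := hface _ (R.Fo _) (Fn (by omega) (by omega)).symm (Fn (by omega) (by omega)).symm
      _ _ t1 t2
    rw [← hgj (i - 2) (by omega) (by omega), hx1, hx2] at h1
    exact hx4 h1

/-- the third face at `b (i - 1)` is not `F (i + 2)` -/
theorem not_B' (h : G.Ring3 m o k x e g F b l r O) (hk : 6 ≤ k) (i : ℤ) :
    O (i - 1) ≠ F (i + 2) := by
  have h1 := h.symm.not_B hk (-i)
  rwa [show -(-i + 1) = i - 1 by ring, show -(-i - 3) - 1 = i + 2 by ring] at h1

/-- there are not at least six outer vertices -/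
theorem no_six (h : G.Ring3 m o k x e g F b l r O) (hk : 6 ≤ k) : False :=
  h.T2 hk 0 (h.not_B hk 0) (h.not_B' hk 0)

end Ring3

end Gr

end Pool.Agent.Lib.MP06c549.T6H
end

section
/-!
# MP_06c549_co, T6H: the two additions at an outer triangle

`E = G - {x0, x1, x2}`, the inner neighbours `b0`, `b1` of `x0`, `x1` are different and not free in
`E`. `E` with a path of three edges (`Tri.bound3`) or with an edge (`Tri.bound1`) between `b0` and
`b1`, and a new usable face.
-/
set_option autoImplicit false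

namespace Pool.Agent.Lib.MP06c549.T6H

open Finset

namespace Gr

variable {G : Gr} {o x0 x1 x2 e0 e1 e2 g0 g1 g2 F0 F1 F2 b0 b1 m : ℕ}

namespace Tri

/-- rotation -/
lemma rot (h : G.Tri o x0 x1 x2 e0 e1 e2 g0 g1 g2 F0 F1 F2) :
    G.Tri o x1 x2 x0 e1 e2 e0 g1 g2 g0 F1 F2 F0 :=
  ⟨h.c1, h.c2, h.c0, h.a1, h.a2, h.a0, h.n12, h.n20, h.n01, h.m12, h.m20, h.m01⟩

lemma x2v (h : G.Tri o x0 x1 x2 e0 e1 e2 g0 g1 g2 F0 F1 F2) (hG : G.Good) : x2 ∈ G.vs :=
  h.a2.memv hG

lemma x2o (h : G.Tri o x0 x1 x2 e0 e1 e2 g0 g1 g2 F0 F1 F2) : G.Touch x2 o := by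
  refine ⟨e2, h.a2.left, ?_⟩
  have h1 := h.c2.se'
  unfold S at h1
  omega

lemma tds2 : G.tds {x2} = G.star x2 := by
  ext d
  rw [mem_tds, mem_star]
  simp only [mem_singleton]

lemma tf2 (h : G.Tri o x0 x1 x2 e0 e1 e2 g0 g1 g2 F0 F1 F2) {i : ℕ} (hi : i ∈ G.tf {x2}) :
    i = o ∨ i = F1 ∨ i = F2 := by
  obtain ⟨d, hd, h1⟩ := mem_tf.1 hi
  rw [tds2, h.c2.st, mem_insert, mem_insert, mem_singleton] at hd
  have h2 := h.c2.se
  have h3 := h.c2.sg
  have h4 := h.c2.se'
  unfold S at h2 h3 h4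
  rcases hd with rfl | rfl | rfl <;> omega

lemma F0_notMem (h : G.Tri o x0 x1 x2 e0 e1 e2 g0 g1 g2 F0 F1 F2) : F0 ∉ G.tf {x2} := by
  intro h1
  rcases h.tf2 h1 with h2 | h2 | h2
  · exact h.c1.f1 h2
  · exact h.m01 h2
  · exact h.m20 h2.symm

lemma fc (h : G.Tri o x0 x1 x2 e0 e1 e2 g0 g1 g2 F0 F1 F2) (hG : G.Good) : G.FC {x2} o :=
  FC_single hG (h.x2v hG) (Or.inr h.x2o)

/-- the graph without the third vertex of the triangle -/
lemma sm (h : G.Tri o x0 x1 x2 e0 e1 e2 g0 g1 g2 F0 F1 F2)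
    (hb0 : G.E g0 x0 b0) (hb1 : G.E g1 x1 b1) (h0 : b0 ≠ x2) (h1 : b1 ≠ x2) (hne : b0 ≠ b1)
    (h01 : b0 ≠ x1) : (G.del {x2} o).Sm x0 x1 b0 b1 e0 g0 g1 := by
  have hm : ∀ {d a c : ℕ}, G.E d a c → a ≠ x2 → c ≠ x2 → (G.del {x2} o).E d a c := by
    intro d a c hd ha hc
    refine ⟨mem_sdiff.2 ⟨hd.1, ?_⟩, hd.2⟩
    rw [tds2]
    intro h3
    rcases hd.ends h3 with h4 | h4
    · exact ha h4.symm
    · exact hc h4.symm
  have e2x : e2 ∈ G.star x2 := h.a2.left
  have e1x : e1 ∈ G.star x2 := h.a1.right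
  have g0x : g0 ∉ G.star x2 := by
    intro h3
    rcases hb0.ends h3 with h4 | h4
    · exact h.n20 h4
    · exact h0 h4.symm
  have g1x : g1 ∉ G.star x2 := by
    intro h3
    rcases hb1.ends h3 with h4 | h4
    · exact h.n12 h4.symm
    · exact h1 h4.symm
  have e0x : e0 ∉ G.star x2 := by
    intro h3
    rcases h.a0.ends h3 with h4 | h4
    · exact h.n20 h4
    · exact h.n12 h4.symm
  refine ⟨hm hb0.symm h0 h.n20.symm, hm h.a0 h.n20.symm h.n12, hm hb1 h.n12 h1, ?_, ?_, ?_, ?_, ?_,
    hne⟩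
  · rw [star_del, tds2, h.c0.st]
    ext d
    simp only [mem_sdiff, mem_insert, mem_singleton]
    constructor
    · rintro ⟨rfl | h3 | h3, h4⟩
      · exact absurd e2x h4
      · exact Or.inl h3
      · exact Or.inr h3
    · rintro (rfl | rfl)
      · exact ⟨Or.inr (Or.inl rfl), g0x⟩
      · exact ⟨Or.inr (Or.inr rfl), e0x⟩
  · rw [star_del, tds2, h.c1.st]
    ext d
    simp only [mem_sdiff, mem_insert, mem_singleton]
    constructor
    · rintro ⟨h3 | h3 | rfl, h4⟩
      · exact Or.inl h3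
      · exact Or.inr h3
      · exact absurd e1x h4
    · rintro (rfl | rfl)
      · exact ⟨Or.inl rfl, e0x⟩
      · exact ⟨Or.inr (Or.inl rfl), g1x⟩
  · exact h.c0.n3.symm
  · exact h.c1.n1
  · rintro rfl
    have h3 : g0 ∈ G.star x1 := hb1.left
    rcases hb0.ends h3 with h4 | h4
    · exact h.n01 h4.symm
    · exact h01 h4.symm

lemma sides (h : G.Tri o x0 x1 x2 e0 e1 e2 g0 g1 g2 F0 F1 F2) : (G.del {x2} o).S e0 o F0 := by
  have h1 := h.c1.se
  have h2 : G.phi {x2} o F0 = F0 := phi_of_not h.F0_notMem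
  rcases h1 with ⟨h3, h4⟩ | ⟨h3, h4⟩
  · refine Or.inl ⟨?_, ?_⟩
    · change G.phi {x2} o (G.l e0) = o
      rw [h3, phi_u]
    · change G.phi {x2} o (G.r e0) = F0
      rw [h4, h2]
  · refine Or.inr ⟨?_, ?_⟩
    · change G.phi {x2} o (G.l e0) = F0
      rw [h3, h2]
    · change G.phi {x2} o (G.r e0) = o
      rw [h4, phi_u]

lemma del_eq (hG : G.Cls o m) : (G.del {x2} o).del {x0, x1} o = G.del {x0, x1, x2} o := by
  rw [del_del (fun h => (mem_sdiff.1 (hG.hsub h)).2 hG.hu) hG.hun]
  congr 1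
  ext a
  simp only [mem_union, mem_insert, mem_singleton]
  tauto

/-- the cost of `G` and of `G - x2` -/
lemma tau_le (h : G.Tri o x0 x1 x2 e0 e1 e2 g0 g1 g2 F0 F1 F2) (hG : G.Cls o m) :
    G.tau ≤ (G.del {x2} o).tau + 1 + (G.w e1 + G.w g2 + G.w e2) := by
  have hK := hG.del (h.fc hG.good)
  have h1 := cost_del (u := o) (S := ∅) (T := ∅) (X₀ := {x2}) (Y₀ := ∅) hK.good (empty_subset _)
    (singleton_subset_iff.2 (h.x2v hG.good)) (empty_subset _) (empty_subset _) (by
      intro d hd
      rcases (mem_tds.1 hd).2 with h2 | h2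
      · exact Or.inl (mem_union_left _ h2)
      · exact Or.inr (Or.inl (mem_union_left _ h2)))
  rw [nb_empty, card_singleton, fpr_empty, tds2, h.c2.st,
    ws_three h.c2.n1 h.c2.n2 h.c2.n3] at h1
  unfold tau
  omega

/-- **`E` and a path of three edges between `b0` and `b1`** -/
theorem bound3 (h : G.Tri o x0 x1 x2 e0 e1 e2 g0 g1 g2 F0 F1 F2) {a b c N n : ℕ}
    (hn : Bnd a b c N m n) (hG : G.Cls o m) (hns : G.ns = ∅) (hc : G.vs.card ≤ n)
    (hF : F0 ∉ G.us)
    (hb0 : G.E g0 x0 b0) (hb1 : G.E g1 x1 b1) (h0 : b0 ≠ x2) (h1 : b1 ≠ x2) (hne : b0 ≠ b1)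
    (h01 : b0 ≠ x1)
    (hf0 : (G.del {x0, x1, x2} o).tau < (G.del {x0, x1, x2} o).cost {b0})
    (hf1 : (G.del {x0, x1, x2} o).tau < (G.del {x0, x1, x2} o).cost {b1}) :
    G.tau ≤ (G.del {x0, x1, x2} o).tau + 2 + (if F0 ∈ G.hs then 1 else 0) +
        (G.w e1 + G.w g2 + G.w e2) ∨
      N * ((G.del {x0, x1, x2} o).tau + 2) ≤ (G.del {x0, x1, x2} o).pot a b c + 2 * a + b := by
  have hK := hG.del (h.fc hG.good)
  have hcard := del_card (u := o) (singleton_subset_iff.2 (h.x2v hG.good))
  rw [card_singleton] at hcard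
  have hF' : F0 ∉ (G.del {x2} o).us := by
    simp only [del, mem_insert, mem_sdiff, not_or]
    exact ⟨h.c1.f1, fun h3 => hF h3.1⟩
  have hns' : (G.del {x2} o).ns = ∅ := by
    change G.ns \ G.tf {x2} = ∅
    rw [hns, empty_sdiff]
  have hle : (if F0 ∈ (G.del {x2} o).hs then 1 else 0) ≤ if F0 ∈ G.hs then 1 else 0 := by
    have h3 : F0 ∈ (G.del {x2} o).hs → F0 ∈ G.hs := fun h4 => (mem_sdiff.1 h4).1
    split_ifs with h4 h5
    · exact le_rfl
    · exact absurd (h3 h4) h5
    · exact Nat.zero_le _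
    · exact le_rfl
  have key := (h.sm hb0 hb1 h0 h1 hne h01).bound3 hn hK hns' (by omega) h.sides hF'
    (by rw [del_eq hG]; exact hf0) (by rw [del_eq hG]; exact hf1)
  rw [del_eq hG] at key
  have h5 := h.tau_le hG
  rcases key with key | key
  · left
    omega
  · exact Or.inr key

/-- **`E` and an edge between `b0` and `b1`** -/
theorem bound1 (h : G.Tri o x0 x1 x2 e0 e1 e2 g0 g1 g2 F0 F1 F2) {a b c N n : ℕ}
    (hn : Bnd a b c N m n) (hG : G.Cls o m) (hns : G.ns = ∅) (hc : G.vs.card ≤ n)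
    (hF : F0 ∉ G.us)
    (hb0 : G.E g0 x0 b0) (hb1 : G.E g1 x1 b1) (h0 : b0 ≠ x2) (h1 : b1 ≠ x2) (hne : b0 ≠ b1)
    (h01 : b0 ≠ x1)
    (hs1 : ∀ g, G.E g b0 b1 → 1 ≤ G.w g)
    (hs2 : ∀ g g' v, G.E g b0 v → G.E g' v b1 → v ≠ x2 → 1 ≤ G.w g + G.w g')
    (hf0 : (G.del {x0, x1, x2} o).tau < (G.del {x0, x1, x2} o).cost {b0})
    (hf1 : (G.del {x0, x1, x2} o).tau < (G.del {x0, x1, x2} o).cost {b1}) :
    G.tau ≤ (G.del {x0, x1, x2} o).tau + 1 + (if F0 ∈ G.hs then 1 else 0) +
        (G.w e1 + G.w g2 + G.w e2) ∨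
      N * ((G.del {x0, x1, x2} o).tau + 1) ≤ (G.del {x0, x1, x2} o).pot a b c + b := by
  have hK := hG.del (h.fc hG.good)
  have hcard := del_card (u := o) (singleton_subset_iff.2 (h.x2v hG.good))
  rw [card_singleton] at hcard
  have hF' : F0 ∉ (G.del {x2} o).us := by
    simp only [del, mem_insert, mem_sdiff, not_or]
    exact ⟨h.c1.f1, fun h3 => hF h3.1⟩
  have hE : ∀ {d a c : ℕ}, (G.del {x2} o).E d a c → G.E d a c ∧ a ≠ x2 := by
    intro d a c hd
    refine ⟨⟨(mem_sdiff.1 hd.1).1, hd.2⟩, ?_⟩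
    have h3 := hd.memv hK.good
    rintro rfl
    exact (mem_sdiff.1 h3).2 (mem_singleton_self _)
  have hns' : (G.del {x2} o).ns = ∅ := by
    change G.ns \ G.tf {x2} = ∅
    rw [hns, empty_sdiff]
  have hle : (if F0 ∈ (G.del {x2} o).hs then 1 else 0) ≤ if F0 ∈ G.hs then 1 else 0 := by
    have h3 : F0 ∈ (G.del {x2} o).hs → F0 ∈ G.hs := fun h4 => (mem_sdiff.1 h4).1
    split_ifs with h4 h5
    · exact le_rfl
    · exact absurd (h3 h4) h5
    · exact Nat.zero_le _
    · exact le_rfl
  have key := (h.sm hb0 hb1 h0 h1 hne h01).bound1 hn hK hns' (by omega) h.sides hF'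
    (fun g hg => hs1 g (hE hg).1)
    (fun g g' v hg hg' => hs2 g g' v (hE hg).1 (hE hg').1 (hE hg').2)
    (by rw [del_eq hG]; exact hf0) (by rw [del_eq hG]; exact hf1)
  rw [del_eq hG] at key
  have h5 := h.tau_le hG
  rcases key with key | key
  · left
    omega
  · exact Or.inr key

end Tri

end Gr

end Pool.Agent.Lib.MP06c549.T6H
end
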