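import Pool.Agent.Lib.MP_06c549_co.T6H.E13

/-!
# MP_06c549_co, T6H, constant 13: five outer vertices, the last moves (G4), (G5)

`mm i` is the common neighbour of `b i` and `b (i + 1)` on the face `F i`.
-/

set_option autoImplicit false

namespace Pool.Agent.Lib.MP06c549.T6H

open Finset

namespace Gr

open S7a

variable {G : Gr} {o m : ℕ} {x e g F b l r O mm : ℤ → ℕ}

/-- five outer vertices, every `F i` has length five -/
structure Pent (G : Gr) (m o : ℕ) (x e g F b l r O mm : ℤ → ℕ) : Prop where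
  r3 : G.Ring3 m o 5 x e g F b l r O
  o1 : ∀ i, O i ≠ O (i + 1)
  oF : ∀ i, O i ≠ F (i + 2)
  er : ∀ i, G.E (r i) (b i) (mm i)
  el : ∀ i, G.E (l (i + 1)) (b (i + 1)) (mm i)

namespace Pent

variable (h : G.Pent m o x e g F b l r O mm)

include h

lemma good : G.Good := h.r3.good

lemma p1 : G.P1 := h.r3.p1

/-- the faces `O` are different -/
lemma OO {i j : ℤ} (h1 : i < j) (h2 : j < i + 5) : O i ≠ O j := by
  have hO := h.r3.O_ne
  have h5 := h.r3.pO
  rcases (show j = i + 1 ∨ j = i + 2 ∨ j = i + 3 ∨ j = i + 4 by omega) with rfl | rfl | rfl | rfl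
  · exact h.o1 i
  · exact hO i
  · have h3 := hO (i + 3)
    have h4 : i + 3 + 2 = i + ((5 : ℕ) : ℤ) := by push_cast; ring
    rw [h4, h5] at h3
    exact h3.symm
  · have h3 := h.o1 (i + 4)
    have h4 : i + 4 + 1 = i + ((5 : ℕ) : ℤ) := by push_cast; ring
    rw [h4, h5] at h3
    exact h3.symm

/-- no `O` is an `F` -/
lemma OF (i j : ℤ) : O i ≠ F j := by
  intro hij
  have h1 := h.r3.om i
  have h2 := (h.r3.sp i).o2
  have h3 := (h.r3.sp i).o3
  have h4 := h.r3.op i
  have h5 := h.oF i
  have hk : ((5 : ℕ) : ℤ) = 5 := rfl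
  have key : ∀ t : ℤ, (5 : ℤ) ∣ t - j → F j = F t := fun t ht => Ring.per h.r3.ring.pF ht
  rcases (show (5 : ℤ) ∣ i - 2 - j ∨ (5 : ℤ) ∣ i - 1 - j ∨ (5 : ℤ) ∣ i - j ∨ (5 : ℤ) ∣ i + 1 - j ∨
      (5 : ℤ) ∣ i + 2 - j by omega) with h6 | h6 | h6 | h6 | h6
  · exact h1 (hij.trans (key _ h6))
  · exact h2 (hij.trans (key _ h6))
  · exact h3 (hij.trans (key _ h6))
  · exact h4 (hij.trans (key _ h6))
  · exact h5 (hij.trans (key _ h6))

lemma sl (i : ℤ) : G.S (l (i + 1)) (F i) (O (i + 1)) := by
  have h1 := h.r3.sl (i + 1)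
  rwa [show i + 1 - 1 = i by ring] at h1

lemma mv (i : ℤ) : mm i ∈ G.vs := (h.er i).symm.memv h.good

lemma tF (i : ℤ) : G.Touch (mm i) (F i) := ((h.r3.sr i).touch (h.er i).right).1

lemma tO (i : ℤ) : G.Touch (mm i) (O i) := ((h.r3.sr i).touch (h.er i).right).2

lemma tO' (i : ℤ) : G.Touch (mm i) (O (i + 1)) := ((h.sl i).touch (h.el i).right).2

/-- `mm i` is not outer -/
lemma mx (i j : ℤ) : mm i ≠ x j := by
  intro hm
  have h1 := h.tO i
  rw [hm] at h1
  rcases (h.r3.ring.spk j).cub.touch h1 with h2 | h2 | h2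
  · exact h.r3.Oo i h2
  · exact h.OF _ _ h2
  · exact h.OF _ _ h2

lemma mb (i j : ℤ) : mm i ≠ b j := by
  intro hm
  have h1 := h.tO i
  have h2 := h.tO' i
  rw [hm] at h1 h2
  have h3 : O i = O j := by
    rcases h.r3.touch_b h1 with h3 | h3 | h3
    · exact absurd h3 (h.OF _ _)
    · exact absurd h3 (h.OF _ _)
    · exact h3
  have h4 : O (i + 1) = O j := by
    rcases h.r3.touch_b h2 with h3 | h3 | h3
    · exact absurd h3 (h.OF _ _)
    · exact absurd h3 (h.OF _ _)
    · exact h3
  exact h.o1 i (h3.trans h4.symm)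

/-- `mm i` does not touch the neighbouring faces -/
lemma mF (i : ℤ) : ¬ G.Touch (mm i) (F (i + 1)) := by
  intro ht
  have h1 := h.r3.J (i + 1) (mm i) (by rw [show i + 1 - 1 = i by ring]; exact h.tF i) ht
  rcases h1 with h1 | h1
  · exact h.mx _ _ h1
  · exact h.mb _ _ h1

lemma mF' (i : ℤ) : ¬ G.Touch (mm i) (F (i - 1)) := by
  intro ht
  rcases h.r3.J i (mm i) ht (h.tF i) with h1 | h1
  · exact h.mx _ _ h1
  · exact h.mb _ _ h1

lemma m01 : mm 0 ≠ mm 1 := fun hm => h.mF 0 (by rw [hm]; exact h.tF 1)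

lemma m0n : mm 0 ≠ mm (-1) := fun hm => h.mF' 0 (by rw [hm]; exact h.tF (-1))

lemma rl : r 0 ≠ l 1 := by
  intro hrl
  have h1 := h.r3.sr 0
  have h2 := h.sl 0
  rw [show (0 : ℤ) + 1 = 1 by norm_num, ← hrl] at h2
  rcases h1.cases h2 with h3 | h3
  · exact h.OO (i := 0) (j := 1) (by norm_num) (by norm_num) h3.2.symm
  · exact h.OF _ _ h3.1.symm

/-- the face `O j` does not occur at `mm 0` for `j = 2`, `-1` -/
lemma cut {j : ℤ} (hj : j = 2 ∨ j = -1) : ¬ G.Touch (mm 0) (O j) := by
  classical
  intro ht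
  have hg := h.good
  have hR := h.r3.ring
  have hW := h.r3.Wv j
  have hFC := h.r3.hFC j
  have hQ := h.r3.tQ j
  set W : Finset ℕ := {x j, x (j - 1), x (j + 1), b j} with hWdef
  have hF0 : F 0 ∈ G.tf W := by
    rcases hj with rfl | rfl
    · refine mem_tf_touch (v := x (2 - 1)) (by simp [hWdef]) ?_
      rw [show (2 : ℤ) - 1 = 0 + 1 by norm_num]
      have h1 := (hR.spk (0 + 1)).cub.tF
      rwa [show (0 : ℤ) + 1 - 1 = 0 by norm_num] at h1
    · refine mem_tf_touch (v := x (-1 + 1)) (by simp [hWdef]) ?_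
      rw [show (-1 : ℤ) + 1 = 0 by norm_num]
      exact (hR.spk 0).cub.tF'
  have hOj : O j ∈ G.tf W := mem_tf_touch (v := b j) (by simp [hWdef]) (h.r3.sp j).tO
  have hO : ∀ i, O i ≠ O j → O i ∉ G.tf W := by
    intro i hi h1
    obtain ⟨d, hd, h2⟩ := mem_tf.1 h1
    obtain ⟨v, hv, hdv⟩ := mem_tds_iff.1 hd
    have ht' : G.Touch v (O i) := ⟨d, hdv, h2⟩
    have hx : ∀ t, ¬ G.Touch (x t) (O i) := by
      intro t h3
      rcases (hR.spk t).cub.touch h3 with h4 | h4 | h4
      · exact h.r3.Oo i h4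
      · exact h.OF _ _ h4
      · exact h.OF _ _ h4
    simp only [hWdef, mem_insert, mem_singleton] at hv
    rcases hv with rfl | rfl | rfl | rfl
    · exact hx _ ht'
    · exact hx _ ht'
    · exact hx _ ht'
    · rcases h.r3.touch_b ht' with h4 | h4 | h4
      · exact h.OF _ _ h4
      · exact h.OF _ _ h4
      · exact hi h4
  have hO0 : O 0 ∉ G.tf W := hO 0 (by
    rcases hj with rfl | rfl
    · exact h.OO (by norm_num) (by norm_num)
    · exact (h.OO (by norm_num) (by norm_num)).symm)
  have hO1 : O 1 ∉ G.tf W := hO 1 (by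
    rcases hj with rfl | rfl
    · exact h.OO (by norm_num) (by norm_num)
    · exact (h.OO (by norm_num) (by norm_num)).symm)
  have hbW : ∀ i : ℤ, i = 0 ∨ i = 1 → b i ∉ W := by
    intro i hi h1
    simp only [hWdef, mem_insert, mem_singleton] at h1
    rcases h1 with h1 | h1 | h1 | h1
    · exact hR.bx _ _ h1
    · exact hR.bx _ _ h1
    · exact hR.bx _ _ h1
    · rcases hj with rfl | rfl <;> rcases hi with rfl | rfl
      · exact h.r3.bne (i := 0) (j := 2) (by norm_num) (by norm_num) h1
      · exact h.r3.bne (i := 1) (j := 2) (by norm_num) (by norm_num) h1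
      · exact h.r3.bne (i := -1) (j := 0) (by norm_num) (by norm_num) h1.symm
      · exact h.r3.bne (i := -1) (j := 1) (by norm_num) (by norm_num) h1.symm
  have hmW : mm 0 ∉ W := by
    intro h1
    simp only [hWdef, mem_insert, mem_singleton] at h1
    rcases h1 with h1 | h1 | h1 | h1
    · exact h.mx _ _ h1
    · exact h.mx _ _ h1
    · exact h.mx _ _ h1
    · exact h.mb _ _ h1
  have er0 := h.er 0
  have el0 := h.el 0
  rw [show (0 : ℤ) + 1 = 1 by norm_num] at el0
  have nds : ∀ {d v : ℕ}, G.E d v (mm 0) → v ∉ W → d ∉ G.tds W := by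
    intro d v hE hv h1
    obtain ⟨w, hw, hdw⟩ := mem_tds_iff.1 h1
    rcases hE.ends hdw with rfl | rfl
    · exact hv hw
    · exact hmW hw
  have hr : r 0 ∉ G.tds W := nds er0 (hbW 0 (Or.inl rfl))
  have hl : l 1 ∉ G.tds W := nds el0 (hbW 1 (Or.inr rfl))
  have sr0 := h.r3.sr 0
  have sl0 := h.sl 0
  rw [show (0 : ℤ) + 1 = 1 by norm_num] at sl0
  -- the edges between the corners
  obtain ⟨T, hT, hTx⟩ := link_path hg (h.tF 0) ht
  have hEv : (G.del W o).Ev (T \ G.tds W) := by
    intro y
    change ∑ d ∈ T \ G.tds W, (y (G.phi W o (G.l d)) + y (G.phi W o (G.r d))) = 0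
    have h1 := hTx (fun i => y (G.phi W o i))
    rw [← sum_sdiff (inter_subset_left : T ∩ G.tds W ⊆ T), sdiff_inter_self_left] at h1
    have h2 : ∑ d ∈ T ∩ G.tds W, (y (G.phi W o (G.l d)) + y (G.phi W o (G.r d))) = 0 := by
      refine sum_eq_zero fun d hd => ?_
      have hd' := (mem_inter.1 hd).2
      rw [phi_of_mem (l_mem_tf hd'), phi_of_mem (r_mem_tf hd')]
      exact CharTwo.add_self_eq_zero _
    rw [h2, add_zero] at h1
    rw [h1, phi_of_mem hF0, phi_of_mem hOj]
    exact CharTwo.add_self_eq_zero _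
  obtain ⟨f, hf1, hf2⟩ := cut_E hQ.cls.good (K := T \ G.tds W) (by
    intro d hd
    obtain ⟨h1, h2⟩ := mem_sdiff.1 hd
    exact mem_sdiff.2 ⟨star_sub (hT h1), h2⟩) hEv
  have Er : (G.del W o).E (r 0) (mm 0) (b 0) := ⟨mem_sdiff.2 ⟨er0.1, hr⟩, er0.symm.2⟩
  have El : (G.del W o).E (l 1) (mm 0) (b 1) := ⟨mem_sdiff.2 ⟨el0.1, hl⟩, el0.symm.2⟩
  -- exactly one of the two edges is in `T`
  have hone : ¬ (r 0 ∈ T ↔ l 1 ∈ T) := by
    intro hiff
    have h1 := hTx (fun i => if i = F 0 then 1 else 0)
    simp only [if_neg (h.OF j 0), if_true, add_zero] at h1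
    have hz : ∀ d ∈ T, d ∉ ({r 0, l 1} : Finset ℕ) →
        ((if G.l d = F 0 then (1 : ZMod 2) else 0) + if G.r d = F 0 then 1 else 0) = 0 := by
      intro d hd hn
      simp only [mem_insert, mem_singleton, not_or] at hn
      have h2 : G.l d ≠ F 0 ∧ G.r d ≠ F 0 := by
        by_contra hcon
        have h3 : G.l d = F 0 ∨ G.r d = F 0 := by tauto
        have h4 := card_le_cnt (G := G) (v := mm 0) (i := F 0) (T := {r 0, l 1, d}) (by
          intro d' hd'
          simp only [mem_insert, mem_singleton] at hd'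
          rcases hd' with rfl | rfl | rfl
          · exact ⟨er0.right, by rcases sr0 with h5 | h5; exacts [Or.inl h5.1, Or.inr h5.2]⟩
          · exact ⟨el0.right, by rcases sl0 with h5 | h5; exacts [Or.inl h5.1, Or.inr h5.2]⟩
          · exact ⟨hT hd, h3⟩)
        have h5 := h.p1.cnt_le hg (h.mv 0) (F 0)
        rw [card3 h.rl (Ne.symm hn.1) (Ne.symm hn.2)] at h4
        omega
      rw [if_neg h2.1, if_neg h2.2, add_zero]
    have hv1 : ∀ {d i k : ℕ}, G.S d i k → i ≠ k → i = F 0 →
        ((if G.l d = F 0 then (1 : ZMod 2) else 0) + if G.r d = F 0 then 1 else 0) = 1 := by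
      intro d i k hS hik hi
      rcases hS with h2 | h2
      · rw [h2.1, h2.2, if_pos hi, if_neg (fun h3 => hik (hi.trans h3.symm)), add_zero]
      · rw [h2.1, h2.2, if_pos hi, if_neg (fun h3 => hik (hi.trans h3.symm)), zero_add]
    have v1 := hv1 sr0 (h.OF 0 0).symm rfl
    have v2 := hv1 sl0 (h.OF 1 0).symm rfl
    rw [← sum_sdiff (inter_subset_left : T ∩ {r 0, l 1} ⊆ T), sdiff_inter_self_left,
      sum_eq_zero (fun d hd => hz d (mem_sdiff.1 hd).1 (mem_sdiff.1 hd).2), zero_add] at h1
    by_cases hrT : r 0 ∈ T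
    · have hlT := hiff.1 hrT
      have h2 : T ∩ {r 0, l 1} = {r 0, l 1} := by
        rw [inter_eq_right]
        intro d hd
        simp only [mem_insert, mem_singleton] at hd
        rcases hd with rfl | rfl
        · exact hrT
        · exact hlT
      rw [h2, sum_pair h.rl, v1, v2] at h1
      exact absurd h1 (by decide)
    · have hlT : l 1 ∉ T := fun h2 => hrT (hiff.2 h2)
      have h2 : T ∩ {r 0, l 1} = ∅ := by
        rw [eq_empty_iff_forall_notMem]
        intro d hd
        obtain ⟨h3, h4⟩ := mem_inter.1 hd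
        simp only [mem_insert, mem_singleton] at h4
        rcases h4 with rfl | rfl
        · exact hrT h3
        · exact hlT h3
      rw [h2, sum_empty] at h1
      exact absurd h1 (by decide)
  have hne : f (b 0) ≠ f (b 1) := by
    have two : ∀ p q s : ZMod 2, p ≠ q → p = s → q ≠ s := by decide
    by_cases hrT : r 0 ∈ T
    · have hlT : l 1 ∉ T := fun h2 => hone ⟨fun _ => h2, fun _ => hrT⟩
      exact two _ _ _ (hf2 _ _ _ Er (mem_sdiff.2 ⟨hrT, hr⟩))
        (hf1 _ _ _ El fun h2 => hlT (mem_sdiff.1 h2).1)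
    · have hlT : l 1 ∈ T := by
        by_contra h2
        exact hone ⟨fun h3 => absurd h3 hrT, fun h3 => absurd h3 h2⟩
      exact (two _ _ _ (hf2 _ _ _ El (mem_sdiff.2 ⟨hlT, hl⟩))
        (hf1 _ _ _ Er fun h2 => hrT (mem_sdiff.1 h2).1)).symm
  have hcv : (G.del W o).CutV o (mm 0) f := by
    refine ⟨⟨r 0, Er.left, ?_⟩, ?_, ?_⟩
    · change G.phi W o (G.l (r 0)) = o ∨ G.phi W o (G.r (r 0)) = o
      rcases sr0 with h1 | h1
      · left; rw [h1.1]; exact phi_of_mem hF0
      · right; rw [h1.2]; exact phi_of_mem hF0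
    · intro i hi hio
      have hiW : i ∉ G.tf W := by
        rcases mem_insert.1 hi with h1 | h1
        · exact absurd h1 hio
        · exact (mem_sdiff.1 h1).2
      refine le_trans ?_ (h.p1.cnt_le hg (h.mv 0) i)
      unfold cnt
      refine Nat.add_le_add (card_le_card ?_) (card_le_card ?_)
      · intro d hd
        obtain ⟨h1, h2⟩ := mem_filter.1 hd
        rw [star_del] at h1
        refine mem_filter.2 ⟨(mem_sdiff.1 h1).1, ?_⟩
        change G.phi W o (G.l d) = i at h2
        by_cases h3 : G.l d ∈ G.tf W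
        · rw [phi_of_mem h3] at h2
          exact absurd h2.symm hio
        · rwa [phi_of_not h3] at h2
      · intro d hd
        obtain ⟨h1, h2⟩ := mem_filter.1 hd
        rw [star_del] at h1
        refine mem_filter.2 ⟨(mem_sdiff.1 h1).1, ?_⟩
        change G.phi W o (G.r d) = i at h2
        by_cases h3 : G.r d ∈ G.tf W
        · rw [phi_of_mem h3] at h2
          exact absurd h2.symm hio
        · rwa [phi_of_not h3] at h2
    · intro d hd hds
      refine hf1 d _ _ ⟨hd, Or.inl ⟨rfl, rfl⟩⟩ fun h2 => hds ?_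
      obtain ⟨h3, h4⟩ := mem_sdiff.1 h2
      rw [star_del]
      exact mem_sdiff.2 ⟨hT h3, h4⟩
  refine hQ.not_cv (by norm_num) (by norm_num) (by norm_num) hcv Er (i := O 0) ?_ (h.r3.Oo 0) El
    (i' := O 1) ?_ (h.r3.Oo 1) hne
  · change G.phi W o (G.l (r 0)) = O 0 ∨ G.phi W o (G.r (r 0)) = O 0
    rcases sr0 with h1 | h1
    · right; rw [h1.2]; exact phi_of_not hO0
    · left; rw [h1.1]; exact phi_of_not hO0
  · change G.phi W o (G.l (l 1)) = O 1 ∨ G.phi W o (G.r (l 1)) = O 1
    rcases sl0 with h1 | h1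
    · right; rw [h1.2]; exact phi_of_not hO1
    · left; rw [h1.1]; exact phi_of_not hO1

/-- the common neighbour, in terms of `0` and `1` -/
lemma el' (i : ℤ) : G.E (l i) (b i) (mm (i - 1)) := by
  have h1 := h.el (i - 1)
  rwa [show i - 1 + 1 = i by ring] at h1

lemma FCx {W : Finset ℕ} (hW : G.FC W o) (i : ℤ) : G.FC (insert (x i) W) o :=
  FC.insert_out h.good hW (h.r3.xv i) (h.r3.ring.tx i)

lemma FCb {W : Finset ℕ} (hW : G.FC W o) {i : ℤ} (hi : x i ∈ W) : G.FC (insert (b i) W) o :=
  FC.insert_adj h.good hW hi ⟨g i, (h.r3.eg i).symm⟩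

/-- (G5): the vertex `mm 0` has degree three -/
lemma g5 (h4 : 4 ≤ (G.star (mm 0)).card) : False := by
  classical
  have hg := h.good
  have hR := h.r3.ring
  -- a further face
  obtain ⟨i, hi, hi0, hi1, hi2⟩ : ∃ i, G.Touch (mm 0) i ∧ i ≠ F 0 ∧ i ≠ O 0 ∧ i ≠ O 1 := by
    by_contra hcon
    push Not at hcon
    have h1 : G.fv (mm 0) ⊆ {F 0, O 0, O 1} := by
      intro i hi
      have h2 := mem_fv.1 hi
      simp only [mem_insert, mem_singleton]
      by_contra h3
      push Not at h3
      exact h3.2.2 (hcon i h2 h3.1 h3.2.1)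
    have h2 := (card_le_card h1).trans card_le_three
    have h3 := h.p1.card_fv hg (h.mv 0)
    omega
  have hi3 : i ≠ O 2 := fun h1 => h.cut (Or.inl rfl) (h1 ▸ hi)
  have hi4 : i ≠ O (-1) := fun h1 => h.cut (Or.inr rfl) (h1 ▸ hi)
  have hi5 : i ≠ F 1 := fun h1 => h.mF 0 (by rw [show (0 : ℤ) + 1 = 1 by norm_num, ← h1]; exact hi)
  have hi6 : i ≠ F (-1) :=
    fun h1 => h.mF' 0 (by rw [show (0 : ℤ) - 1 = -1 by norm_num, ← h1]; exact hi)
  have hio : i ≠ o := by
    rintro rfl
    obtain ⟨t, ht⟩ := hR.allx _ hi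
    exact h.mx _ _ ht.symm
  set M : Finset ℕ := {mm (-1), mm 0, mm 1} with hM
  have hMc : M.card ≤ 3 := card_le_three
  have hMx : ∀ t, x t ∉ M := by
    intro t h1
    simp only [hM, mem_insert, mem_singleton] at h1
    rcases h1 with h1 | h1 | h1 <;> exact h.mx _ _ h1.symm
  have hMb : ∀ t, b t ∉ M := by
    intro t h1
    simp only [hM, mem_insert, mem_singleton] at h1
    rcases h1 with h1 | h1 | h1 <;> exact h.mb _ _ h1.symm
  have hMv : ∀ v ∈ M, v ∈ G.vs := by
    intro v h1
    simp only [hM, mem_insert, mem_singleton] at h1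
    rcases h1 with rfl | rfl | rfl <;> exact h.mv _
  have n01 : x 0 ≠ x 1 := hR.xne (by norm_num) (by norm_num)
  have nb01 : b 0 ≠ b 1 := h.r3.bne (by norm_num) (by norm_num)
  have hWc : (insert (x 0) (insert (x 1) (insert (b 0) (insert (b 1) M)))).card = M.card + 4 := by
    rw [card_insert_of_notMem, card_insert_of_notMem, card_insert_of_notMem,
      card_insert_of_notMem (hMb 1)]
    · simp only [mem_insert, not_or]; exact ⟨nb01, hMb 0⟩
    · simp only [mem_insert, not_or]
      exact ⟨(hR.bx _ _).symm, (hR.bx _ _).symm, hMx 1⟩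
    · simp only [mem_insert, not_or]
      exact ⟨n01, (hR.bx _ _).symm, (hR.bx _ _).symm, hMx 0⟩
  have hXc : (insert (x 0) (insert (x 1) M)).card ≤ M.card + 2 := by
    have h1 := card_insert_le (x 0) (insert (x 1) M)
    have h2 := card_insert_le (x 1) M
    omega
  have er0 := h.er 0
  have er1 := h.er 1
  have el0 := h.el' 0
  have el1 := h.el' 1
  rw [show (0 : ℤ) - 1 = -1 by norm_num] at el0
  rw [show (1 : ℤ) - 1 = 0 by norm_num] at el1
  have hFC : G.FC (insert (x 0) (insert (x 1) (insert (b 0) (insert (b 1) M)))) o := by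
    have h1 : G.FC (insert (b 1) (insert (b 0) (insert (x 1) {x 0}))) o :=
      h.FCb (h.FCb (h.FCx (FC_singleton hg (h.r3.xv 0) (hR.tx 0)) 1) (by simp)) (by simp)
    have h2 := (((h1.insert_adj hg (v := mm (-1)) (w := b 0) (by simp) ⟨l 0, el0.symm⟩).insert_adj
      hg (v := mm 0) (w := b 0) (by simp) ⟨r 0, er0.symm⟩).insert_adj hg (v := mm 1) (w := b 1)
      (by simp) ⟨r 1, er1.symm⟩)
    convert h2 using 1
    ext v
    simp only [hM, mem_insert, mem_singleton]
    exact iff_of_eq (by ac_rfl)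
  have tm : ∀ {v j : ℕ}, v ∈ M → G.Touch v j →
      j ∈ G.tf (insert (x 0) (insert (x 1) (insert (b 0) (insert (b 1) M)))) := fun hv ht =>
    mem_tf_touch (mem_insert_of_mem (mem_insert_of_mem (mem_insert_of_mem
      (mem_insert_of_mem hv)))) ht
  have m0 : mm 0 ∈ M := by simp [hM]
  have m1 : mm 1 ∈ M := by simp [hM]
  have mn : mm (-1) ∈ M := by simp [hM]
  have t0 := h.tO' 0
  have t1 := h.tO' 1
  rw [show (0 : ℤ) + 1 = 1 by norm_num] at t0
  rw [show (1 : ℤ) + 1 = 2 by norm_num] at t1
  have key := h.r3.cx.move (by norm_num) (by norm_num)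
    (W := insert (x 0) (insert (x 1) (insert (b 0) (insert (b 1) M))))
    (X₀ := insert (x 0) (insert (x 1) M)) (Y₀ := ∅)
    (B := insert i (insert (F (-1)) (insert (F 0) (insert (F 1) {O (-1), O 0, O 1, O 2}))))
    (by
      intro v hv
      simp only [mem_insert] at hv
      rcases hv with rfl | rfl | rfl | rfl | hv
      · exact h.r3.xv _
      · exact h.r3.xv _
      · exact h.r3.bv _
      · exact h.r3.bv _
      · exact hMv v hv)
    ⟨x 0, mem_insert_self _ _⟩ hFC
    (by
      intro v hv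
      simp only [mem_insert] at hv
      rcases hv with rfl | rfl | hv
      · exact h.r3.xv _
      · exact h.r3.xv _
      · exact hMv v hv)
    (empty_subset _)
    (by
      intro j hj
      simp only [mem_insert, mem_singleton] at hj
      rw [mem_erase]
      rcases hj with rfl | rfl | rfl | rfl | rfl | rfl | rfl | rfl
      · exact ⟨hio, tm m0 hi⟩
      · exact ⟨hR.Fo _, tm mn (h.tF (-1))⟩
      · exact ⟨hR.Fo _, tm m0 (h.tF 0)⟩
      · exact ⟨hR.Fo _, tm m1 (h.tF 1)⟩
      · exact ⟨h.r3.Oo _, tm mn (h.tO (-1))⟩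
      · exact ⟨h.r3.Oo _, tm m0 (h.tO 0)⟩
      · exact ⟨h.r3.Oo _, tm m0 t0⟩
      · exact ⟨h.r3.Oo _, tm m1 t1⟩)
    (cover_of (by
      intro v hv hvX d hd
      simp only [mem_insert] at hv
      have hv' : v = b 0 ∨ v = b 1 := by
        rcases hv with rfl | rfl | h1 | h1 | h1
        · exact absurd (mem_insert_self _ _) hvX
        · exact absurd (mem_insert_of_mem (mem_insert_self _ _)) hvX
        · exact Or.inl h1
        · exact Or.inr h1
        · exact absurd (mem_insert_of_mem (mem_insert_of_mem h1)) hvX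
      have hMX : ∀ {v}, v ∈ M → v ∈ insert (x 0) (insert (x 1) M) :=
        fun h1 => mem_insert_of_mem (mem_insert_of_mem h1)
      rcases hv' with rfl | rfl
      · rw [h.r3.star_b] at hd
        simp only [mem_insert, mem_singleton] at hd
        rcases hd with rfl | rfl | rfl
        · exact end_mem (h.r3.eg 0).symm (by simp)
        · exact end_mem el0 (hMX mn)
        · exact end_mem er0 (hMX m0)
      · rw [h.r3.star_b] at hd
        simp only [mem_insert, mem_singleton] at hd
        rcases hd with rfl | rfl | rfl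
        · exact end_mem (h.r3.eg 1).symm (by simp)
        · exact end_mem el1 (hMX m0)
        · exact end_mem er1 (hMX m1)))
  have hBc : (insert i (insert (F (-1)) (insert (F 0) (insert (F 1)
      ({O (-1), O 0, O 1, O 2} : Finset ℕ))))).card = 8 := by
    rw [card_insert_of_notMem, card_insert_of_notMem, card_insert_of_notMem,
      card_insert_of_notMem, card4]
    · exact h.OO (by norm_num) (by norm_num)
    · exact h.OO (by norm_num) (by norm_num)
    · exact h.OO (by norm_num) (by norm_num)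
    · exact h.OO (by norm_num) (by norm_num)
    · exact h.OO (by norm_num) (by norm_num)
    · exact h.OO (by norm_num) (by norm_num)
    · simp only [mem_insert, mem_singleton, not_or]
      exact ⟨(h.OF _ _).symm, (h.OF _ _).symm, (h.OF _ _).symm, (h.OF _ _).symm⟩
    · simp only [mem_insert, mem_singleton, not_or]
      exact ⟨hR.Fne (by norm_num) (by norm_num), (h.OF _ _).symm, (h.OF _ _).symm,
        (h.OF _ _).symm, (h.OF _ _).symm⟩
    · simp only [mem_insert, mem_singleton, not_or]
      exact ⟨hR.Fne (by norm_num) (by norm_num), hR.Fne (by norm_num) (by norm_num),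
        (h.OF _ _).symm, (h.OF _ _).symm, (h.OF _ _).symm, (h.OF _ _).symm⟩
    · simp only [mem_insert, mem_singleton, not_or]
      exact ⟨hi6, hi0, hi5, hi4, hi1, hi2, hi3⟩
  rw [hWc, hBc, fpr_empty] at key
  omega

/-- the face `F 0` is a pentagon with weights zero, so it has price two -/
lemma hs0 : F 0 ∉ G.hs := by
  classical
  intro hhs
  have hg := h.good
  have hR := h.r3.ring
  have er0 := h.er 0
  have el1 := h.el' 1
  rw [show (1 : ℤ) - 1 = 0 by norm_num] at el1
  have sr0 := h.r3.sr 0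
  have sl1 := h.sl 0
  rw [show (0 : ℤ) + 1 = 1 by norm_num] at sl1
  have e1 : e (1 - 1) = e 0 := by rw [show (1 : ℤ) - 1 = 0 by norm_num]
  have e0 : ∀ φ : ℤ → ℕ, φ (0 - 1) = φ (-1) := fun φ => by
    rw [show (0 : ℤ) - 1 = -1 by norm_num]
  have hst : ∀ v ∈ ({x 0, x 1, b 0, b 1, mm 0} : Finset ℕ), ∀ d ∈ G.star v,
      (G.l d = F 0 ∨ G.r d = F 0) → d ∈ ({e 0, g 0, g 1, r 0, l 1} : Finset ℕ) := by
    intro v hv d hd hi
    simp only [mem_insert, mem_singleton] at hv ⊢
    rcases hv with rfl | rfl | rfl | rfl | rfl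
    · rw [hR.star_x] at hd
      simp only [mem_insert, mem_singleton] at hd
      rcases hd with rfl | rfl | rfl
      · exfalso
        rcases (hR.se (0 - 1)).side hi with h1 | h1
        · exact hR.Fo _ h1
        · exact hR.Fne (i := -1) (j := 0) (by norm_num) (by norm_num) (by
            rw [show (0 : ℤ) - 1 = -1 by norm_num] at h1; exact h1.symm)
      · tauto
      · tauto
    · rw [hR.star_x] at hd
      simp only [mem_insert, mem_singleton] at hd
      rcases hd with rfl | rfl | rfl
      · rw [e1]; tauto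
      · tauto
      · exfalso
        rcases (hR.se 1).side hi with h1 | h1
        · exact hR.Fo _ h1
        · exact hR.Fne (i := 0) (j := 1) (by norm_num) (by norm_num) h1
    · rw [h.r3.star_b] at hd
      simp only [mem_insert, mem_singleton] at hd
      rcases hd with rfl | rfl | rfl
      · tauto
      · exfalso
        rcases (h.r3.sl 0).side hi with h1 | h1
        · exact hR.Fne (i := -1) (j := 0) (by norm_num) (by norm_num) (by
            rw [show (0 : ℤ) - 1 = -1 by norm_num] at h1; exact h1.symm)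
        · exact h.OF _ _ h1.symm
      · tauto
    · rw [h.r3.star_b] at hd
      simp only [mem_insert, mem_singleton] at hd
      rcases hd with rfl | rfl | rfl
      · tauto
      · tauto
      · exfalso
        rcases (h.r3.sr 1).side hi with h1 | h1
        · exact hR.Fne (i := 0) (j := 1) (by norm_num) (by norm_num) h1
        · exact h.OF _ _ h1.symm
    · by_contra hn
      push Not at hn
      have h4 := card_le_cnt (G := G) (v := mm 0) (i := F 0) (T := {r 0, l 1, d}) (by
        intro d' hd'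
        simp only [mem_insert, mem_singleton] at hd'
        rcases hd' with rfl | rfl | rfl
        · exact ⟨er0.right, by rcases sr0 with h5 | h5; exacts [Or.inl h5.1, Or.inr h5.2]⟩
        · exact ⟨el1.right, by rcases sl1 with h5 | h5; exacts [Or.inl h5.1, Or.inr h5.2]⟩
        · exact ⟨hd, hi⟩)
      have h5 := h.p1.cnt_le hg (h.mv 0) (F 0)
      rw [card3 h.rl (Ne.symm hn.2.2.2.1) (Ne.symm hn.2.2.2.2)] at h4
      omega
  have hen : ∀ d ∈ ({e 0, g 0, g 1, r 0, l 1} : Finset ℕ), ∀ v, d ∈ G.star v →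
      v ∈ ({x 0, x 1, b 0, b 1, mm 0} : Finset ℕ) := by
    intro d hd v hv
    simp only [mem_insert, mem_singleton] at hd ⊢
    rcases hd with rfl | rfl | rfl | rfl | rfl
    · rcases (hR.adj 0).ends hv with h1 | h1
      · tauto
      · rw [show (0 : ℤ) + 1 = 1 by norm_num] at h1
        tauto
    · rcases (h.r3.eg 0).ends hv with h1 | h1 <;> tauto
    · rcases (h.r3.eg 1).ends hv with h1 | h1 <;> tauto
    · rcases er0.ends hv with h1 | h1 <;> tauto
    · rcases el1.ends hv with h1 | h1 <;> tauto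
  have hsub : G.ds.filter (fun d => G.l d = F 0 ∨ G.r d = F 0) ⊆ {e 0, g 0, g 1, r 0, l 1} := by
    intro d hd
    obtain ⟨hd1, hd2⟩ := mem_filter.1 hd
    have key := BC.vert (h.p1.bc (F 0))
      (f := fun v => if v ∈ ({x 0, x 1, b 0, b 1, mm 0} : Finset ℕ) then 1 else 0) (by
      intro d' hd' hi'
      by_cases h1 : G.p d' ∈ ({x 0, x 1, b 0, b 1, mm 0} : Finset ℕ)
      · have h2 := hen _ (hst _ h1 d' (mem_star.2 ⟨hd', Or.inl rfl⟩) hi') (G.q d')
          (mem_star.2 ⟨hd', Or.inr rfl⟩)
        simp only [if_pos h1, if_pos h2]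
      · have h2 : G.q d' ∉ ({x 0, x 1, b 0, b 1, mm 0} : Finset ℕ) := fun h2 =>
          h1 (hen _ (hst _ h2 d' (mem_star.2 ⟨hd', Or.inr rfl⟩) hi') (G.p d')
            (mem_star.2 ⟨hd', Or.inl rfl⟩))
        simp only [if_neg h1, if_neg h2]) (v := G.p d) (v' := mm 0)
      ⟨d, mem_star.2 ⟨hd1, Or.inl rfl⟩, hd2⟩ (h.tF 0)
    have hp : G.p d ∈ ({x 0, x 1, b 0, b 1, mm 0} : Finset ℕ) := by
      by_contra hcon
      have h3 : mm 0 ∈ ({x 0, x 1, b 0, b 1, mm 0} : Finset ℕ) := by simp
      simp only [if_neg hcon, if_pos h3] at key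
      exact absurd key (by decide)
    exact hst _ hp d (mem_star.2 ⟨hd1, Or.inl rfl⟩) hd2
  have h1 := h.r3.cx.cls.hlen (F 0) hhs
  have h2 := h1.trans (sum_le_sum_of_subset hsub)
  have h3 : ∑ d ∈ ({e 0, g 0, g 1, r 0, l 1} : Finset ℕ), (1 + 2 * G.w d) ≤
      ∑ d ∈ ({e 0, g 0, g 1, r 0, l 1} : Finset ℕ), 1 := by
    refine sum_le_sum fun d hd => ?_
    have hw : G.w d = 0 := by
      simp only [mem_insert, mem_singleton] at hd
      rcases hd with rfl | rfl | rfl | rfl | rfl
      · exact h.r3.w0 0 _ (Or.inl (hR.adj 0).left)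
      · exact h.r3.w0 0 _ (Or.inl (h.r3.eg 0).left)
      · exact h.r3.w0 1 _ (Or.inl (h.r3.eg 1).left)
      · exact h.r3.w0 0 _ (Or.inr er0.left)
      · exact h.r3.w0 1 _ (Or.inr el1.left)
    rw [hw]
  rw [sum_const, smul_eq_mul, mul_one] at h3
  have h4 := card_insert_le (e 0) {g 0, g 1, r 0, l 1}
  have h5 := card_insert_le (g 0) {g 1, r 0, l 1}
  have h6 : ({g 1, r 0, l 1} : Finset ℕ).card ≤ 3 := card_le_three
  omega

/-- (G4): the vertex `mm 0` does not have degree three -/
lemma g4 (h3 : (G.star (mm 0)).card = 3) : False := by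
  classical
  have hg := h.good
  have hR := h.r3.ring
  have er0 := h.er 0
  have er1 := h.er 1
  have el0 := h.el' 0
  have el1 := h.el' 1
  rw [show (0 : ℤ) - 1 = -1 by norm_num] at el0
  rw [show (1 : ℤ) - 1 = 0 by norm_num] at el1
  have sr0 := h.r3.sr 0
  have sl1 := h.sl 0
  rw [show (0 : ℤ) + 1 = 1 by norm_num] at sl1
  have t0 := h.tO' 0
  have t1 := h.tO' 1
  rw [show (0 : ℤ) + 1 = 1 by norm_num] at t0
  rw [show (1 : ℤ) + 1 = 2 by norm_num] at t1
  -- the faces at `mm 0`
  have hfv : ∀ i, G.Touch (mm 0) i → i = F 0 ∨ i = O 0 ∨ i = O 1 := by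
    have h1 : ({F 0, O 0, O 1} : Finset ℕ) ⊆ G.fv (mm 0) := by
      intro i hi
      simp only [mem_insert, mem_singleton] at hi
      rw [mem_fv]
      rcases hi with rfl | rfl | rfl
      · exact h.tF 0
      · exact h.tO 0
      · exact t0
    have h2 : ({F 0, O 0, O 1} : Finset ℕ).card = 3 :=
      card3 (h.OF _ _).symm (h.OF _ _).symm (h.OO (by norm_num) (by norm_num))
    have h4 : ({F 0, O 0, O 1} : Finset ℕ) = G.fv (mm 0) :=
      eq_of_subset_of_card_le h1 (by rw [h.p1.card_fv hg (h.mv 0), h3, h2])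
    intro i hi
    have h5 := mem_fv.2 hi
    rw [← h4] at h5
    simpa using h5
  -- the third edge
  have c1 : ((G.star (mm 0)) \ {r 0, l 1}).card = 1 := by
    rw [card_sdiff_of_subset, h3, card_pair h.rl]
    intro d hd
    simp only [mem_insert, mem_singleton] at hd
    rcases hd with rfl | rfl
    · exact er0.right
    · exact el1.right
  obtain ⟨d, hd⟩ := card_eq_one.1 c1
  have hd1 : d ∈ (G.star (mm 0)) \ {r 0, l 1} := by rw [hd]; simp
  obtain ⟨hds, hdn⟩ := mem_sdiff.1 hd1
  simp only [mem_insert, mem_singleton, not_or] at hdn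
  obtain ⟨m', hm'⟩ := exists_E hds
  have hst : ∀ d' ∈ G.star (mm 0), d' = r 0 ∨ d' = l 1 ∨ d' = d := by
    intro d' hd'
    by_contra hcon
    push Not at hcon
    have h1 : d' ∈ (G.star (mm 0)) \ {r 0, l 1} := mem_sdiff.2 ⟨hd', by simp [hcon.1, hcon.2.1]⟩
    rw [hd, mem_singleton] at h1
    exact hcon.2.2 h1
  -- the third neighbour
  have hm'x : ∀ t, m' ≠ x t := by
    rintro t rfl
    have h1 := hm'.right
    rw [hR.star_x] at h1
    simp only [mem_insert, mem_singleton] at h1
    rcases h1 with h1 | h1 | h1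
    · have h2 := hR.adj (t - 1)
      rw [← h1, show t - 1 + 1 = t by ring] at h2
      exact h.mx _ _ (hm'.symm.other hg h2.symm)
    · have h2 := h.r3.eg t
      rw [← h1] at h2
      exact h.mb _ _ (hm'.symm.other hg h2)
    · have h2 := hR.adj t
      rw [← h1] at h2
      exact h.mx _ _ (hm'.symm.other hg h2)
  have hm'b : ∀ t : ℤ, t = 0 ∨ t = 1 ∨ t = 3 → m' ≠ b t := by
    rintro t ht rfl
    have h1 := hm'.right
    rw [h.r3.star_b] at h1
    simp only [mem_insert, mem_singleton] at h1
    have hbad : ∀ s : ℤ, mm 0 = mm s → (s = -1 ∨ s = 1 ∨ s = 2 ∨ s = 3) → False := by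
      intro s hs hs'
      have h2 := h.tO s
      rw [← hs] at h2
      rcases hfv _ h2 with h4 | h4 | h4
      · exact h.OF _ _ h4
      · rcases hs' with rfl | rfl | rfl | rfl
        · exact h.OO (i := -1) (j := 0) (by norm_num) (by norm_num) h4
        · exact h.OO (i := 0) (j := 1) (by norm_num) (by norm_num) h4.symm
        · exact h.OO (i := 0) (j := 2) (by norm_num) (by norm_num) h4.symm
        · exact h.OO (i := 0) (j := 3) (by norm_num) (by norm_num) h4.symm
      · rcases hs' with rfl | rfl | rfl | rfl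
        · exact h.OO (i := -1) (j := 1) (by norm_num) (by norm_num) h4
        · exact h.m01 hs
        · exact h.OO (i := 1) (j := 2) (by norm_num) (by norm_num) h4.symm
        · exact h.OO (i := 1) (j := 3) (by norm_num) (by norm_num) h4.symm
    rcases h1 with h1 | h1 | h1
    · have h2 := h.r3.eg t
      rw [← h1] at h2
      exact h.mx _ _ (hm'.symm.other hg h2.symm)
    · have h2 := h.el' t
      rw [← h1] at h2
      have h5 := hm'.symm.other hg h2
      rcases ht with rfl | rfl | rfl
      · exact hbad _ h5 (Or.inl (by norm_num))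
      · exact hdn.2 h1
      · exact hbad _ h5 (Or.inr (Or.inr (Or.inl (by norm_num))))
    · have h2 := h.er t
      rw [← h1] at h2
      have h5 := hm'.symm.other hg h2
      rcases ht with rfl | rfl | rfl
      · exact hdn.1 h1
      · exact hbad _ h5 (Or.inr (Or.inl rfl))
      · exact hbad _ h5 (Or.inr (Or.inr (Or.inr rfl)))
  have hm'v : m' ∈ G.vs := hm'.symm.memv hg
  set M : Finset ℕ := {mm (-1), mm 1, m'} with hM
  have hMc : M.card ≤ 3 := card_le_three
  have hMx : ∀ t, x t ∉ M := by
    intro t h1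
    simp only [hM, mem_insert, mem_singleton] at h1
    rcases h1 with h1 | h1 | h1
    · exact h.mx _ _ h1.symm
    · exact h.mx _ _ h1.symm
    · exact hm'x _ h1.symm
  have hMb : ∀ t : ℤ, t = 0 ∨ t = 1 ∨ t = 3 → b t ∉ M := by
    intro t ht h1
    simp only [hM, mem_insert, mem_singleton] at h1
    rcases h1 with h1 | h1 | h1
    · exact h.mb _ _ h1.symm
    · exact h.mb _ _ h1.symm
    · exact hm'b t ht h1.symm
  have hMm : mm 0 ∉ M := by
    intro h1
    simp only [hM, mem_insert, mem_singleton] at h1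
    rcases h1 with h1 | h1 | h1
    · exact h.m0n h1
    · exact h.m01 h1
    · exact hm'.ne hg h1
  have hMv : ∀ v ∈ M, v ∈ G.vs := by
    intro v h1
    simp only [hM, mem_insert, mem_singleton] at h1
    rcases h1 with rfl | rfl | rfl
    · exact h.mv _
    · exact h.mv _
    · exact hm'v
  have mn : mm (-1) ∈ M := by simp [hM]
  have m1 : mm 1 ∈ M := by simp [hM]
  have mm' : m' ∈ M := by simp [hM]
  clear_value M
  have x4 : x (3 + 1) = x (-1) := by
    have h1 := hR.px (-1)
    rwa [show (-1 : ℤ) + ((5 : ℕ) : ℤ) = 3 + 1 by norm_num] at h1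
  have hWc : (insert (x (-1)) (insert (x 0) (insert (x 1) (insert (x 2) (insert (x 3)
      (insert (b 0) (insert (b 1) (insert (b 3) (insert (mm 0) M))))))))).card = M.card + 9 := by
    rw [card_insert_of_notMem, card_insert_of_notMem, card_insert_of_notMem,
      card_insert_of_notMem, card_insert_of_notMem, card_insert_of_notMem,
      card_insert_of_notMem, card_insert_of_notMem, card_insert_of_notMem hMm]
    · rw [mem_insert, not_or]
      exact ⟨(h.mb _ _).symm, hMb 3 (by norm_num)⟩
    · rw [mem_insert, mem_insert, not_or, not_or]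
      exact ⟨h.r3.bne (by norm_num) (by norm_num), (h.mb _ _).symm, hMb 1 (by norm_num)⟩
    · rw [mem_insert, mem_insert, mem_insert, not_or, not_or, not_or]
      exact ⟨h.r3.bne (by norm_num) (by norm_num), h.r3.bne (by norm_num) (by norm_num),
        (h.mb _ _).symm, hMb 0 (by norm_num)⟩
    · simp only [mem_insert, not_or]
      exact ⟨(hR.bx _ _).symm, (hR.bx _ _).symm, (hR.bx _ _).symm, (h.mx _ _).symm, hMx _⟩
    · simp only [mem_insert, not_or]
      exact ⟨hR.xne (by norm_num) (by norm_num), (hR.bx _ _).symm, (hR.bx _ _).symm,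
        (hR.bx _ _).symm, (h.mx _ _).symm, hMx _⟩
    · simp only [mem_insert, not_or]
      exact ⟨hR.xne (by norm_num) (by norm_num), hR.xne (by norm_num) (by norm_num),
        (hR.bx _ _).symm, (hR.bx _ _).symm, (hR.bx _ _).symm, (h.mx _ _).symm, hMx _⟩
    · simp only [mem_insert, not_or]
      exact ⟨hR.xne (by norm_num) (by norm_num), hR.xne (by norm_num) (by norm_num),
        hR.xne (by norm_num) (by norm_num), (hR.bx _ _).symm, (hR.bx _ _).symm,
        (hR.bx _ _).symm, (h.mx _ _).symm, hMx _⟩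
    · simp only [mem_insert, not_or]
      exact ⟨hR.xne (by norm_num) (by norm_num), hR.xne (by norm_num) (by norm_num),
        hR.xne (by norm_num) (by norm_num), hR.xne (by norm_num) (by norm_num),
        (hR.bx _ _).symm, (hR.bx _ _).symm, (hR.bx _ _).symm, (h.mx _ _).symm, hMx _⟩
  have hXc : (insert (x (-1)) (insert (x 2) (insert (b 3) M))).card ≤ M.card + 3 := by
    have h1 := card_insert_le (x (-1)) (insert (x 2) (insert (b 3) M))
    have h2 := card_insert_le (x 2) (insert (b 3) M)
    have h4 := card_insert_le (b 3) M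
    omega
  have hFC : G.FC (insert (x (-1)) (insert (x 0) (insert (x 1) (insert (x 2) (insert (x 3)
      (insert (b 0) (insert (b 1) (insert (b 3) (insert (mm 0) M))))))))) o := by
    have h1 : G.FC (insert (b 3) (insert (b 1) (insert (b 0) (insert (x 3) (insert (x 2)
        (insert (x 1) (insert (x 0) {x (-1)}))))))) o :=
      h.FCb (h.FCb (h.FCb (h.FCx (h.FCx (h.FCx (h.FCx (FC_singleton hg (h.r3.xv _)
        (hR.tx _)) 0) 1) 2) 3) (by simp)) (by simp)) (by simp)
    have h2 := (((h1.insert_adj hg (v := mm (-1)) (w := b 0) (by simp) ⟨l 0, el0.symm⟩).insert_adj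
      hg (v := mm 0) (w := b 0) (by simp) ⟨r 0, er0.symm⟩).insert_adj hg (v := mm 1) (w := b 1)
      (by simp) ⟨r 1, er1.symm⟩).insert_adj hg (v := m') (w := mm 0) (by simp) ⟨d, hm'.symm⟩
    convert h2 using 1
    ext v
    simp only [hM, mem_insert, mem_singleton]
    exact iff_of_eq (by ac_rfl)
  have key := h.r3.cx.move (by norm_num) (by norm_num)
    (W := insert (x (-1)) (insert (x 0) (insert (x 1) (insert (x 2) (insert (x 3)
      (insert (b 0) (insert (b 1) (insert (b 3) (insert (mm 0) M)))))))))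
    (X₀ := insert (x (-1)) (insert (x 2) (insert (b 3) M))) (Y₀ := {F 0})
    (B := insert (F (-1)) (insert (F 0) (insert (F 1) (insert (F 2) (insert (F 3)
      (insert (O (-1)) {O 0, O 1, O 2, O 3}))))))
    (by
      intro v hv
      simp only [mem_insert] at hv
      rcases hv with rfl | rfl | rfl | rfl | rfl | rfl | rfl | rfl | rfl | hv
      · exact h.r3.xv _
      · exact h.r3.xv _
      · exact h.r3.xv _
      · exact h.r3.xv _
      · exact h.r3.xv _
      · exact h.r3.bv _
      · exact h.r3.bv _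
      · exact h.r3.bv _
      · exact h.mv _
      · exact hMv v hv)
    ⟨x (-1), mem_insert_self _ _⟩ hFC
    (by
      intro v hv
      simp only [mem_insert] at hv
      rcases hv with rfl | rfl | rfl | hv
      · exact h.r3.xv _
      · exact h.r3.xv _
      · exact h.r3.bv _
      · exact hMv v hv)
    (by
      rw [singleton_subset_iff]
      exact mem_sdiff.2 ⟨(touch_mem hg (h.tF 0)).2, h.r3.uF 0⟩)
    (by
      intro j hj
      simp only [mem_insert, mem_singleton] at hj
      rw [mem_erase]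
      rcases hj with rfl | rfl | rfl | rfl | rfl | rfl | rfl | rfl | rfl | rfl
      · exact ⟨hR.Fo _, mem_tf_touch (v := x (-1)) (by simp) (hR.spk (-1)).cub.tF'⟩
      · exact ⟨hR.Fo _, mem_tf_touch (v := x 0) (by simp) (hR.spk 0).cub.tF'⟩
      · exact ⟨hR.Fo _, mem_tf_touch (v := x 1) (by simp) (hR.spk 1).cub.tF'⟩
      · exact ⟨hR.Fo _, mem_tf_touch (v := x 2) (by simp) (hR.spk 2).cub.tF'⟩
      · exact ⟨hR.Fo _, mem_tf_touch (v := x 3) (by simp) (hR.spk 3).cub.tF'⟩
      · exact ⟨h.r3.Oo _, mem_tf_touch (v := mm (-1)) (by simp [mn]) (h.tO (-1))⟩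
      · exact ⟨h.r3.Oo _, mem_tf_touch (v := mm 0) (by simp) (h.tO 0)⟩
      · exact ⟨h.r3.Oo _, mem_tf_touch (v := mm 0) (by simp) t0⟩
      · exact ⟨h.r3.Oo _, mem_tf_touch (v := mm 1) (by simp [m1]) t1⟩
      · exact ⟨h.r3.Oo _, mem_tf_touch (v := b 3) (by simp) (h.r3.sp 3).tO⟩)
    (cover_of (by
      intro v hv hvX d' hd'
      simp only [mem_insert] at hv
      have hMX : ∀ {v}, v ∈ M → v ∈ insert (x (-1)) (insert (x 2) (insert (b 3) M)) :=
        fun h1 => mem_insert_of_mem (mem_insert_of_mem (mem_insert_of_mem h1))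
      have hx2 : x 2 ∈ insert (x (-1)) (insert (x 2) (insert (b 3) M)) := by simp
      have hxn : x (-1) ∈ insert (x (-1)) (insert (x 2) (insert (b 3) M)) := by simp
      have hb3 : b 3 ∈ insert (x (-1)) (insert (x 2) (insert (b 3) M)) := by simp
      have hF0 : F 0 ∈ ({F 0} : Finset ℕ) := by simp
      have sg0 := hR.sg 0
      have sg1 := (hR.sg 1).symm
      have se0 := hR.se 0
      rw [show (1 : ℤ) - 1 = 0 by norm_num] at sg1
      rcases hv with rfl | rfl | rfl | rfl | rfl | rfl | rfl | rfl | rfl | h1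
      · exact absurd hxn hvX
      · rw [hR.star_x] at hd'
        simp only [mem_insert, mem_singleton] at hd'
        rcases hd' with rfl | rfl | rfl
        · exact end_mem (hR.adj (0 - 1)).symm hxn
        · exact side_mem sg0 hF0
        · exact side_mem se0 hF0
      · rw [hR.star_x] at hd'
        simp only [mem_insert, mem_singleton] at hd'
        rcases hd' with rfl | rfl | rfl
        · exact side_mem se0 hF0
        · exact side_mem sg1 hF0
        · exact end_mem (hR.adj 1) hx2
      · exact absurd hx2 hvX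
      · rw [hR.star_x] at hd'
        simp only [mem_insert, mem_singleton] at hd'
        rcases hd' with rfl | rfl | rfl
        · exact end_mem (hR.adj (3 - 1)).symm hx2
        · exact end_mem (h.r3.eg 3) hb3
        · exact end_mem (hR.adj 3) (x4 ▸ hxn)
      · rw [h.r3.star_b] at hd'
        simp only [mem_insert, mem_singleton] at hd'
        rcases hd' with rfl | rfl | rfl
        · exact side_mem sg0 hF0
        · exact end_mem el0 (hMX mn)
        · exact side_mem sr0.symm hF0
      · rw [h.r3.star_b] at hd'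
        simp only [mem_insert, mem_singleton] at hd'
        rcases hd' with rfl | rfl | rfl
        · exact side_mem sg1 hF0
        · exact side_mem sl1.symm hF0
        · exact end_mem er1 (hMX m1)
      · exact absurd hb3 hvX
      · rcases hst d' hd' with rfl | rfl | rfl
        · exact side_mem sr0.symm hF0
        · exact side_mem sl1.symm hF0
        · exact end_mem hm' (hMX mm')
      · exact absurd (hMX h1) hvX))
  have hBc : (insert (F (-1)) (insert (F 0) (insert (F 1) (insert (F 2) (insert (F 3)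
      (insert (O (-1)) ({O 0, O 1, O 2, O 3} : Finset ℕ))))))).card = 10 := by
    rw [card_insert_of_notMem, card_insert_of_notMem, card_insert_of_notMem,
      card_insert_of_notMem, card_insert_of_notMem, card_insert_of_notMem, card4]
    · exact h.OO (by norm_num) (by norm_num)
    · exact h.OO (by norm_num) (by norm_num)
    · exact h.OO (by norm_num) (by norm_num)
    · exact h.OO (by norm_num) (by norm_num)
    · exact h.OO (by norm_num) (by norm_num)
    · exact h.OO (by norm_num) (by norm_num)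
    · simp only [mem_insert, mem_singleton, not_or]
      exact ⟨h.OO (by norm_num) (by norm_num), h.OO (by norm_num) (by norm_num),
        h.OO (by norm_num) (by norm_num), h.OO (by norm_num) (by norm_num)⟩
    · simp only [mem_insert, mem_singleton, not_or]
      exact ⟨(h.OF _ _).symm, (h.OF _ _).symm, (h.OF _ _).symm, (h.OF _ _).symm,
        (h.OF _ _).symm⟩
    · simp only [mem_insert, mem_singleton, not_or]
      exact ⟨hR.Fne (by norm_num) (by norm_num), (h.OF _ _).symm, (h.OF _ _).symm,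
        (h.OF _ _).symm, (h.OF _ _).symm, (h.OF _ _).symm⟩
    · simp only [mem_insert, mem_singleton, not_or]
      exact ⟨hR.Fne (by norm_num) (by norm_num), hR.Fne (by norm_num) (by norm_num),
        (h.OF _ _).symm, (h.OF _ _).symm, (h.OF _ _).symm, (h.OF _ _).symm, (h.OF _ _).symm⟩
    · simp only [mem_insert, mem_singleton, not_or]
      exact ⟨hR.Fne (by norm_num) (by norm_num), hR.Fne (by norm_num) (by norm_num),
        hR.Fne (by norm_num) (by norm_num), (h.OF _ _).symm, (h.OF _ _).symm,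
        (h.OF _ _).symm, (h.OF _ _).symm, (h.OF _ _).symm⟩
    · simp only [mem_insert, mem_singleton, not_or]
      exact ⟨hR.Fne (by norm_num) (by norm_num), hR.Fne (by norm_num) (by norm_num),
        hR.Fne (by norm_num) (by norm_num), hR.Fne (by norm_num) (by norm_num),
        (h.OF _ _).symm, (h.OF _ _).symm, (h.OF _ _).symm, (h.OF _ _).symm, (h.OF _ _).symm⟩
  rw [hWc, hBc, fpr_singleton, if_neg h.hs0] at key
  omega

/-- **five outer vertices with faces of length five do not occur** -/
theorem false : False := by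
  have hg := h.good
  have h1 : 3 ≤ (G.star (mm 0)).card := by
    rw [← h.p1.card_fv hg (h.mv 0)]
    have t0 := h.tO' 0
    rw [show (0 : ℤ) + 1 = 1 by norm_num] at t0
    have h2 : ({F 0, O 0, O 1} : Finset ℕ).card = 3 :=
      card3 (h.OF _ _).symm (h.OF _ _).symm (h.OO (by norm_num) (by norm_num))
    rw [← h2]
    refine card_le_card fun i hi => ?_
    simp only [mem_insert, mem_singleton] at hi
    rw [mem_fv]
    rcases hi with rfl | rfl | rfl
    · exact h.tF 0
    · exact h.tO 0
    · exact t0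
  rcases h1.lt_or_eq with h2 | h2
  · exact h.g5 h2
  · exact h.g4 h2.symm

end Pent

/-- five outer vertices, all faces `F i` of length five -/
theorem Ring3.no_five (h : G.Ring3 m o 5 x e g F b l r O) (_ : ∀ i, O i ≠ O (i + 2))
    (hO1 : ∀ i, O i ≠ O (i + 1)) (hF : ∀ i, O i ≠ F (i + 2)) (mm : ℤ → ℕ)
    (er : ∀ i, G.E (r i) (b i) (mm i)) (el : ∀ i, G.E (l (i + 1)) (b (i + 1)) (mm i)) : False :=
  (⟨h, hO1, hF, er, el⟩ : G.Pent m o x e g F b l r O mm).false

end Gr

end Pool.Agent.Lib.MP06c549.T6H
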