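import Pool.Agent.Lib.MP_06c549_co.T6H.RingO
import Pool.Agent.Lib.MP_06c549_co.T6H.Step7P
import Pool.Agent.Lib.MP_06c549_co.T6H.Final13
import Pool.Agent.Lib.MP_06c549_co.T6H.G3
import Pool.Agent.Lib.MP_06c549_co.T6H.Rew2
import Pool.Agent.Lib.MP_06c549_co.T6H.K5b
import Pool.Agent.Lib.MP_06c549_co.T6H.JR
import Pool.Agent.Lib.MP_06c549_co.T6H.Asm
import Pool.Agent.Lib.MP_06c549_co.T6H.K13.Q3Z

section
/-!
# MP_06c549_co, T6H, constant 13: the outer cycle has at least five vertices, the move `T`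
-/
set_option autoImplicit false

namespace Pool.Agent.Lib.MP06c549.T6H

open Finset

namespace Gr

open S7a

variable {G : Gr} {o m k : ℕ} {x e g F b l r O : ℤ → ℕ}

namespace Ring

/-- the next edge of the ring -/
lemma fwd (h : G.Ring o k x e g F b) {i : ℤ} {x1 e1 g1 e2 F1 F2 : ℕ} (hx : x i = x1)
    (he : e (i - 1) = e1) (hc : G.Cub o x1 e1 g1 e2 F1 F2) : e i = e2 := by
  subst hx he
  exact (hc.unique (h.spk i).cub).2.1

/-- the next vertex of the ring -/
lemma fwdx (h : G.Ring o k x e g F b) (hG : G.Good) {i : ℤ} {x1 x2 e2 : ℕ} (hx : x i = x1)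
    (he : e i = e2) (ha : G.E e2 x1 x2) : x (i + 1) = x2 := by
  subst hx he
  exact (h.adj i).other hG ha

/-- a window of the outer cycle in the ring -/
lemma k5_aux (h : G.Ring o k x e g F b) (hG : G.Good)
    {x0 x1 x2 x3 e0 e1 e2 e3 e4 g0 g1 g2 g3 F0 F1 F2 F3 F4 : ℕ} {i : ℤ} (hx : x i = x1)
    (he : e (i - 1) = e1) (h0 : G.Cub o x0 e0 g0 e1 F0 F1) (h1 : G.Cub o x1 e1 g1 e2 F1 F2)
    (h2 : G.Cub o x2 e2 g2 e3 F2 F3) (h3 : G.Cub o x3 e3 g3 e4 F3 F4)
    (a1 : G.E e1 x0 x1) (a2 : G.E e2 x1 x2) (a3 : G.E e3 x2 x3) (n03 : e0 ≠ e3)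
    (n04 : e0 ≠ e4) : 5 ≤ k := by
  have hmm : i - 1 + 1 = i := by ring
  have q1 : e i = e2 := h.fwd hx he h1
  have q2 : x (i + 1) = x2 := h.fwdx hG hx q1 a2
  have q3 : e (i + 1) = e3 := h.fwd q2 (by rw [show i + 1 - 1 = i by ring]; exact q1) h2
  have q4 : x (i + 1 + 1) = x3 := h.fwdx hG q2 q3 a3
  have q5 : e (i + 1 + 1) = e4 := h.fwd q4 (by rw [show i + 1 + 1 - 1 = i + 1 by ring]; exact q3) h3
  have q6 : x (i - 1) = x0 := by
    have h4 := (h.adj (i - 1)).symm
    rw [hmm, hx, he] at h4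
    exact h4.other hG a1.symm
  have q7 : e (i - 1 - 1) = e0 := by
    have h4 := (h.spk (i - 1)).cub.symm
    rw [q6, he] at h4
    exact (h0.symm.unique h4).2.1
  have hk := h.k3
  by_contra hcon
  have hk' : k = 3 ∨ k = 4 := by omega
  rcases hk' with rfl | rfl
  · apply n03
    rw [← q3, ← q7, ← h.pe (i - 1 - 1)]
    congr 1
    push_cast
    ring
  · apply n04
    rw [← q5, ← q7, ← h.pe (i - 1 - 1)]
    congr 1
    push_cast
    ring

/-- the ring has at least five vertices -/
theorem k5_of (h : G.Ring o k x e g F b) (hG : G.Good)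
    {x0 x1 x2 x3 e0 e1 e2 e3 e4 g0 g1 g2 g3 F0 F1 F2 F3 F4 : ℕ}
    (h0 : G.Cub o x0 e0 g0 e1 F0 F1) (h1 : G.Cub o x1 e1 g1 e2 F1 F2)
    (h2 : G.Cub o x2 e2 g2 e3 F2 F3) (h3 : G.Cub o x3 e3 g3 e4 F3 F4)
    (a1 : G.E e1 x0 x1) (a2 : G.E e2 x1 x2) (a3 : G.E e3 x2 x3) (n03 : e0 ≠ e3)
    (n04 : e0 ≠ e4) : 5 ≤ k := by
  obtain ⟨i, hi⟩ := h.allx x1 h1.tO
  have h4 := h1.me
  rw [← hi, h.star_x i] at h4
  simp only [mem_insert, mem_singleton] at h4
  rcases h4 with h4 | h4 | h4
  · exact h.k5_aux hG hi h4.symm h0 h1 h2 h3 a1 a2 a3 n03 n04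
  · exfalso
    have h5 := h1.se
    rw [h4] at h5
    rcases (h.sg i).cases h5 with h6 | h6
    · exact h.Fo _ h6.1.symm
    · exact h.Fo _ h6.1.symm
  · refine h.symm.k5_aux hG (i := -i) ?_ ?_ h0 h1 h2 h3 a1 a2 a3 n03 n04
    · simp only [neg_neg]
      exact hi
    · have h5 : -(-i - 1) - 1 = i := by ring
      simp only [h5]
      exact h4.symm

/-- adjacent outer vertices have different inner neighbours -/
theorem T (h : G.Ring o k x e g F b) (hM : Cx 7 2 4 13 m o G) (hk : 5 ≤ k) (i : ℤ) :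
    b i ≠ b (i + 1) := by
  intro hb
  have hG := hM.cls.good
  have hm : i - 1 - 1 = i - 2 := by ring
  have hmm : i - 1 + 1 = i := by ring
  have hpp : i + 1 - 1 = i := by ring
  have hp2 : i + 1 + 1 = i + 2 := by ring
  have hp3 : i + 2 - 1 = i + 1 := by ring
  have s0 := h.spk (i - 1)
  have s1 := h.spk i
  have s2 := h.spk (i + 1)
  have s3 := h.spk (i + 2)
  rw [hm] at s0
  rw [hpp] at s2
  rw [hp3] at s3
  have a1 := h.adj (i - 1)
  rw [hmm] at a1
  have a2 := h.adj i
  have a3 := h.adj (i + 1)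
  rw [hp2] at a3
  have n01 : x (i - 1) ≠ x i := h.xne (by omega) (by omega)
  have n02 : x (i - 1) ≠ x (i + 1) := h.xne (by omega) (by omega)
  have n12 : x i ≠ x (i + 1) := h.xne (by omega) (by omega)
  have f01 : F (i - 2) ≠ F (i - 1) := h.Fne (by omega) (by omega)
  have f02 : F (i - 2) ≠ F i := h.Fne (by omega) (by omega)
  have f03 : F (i - 2) ≠ F (i + 1) := h.Fne (by omega) (by omega)
  have f12 : F (i - 1) ≠ F i := h.Fne (by omega) (by omega)
  have f13 : F (i - 1) ≠ F (i + 1) := h.Fne (by omega) (by omega)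
  have f23 : F i ≠ F (i + 1) := h.Fne (by omega) (by omega)
  by_cases hF : F i ∈ G.us
  · have u0 : G.Touch (x (i - 1)) o := s0.cub.tO
    have u1 : G.Touch (x i) o := s1.cub.tO
    have u2 : G.Touch (x (i + 1)) o := s2.cub.tO
    have v0 := s0.cub.mv hG
    have v1 := s1.cub.mv hG
    have v2 := s2.cub.mv hG
    have vb := s1.eb.symm.memv hG
    have hFC : G.FC {x i, x (i - 1), x (i + 1), b i} o := by
      have e1 : ({x i, x (i - 1), x (i + 1), b i} : Finset ℕ) =
          insert (b i) {x i, x (i - 1), x (i + 1)} := by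
        ext v; simp only [mem_insert, mem_singleton]; tauto
      rw [e1]
      refine FC.insert_adj hG ?_ (w := x i) (by simp) ⟨g i, s1.eb.symm⟩
      exact ((FC_singleton hG v2 u2).insert_out hG v0 u0).insert_out hG v1 u1
    have hWv : ({x i, x (i - 1), x (i + 1), b i} : Finset ℕ) ⊆ G.vs := by
      intro v hv
      simp only [mem_insert, mem_singleton] at hv
      rcases hv with rfl | rfl | rfl | rfl <;> assumption
    have key := hM.slack (by norm_num) (W := {x i, x (i - 1), x (i + 1), b i})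
      (X₀ := {x (i - 1), x (i + 1), b i}) (B := {F (i - 2), F (i - 1), F i, F (i + 1)}) hWv hFC (by
        intro v hv
        simp only [mem_insert, mem_singleton] at hv
        rcases hv with rfl | rfl | rfl <;> assumption) (by
        intro j hj
        simp only [mem_insert, mem_singleton] at hj
        rw [mem_erase]
        rcases hj with rfl | rfl | rfl | rfl
        · exact ⟨h.Fo _, mem_tf_touch (v := x (i - 1)) (by simp) s0.cub.tF⟩
        · exact ⟨h.Fo _, mem_tf_touch (v := x i) (by simp) s1.cub.tF⟩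
        · exact ⟨h.Fo _, mem_tf_touch (v := x i) (by simp) s1.cub.tF'⟩
        · exact ⟨h.Fo _, mem_tf_touch (v := x (i + 1)) (by simp) s2.cub.tF'⟩)
      (cover_of (by
        intro v hv hvX d hd
        simp only [mem_insert, mem_singleton] at hv hvX
        have hv' : v = x i := by tauto
        subst hv'
        rw [s1.cub.st] at hd
        simp only [mem_insert, mem_singleton] at hd
        rcases hd with rfl | rfl | rfl
        · exact end_mem a1.symm (by simp)
        · exact end_mem s1.eb (by simp)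
        · exact end_mem a2 (by simp)))
    have c1 : ({x i, x (i - 1), x (i + 1), b i} : Finset ℕ).card = 4 :=
      card4 n01.symm n12 (h.bx _ _).symm n02 (h.bx _ _).symm (h.bx _ _).symm
    have c2 : ({x (i - 1), x (i + 1), b i} : Finset ℕ).card ≤ 3 := card_le_three
    have c3 : ({F (i - 2), F (i - 1), F i, F (i + 1)} : Finset ℕ).card = 4 :=
      card4 f01 f02 f03 f12 f13 f23
    have c4 : 1 ≤ ({F (i - 2), F (i - 1), F i, F (i + 1)} ∩ G.us).card :=
      card_pos.2 ⟨F i, mem_inter.2 ⟨by simp, hF⟩⟩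
    have c5 : 1 ≤ G.ws (G.tds {x i, x (i - 1), x (i + 1), b i}) := by
      have eb2 := s2.eb
      rw [← hb] at eb2
      have w1 := triangle hG hM.cls.girth a2 eb2 s1.eb.symm
      have q1 : e i ≠ g (i + 1) := s2.cub.n1
      have q2 : e i ≠ g i := s1.cub.n3.symm
      have q3 : g (i + 1) ≠ g i := by
        intro h3
        rw [h3] at eb2
        exact n12 (s1.eb.symm.other hG eb2.symm)
      have hsub : ({e i, g (i + 1), g i} : Finset ℕ) ⊆
          G.tds {x i, x (i - 1), x (i + 1), b i} := by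
        intro d hd
        simp only [mem_insert, mem_singleton] at hd
        rcases hd with rfl | rfl | rfl
        · exact star_sub_tds (v := x i) (by simp) a2.left
        · exact star_sub_tds (v := x (i + 1)) (by simp) s2.eb.left
        · exact star_sub_tds (v := x i) (by simp) s1.eb.left
      have h4 : G.ws {e i, g (i + 1), g i} ≤ G.ws (G.tds {x i, x (i - 1), x (i + 1), b i}) :=
        sum_le_sum_of_subset hsub
      have h5 : G.ws {e i, g (i + 1), g i} = G.w (e i) + G.w (g (i + 1)) + G.w (g i) := by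
        unfold ws
        rw [sum_insert (by simp [q1, q2]), sum_insert (by simp [q3]), sum_singleton, add_assoc]
      omega
    have hQ : (G.del {x i, x (i - 1), x (i + 1), b i} o).Cls o m := hM.cls.del hFC
    have hle : 13 * (G.del {x i, x (i - 1), x (i + 1), b i} o).tau ≤
        (G.del {x i, x (i - 1), x (i + 1), b i} o).pot 7 2 4 := by
      refine hM.ih _ _ hQ ?_
      have h2 := del_card (u := o) hWv
      omega
    rw [c1, c3] at key
    omega
  · rw [← hb] at s2
    exact hM.moveT par13 s0 s1 s2 s3 a1 a2 a3 n01 n02 (h.xne (by omega) (by omega)) n12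
      (h.xne (by omega) (by omega)) (h.xne (by omega) (by omega)) f02 f03
      (h.Fne (by omega) (by omega)) f13 (h.Fne (by omega) (by omega))
      (h.Fne (by omega) (by omega)) hF

end Ring

end Gr

end Pool.Agent.Lib.MP06c549.T6H
end

section
/-!
# MP_06c549_co, T6H, constant 13: at least five outer vertices
-/
set_option autoImplicit false

namespace Pool.Agent.Lib.MP06c549.T6H

open Finset

namespace Gr

variable {G : Gr} {o m k : ℕ} {x e g F b l r O : ℤ → ℕ}

/-- five outer vertices after (G2) and (G3): all faces `F i` are pentagons -/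
theorem Ring3.exists_mid (h : G.Ring3 m o 5 x e g F b l r O) :
    ∃ mm : ℤ → ℕ, (∀ i, G.E (r i) (b i) (mm i)) ∧ ∀ i, G.E (l (i + 1)) (b (i + 1)) (mm i) := by
  have key : ∀ j, ∃ c, G.E (r j) (b j) c ∧ G.E (l (j + 1)) (b (j + 1)) c := by
    intro j
    rcases h.g2 j with h1 | ⟨c, h1, h2⟩
    · exact h1
    · exact (h.G3 h.O_ne h1 h2).elim
  choose mm hm using key
  exact ⟨mm, fun i => (hm i).1, fun i => (hm i).2⟩

/-- there are not at least five outer vertices -/
theorem Ring3.false (h : G.Ring3 m o k x e g F b l r O) : False := by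
  have hk := h.k5
  rcases Nat.lt_or_ge 5 k with h4 | h4
  · exact h.no_six h4
  · obtain rfl : k = 5 := by omega
    obtain ⟨mm, er, el⟩ := h.exists_mid
    exact h.no_five h.O_ne h.e2 h.e3 mm er el

/-- at least five outer vertices, weights `7, 2, 4, 13` -/
theorem specRing (m : ℕ) : SpecRing 7 2 4 13 m := by
  intro o G hC h1 h2 h3 k x e g F b hR hk
  obtain ⟨l, r, O, h⟩ := exists_ring3 hC h1 hR hk (hR.T hC hk) (hR.J hC h1 h2 h3 hk)
  exact h.false

end Gr

end Pool.Agent.Lib.MP06c549.T6H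
end

section
/-!
# MP_06c549_co, T6H: all polygons, constant 13
-/
set_option autoImplicit false

namespace Pool.Agent.Lib.MP06c549.T6H

namespace Gr

/-- at least five outer vertices -/
theorem spec_ring13 (m : ℕ) : SpecRing 7 2 4 13 m := by
  intro o G hC h1 h2 h3 k x e g F b hR hk
  obtain ⟨l, r, O, h⟩ := exists_ring3 hC h1 hR hk (hR.T hC hk)
    (fun i v hv hv' => Ring.J (v := v) hR hC h1 h2 h3 hk i hv hv')
  exact h.false

/-- three outer vertices -/
theorem spec_three13 (m : ℕ) : SpecThree 7 2 4 13 m := fun o G hG h1 h2 h3 _ _ _ _ _ _ _ _ _ _ _ _ t =>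
  spec_Q3 m G o _ _ _ _ _ _ _ _ _ _ _ _ hG h1 h2 h3 t

/-- no minimal counterexample for the weights `7, 2, 4, 13` -/
theorem no_cx13 (m : ℕ) : ∀ u G, ¬ Cx0 7 2 4 13 m u G :=
  no_cx13_of (spec_ring13 m) (spec_three13 m)

end Gr

/-- Polygons with `n` vertices, `h₄` holes with four vertices, `h₆` holes with six vertices and `h₈`
other holes: `(7 n + 4 h₄ + 6 h₆ + 8 h₈) / 26` vertex guards. -/
theorem all13 (P : HPoly) (hP : P.IsPoly) :
    ∃ G : Finset (ℝ × ℝ), (G : Set (ℝ × ℝ)) ⊆ P.vertices ∧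
      G.card ≤ (7 * P.n + 4 * nRect P + 6 * nHex P + 8 * nOct P) / 26 ∧ P.Guards G := by
  have h := poly_of_no_cx (a := 7) (b := 2) (c := 4) (N := 13) (by norm_num) Gr.no_cx13 P hP
  norm_num at h
  exact h

/-- `(4 n - 2) / 13` vertex guards for every polygon -/
theorem all13' (P : HPoly) (hP : P.IsPoly) :
    ∃ G : Finset (ℝ × ℝ), (G : Set (ℝ × ℝ)) ⊆ P.vertices ∧
      G.card ≤ (4 * P.n - 2) / 13 ∧ P.Guards G := by
  obtain ⟨G, hG, hc, hg⟩ := poly_of_no_cx' (a := 7) (b := 2) (c := 4) (N := 13) (by norm_num)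
    (by norm_num) (by norm_num) Gr.no_cx13 P hP
  refine ⟨G, hG, hc.trans ?_, hg⟩
  omega

end Pool.Agent.Lib.MP06c549.T6H
end
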