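import Mathlib

/-!
# MP_06c549_co, T6H: plane graphs in algebraic form

Vertices, edges and faces are natural numbers. The edge `d` has the ends `p d`, `q d`, the two
sides (faces) `l d`, `r d` and the weight `w d` (number of pairs of vertices of degree two on it).
The faces in `us` are the unusable ones (the outer face is one of them); `ns` are the unusable
faces whose boundary is not a cycle, `hs` the usable faces of price 3.
-/

set_option autoImplicit false

namespace Pool.Agent.Lib.MP06c549.T6H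

open Finset

/-- a graph with faces -/
structure Gr where
  vs : Finset ℕ
  ds : Finset ℕ
  fs : Finset ℕ
  us : Finset ℕ
  hs : Finset ℕ
  ns : Finset ℕ
  p : ℕ → ℕ
  q : ℕ → ℕ
  l : ℕ → ℕ
  r : ℕ → ℕ
  w : ℕ → ℕ

namespace Gr

/-- the edges at `v` -/
def star (G : Gr) (v : ℕ) : Finset ℕ := G.ds.filter fun d => G.p d = v ∨ G.q d = v

/-- the edges with an end in `W` -/
def tds (G : Gr) (W : Finset ℕ) : Finset ℕ := G.ds.filter fun d => G.p d ∈ W ∨ G.q d ∈ W

/-- the faces touched by `W` -/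
def tf (G : Gr) (W : Finset ℕ) : Finset ℕ := (G.tds W).image G.l ∪ (G.tds W).image G.r

/-- how often the face `i` occurs at `v` -/
def cnt (G : Gr) (i v : ℕ) : ℕ :=
  ((G.star v).filter fun d => G.l d = i).card + ((G.star v).filter fun d => G.r d = i).card

/-- plane graphs -/
structure Good (G : Gr) : Prop where
  ends : ∀ d ∈ G.ds, G.p d ∈ G.vs ∧ G.q d ∈ G.vs
  ne : ∀ d ∈ G.ds, G.p d ≠ G.q d
  sides : ∀ d ∈ G.ds, G.l d ∈ G.fs ∧ G.r d ∈ G.fs
  us_sub : G.us ⊆ G.fs
  us_ne : G.us.Nonempty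
  even : ∀ v ∈ G.vs, ∀ x : ℕ → ZMod 2, ∑ d ∈ G.star v, (x (G.l d) + x (G.r d)) = 0
  exact : ∀ z : ℕ → ZMod 2, (∀ v ∈ G.vs, ∑ d ∈ G.star v, z d = 0) →
    ∃ x : ℕ → ZMod 2, ∀ d ∈ G.ds, z d = x (G.l d) + x (G.r d)
  dconn : ∀ x : ℕ → ZMod 2, (∀ d ∈ G.ds, x (G.l d) = x (G.r d)) →
    ∀ i ∈ G.fs, ∀ j ∈ G.fs, x i = x j
  link : ∀ v ∈ G.vs, ∀ x : ℕ → ZMod 2, (∀ d ∈ G.star v, x (G.l d) = x (G.r d)) →
    ∀ d ∈ G.star v, ∀ d' ∈ G.star v, x (G.l d) = x (G.l d')
  simp : ∀ v ∈ G.vs, ∀ i ∈ G.fs, i ∉ G.us → G.cnt i v ≤ 2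
  bconn : ∀ i ∈ G.fs, i ∉ G.us → ∀ f : ℕ → ZMod 2,
    (∀ d ∈ G.ds, (G.l d = i ∨ G.r d = i) → f (G.p d) = f (G.q d)) →
    ∀ d ∈ G.ds, (G.l d = i ∨ G.r d = i) → ∀ d' ∈ G.ds, (G.l d' = i ∨ G.r d' = i) →
      f (G.p d) = f (G.p d')

/-- girth at least four, an edge of weight `w` has length `1 + 2 w` -/
def Girth (G : Gr) : Prop :=
  ∀ Z ⊆ G.ds, (∀ v ∈ G.vs, ∑ d ∈ G.star v, (if d ∈ Z then (1 : ZMod 2) else 0) = 0) →
    Z.Nonempty → 4 ≤ ∑ d ∈ Z, (1 + 2 * G.w d)

variable {G : Gr}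

lemma mem_star {v d : ℕ} : d ∈ G.star v ↔ d ∈ G.ds ∧ (G.p d = v ∨ G.q d = v) := by
  rw [star, mem_filter]

lemma mem_tds {W : Finset ℕ} {d : ℕ} : d ∈ G.tds W ↔ d ∈ G.ds ∧ (G.p d ∈ W ∨ G.q d ∈ W) := by
  rw [tds, mem_filter]

lemma mem_tf {W : Finset ℕ} {i : ℕ} : i ∈ G.tf W ↔ ∃ d ∈ G.tds W, G.l d = i ∨ G.r d = i := by
  rw [tf, mem_union, mem_image, mem_image]
  constructor
  · rintro (⟨d, h1, h2⟩ | ⟨d, h1, h2⟩)
    · exact ⟨d, h1, Or.inl h2⟩
    · exact ⟨d, h1, Or.inr h2⟩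
  · rintro ⟨d, h1, h2 | h2⟩
    · exact Or.inl ⟨d, h1, h2⟩
    · exact Or.inr ⟨d, h1, h2⟩

lemma l_mem_tf {W : Finset ℕ} {d : ℕ} (h : d ∈ G.tds W) : G.l d ∈ G.tf W :=
  mem_tf.2 ⟨d, h, Or.inl rfl⟩

lemma r_mem_tf {W : Finset ℕ} {d : ℕ} (h : d ∈ G.tds W) : G.r d ∈ G.tf W :=
  mem_tf.2 ⟨d, h, Or.inr rfl⟩

lemma star_sub {v : ℕ} : G.star v ⊆ G.ds := filter_subset _ _

lemma tds_sub {W : Finset ℕ} : G.tds W ⊆ G.ds := filter_subset _ _

lemma star_sub_tds {W : Finset ℕ} {v : ℕ} (h : v ∈ W) : G.star v ⊆ G.tds W := by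
  intro d hd
  rw [mem_star] at hd
  rw [mem_tds]
  refine ⟨hd.1, ?_⟩
  rcases hd.2 with h1 | h1
  · exact Or.inl (h1 ▸ h)
  · exact Or.inr (h1 ▸ h)

lemma tf_sub (hG : G.Good) {W : Finset ℕ} : G.tf W ⊆ G.fs := by
  intro i hi
  obtain ⟨d, hd, h | h⟩ := mem_tf.1 hi
  · rw [← h]; exact (hG.sides d (tds_sub hd)).1
  · rw [← h]; exact (hG.sides d (tds_sub hd)).2

/-! ## Deletion -/

/-- the touched faces become the face `u` -/
def phi (G : Gr) (W : Finset ℕ) (u i : ℕ) : ℕ := if i ∈ G.tf W then u else i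

/-- deletion of the vertices in `W` -/
def del (G : Gr) (W : Finset ℕ) (u : ℕ) : Gr where
  vs := G.vs \ W
  ds := G.ds \ G.tds W
  fs := insert u (G.fs \ G.tf W)
  us := insert u (G.us \ G.tf W)
  hs := G.hs \ G.tf W
  ns := G.ns \ G.tf W
  p := G.p
  q := G.q
  l := fun d => G.phi W u (G.l d)
  r := fun d => G.phi W u (G.r d)
  w := G.w

/-- the touched faces are linked to `u` through the edges at `W` -/
def FC (G : Gr) (W : Finset ℕ) (u : ℕ) : Prop :=
  ∀ x : ℕ → ZMod 2, (∀ d ∈ G.tds W, x (G.l d) = x (G.r d)) → ∀ i ∈ G.tf W, x i = x u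

lemma star_del {W : Finset ℕ} {u v : ℕ} : (G.del W u).star v = G.star v \ G.tds W := by
  ext d
  rw [mem_sdiff, mem_star, mem_star]
  simp only [del, mem_sdiff]
  tauto

lemma phi_of_mem {W : Finset ℕ} {u i : ℕ} (h : i ∈ G.tf W) : G.phi W u i = u := if_pos h

lemma phi_of_not {W : Finset ℕ} {u i : ℕ} (h : i ∉ G.tf W) : G.phi W u i = i := if_neg h

lemma phi_u {W : Finset ℕ} {u : ℕ} : G.phi W u u = u := by
  unfold phi
  split_ifs <;> rfl

theorem Good.del (hG : G.Good) {W : Finset ℕ} {u : ℕ} (hu : u ∈ G.us) (hW : G.FC W u) :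
    (G.del W u).Good where
  ends := by
    intro d hd
    simp only [Gr.del, mem_sdiff, mem_tds, not_and, not_or] at hd ⊢
    exact ⟨⟨(hG.ends d hd.1).1, (hd.2 hd.1).1⟩, ⟨(hG.ends d hd.1).2, (hd.2 hd.1).2⟩⟩
  ne := by
    intro d hd
    simp only [Gr.del, mem_sdiff] at hd ⊢
    exact hG.ne d hd.1
  sides := by
    intro d hd
    simp only [Gr.del, mem_sdiff] at hd ⊢
    have h1 := hG.sides d hd.1
    constructor
    · by_cases h : G.l d ∈ G.tf W
      · rw [phi_of_mem h]; exact mem_insert_self _ _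
      · rw [phi_of_not h]; exact mem_insert_of_mem (mem_sdiff.2 ⟨h1.1, h⟩)
    · by_cases h : G.r d ∈ G.tf W
      · rw [phi_of_mem h]; exact mem_insert_self _ _
      · rw [phi_of_not h]; exact mem_insert_of_mem (mem_sdiff.2 ⟨h1.2, h⟩)
  us_sub := by
    intro i hi
    simp only [Gr.del, mem_insert, mem_sdiff] at hi ⊢
    rcases hi with h | h
    · exact Or.inl h
    · exact Or.inr ⟨hG.us_sub h.1, h.2⟩
  us_ne := ⟨u, mem_insert_self _ _⟩
  even := by
    intro v hv x
    rw [star_del]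
    have hv' : v ∈ G.vs := (mem_sdiff.1 hv).1
    have h1 := hG.even v hv' (fun i => x (G.phi W u i))
    rw [← sum_sdiff (inter_subset_left : G.star v ∩ G.tds W ⊆ G.star v), sdiff_inter_self_left] at h1
    have h2 : ∑ d ∈ G.star v ∩ G.tds W, (x (G.phi W u (G.l d)) + x (G.phi W u (G.r d))) = 0 := by
      refine sum_eq_zero fun d hd => ?_
      have hd' := (mem_inter.1 hd).2
      rw [phi_of_mem (l_mem_tf hd'), phi_of_mem (r_mem_tf hd')]
      exact CharTwo.add_self_eq_zero _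
    rw [h2, add_zero] at h1
    exact h1
  exact := by
    intro z hz
    obtain ⟨x, hx⟩ := hG.exact (fun d => if d ∈ G.tds W then 0 else z d) (by
      intro v hv
      by_cases hvW : v ∈ W
      · refine sum_eq_zero fun d hd => ?_
        exact if_pos (star_sub_tds hvW hd)
      · have h1 := hz v (mem_sdiff.2 ⟨hv, hvW⟩)
        rw [star_del] at h1
        rw [← sum_sdiff (inter_subset_left : G.star v ∩ G.tds W ⊆ G.star v), sdiff_inter_self_left]
        rw [sum_congr rfl (g := z), h1, zero_add]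
        · refine sum_eq_zero fun d hd => ?_
          exact if_pos (mem_inter.1 hd).2
        · intro d hd
          exact if_neg (mem_sdiff.1 hd).2)
    have h0 : ∀ i ∈ G.tf W, x i = x u := by
      refine hW x fun d hd => ?_
      have h1 := hx d (tds_sub hd)
      simp only [if_pos hd] at h1
      exact CharTwo.add_eq_zero.1 h1.symm
    have h3 : ∀ i, x (G.phi W u i) = x i := by
      intro i
      by_cases h : i ∈ G.tf W
      · rw [phi_of_mem h, h0 i h]
      · rw [phi_of_not h]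
    refine ⟨x, fun d hd => ?_⟩
    simp only [Gr.del, mem_sdiff] at hd ⊢
    rw [h3, h3, ← hx d hd.1, if_neg hd.2]
  dconn := by
    intro x hx i hi j hj
    have h1 := hG.dconn (fun i => x (G.phi W u i)) (by
      intro d hd
      by_cases h : d ∈ G.tds W
      · simp only [phi_of_mem (l_mem_tf h), phi_of_mem (r_mem_tf h)]
      · exact hx d (mem_sdiff.2 ⟨hd, h⟩))
    have key : ∀ i ∈ (G.del W u).fs, x i = x u := by
      intro i hi
      simp only [Gr.del, mem_insert, mem_sdiff] at hi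
      rcases hi with rfl | hi
      · rfl
      · have h2 := h1 i hi.1 u (hG.us_sub hu)
        simp only [phi_of_not hi.2, phi_u] at h2
        exact h2
    rw [key i hi, key j hj]
  link := by
    intro v hv x hx d hd d' hd'
    have hv' : v ∈ G.vs := (mem_sdiff.1 hv).1
    rw [star_del] at hd hd'
    have h1 := hG.link v hv' (fun i => x (G.phi W u i)) (by
      intro d hd
      by_cases h : d ∈ G.tds W
      · simp only [phi_of_mem (l_mem_tf h), phi_of_mem (r_mem_tf h)]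
      · exact hx d (by rw [star_del]; exact mem_sdiff.2 ⟨hd, h⟩)) d (mem_sdiff.1 hd).1 d'
      (mem_sdiff.1 hd').1
    exact h1
  simp := by
    intro v hv i hi hiu
    have hv' : v ∈ G.vs := (mem_sdiff.1 hv).1
    simp only [Gr.del, mem_insert, mem_sdiff, not_or, not_and, not_not] at hi hiu
    have hi' : i ∈ G.fs ∧ i ∉ G.tf W := by
      rcases hi with h | h
      · exact absurd h hiu.1
      · exact h
    have hiu' : i ∉ G.us := fun h => hi'.2 (hiu.2 h)
    refine le_trans ?_ (hG.simp v hv' i hi'.1 hiu')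
    have key : ∀ j, G.phi W u j = i → j = i := by
      intro j hj
      by_cases h : j ∈ G.tf W
      · rw [phi_of_mem h] at hj
        exact absurd hj.symm hiu.1
      · rwa [phi_of_not h] at hj
    unfold cnt
    refine add_le_add (card_le_card ?_) (card_le_card ?_)
    · intro d hd
      rw [star_del, mem_filter, mem_sdiff] at hd
      exact mem_filter.2 ⟨hd.1.1, key _ hd.2⟩
    · intro d hd
      rw [star_del, mem_filter, mem_sdiff] at hd
      exact mem_filter.2 ⟨hd.1.1, key _ hd.2⟩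
  bconn := by
    intro i hi hiu f hf d hd hdi d' hd' hdi'
    simp only [Gr.del, mem_insert, mem_sdiff, not_or, not_and, not_not] at hi hiu
    have hi' : i ∈ G.fs ∧ i ∉ G.tf W := by
      rcases hi with h | h
      · exact absurd h hiu.1
      · exact h
    have hiu' : i ∉ G.us := fun h => hi'.2 (hiu.2 h)
    have key : ∀ j, G.phi W u j = i ↔ j = i := by
      intro j
      constructor
      · intro hj
        by_cases h : j ∈ G.tf W
        · rw [phi_of_mem h] at hj
          exact absurd hj.symm hiu.1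
        · rwa [phi_of_not h] at hj
      · rintro rfl
        exact phi_of_not hi'.2
    have hmem : ∀ d ∈ G.ds, (G.l d = i ∨ G.r d = i) → d ∈ G.ds \ G.tds W := by
      intro d hd h
      refine mem_sdiff.2 ⟨hd, fun h1 => hi'.2 ?_⟩
      rcases h with h | h
      · rw [← h]; exact l_mem_tf h1
      · rw [← h]; exact r_mem_tf h1
    simp only [Gr.del, key] at hf hdi hdi' hd hd' ⊢
    exact hG.bconn i hi'.1 hiu' f (fun d hd h => hf d (hmem d hd h) h) d (mem_sdiff.1 hd).1 hdi d'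
      (mem_sdiff.1 hd').1 hdi'

lemma Girth.del (hG : G.Girth) {W : Finset ℕ} {u : ℕ} : (G.del W u).Girth := by
  intro Z hZ hev hne
  have hZ' : Z ⊆ G.ds := fun d hd => (mem_sdiff.1 (hZ hd)).1
  refine hG Z hZ' (fun v hv => ?_) hne
  by_cases hvW : v ∈ W
  · refine sum_eq_zero fun d hd => ?_
    refine if_neg fun hdZ => ?_
    exact (mem_sdiff.1 (hZ hdZ)).2 (star_sub_tds hvW hd)
  · have h1 := hev v (mem_sdiff.2 ⟨hv, hvW⟩)
    rw [star_del] at h1
    rw [← sum_sdiff (inter_subset_left : G.star v ∩ G.tds W ⊆ G.star v), sdiff_inter_self_left, h1,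
      zero_add]
    refine sum_eq_zero fun d hd => ?_
    refine if_neg fun hdZ => ?_
    exact (mem_sdiff.1 (hZ hdZ)).2 (mem_inter.1 hd).2

end Gr

end Pool.Agent.Lib.MP06c549.T6H
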